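import Pool.Agent.H67.WQ.Dich

set_option autoImplicit false

namespace Pool.Agent.H67.WQ

/-! ### Ramsey's theorem for graphs -/

theorem ramsey {V : Type} [DecidableEq V] (G : SimpleGraph V) : ∀ (k s t : ℕ), s + t = k →
    ∀ L : Finset V, 2 ^ k ≤ L.card →
    (∃ K ⊆ L, K.card = s ∧ ∀ a ∈ K, ∀ b ∈ K, a ≠ b → G.Adj a b) ∨
    (∃ I ⊆ L, I.card = t ∧ ∀ a ∈ I, ∀ b ∈ I, a ≠ b → ¬ G.Adj a b) := by
  classical
  intro k
  induction k with
  | zero =>
    intro s t hst L _
    left
    exact ⟨∅, by simp, by simp; omega, by simp⟩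
  | succ k ih =>
    intro s t hst L hL
    rcases s with _ | s
    · left; exact ⟨∅, by simp, by simp, by simp⟩
    rcases t with _ | t
    · right; exact ⟨∅, by simp, by simp, by simp⟩
    have hpos : 0 < L.card := lt_of_lt_of_le (by positivity) hL
    obtain ⟨v, hv⟩ := Finset.card_pos.1 hpos
    let A := (L.erase v).filter (fun w => G.Adj v w)
    let B := (L.erase v).filter (fun w => ¬ G.Adj v w)
    have hAB : A.card + B.card = L.card - 1 := by
      rw [Finset.card_filter_add_card_filter_not, Finset.card_erase_of_mem hv]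
    have hpow : 2 ^ (k + 1) = 2 ^ k + 2 ^ k := by ring
    have hsplit : 2 ^ k ≤ A.card ∨ 2 ^ k ≤ B.card := by
      by_contra hcon
      push Not at hcon
      omega
    rcases hsplit with hA | hB
    · rcases ih s (t + 1) (by omega) A hA with ⟨K, hK, hKc, hKcl⟩ | ⟨I, hI, hIc, hIi⟩
      · left
        have hvK : v ∉ K := fun h => by
          have := hK h
          simp [A] at this
        refine ⟨insert v K, ?_, by rw [Finset.card_insert_of_notMem hvK, hKc], ?_⟩
        · intro w hw
          rw [Finset.mem_insert] at hw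
          rcases hw with rfl | hw
          · exact hv
          · exact Finset.mem_of_mem_erase (Finset.mem_of_mem_filter _ (hK hw))
        · intro a ha b hb hab
          rw [Finset.mem_insert] at ha hb
          rcases ha with rfl | ha <;> rcases hb with rfl | hb
          · exact absurd rfl hab
          · exact (Finset.mem_filter.1 (hK hb)).2
          · exact (Finset.mem_filter.1 (hK ha)).2.symm
          · exact hKcl a ha b hb hab
      · right
        refine ⟨I, fun w hw => Finset.mem_of_mem_erase (Finset.mem_of_mem_filter _ (hI hw)),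
          hIc, hIi⟩
    · rcases ih (s + 1) t (by omega) B hB with ⟨K, hK, hKc, hKcl⟩ | ⟨I, hI, hIc, hIi⟩
      · left
        refine ⟨K, fun w hw => Finset.mem_of_mem_erase (Finset.mem_of_mem_filter _ (hK hw)),
          hKc, hKcl⟩
      · right
        have hvK : v ∉ I := fun h => by
          have := hI h
          simp [B] at this
        refine ⟨insert v I, ?_, by rw [Finset.card_insert_of_notMem hvK, hIc], ?_⟩
        · intro w hw
          rw [Finset.mem_insert] at hw
          rcases hw with rfl | hw
          · exact hv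
          · exact Finset.mem_of_mem_erase (Finset.mem_of_mem_filter _ (hI hw))
        · intro a ha b hb hab
          rw [Finset.mem_insert] at ha hb
          rcases ha with rfl | ha <;> rcases hb with rfl | hb
          · exact absurd rfl hab
          · exact (Finset.mem_filter.1 (hI hb)).2
          · intro h
            exact (Finset.mem_filter.1 (hI ha)).2 h.symm
          · exact hIi a ha b hb hab

theorem ramsey_set {V : Type} [Fintype V] (G : SimpleGraph V) (s t : ℕ) (L : Set V)
    (hL : 2 ^ (s + t) ≤ L.ncard) :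
    (∃ K ⊆ L, K.ncard = s ∧ ∀ a ∈ K, ∀ b ∈ K, a ≠ b → G.Adj a b) ∨
    (∃ I ⊆ L, I.ncard = t ∧ ∀ a ∈ I, ∀ b ∈ I, a ≠ b → ¬ G.Adj a b) := by
  classical
  rw [Set.ncard_eq_toFinset_card'] at hL
  rcases ramsey G (s + t) s t rfl L.toFinset hL with ⟨K, hK, hKc, hKcl⟩ | ⟨I, hI, hIc, hIi⟩
  · left
    refine ⟨K, fun x hx => by simpa using hK hx, by rw [Set.ncard_coe_finset, hKc], ?_⟩
    intro a ha b hb
    exact hKcl a ha b hb
  · right
    refine ⟨I, fun x hx => by simpa using hI hx, by rw [Set.ncard_coe_finset, hIc], ?_⟩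
    intro a ha b hb
    exact hIi a ha b hb

/-! ### Independent sets with connected complement -/

theorem ncard_indep {p : ℕ} {V : Type} [Fintype V] {G : SimpleGraph V} (h : StarFree p G)
    {I : Set V} (hI : ∀ a ∈ I, ∀ b ∈ I, a ≠ b → ¬ G.Adj a b) (hc : Cn G Iᶜ) :
    I.ncard + 1 ≤ p := by
  have h1 := ncard_comps h hc
  have h2 : I.ncard ≤ (Comps G Iᶜ).ncard := by
    apply Set.ncard_le_ncard_of_injOn (fun i => comp G Iᶜ i)
    · intro i hi
      exact ⟨i, fun h => h hi, rfl⟩
    · intro i hi j hj hij
      by_contra hne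
      have hj' : j ∈ comp G Iᶜ i := by
        simp only at hij
        rw [hij]
        exact mem_comp_self (fun h => h hj)
      obtain ⟨T, hT, hTS, hiT, hjT⟩ := hj'
      obtain ⟨a, ha, b, hb, hab⟩ := hT.2 {i} (Set.singleton_subset_iff.2 hiT) ⟨i, rfl⟩
        ⟨j, hjT, fun e => hne (Set.mem_singleton_iff.1 e).symm⟩
      have haI : a ∈ I := by
        have ha' : a = i := ha
        rw [ha']; exact hi
      have hbI : b ∈ I := by
        by_contra hbI
        exact hTS b hb.1 hbI
      exact hI a haI b hbI hab.ne hab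
  omega

/-- `H` has no large clique -/
def CliqueBound {V : Type} (H : SimpleGraph V) (m : ℕ) : Prop :=
  ∀ K : Set V, (∀ a ∈ K, ∀ b ∈ K, a ≠ b → H.Adj a b) → K.ncard ≤ m

/-- sets of leaves are small -/
def LeafBound {V : Type} (H : SimpleGraph V) (l : ℕ) : Prop :=
  ∀ L : Set V, Cn H Lᶜ → (∀ a ∈ L, ∃ b, b ∉ L ∧ H.Adj a b) → L.ncard < l

theorem leafBound {p m : ℕ} {V : Type} [Fintype V] {G : SimpleGraph V} (h : StarFree p G)
    (hm : CliqueBound G m) : LeafBound G (2 ^ (m + 1 + p)) := by
  intro L hL hdom
  by_contra hcon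
  push Not at hcon
  rcases ramsey_set G (m + 1) p L hcon with ⟨K, hK, hKc, hKcl⟩ | ⟨I, hI, hIc, hIi⟩
  · have := hm K hKcl
    omega
  · have hc : Cn G Iᶜ := by
      apply cn_of_base hL (Set.compl_subset_compl.2 hI)
      intro x hx
      refine ⟨{x}, Set.singleton_subset_iff.2 hx, cn_singleton G x, rfl, ?_⟩
      by_cases hxL : x ∈ L
      · right
        obtain ⟨b, hb, hab⟩ := hdom x hxL
        exact ⟨b, hb, x, rfl, hab.symm⟩
      · exact Or.inl ⟨x, hxL, rfl⟩
    have := ncard_indep h hIi hc
    omega

/-! ### Counting the vertices of degree different from two -/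

section count
variable {V : Type} [Fintype V] (H : SimpleGraph V)

/-- the neighbours of a set -/
def nb (B : Set V) : Set V := {v | v ∉ B ∧ ∃ b ∈ B, H.Adj b v}
/-- the vertices at distance at least two from a set -/
def un (B : Set V) : Set V := {v | v ∉ B ∧ v ∉ nb H B}
/-- the neighbours of a vertex at distance at least two from a set -/
def nw (B : Set V) (u : V) : Set V := {w | w ∈ un H B ∧ H.Adj u w}
/-- the active neighbours -/
def act (B : Set V) : Set V := {u | u ∈ nb H B ∧ (nw H B u).Nonempty}
/-- the number of neighbours -/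
noncomputable def dg (w : V) : ℕ := {z | H.Adj w z}.ncard

variable {H}

theorem nb_insert {B : Set V} {u : V} (hu : u ∈ nb H B) :
    nb H (insert u B) = (nb H B \ {u}) ∪ nw H B u := by
  ext v
  constructor
  · rintro ⟨hv, b, hb, hbv⟩
    have hvu : v ≠ u := fun e => hv (Or.inl e)
    have hvB : v ∉ B := fun e => hv (Or.inr e)
    by_cases hvn : v ∈ nb H B
    · exact Or.inl ⟨hvn, hvu⟩
    · right
      rcases hb with rfl | hb
      · exact ⟨⟨hvB, hvn⟩, hbv⟩
      · exact absurd ⟨hvB, b, hb, hbv⟩ hvn
  · rintro (⟨hv, hvu⟩ | ⟨hv, huv⟩)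
    · obtain ⟨hvB, b, hb, hbv⟩ := hv
      refine ⟨?_, b, Or.inr hb, hbv⟩
      rintro (h | h)
      · exact hvu h
      · exact hvB h
    · refine ⟨?_, u, Or.inl rfl, huv⟩
      rintro (h | h)
      · subst h
        exact H.loopless.irrefl _ huv
      · exact hv.1 h

theorem un_insert {B : Set V} {u : V} (hu : u ∈ nb H B) :
    un H (insert u B) = un H B \ nw H B u := by
  ext v
  constructor
  · rintro ⟨hv, hvn⟩
    rw [nb_insert hu] at hvn
    have hvu : v ≠ u := fun e => hv (Or.inl e)
    have hvB : v ∉ B := fun e => hv (Or.inr e)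
    refine ⟨⟨hvB, fun h => hvn (Or.inl ⟨h, hvu⟩)⟩, fun h => hvn (Or.inr h)⟩
  · rintro ⟨hv, hvw⟩
    refine ⟨?_, ?_⟩
    · rintro (h | h)
      · subst h
        exact hv.2 hu
      · exact hv.1 h
    · rw [nb_insert hu]
      rintro (h | h)
      · exact hv.2 h.1
      · exact hvw h

theorem ncard_nb_insert {B : Set V} {u : V} (hu : u ∈ nb H B) :
    (nb H (insert u B)).ncard + 1 = (nb H B).ncard + (nw H B u).ncard := by
  rw [nb_insert hu, Set.ncard_union_eq, Set.ncard_diff_singleton_of_mem hu]
  · have : 0 < (nb H B).ncard := by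
      rw [Set.ncard_pos]
      exact ⟨u, hu⟩
    omega
  · rw [Set.disjoint_left]
    rintro v ⟨hv, _⟩ ⟨hv', _⟩
    exact hv'.2 hv

theorem act_insert {B : Set V} {u : V} (hu : u ∈ nb H B) :
    act H (insert u B) ⊆ (act H B \ {u}) ∪ nw H B u := by
  rintro v ⟨hv, w, hw, hvw⟩
  rw [nb_insert hu] at hv
  rw [un_insert hu] at hw
  rcases hv with hv | hv
  · exact Or.inl ⟨⟨hv.1, w, hw.1, hvw⟩, hv.2⟩
  · exact Or.inr hv

theorem un_empty_of_act {B : Set V} (hH : H.Connected) (hB : B.Nonempty)
    (h : act H B = ∅) : un H B = ∅ := by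
  by_contra hne
  obtain ⟨w0, hw0⟩ := Set.nonempty_iff_ne_empty.2 hne
  obtain ⟨b0, hb0⟩ := hB
  obtain ⟨a, ha, b, hb, hab⟩ := cut_of_connected H hH (un H B) ⟨w0, hw0⟩ ⟨b0, fun h => h.1 hb0⟩
  have hb' : b ∈ nb H B := by
    by_contra hbn
    by_cases hbB : b ∈ B
    · exact ha.2 ⟨ha.1, b, hbB, hab.symm⟩
    · exact hb ⟨hbB, hbn⟩
  have : b ∈ act H B := ⟨hb', a, ha, hab.symm⟩
  rw [h] at this
  exact this

/-- the boundary of a connected set is small -/
theorem nb_lt {l : ℕ} (hH : H.Connected) (hl : LeafBound H l) :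
    ∀ (k : ℕ) (B : Set V), (un H B).ncard ≤ k → Cn H B → (nb H B).ncard < l := by
  intro k
  induction k with
  | zero =>
    intro B hk hB
    have hun : un H B = ∅ := by
      rw [← Set.ncard_eq_zero]; omega
    have hc : (nb H B)ᶜ = B := by
      ext v
      constructor
      · intro hv
        by_contra hvB
        have : v ∈ un H B := ⟨hvB, hv⟩
        rw [hun] at this
        exact this
      · intro hv h
        exact h.1 hv
    apply hl
    · rw [hc]; exact hB
    · rintro a ⟨ha, b, hb, hba⟩
      exact ⟨b, fun h => h.1 hb, hba.symm⟩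
  | succ k ih =>
    intro B hk hB
    by_cases hact : act H B = ∅
    · have hun := un_empty_of_act hH hB.1 hact
      exact ih B (by rw [hun, Set.ncard_empty]; omega) hB
    · obtain ⟨u, hu, w, hw, huw⟩ := Set.nonempty_iff_ne_empty.2 hact
      have hB' : Cn H (insert u B) := by
        obtain ⟨_, b, hb, hbu⟩ := hu
        exact cn_insert hB hb hbu
      have hlt : (un H (insert u B)).ncard < (un H B).ncard := by
        rw [un_insert hu]
        apply Set.ncard_lt_ncard _ (Set.toFinite _)
        refine ⟨Set.diff_subset, fun h => ?_⟩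
        exact (h hw).2 ⟨hw, huw⟩
      have h1 := ih (insert u B) (by omega) hB'
      have h2 := ncard_nb_insert hu
      have h3 : 0 < (nw H B u).ncard := by
        rw [Set.ncard_pos]
        exact ⟨w, hw, huw⟩
      omega

theorem count_bad {l : ℕ} (hH : H.Connected) (hl : LeafBound H l) :
    ∀ (k : ℕ) (B : Set V), (un H B).ncard ≤ k → Cn H B →
      {w | w ∈ un H B ∧ dg H w ≠ 2}.ncard ≤
        (l - (nb H B).ncard) * (3 * l + 1) + 2 * (act H B).ncard := by
  intro k
  induction k using Nat.strong_induction_on with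
  | _ k ih =>
  intro B hk hB
  by_cases hact : act H B = ∅
  · have hun := un_empty_of_act hH hB.1 hact
    have : {w | w ∈ un H B ∧ dg H w ≠ 2} = ∅ := by
      rw [hun]
      ext w
      simp
    rw [this, Set.ncard_empty]
    exact Nat.zero_le _
  -- general facts about the insertion of an active vertex
  have hstep : ∀ (B : Set V), Cn H B → ∀ u, u ∈ nb H B → ∀ w, w ∈ nw H B u →
      Cn H (insert u B) ∧ (un H (insert u B)).ncard < (un H B).ncard ∧
      (nb H (insert u B)).ncard < l ∧ (act H (insert u B)).ncard < l := by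
    intro B hB u hu w hw
    have hB' : Cn H (insert u B) := by
      obtain ⟨_, b, hb, hbu⟩ := hu
      exact cn_insert hB hb hbu
    have hnb := nb_lt hH hl _ (insert u B) le_rfl hB'
    refine ⟨hB', ?_, hnb, lt_of_le_of_lt (Set.ncard_le_ncard (fun v hv => hv.1)
      (Set.toFinite _)) hnb⟩
    rw [un_insert hu]
    apply Set.ncard_lt_ncard _ (Set.toFinite _)
    refine ⟨Set.diff_subset, fun h => ?_⟩
    exact (h hw.1).2 hw
  have hbsub : ∀ (B : Set V) (u : V), u ∈ nb H B →
      {w | w ∈ un H B ∧ dg H w ≠ 2} ⊆
      {w | w ∈ un H (insert u B) ∧ dg H w ≠ 2} ∪ {w | w ∈ nw H B u ∧ dg H w ≠ 2} := by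
    intro B u hu w hw
    by_cases hwn : w ∈ nw H B u
    · exact Or.inr ⟨hwn, hw.2⟩
    · left
      refine ⟨?_, hw.2⟩
      rw [un_insert hu]
      exact ⟨hw.1, hwn⟩
  have hcard : ∀ (B : Set V) (u : V), u ∈ nb H B →
      {w | w ∈ un H B ∧ dg H w ≠ 2}.ncard ≤
      {w | w ∈ un H (insert u B) ∧ dg H w ≠ 2}.ncard +
        {w | w ∈ nw H B u ∧ dg H w ≠ 2}.ncard := fun B u hu =>
    (Set.ncard_le_ncard (hbsub B u hu) (Set.toFinite _)).trans (Set.ncard_union_le _ _)
  have hnbB := nb_lt hH hl _ B le_rfl hB
  have hnwle : ∀ (B : Set V) (u : V), {w | w ∈ nw H B u ∧ dg H w ≠ 2}.ncard ≤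
      (nw H B u).ncard := fun B u => Set.ncard_le_ncard (fun w hw => hw.1) (Set.toFinite _)
  -- arithmetic of the growing case
  have arith : ∀ b b' j a' : ℕ, b' + 1 = b + j → 2 ≤ j → b < l → b' < l → a' < l →
      j + ((l - b') * (3 * l + 1) + 2 * a') + 1 ≤ (l - b) * (3 * l + 1) := by
    intro b b' j a' h1 h2 h3 h4 h5
    have e1 : (l - b) = (l - b') + (b' - b) := by omega
    have e2 : 1 ≤ b' - b := by omega
    rw [e1, Nat.add_mul]
    have e3 : 3 * l + 1 ≤ (b' - b) * (3 * l + 1) := Nat.le_mul_of_pos_left _ e2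
    omega
  by_cases hbig : ∃ u ∈ nb H B, 2 ≤ (nw H B u).ncard
  · obtain ⟨u, hu, hj⟩ := hbig
    obtain ⟨w, hw⟩ : (nw H B u).Nonempty := by
      rw [← Set.ncard_pos]; omega
    obtain ⟨s1, s2, s3, s4⟩ := hstep B hB u hu w hw
    have h1 := ih (un H (insert u B)).ncard (by omega) (insert u B) le_rfl s1
    have h2 := hcard B u hu
    have h3 := hnwle B u
    have h4 := ncard_nb_insert hu
    have h5 := arith _ _ _ _ h4 hj hnbB s3 s4
    omega
  · push Not at hbig
    obtain ⟨u, hua⟩ := Set.nonempty_iff_ne_empty.2 hact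
    obtain ⟨hu, w, hw⟩ := hua
    have hnw1 : ∀ z ∈ nb H B, ∀ x ∈ nw H B z, ∀ y ∈ nw H B z, x = y := by
      intro z hz x hx y hy
      have := hbig z hz
      by_contra hne
      have h2 : 1 < (nw H B z).ncard := by
        rw [Set.one_lt_ncard]
        exact ⟨x, hx, y, hy, hne⟩
      omega
    have hnwu : nw H B u = {w} := by
      ext x
      constructor
      · intro hx
        exact hnw1 u hu x hx w hw
      · rintro rfl; exact hw
    obtain ⟨s1, s2, s3, s4⟩ := hstep B hB u hu w hw
    have h4 := ncard_nb_insert hu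
    rw [hnwu, Set.ncard_singleton] at h4
    have hb' : (nb H (insert u B)).ncard = (nb H B).ncard := by omega
    have hua : u ∈ act H B := ⟨hu, w, hw⟩
    have hapos : 0 < (act H B).ncard := by
      rw [Set.ncard_pos]
      exact ⟨u, hua⟩
    have hasub := act_insert hu
    have hadiff : (act H B \ {u}).ncard + 1 = (act H B).ncard := by
      rw [Set.ncard_diff_singleton_of_mem hua]
      omega
    have h2 := hcard B u hu
    by_cases hdg : dg H w = 2
    · -- nothing is counted
      have hzero : {x | x ∈ nw H B u ∧ dg H x ≠ 2} = ∅ := by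
        rw [hnwu]
        ext x
        constructor
        · rintro ⟨hx, hx'⟩
          have hxw : x = w := hx
          exact hx' (hxw ▸ hdg)
        · intro hx
          exact absurd hx (Set.notMem_empty x)
      rw [hzero, Set.ncard_empty] at h2
      have h1 := ih (un H (insert u B)).ncard (by omega) (insert u B) le_rfl s1
      rw [hb'] at h1
      have h3 : (act H (insert u B)).ncard ≤ (act H B).ncard := by
        have := (Set.ncard_le_ncard hasub (Set.toFinite _)).trans (Set.ncard_union_le _ _)
        rw [hnwu, Set.ncard_singleton] at this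
        omega
      omega
    · have hone : {x | x ∈ nw H B u ∧ dg H x ≠ 2}.ncard ≤ 1 := by
        have := hnwle B u
        rw [hnwu, Set.ncard_singleton] at this
        rw [hnwu]
        exact this
      by_cases hchord : ∃ z ∈ nb H B, z ≠ u ∧ H.Adj z w
      · -- a chord: the number of active vertices decreases
        obtain ⟨z, hz, hzu, hzw⟩ := hchord
        have h1 := ih (un H (insert u B)).ncard (by omega) (insert u B) le_rfl s1
        rw [hb'] at h1
        have hza : z ∈ act H B \ {u} := ⟨⟨hz, w, hw.1, hzw⟩, hzu⟩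
        have hsub' : act H (insert u B) ⊆ ((act H B \ {u}) \ {z}) ∪ {w} := by
          intro v hv
          have hv1 := hasub hv
          rw [hnwu] at hv1
          rcases hv1 with hv1 | hv1
          · by_cases hvz : v = z
            · exfalso
              subst hvz
              obtain ⟨_, x, hx, hvx⟩ := hv
              rw [un_insert hu] at hx
              have : x = w := hnw1 v hz x ⟨hx.1, hvx⟩ w ⟨hw.1, hzw⟩
              apply hx.2
              rw [this]; exact hw
            · exact Or.inl ⟨hv1, hvz⟩
          · exact Or.inr hv1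
        have h3 := (Set.ncard_le_ncard hsub' (Set.toFinite _)).trans (Set.ncard_union_le _ _)
        rw [Set.ncard_singleton, Set.ncard_diff_singleton_of_mem hza] at h3
        have hzpos : 0 < (act H B \ {u}).ncard := by
          rw [Set.ncard_pos]
          exact ⟨z, hza⟩
        omega
      · push Not at hchord
        -- all neighbours of w except u are new
        have hwn : w ∈ nb H (insert u B) := by
          rw [nb_insert hu]
          exact Or.inr hw
        have hnbw : {z | H.Adj w z} \ {u} ⊆ nw H (insert u B) w := by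
          rintro z ⟨hwz, hzu⟩
          have hwz' : H.Adj w z := hwz
          have hzu' : z ≠ u := hzu
          refine ⟨?_, hwz'⟩
          rw [un_insert hu, hnwu]
          refine ⟨⟨?_, ?_⟩, ?_⟩
          · intro hzB
            exact hw.1.2 ⟨hw.1.1, z, hzB, hwz'.symm⟩
          · intro hzn
            exact hchord z hzn hzu' hwz'.symm
          · intro e
            have : z = w := e
            exact hwz'.ne this.symm
        have hdgw : dg H w ≤ (nw H (insert u B) w).ncard + 1 := by
          have h5 := Set.ncard_le_ncard hnbw (Set.toFinite _)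
          rw [Set.ncard_diff_singleton_of_mem (show u ∈ {z | H.Adj w z} from hw.2.symm)] at h5
          unfold dg
          omega
        have hdg1 : 1 ≤ dg H w := by
          unfold dg
          have : 0 < {z | H.Adj w z}.ncard := by
            rw [Set.ncard_pos]
            exact ⟨u, hw.2.symm⟩
          omega
        by_cases hj : 2 ≤ (nw H (insert u B) w).ncard
        · obtain ⟨x, hx⟩ : (nw H (insert u B) w).Nonempty := by
            rw [← Set.ncard_pos]; omega
          obtain ⟨t1, t2, t3, t4⟩ := hstep (insert u B) s1 w hwn x hx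
          have h1 := ih (un H (insert w (insert u B))).ncard (by omega) _ le_rfl t1
          have h6 := hcard (insert u B) w hwn
          have h7 := hnwle (insert u B) w
          have h8 := ncard_nb_insert hwn
          rw [hb'] at h8
          have h9 := arith _ _ _ _ h8 hj hnbB t3 t4
          omega
        · -- w has degree one
          have hdg1' : dg H w = 1 := by omega
          have hinact : w ∉ act H (insert u B) := by
            rintro ⟨_, x, hx, hwx⟩
            have hxu : x ≠ u := by
              rintro rfl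
              exact hx.1 (Or.inl rfl)
            have : 2 ≤ dg H w := by
              unfold dg
              have : 1 < {z | H.Adj w z}.ncard := by
                rw [Set.one_lt_ncard]
                exact ⟨x, hwx, u, hw.2.symm, hxu⟩
              omega
            omega
          have h1 := ih (un H (insert u B)).ncard (by omega) (insert u B) le_rfl s1
          rw [hb'] at h1
          have hsub' : act H (insert u B) ⊆ act H B \ {u} := by
            intro v hv
            have hv1 := hasub hv
            rw [hnwu] at hv1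
            rcases hv1 with hv1 | hv1
            · exact hv1
            · have hvw : v = w := hv1
              exact absurd (hvw ▸ hv) hinact
          have h3 := Set.ncard_le_ncard hsub' (Set.toFinite _)
          omega

theorem count_deg {l : ℕ} (hH : H.Connected) (hl : LeafBound H l) :
    {w | dg H w ≠ 2}.ncard ≤ 1 + l + l * (3 * l + 1) + 2 * l := by
  obtain ⟨v⟩ := hH.nonempty
  have hB := cn_singleton H v
  have h1 := count_bad hH hl _ {v} le_rfl hB
  have h2 := nb_lt hH hl _ {v} le_rfl hB
  have h3 : (act H {v}).ncard ≤ (nb H {v}).ncard :=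
    Set.ncard_le_ncard (fun u hu => hu.1) (Set.toFinite _)
  have hsub : {w | dg H w ≠ 2} ⊆ {v} ∪ (nb H {v} ∪ {w | w ∈ un H {v} ∧ dg H w ≠ 2}) := by
    intro w hw
    by_cases hwv : w = v
    · exact Or.inl hwv
    · right
      by_cases hwn : w ∈ nb H {v}
      · exact Or.inl hwn
      · exact Or.inr ⟨⟨hwv, hwn⟩, hw⟩
  have h4 := (Set.ncard_le_ncard hsub (Set.toFinite _)).trans (Set.ncard_union_le _ _)
  have h5 := Set.ncard_union_le (nb H {v}) {w | w ∈ un H {v} ∧ dg H w ≠ 2}
  rw [Set.ncard_singleton] at h4
  have h6 : (l - (nb H {v}).ncard) * (3 * l + 1) ≤ l * (3 * l + 1) :=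
    Nat.mul_le_mul_right _ (Nat.sub_le _ _)
  omega

theorem dg_lt {l : ℕ} (hH : H.Connected) (hl : LeafBound H l) (v : V) : dg H v < l := by
  have h2 := nb_lt hH hl _ {v} le_rfl (cn_singleton H v)
  refine lt_of_le_of_lt (Set.ncard_le_ncard ?_ (Set.toFinite _)) h2
  intro w hw
  exact ⟨fun e => (hw : H.Adj v w).ne (Set.mem_singleton_iff.1 e).symm, v, rfl, hw⟩

end count

end Pool.Agent.H67.WQ
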