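import Pool.Agent.H67.WQ.Two3

set_option autoImplicit false

namespace Pool.Agent.H67.WQ

/-- an enumeration of a co-bipartite chain graph as a word in two letters: equal letters are
adjacent, and `true` is adjacent to every later `false` -/
structure CW {V : Type} (G : SimpleGraph V) (n : ℕ) (w : ℕ → Bool) (e : V → ℕ) : Prop where
  inj : Function.Injective e
  lt : ∀ v, e v < n
  surj : ∀ i < n, ∃ v, e v = i
  adj : ∀ u v, G.Adj u v ↔ u ≠ v ∧ (w (e u) = w (e v) ∨
    (w (e u) = true ∧ w (e v) = false ∧ e u < e v) ∨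
    (w (e v) = true ∧ w (e u) = false ∧ e v < e u))

theorem CW.contr {V V' : Type} {G : SimpleGraph V} {G' : SimpleGraph V'} {n n' : ℕ}
    {w w' : ℕ → Bool} {e : V → ℕ} {e' : V' → ℕ} (h : CW G n w e) (h' : CW G' n' w' e')
    (E : ℕ → ℕ) (hE : ∀ i j, i < j → j < n → E i < E j) (hEn : ∀ i < n, E i < n')
    (hw : ∀ i < n, w' (E i) = w i) (A B : ℕ) (hA : A < n) (hB : B < n) (hwA : w A = false)
    (hwB : w B = true) (hex : ∀ t < n', (∀ i < n, E i ≠ t) →
      (w' t = false ∧ t ≤ E A) ∨ (w' t = true ∧ E B ≤ t)) : Contr G' G := by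
  classical
  have hF : ∀ t, ∃ i, t < n' → i < n ∧ w i = w' t ∧ (w' t = false → t ≤ E i) ∧
      (w' t = true → E i ≤ t) ∧ ∀ j < n, E j = t → i = j := by
    intro t
    by_cases ht : ∃ i, i < n ∧ E i = t
    · obtain ⟨i, hi, hit⟩ := ht
      refine ⟨i, fun _ => ⟨hi, by rw [← hit, hw i hi], fun _ => hit.ge, fun _ => hit.le, ?_⟩⟩
      intro j hj hjt
      rcases lt_trichotomy i j with h1 | h1 | h1
      · have := hE i j h1 hj
        omega
      · exact h1
      · have := hE j i h1 hi
        omega
    · push Not at ht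
      by_cases htn : t < n'
      · rcases hex t htn ht with ⟨h1, h2⟩ | ⟨h1, h2⟩
        · refine ⟨A, fun _ => ⟨hA, by rw [hwA, h1], fun _ => h2, ?_, ?_⟩⟩
          · intro h3
            rw [h1] at h3
            exact absurd h3 (by decide)
          · intro j hj hjt
            exact absurd hjt (ht j hj)
        · refine ⟨B, fun _ => ⟨hB, by rw [hwB, h1], ?_, fun _ => h2, ?_⟩⟩
          · intro h3
            rw [h1] at h3
            exact absurd h3 (by decide)
          · intro j hj hjt
            exact absurd hjt (ht j hj)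
      · exact ⟨0, fun h => absurd h htn⟩
  choose F hF using hF
  have hf : ∀ v' : V', ∃ v : V, e v = F (e' v') := fun v' => h.surj _ (hF _ (h'.lt v')).1
  choose f hf using hf
  have hcol : ∀ v', w (e (f v')) = w' (e' v') := by
    intro v'
    rw [hf, (hF _ (h'.lt v')).2.1]
  have hpre : ∀ v, ∃ v', e' v' = E (e v) ∧ f v' = v := by
    intro v
    obtain ⟨v', hv'⟩ := h'.surj (E (e v)) (hEn _ (h.lt v))
    refine ⟨v', hv', ?_⟩
    apply h.inj
    rw [hf]
    exact (hF _ (h'.lt v')).2.2.2.2 _ (h.lt v) hv'.symm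
  refine ⟨f, ?_, ?_⟩
  · intro v
    obtain ⟨v', _, hv'⟩ := hpre v
    apply cn_of_clique G' ⟨v', hv'⟩
    intro x hx y hy hxy
    have hx' : f x = v := hx
    have hy' : f y = v := hy
    rw [h'.adj]
    refine ⟨hxy, Or.inl ?_⟩
    rw [← hcol, ← hcol, hx', hy']
  · intro a b
    constructor
    · intro hab
      refine ⟨hab.ne, ?_⟩
      obtain ⟨x, hx, hxa⟩ := hpre a
      obtain ⟨y, hy, hyb⟩ := hpre b
      refine ⟨x, y, hxa, hyb, ?_⟩
      rw [h.adj] at hab
      rw [h'.adj]
      refine ⟨?_, ?_⟩
      · rintro rfl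
        exact hab.1 (hxa.symm.trans hyb)
      · rw [hx, hy, hw _ (h.lt a), hw _ (h.lt b)]
        rcases hab.2 with h1 | ⟨h1, h2, h3⟩ | ⟨h1, h2, h3⟩
        · exact Or.inl h1
        · exact Or.inr (Or.inl ⟨h1, h2, hE _ _ h3 (h.lt b)⟩)
        · exact Or.inr (Or.inr ⟨h1, h2, hE _ _ h3 (h.lt a)⟩)
    · rintro ⟨hne, x, y, hx, hy, hxy⟩
      rw [h'.adj] at hxy
      rw [h.adj]
      refine ⟨hne, ?_⟩
      have main : ∀ x y : V', w' (e' x) = true → w' (e' y) = false → e' x < e' y →
          w (e (f x)) = true ∧ w (e (f y)) = false ∧ e (f x) < e (f y) := by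
        intro x y h1 h2 h3
        refine ⟨by rw [hcol, h1], by rw [hcol, h2], ?_⟩
        have h4 := (hF _ (h'.lt x)).2.2.2.1 h1
        have h5 := (hF _ (h'.lt y)).2.2.1 h2
        rw [← hf] at h4 h5
        by_contra hcon
        push Not at hcon
        rcases Nat.lt_or_ge (e (f y)) (e (f x)) with h6 | h6
        · have := hE _ _ h6 (h.lt _)
          omega
        · have h7 : e (f y) = e (f x) := by omega
          rw [h7] at h5
          omega
      rcases hxy.2 with h1 | ⟨h1, h2, h3⟩ | ⟨h1, h2, h3⟩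
      · left
        rw [← hx, ← hy, hcol, hcol, h1]
      · right; left
        rw [← hx, ← hy]
        exact main x y h1 h2 h3
      · right; right
        rw [← hx, ← hy]
        exact main y x h1 h2 h3

/-- enumeration sorted by a key -/
theorem exists_sorted {V : Type} [Fintype V] (key : V → ℕ) :
    ∃ e : V → ℕ, Function.Injective e ∧ (∀ v, e v < Fintype.card V) ∧
      (∀ i < Fintype.card V, ∃ v, e v = i) ∧ ∀ u v, key u < key v → e u < e v := by
  classical
  set n := Fintype.card V with hn
  let ρ : V → ℕ := fun v => Fintype.equivFin V v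
  have hρ : ∀ v, ρ v < n := fun v => (Fintype.equivFin V v).2
  have hρi : ∀ u v, ρ u = ρ v → u = v := fun u v h =>
    (Fintype.equivFin V).injective (Fin.ext h)
  let N : V → ℕ := fun v => key v * n + ρ v
  have hNi : Function.Injective N := by
    intro u v huv
    apply hρi
    have h1 : (key u * n + ρ u) % n = (key v * n + ρ v) % n := congrArg (· % n) huv
    have hmod : ∀ a r, r < n → (a * n + r) % n = r := by
      intro a r hr
      rw [Nat.add_comm, Nat.add_mul_mod_self_right]
      exact Nat.mod_eq_of_lt hr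
    rw [hmod _ _ (hρ u), hmod _ _ (hρ v)] at h1
    exact h1
  have hNk : ∀ u v, key u < key v → N u < N v := by
    intro u v h
    have h1 := hρ u
    have h2 : (key u + 1) * n ≤ key v * n := Nat.mul_le_mul_right n h
    have h3 : (key u + 1) * n = key u * n + n := by ring
    change key u * n + ρ u < key v * n + ρ v
    omega
  let e : V → ℕ := fun v => (Finset.univ.filter fun u => N u < N v).card
  have hmono : ∀ u v, N u < N v → e u < e v := by
    intro u v h
    apply Finset.card_lt_card
    refine ⟨?_, ?_⟩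
    · intro x hx
      simp only [Finset.mem_filter, Finset.mem_univ, true_and] at hx ⊢
      omega
    · intro hsub
      have : u ∈ Finset.univ.filter fun x => N x < N v := by
        simp only [Finset.mem_filter, Finset.mem_univ, true_and]
        exact h
      have := hsub this
      simp only [Finset.mem_filter, Finset.mem_univ, true_and] at this
      omega
  have hinj : Function.Injective e := by
    intro u v h
    rcases lt_trichotomy (N u) (N v) with h1 | h1 | h1
    · have := hmono u v h1
      omega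
    · exact hNi h1
    · have := hmono v u h1
      omega
  have hlt : ∀ v, e v < n := by
    intro v
    have : (Finset.univ.filter fun u => N u < N v) ⊂ Finset.univ := by
      refine ⟨Finset.filter_subset _ _, fun hsub => ?_⟩
      have := hsub (Finset.mem_univ v)
      simp at this
    have := Finset.card_lt_card this
    rwa [Finset.card_univ] at this
  refine ⟨e, hinj, hlt, ?_, fun u v h => hmono u v (hNk u v h)⟩
  intro i hi
  have hbij : Function.Bijective (fun v => (⟨e v, hlt v⟩ : Fin n)) := by
    rw [Fintype.bijective_iff_injective_and_card]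
    refine ⟨fun u v h => hinj (congrArg Fin.val h), ?_⟩
    rw [Fintype.card_fin]
  obtain ⟨v, hv⟩ := hbij.2 ⟨i, hi⟩
  exact ⟨v, congrArg Fin.val hv⟩

theorem exists_CW {V : Type} [Fintype V] {G : SimpleGraph V} (hT : Thin G) (P : Set V)
    (hP : ∀ x ∈ P, ∀ y ∈ P, x ≠ y → G.Adj x y) (hP' : ∀ x ∉ P, ∀ y ∉ P, x ≠ y → G.Adj x y) :
    ∃ (w : ℕ → Bool) (e : V → ℕ), CW G (Fintype.card V) w e ∧
      ∀ v, w (e v) = false ↔ v ∈ P := by
  classical
  -- neighbourhoods
  let N : V → Set V := fun a => {b | b ∉ P ∧ G.Adj a b}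
  have hnest : ∀ a ∈ P, ∀ a' ∈ P, (N a).ncard ≤ (N a').ncard → N a ⊆ N a' := by
    intro a ha a' ha' hle
    by_contra hns
    obtain ⟨b, hb, hb'⟩ := Set.not_subset.1 hns
    have hns' : ¬ N a' ⊆ N a := by
      intro hsub
      have := Set.eq_of_subset_of_ncard_le hsub hle (Set.toFinite _)
      exact hns this.ge
    obtain ⟨c, hc, hc'⟩ := Set.not_subset.1 hns'
    have hac : ¬ G.Adj a c := fun h => hc' ⟨hc.1, h⟩
    have hab' : ¬ G.Adj a' b := fun h => hb' ⟨hb.1, h⟩
    have hne1 : a ≠ c := fun e => hc.1 (e ▸ ha)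
    have hne2 : a' ≠ b := fun e => hb.1 (e ▸ ha')
    have hne3 : a ≠ a' := by
      rintro rfl
      exact hac hc.2
    have hne4 : b ≠ c := by
      rintro rfl
      exact hac hb.2
    exact hT.c4 a c a' b ⟨hne1, hac⟩ ⟨hne2, hab'⟩ (hP a ha a' ha' hne3) hb.2 hc.2.symm
      (hP' c hc.1 b hb.1 hne4.symm)
  -- keys
  let non : V → Set V := fun b => {a | a ∈ P ∧ ¬ G.Adj a b}
  let low : V → Set V := fun a => {a' | a' ∈ P ∧ (N a').ncard ≤ (N a).ncard}
  have hkey : ∀ a ∈ P, ∀ b ∉ P, (G.Adj a b ↔ (non b).ncard < (low a).ncard) := by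
    intro a ha b hb
    constructor
    · intro hab
      apply Set.ncard_lt_ncard _ (Set.toFinite _)
      refine ⟨?_, ?_⟩
      · rintro a' ⟨ha', hab'⟩
        refine ⟨ha', ?_⟩
        by_contra hlt
        push Not at hlt
        have := hnest a ha a' ha' (le_of_lt hlt)
        exact hab' (this ⟨hb, hab⟩).2
      · intro hsub
        exact (hsub (⟨ha, le_rfl⟩ : a ∈ low a)).2 hab
    · intro hlt
      by_contra hab
      have : low a ⊆ non b := by
        rintro a' ⟨ha', hle⟩
        refine ⟨ha', fun hab' => hab ?_⟩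
        exact (hnest a' ha' a ha hle ⟨hb, hab'⟩).2
      have := Set.ncard_le_ncard this (Set.toFinite _)
      omega
  let key : V → ℕ := fun v => if v ∈ P then 2 * (low v).ncard else 2 * (non v).ncard + 1
  have key1 : ∀ v ∈ P, key v = 2 * (low v).ncard := fun v hv => by simp only [key]; rw [if_pos hv]
  have key2 : ∀ v ∉ P, key v = 2 * (non v).ncard + 1 := fun v hv => by
    simp only [key]; rw [if_neg hv]
  obtain ⟨e, he1, he2, he3, he4⟩ := exists_sorted key
  let w : ℕ → Bool := fun i => decide (¬ ∃ v, e v = i ∧ v ∈ P)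
  have hw : ∀ v, w (e v) = false ↔ v ∈ P := by
    intro v
    simp only [w, decide_eq_false_iff_not, not_not]
    constructor
    · rintro ⟨u, hu, huP⟩
      rwa [← he1 hu]
    · intro hv
      exact ⟨v, rfl, hv⟩
  have hw' : ∀ v, w (e v) = true ↔ v ∉ P := by
    intro v
    rw [← hw]
    simp
  have hab : ∀ a ∈ P, ∀ b ∉ P, (G.Adj a b ↔ e b < e a) := by
    intro a ha b hb
    rw [hkey a ha b hb]
    have k1 := key1 a ha
    have k2 := key2 b hb
    constructor
    · intro h
      apply he4
      omega
    · intro h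
      by_contra hcon
      have : key a < key b := by omega
      have := he4 _ _ this
      omega
  refine ⟨w, e, ⟨he1, he2, he3, ?_⟩, hw⟩
  intro u v
  by_cases hu : u ∈ P <;> by_cases hv : v ∈ P
  · have h1 := (hw u).2 hu
    have h2 := (hw v).2 hv
    constructor
    · intro h
      exact ⟨h.ne, Or.inl (h1.trans h2.symm)⟩
    · rintro ⟨h, _⟩
      exact hP u hu v hv h
  · have h1 := (hw u).2 hu
    have h2 := (hw' v).2 hv
    rw [hab u hu v hv]
    constructor
    · intro h
      exact ⟨fun e => hv (e ▸ hu), Or.inr (Or.inr ⟨h2, h1, h⟩)⟩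
    · rintro ⟨_, h | ⟨h, _⟩ | ⟨_, _, h⟩⟩
      · rw [h1, h2] at h
        exact absurd h (by decide)
      · rw [h1] at h
        exact absurd h (by decide)
      · exact h
  · have h1 := (hw' u).2 hu
    have h2 := (hw v).2 hv
    rw [G.adj_comm, hab v hv u hu]
    constructor
    · intro h
      exact ⟨fun e => hu (e ▸ hv), Or.inr (Or.inl ⟨h1, h2, h⟩)⟩
    · rintro ⟨_, h | ⟨_, _, h⟩ | ⟨h, _⟩⟩
      · rw [h1, h2] at h
        exact absurd h (by decide)
      · exact h
      · rw [h2] at h
        exact absurd h (by decide)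
  · have h1 := (hw' u).2 hu
    have h2 := (hw' v).2 hv
    constructor
    · intro h
      exact ⟨h.ne, Or.inl (h1.trans h2.symm)⟩
    · rintro ⟨h, _⟩
      exact hP' u hu v hv h

/-- the decomposition of a word -/
structure Dec (n : ℕ) (w : ℕ → Bool) (i l : ℕ) (u : List Bool) : Prop where
  il : i < l
  ln : l < n
  wi : w i = true
  wl : w l = false
  lo : ∀ t < i, w t = false
  hi : ∀ t, l < t → t < n → w t = true
  len : u.length = l - i - 1
  mid : ∀ t < l - i - 1, u[t]? = some (w (i + 1 + t))

theorem exists_Dec {n : ℕ} {w : ℕ → Bool} {a b : ℕ} (hab : b < a) (ha : a < n)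
    (hwa : w a = false) (hwb : w b = true) : ∃ i l u, Dec n w i l u := by
  classical
  have hex : ∃ i, w i = true := ⟨b, hwb⟩
  have h1 : Nat.find hex ≤ b := Nat.find_min' hex hwb
  have hex' : ∃ m, m < n ∧ w (n - 1 - m) = false := ⟨n - 1 - a, by omega, by
    have : n - 1 - (n - 1 - a) = a := by omega
    rw [this]; exact hwa⟩
  have h2 : Nat.find hex' ≤ n - 1 - a := Nat.find_min' hex' ⟨by omega, by
    have : n - 1 - (n - 1 - a) = a := by omega
    rw [this]; exact hwa⟩
  set i := Nat.find hex with hi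
  set m := Nat.find hex' with hm
  refine ⟨i, n - 1 - m, List.ofFn fun t : Fin (n - 1 - m - i - 1) => w (i + 1 + t), ?_, ?_, ?_,
    ?_, ?_, ?_, ?_, ?_⟩
  · omega
  · omega
  · exact Nat.find_spec hex
  · exact (Nat.find_spec hex').2
  · intro t ht
    have := Nat.find_min hex ht
    simpa using this
  · intro t ht htn
    by_contra hcon
    have h3 : w t = false := by simpa using hcon
    have h4 : m ≤ n - 1 - t := Nat.find_min' hex' ⟨by omega, by
      have : n - 1 - (n - 1 - t) = t := by omega
      rw [this]; exact h3⟩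
    omega
  · simp
  · intro t ht
    rw [List.getElem?_ofFn]
    simp [ht]

theorem Dec.contr {V V' : Type} {G : SimpleGraph V} {G' : SimpleGraph V'} {n n' : ℕ}
    {w w' : ℕ → Bool} {e : V → ℕ} {e' : V' → ℕ} (h : CW G n w e) (h' : CW G' n' w' e')
    {i l i' l' : ℕ} {u u' : List Bool} (hD : Dec n w i l u) (hD' : Dec n' w' i' l' u')
    (h1 : i ≤ i') (h2 : n - 1 - l ≤ n' - 1 - l') (h3 : u.Sublist u') : Contr G' G := by
  rw [List.sublist_iff_exists_orderEmbedding_getElem?_eq] at h3
  obtain ⟨f, hf⟩ := h3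
  have hil := hD.il
  have hln := hD.ln
  have hil' := hD'.il
  have hln' := hD'.ln
  have hf1 : ∀ t < l - i - 1, f t < l' - i' - 1 ∧ w' (i' + 1 + f t) = w (i + 1 + t) := by
    intro t ht
    have h4 := hf t
    rw [hD.mid t ht] at h4
    have h5 : f t < l' - i' - 1 := by
      by_contra hcon
      rw [List.getElem?_eq_none (by rw [hD'.len]; omega)] at h4
      exact absurd h4 (by simp)
    refine ⟨h5, ?_⟩
    rw [hD'.mid _ h5] at h4
    exact (Option.some_injective _ h4).symm
  have hfm : ∀ s t, s < t → f s < f t := fun s t hst => f.lt_iff_lt.2 hst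
  let E : ℕ → ℕ := fun t => if t < i then t else if t = i then i' else
    if t < l then i' + 1 + f (t - i - 1) else l' + (t - l)
  have E1 : ∀ t, t < i → E t = t := fun t ht => by simp only [E]; rw [if_pos ht]
  have E2 : E i = i' := by simp [E]
  have E3 : ∀ t, i < t → t < l → E t = i' + 1 + f (t - i - 1) := fun t h4 h5 => by
    simp only [E]; rw [if_neg (by omega), if_neg (by omega), if_pos h5]
  have E4 : ∀ t, l ≤ t → E t = l' + (t - l) := fun t h4 => by
    simp only [E]; rw [if_neg (by omega), if_neg (by omega), if_neg (by omega)]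
  have E3' : ∀ t, i < t → t < l → E t < l' := fun t h4 h5 => by
    rw [E3 t h4 h5]
    have := (hf1 (t - i - 1) (by omega)).1
    omega
  apply h.contr h' E ?_ ?_ ?_ l i hln (by omega) hD.wl hD.wi
  · intro t ht hne
    rcases Nat.lt_trichotomy t i' with h4 | h4 | h4
    · left
      refine ⟨hD'.lo t h4, ?_⟩
      rw [E4 l le_rfl]; omega
    · exact absurd (h4 ▸ E2) (hne i (by omega))
    · rcases Nat.lt_trichotomy t l' with h5 | h5 | h5
      · cases hwt : w' t
        · left
          refine ⟨rfl, ?_⟩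
          rw [E4 l le_rfl]; omega
        · right
          refine ⟨rfl, ?_⟩
          rw [E2]; omega
      · have := E4 l le_rfl
        exact absurd (by rw [this, h5]; omega) (hne l hln)
      · right
        refine ⟨hD'.hi t h5 ht, ?_⟩
        rw [E2]; omega
  · intro s t hst htn
    by_cases s1 : s < i
    · rw [E1 s s1]
      by_cases t1 : t < i
      · rw [E1 t t1]; exact hst
      · by_cases t2 : t = i
        · rw [t2, E2]; omega
        · by_cases t3 : t < l
          · rw [E3 t (by omega) t3]; omega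
          · rw [E4 t (by omega)]; omega
    · by_cases s2 : s = i
      · rw [s2, E2]
        by_cases t3 : t < l
        · rw [E3 t (by omega) t3]; omega
        · rw [E4 t (by omega)]; omega
      · by_cases s3 : s < l
        · by_cases t3 : t < l
          · rw [E3 s (by omega) s3, E3 t (by omega) t3]
            have := hfm (s - i - 1) (t - i - 1) (by omega)
            omega
          · have := E3' s (by omega) s3
            rw [E4 t (by omega)]; omega
        · rw [E4 s (by omega), E4 t (by omega)]; omega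
  · intro t ht
    by_cases t1 : t < i
    · rw [E1 t t1]; omega
    · by_cases t2 : t = i
      · rw [t2, E2]; omega
      · by_cases t3 : t < l
        · have := E3' t (by omega) t3
          omega
        · rw [E4 t (by omega)]; omega
  · intro t ht
    by_cases t1 : t < i
    · rw [E1 t t1, hD.lo t t1, hD'.lo t (by omega)]
    · by_cases t2 : t = i
      · rw [t2, E2, hD.wi, hD'.wi]
      · by_cases t3 : t < l
        · rw [E3 t (by omega) t3, (hf1 (t - i - 1) (by omega)).2]
          congr 1
          omega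
        · by_cases t4 : t = l
          · rw [t4, E4 l le_rfl, Nat.sub_self, Nat.add_zero, hD.wl, hD'.wl]
          · rw [E4 t (by omega), hD.hi t (by omega) ht, hD'.hi _ (by omega) (by omega)]

theorem higman_bool (f : ℕ → List Bool) : ∃ m n, m < n ∧ (f m).Sublist (f n) := by
  have h := Set.PartiallyWellOrderedOn.partiallyWellOrderedOn_sublistForall₂ (α := Bool)
    (Eq : Bool → Bool → Prop) (s := Set.univ) (Set.Finite.partiallyWellOrderedOn Set.finite_univ)
  rw [Set.partiallyWellOrderedOn_iff_exists_lt] at h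
  obtain ⟨m, n, hmn, hs⟩ := h f (fun n x _ => Set.mem_univ x)
  refine ⟨m, n, hmn, ?_⟩
  rw [List.sublistForall₂_iff] at hs
  obtain ⟨l, h1, h2⟩ := hs
  rw [List.forall₂_eq_eq_eq] at h1
  rw [h1]
  exact h2

/-- Thin co-bipartite graphs with an edge between the two parts are well-quasi-ordered. -/
theorem wqo_chain (s : ℕ → FG) (hs : ∀ i, (s i).G.Connected ∧ Thin (s i).G ∧
    ∃ (P : Set (Fin (s i).n)) (a b : Fin (s i).n), b ∉ P ∧ a ∈ P ∧
      (∀ x ∈ P, ∀ y ∈ P, x ≠ y → (s i).G.Adj x y) ∧
      ∀ x ∉ P, ∀ y ∉ P, x ≠ y → (s i).G.Adj x y) :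
    ∃ i j, i < j ∧ ContractsTo (s j) (s i) := by
  have hex : ∀ i, ∃ (n : ℕ) (w : ℕ → Bool) (e : Fin (s i).n → ℕ) (a l : ℕ) (u : List Bool),
      CW (s i).G n w e ∧ Dec n w a l u := by
    intro i
    obtain ⟨hc, hT, P, a, b, hb, ha, hP, hP'⟩ := hs i
    obtain ⟨w, e, hcw, hw⟩ := exists_CW hT P hP hP'
    obtain ⟨x, hx, y, hy, hxy⟩ := cut_of_connected _ hc P ⟨a, ha⟩ ⟨b, hb⟩
    have h1 := (hw x).2 hx
    have h2 : w (e y) = true := by
      cases h : w (e y)
      · exact absurd ((hw y).1 h) hy
      · rfl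
    rw [hcw.adj] at hxy
    have h3 : e y < e x := by
      rcases hxy.2 with h | ⟨h, _⟩ | ⟨_, _, h⟩
      · rw [h1, h2] at h
        exact absurd h (by decide)
      · rw [h1] at h
        exact absurd h (by decide)
      · exact h
    obtain ⟨i', l, u, hD⟩ := exists_Dec h3 (hcw.lt x) h1 h2
    exact ⟨_, w, e, i', l, u, hcw, hD⟩
  choose n w e a l u hcw hD using hex
  -- Dickson and Higman
  have hlist : WellQuasiOrdered (fun x y : List Bool => x.Sublist y) := higman_bool
  have : IsPreorder (List Bool) (fun x y : List Bool => x.Sublist y) :=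
    { refl := fun x => List.Sublist.refl x
      trans := fun x y z h h' => h.trans h' }
  have hprod := (wellQuasiOrdered_le (α := ℕ)).prod ((wellQuasiOrdered_le (α := ℕ)).prod hlist)
  obtain ⟨i, j, hij, h1, h2, h3⟩ := hprod (fun i => (a i, n i - 1 - l i, u i))
  refine ⟨i, j, hij, ?_⟩
  rw [contractsTo_iff]
  exact Dec.contr (hcw i) (hcw j) (hD i) (hD j) h1 h2 h3

end Pool.Agent.H67.WQ
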