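import Pool.Agent.H67.WQ.Strip3

set_option autoImplicit false

namespace Pool.Agent.H67.WQ

/-- The pairs `(S, M)` other than those with a contraction of the diamond: `S` is a star `K_{1,p}`
with `p ≥ 3` and `M` is a complete graph on `m ≥ 1` vertices, or on `m ≥ 3` vertices minus one
edge; or `S` is the star `K_{1,3}` and `M` is a complete graph on `m ≥ 5` vertices minus two
disjoint edges; or `S = K_{1,1,p}` with `p ≥ 3` and `M = K_4`. -/
def BestPair (S M : FG) : Prop :=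
  (∃ p a m : ℕ, 3 ≤ p ∧ 2 * a + 1 ≤ m ∧ (a ≤ 1 ∨ (a = 2 ∧ p = 3)) ∧
    Nonempty (S.G ≃g (star p).G) ∧ Nonempty (M.G ≃g (coMatch m a).G)) ∨
  (∃ p : ℕ, 3 ≤ p ∧ Nonempty (S.G ≃g (starPlus p).G) ∧ Nonempty (M.G ≃g (coMatch 4 0).G))

/-- a small complete graph is a contraction of the diamond -/
theorem diamond_coMatch {m a : ℕ} (hm : m ≤ 4) (ha : 2 * a + 1 ≤ m) (h4 : m = 4 → a = 1) :
    ContractsTo diamond ⟨m, (coMatch m a).G⟩ := by
  by_cases h : m = 1 ∨ m = 2 ∨ (m = 3 ∧ a = 1)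
  · -- a star with m - 1 leaves
    have e : Nonempty ((coMatch m a).G ≃g (star (m - 1)).G) := by
      rcases h with rfl | rfl | ⟨rfl, rfl⟩
      · refine ⟨⟨Equiv.refl (Fin 1), ?_⟩⟩
        intro x y
        have : x = y := Subsingleton.elim (α := Fin 1) x y
        subst this
        simp
      · have : a = 0 := by omega
        subst this
        refine ⟨⟨Equiv.refl (Fin 2), ?_⟩⟩
        intro x y
        change ((x : Fin 2) ≠ y ∧ ((x : ℕ) = 0 ∨ (y : ℕ) = 0)) ↔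
          (x ≠ y ∧ ¬ ((x : ℕ) / 2 = (y : ℕ) / 2 ∧ (x : ℕ) / 2 < 0))
        have hx := x.2
        have hy := y.2
        change (x : ℕ) < 2 at hx
        change (y : ℕ) < 2 at hy
        constructor
        · rintro ⟨h, _⟩
          exact ⟨h, by omega⟩
        · rintro ⟨h, _⟩
          have : (x : ℕ) ≠ y := fun e => h (Fin.ext e)
          exact ⟨h, by omega⟩
      · refine ⟨⟨(Equiv.swap (0 : Fin 3) 2 : Equiv.Perm (Fin 3)), ?_⟩⟩
        intro x y
        revert x y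
        change ∀ x y : Fin 3, ((Equiv.swap (0 : Fin 3) 2) x ≠ (Equiv.swap (0 : Fin 3) 2) y ∧
          ((((Equiv.swap (0 : Fin 3) 2) x : Fin 3) : ℕ) = 0 ∨
          (((Equiv.swap (0 : Fin 3) 2) y : Fin 3) : ℕ) = 0)) ↔
          (x ≠ y ∧ ¬ ((x : ℕ) / 2 = (y : ℕ) / 2 ∧ (x : ℕ) / 2 < 1))
        decide
    obtain ⟨e⟩ := e
    exact contractsTo_of_iso_right (K := ⟨m, (coMatch m a).G⟩) (diamond_star (p := m - 1)
      (by omega)) e
  · have e : Nonempty ((coMatch m a).G ≃g (starPlus (m - 2)).G) := by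
      have h' : (m = 3 ∧ a = 0) ∨ (m = 4 ∧ a = 1) := by omega
      rcases h' with ⟨rfl, rfl⟩ | ⟨rfl, rfl⟩
      · refine ⟨⟨Equiv.refl (Fin 3), ?_⟩⟩
        intro x y
        revert x y
        change ∀ x y : Fin 3, (x ≠ y ∧ ((x : ℕ) < 2 ∨ (y : ℕ) < 2)) ↔
          (x ≠ y ∧ ¬ ((x : ℕ) / 2 = (y : ℕ) / 2 ∧ (x : ℕ) / 2 < 0))
        decide
      · refine ⟨⟨((Equiv.swap (0 : Fin 4) 2).trans (Equiv.swap (1 : Fin 4) 3) :
          Equiv.Perm (Fin 4)), ?_⟩⟩
        intro x y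
        revert x y
        change ∀ x y : Fin 4,
          (((Equiv.swap (0 : Fin 4) 2).trans (Equiv.swap (1 : Fin 4) 3)) x ≠
            ((Equiv.swap (0 : Fin 4) 2).trans (Equiv.swap (1 : Fin 4) 3)) y ∧
          (((((Equiv.swap (0 : Fin 4) 2).trans (Equiv.swap (1 : Fin 4) 3)) x : Fin 4) : ℕ) < 2 ∨
          ((((Equiv.swap (0 : Fin 4) 2).trans (Equiv.swap (1 : Fin 4) 3)) y : Fin 4) : ℕ) < 2)) ↔
          (x ≠ y ∧ ¬ ((x : ℕ) / 2 = (y : ℕ) / 2 ∧ (x : ℕ) / 2 < 1))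
        decide
    obtain ⟨e⟩ := e
    exact contractsTo_of_iso_right (K := ⟨m, (coMatch m a).G⟩) (diamond_starPlus (p := m - 2)
      (by omega)) e

theorem SP_starPlus {p : ℕ} (hp : 3 ≤ p) : ∃ (c d : Fin (p + 2)) (l : Fin 3 → Fin (p + 2)),
    SP (W := Fin (p + 2)) (starPlus p).G c d l := by
  refine ⟨⟨0, by omega⟩, ⟨1, by omega⟩, fun i => ⟨i + 2, by omega⟩, ?_, ?_, ?_, ?_, ?_, ?_, ?_⟩
  · simp
  · intro i j hij
    have := congrArg Fin.val hij
    simp only at this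
    apply Fin.ext
    omega
  · intro i h
    have := congrArg Fin.val h
    simp at this
  · intro i h
    have := congrArg Fin.val h
    simp at this
  · intro w hw
    exact ⟨hw.symm, Or.inl (by change (0 : ℕ) < 2; omega)⟩
  · intro w hw
    exact ⟨hw.symm, Or.inl (by change (1 : ℕ) < 2; omega)⟩
  · rintro w w' h1 h2 h3 h4 ⟨_, h | h⟩
    · have h5 : (w : ℕ) ≠ 0 := fun e => h1 (Fin.ext e)
      have h6 : (w : ℕ) ≠ 1 := fun e => h2 (Fin.ext e)
      omega
    · have h5 : (w' : ℕ) ≠ 0 := fun e => h3 (Fin.ext e)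
      have h6 : (w' : ℕ) ≠ 1 := fun e => h4 (Fin.ext e)
      omega

theorem dense_coMatch {m a : ℕ} (hm : 5 ≤ m) (p q z z' : Fin m) (hzp : z ≠ p) (hzq : z ≠ q)
    (hzp' : z' ≠ p) (hzq' : z' ≠ q) (hzz : z ≠ z') :
      (coMatch m a).G.Adj z z' ∨
      ∃ c, c ≠ p ∧ c ≠ q ∧ (coMatch m a).G.Adj z c ∧ (coMatch m a).G.Adj c z' := by
  by_cases h : (z : ℕ) / 2 = (z' : ℕ) / 2 ∧ (z : ℕ) / 2 < a
  · right
    obtain ⟨c, hc⟩ : ∃ c : Fin m, c ∉ ({p, q, z, z'} : Finset (Fin m)) := by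
      by_contra hcon
      push Not at hcon
      have h1 : (Finset.univ : Finset (Fin m)) ⊆ {p, q, z, z'} := fun c _ => hcon c
      have h2 := Finset.card_le_card h1
      have h3 : ({p, q, z, z'} : Finset (Fin m)).card ≤ 4 := Finset.card_le_four
      simp at h2
      omega
    simp only [Finset.mem_insert, Finset.mem_singleton, not_or] at hc
    have h1 : (z : ℕ) ≠ z' := fun e => hzz (Fin.ext e)
    have h2 : (c : ℕ) ≠ z := fun e => hc.2.2.1 (Fin.ext e)
    have h3 : (c : ℕ) ≠ z' := fun e => hc.2.2.2 (Fin.ext e)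
    refine ⟨c, hc.1, hc.2.1, ⟨fun e => hc.2.2.1 e.symm, ?_⟩, ⟨hc.2.2.2, ?_⟩⟩
    · rintro ⟨h4, h5⟩
      omega
    · rintro ⟨h4, h5⟩
      omega
  · exact Or.inl ⟨hzz, h⟩

theorem no_big {p a m : ℕ} (hp : 3 ≤ p) (hm : 5 ≤ m) {S M : FG}
    (hS : Nonempty (S.G ≃g (starPlus p).G)) (hM : Nonempty (M.G ≃g (coMatch m a).G))
    (hw : WQO (Cl S M) ∨ WQO (Cl M S)) : False := by
  have hconn : ∀ n, (toFG (strip (n + 2))).G.Connected := fun n =>
    toFG_connected (strip_connected (by omega))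
  have hanti : ∀ i j, i < j → ¬ ContractsTo (toFG (strip (j + 2))) (toFG (strip (i + 2))) := by
    intro i j hij h
    rw [contractsTo_toFG] at h
    obtain ⟨e⟩ := toFG_iso (strip (i + 2))
    obtain ⟨f, hf⟩ := h.trans (Contr.to_iso e)
    have := strip_anti hf (by omega) (by omega)
    omega
  have k1 : ∀ n, ¬ ContractsTo (toFG (strip (n + 2))) S := by
    intro n h
    rw [contractsTo_toFG] at h
    obtain ⟨e⟩ := hS
    obtain ⟨f, hf⟩ := h.trans (Contr.of_iso e)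
    obtain ⟨c, d, l, hSP⟩ := SP_starPlus hp
    exact strip_no_SP hf (by omega) hSP
  have k2 : ∀ n, ¬ ContractsTo (toFG (strip (n + 2))) M := by
    intro n h
    rw [contractsTo_toFG] at h
    obtain ⟨e⟩ := hM
    obtain ⟨f, hf⟩ := h.trans (Contr.of_iso e)
    exact strip_no_M hf (by omega) (fun p q z z' h1 h2 h3 h4 h5 =>
      dense_coMatch hm p q z z' h1 h2 h3 h4 h5) (Fin.castLE hm) (Fin.castLE_injective hm)
  rcases hw with hw | hw
  · obtain ⟨n, _, h | h⟩ := fam (fun n => toFG (strip (n + 2))) hconn hanti hw 0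
    · exact k1 n h
    · exact k2 n h
  · obtain ⟨n, _, h | h⟩ := fam (fun n => toFG (strip (n + 2))) hconn hanti hw 0
    · exact k2 n h
    · exact k1 n h

theorem bestPair_of {S M : FG} (h : GoodPair S M) (hw : WQO (Cl S M) ∨ WQO (Cl M S)) :
    BestPair S M ∨ ContractsTo diamond M := by
  obtain ⟨p, a, m, hp, hm, ha, hS, hM⟩ := h
  rcases hS with hS | hS
  · exact Or.inl (Or.inl ⟨p, a, m, hp, hm, ha, hS, hM⟩)
  · by_cases h5 : 5 ≤ m
    · exact (no_big hp h5 hS hM hw).elim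
    · by_cases h4 : m = 4 ∧ a = 0
      · obtain ⟨rfl, rfl⟩ := h4
        exact Or.inl (Or.inr ⟨p, hp, hS, hM⟩)
      · right
        obtain ⟨e⟩ := hM
        exact contractsTo_of_iso_right (diamond_coMatch (m := m) (a := a) (by omega) hm
          (by omega)) e

/-- The necessary condition. -/
theorem necessity2 (H₁ H₂ : FG) (hw : WQO (Cl H₁ H₂)) :
    ContractsTo diamond H₁ ∨ ContractsTo diamond H₂ ∨ BestPair H₁ H₂ ∨ BestPair H₂ H₁ := by
  rcases necessity H₁ H₂ hw with h | h | h | h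
  · exact Or.inl h
  · exact Or.inr (Or.inl h)
  · rcases bestPair_of h (Or.inl hw) with h | h
    · exact Or.inr (Or.inr (Or.inl h))
    · exact Or.inr (Or.inl h)
  · rcases bestPair_of h (Or.inr hw) with h | h
    · exact Or.inr (Or.inr (Or.inr h))
    · exact Or.inl h

end Pool.Agent.H67.WQ
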