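import Pool.Agent.H67.WQ.Suff

set_option autoImplicit false

namespace Pool.Agent.H67.WQ

theorem card_le_of_contr {V W : Type} [Fintype V] [Fintype W] {G : SimpleGraph V}
    {H : SimpleGraph W} (h : Contr G H) : Fintype.card W ≤ Fintype.card V := by
  obtain ⟨f, hf⟩ := h
  exact Fintype.card_le_of_surjective f hf.surj

theorem n_le_of_contractsTo {G H : FG} (h : ContractsTo G H) : H.n ≤ G.n := by
  have := card_le_of_contr (contractsTo_iff.1 h)
  simpa using this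

theorem n_eq_of_iso {G H : FG} (e : G.G ≃g H.G) : G.n = H.n := by
  have := Fintype.card_congr e.toEquiv
  simpa using this

/-- contractions of the diamond have at most one nonadjacent pair, and a universal vertex -/
theorem ML_of_diamond {H : FG} (h : ContractsTo diamond H) :
    ML H.G ∧ ¬ C4 H.G := by
  obtain ⟨f, hf⟩ := contractsTo_iff.1 h
  have hone : ∀ i j : Fin H.n, i ≠ j → ¬ H.G.Adj i j →
      (i = f (2 : Fin 4) ∧ j = f (3 : Fin 4)) ∨ (i = f (3 : Fin 4) ∧ j = f (2 : Fin 4)) := by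
    intro i j hij hn
    obtain ⟨x, hx⟩ := hf.surj i
    obtain ⟨y, hy⟩ := hf.surj j
    have hxy : x ≠ y := fun e => hij (by rw [← hx, ← hy, e])
    have hnxy : ¬ diamond.G.Adj x y := fun hadj => hn ((hf.2 _ _).2 ⟨hij, x, y, hx, hy, hadj⟩)
    have hx2 : ¬ (x : ℕ) < 2 := fun h' => hnxy ⟨hxy, Or.inl h'⟩
    have hy2 : ¬ (y : ℕ) < 2 := fun h' => hnxy ⟨hxy, Or.inr h'⟩
    have hx4 : (x : ℕ) < 4 := x.2
    have hy4 : (y : ℕ) < 4 := y.2
    have hne : (x : ℕ) ≠ y := fun e => hxy (Fin.ext e)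
    by_cases h2 : (x : ℕ) = 2
    · left
      have e1 : x = (2 : Fin 4) := Fin.ext h2
      have e2 : y = (3 : Fin 4) := Fin.ext (by
        change (y : ℕ) = 3
        omega)
      exact ⟨by rw [← hx, e1], by rw [← hy, e2]⟩
    · right
      have e1 : x = (3 : Fin 4) := Fin.ext (by
        change (x : ℕ) = 3
        omega)
      have e2 : y = (2 : Fin 4) := Fin.ext (by
        change (y : ℕ) = 2
        omega)
      exact ⟨by rw [← hx, e1], by rw [← hy, e2]⟩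
  refine ⟨⟨⟨f (0 : Fin 4), fun w hw => ?_⟩, ?_⟩, ?_⟩
  · obtain ⟨y, rfl⟩ := hf.surj w
    refine (hf.2 _ _).2 ⟨hw.symm, (0 : Fin 4), y, rfl, rfl, ?_, Or.inl ?_⟩
    · rintro rfl
      exact hw rfl
    · change (0 : ℕ) < 2
      omega
  · intro u v w hv hw h1 h2
    rcases hone u v hv.symm h1 with ⟨a1, a2⟩ | ⟨a1, a2⟩ <;>
      rcases hone u w hw.symm h2 with ⟨b1, b2⟩ | ⟨b1, b2⟩
    · rw [a2, b2]
    · exact absurd (a2.trans b1.symm) hv
    · exact absurd (a2.trans b1.symm) hv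
    · rw [a2, b2]
  · rintro ⟨x, y, x', y', hxy, hxy', h1, h2, h3, h4, h5, h6⟩
    rcases hone x y hxy h1 with ⟨a1, a2⟩ | ⟨a1, a2⟩ <;>
      rcases hone x' y' hxy' h2 with ⟨b1, b2⟩ | ⟨b1, b2⟩
    · exact h3.ne (a1.trans b1.symm)
    · exact h4.ne (a1.trans b2.symm)
    · exact h4.ne (a1.trans b2.symm)
    · exact h3.ne (a1.trans b1.symm)

theorem ML_coMatch {m a : ℕ} (h : 2 * a + 1 ≤ m) : ML (coMatch m a).G := by
  refine ⟨⟨(⟨2 * a, by omega⟩ : Fin m), fun w hw => ⟨Ne.symm hw, ?_⟩⟩, ?_⟩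
  · rintro ⟨_, h2⟩
    simp only at h2
    omega
  · intro u v w hv hw h1 h2
    have h1' : (u : ℕ) / 2 = (v : ℕ) / 2 ∧ (u : ℕ) / 2 < a := by
      by_contra hcon
      exact h1 ⟨hv.symm, hcon⟩
    have h2' : (u : ℕ) / 2 = (w : ℕ) / 2 ∧ (u : ℕ) / 2 < a := by
      by_contra hcon
      exact h2 ⟨hw.symm, hcon⟩
    have n1 : (v : ℕ) ≠ u := fun e => hv (Fin.ext e)
    have n2 : (w : ℕ) ≠ u := fun e => hw (Fin.ext e)
    exact Fin.ext (by omega)

theorem star_not_starPlus {p q : ℕ} (hq : 1 ≤ q) (e : (star p).G ≃g (starPlus q).G) : False := by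
  let g : Fin (q + 2) ≃ Fin (p + 1) := e.symm.toEquiv
  have hadj : ∀ i j : Fin (q + 2), (starPlus q).G.Adj i j → (star p).G.Adj (g i) (g j) :=
    fun i j h => e.symm.map_adj_iff.2 h
  have a01 := hadj ⟨0, by omega⟩ ⟨1, by omega⟩ ⟨by simp, Or.inl (by simp)⟩
  have a02 := hadj ⟨0, by omega⟩ ⟨2, by omega⟩ ⟨by simp, Or.inl (by simp)⟩
  have a12 := hadj ⟨1, by omega⟩ ⟨2, by omega⟩ ⟨by simp, Or.inl (by simp)⟩
  have n01 : ((g ⟨0, by omega⟩ : Fin (p + 1)) : ℕ) ≠ g ⟨1, by omega⟩ := fun h' =>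
    a01.1 (Fin.ext h')
  have n02 : ((g ⟨0, by omega⟩ : Fin (p + 1)) : ℕ) ≠ g ⟨2, by omega⟩ := fun h' =>
    a02.1 (Fin.ext h')
  have n12 : ((g ⟨1, by omega⟩ : Fin (p + 1)) : ℕ) ≠ g ⟨2, by omega⟩ := fun h' =>
    a12.1 (Fin.ext h')
  have b01 := a01.2
  have b02 := a02.2
  have b12 := a12.2
  omega

/-- The classification of the pairs containing a star with at least four leaves. -/
theorem star_pairs (p : ℕ) (hp : 4 ≤ p) (H : FG) :
    WQO (Cl (star p) H) ↔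
      (∃ m, 1 ≤ m ∧ Nonempty (H.G ≃g (coMatch m 0).G)) ∨
      (∃ m, 3 ≤ m ∧ Nonempty (H.G ≃g (coMatch m 1).G)) := by
  constructor
  · intro hw
    have hsplit : ∀ m a : ℕ, 2 * a + 1 ≤ m → a ≤ 1 → Nonempty (H.G ≃g (coMatch m a).G) →
        (∃ m, 1 ≤ m ∧ Nonempty (H.G ≃g (coMatch m 0).G)) ∨
        (∃ m, 3 ≤ m ∧ Nonempty (H.G ≃g (coMatch m 1).G)) := by
      intro m a hm ha hi
      rcases Nat.eq_zero_or_pos a with h0 | h0
      · subst h0
        exact Or.inl ⟨m, by omega, hi⟩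
      · have : a = 1 := by omega
        subst this
        exact Or.inr ⟨m, by omega, hi⟩
    rcases necessity _ _ hw with h | h | h | h
    · have := n_le_of_contractsTo h
      change p + 1 ≤ 4 at this
      omega
    · obtain ⟨h1, h2⟩ := ML_of_diamond h
      rcases h1.cases with ⟨m, a, hm, ha, hi⟩ | ⟨m, hm, _, hC⟩ | ⟨_, hC⟩
      · exact hsplit m a hm ha hi
      · exact absurd hC h2
      · exact absurd hC h2
    · obtain ⟨p', a, m, hp', hm, hcase, hiso, hi⟩ := h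
      rcases hiso with ⟨⟨e⟩⟩ | ⟨⟨e⟩⟩
      · have hn := n_eq_of_iso e
        change p + 1 = p' + 1 at hn
        exact hsplit m a hm (by omega) hi
      · exact (star_not_starPlus (by omega) e).elim
    · obtain ⟨p', a, m, hp', hm, _, _, ⟨e⟩⟩ := h
      have := star_not_ML ((ML_coMatch hm).of_iso e.symm)
      omega
  · rintro (⟨m, hm, ⟨e⟩⟩ | ⟨m, hm, ⟨e⟩⟩)
    · refine (wqo_star_K p (m + 4) (by omega)).mono ?_
      rintro G ⟨hc, h1, h2⟩
      refine ⟨hc, h1, fun h => h2 ?_⟩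
      rw [contractsTo_iff] at h ⊢
      exact (h.trans (contr_coMatch_zero hm)).trans (Contr.of_iso e.symm)
    · refine (wqo_star_K p (m + 1) (by omega)).mono ?_
      rintro G ⟨hc, h1, h2⟩
      refine ⟨hc, h1, fun h => h2 ?_⟩
      rw [contractsTo_iff] at h ⊢
      exact (h.trans (contr_coMatch_one (by omega) hm)).trans (Contr.of_iso e.symm)

end Pool.Agent.H67.WQ
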