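import Pool.Agent.H67.WQ.Chain

set_option autoImplicit false

namespace Pool.Agent.H67.WQ

/-- `K_m` minus `a` edges contracts to `K_q` minus `a` edges for `2a + 1 ≤ q ≤ m` -/
theorem contr_coMatch {a q m : ℕ} (h : q ≤ m) (hq : 2 * a + 1 ≤ q) :
    Contr (V := Fin m) (W := Fin q) (coMatch m a).G (coMatch q a).G := by
  let f : Fin m → Fin q := fun i => if hi : (i : ℕ) < q then ⟨i, hi⟩ else ⟨2 * a, by omega⟩
  have hf1 : ∀ i : Fin m, (i : ℕ) < q → (f i : ℕ) = i := by
    intro i hi
    simp only [f]
    rw [dif_pos hi]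
  have hf2 : ∀ i : Fin m, ¬ (i : ℕ) < q → (f i : ℕ) = 2 * a := by
    intro i hi
    simp only [f]
    rw [dif_neg hi]
  refine ⟨f, ?_, ?_⟩
  · intro w
    by_cases hw : (w : ℕ) = 2 * a
    · apply cn_of_center _ (c := (⟨2 * a, by omega⟩ : Fin m))
      · apply Fin.ext
        rw [hf1 _ (by simp only; omega)]
        exact hw.symm
      · intro x _ hx
        refine ⟨Ne.symm hx, ?_⟩
        rintro ⟨_, h2⟩
        simp only at h2
        omega
    · have : {v : Fin m | f v = w} = {⟨w, by omega⟩} := by
        ext v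
        change f v = w ↔ v = ⟨w, by omega⟩
        constructor
        · intro hv
          have hv' := congrArg Fin.val hv
          apply Fin.ext
          simp only
          by_cases hi : (v : ℕ) < q
          · rw [hf1 v hi] at hv'
            exact hv'
          · rw [hf2 v hi] at hv'
            omega
        · intro hv
          subst hv
          apply Fin.ext
          rw [hf1 _ (by simp only; omega)]
      rw [this]
      exact cn_singleton _ _
  · intro c b
    constructor
    · rintro ⟨hne, hab⟩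
      have hne' : (c : ℕ) ≠ b := fun e => hne (Fin.ext e)
      refine ⟨hne, ⟨c, by omega⟩, ⟨b, by omega⟩, ?_, ?_, ?_, ?_⟩
      · exact Fin.ext (hf1 _ (by simp only; omega))
      · exact Fin.ext (hf1 _ (by simp only; omega))
      · intro e
        have := congrArg Fin.val e
        exact hne' this
      · exact hab
    · rintro ⟨hne, x, y, hx, hy, hxy, hlt⟩
      refine ⟨hne, ?_⟩
      have hne' : (c : ℕ) ≠ b := fun e => hne (Fin.ext e)
      rintro ⟨h1, h2⟩
      by_cases hxq : (x : ℕ) < q
      · by_cases hyq : (y : ℕ) < q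
        · have e1 := hf1 x hxq
          have e2 := hf1 y hyq
          rw [hx] at e1
          rw [hy] at e2
          rw [e1, e2] at h1
          rw [e1] at h2
          exact hlt ⟨h1, h2⟩
        · have e2 := hf2 y hyq
          rw [hy] at e2
          omega
      · have e1 := hf2 x hxq
        rw [hx] at e1
        omega

theorem starFree_of {p : ℕ} {G : FG} (hc : G.G.Connected) (h1 : ¬ ContractsTo G (star p)) :
    StarFree p G.G := by
  refine ⟨hc, ?_⟩
  intro W _ H f hf hstar
  by_contra hcard
  push Not at hcard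
  apply h1
  rw [contractsTo_iff]
  have hf' : Contr G.G H := ⟨f, hf⟩
  obtain ⟨e⟩ := toFG_iso H
  obtain ⟨c, hcc⟩ := hstar
  obtain ⟨P, ⟨e'⟩⟩ := star_iso (toFG H).G (e c) (fun i j => by
    have := hcc (e.symm i) (e.symm j)
    rw [e.symm.map_adj_iff] at this
    have key : ∀ i, e.symm i = c ↔ i = e c := by
      intro i
      constructor
      · intro hi; rw [← hi]; simp
      · intro hi; rw [hi]; simp
    rw [this, e.symm.injective.ne_iff, key, key])
  have hP : P + 1 = Fintype.card W := by
    have h3 := Fintype.card_congr e'.toEquiv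
    have h4 : Fintype.card (Fin (toFG H).n) = Fintype.card W := by
      rw [Fintype.card_fin]; rfl
    have h5 : Fintype.card (Fin (star P).n) = P + 1 := by
      rw [Fintype.card_fin]; rfl
    omega
  exact ((hf'.trans (Contr.of_iso e)).trans (Contr.of_iso e')).trans
    (contr_star_mono (by omega))

theorem inTwo_of {K : ℕ} (hK : 5 ≤ K) {G : FG} (hc : G.G.Connected)
    (h1 : ¬ ContractsTo G (star 3)) (h2 : ¬ ContractsTo G (coMatch K 2)) : InTwo K G.G := by
  refine ⟨starFree_of hc h1, ?_⟩
  intro W _ H f hf ⟨z, hz, hz01, hz23, hall⟩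
  by_contra hcard
  push Not at hcard
  apply h2
  rw [contractsTo_iff]
  have hf' : Contr G.G H := ⟨f, hf⟩
  obtain ⟨e⟩ := toFG_iso H
  have hadj : ∀ s t : Fin 4, s ≠ t → ((toFG H).G.Adj (e (z s)) (e (z t)) ↔
      ¬ ((s : ℕ) / 2 = (t : ℕ) / 2)) := by
    intro s t hst
    rw [e.map_adj_iff]
    constructor
    · intro h
      fin_cases s <;> fin_cases t
      · exact absurd rfl hst
      · exact absurd h hz01
      · decide
      · decide
      · exact absurd h.symm hz01
      · exact absurd rfl hst
      · decide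
      · decide
      · decide
      · decide
      · exact absurd rfl hst
      · exact absurd h hz23
      · decide
      · decide
      · exact absurd h.symm hz23
      · exact absurd rfl hst
    · intro h
      by_contra hn
      rcases hall (z s) (z t) (fun e => hst (hz e)) hn with ⟨h3, h4⟩ | ⟨h3, h4⟩ | ⟨h3, h4⟩ |
        ⟨h3, h4⟩
      · rw [hz h3, hz h4] at h
        exact h rfl
      · rw [hz h3, hz h4] at h
        exact h rfl
      · rw [hz h3, hz h4] at h
        exact h rfl
      · rw [hz h3, hz h4] at h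
        exact h rfl
  obtain ⟨e'⟩ := coMatch_iso (toFG H).G 2 (fun s : Fin 4 => e (z s))
    (fun s t hst => hz (e.injective hst)) hadj (by
    intro i j hij hi
    by_contra hn
    have hadj' : ¬ H.Adj (e.symm i) (e.symm j) := fun h => hn (e.symm.map_adj_iff.1 h)
    have key : ∀ s, e.symm i ≠ z s := by
      intro s hs
      apply hi
      refine ⟨s, ?_⟩
      simp only
      rw [← hs]
      simp
    rcases hall _ _ (e.symm.injective.ne hij) hadj' with ⟨h3, _⟩ | ⟨h3, _⟩ | ⟨h3, _⟩ | ⟨h3, _⟩
    · exact key _ h3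
    · exact key _ h3
    · exact key _ h3
    · exact key _ h3)
  exact ((hf'.trans (Contr.of_iso e)).trans (Contr.of_iso e')).trans
    (contr_coMatch hcard (by omega))

/-- a large clique of the twin quotient gives a clique of pairwise distinguished vertices -/
theorem exists_Q {V : Type} {G : SimpleGraph V} {m : ℕ} (h : ¬ CliqueBound (tq G) m) :
    ∃ Q : Set V, m < Q.ncard ∧ (∀ a ∈ Q, ∀ b ∈ Q, a ≠ b → G.Adj a b) ∧
      ∀ a ∈ Q, ∀ b ∈ Q, clN G a = clN G b → a = b := by
  unfold CliqueBound at h
  push Not at h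
  obtain ⟨K, hK, hKc⟩ := h
  choose r hr using (tp_surj : ∀ C : TQ G, ∃ v, tp G v = C)
  have hrinj : Function.Injective r := by
    intro a b hab
    rw [← hr a, ← hr b, hab]
  refine ⟨r '' K, ?_, ?_, ?_⟩
  · rw [Set.ncard_image_of_injective K hrinj]; exact hKc
  · rintro _ ⟨a, ha, rfl⟩ _ ⟨b, hb, rfl⟩ hab
    have hne : a ≠ b := fun e => hab (e ▸ rfl)
    have := hK a ha b hb hne
    rw [← hr a, ← hr b, tq_adj] at this
    exact this.2
  · rintro _ ⟨a, ha, rfl⟩ _ ⟨b, hb, rfl⟩ hab
    rw [← tp_eq, hr, hr] at hab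
    rw [hab]

theorem wqo_star3_two (K : ℕ) (hK : 5 ≤ K) : WQO (Cl (star 3) (coMatch K 2)) := by
  classical
  intro s hs
  set m := bigN K (8 * K + 16) + 33 with hm
  have hin : ∀ i, InTwo K (s i).G := fun i => inTwo_of hK (hs i).1 (hs i).2.1 (hs i).2.2
  -- two kinds
  let A : Set ℕ := {i | CliqueBound (tq (s i).G) m}
  have hAA : A.Infinite ∨ Aᶜ.Infinite := by
    by_contra hcon
    rw [not_or, Set.not_infinite, Set.not_infinite] at hcon
    have := hcon.1.union hcon.2
    rw [Set.union_compl_self] at this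
    exact Set.infinite_univ this
  rcases hAA with hA | hA
  · let φ : ℕ → ℕ := Nat.nth (fun i => i ∈ A)
    have hφm : StrictMono φ := Nat.nth_strictMono hA
    have hφc : ∀ k, φ k ∈ A := fun k => Nat.nth_mem_of_infinite hA k
    obtain ⟨i, j, hij, h⟩ := wqo_layout (typeBound 3 m) (fun i => s (φ i)) (fun i =>
      exists_layout (hin (φ i)).star (hφc i))
    exact ⟨φ i, φ j, hφm hij, h⟩
  · let φ : ℕ → ℕ := Nat.nth (fun i => i ∈ Aᶜ)
    have hφm : StrictMono φ := Nat.nth_strictMono hA
    have hφc : ∀ k, φ k ∈ Aᶜ := fun k => Nat.nth_mem_of_infinite hA k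
    obtain ⟨i, j, hij, h⟩ := wqo_chain (fun i => s (φ i)) (fun i => by
      obtain ⟨Q, hQc, hQ, htw⟩ := exists_Q (hφc i)
      obtain ⟨hT, hP⟩ := (hin (φ i)).structure hQ htw (by omega)
      exact ⟨(hs (φ i)).1, hT, hP⟩)
    exact ⟨φ i, φ j, hφm hij, h⟩

end Pool.Agent.H67.WQ
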