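import Pool.Agent.H67.WQ.Dia3
import Pool.Agent.H67.WQ.TwoSuff
import Pool.Agent.H67.WQ.StarPairs
import Pool.Agent.H67.WQ.Nec2

set_option autoImplicit false

namespace Pool.Agent.H67.WQ

/-- `H` is `K_1`, `K_2`, `K_3`, the path `P_3 = K_{1,2}` or the diamond. -/
def SmallGraph (H : FG) : Prop :=
  Nonempty (H.G ≃g (coMatch 1 0).G) ∨ Nonempty (H.G ≃g (coMatch 2 0).G) ∨
  Nonempty (H.G ≃g (coMatch 3 0).G) ∨ Nonempty (H.G ≃g (star 2).G) ∨
  Nonempty (H.G ≃g diamond.G)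

theorem diamond_not_K4 (h : ContractsTo diamond (coMatch 4 0)) : False := by
  obtain ⟨f, hf⟩ := contractsTo_iff.1 h
  have hinj : Function.Injective f := by
    have hs := hf.surj
    change Function.Surjective (f : Fin 4 → Fin 4) at hs
    exact Finite.injective_iff_surjective.2 hs
  have hne : (2 : Fin 4) ≠ 3 := by decide
  have hne' : f (2 : Fin 4) ≠ f (3 : Fin 4) := fun e => hne (hinj e)
  have hadj : (coMatch 4 0).G.Adj (f (2 : Fin 4)) (f (3 : Fin 4)) :=
    ⟨hne', fun hh => absurd hh.2 (by omega)⟩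
  obtain ⟨_, x, y, hx, hy, hxy⟩ := (hf.2 _ _).1 hadj
  rw [hinj hx, hinj hy] at hxy
  rcases hxy.2 with h1 | h1
  · change (2 : ℕ) < 2 at h1
    omega
  · change (3 : ℕ) < 2 at h1
    omega

theorem small_iff (H : FG) : ContractsTo diamond H ↔ SmallGraph H := by
  constructor
  · intro h
    have hn := n_le_of_contractsTo h
    change H.n ≤ 4 at hn
    obtain ⟨h1, h2⟩ := ML_of_diamond h
    rcases h1.cases with ⟨m, a, hm, ha, ⟨e⟩⟩ | ⟨m, hm, _, hC⟩ | ⟨_, hC⟩
    · have hmn := n_eq_of_iso e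
      change H.n = m at hmn
      have hcase : (m = 1 ∧ a = 0) ∨ (m = 2 ∧ a = 0) ∨ (m = 3 ∧ a = 0) ∨ (m = 3 ∧ a = 1) ∨
          (m = 4 ∧ a = 0) ∨ (m = 4 ∧ a = 1) := by omega
      rcases hcase with ⟨rfl, rfl⟩ | ⟨rfl, rfl⟩ | ⟨rfl, rfl⟩ | ⟨rfl, rfl⟩ | ⟨rfl, rfl⟩ | ⟨rfl, rfl⟩
      · exact Or.inl ⟨e⟩
      · exact Or.inr (Or.inl ⟨e⟩)
      · exact Or.inr (Or.inr (Or.inl ⟨e⟩))
      · right; right; right; left
        refine ⟨e.trans ⟨(Equiv.swap (0 : Fin 3) 2 : Equiv.Perm (Fin 3)), ?_⟩⟩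
        intro x y
        revert x y
        change ∀ x y : Fin 3, ((Equiv.swap (0 : Fin 3) 2) x ≠ (Equiv.swap (0 : Fin 3) 2) y ∧
          ((((Equiv.swap (0 : Fin 3) 2) x : Fin 3) : ℕ) = 0 ∨
          (((Equiv.swap (0 : Fin 3) 2) y : Fin 3) : ℕ) = 0)) ↔
          (x ≠ y ∧ ¬ ((x : ℕ) / 2 = (y : ℕ) / 2 ∧ (x : ℕ) / 2 < 1))
        decide
      · exact (diamond_not_K4 (contractsTo_of_iso_right h e.symm)).elim
      · right; right; right; right
        refine ⟨e.trans ⟨((Equiv.swap (0 : Fin 4) 2).trans (Equiv.swap (1 : Fin 4) 3) :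
          Equiv.Perm (Fin 4)), ?_⟩⟩
        intro x y
        revert x y
        change ∀ x y : Fin 4, (((Equiv.swap (0 : Fin 4) 2).trans (Equiv.swap (1 : Fin 4) 3)) x ≠
          ((Equiv.swap (0 : Fin 4) 2).trans (Equiv.swap (1 : Fin 4) 3)) y ∧
          (((((Equiv.swap (0 : Fin 4) 2).trans (Equiv.swap (1 : Fin 4) 3)) x : Fin 4) : ℕ) < 2 ∨
          ((((Equiv.swap (0 : Fin 4) 2).trans (Equiv.swap (1 : Fin 4) 3)) y : Fin 4) : ℕ) < 2)) ↔
          (x ≠ y ∧ ¬ ((x : ℕ) / 2 = (y : ℕ) / 2 ∧ (x : ℕ) / 2 < 1))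
        decide
    · exact absurd hC h2
    · exact absurd hC h2
  · rintro (⟨⟨e⟩⟩ | ⟨⟨e⟩⟩ | ⟨⟨e⟩⟩ | ⟨⟨e⟩⟩ | ⟨⟨e⟩⟩)
    · exact contractsTo_of_iso_right (diamond_coMatch (m := 1) (a := 0) (by omega) (by omega)
        (by omega)) e
    · exact contractsTo_of_iso_right (diamond_coMatch (m := 2) (a := 0) (by omega) (by omega)
        (by omega)) e
    · exact contractsTo_of_iso_right (diamond_coMatch (m := 3) (a := 0) (by omega) (by omega)
        (by omega)) e
    · exact contractsTo_of_iso_right (diamond_star (p := 2) (by omega)) e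
    · exact contractsTo_of_iso_right (diamond_starPlus (p := 2) (by omega)) e

theorem cl_comm (H₁ H₂ : FG) : Cl H₁ H₂ = Cl H₂ H₁ := by
  ext G
  constructor
  · rintro ⟨h1, h2, h3⟩
    exact ⟨h1, h3, h2⟩
  · rintro ⟨h1, h2, h3⟩
    exact ⟨h1, h3, h2⟩

theorem suff_diamond {H₁ : FG} (h : ContractsTo diamond H₁) (H₂ : FG) : WQO (Cl H₁ H₂) := by
  refine (wqo_diamond H₂).mono ?_
  rintro G ⟨hc, h1, h2⟩
  exact ⟨hc, fun h' => h1 (h'.trans h), h2⟩

theorem suff_pair {S M : FG} (h : BestPair S M) : WQO (Cl S M) := by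
  rcases h with ⟨p, a, m, hp, hm, ha, ⟨e⟩, ⟨e'⟩⟩ | ⟨p, hp, ⟨e⟩, ⟨e'⟩⟩
  · have key : ∀ K b : ℕ, Contr (coMatch K b).G (coMatch m a).G →
        WQO (Cl (star p) (coMatch K b)) → WQO (Cl S M) := by
      intro K b hc hw
      refine hw.mono ?_
      rintro G ⟨hG, h1, h2⟩
      refine ⟨hG, fun h => h1 ?_, fun h => h2 ?_⟩
      · rw [contractsTo_iff] at h ⊢
        exact h.trans (Contr.of_iso e.symm)
      · rw [contractsTo_iff] at h ⊢
        exact (h.trans hc).trans (Contr.of_iso e'.symm)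
    rcases ha with ha | ⟨rfl, rfl⟩
    · rcases Nat.eq_zero_or_pos a with h0 | h0
      · subst h0
        exact key (m + 4) 1 (contr_coMatch_zero (by omega)) (wqo_star_K p (m + 4) (by omega))
      · have : a = 1 := by omega
        subst this
        exact key (m + 1) 1 (contr_coMatch_one (by omega) (by omega))
          (wqo_star_K p (m + 1) (by omega))
    · exact key m 2 (Contr.refl _) (wqo_star3_two m (by omega))
  · refine (wqo_starPlus_K4 p).mono ?_
    rintro G ⟨hG, h1, h2⟩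
    refine ⟨hG, fun h => h1 ?_, fun h => h2 ?_⟩
    · rw [contractsTo_iff] at h ⊢
      exact h.trans (Contr.of_iso e.symm)
    · rw [contractsTo_iff] at h ⊢
      exact h.trans (Contr.of_iso e'.symm)

/-- The classification of all pairs of graphs for which the class of connected graphs without
these two contractions is well-quasi-ordered by the contraction relation. -/
theorem classification (H₁ H₂ : FG) : WQO (Cl H₁ H₂) ↔
    SmallGraph H₁ ∨ SmallGraph H₂ ∨ BestPair H₁ H₂ ∨ BestPair H₂ H₁ := by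
  constructor
  · intro hw
    rw [← small_iff, ← small_iff]
    exact necessity2 H₁ H₂ hw
  · rintro (h | h | h | h)
    · exact suff_diamond ((small_iff _).2 h) _
    · rw [cl_comm]
      exact suff_diamond ((small_iff _).2 h) _
    · exact suff_pair h
    · rw [cl_comm]
      exact suff_pair h

end Pool.Agent.H67.WQ
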