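import Pool.Agent.H67.WQ.Nec

set_option autoImplicit false

namespace Pool.Agent.H67.WQ

/-! ### More on connected sets -/

theorem cn_of_pairs {V : Type} {G : SimpleGraph V} {F : Set V} (hne : F.Nonempty)
    (h : ∀ a ∈ F, ∀ b ∈ F, ∃ T, T ⊆ F ∧ Cn G T ∧ a ∈ T ∧ b ∈ T) : Cn G F := by
  refine ⟨hne, fun A hA hA1 hA2 => ?_⟩
  obtain ⟨a, ha⟩ := hA1
  obtain ⟨b, hb, hb'⟩ := hA2
  obtain ⟨T, hTF, hT, haT, hbT⟩ := h a (hA ha) b hb
  obtain ⟨x, hx, y, hy, hxy⟩ := hT.2 (T ∩ A) Set.inter_subset_left ⟨a, haT, ha⟩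
    ⟨b, hbT, fun hh => hb' hh.2⟩
  exact ⟨x, hx.2, y, ⟨hTF hy.1, fun hh => hy.2 ⟨hy.1, hh⟩⟩, hxy⟩

/-- a set containing a connected base to which every element is attached by a connected piece -/
theorem cn_of_base {V : Type} {G : SimpleGraph V} {B F : Set V} (hB : Cn G B) (hBF : B ⊆ F)
    (h : ∀ x ∈ F, ∃ K, K ⊆ F ∧ Cn G K ∧ x ∈ K ∧
      ((∃ z, z ∈ B ∧ z ∈ K) ∨ ∃ s ∈ B, ∃ t ∈ K, G.Adj s t)) : Cn G F := by
  apply cn_of_pairs (hB.1.mono hBF)
  intro a ha b hb
  obtain ⟨K, hKF, hK, haK, hBK⟩ := h a ha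
  obtain ⟨K', hKF', hK', hbK', hBK'⟩ := h b hb
  have h1 := cn_union G hB hK hBK
  have h2 := cn_union G hB hK' hBK'
  obtain ⟨z, hz⟩ := hB.1
  exact ⟨(B ∪ K) ∪ (B ∪ K'), Set.union_subset (Set.union_subset hBF hKF)
    (Set.union_subset hBF hKF'), cn_union G h1 h2 (Or.inl ⟨z, Or.inl hz, Or.inl hz⟩),
    Or.inl (Or.inr haK), Or.inr (Or.inr hbK')⟩

theorem cn_insert {V : Type} {G : SimpleGraph V} {B : Set V} (hB : Cn G B) {x y : V}
    (hx : x ∈ B) (hxy : G.Adj x y) : Cn G (insert y B) := by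
  have := cn_union G hB (cn_singleton G y) (Or.inr ⟨x, hx, y, rfl, hxy⟩)
  rw [Set.insert_eq, Set.union_comm]
  exact this

/-- the component of `x` in the graph without `S` -/
def comp {V : Type} (G : SimpleGraph V) (S : Set V) (x : V) : Set V :=
  {y | ∃ T, Cn G T ∧ (∀ z ∈ T, z ∉ S) ∧ x ∈ T ∧ y ∈ T}

section comp
variable {V : Type} {G : SimpleGraph V} {S : Set V}

theorem mem_comp_self {x : V} (hx : x ∉ S) : x ∈ comp G S x :=
  ⟨{x}, cn_singleton G x, by rintro z rfl; exact hx, rfl, rfl⟩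

theorem comp_disj {x y : V} (hy : y ∈ comp G S x) : y ∉ S := by
  obtain ⟨T, _, hT, _, hyT⟩ := hy
  exact hT y hyT

theorem comp_closed {x y z : V} (hy : y ∈ comp G S x) (hz : z ∉ S) (h : G.Adj y z) :
    z ∈ comp G S x := by
  obtain ⟨T, hT, hTS, hxT, hyT⟩ := hy
  refine ⟨insert z T, cn_insert hT hyT h, ?_, Or.inr hxT, Or.inl rfl⟩
  rintro w (rfl | hw)
  · exact hz
  · exact hTS w hw

theorem comp_subset_of {x : V} {T : Set V} (hT : Cn G T) (hTS : ∀ z ∈ T, z ∉ S) (hx : x ∈ T) :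
    T ⊆ comp G S x := fun _ hy => ⟨T, hT, hTS, hx, hy⟩

theorem cn_comp {x : V} (hx : x ∉ S) : Cn G (comp G S x) := by
  apply cn_of_pairs ⟨x, mem_comp_self hx⟩
  rintro a ⟨T, hT, hTS, hxT, haT⟩ b ⟨T', hT', hTS', hxT', hbT'⟩
  refine ⟨T ∪ T', ?_, cn_union G hT hT' (Or.inl ⟨x, hxT, hxT'⟩), Or.inl haT, Or.inr hbT'⟩
  rintro y (hy | hy)
  · exact ⟨T, hT, hTS, hxT, hy⟩
  · exact ⟨T', hT', hTS', hxT', hy⟩

theorem comp_eq {x y : V} (hy : y ∈ comp G S x) : comp G S y = comp G S x := by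
  obtain ⟨T, hT, hTS, hxT, hyT⟩ := hy
  ext z
  constructor
  · rintro ⟨T', hT', hTS', hyT', hzT'⟩
    refine ⟨T ∪ T', cn_union G hT hT' (Or.inl ⟨y, hyT, hyT'⟩), ?_, Or.inl hxT, Or.inr hzT'⟩
    rintro w (hw | hw)
    · exact hTS w hw
    · exact hTS' w hw
  · rintro ⟨T', hT', hTS', hxT', hzT'⟩
    refine ⟨T ∪ T', cn_union G hT hT' (Or.inl ⟨x, hxT, hxT'⟩), ?_, Or.inl hyT, Or.inr hzT'⟩
    rintro w (hw | hw)
    · exact hTS w hw
    · exact hTS' w hw

theorem comp_eq_of_adj {x y : V} (hx : x ∉ S) (hy : y ∉ S) (h : G.Adj x y) :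
    comp G S x = comp G S y :=
  (comp_eq (comp_closed (mem_comp_self hx) hy h)).symm

end comp

theorem comp_mono {V : Type} {G : SimpleGraph V} {S S' : Set V} (h : S ⊆ S') (x : V) :
    comp G S' x ⊆ comp G S x := by
  rintro y ⟨T, hT, hTS, hx, hy⟩
  exact ⟨T, hT, fun z hz hzS => hTS z hz (h hzS), hx, hy⟩

/-- Attaching components to a base: the map `β` on `S` and `κ` outside of `S`, constant on the
components of the complement, has connected fibres. -/
theorem cn_fiber {V W : Type} {G : SimpleGraph V} {S : Set V} [DecidablePred (· ∈ S)]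
    (β : V → W) (κ : Set V → W) (hβ : ∀ w, Cn G {v | v ∈ S ∧ β v = w})
    (hκ : ∀ x ∉ S, ∃ s ∈ S, β s = κ (comp G S x) ∧ ∃ y ∈ comp G S x, G.Adj s y) (w : W) :
    Cn G {v | (if v ∈ S then β v else κ (comp G S v)) = w} := by
  apply cn_of_base (hβ w)
  · rintro v ⟨hv, hvw⟩
    change (if v ∈ S then β v else κ (comp G S v)) = w
    rw [if_pos hv]; exact hvw
  · intro x hx
    change (if x ∈ S then β x else κ (comp G S x)) = w at hx
    by_cases hxS : x ∈ S
    · rw [if_pos hxS] at hx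
      refine ⟨{x}, ?_, cn_singleton G x, rfl, Or.inl ⟨x, ⟨hxS, hx⟩, rfl⟩⟩
      rintro z rfl
      change (if z ∈ S then β z else κ (comp G S z)) = w
      rw [if_pos hxS]; exact hx
    · rw [if_neg hxS] at hx
      obtain ⟨s, hs, hsw, y, hy, hsy⟩ := hκ x hxS
      refine ⟨comp G S x, ?_, cn_comp hxS, mem_comp_self hxS,
        Or.inr ⟨s, ⟨hs, hsw.trans hx⟩, y, hy, hsy⟩⟩
      intro z hz
      change (if z ∈ S then β z else κ (comp G S z)) = w
      rw [if_neg (comp_disj hz), comp_eq hz]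
      exact hx

/-- every component of the complement of a nonempty set is attached to it -/
theorem exists_attach {V : Type} {G : SimpleGraph V} (hG : G.Connected) {S : Set V}
    (hS : S.Nonempty) {x : V} (hx : x ∉ S) : ∃ s ∈ S, ∃ y ∈ comp G S x, G.Adj s y := by
  obtain ⟨s0, hs0⟩ := hS
  obtain ⟨a, ha, b, hb, hab⟩ := cut_of_connected G hG (comp G S x) ⟨x, mem_comp_self hx⟩
    ⟨s0, fun h => comp_disj h hs0⟩
  refine ⟨b, ?_, a, ha, hab.symm⟩
  by_contra hbS
  exact hb (comp_closed ha hbS hab)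

/-! ### The class -/

/-- the class of connected graphs without `K_{1,p}` as a contraction, in a convenient form -/
structure StarFree (p : ℕ) {V : Type} (G : SimpleGraph V) : Prop where
  conn : G.Connected
  noStar : ∀ (W : Type) [Fintype W] (H : SimpleGraph W) (f : V → W), IsModel G H f →
    (∃ c, ∀ i j, H.Adj i j ↔ i ≠ j ∧ (i = c ∨ j = c)) → Fintype.card W ≤ p

/-- the class of connected graphs without `K_{1,p}` and `K_q` minus an edge as contractions,
in a convenient form -/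
structure InClass (p q : ℕ) {V : Type} (G : SimpleGraph V) : Prop where
  conn : G.Connected
  noStar : ∀ (W : Type) [Fintype W] (H : SimpleGraph W) (f : V → W), IsModel G H f →
    (∃ c, ∀ i j, H.Adj i j ↔ i ≠ j ∧ (i = c ∨ j = c)) → Fintype.card W ≤ p
  noK : ∀ (W : Type) [Fintype W] (H : SimpleGraph W) (f : V → W), IsModel G H f →
    (∃ x y, x ≠ y ∧ ¬ H.Adj x y ∧
      ∀ i j, i ≠ j → ¬ H.Adj i j → (i = x ∧ j = y) ∨ (i = y ∧ j = x)) → Fintype.card W < q

theorem InClass.star {p q : ℕ} {V : Type} {G : SimpleGraph V} (h : InClass p q G) :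
    StarFree p G := ⟨h.conn, h.noStar⟩

theorem connected_of_model {V W : Type} {G : SimpleGraph V} {H : SimpleGraph W} {f : V → W}
    (hf : IsModel G H f) (hG : G.Connected) : H.Connected := by
  rw [connected_iff_cn]
  have hne : Nonempty W := by
    obtain ⟨x⟩ := hG.nonempty
    exact ⟨f x⟩
  refine ⟨Set.univ_nonempty, fun A _ hA hA' => ?_⟩
  obtain ⟨a0, ha0⟩ := hA
  obtain ⟨b0, _, hb0⟩ := hA'
  obtain ⟨x0, rfl⟩ := hf.surj a0
  obtain ⟨y0, rfl⟩ := hf.surj b0
  obtain ⟨x, hx, y, hy, hxy⟩ := cut_of_connected G hG {v | f v ∈ A} ⟨x0, ha0⟩ ⟨y0, hb0⟩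
  have hne' : f x ≠ f y := fun e => hy (by
    change f y ∈ A
    rw [← e]; exact hx)
  exact ⟨f x, hx, f y, ⟨trivial, hy⟩, (hf.2 _ _).2 ⟨hne', x, y, rfl, rfl, hxy⟩⟩

theorem InClass.of_model {p q : ℕ} {V W : Type} {G : SimpleGraph V} {H : SimpleGraph W}
    {f : V → W} (hf : IsModel G H f) (h : InClass p q G) : InClass p q H where
  conn := connected_of_model hf h.conn
  noStar W' _ K g hg hK := h.noStar W' K (g ∘ f) (hf.comp hg) hK
  noK W' _ K g hg hK := h.noK W' K (g ∘ f) (hf.comp hg) hK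

theorem StarFree.of_model {p : ℕ} {V W : Type} {G : SimpleGraph V} {H : SimpleGraph W}
    {f : V → W} (hf : IsModel G H f) (h : StarFree p G) : StarFree p H where
  conn := connected_of_model hf h.conn
  noStar W' _ K g hg hK := h.noStar W' K (g ∘ f) (hf.comp hg) hK

/-- the quotient graph of a map -/
def quo {V W : Type} (G : SimpleGraph V) (f : V → W) : SimpleGraph W where
  Adj a b := a ≠ b ∧ ∃ x y, f x = a ∧ f y = b ∧ G.Adj x y
  symm := ⟨by
    rintro a b ⟨h, x, y, hx, hy, hxy⟩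
    exact ⟨h.symm, y, x, hy, hx, hxy.symm⟩⟩
  loopless := ⟨fun _ h => h.1 rfl⟩

theorem isModel_quo {V W : Type} {G : SimpleGraph V} {f : V → W}
    (h : ∀ w, Cn G {v | f v = w}) : IsModel G (quo G f) f :=
  ⟨h, fun _ _ => Iff.rfl⟩

/-- the components of the complement of `S` -/
def Comps {V : Type} (G : SimpleGraph V) (S : Set V) : Set (Set V) :=
  {D | ∃ x, x ∉ S ∧ D = comp G S x}

theorem ncard_comps {p : ℕ} {V : Type} [Fintype V] {G : SimpleGraph V} (h : StarFree p G)
    {S : Set V} (hS : Cn G S) : (Comps G S).ncard + 1 ≤ p := by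
  classical
  have : Fintype ↥(Comps G S) := Fintype.ofFinite _
  -- the model
  let f : V → Option ↥(Comps G S) := fun v =>
    if hv : v ∈ S then none else some ⟨comp G S v, v, hv, rfl⟩
  have hfib : ∀ w, Cn G {v | f v = w} := by
    intro w
    rcases w with _ | ⟨D, x, hx, rfl⟩
    · have : {v | f v = none} = S := by
        ext v
        change f v = none ↔ v ∈ S
        by_cases hv : v ∈ S
        · simp [f, hv]
        · simp [f, hv]
      rw [this]; exact hS
    · have : {v | f v = some ⟨comp G S x, x, hx, rfl⟩} = comp G S x := by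
        ext v
        change f v = some ⟨comp G S x, x, hx, rfl⟩ ↔ v ∈ comp G S x
        by_cases hv : v ∈ S
        · simp only [f, hv, dif_pos]
          constructor
          · intro e; exact absurd e (by simp)
          · intro hv'; exact absurd hv (comp_disj hv')
        · simp only [f, hv, dif_neg, not_false_iff, Option.some.injEq, Subtype.mk.injEq]
          constructor
          · intro e; rw [← e]; exact mem_comp_self hv
          · intro hv'; exact comp_eq hv'
      rw [this]; exact cn_comp hx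
  have hcard := h.noStar _ (quo G f) f (isModel_quo hfib) ⟨none, fun i j => ?_⟩
  · rw [Fintype.card_option] at hcard
    rw [Set.ncard_eq_toFinset_card', Set.toFinset_card]
    exact hcard
  · constructor
    · rintro ⟨hne, x, y, hx, hy, hxy⟩
      refine ⟨hne, ?_⟩
      by_contra hcon
      push Not at hcon
      have hxS : x ∉ S := fun hxS => hcon.1 (by rw [← hx]; simp [f, hxS])
      have hyS : y ∉ S := fun hyS => hcon.2 (by rw [← hy]; simp [f, hyS])
      apply hne
      rw [← hx, ← hy]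
      simp only [f, hxS, hyS, dif_neg, not_false_iff, Option.some.injEq, Subtype.mk.injEq]
      exact comp_eq_of_adj hxS hyS hxy
    · have main : ∀ j : Option ↥(Comps G S), j ≠ none → (quo G f).Adj none j := by
        intro j hj
        rcases j with _ | ⟨D, x, hx, rfl⟩
        · exact absurd rfl hj
        · obtain ⟨s, hs, y, hy, hsy⟩ := exists_attach h.conn hS.1 hx
          refine ⟨hj.symm, s, y, by simp [f, hs], ?_, hsy⟩
          simp only [f, comp_disj hy, dif_neg, not_false_iff, Option.some.injEq, Subtype.mk.injEq]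
          exact comp_eq hy
      rintro ⟨hne, rfl | rfl⟩
      · exact main j hne.symm
      · exact (main i hne).symm

end Pool.Agent.H67.WQ
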