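import Mathlib

set_option autoImplicit false

namespace Pool.Agent.H67.WQ

/-- First coordinate of the points of the oscillation. -/
def cx (k : ℕ) : ℕ := if k = 0 then 0 else if k = 1 then 2 else if k % 2 = 0 then k + 1 else k - 2

/-- Second coordinate of the points of the oscillation. -/
def cy (k : ℕ) : ℕ := if k ≤ 1 then 0 else if k % 2 = 0 then k - 2 else k + 1

/-- `q` is strictly to the upper left of `p`. -/
def EE (q p : ℕ) : Prop := cx q < cx p ∧ cy p < cy q

theorem EE_char {q p : ℕ} (h : EE q p) :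
    3 ≤ q ∧ q % 2 = 1 ∧ (p = q - 1 ∨ p = q + 1 ∨ (q = 3 ∧ p = 1)) := by
  unfold EE cx cy at h
  obtain ⟨h1, h2⟩ := h
  split_ifs at h1 h2 <;> omega

theorem EE_succ_odd {k : ℕ} (h3 : 3 ≤ k) (ho : k % 2 = 1) : EE k (k + 1) := by
  have h1 : cx k = k - 2 := by unfold cx; split_ifs <;> omega
  have h2 : cx (k + 1) = k + 2 := by unfold cx; split_ifs <;> omega
  have h3 : cy k = k + 1 := by unfold cy; split_ifs <;> omega
  have h4 : cy (k + 1) = k - 1 := by unfold cy; split_ifs <;> omega
  unfold EE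
  omega

theorem EE_pred_odd {k : ℕ} (h3 : 3 ≤ k) (ho : k % 2 = 1) : EE k (k - 1) := by
  unfold EE cx cy
  constructor <;> split_ifs <;> omega

theorem EE_three_one : EE 3 1 := by
  unfold EE cx cy
  constructor <;> simp

theorem cx_le (k : ℕ) : cx k ≤ k + 1 := by
  unfold cx
  split_ifs <;> omega

theorem cy_le (k : ℕ) : cy k ≤ k + 1 := by
  unfold cy
  split_ifs <;> omega

/-- A family of pairwise disjoint groups of points, indexed by `ι`: in each group, `a i` has the
largest first coordinate and `b i` the largest second coordinate. -/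
structure Groups (ι : Type) where
  a : ι → ℕ
  b : ι → ℕ
  hab : ∀ i, cx (b i) ≤ cx (a i)
  hba : ∀ i, cy (a i) ≤ cy (b i)
  ha : ∀ i j, i ≠ j → a i ≠ a j
  hb : ∀ i j, i ≠ j → b i ≠ b j

/-- the join of the group `i` is to the upper left of the join of the group `j` -/
def Groups.U {ι : Type} (g : Groups ι) (i j : ι) : Prop :=
  cx (g.a i) < cx (g.a j) ∧ cy (g.b j) < cy (g.b i)

/-- `i` is not above `j`. -/
def Groups.NL {ι : Type} (g : Groups ι) (i j : ι) : Prop :=
  cx (g.a i) < cx (g.a j) ∨ cy (g.b i) < cy (g.b j)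

theorem Groups.U_of_NL {ι : Type} (g : Groups ι) {i j : ι} (h : g.NL i j) (h' : g.NL j i) :
    g.U i j ∨ g.U j i := by
  unfold NL at h h'
  unfold U
  omega

theorem Groups.ne_of_U {ι : Type} (g : Groups ι) {i j : ι} (h : g.U i j) : i ≠ j := by
  rintro rfl
  exact lt_irrefl _ h.1

theorem Groups.EE_of_U {ι : Type} (g : Groups ι) {i j : ι} (h : g.U i j) :
    EE (g.b i) (g.a j) :=
  ⟨lt_of_le_of_lt (g.hab i) h.1, lt_of_le_of_lt (g.hba j) h.2⟩

/-- there is no antichain of three joins of disjoint groups -/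
theorem Groups.no3 {ι : Type} (g : Groups ι) {i j k : ι} (h : g.U i j) (h' : g.U j k) : False := by
  have h'' : g.U i k := ⟨h.1.trans h'.1, h'.2.trans h.2⟩
  obtain ⟨e1, e2, e3⟩ := EE_char (g.EE_of_U h)
  obtain ⟨f1, f2, f3⟩ := EE_char (g.EE_of_U h')
  obtain ⟨_, _, d3⟩ := EE_char (g.EE_of_U h'')
  have n1 := g.hb i j (g.ne_of_U h)
  have n2 := g.ha j k (g.ne_of_U h')
  have c1 := h.2
  have c2 := h'.1
  generalize g.b i = bi at *
  generalize g.b j = bj at *
  generalize g.a j = aj at *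
  generalize g.a k = ak at *
  have c1' : bj < bi := by
    have s1 : cy bj = bj + 1 := by unfold cy; split_ifs <;> omega
    have s2 : cy bi = bi + 1 := by unfold cy; split_ifs <;> omega
    omega
  have key : ak = bi - 1 ∧ ak = bj + 1 := by
    rcases f3 with f3 | f3 | f3 <;> rcases d3 with d3 | d3 | d3 <;> omega
  have key2 : aj = bi + 1 := by
    rcases e3 with e3 | e3 | e3 <;> omega
  have s3 : cx aj = bi + 2 := by
    rw [key2]; unfold cx; split_ifs <;> omega
  have s4 : cx ak = bi := by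
    rw [key.1]; unfold cx; split_ifs <;> omega
  omega

/-- The main combinatorial lemma: groups indexed by the points `0,…,m` which keep the strict
incomparabilities of the points follow the oscillation exactly. -/
theorem Groups.main {m : ℕ} (hm : 7 ≤ m) (g : Groups (Fin (m + 1)))
    (H : ∀ i j : Fin (m + 1), EE i j → g.U i j ∨ g.U j i)
    (O : ∀ i j : Fin (m + 1), (i : ℕ) = 0 → (j : ℕ) = 4 → g.NL i j)
    (n : ℕ) (i : Fin (m + 1)) (hx : cx n ≤ cx (g.a i)) (hy : cy n ≤ cy (g.b i)) : n ≤ m := by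
  have i1 : (1 : ℕ) < m + 1 := by omega
  have i2 : (2 : ℕ) < m + 1 := by omega
  have i3 : (3 : ℕ) < m + 1 := by omega
  have i4 : (4 : ℕ) < m + 1 := by omega
  have h32 := H ⟨3, i3⟩ ⟨2, i2⟩ (EE_pred_odd (k := 3) le_rfl rfl)
  have h34 := H ⟨3, i3⟩ ⟨4, i4⟩ (EE_succ_odd (k := 3) le_rfl rfl)
  have h31 := H ⟨3, i3⟩ ⟨1, i1⟩ EE_three_one
  have ne12 : (⟨1, i1⟩ : Fin (m + 1)) ≠ ⟨2, i2⟩ := by simp
  have ne14 : (⟨1, i1⟩ : Fin (m + 1)) ≠ ⟨4, i4⟩ := by simp
  have ne24 : (⟨2, i2⟩ : Fin (m + 1)) ≠ ⟨4, i4⟩ := by simp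
  -- the group 3 is an upper one
  have up32 : g.U ⟨3, i3⟩ ⟨2, i2⟩ := by
    rcases h32 with h | h
    · exact h
    · exfalso
      have u1 : g.U ⟨1, i1⟩ ⟨3, i3⟩ := by
        rcases h31 with h' | h'
        · exact (g.no3 h h').elim
        · exact h'
      have u4 : g.U ⟨4, i4⟩ ⟨3, i3⟩ := by
        rcases h34 with h' | h'
        · exact (g.no3 h h').elim
        · exact h'
      obtain ⟨_, _, e3⟩ := EE_char (g.EE_of_U h)
      obtain ⟨_, _, f3⟩ := EE_char (g.EE_of_U u1)
      obtain ⟨_, _, d3⟩ := EE_char (g.EE_of_U u4)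
      have n1 := g.hb _ _ ne12
      have n2 := g.hb _ _ ne14
      have n3 := g.hb _ _ ne24
      rcases e3 with e3 | e3 | e3 <;> rcases f3 with f3 | f3 | f3 <;>
        rcases d3 with d3 | d3 | d3 <;> omega
  have up34 : g.U ⟨3, i3⟩ ⟨4, i4⟩ := by
    rcases h34 with h' | h'
    · exact h'
    · exact (g.no3 h' up32).elim
  have up31 : g.U ⟨3, i3⟩ ⟨1, i1⟩ := by
    rcases h31 with h' | h'
    · exact h'
    · exact (g.no3 h' up32).elim
  have n1 := g.ha _ _ ne12
  have n2 := g.ha _ _ ne14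
  have n3 := g.ha _ _ ne24
  have e2 := EE_char (g.EE_of_U up32)
  have e4 := EE_char (g.EE_of_U up34)
  have e1 := EE_char (g.EE_of_U up31)
  have b3 : g.b ⟨3, i3⟩ = 3 := by
    obtain ⟨_, _, e2⟩ := e2
    obtain ⟨_, _, e4⟩ := e4
    obtain ⟨_, _, e1⟩ := e1
    rcases e1 with e1 | e1 | e1 <;> rcases e2 with e2 | e2 | e2 <;>
      rcases e4 with e4 | e4 | e4 <;> omega
  -- the fourth group
  have i5 : (5 : ℕ) < m + 1 := by omega
  have h54 := H ⟨5, i5⟩ ⟨4, i4⟩ (EE_pred_odd (k := 5) (by omega) rfl)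
  have up54 : g.U ⟨5, i5⟩ ⟨4, i4⟩ := by
    rcases h54 with h' | h'
    · exact h'
    · exact (g.no3 up34 h').elim
  have a4 : g.a ⟨4, i4⟩ = 4 := by
    obtain ⟨_, _, e4⟩ := e4
    obtain ⟨f1, f2, f3⟩ := EE_char (g.EE_of_U up54)
    have n4 := g.hb ⟨3, i3⟩ ⟨5, i5⟩ (by simp)
    rw [b3] at e4 n4
    rcases e4 with e4 | e4 | e4 <;> rcases f3 with f3 | f3 | f3 <;> omega
  -- the induction along the path
  have ind : ∀ v : ℕ, 4 ≤ v → ∀ hv : v < m + 1,
      (v % 2 = 0 → g.a ⟨v, hv⟩ = v ∧ g.U ⟨v - 1, by omega⟩ ⟨v, hv⟩ ∧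
        g.b ⟨v - 1, by omega⟩ = v - 1) ∧
      (v % 2 = 1 → g.b ⟨v, hv⟩ = v ∧ g.U ⟨v, hv⟩ ⟨v - 1, by omega⟩ ∧
        g.a ⟨v - 1, by omega⟩ = v - 1) := by
    intro v hv4
    induction v, hv4 using Nat.le_induction with
    | base =>
      intro hv
      refine ⟨fun _ => ⟨a4, up34, b3⟩, fun h => by omega⟩
    | succ v hv4 ih =>
      intro hv
      obtain ⟨ih1, ih2⟩ := ih (by omega)
      refine ⟨fun hev => ?_, fun hodd => ?_⟩
      · obtain ⟨hb, hU, ha⟩ := ih2 (by omega)
        have hs := H ⟨v, by omega⟩ ⟨v + 1, hv⟩ (EE_succ_odd (k := v) (by omega) (by omega))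
        have hU' : g.U ⟨v, by omega⟩ ⟨v + 1, hv⟩ := by
          rcases hs with h' | h'
          · exact h'
          · exact (g.no3 h' hU).elim
        obtain ⟨_, _, f3⟩ := EE_char (g.EE_of_U hU')
        have n5 := g.ha ⟨v - 1, by omega⟩ ⟨v + 1, hv⟩ (by
          intro e
          have := congrArg Fin.val e
          simp only at this
          omega)
        rw [hb] at f3
        rw [ha] at n5
        refine ⟨?_, hU', hb⟩
        rcases f3 with f3 | f3 | f3 <;> omega
      · obtain ⟨ha, hU, hb⟩ := ih1 (by omega)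
        have hs := H ⟨v + 1, hv⟩ ⟨v, by omega⟩ (EE_pred_odd (k := v + 1) (by omega) (by omega))
        have hU' : g.U ⟨v + 1, hv⟩ ⟨v, by omega⟩ := by
          rcases hs with h' | h'
          · exact h'
          · exact (g.no3 hU h').elim
        obtain ⟨f1, f2, f3⟩ := EE_char (g.EE_of_U hU')
        have n5 := g.hb ⟨v - 1, by omega⟩ ⟨v + 1, hv⟩ (by
          intro e
          have := congrArg Fin.val e
          simp only at this
          omega)
        rw [ha] at f3
        rw [hb] at n5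
        refine ⟨?_, hU', ha⟩
        rcases f3 with f3 | f3 | f3 <;> omega
  -- the coordinates of the point n are dominated by those of the group i
  obtain ⟨v, hv⟩ := i
  have hcy3 : cy 3 = 4 := rfl
  have hcx4 : cx 4 = 5 := rfl
  have hcy4 : cy (g.b ⟨4, i4⟩) < 4 := by
    have := up34.2
    rw [b3, hcy3] at this
    exact this
  have hcxn : (n % 2 = 0 → 2 ≤ n → cx n = n + 1 ∧ cy n = n - 2) ∧
      (n % 2 = 1 → 3 ≤ n → cx n = n - 2 ∧ cy n = n + 1) := by
    unfold cx cy
    constructor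
    · intro h1 h2
      constructor <;> split_ifs <;> omega
    · intro h1 h2
      constructor <;> split_ifs <;> omega
  have a12 : cx (g.a ⟨1, i1⟩) ≤ 3 ∧ cx (g.a ⟨2, i2⟩) ≤ 3 := by
    obtain ⟨_, _, e2⟩ := e2
    obtain ⟨_, _, e1⟩ := e1
    rw [b3] at e1 e2
    have c1 : cx 1 = 2 := rfl
    have c2 : cx 2 = 3 := rfl
    constructor
    · rcases e1 with e1 | e1 | e1
      · rw [e1]; simp [c2]
      · omega
      · rw [e1.2]; simp [c1]
    · rcases e2 with e2 | e2 | e2
      · rw [e2]; simp [c2]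
      · omega
      · rw [e2.2]; simp [c1]
  by_contra hnm
  push Not at hnm
  by_cases hv4 : 4 ≤ v
  · obtain ⟨p1, p2⟩ := ind v hv4 hv
    rcases Nat.mod_two_eq_zero_or_one v with hpar | hpar
    · obtain ⟨q1, q2, q3⟩ := p1 hpar
      have r1 : cx v = v + 1 := by unfold cx; split_ifs <;> omega
      have r2 : cy (v - 1) = v := by unfold cy; split_ifs <;> omega
      have r3 := q2.2
      rw [q3, r2] at r3
      rw [q1, r1] at hx
      rcases Nat.mod_two_eq_zero_or_one n with hn | hn
      · have := (hcxn.1 hn (by omega)).1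
        omega
      · have := (hcxn.2 hn (by omega)).2
        omega
    · obtain ⟨q1, q2, q3⟩ := p2 hpar
      have r1 : cy v = v + 1 := by unfold cy; split_ifs <;> omega
      have r2 : cx (v - 1) = v := by unfold cx; split_ifs <;> omega
      have r3 := q2.1
      rw [q3, r2] at r3
      rw [q1, r1] at hy
      rcases Nat.mod_two_eq_zero_or_one n with hn | hn
      · have := (hcxn.1 hn (by omega)).1
        omega
      · have := (hcxn.2 hn (by omega)).2
        omega
  · have hbig : 7 < n := by omega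
    have hlow : n - 2 ≤ cx n ∧ n - 2 ≤ cy n := by
      rcases Nat.mod_two_eq_zero_or_one n with hn | hn
      · have := hcxn.1 hn (by omega)
        omega
      · have := hcxn.2 hn (by omega)
        omega
    rcases Nat.lt_or_ge v 1 with h0 | h0
    · have hO := O ⟨v, hv⟩ ⟨4, i4⟩ (by simp only; omega) rfl
      unfold Groups.NL at hO
      rw [a4, hcx4] at hO
      omega
    · have hv123 : v = 1 ∨ v = 2 ∨ v = 3 := by omega
      rcases hv123 with rfl | rfl | rfl
      · omega
      · omega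
      · have := up32.1
        omega

/-- A group of points is not incomparable with four others. -/
theorem Groups.no4 {ι : Type} (g : Groups ι) (i : ι) (j : Fin 4 → ι) (hj : Function.Injective j)
    (h : ∀ t, g.U i (j t) ∨ g.U (j t) i) : False := by
  have hne : ∀ s t, s ≠ t → j s ≠ j t := fun s t hst e => hst (hj e)
  rcases h 0 with h0 | h0
  · have hall : ∀ t, g.U i (j t) := by
      intro t
      rcases h t with ht | ht
      · exact ht
      · exact (g.no3 ht h0).elim
    have e0 := (EE_char (g.EE_of_U (hall 0))).2.2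
    have e1 := (EE_char (g.EE_of_U (hall 1))).2.2
    have e2 := (EE_char (g.EE_of_U (hall 2))).2.2
    have e3 := (EE_char (g.EE_of_U (hall 3))).2.2
    have n01 := g.ha _ _ (hne 0 1 (by decide))
    have n02 := g.ha _ _ (hne 0 2 (by decide))
    have n03 := g.ha _ _ (hne 0 3 (by decide))
    have n12 := g.ha _ _ (hne 1 2 (by decide))
    have n13 := g.ha _ _ (hne 1 3 (by decide))
    have n23 := g.ha _ _ (hne 2 3 (by decide))
    omega
  · have hall : ∀ t, g.U (j t) i := by
      intro t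
      rcases h t with ht | ht
      · exact (g.no3 h0 ht).elim
      · exact ht
    have e0 := EE_char (g.EE_of_U (hall 0))
    have e1 := EE_char (g.EE_of_U (hall 1))
    have e2 := EE_char (g.EE_of_U (hall 2))
    have n01 := g.hb _ _ (hne 0 1 (by decide))
    have n02 := g.hb _ _ (hne 0 2 (by decide))
    have n12 := g.hb _ _ (hne 1 2 (by decide))
    omega

end Pool.Agent.H67.WQ
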