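import Mathlib

set_option autoImplicit false

namespace Pool.Agent.H67.WQ

/-- A finite simple graph (up to isomorphism), on the vertex set `Fin n`. -/
structure FG where
  /-- the number of vertices -/
  n : ℕ
  /-- the adjacency -/
  G : SimpleGraph (Fin n)

/-- The graph obtained from `G` by merging the vertex `v` into the vertex `u`: the vertex `v`
disappears and `u` becomes adjacent to every vertex that was adjacent to `u` or to `v`;
loops and parallel edges are discarded. -/
def mergeInto {V : Type} (G : SimpleGraph V) (u v : V) : SimpleGraph {x : V // x ≠ v} where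
  Adj x y := x ≠ y ∧ (G.Adj x y ∨ ((x : V) = u ∧ G.Adj v y) ∨ ((y : V) = u ∧ G.Adj v x))
  symm := ⟨by
    rintro x y ⟨h, h'⟩
    refine ⟨h.symm, ?_⟩
    rcases h' with h' | h' | h'
    · exact Or.inl h'.symm
    · exact Or.inr (Or.inr h')
    · exact Or.inr (Or.inl h')⟩
  loopless := ⟨by
    rintro x ⟨h, _⟩
    exact h rfl⟩

/-- `Step G K`: the graph `K` is, up to isomorphism, obtained from `G` by contracting one edge. -/
def Step (G K : FG) : Prop :=
  ∃ u v : Fin G.n, G.G.Adj u v ∧ Nonempty (mergeInto G.G u v ≃g K.G)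

/-- `ContractsTo G H`: a graph isomorphic to `H` arises from `G` by a finite (possibly empty)
sequence of edge contractions; that is, `H` is a contraction of `G`. -/
def ContractsTo (G H : FG) : Prop :=
  ∃ K : FG, Relation.ReflTransGen Step G K ∧ Nonempty (K.G ≃g H.G)

/-- The class of connected graphs which contain neither `H₁` nor `H₂` as a contraction. -/
def Cl (H₁ H₂ : FG) : Set FG :=
  {G | G.G.Connected ∧ ¬ ContractsTo G H₁ ∧ ¬ ContractsTo G H₂}

/-- A class of finite graphs is well-quasi-ordered by the contraction relation. -/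
def WQO (S : Set FG) : Prop :=
  ∀ s : ℕ → FG, (∀ i, s i ∈ S) → ∃ i j, i < j ∧ ContractsTo (s j) (s i)

/-- The star `K_{1,p}`: vertex `0` is adjacent to the `p` others. -/
def star (p : ℕ) : FG where
  n := p + 1
  G :=
    { Adj := fun i j => i ≠ j ∧ ((i : ℕ) = 0 ∨ (j : ℕ) = 0)
      symm := ⟨by rintro i j ⟨h, h'⟩; exact ⟨h.symm, h'.symm⟩⟩
      loopless := ⟨by rintro i ⟨h, _⟩; exact h rfl⟩ }

/-- The graph `K_{1,1,p}`: the vertices `0` and `1` are adjacent to each other and to the `p`
others, which are pairwise nonadjacent. -/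
def starPlus (p : ℕ) : FG where
  n := p + 2
  G :=
    { Adj := fun i j => i ≠ j ∧ ((i : ℕ) < 2 ∨ (j : ℕ) < 2)
      symm := ⟨by rintro i j ⟨h, h'⟩; exact ⟨h.symm, h'.symm⟩⟩
      loopless := ⟨by rintro i ⟨h, _⟩; exact h rfl⟩ }

/-- The complete graph on `m` vertices minus the edges `{0,1}, {2,3}, …, {2a-2,2a-1}`. -/
def coMatch (m a : ℕ) : FG where
  n := m
  G :=
    { Adj := fun i j => i ≠ j ∧ ¬ ((i : ℕ) / 2 = (j : ℕ) / 2 ∧ (i : ℕ) / 2 < a)
      symm := ⟨by
        rintro i j ⟨h, h'⟩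
        exact ⟨h.symm, fun h'' => h' ⟨h''.1.symm, h''.1 ▸ h''.2⟩⟩⟩
      loopless := ⟨by rintro i ⟨h, _⟩; exact h rfl⟩ }

/-- The diamond: `K_4` minus one edge, which is `K_{1,1,2}`. -/
def diamond : FG := starPlus 2

/-! ### Connected sets -/

/-- A set of vertices which is nonempty and cannot be split into two nonempty parts without an
edge between them. -/
def Cn {V : Type} (G : SimpleGraph V) (S : Set V) : Prop :=
  S.Nonempty ∧ ∀ A ⊆ S, A.Nonempty → (S \ A).Nonempty → ∃ a ∈ A, ∃ b ∈ S \ A, G.Adj a b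

theorem connected_of_cut {V : Type} (G : SimpleGraph V) [Nonempty V]
    (h : ∀ A : Set V, A.Nonempty → Aᶜ.Nonempty → ∃ a ∈ A, ∃ b ∉ A, G.Adj a b) :
    G.Connected := by
  refine ⟨?_⟩
  intro x y
  by_contra hxy
  obtain ⟨a, ha, b, hb, hab⟩ := h {z | G.Reachable x z} ⟨x, SimpleGraph.Reachable.refl x⟩
    ⟨y, hxy⟩
  exact hb (SimpleGraph.Reachable.trans ha hab.reachable)

theorem cut_of_connected {V : Type} (G : SimpleGraph V) (h : G.Connected) (A : Set V)
    (hA : A.Nonempty) (hA' : Aᶜ.Nonempty) : ∃ a ∈ A, ∃ b ∉ A, G.Adj a b := by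
  obtain ⟨x, hx⟩ := hA
  obtain ⟨y, hy⟩ := hA'
  obtain ⟨p⟩ := h.preconnected x y
  by_contra hcon
  push Not at hcon
  have key : ∀ {x y : V} (p : G.Walk x y), x ∈ A → y ∈ A := by
    intro x y p
    induction p with
    | nil => exact id
    | cons hadj _ ih =>
      intro hx
      apply ih
      by_contra hn
      exact hcon _ hx _ hn hadj
  exact hy (key p hx)

theorem cn_iff {V : Type} (G : SimpleGraph V) (S : Set V) :
    (G.induce S).Connected ↔ Cn G S := by
  constructor
  · intro h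
    have hne : S.Nonempty := by
      obtain ⟨x⟩ := h.nonempty
      exact ⟨x, x.2⟩
    refine ⟨hne, fun A hAS hA hA' => ?_⟩
    obtain ⟨a, ha, b, hb, hab⟩ := cut_of_connected _ h {x : S | (x : V) ∈ A}
      (by obtain ⟨a, ha⟩ := hA; exact ⟨⟨a, hAS ha⟩, ha⟩)
      (by obtain ⟨b, hb⟩ := hA'; exact ⟨⟨b, hb.1⟩, hb.2⟩)
    exact ⟨a, ha, b, ⟨b.2, hb⟩, hab⟩
  · rintro ⟨hne, h⟩
    obtain ⟨x₀, hx₀⟩ := hne
    have : Nonempty S := ⟨⟨x₀, hx₀⟩⟩
    refine connected_of_cut _ fun A hA hA' => ?_
    obtain ⟨a, ha⟩ := hA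
    obtain ⟨b, hb⟩ := hA'
    obtain ⟨c, hc, d, hd, hcd⟩ := h (Subtype.val '' A) (by rintro _ ⟨x, _, rfl⟩; exact x.2)
      ⟨a, a, ha, rfl⟩ ⟨b, b.2, by rintro ⟨x, hx, hxb⟩; exact hb (Subtype.ext hxb ▸ hx)⟩
    obtain ⟨c', hc', rfl⟩ := hc
    refine ⟨c', hc', ⟨d, hd.1⟩, fun hmem => hd.2 ⟨_, hmem, rfl⟩, hcd⟩

theorem connected_iff_cn {V : Type} (G : SimpleGraph V) :
    G.Connected ↔ Cn G Set.univ := by
  constructor
  · intro h
    have := h.nonempty
    refine ⟨Set.univ_nonempty, fun A _ hA hA' => ?_⟩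
    obtain ⟨a, ha, b, hb, hab⟩ := cut_of_connected G h A hA
      (by obtain ⟨b, hb⟩ := hA'; exact ⟨b, hb.2⟩)
    exact ⟨a, ha, b, ⟨trivial, hb⟩, hab⟩
  · rintro ⟨⟨x, _⟩, h⟩
    have : Nonempty V := ⟨x⟩
    refine connected_of_cut G fun A hA hA' => ?_
    obtain ⟨a, ha, b, hb, hab⟩ := h A (Set.subset_univ _) hA
      (by obtain ⟨b, hb⟩ := hA'; exact ⟨b, trivial, hb⟩)
    exact ⟨a, ha, b, hb.2, hab⟩

theorem cn_singleton {V : Type} (G : SimpleGraph V) (x : V) : Cn G {x} := by
  refine ⟨⟨x, rfl⟩, fun A hA hA1 hA2 => ?_⟩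
  exfalso
  obtain ⟨a, ha⟩ := hA1
  obtain ⟨b, hb, hb'⟩ := hA2
  have h1 : a = x := hA ha
  have h2 : b = x := hb
  exact hb' (h2.trans h1.symm ▸ ha)

/-- The union of two connected sets which meet or are joined by an edge. -/
theorem cn_union {V : Type} (G : SimpleGraph V) {S T : Set V} (hS : Cn G S) (hT : Cn G T)
    (h : (∃ x, x ∈ S ∧ x ∈ T) ∨ ∃ x ∈ S, ∃ y ∈ T, G.Adj x y) : Cn G (S ∪ T) := by
  refine ⟨hS.1.mono Set.subset_union_left, fun A hA hA1 hA2 => ?_⟩
  by_cases h1 : (S ∩ A).Nonempty ∧ (S \ A).Nonempty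
  · obtain ⟨a, ha, b, hb, hab⟩ := hS.2 (S ∩ A) Set.inter_subset_left h1.1
      (by obtain ⟨b, hb⟩ := h1.2; exact ⟨b, hb.1, fun h => hb.2 h.2⟩)
    exact ⟨a, ha.2, b, ⟨Or.inl hb.1, fun h => hb.2 ⟨hb.1, h⟩⟩, hab⟩
  by_cases h2 : (T ∩ A).Nonempty ∧ (T \ A).Nonempty
  · obtain ⟨a, ha, b, hb, hab⟩ := hT.2 (T ∩ A) Set.inter_subset_left h2.1
      (by obtain ⟨b, hb⟩ := h2.2; exact ⟨b, hb.1, fun h => hb.2 h.2⟩)
    exact ⟨a, ha.2, b, ⟨Or.inr hb.1, fun h => hb.2 ⟨hb.1, h⟩⟩, hab⟩
  -- now each of S, T is inside or outside A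
  have hSc : S ⊆ A ∨ ∀ x ∈ S, x ∉ A := by
    by_contra hc
    push Not at hc
    obtain ⟨h3, x, hx, hx'⟩ := hc
    obtain ⟨y, hy, hy'⟩ := Set.not_subset.mp h3
    exact h1 ⟨⟨x, hx, hx'⟩, ⟨y, hy, hy'⟩⟩
  have hTc : T ⊆ A ∨ ∀ x ∈ T, x ∉ A := by
    by_contra hc
    push Not at hc
    obtain ⟨h3, x, hx, hx'⟩ := hc
    obtain ⟨y, hy, hy'⟩ := Set.not_subset.mp h3
    exact h2 ⟨⟨x, hx, hx'⟩, ⟨y, hy, hy'⟩⟩
  obtain ⟨a0, ha0⟩ := hA1
  obtain ⟨b0, hb0, hb0'⟩ := hA2
  rcases hSc with hSc | hSc <;> rcases hTc with hTc | hTc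
  · rcases hb0 with hb0 | hb0
    · exact absurd (hSc hb0) hb0'
    · exact absurd (hTc hb0) hb0'
  · rcases h with ⟨x, hx, hx'⟩ | ⟨x, hx, y, hy, hxy⟩
    · exact absurd (hSc hx) (hTc x hx')
    · exact ⟨x, hSc hx, y, ⟨Or.inr hy, hTc y hy⟩, hxy⟩
  · rcases h with ⟨x, hx, hx'⟩ | ⟨x, hx, y, hy, hxy⟩
    · exact absurd (hTc hx') (hSc x hx)
    · exact ⟨y, hTc hy, x, ⟨Or.inl hx, hSc x hx⟩, hxy.symm⟩
  · rcases hA ha0 with hx | hx
    · exact absurd ha0 (hSc _ hx)
    · exact absurd ha0 (hTc _ hx)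

/-- A set with a centre: every vertex is joined within the set to `c` by an edge. -/
theorem cn_of_center {V : Type} (G : SimpleGraph V) {S : Set V} {c : V} (hc : c ∈ S)
    (h : ∀ x ∈ S, x ≠ c → G.Adj c x) : Cn G S := by
  refine ⟨⟨c, hc⟩, fun A hA hA1 hA2 => ?_⟩
  by_cases hcA : c ∈ A
  · obtain ⟨b, hb⟩ := hA2
    exact ⟨c, hcA, b, hb, h b hb.1 (fun e => hb.2 (e ▸ hcA))⟩
  · obtain ⟨a, ha⟩ := hA1
    exact ⟨a, ha, c, ⟨hc, hcA⟩, (h a (hA ha) (fun e => hcA (e ▸ ha))).symm⟩

theorem cn_of_clique {V : Type} (G : SimpleGraph V) {S : Set V} (hne : S.Nonempty)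
    (h : ∀ x ∈ S, ∀ y ∈ S, x ≠ y → G.Adj x y) : Cn G S := by
  obtain ⟨c, hc⟩ := hne
  exact cn_of_center G hc fun x hx hxc => h c hc x hx hxc.symm

/-! ### Contraction models -/

/-- `f` is a contraction of `G` onto `H`: the fibres are connected, and two distinct vertices of
`H` are adjacent exactly when there is an edge between their fibres. -/
def IsModel {V W : Type} (G : SimpleGraph V) (H : SimpleGraph W) (f : V → W) : Prop :=
  (∀ w, Cn G {v | f v = w}) ∧
  ∀ a b, H.Adj a b ↔ a ≠ b ∧ ∃ x y, f x = a ∧ f y = b ∧ G.Adj x y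

theorem IsModel.surj {V W : Type} {G : SimpleGraph V} {H : SimpleGraph W} {f : V → W}
    (h : IsModel G H f) : Function.Surjective f := by
  intro w
  obtain ⟨x, hx⟩ := (h.1 w).1
  exact ⟨x, hx⟩

/-- preimages of connected sets under a model are connected -/
theorem IsModel.cn_preimage {V W : Type} {G : SimpleGraph V} {H : SimpleGraph W} {f : V → W}
    (h : IsModel G H f) {T : Set W} (hT : Cn H T) : Cn G {v | f v ∈ T} := by
  constructor
  · obtain ⟨w, hw⟩ := hT.1
    obtain ⟨x, rfl⟩ := h.surj w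
    exact ⟨x, hw⟩
  · intro A hA hA1 hA2
    by_cases hs : ∃ w ∈ T, (∃ x ∈ A, f x = w) ∧ (∃ y, y ∉ A ∧ f y = w)
    · obtain ⟨w, hw, ⟨x, hx, hxw⟩, ⟨y, hy, hyw⟩⟩ := hs
      obtain ⟨a, ha, b, hb, hab⟩ := (h.1 w).2 (A ∩ {v | f v = w}) Set.inter_subset_right
        ⟨x, hx, hxw⟩ ⟨y, hyw, fun hh => hy hh.1⟩
      refine ⟨a, ha.1, b, ⟨?_, fun hbA => hb.2 ⟨hbA, hb.1⟩⟩, hab⟩
      have : f b = w := hb.1
      change f b ∈ T
      rw [this]; exact hw
    · push Not at hs
      obtain ⟨a0, ha0⟩ := hA1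
      obtain ⟨b0, hb0, hb0'⟩ := hA2
      obtain ⟨a, ha, b, hb, hab⟩ := hT.2 {w | w ∈ T ∧ ∃ x ∈ A, f x = w} (fun w hw => hw.1)
        ⟨f a0, hA ha0, a0, ha0, rfl⟩
        ⟨f b0, hb0, fun hh => hs (f b0) hh.1 hh.2 b0 hb0' rfl⟩
      obtain ⟨_, x, y, hx, hy, hxy⟩ := (h.2 a b).1 hab
      refine ⟨x, ?_, y, ⟨?_, ?_⟩, hxy⟩
      · by_contra hxA
        exact hs a ha.1 ha.2 x hxA hx
      · change f y ∈ T
        rw [hy]; exact hb.1
      · intro hyA
        exact hb.2 ⟨hb.1, y, hyA, hy⟩

theorem IsModel.comp {V W X : Type} {G : SimpleGraph V} {H : SimpleGraph W} {K : SimpleGraph X}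
    {f : V → W} {g : W → X} (hf : IsModel G H f) (hg : IsModel H K g) :
    IsModel G K (g ∘ f) := by
  constructor
  · intro x
    exact hf.cn_preimage (hg.1 x)
  · intro a b
    rw [hg.2]
    constructor
    · rintro ⟨hab, x, y, hx, hy, hxy⟩
      obtain ⟨_, x', y', hx', hy', hxy'⟩ := (hf.2 x y).1 hxy
      refine ⟨hab, x', y', ?_, ?_, hxy'⟩
      · simp [hx', hx]
      · simp [hy', hy]
    · rintro ⟨hab, x, y, hx, hy, hxy⟩
      refine ⟨hab, f x, f y, hx, hy, (hf.2 _ _).2 ⟨?_, x, y, rfl, rfl, hxy⟩⟩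
      intro e
      apply hab
      rw [← hx, ← hy]
      simp [e]

theorem isModel_of_iso {V W : Type} {G : SimpleGraph V} {H : SimpleGraph W} (e : G ≃g H) :
    IsModel G H e := by
  constructor
  · intro w
    have : {v | e v = w} = {e.symm w} := by
      ext v
      simp only [Set.mem_ofPred_eq, Set.mem_singleton_iff]
      constructor
      · rintro rfl; simp
      · rintro rfl; simp
    rw [this]
    exact cn_singleton _ _
  · intro a b
    constructor
    · intro h
      refine ⟨h.ne, e.symm a, e.symm b, by simp, by simp, ?_⟩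
      rw [← e.map_adj_iff]
      simpa using h
    · rintro ⟨_, x, y, rfl, rfl, h⟩
      exact e.map_adj_iff.2 h

/-- the single edge contraction as a model -/
theorem isModel_mergeInto {V : Type} [DecidableEq V] {G : SimpleGraph V} {u v : V}
    (h : G.Adj u v) :
    IsModel G (mergeInto G u v) (fun x => if hx : x = v then ⟨u, h.ne⟩ else ⟨x, hx⟩) := by
  constructor
  · rintro ⟨w, hw⟩
    by_cases hwu : w = u
    · subst hwu
      apply cn_of_center G (c := w)
      · simp [hw]
      · intro x hx hxw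
        by_cases hxv : x = v
        · rw [hxv]; exact h
        · exfalso
          simp only [Set.mem_ofPred_eq, hxv, dif_neg, not_false_iff] at hx
          exact hxw (congrArg Subtype.val hx)
    · have : {x | (if hx : x = v then (⟨u, h.ne⟩ : {x // x ≠ v}) else ⟨x, hx⟩) = ⟨w, hw⟩}
          = {w} := by
        ext x
        simp only [Set.mem_ofPred_eq, Set.mem_singleton_iff]
        by_cases hxv : x = v
        · simp only [hxv, dif_pos]
          constructor
          · intro e
            exact absurd (congrArg Subtype.val e).symm hwu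
          · intro e; exact absurd e.symm hw
        · simp only [hxv, dif_neg, not_false_iff]
          exact ⟨fun e => congrArg Subtype.val e, fun e => Subtype.ext e⟩
      rw [this]
      exact cn_singleton _ _
  · rintro ⟨a, ha⟩ ⟨b, hb⟩
    constructor
    · rintro ⟨hab, h' | ⟨hau, h'⟩ | ⟨hbu, h'⟩⟩
      · exact ⟨hab, a, b, by simp [ha], by simp [hb], h'⟩
      · simp only at hau h'
        exact ⟨hab, v, b, by simp [hau], by simp [hb], h'⟩
      · simp only at hbu h'
        exact ⟨hab, a, v, by simp [ha], by simp [hbu], h'.symm⟩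
    · rintro ⟨hab, x, y, hx, hy, hxy⟩
      refine ⟨hab, ?_⟩
      by_cases hxv : x = v
      · by_cases hyv : y = v
        · exact absurd (hxv.trans hyv.symm) hxy.ne
        · simp only [hxv, dif_pos] at hx
          simp only [hyv, dif_neg, not_false_iff] at hy
          have h1 := congrArg Subtype.val hx
          have h2 := congrArg Subtype.val hy
          simp only at h1 h2
          right; left
          simp only
          exact ⟨h1.symm, by rw [← hxv, ← h2]; exact hxy⟩
      · by_cases hyv : y = v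
        · simp only [hyv, dif_pos] at hy
          simp only [hxv, dif_neg, not_false_iff] at hx
          have h1 := congrArg Subtype.val hx
          have h2 := congrArg Subtype.val hy
          simp only at h1 h2
          right; right
          simp only
          exact ⟨h2.symm, by rw [← hyv, ← h1]; exact hxy.symm⟩
        · simp only [hxv, dif_neg, not_false_iff] at hx
          simp only [hyv, dif_neg, not_false_iff] at hy
          have h1 := congrArg Subtype.val hx
          have h2 := congrArg Subtype.val hy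
          simp only at h1 h2
          left
          simp only
          rw [← h1, ← h2]; exact hxy

/-- `H` is a contraction of `G`, in terms of models. -/
def Contr {V W : Type} (G : SimpleGraph V) (H : SimpleGraph W) : Prop :=
  ∃ f : V → W, IsModel G H f

theorem Contr.trans {V W X : Type} {G : SimpleGraph V} {H : SimpleGraph W} {K : SimpleGraph X}
    (h : Contr G H) (h' : Contr H K) : Contr G K := by
  obtain ⟨f, hf⟩ := h
  obtain ⟨g, hg⟩ := h'
  exact ⟨g ∘ f, hf.comp hg⟩

theorem Contr.of_iso {V W : Type} {G : SimpleGraph V} {H : SimpleGraph W} (e : G ≃g H) :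
    Contr G H := ⟨e, isModel_of_iso e⟩

theorem Contr.refl {V : Type} (G : SimpleGraph V) : Contr G G :=
  Contr.of_iso (SimpleGraph.Iso.refl)

theorem contr_of_contractsTo {G H : FG} (h : ContractsTo G H) : Contr G.G H.G := by
  obtain ⟨K, hK, ⟨e⟩⟩ := h
  refine Contr.trans ?_ (Contr.of_iso e)
  clear e
  induction hK with
  | refl => exact Contr.refl _
  | tail _ hs ih =>
    obtain ⟨u, v, huv, ⟨e⟩⟩ := hs
    exact ih.trans (Contr.trans ⟨_, isModel_mergeInto huv⟩ (Contr.of_iso e))

theorem contractsTo_of_contr_aux : ∀ (k : ℕ) (G H : FG), G.n ≤ k → Contr G.G H.G →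
    ContractsTo G H := by
  intro k
  induction k with
  | zero =>
    intro G H hk ⟨f, hf⟩
    have hinj : Function.Injective f := by
      intro x
      have := x.2
      omega
    refine ⟨G, Relation.ReflTransGen.refl, ⟨⟨Equiv.ofBijective f ⟨hinj, hf.surj⟩, ?_⟩⟩⟩
    intro x
    have := x.2
    omega
  | succ k ih =>
    intro G H hk ⟨f, hf⟩
    by_cases hinj : Function.Injective f
    · refine ⟨G, Relation.ReflTransGen.refl, ⟨⟨Equiv.ofBijective f ⟨hinj, hf.surj⟩, ?_⟩⟩⟩
      intro x y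
      simp only [Equiv.ofBijective_apply]
      rw [hf.2]
      constructor
      · rintro ⟨_, x', y', hx, hy, h⟩
        rw [hinj hx, hinj hy] at h
        exact h
      · intro h
        exact ⟨fun e => h.ne (hinj e), x, y, rfl, rfl, h⟩
    · obtain ⟨x, y, hxy, hne⟩ : ∃ x y, f x = f y ∧ x ≠ y := by
        simpa [Function.Injective] using hinj
      obtain ⟨u, hu, v, hv, huv⟩ := (hf.1 (f y)).2 {x} (by
        rintro _ rfl; exact hxy) ⟨x, rfl⟩ ⟨y, rfl, fun e => hne (Set.mem_singleton_iff.1 e).symm⟩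
      have hu' : u = x := hu
      have huf : f u = f v := by
        rw [hu']
        have : f v = f y := hv.1
        rw [this, hxy]
      -- the contracted graph
      have hcard : Fintype.card {z : Fin G.n // z ≠ v} = G.n - 1 := by
        simp [Fintype.card_subtype_compl]
      have hpos : 0 < G.n := v.pos
      let G' : FG := ⟨G.n - 1, (mergeInto G.G u v).overFin hcard⟩
      let e : mergeInto G.G u v ≃g G'.G := SimpleGraph.overFinIso _ hcard
      have hstep : Step G G' := ⟨u, v, huv, ⟨e⟩⟩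
      -- the model restricted to the contracted graph
      have hmod : IsModel (mergeInto G.G u v) H.G (fun z => f z.1) := by
        constructor
        · intro w
          constructor
          · obtain ⟨z, hz⟩ := hf.surj w
            by_cases hzv : z = v
            · refine ⟨⟨u, huv.ne⟩, ?_⟩
              change f u = w
              rw [huf, ← hzv, hz]
            · exact ⟨⟨z, hzv⟩, hz⟩
          · intro A hA hA1 hA2
            obtain ⟨a0, ha0⟩ := hA1
            obtain ⟨b0, hb0, hb0'⟩ := hA2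
            -- lift A
            let A' : Set (Fin G.n) := {z | (∃ hz : z ≠ v, (⟨z, hz⟩ : {z // z ≠ v}) ∈ A) ∨
              (z = v ∧ (⟨u, huv.ne⟩ : {z // z ≠ v}) ∈ A)}
            obtain ⟨a, ha, b, hb, hab⟩ := (hf.1 w).2 A' (by
              rintro z (⟨hz, hzA⟩ | ⟨hz, hzA⟩)
              · exact hA hzA
              · have : f u = w := hA hzA
                change f z = w
                rw [hz, ← huf, this]) ⟨a0.1, Or.inl ⟨a0.2, ha0⟩⟩ ⟨b0.1, hb0, by
                rintro (⟨hz, hzA⟩ | ⟨hz, hzA⟩)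
                · exact hb0' hzA
                · exact b0.2 hz⟩
            obtain ⟨hb1, hb2⟩ := hb
            rcases ha with ⟨hav, haA⟩ | ⟨hav, haA⟩
            · by_cases hbv : b = v
              · refine ⟨_, haA, ⟨u, huv.ne⟩, ⟨?_, fun hh => hb2 (Or.inr ⟨hbv, hh⟩)⟩, ?_⟩
                · change f u = w
                  rw [huf, ← hbv]; exact hb1
                · refine ⟨?_, Or.inr (Or.inr ⟨rfl, ?_⟩)⟩
                  · intro e
                    exact hb2 (Or.inr ⟨hbv, e ▸ haA⟩)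
                  · change G.G.Adj v a
                    rw [← hbv]; exact hab.symm
              · refine ⟨_, haA, ⟨b, hbv⟩, ⟨hb1, fun hh => hb2 (Or.inl ⟨hbv, hh⟩)⟩, ?_⟩
                exact ⟨fun e => hab.ne (congrArg Subtype.val e), Or.inl hab⟩
            · have hbv : b ≠ v := fun e => hab.ne (hav.trans e.symm)
              refine ⟨_, haA, ⟨b, hbv⟩, ⟨hb1, fun hh => hb2 (Or.inl ⟨hbv, hh⟩)⟩, ?_⟩
              refine ⟨?_, Or.inr (Or.inl ⟨rfl, ?_⟩)⟩
              · intro e
                exact hb2 (Or.inl ⟨hbv, e ▸ haA⟩)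
              · change G.G.Adj v b
                rw [← hav]; exact hab
        · intro a b
          rw [hf.2]
          constructor
          · rintro ⟨hab, x, y, hx, hy, hxy⟩
            refine ⟨hab, ?_⟩
            by_cases hxv : x = v
            · have hyv : y ≠ v := fun e => hxy.ne (hxv.trans e.symm)
              refine ⟨⟨u, huv.ne⟩, ⟨y, hyv⟩, ?_, hy, ?_, Or.inr (Or.inl ⟨rfl, ?_⟩)⟩
              · change f u = a
                rw [huf, ← hxv, hx]
              · intro e
                have e' : u = y := congrArg Subtype.val e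
                apply hab
                rw [← hx, ← hy, hxv, ← huf, e']
              · change G.G.Adj v y
                rw [← hxv]; exact hxy
            · by_cases hyv : y = v
              · refine ⟨⟨x, hxv⟩, ⟨u, huv.ne⟩, hx, ?_, ?_, Or.inr (Or.inr ⟨rfl, ?_⟩)⟩
                · change f u = b
                  rw [huf, ← hyv, hy]
                · intro e
                  have e' : x = u := congrArg Subtype.val e
                  apply hab
                  rw [← hx, ← hy, hyv, ← huf, e']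
                · change G.G.Adj v x
                  rw [← hyv]; exact hxy.symm
              · exact ⟨⟨x, hxv⟩, ⟨y, hyv⟩, hx, hy,
                  fun e => hxy.ne (congrArg Subtype.val e), Or.inl hxy⟩
          · rintro ⟨hab, ⟨x, hxv⟩, ⟨y, hyv⟩, hx, hy, hne', h' | ⟨hau, h'⟩ | ⟨hbu, h'⟩⟩
            · exact ⟨hab, x, y, hx, hy, h'⟩
            · simp only at hx hy hau h'
              exact ⟨hab, v, y, by rw [← huf, ← hau, hx], hy, h'⟩
            · simp only at hx hy hbu h'
              exact ⟨hab, x, v, hx, by rw [← huf, ← hbu, hy], h'.symm⟩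
      have hG' : Contr G'.G H.G := Contr.trans (Contr.of_iso e.symm) ⟨_, hmod⟩
      obtain ⟨K, hK, hKH⟩ := ih G' H (by change G.n - 1 ≤ k; omega) hG'
      exact ⟨K, Relation.ReflTransGen.head hstep hK, hKH⟩

/-- The relation defined by sequences of edge contractions is the model relation. -/
theorem contractsTo_iff {G H : FG} : ContractsTo G H ↔ Contr G.G H.G :=
  ⟨contr_of_contractsTo, contractsTo_of_contr_aux G.n G H le_rfl⟩

theorem ContractsTo.trans {G H K : FG} (h : ContractsTo G H) (h' : ContractsTo H K) :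
    ContractsTo G K := by
  rw [contractsTo_iff] at *
  exact h.trans h'

end Pool.Agent.H67.WQ
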