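import Pool.Agent.H67.WQ.SP

set_option autoImplicit false

namespace Pool.Agent.H67.WQ

section dia
variable {V : Type} {G : SimpleGraph V} {P K C : Set V} {x y : V}

theorem noncut_aux [Finite V] (h2 : ∀ w ∈ P, Cn G (P \ {w})) (hCP : ∀ z, z ∈ C ↔ z ∈ P ∧ z ∉ K)
    (hC : Cn G C) : ∀ (k : ℕ) (c d : V), c ∈ C → (∃ b ∈ K, G.Adj c b) → d ∈ C → d ≠ c →
    C.ncard ≤ (comp G (Cᶜ ∪ {c}) d).ncard + k →
    ∃ c ∈ C, (∃ b ∈ K, G.Adj c b) ∧ Cn G (C \ {c}) := by
  intro k
  induction k with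
  | zero =>
    intro c d hc hcK hd hdc hle
    exfalso
    have : (comp G (Cᶜ ∪ {c}) d).ncard < C.ncard := by
      apply Set.ncard_lt_ncard _ (Set.toFinite _)
      exact ⟨comp_in.1, fun hsub => comp_in.2 (hsub hc)⟩
    omega
  | succ k ih =>
    intro c d hc hcK hd hdc hle
    have hdS := notin_of hd hdc
    by_cases hall : ∀ e ∈ C, e ≠ c → e ∈ comp G (Cᶜ ∪ {c}) d
    · refine ⟨c, hc, hcK, ?_⟩
      have e : C \ {c} = comp G (Cᶜ ∪ {c}) d := by
        ext z
        constructor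
        · rintro ⟨hz, hzc⟩
          exact hall z hz hzc
        · intro hz
          exact ⟨comp_in.1 hz, fun e => comp_in.2 (e ▸ hz)⟩
      rw [e]
      exact cn_comp hdS
    · push Not at hall
      obtain ⟨d', hd', hd'c, hd'D⟩ := hall
      have hd'S := notin_of hd' hd'c
      have hdisj : ∀ z, z ∈ comp G (Cᶜ ∪ {c}) d → z ∉ comp G (Cᶜ ∪ {c}) d' := by
        intro z hz hz'
        apply hd'D
        rw [← comp_eq hz, comp_eq hz']
        exact mem_comp_self hd'S
      have hcP : c ∈ P := ((hCP c).1 hc).1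
      obtain ⟨a, ha, b, hb, hab⟩ := (h2 c hcP).2 (comp G (Cᶜ ∪ {c}) d')
        (fun z hz => ⟨((hCP z).1 (comp_in.1 hz)).1, fun e => comp_in.2 (e ▸ hz)⟩)
        ⟨d', mem_comp_self hd'S⟩ ⟨d, ⟨((hCP d).1 hd).1, hdc⟩, hdisj d (mem_comp_self hdS)⟩
      have hbK : b ∈ K := by
        by_contra hbK
        have hbC : b ∈ C := (hCP b).2 ⟨hb.1.1, hbK⟩
        exact hb.2 (comp_closed ha (notin_of hbC hb.1.2) hab)
      have haC : a ∈ C := comp_in.1 ha
      have hca : c ≠ a := fun e => comp_in.2 (e ▸ ha)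
      have hda : d ≠ a := by
        rintro rfl
        exact hdisj _ (mem_comp_self hdS) ha
      apply ih a d haC ⟨b, hbK, hab⟩ hd hda
      have hcon := comp_attach (G := G) hC hd hc hdc
      have hsub : insert c (comp G (Cᶜ ∪ {c}) d) ⊆ comp G (Cᶜ ∪ {a}) d := by
        apply comp_subset_of hcon _ (Or.inr (mem_comp_self hdS))
        rintro z (rfl | hz)
        · exact notin_of hc hca
        · apply notin_of (comp_in.1 hz)
          rintro rfl
          exact hdisj z hz ha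
      have h3 := Set.ncard_le_ncard hsub (Set.toFinite _)
      rw [Set.ncard_insert_of_notMem (fun h => comp_in.2 h) (Set.toFinite _)] at h3
      omega

theorem noncut [Finite V] (h2 : ∀ w ∈ P, Cn G (P \ {w})) (hP : Cn G P) (hK : K ⊆ P)
    (hKne : K.Nonempty) (hCP : ∀ z, z ∈ C ↔ z ∈ P ∧ z ∉ K) (hC : Cn G C) :
    ∃ c ∈ C, (∃ b ∈ K, G.Adj c b) ∧ ((∀ z, z ∈ C ↔ z = c) ∨ Cn G (C \ {c})) := by
  obtain ⟨k, hk⟩ := hKne
  obtain ⟨c, hc, b, hb, hcb⟩ := hP.2 C (fun z hz => ((hCP z).1 hz).1) hC.1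
    ⟨k, hK hk, fun hh => ((hCP k).1 hh).2 hk⟩
  have hbK : b ∈ K := by
    by_contra hbK
    exact hb.2 ((hCP b).2 ⟨hb.1, hbK⟩)
  by_cases hex : ∃ d ∈ C, d ≠ c
  · obtain ⟨d, hd, hdc⟩ := hex
    obtain ⟨c', h3, h4, h5⟩ := noncut_aux h2 hCP hC C.ncard c d hc ⟨b, hbK, hcb⟩ hd hdc (by omega)
    exact ⟨c', h3, h4, Or.inr h5⟩
  · push Not at hex
    refine ⟨c, hc, ⟨b, hbK, hcb⟩, Or.inl fun z => ⟨fun hz => hex z hz, ?_⟩⟩
    rintro rfl
    exact hc

theorem GN.two_conn (h : GN G P x y) (hxy : G.Adj x y) : ∀ w ∈ P, Cn G (P \ {w}) := by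
  intro w hw
  by_cases hwx : w = x
  · subst hwx
    have hsub : ({y} : Set V) ⊆ P \ {w} := Set.singleton_subset_iff.2 ⟨h.vP, h.ne.symm⟩
    apply cn_of_base (cn_singleton G y) hsub
    rintro z ⟨hz, hzw⟩
    obtain ⟨T, hTP, hT, hwT, hzT, h3 | h3⟩ := h.tight w hw z hz hzw
    · exact absurd h3 hwT
    · exact ⟨T, fun a ha => ⟨hTP ha, fun e => hwT (e ▸ ha)⟩, hT, hzT, Or.inl ⟨y, rfl, h3⟩⟩
  · have hsub : ({x} : Set V) ⊆ P \ {w} := Set.singleton_subset_iff.2 ⟨h.uP, fun e => hwx e.symm⟩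
    apply cn_of_base (cn_singleton G x) hsub
    rintro z ⟨hz, hzw⟩
    obtain ⟨T, hTP, hT, hwT, hzT, h3 | h3⟩ := h.tight w hw z hz hzw
    · exact ⟨T, fun a ha => ⟨hTP ha, fun e => hwT (e ▸ ha)⟩, hT, hzT, Or.inl ⟨x, rfl, h3⟩⟩
    · exact ⟨T, fun a ha => ⟨hTP ha, fun e => hwT (e ▸ ha)⟩, hT, hzT,
        Or.inr ⟨x, rfl, y, h3, hxy⟩⟩

/-- a partition into four parts which is a contraction onto the diamond -/
theorem dia_of_parts (hL : NoL 2 G P) {U W C₁ C₂ : Set V}
    (hcov : ∀ z, z ∈ P ↔ z ∈ U ∨ z ∈ W ∨ z ∈ C₁ ∨ z ∈ C₂)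
    (d1 : ∀ z ∈ U, z ∉ W ∧ z ∉ C₁ ∧ z ∉ C₂) (d2 : ∀ z ∈ W, z ∉ C₁ ∧ z ∉ C₂)
    (d3 : ∀ z ∈ C₁, z ∉ C₂) (cU : Cn G U) (cW : Cn G W) (c1 : Cn G C₁) (c2 : Cn G C₂)
    (aUW : ∃ u ∈ U, ∃ v ∈ W, G.Adj u v) (a1 : ∃ u ∈ U, ∃ v ∈ C₁, G.Adj u v)
    (a2 : ∃ u ∈ U, ∃ v ∈ C₂, G.Adj u v) (b1 : ∃ u ∈ W, ∃ v ∈ C₁, G.Adj u v)
    (b2 : ∃ u ∈ W, ∃ v ∈ C₂, G.Adj u v) (hn : ∀ z ∈ C₁, ∀ z' ∈ C₂, ¬ G.Adj z z') : False := by
  classical
  obtain ⟨u, hu, v, hv, huv⟩ := aUW
  apply hL u ((hcov u).2 (Or.inl hu)) v ((hcov v).2 (Or.inr (Or.inl hv))) huv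
  set g : V → ℕ := fun z => if z ∈ U then 0 else if z ∈ W then 1 else if z ∈ C₁ then 2 else 3
    with hg
  have gU : ∀ z ∈ U, g z = 0 := fun z hz => by simp only [g]; rw [if_pos hz]
  have gW : ∀ z ∈ W, g z = 1 := fun z hz => by
    simp only [g]; rw [if_neg (fun h => (d1 z h).1 hz), if_pos hz]
  have g1 : ∀ z ∈ C₁, g z = 2 := fun z hz => by
    simp only [g]
    rw [if_neg (fun h => (d1 z h).2.1 hz), if_neg (fun h => (d2 z h).1 hz), if_pos hz]
  have g2 : ∀ z ∈ C₂, g z = 3 := fun z hz => by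
    simp only [g]
    rw [if_neg (fun h => (d1 z h).2.2 hz), if_neg (fun h => (d2 z h).2 hz),
      if_neg (fun h => d3 z h hz)]
  have e0 : {z | z ∈ P ∧ g z = 0} = U := by
    ext z
    constructor
    · rintro ⟨hz, h0⟩
      rcases (hcov z).1 hz with h | h | h | h
      · exact h
      · rw [gW z h] at h0; omega
      · rw [g1 z h] at h0; omega
      · rw [g2 z h] at h0; omega
    · intro hz
      exact ⟨(hcov z).2 (Or.inl hz), gU z hz⟩
  have e1 : {z | z ∈ P ∧ g z = 1} = W := by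
    ext z
    constructor
    · rintro ⟨hz, h0⟩
      rcases (hcov z).1 hz with h | h | h | h
      · rw [gU z h] at h0; omega
      · exact h
      · rw [g1 z h] at h0; omega
      · rw [g2 z h] at h0; omega
    · intro hz
      exact ⟨(hcov z).2 (Or.inr (Or.inl hz)), gW z hz⟩
  have e2 : {z | z ∈ P ∧ g z = 2} = C₁ := by
    ext z
    constructor
    · rintro ⟨hz, h0⟩
      rcases (hcov z).1 hz with h | h | h | h
      · rw [gU z h] at h0; omega
      · rw [gW z h] at h0; omega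
      · exact h
      · rw [g2 z h] at h0; omega
    · intro hz
      exact ⟨(hcov z).2 (Or.inr (Or.inr (Or.inl hz))), g1 z hz⟩
  have e3 : {z | z ∈ P ∧ g z = 3} = C₂ := by
    ext z
    constructor
    · rintro ⟨hz, h0⟩
      rcases (hcov z).1 hz with h | h | h | h
      · rw [gU z h] at h0; omega
      · rw [gW z h] at h0; omega
      · rw [g1 z h] at h0; omega
      · exact h
    · intro hz
      exact ⟨(hcov z).2 (Or.inr (Or.inr (Or.inr hz))), g2 z hz⟩
  have hP0 : ∀ z ∈ U, z ∈ P := fun z hz => (hcov z).2 (Or.inl hz)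
  have hP1 : ∀ z ∈ W, z ∈ P := fun z hz => (hcov z).2 (Or.inr (Or.inl hz))
  have hP2 : ∀ z ∈ C₁, z ∈ P := fun z hz => (hcov z).2 (Or.inr (Or.inr (Or.inl hz)))
  have hP3 : ∀ z ∈ C₂, z ∈ P := fun z hz => (hcov z).2 (Or.inr (Or.inr (Or.inr hz)))
  have hge : ∀ z ∈ P, 2 ≤ g z → z ∈ C₁ ∨ z ∈ C₂ := by
    intro z hz h2
    rcases (hcov z).1 hz with h | h | h | h
    · rw [gU z h] at h2; omega
    · rw [gW z h] at h2; omega
    · exact Or.inl h
    · exact Or.inr h
  refine ⟨g, gU u hu, gW v hv, ?_, ?_, ?_, ?_⟩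
  · intro z hz
    rcases (hcov z).1 hz with h | h | h | h
    · rw [gU z h]; omega
    · rw [gW z h]; omega
    · rw [g1 z h]; omega
    · rw [g2 z h]; omega
  · intro i hi
    have : i = 0 ∨ i = 1 ∨ i = 2 ∨ i = 3 := by omega
    rcases this with rfl | rfl | rfl | rfl
    · rw [e0]; exact cU
    · rw [e1]; exact cW
    · rw [e2]; exact c1
    · rw [e3]; exact c2
  · intro a ha b hb ha2 hb2 hab
    rcases hge a ha ha2 with h | h <;> rcases hge b hb hb2 with h' | h'
    · rw [g1 a h, g1 b h']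
    · exact absurd hab (hn a h b h')
    · exact absurd hab.symm (hn b h' a h)
    · rw [g2 a h, g2 b h']
  · intro i hi1 hi2
    have : i = 2 ∨ i = 3 := by omega
    rcases this with rfl | rfl
    · obtain ⟨a, ha, b, hb, hab⟩ := a1
      obtain ⟨a', ha', b', hb', hab'⟩ := b1
      exact ⟨⟨a, hP0 a ha, b, hP2 b hb, gU a ha, g1 b hb, hab⟩,
        ⟨a', hP1 a' ha', b', hP2 b' hb', gW a' ha', g1 b' hb', hab'⟩⟩
    · obtain ⟨a, ha, b, hb, hab⟩ := a2
      obtain ⟨a', ha', b', hb', hab'⟩ := b2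
      exact ⟨⟨a, hP0 a ha, b, hP3 b hb, gU a ha, g2 b hb, hab⟩,
        ⟨a', hP1 a' ha', b', hP3 b' hb', gW a' ha', g2 b' hb', hab'⟩⟩

/-- in a diamond-free part, a clique `K` and a partition of the rest into two connected adjacent
sets: if `t ∈ K` is adjacent to `W` but not to `W'`, then no other vertex of `K` is adjacent to
`W` or none is adjacent to `W'` -/
theorem dia_step (hL : NoL 2 G P) {W W' : Set V} (hK : ∀ a ∈ K, ∀ b ∈ K, a ≠ b → G.Adj a b)
    (hcov : ∀ z, z ∈ P ↔ z ∈ K ∨ z ∈ W ∨ z ∈ W') (d1 : ∀ z ∈ K, z ∉ W ∧ z ∉ W')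
    (d2 : ∀ z ∈ W, z ∉ W') (cW : Cn G W) (cW' : Cn G W')
    (hWW : ∃ a ∈ W, ∃ b ∈ W', G.Adj a b) {t s r : V} (ht : t ∈ K)
    (htW : ∃ a ∈ W, G.Adj t a) (htW' : ∀ a ∈ W', ¬ G.Adj t a) (hs : s ∈ K) (hst : s ≠ t)
    (hsW : ∃ a ∈ W, G.Adj s a) (hr : r ∈ K) (hrW : ∃ a ∈ W', G.Adj r a) : False := by
  have hrt : r ≠ t := by
    rintro rfl
    obtain ⟨a, ha, haa⟩ := hrW
    exact htW' a ha haa
  have hKt : Cn G (K \ {t}) := cn_of_clique G ⟨s, hs, hst⟩
    (fun a ha b hb hab => hK a ha.1 b hb.1 hab)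
  obtain ⟨a, ha, hsa⟩ := hsW
  obtain ⟨b, hb, htb⟩ := htW
  obtain ⟨c, hc, hrc⟩ := hrW
  apply dia_of_parts hL (U := K \ {t}) (W := W) (C₁ := W') (C₂ := {t})
  · intro z
    rw [hcov]
    constructor
    · rintro (h | h | h)
      · by_cases hzt : z = t
        · exact Or.inr (Or.inr (Or.inr hzt))
        · exact Or.inl ⟨h, hzt⟩
      · exact Or.inr (Or.inl h)
      · exact Or.inr (Or.inr (Or.inl h))
    · rintro (h | h | h | h)
      · exact Or.inl h.1
      · exact Or.inr (Or.inl h)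
      · exact Or.inr (Or.inr h)
      · left
        have h' : z = t := h
        rw [h']; exact ht
  · intro z hz
    exact ⟨(d1 z hz.1).1, (d1 z hz.1).2, hz.2⟩
  · intro z hz
    refine ⟨d2 z hz, fun e => ?_⟩
    have e' : z = t := e
    exact (d1 t ht).1 (e' ▸ hz)
  · intro z hz e
    have e' : z = t := e
    exact (d1 t ht).2 (e' ▸ hz)
  · exact hKt
  · exact cW
  · exact cW'
  · exact cn_singleton G t
  · exact ⟨s, ⟨hs, hst⟩, a, ha, hsa⟩
  · exact ⟨r, ⟨hr, hrt⟩, c, hc, hrc⟩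
  · exact ⟨s, ⟨hs, hst⟩, t, rfl, hK s hs t ht hst⟩
  · exact hWW
  · exact ⟨b, hb, t, rfl, htb.symm⟩
  · intro z hz z' hz' hadj
    have e' : z' = t := hz'
    rw [e'] at hadj
    exact htW' z hz hadj.symm

/-- extension of a clique whose complement is connected -/
theorem clique_grow [Finite V] (h2 : ∀ w ∈ P, Cn G (P \ {w})) (hP : Cn G P) (hL : NoL 2 G P) :
    ∀ (n : ℕ) (K C : Set V), C.ncard ≤ n → K ⊆ P → (∀ z, z ∈ C ↔ z ∈ P ∧ z ∉ K) →
    (∀ a ∈ K, ∀ b ∈ K, a ≠ b → G.Adj a b) → (∃ a ∈ K, ∃ b ∈ K, ∃ c ∈ K, a ≠ b ∧ a ≠ c ∧ b ≠ c) →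
    (C.Nonempty → Cn G C ∧ ∀ k ∈ K, ∃ a ∈ C, G.Adj k a) →
    ∀ a ∈ P, ∀ b ∈ P, a ≠ b → G.Adj a b := by
  intro n
  induction n with
  | zero =>
    intro K C hn hKP hCP hK _ _ a ha b hb hab
    have h0 : C.ncard = 0 := by omega
    rw [Set.ncard_eq_zero (Set.toFinite _)] at h0
    have hin : ∀ z ∈ P, z ∈ K := by
      intro z hz
      by_contra hzK
      have : z ∈ C := (hCP z).2 ⟨hz, hzK⟩
      rw [h0] at this
      exact this
    exact hK a (hin a ha) b (hin b hb) hab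
  | succ n ih =>
    intro K C hn hKP hCP hK h3 hC
    by_cases hCne : C.Nonempty
    · obtain ⟨hCc, hCK⟩ := hC hCne
      obtain ⟨k1, hk1, k2, hk2, k3, hk3, h12, h13, h23⟩ := h3
      obtain ⟨c, hc, ⟨b, hb, hcb⟩, hone | hcon⟩ := noncut h2 hP hKP ⟨k1, hk1⟩ hCP hCc
      · -- the complement is a single vertex
        have hcadj : ∀ k ∈ K, G.Adj k c := by
          intro k hk
          obtain ⟨a, ha, hka⟩ := hCK k hk
          rw [← (hone a).1 ha]; exact hka
        have hin : ∀ z ∈ P, z ∈ K ∨ z = c := by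
          intro z hz
          by_cases hzK : z ∈ K
          · exact Or.inl hzK
          · exact Or.inr ((hone z).1 ((hCP z).2 ⟨hz, hzK⟩))
        intro a ha b hb hab
        rcases hin a ha with h | h <;> rcases hin b hb with h' | h'
        · exact hK a h b h' hab
        · rw [h']; exact hcadj a h
        · rw [h]; exact (hcadj b h').symm
        · exact absurd (h.trans h'.symm) hab
      · have hcP := ((hCP c).1 hc).1
        have hcK := ((hCP c).1 hc).2
        -- adjacency between c and the rest of C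
        obtain ⟨c0, hc0, d0, hd0, hcd⟩ := hCc.2 {c} (Set.singleton_subset_iff.2 hc) ⟨c, rfl⟩
          (by obtain ⟨z, hz⟩ := hcon.1; exact ⟨z, hz.1, hz.2⟩)
        have hc0' : c0 = c := hc0
        rw [hc0'] at hcd
        have hcov1 : ∀ z, z ∈ P ↔ z ∈ K ∨ z ∈ C \ {c} ∨ z ∈ ({c} : Set V) := by
          intro z
          constructor
          · intro hz
            by_cases hzK : z ∈ K
            · exact Or.inl hzK
            · by_cases hzc : z = c
              · exact Or.inr (Or.inr hzc)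
              · exact Or.inr (Or.inl ⟨(hCP z).2 ⟨hz, hzK⟩, hzc⟩)
          · rintro (h | h | h)
            · exact hKP h
            · exact ((hCP z).1 h.1).1
            · have h' : z = c := h
              rw [h']; exact hcP
        have hcov2 : ∀ z, z ∈ P ↔ z ∈ K ∨ z ∈ ({c} : Set V) ∨ z ∈ C \ {c} := fun z => by
          rw [hcov1 z]; tauto
        have d1 : ∀ z ∈ K, z ∉ C \ {c} ∧ z ∉ ({c} : Set V) := by
          intro z hz
          refine ⟨fun h => ((hCP z).1 h.1).2 hz, fun h => ?_⟩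
          have h' : z = c := h
          exact hcK (h' ▸ hz)
        -- every vertex of K is adjacent to c or to the rest
        have hor : ∀ k ∈ K, G.Adj k c ∨ ∃ a ∈ C \ {c}, G.Adj k a := by
          intro k hk
          obtain ⟨a, ha, hka⟩ := hCK k hk
          by_cases hac : a = c
          · left; rw [← hac]; exact hka
          · exact Or.inr ⟨a, ⟨ha, hac⟩, hka⟩
        -- some vertex of K is adjacent to the rest
        have hex'' : ∃ k ∈ K, ∃ a ∈ C \ {c}, G.Adj k a := by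
          obtain ⟨a, ha, b', hb', hab'⟩ := (h2 c hcP).2 (C \ {c})
            (fun z hz => ⟨((hCP z).1 hz.1).1, hz.2⟩) hcon.1
            ⟨k1, ⟨hKP hk1, fun e => hcK ((show k1 = c from e) ▸ hk1)⟩,
              fun h => ((hCP k1).1 h.1).2 hk1⟩
          refine ⟨b', ?_, a, ha, hab'.symm⟩
          by_contra hbK
          exact hb'.2 ⟨(hCP b').2 ⟨hb'.1.1, hbK⟩, hb'.1.2⟩
        have hstepA : ∀ t ∈ K, ∀ s ∈ K, s ≠ t → (∃ a ∈ C \ {c}, G.Adj t a) → ¬ G.Adj t c →
            (∃ a ∈ C \ {c}, G.Adj s a) → False := by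
          intro t ht s hs hst htW htc hsW
          exact dia_step hL hK hcov1 d1 (fun z hz => hz.2) hcon (cn_singleton G c)
            ⟨d0, hd0, c, rfl, hcd.symm⟩ ht htW (fun a ha => by
              have ha' : a = c := ha
              rw [ha']; exact htc) hs hst hsW hb ⟨c, rfl, hcb.symm⟩
        obtain ⟨r, hr, hrW⟩ := hex''
        have hstepB : ∀ t ∈ K, ∀ s ∈ K, s ≠ t → G.Adj t c → (∀ a ∈ C \ {c}, ¬ G.Adj t a) →
            G.Adj s c → False := by
          intro t ht s hs hst htc htW hsc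
          exact dia_step hL hK hcov2 (fun z hz => ⟨(d1 z hz).2, (d1 z hz).1⟩)
            (fun z hz h => h.2 hz) (cn_singleton G c) hcon ⟨c, rfl, d0, hd0, hcd⟩ ht
            ⟨c, rfl, htc⟩ htW hs hst ⟨c, rfl, hsc⟩ hr hrW
        -- everything in K is adjacent to c and to the rest
        have hother : ∀ t ∈ K, ∃ s ∈ K, ∃ s' ∈ K, s ≠ t ∧ s' ≠ t ∧ s ≠ s' := by
          intro t _
          by_cases h1 : k1 = t
          · exact ⟨k2, hk2, k3, hk3, fun e => h12 (h1.trans e.symm),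
              fun e => h13 (h1.trans e.symm), h23⟩
          · by_cases h2 : k2 = t
            · exact ⟨k1, hk1, k3, hk3, h1, fun e => h23 (h2.trans e.symm), h13⟩
            · exact ⟨k1, hk1, k2, hk2, h1, h2, h12⟩
        have hallc : ∀ t ∈ K, G.Adj t c := by
          intro t ht
          by_contra htc
          have htW := (hor t ht).resolve_left htc
          obtain ⟨s, hs, s', hs', hst, hst', hss⟩ := hother t ht
          have hsW : ∀ s ∈ K, s ≠ t → ¬ ∃ a ∈ C \ {c}, G.Adj s a := fun s hs hst hsW =>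
            hstepA t ht s hs hst htW htc hsW
          have hsc : ∀ s ∈ K, s ≠ t → G.Adj s c := fun s hs hst =>
            (hor s hs).resolve_right (hsW s hs hst)
          refine hstepB s hs s' hs' hss.symm (hsc s hs hst) ?_ (hsc s' hs' hst')
          intro a ha hsa
          exact hsW s hs hst ⟨a, ha, hsa⟩
        have hallW : ∀ t ∈ K, ∃ a ∈ C \ {c}, G.Adj t a := by
          intro t ht
          by_contra htW
          push Not at htW
          obtain ⟨s, hs, s', hs', hst, hst', hss⟩ := hother t ht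
          exact hstepB t ht s hs hst (hallc t ht) htW (hallc s hs)
        -- recursion
        apply ih (insert c K) (C \ {c})
        · have : (C \ {c}).ncard < C.ncard := by
            apply Set.ncard_lt_ncard _ (Set.toFinite _)
            exact ⟨fun z hz => hz.1, fun hsub => (hsub hc).2 rfl⟩
          omega
        · rintro z (rfl | hz)
          · exact hcP
          · exact hKP hz
        · intro z
          constructor
          · intro hz
            refine ⟨((hCP z).1 hz.1).1, ?_⟩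
            rintro (e | h)
            · exact hz.2 e
            · exact ((hCP z).1 hz.1).2 h
          · rintro ⟨hz, hzK⟩
            exact ⟨(hCP z).2 ⟨hz, fun h => hzK (Or.inr h)⟩, fun e => hzK (Or.inl e)⟩
        · rintro a (ha | ha) b (hb | hb) hab
          · exact absurd (ha.trans hb.symm) hab
          · rw [ha]; exact (hallc b hb).symm
          · rw [hb]; exact hallc a ha
          · exact hK a ha b hb hab
        · exact ⟨k1, Or.inr hk1, k2, Or.inr hk2, k3, Or.inr hk3, h12, h13, h23⟩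
        · intro _
          refine ⟨hcon, ?_⟩
          rintro k (hk | hk)
          · rw [hk]; exact ⟨d0, hd0, hcd⟩
          · exact hallW k hk
    · exact ih K C (by
        have : C = ∅ := Set.not_nonempty_iff_eq_empty.1 hCne
        rw [this, Set.ncard_empty]
        omega) hKP hCP hK h3 hC

end dia

end Pool.Agent.H67.WQ
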