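import Pool.Agent.H67.WQ.Dia

set_option autoImplicit false

namespace Pool.Agent.H67.WQ

/-- a path between the terminals -/
structure PathN {V : Type} (G : SimpleGraph V) (P : Set V) (u v : V) : Prop where
  gn : GN G P u v
  sep : ∀ w ∈ P, w ≠ u → w ≠ v → ∀ T ⊆ P, Cn G T → w ∉ T → u ∈ T → v ∉ T

/-- adding an edge -/
def addE {V : Type} (G : SimpleGraph V) (a b : V) : SimpleGraph V where
  Adj s t := s ≠ t ∧ (G.Adj s t ∨ (s = a ∧ t = b) ∨ (s = b ∧ t = a))
  symm := ⟨by
    rintro s t ⟨h, h'⟩
    refine ⟨h.symm, ?_⟩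
    rcases h' with h' | h' | h'
    · exact Or.inl h'.symm
    · exact Or.inr (Or.inr ⟨h'.2, h'.1⟩)
    · exact Or.inr (Or.inl ⟨h'.2, h'.1⟩)⟩
  loopless := ⟨fun _ h => h.1 rfl⟩

theorem del_comm' {V : Type} (G : SimpleGraph V) (u v : V) : del G u v = del G v u := by
  ext a b
  change (G.Adj a b ∧ ¬ ((a = u ∧ b = v) ∨ (a = v ∧ b = u))) ↔
    (G.Adj a b ∧ ¬ ((a = v ∧ b = u) ∨ (a = u ∧ b = v)))
  rw [or_comm]

section path
variable {V : Type} {G H H' : SimpleGraph V} {P P₁ K C : Set V} {u v x y c : V}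

theorem PathN.symm (h : PathN H P u v) : PathN H P v u :=
  ⟨h.gn.symm, fun w hw h1 h2 T hTP hT hwT hvT huT => h.sep w hw h2 h1 T hTP hT hwT huT hvT⟩

theorem PathN.congr (h : PathN H P u v) (hH : ∀ a ∈ P, ∀ b ∈ P, H.Adj a b ↔ H'.Adj a b) :
    PathN H' P u v := by
  have h1 : ∀ {T : Set V}, T ⊆ P → Cn H T → Cn H' T := fun hTP hT =>
    hT.mono_graph fun a ha b hb => (hH a (hTP ha) b (hTP hb)).1
  have h2 : ∀ {T : Set V}, T ⊆ P → Cn H' T → Cn H T := fun hTP hT =>
    hT.mono_graph fun a ha b hb => (hH a (hTP ha) b (hTP hb)).2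
  refine ⟨⟨h.gn.ne, h.gn.uP, h.gn.vP, h1 (Set.Subset.refl P) h.gn.conn, ?_⟩,
    fun w hw hwu hwv T hTP hT => h.sep w hw hwu hwv T hTP (h2 hTP hT)⟩
  intro w hw z hz hne
  obtain ⟨T, hTP, hT, h3⟩ := h.gn.tight w hw z hz hne
  exact ⟨T, hTP, h1 hTP hT, h3⟩

theorem PathN.base (h : H.Adj u v) : PathN H {u, v} u v := by
  refine ⟨⟨h.ne, Or.inl rfl, Or.inr rfl, ?_, ?_⟩, ?_⟩
  · apply cn_of_center H (c := u) (Or.inl rfl)
    rintro z (hz | hz) hne
    · exact absurd hz hne
    · have hz' : z = v := hz
      rw [hz']; exact h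
  · rintro w _ z hz hne
    refine ⟨{z}, Set.singleton_subset_iff.2 hz, cn_singleton H z, fun e => hne e.symm, rfl, ?_⟩
    rcases hz with hz | hz
    · exact Or.inl hz.symm
    · have hz' : z = v := hz
      exact Or.inr hz'.symm
  · rintro w (hw | hw) h1 h2
    · exact absurd hw h1
    · exact absurd hw h2

theorem PathN.ext (h : PathN H P₁ c y) (hx : x ∉ P₁) (hxc : H.Adj x c)
    (hnb : ∀ z ∈ P₁, H.Adj x z → z = c) : PathN H (insert x P₁) x y := by
  classical
  have hcP : c ∈ P₁ := h.gn.uP
  refine ⟨⟨?_, Or.inl rfl, Or.inr h.gn.vP, cn_insert h.gn.conn hcP hxc.symm, ?_⟩, ?_⟩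
  · rintro rfl
    exact hx h.gn.vP
  · intro w hw z hz hne
    rcases hz with hz | hz
    · exact ⟨{z}, Set.singleton_subset_iff.2 (Or.inl hz), cn_singleton H z,
        fun e => hne e.symm, rfl, Or.inl hz.symm⟩
    · rcases hw with hw | hw
      · exact ⟨P₁, Set.subset_insert _ _, h.gn.conn, hw ▸ hx, hz, Or.inr h.gn.vP⟩
      · obtain ⟨T, hTP, hT, hwT, hzT, h3 | h3⟩ := h.gn.tight w hw z hz hne
        · refine ⟨insert x T, Set.insert_subset_insert hTP, cn_insert hT h3 hxc.symm, ?_,
            Or.inr hzT, Or.inl (Or.inl rfl)⟩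
          rintro (e | h4)
          · exact hx (e ▸ hw)
          · exact hwT h4
        · exact ⟨T, hTP.trans (Set.subset_insert _ _), hT, hwT, hzT, Or.inr h3⟩
  · intro w hw hwx hwy T hTP hT hwT hxT hyT
    have hw1 : w ∈ P₁ := hw.resolve_left hwx
    have hyx : y ≠ x := fun e => hx (e ▸ h.gn.vP)
    obtain ⟨a, ha, b, hb, hab⟩ := hT.2 {x} (Set.singleton_subset_iff.2 hxT) ⟨x, rfl⟩
      ⟨y, hyT, hyx⟩
    have hax : a = x := ha
    rw [hax] at hab
    have hb1 : b ∈ P₁ := (hTP hb.1).resolve_left hb.2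
    have hbc := hnb b hb1 hab
    have hwc : w ≠ c := by
      rintro rfl
      exact hwT (hbc ▸ hb.1)
    have hsep : Sep H (insert x P₁) P₁ {x, c} c := by
      refine ⟨fun z => ?_, ?_, hcP, Or.inr rfl, ?_⟩
      · constructor
        · rintro (hz | hz)
          · exact Or.inr (Or.inl hz)
          · exact Or.inl hz
        · rintro (hz | hz | hz)
          · exact Or.inr hz
          · exact Or.inl hz
          · have hz' : z = c := hz
            rw [hz']; exact Or.inr hcP
      · rintro z hz (hz' | hz')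
        · exact absurd (hz' ▸ hz) hx
        · exact hz'
      · rintro s hs t (ht | ht) hst
        · left
          rw [ht] at hst
          exact hnb s hs hst.symm
        · exact Or.inr ht
    have hxcn : Cn H {x, c} := by
      apply cn_of_center H (c := x) (Or.inl rfl)
      rintro z (hz | hz) hne
      · exact absurd hz hne
      · have hz' : z = c := hz
        rw [hz']; exact hxc
    have m := hsep.retract hxcn
    set ρ : V → V := fun z => if z ∈ P₁ then z else c with hρ
    have ρ1 : ∀ z ∈ P₁, ρ z = z := fun z hz => by simp only [ρ]; rw [if_pos hz]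
    have ρ2 : ∀ z, z ∉ P₁ → ρ z = c := fun z hz => by simp only [ρ]; rw [if_neg hz]
    apply h.sep w hw1 hwc hwy (ρ '' T) _ (m.cn_image hTP hT) _ ⟨x, hxT, ρ2 x hx⟩
      ⟨y, hyT, ρ1 y h.gn.vP⟩
    · rintro _ ⟨z, hz, rfl⟩
      exact m.maps z (hTP hz)
    · rintro ⟨z, hz, hzw⟩
      by_cases hz1 : z ∈ P₁
      · rw [ρ1 z hz1] at hzw
        exact hwT (hzw ▸ hz)
      · rw [ρ2 z hz1] at hzw
        exact hwc hzw.symm

/-- the interior of a core without a diamond is connected -/
theorem dia_inner [Finite V] (h : GN G P x y) (hxy : G.Adj x y) (hL : NoL 2 G P)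
    (hC : ∀ z, z ∈ C ↔ z ∈ P ∧ z ≠ x ∧ z ≠ y) (hne : C.Nonempty) : Cn G C := by
  classical
  have hS : ∀ z, z ∉ Cᶜ ↔ z ∈ P ∧ z ≠ x ∧ z ≠ y := by
    intro z
    rw [← hC z]
    exact Set.notMem_compl_iff
  have hxC : x ∈ Cᶜ := fun hh => ((hC x).1 hh).2.1 rfl
  have hyC : y ∈ Cᶜ := fun hh => ((hC y).1 hh).2.2 rfl
  have hinC : ∀ z w, w ∈ comp G Cᶜ z → w ∈ C := fun z w hw => by
    by_contra hh
    exact comp_disj hw hh
  obtain ⟨z, hz⟩ := hne
  have hzS : z ∉ Cᶜ := fun hh => hh hz
  by_cases hall : ∀ w ∈ C, w ∈ comp G Cᶜ z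
  · have : C = comp G Cᶜ z := by
      ext w
      exact ⟨hall w, hinC z w⟩
    rw [this]
    exact cn_comp hzS
  · exfalso
    push Not at hall
    obtain ⟨z', hz', hz'z⟩ := hall
    have hz'S : z' ∉ Cᶜ := fun hh => hh hz'
    have hdisj : ∀ w, w ∈ comp G Cᶜ z → w ∉ comp G Cᶜ z' := by
      intro w hw hw'
      apply hz'z
      rw [← comp_eq hw, comp_eq hw']
      exact mem_comp_self hz'S
    have hbound : ∀ w, w ∉ Cᶜ → w ≠ x ∧ w ≠ y := fun w hw =>
      ⟨fun e => hw (e ▸ hxC), fun e => hw (e ▸ hyC)⟩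
    set U : Set V := {w | w ∈ P ∧ w ≠ y ∧ w ∉ comp G Cᶜ z ∧ w ∉ comp G Cᶜ z'} with hU
    have hxU : x ∈ U := ⟨h.uP, h.ne, fun hh => comp_disj hh hxC, fun hh => comp_disj hh hxC⟩
    have hUc : Cn G U := by
      apply cn_of_base (cn_singleton G x) (Set.singleton_subset_iff.2 hxU)
      rintro w ⟨hwP, hwy, hw1, hw2⟩
      by_cases hwx : w = x
      · exact ⟨{x}, Set.singleton_subset_iff.2 hxU, cn_singleton G x, hwx, Or.inl ⟨x, rfl, rfl⟩⟩
      · have hwC : w ∈ C := (hC w).2 ⟨hwP, hwx, hwy⟩
        have hwS : w ∉ Cᶜ := fun hh => hh hwC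
        obtain ⟨a, ha, hax⟩ := h.attach_u hS hwS
        refine ⟨comp G Cᶜ w, ?_, cn_comp hwS, mem_comp_self hwS, Or.inr ⟨x, rfl, a, ha, hax.symm⟩⟩
        intro b hb
        have hbC := hinC w b hb
        refine ⟨((hC b).1 hbC).1, ((hC b).1 hbC).2.2, fun hh => hw1 ?_, fun hh => hw2 ?_⟩
        · rw [← comp_eq hh, comp_eq hb]
          exact mem_comp_self hwS
        · rw [← comp_eq hh, comp_eq hb]
          exact mem_comp_self hwS
    obtain ⟨a, ha, hax⟩ := h.attach_u hS hzS
    obtain ⟨b, hb, hby⟩ := h.attach_v hS hzS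
    obtain ⟨a', ha', hax'⟩ := h.attach_u hS hz'S
    obtain ⟨b', hb', hby'⟩ := h.attach_v hS hz'S
    apply dia_of_parts hL (U := U) (W := {y}) (C₁ := comp G Cᶜ z) (C₂ := comp G Cᶜ z')
    · intro w
      constructor
      · intro hw
        by_cases h1 : w = y
        · exact Or.inr (Or.inl h1)
        · by_cases h2 : w ∈ comp G Cᶜ z
          · exact Or.inr (Or.inr (Or.inl h2))
          · by_cases h3 : w ∈ comp G Cᶜ z'
            · exact Or.inr (Or.inr (Or.inr h3))
            · exact Or.inl ⟨hw, h1, h2, h3⟩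
      · rintro (h1 | h1 | h1 | h1)
        · exact h1.1
        · have h1' : w = y := h1
          rw [h1']; exact h.vP
        · exact ((hC w).1 (hinC _ w h1)).1
        · exact ((hC w).1 (hinC _ w h1)).1
    · intro w hw
      exact ⟨fun e => hw.2.1 e, hw.2.2.1, hw.2.2.2⟩
    · intro w hw
      have hw' : w = y := hw
      rw [hw']
      exact ⟨fun hh => comp_disj hh hyC, fun hh => comp_disj hh hyC⟩
    · exact hdisj
    · exact hUc
    · exact cn_singleton G y
    · exact cn_comp hzS
    · exact cn_comp hz'S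
    · exact ⟨x, hxU, y, rfl, hxy⟩
    · exact ⟨x, hxU, a, ha, hax.symm⟩
    · exact ⟨x, hxU, a', ha', hax'.symm⟩
    · exact ⟨y, rfl, b, hb, hby.symm⟩
    · exact ⟨y, rfl, b', hb', hby'.symm⟩
    · intro s hs t ht hst
      exact hdisj t (comp_closed hs (comp_disj ht) hst) ht

/-- the step for a root of degree two -/
theorem cyc_step [Finite V] {n : ℕ}
    (ih : ∀ (G : SimpleGraph V) (P : Set V) (x y : V), P.ncard ≤ n → GN G P x y → G.Adj x y →
      NoL 2 G P → (∀ z, z ∈ P ↔ z = x ∨ z = y) ∨ (∀ a ∈ P, ∀ b ∈ P, a ≠ b → G.Adj a b) ∨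
        PathN (del G x y) P x y)
    (hn : P.ncard ≤ n + 1) (h : GN G P x y) (hxy : G.Adj x y) (hL : NoL 2 G P)
    (hC : ∀ z, z ∈ C ↔ z ∈ P ∧ z ≠ x ∧ z ≠ y) (hc : c ∈ C) (hxc : G.Adj x c)
    (hyc : ¬ G.Adj y c) (hnb : ∀ z ∈ C \ {c}, ¬ G.Adj x z) (hcon : Cn G (C \ {c}))
    (hy : ∃ a ∈ C \ {c}, G.Adj y a) : PathN (del G x y) P x y := by
  classical
  obtain ⟨hcP, hcx, hcy⟩ := (hC c).1 hc
  set P₁ : Set V := P \ {x} with hP₁
  have hcP₁ : c ∈ P₁ := ⟨hcP, hcx⟩
  have hyP₁ : y ∈ P₁ := ⟨h.vP, h.ne.symm⟩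
  have hPins : P = insert x P₁ := by
    ext z
    constructor
    · intro hz
      by_cases hzx : z = x
      · exact Or.inl hzx
      · exact Or.inr ⟨hz, hzx⟩
    · rintro (hz | hz)
      · rw [hz]; exact h.uP
      · exact hz.1
  have hxnb : ∀ z ∈ P₁, G.Adj x z → z = c ∨ z = y := by
    intro z hz hxz
    by_contra hcon'
    push Not at hcon'
    exact hnb z ⟨(hC z).2 ⟨hz.1, hz.2, hcon'.2⟩, hcon'.1⟩ hxz
  set G₁ : SimpleGraph V := addE G c y with hG₁
  set ρ : V → V := fun z => if z = x then c else z with hρ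
  have ρx : ρ x = c := if_pos rfl
  have ρo : ∀ z, z ≠ x → ρ z = z := fun z hz => if_neg hz
  have m : Mod G P G₁ P₁ ρ := by
    refine ⟨fun z hz => ?_, fun w hw => ?_, fun a ha b hb => ?_⟩
    · by_cases hzx : z = x
      · rw [hzx, ρx]; exact hcP₁
      · rw [ρo z hzx]; exact ⟨hz, hzx⟩
    · by_cases hwc : w = c
      · have e : {z | z ∈ P ∧ ρ z = w} = {x, c} := by
          ext z
          constructor
          · rintro ⟨_, hzw⟩
            by_cases hzx : z = x
            · exact Or.inl hzx
            · rw [ρo z hzx] at hzw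
              exact Or.inr (hzw.trans hwc)
          · rintro (hz | hz)
            · rw [hz]; exact ⟨h.uP, ρx.trans hwc.symm⟩
            · have hz' : z = c := hz
              rw [hz']
              exact ⟨hcP, (ρo c hcx).trans hwc.symm⟩
        rw [e]
        apply cn_of_center G (c := x) (Or.inl rfl)
        rintro z (hz | hz) hne
        · exact absurd hz hne
        · have hz' : z = c := hz
          rw [hz']; exact hxc
      · have e : {z | z ∈ P ∧ ρ z = w} = {w} := by
          ext z
          constructor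
          · rintro ⟨_, hzw⟩
            by_cases hzx : z = x
            · rw [hzx, ρx] at hzw
              exact absurd hzw.symm hwc
            · rw [ρo z hzx] at hzw
              exact hzw
          · intro hz
            have hz' : z = w := hz
            rw [hz']
            exact ⟨hw.1, ρo w hw.2⟩
        rw [e]
        exact cn_singleton G w
    · constructor
      · rintro ⟨hne, h1 | ⟨h1, h2⟩ | ⟨h1, h2⟩⟩
        · exact ⟨hne, a, ha.1, b, hb.1, ρo a ha.2, ρo b hb.2, h1⟩
        · exact ⟨hne, x, h.uP, y, h.vP, by rw [ρx, h1], by rw [ρo y h.ne.symm, h2], hxy⟩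
        · exact ⟨hne, y, h.vP, x, h.uP, by rw [ρo y h.ne.symm, h1], by rw [ρx, h2], hxy.symm⟩
      · rintro ⟨hne, s, hs, t, ht, hsa, htb, hst⟩
        refine ⟨hne, ?_⟩
        by_cases hsx : s = x
        · have htx : t ≠ x := fun e => hst.ne (hsx.trans e.symm)
          rw [ρo t htx] at htb
          rw [hsx, ρx] at hsa
          rw [hsx] at hst
          rcases hxnb t ⟨ht, htx⟩ hst with h1 | h1
          · exact absurd (hsa.symm.trans (h1.symm.trans htb)) hne
          · exact Or.inr (Or.inl ⟨hsa.symm, htb.symm.trans h1⟩)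
        · rw [ρo s hsx] at hsa
          by_cases htx : t = x
          · rw [htx, ρx] at htb
            rw [htx] at hst
            rcases hxnb s ⟨hs, hsx⟩ hst.symm with h1 | h1
            · exact absurd (hsa.symm.trans (h1.trans htb)) hne
            · exact Or.inr (Or.inr ⟨hsa.symm.trans h1, htb.symm⟩)
          · rw [ρo t htx] at htb
            rw [← hsa, ← htb]
            exact Or.inl hst
  have hadj1 : G₁.Adj c y := ⟨hcy, Or.inr (Or.inl ⟨rfl, rfl⟩)⟩
  have hle : ∀ a b, G.Adj a b → G₁.Adj a b := fun a b hab => ⟨hab.ne, Or.inl hab⟩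
  have hge : ∀ a b, G₁.Adj a b → ¬ (a = c ∧ b = y) → ¬ (a = y ∧ b = c) → G.Adj a b := by
    rintro a b ⟨_, h1 | h1 | h1⟩ h2 h3
    · exact h1
    · exact absurd h1 h2
    · exact absurd h1 h3
  -- P₁ \ {c} is connected
  have hcon2 : Cn G (insert y (C \ {c})) := by
    obtain ⟨a, ha, hya⟩ := hy
    exact cn_insert hcon ha hya.symm
  have hgn1 : GN G₁ P₁ c y := by
    refine ⟨hcy, hcP₁, hyP₁, ?_, ?_⟩
    · exact (h.two_conn hxy x h.uP).mono_graph fun a _ b _ => hle a b
    · intro w hw z hz hne
      by_cases hwc : w = c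
      · refine ⟨insert y (C \ {c}), ?_, hcon2.mono_graph fun a _ b _ => hle a b, ?_, ?_,
          Or.inr (Or.inl rfl)⟩
        · rintro a (ha | ha)
          · rw [ha]; exact hyP₁
          · exact ⟨((hC a).1 ha.1).1, ((hC a).1 ha.1).2.1⟩
        · rw [hwc]
          rintro (e | e)
          · exact hcy e
          · exact e.2 rfl
        · by_cases hzy : z = y
          · exact Or.inl hzy
          · exact Or.inr ⟨(hC z).2 ⟨hz.1, hz.2, hzy⟩, fun e => hne (e.trans hwc.symm)⟩
      · obtain ⟨T, hTP, hT, hwT, hzT, h3⟩ := h.tight w hw.1 z hz.1 hne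
        refine ⟨ρ '' T, ?_, m.cn_image hTP hT, ?_, ⟨z, hzT, ρo z hz.2⟩, ?_⟩
        · rintro _ ⟨a, ha, rfl⟩
          exact m.maps a (hTP ha)
        · rintro ⟨a, ha, haw⟩
          by_cases hax : a = x
          · rw [hax, ρx] at haw
            exact hwc haw.symm
          · rw [ρo a hax] at haw
            exact hwT (haw ▸ ha)
        · rcases h3 with h3 | h3
          · exact Or.inl ⟨x, h3, ρx⟩
          · exact Or.inr ⟨y, h3, ρo y h.ne.symm⟩
  have hL1 : NoL 2 G₁ P₁ := by
    intro s hs t ht hst hLs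
    obtain ⟨_, a, ha, b, hb, has, hbt, hab⟩ := (m.adj s hs t ht).1 hst
    exact hL a ha b hb hab (hLs.of_mod m has hbt)
  have hcard : P₁.ncard ≤ n := by
    have : P₁.ncard < P.ncard := by
      apply Set.ncard_lt_ncard _ (Set.toFinite _)
      exact ⟨fun z hz => hz.1, fun hsub => (hsub h.uP).2 rfl⟩
    omega
  have hxP₁ : x ∉ P₁ := fun hh => hh.2 rfl
  have hdx : (del G x y).Adj x c :=
    ⟨hxc, by
      rintro (⟨_, h2⟩ | ⟨h1, _⟩)
      · exact hcy h2
      · exact h.ne h1⟩
  have hdn : ∀ z ∈ P₁, (del G x y).Adj x z → z = c := by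
    rintro z hz ⟨h1, h2⟩
    rcases hxnb z hz h1 with h3 | h3
    · exact h3
    · exact absurd (Or.inl ⟨rfl, h3⟩) h2
  have hnyc : ¬ G.Adj c y := fun hh => hyc hh.symm
  rw [hPins]
  obtain ⟨d, hd⟩ := hcon.1
  obtain ⟨hdP, hdx', hdy⟩ := (hC d).1 hd.1
  have hdc : d ≠ c := hd.2
  rcases ih G₁ P₁ c y hcard hgn1 hadj1 hL1 with h1 | h1 | h1
  · exfalso
    rcases (h1 d).1 ⟨hdP, hdx'⟩ with h2 | h2
    · exact hdc h2
    · exact hdy h2
  · -- the clique case
    have hGc : ∀ a ∈ P₁, ∀ b ∈ P₁, a ≠ b → ¬ (a = c ∧ b = y) → ¬ (a = y ∧ b = c) → G.Adj a b :=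
      fun a ha b hb hab h2 h3 => hge a b (h1 a ha b hb hab) h2 h3
    have hdP₁ : d ∈ P₁ := ⟨hdP, hdx'⟩
    have hcd : G.Adj c d := hGc c hcP₁ d hdP₁ hdc.symm (fun hh => hdy hh.2) (fun hh => hcy hh.1)
    have hdy' : G.Adj d y := hGc d hdP₁ y hyP₁ hdy (fun hh => hdc hh.1) (fun hh => hdy hh.1)
    by_cases hone : ∀ e ∈ C \ {c}, e = d
    · -- the four-cycle
      have hP₁' : P₁ = insert c {d, y} := by
        ext z
        constructor
        · intro hz
          by_cases hzc : z = c
          · exact Or.inl hzc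
          · by_cases hzy : z = y
            · exact Or.inr (Or.inr hzy)
            · exact Or.inr (Or.inl (hone z ⟨(hC z).2 ⟨hz.1, hz.2, hzy⟩, hzc⟩))
        · rintro (hz | hz | hz)
          · rw [hz]; exact hcP₁
          · rw [hz]; exact hdP₁
          · have hz' : z = y := hz
            rw [hz']; exact hyP₁
      have b1 : PathN (del G x y) {d, y} d y := by
        apply PathN.base
        refine ⟨hdy', ?_⟩
        rintro (⟨h2, _⟩ | ⟨h2, _⟩)
        · exact hdx' h2
        · exact hdy h2
      have b2 : PathN (del G x y) (insert c {d, y}) c y := by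
        apply b1.ext
        · rintro (h2 | h2)
          · exact hdc h2.symm
          · exact hcy h2
        · refine ⟨hcd, ?_⟩
          rintro (⟨h2, _⟩ | ⟨h2, _⟩)
          · exact hcx h2
          · exact hcy h2
        · rintro z (hz | hz) hcz
          · exact hz
          · have hz' : z = y := hz
            rw [hz'] at hcz
            exact absurd hcz.1 hnyc
      rw [← hP₁'] at b2
      exact b2.ext hxP₁ hdx hdn
    · exfalso
      push Not at hone
      obtain ⟨e, he, hed⟩ := hone
      obtain ⟨heP, hex, hey⟩ := (hC e).1 he.1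
      have hec : e ≠ c := he.2
      have heP₁ : e ∈ P₁ := ⟨heP, hex⟩
      set R : Set V := {z | z ∈ P₁ ∧ z ≠ c ∧ z ≠ y ∧ z ≠ d} with hR
      have heR : e ∈ R := ⟨heP₁, hec, hey, hed⟩
      have hRc : Cn G R := cn_of_clique G ⟨e, heR⟩ (fun a ha b hb hab =>
        hGc a ha.1 b hb.1 hab (fun hh => ha.2.1 hh.1) (fun hh => ha.2.2.1 hh.1))
      have hcdn : Cn G {c, d} := by
        apply cn_of_center G (c := c) (Or.inl rfl)
        rintro z (hz | hz) hne
        · exact absurd hz hne
        · have hz' : z = d := hz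
          rw [hz']; exact hcd
      apply dia_of_parts hL (U := {c, d}) (W := {y}) (C₁ := {x}) (C₂ := R)
      · intro z
        constructor
        · intro hz
          by_cases h2 : z = c
          · exact Or.inl (Or.inl h2)
          by_cases h3 : z = d
          · exact Or.inl (Or.inr h3)
          by_cases h4 : z = y
          · exact Or.inr (Or.inl h4)
          by_cases h5 : z = x
          · exact Or.inr (Or.inr (Or.inl h5))
          · exact Or.inr (Or.inr (Or.inr ⟨⟨hz, h5⟩, h2, h4, h3⟩))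
        · rintro ((h2 | h2) | h2 | h2 | h2)
          · rw [h2]; exact hcP
          · have h2' : z = d := h2
            rw [h2']; exact hdP
          · have h2' : z = y := h2
            rw [h2']; exact h.vP
          · have h2' : z = x := h2
            rw [h2']; exact h.uP
          · exact h2.1.1
      · rintro z (hz | hz)
        · rw [hz]
          exact ⟨fun e => hcy e, fun e => hcx e, fun e => e.2.1 rfl⟩
        · have hz' : z = d := hz
          rw [hz']
          exact ⟨fun e => hdy e, fun e => hdx' e, fun e => e.2.2.2 rfl⟩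
      · intro z hz
        have hz' : z = y := hz
        rw [hz']
        exact ⟨fun e => h.ne.symm e, fun e => e.2.2.1 rfl⟩
      · intro z hz hh
        have hz' : z = x := hz
        rw [hz'] at hh
        exact hh.1.2 rfl
      · exact hcdn
      · exact cn_singleton G y
      · exact cn_singleton G x
      · exact hRc
      · exact ⟨d, Or.inr rfl, y, rfl, hdy'⟩
      · exact ⟨c, Or.inl rfl, x, rfl, hxc.symm⟩
      · exact ⟨d, Or.inr rfl, e, heR, hGc d hdP₁ e heP₁ hed.symm (fun hh => hdc hh.1)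
          (fun hh => hdy hh.1)⟩
      · exact ⟨y, rfl, x, rfl, hxy.symm⟩
      · exact ⟨y, rfl, e, heR, hGc y hyP₁ e heP₁ hey.symm (fun hh => hcy.symm hh.1)
          (fun hh => hec hh.2)⟩
      · intro z hz z' hz' hadj
        have hzx : z = x := hz
        rw [hzx] at hadj
        rcases hxnb z' hz'.1 hadj with h2 | h2
        · exact hz'.2.1 h2
        · exact hz'.2.2.1 h2
  · -- the path case
    have h2 : PathN (del G x y) P₁ c y := by
      apply h1.congr
      intro a ha b hb
      constructor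
      · rintro ⟨h3, h4⟩
        refine ⟨hge a b h3 (fun hh => h4 (Or.inl hh)) (fun hh => h4 (Or.inr hh)), ?_⟩
        rintro (⟨h5, _⟩ | ⟨_, h5⟩)
        · exact ha.2 h5
        · exact hb.2 h5
      · rintro ⟨h3, _⟩
        refine ⟨hle a b h3, ?_⟩
        rintro (⟨h5, h6⟩ | ⟨h5, h6⟩)
        · rw [h5, h6] at h3
          exact hnyc h3
        · rw [h5, h6] at h3
          exact hyc h3
    exact h2.ext hxP₁ hdx hdn

/-- The structure of cores without a diamond: an edge, a clique or a cycle. -/
theorem dia_struct [Finite V] : ∀ (n : ℕ) (G : SimpleGraph V) (P : Set V) (x y : V),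
    P.ncard ≤ n → GN G P x y → G.Adj x y → NoL 2 G P →
    (∀ z, z ∈ P ↔ z = x ∨ z = y) ∨ (∀ a ∈ P, ∀ b ∈ P, a ≠ b → G.Adj a b) ∨
      PathN (del G x y) P x y := by
  intro n
  induction n with
  | zero =>
    intro G P x y hn h _ _
    exfalso
    have h0 : P.ncard = 0 := by omega
    rw [Set.ncard_eq_zero (Set.toFinite _)] at h0
    have := h.uP
    rw [h0] at this
    exact this
  | succ n ih =>
    intro G P x y hn h hxy hL
    set C : Set V := {z | z ∈ P ∧ z ≠ x ∧ z ≠ y} with hCdef
    have hC : ∀ z, z ∈ C ↔ z ∈ P ∧ z ≠ x ∧ z ≠ y := fun z => Iff.rfl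
    by_cases hCne : C.Nonempty
    · have hCc := dia_inner h hxy hL hC hCne
      have hCP : ∀ z, z ∈ C ↔ z ∈ P ∧ z ∉ ({x, y} : Set V) := by
        intro z
        rw [hC z]
        constructor
        · rintro ⟨h1, h2, h3⟩
          refine ⟨h1, ?_⟩
          rintro (h4 | h4)
          · exact h2 h4
          · exact h3 h4
        · rintro ⟨h1, h2⟩
          exact ⟨h1, fun e => h2 (Or.inl e), fun e => h2 (Or.inr e)⟩
      have hKP : ({x, y} : Set V) ⊆ P := by
        rintro z (hz | hz)
        · rw [hz]; exact h.uP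
        · have hz' : z = y := hz
          rw [hz']; exact h.vP
      have h2c := h.two_conn hxy
      have hS : ∀ z, z ∉ Cᶜ ↔ z ∈ P ∧ z ≠ x ∧ z ≠ y := by
        intro z
        rw [← hC z]
        exact Set.notMem_compl_iff
      have hattx : ∃ a ∈ C, G.Adj x a := by
        obtain ⟨z, hz⟩ := hCne
        obtain ⟨a, ha, hax⟩ := h.attach_u hS (z := z) (fun hh => hh hz)
        refine ⟨a, ?_, hax.symm⟩
        by_contra hh
        exact comp_disj ha hh
      have hatty : ∃ a ∈ C, G.Adj y a := by
        obtain ⟨z, hz⟩ := hCne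
        obtain ⟨a, ha, hax⟩ := h.attach_v hS (z := z) (fun hh => hh hz)
        refine ⟨a, ?_, hax.symm⟩
        by_contra hh
        exact comp_disj ha hh
      have hxyK : ∀ a ∈ ({x, y} : Set V), ∀ b ∈ ({x, y} : Set V), a ≠ b → G.Adj a b := by
        rintro a (ha | ha) b (hb | hb) hab
        · exact absurd (ha.trans hb.symm) hab
        · have hb' : b = y := hb
          rw [ha, hb']; exact hxy
        · have ha' : a = y := ha
          rw [ha', hb]; exact hxy.symm
        · have ha' : a = y := ha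
          have hb' : b = y := hb
          exact absurd (ha'.trans hb'.symm) hab
      obtain ⟨c, hc, ⟨b, hb, hcb⟩, hone | hcon⟩ := noncut h2c h.conn hKP ⟨x, Or.inl rfl⟩ hCP hCc
      · -- a triangle
        right; left
        have hxc : G.Adj x c := by
          obtain ⟨a, ha, hxa⟩ := hattx
          rw [← (hone a).1 ha]; exact hxa
        have hyc : G.Adj y c := by
          obtain ⟨a, ha, hxa⟩ := hatty
          rw [← (hone a).1 ha]; exact hxa
        have hin : ∀ z ∈ P, z = x ∨ z = y ∨ z = c := by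
          intro z hz
          by_cases h1 : z = x
          · exact Or.inl h1
          by_cases h2 : z = y
          · exact Or.inr (Or.inl h2)
          · exact Or.inr (Or.inr ((hone z).1 ⟨hz, h1, h2⟩))
        intro a ha b hb hab
        rcases hin a ha with e | e | e <;> rcases hin b hb with e' | e' | e'
        · exact absurd (e.trans e'.symm) hab
        · rw [e, e']; exact hxy
        · rw [e, e']; exact hxc
        · rw [e, e']; exact hxy.symm
        · exact absurd (e.trans e'.symm) hab
        · rw [e, e']; exact hyc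
        · rw [e, e']; exact hxc.symm
        · rw [e, e']; exact hyc.symm
        · exact absurd (e.trans e'.symm) hab
      · obtain ⟨hcP, hcx, hcy⟩ := (hC c).1 hc
        obtain ⟨c0, hc0, d0, hd0, hcd⟩ := hCc.2 {c} (Set.singleton_subset_iff.2 hc) ⟨c, rfl⟩
          (by obtain ⟨z, hz⟩ := hcon.1; exact ⟨z, hz.1, hz.2⟩)
        have hc0' : c0 = c := hc0
        rw [hc0'] at hcd
        have hcov1 : ∀ z, z ∈ P ↔ z ∈ ({x, y} : Set V) ∨ z ∈ C \ {c} ∨ z ∈ ({c} : Set V) := by
          intro z
          constructor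
          · intro hz
            by_cases hzK : z ∈ ({x, y} : Set V)
            · exact Or.inl hzK
            · by_cases hzc : z = c
              · exact Or.inr (Or.inr hzc)
              · exact Or.inr (Or.inl ⟨(hCP z).2 ⟨hz, hzK⟩, hzc⟩)
          · rintro (h1 | h1 | h1)
            · exact hKP h1
            · exact h1.1.1
            · have h' : z = c := h1
              rw [h']; exact hcP
        have hcov2 : ∀ z, z ∈ P ↔ z ∈ ({x, y} : Set V) ∨ z ∈ ({c} : Set V) ∨ z ∈ C \ {c} :=
          fun z => by rw [hcov1 z]; tauto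
        have d1 : ∀ z ∈ ({x, y} : Set V), z ∉ C \ {c} ∧ z ∉ ({c} : Set V) := by
          intro z hz
          refine ⟨fun h1 => ((hCP z).1 h1.1).2 hz, fun h1 => ?_⟩
          have h' : z = c := h1
          exact ((hCP c).1 hc).2 (h' ▸ hz)
        have hxm : x ∈ ({x, y} : Set V) := Or.inl rfl
        have hym : y ∈ ({x, y} : Set V) := Or.inr rfl
        -- adjacency to the rest
        have hxor : ¬ G.Adj x c → ∃ a ∈ C \ {c}, G.Adj x a := by
          intro hxc
          obtain ⟨a, ha, hxa⟩ := hattx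
          refine ⟨a, ⟨ha, ?_⟩, hxa⟩
          intro e
          have e' : a = c := e
          exact hxc (e' ▸ hxa)
        have hyor : ¬ G.Adj y c → ∃ a ∈ C \ {c}, G.Adj y a := by
          intro hxc
          obtain ⟨a, ha, hxa⟩ := hatty
          refine ⟨a, ⟨ha, ?_⟩, hxa⟩
          intro e
          have e' : a = c := e
          exact hxc (e' ▸ hxa)
        have hrest : (∃ a ∈ C \ {c}, G.Adj x a) ∨ ∃ a ∈ C \ {c}, G.Adj y a := by
          obtain ⟨a, ha, b', hb', hab'⟩ := (h2c c hcP).2 (C \ {c})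
            (fun z hz => ⟨hz.1.1, hz.2⟩) hcon.1
            ⟨x, ⟨h.uP, fun e => hcx (show x = c from e).symm⟩, fun h1 => h1.1.2.1 rfl⟩
          have : b' = x ∨ b' = y := by
            by_contra hh
            push Not at hh
            exact hb'.2 ⟨⟨hb'.1.1, hh.1, hh.2⟩, hb'.1.2⟩
          rcases this with e | e
          · exact Or.inl ⟨a, ha, e ▸ hab'.symm⟩
          · exact Or.inr ⟨a, ha, e ▸ hab'.symm⟩
        have hbxy : b = x ∨ b = y := hb
        by_cases hxc : G.Adj x c <;> by_cases hyc : G.Adj y c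
        · -- c is adjacent to both
          right; left
          have hxW : ∃ a ∈ C \ {c}, G.Adj x a := by
            by_contra hxW
            have hyW := hrest.resolve_left hxW
            push Not at hxW
            exact dia_step hL hxyK hcov2 (fun z hz => ⟨(d1 z hz).2, (d1 z hz).1⟩)
              (fun z hz h1 => h1.2 hz) (cn_singleton G c) hcon ⟨c, rfl, d0, hd0, hcd⟩ hxm
              ⟨c, rfl, hxc⟩ hxW hym h.ne.symm ⟨c, rfl, hyc⟩ hym hyW
          have hyW : ∃ a ∈ C \ {c}, G.Adj y a := by
            by_contra hyW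
            push Not at hyW
            exact dia_step hL hxyK hcov2 (fun z hz => ⟨(d1 z hz).2, (d1 z hz).1⟩)
              (fun z hz h1 => h1.2 hz) (cn_singleton G c) hcon ⟨c, rfl, d0, hd0, hcd⟩ hym
              ⟨c, rfl, hyc⟩ hyW hxm h.ne ⟨c, rfl, hxc⟩ hxm hxW
          apply clique_grow h2c h.conn hL (C \ {c}).ncard (insert c {x, y}) (C \ {c}) le_rfl
          · rintro z (hz | hz)
            · rw [hz]; exact hcP
            · exact hKP hz
          · intro z
            constructor
            · intro hz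
              refine ⟨hz.1.1, ?_⟩
              rintro (e | h1)
              · exact hz.2 e
              · exact ((hCP z).1 hz.1).2 h1
            · rintro ⟨hz, hzK⟩
              exact ⟨(hCP z).2 ⟨hz, fun h1 => hzK (Or.inr h1)⟩, fun e => hzK (Or.inl e)⟩
          · have hall : ∀ t ∈ ({x, y} : Set V), G.Adj t c := by
              rintro t (ht | ht)
              · rw [ht]; exact hxc
              · have ht' : t = y := ht
                rw [ht']; exact hyc
            rintro a (ha | ha) b (hb | hb) hab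
            · exact absurd (ha.trans hb.symm) hab
            · rw [ha]; exact (hall b hb).symm
            · rw [hb]; exact hall a ha
            · exact hxyK a ha b hb hab
          · exact ⟨c, Or.inl rfl, x, Or.inr hxm, y, Or.inr hym, hcx, hcy, h.ne⟩
          · intro _
            refine ⟨hcon, ?_⟩
            rintro k (hk | hk | hk)
            · rw [hk]; exact ⟨d0, hd0, hcd⟩
            · rw [hk]; exact hxW
            · have hk' : k = y := hk
              rw [hk']; exact hyW
        · -- a root of degree two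
          right; right
          have hyW := hyor hyc
          apply cyc_step ih hn h hxy hL hC hc hxc hyc _ hcon hyW
          intro z hz hxz
          exact dia_step hL hxyK hcov1 d1 (fun z hz => hz.2) hcon (cn_singleton G c)
            ⟨d0, hd0, c, rfl, hcd.symm⟩ hym hyW (fun a ha => by
              have ha' : a = c := ha
              rw [ha']; exact hyc) hxm h.ne ⟨z, hz, hxz⟩ hxm ⟨c, rfl, hxc⟩
        · right; right
          have hxW := hxor hxc
          have hC' : ∀ z, z ∈ C ↔ z ∈ P ∧ z ≠ y ∧ z ≠ x := fun z => by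
            rw [hC z]; tauto
          rw [del_comm' G x y]
          apply PathN.symm
          apply cyc_step ih hn h.symm hxy.symm hL hC' hc hyc hxc _ hcon hxW
          intro z hz hyz
          exact dia_step hL hxyK hcov1 d1 (fun z hz => hz.2) hcon (cn_singleton G c)
            ⟨d0, hd0, c, rfl, hcd.symm⟩ hxm hxW (fun a ha => by
              have ha' : a = c := ha
              rw [ha']; exact hxc) hym h.ne.symm ⟨z, hz, hyz⟩ hym ⟨c, rfl, hyc⟩
        · exfalso
          rcases hbxy with e | e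
          · exact hxc (e ▸ hcb.symm)
          · exact hyc (e ▸ hcb.symm)
    · left
      intro z
      constructor
      · intro hz
        by_contra hh
        push Not at hh
        exact hCne ⟨z, hz, hh.1, hh.2⟩
      · rintro (e | e)
        · rw [e]; exact h.uP
        · rw [e]; exact h.vP

end path

end Pool.Agent.H67.WQ
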