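import Pool.Agent.H67.WQ.Dia2

set_option autoImplicit false

namespace Pool.Agent.H67.WQ

section pieces
variable {V : Type} {G : SimpleGraph V} {P : Set V} {u v w : V}

theorem GN.exists_split (h : GN G P u v) (hw : w ∈ P) (hwu : w ≠ u) (hwv : w ≠ v)
    (hsep : ¬ ∃ T ⊆ P, Cn G T ∧ w ∉ T ∧ u ∈ T ∧ v ∈ T) : ∃ P₁ P₂ : Set V,
    Split G P u v P₁ P₂ w ∧ GN G P₁ u w ∧ GN G P₂ w v := by
  have hsep2 : ¬ ∃ T ⊆ P, Cn G T ∧ w ∉ T ∧ v ∈ T ∧ u ∈ T := by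
    rintro ⟨T, h1, h2, h3, h4, h5⟩
    exact hsep ⟨T, h1, h2, h3, h5, h4⟩
  obtain ⟨s1, hv1, c1⟩ := h.split_sep hw hwu hwv hsep
  obtain ⟨s2, hu2, c2⟩ := h.symm.split_sep hw hwv hwu hsep2
  have g1 := h.split_side hw hwu hwv hsep s1 rfl c2 hv1 c1
  have g2 := (h.symm.split_side hw hwv hwu hsep2 s1.symm rfl c1 hu2 c2).symm
  exact ⟨_, _, ⟨s1, hwu, hwv, g1.uP, g2.vP, hv1, hu2, c1, c2⟩, g1, g2⟩

theorem PathN.split (h : PathN G P u v) (hw : w ∈ P) (hwu : w ≠ u) (hwv : w ≠ v) :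
    ∃ P₁ P₂ : Set V, Split G P u v P₁ P₂ w ∧ PathN G P₁ u w ∧ PathN G P₂ w v := by
  obtain ⟨P₁, P₂, hs, g1, g2⟩ := h.gn.exists_split hw hwu hwv (by
    rintro ⟨T, h1, h2, h3, h4, h5⟩
    exact h.sep w hw hwu hwv T h1 h2 h3 h4 h5)
  refine ⟨P₁, P₂, hs, ⟨g1, ?_⟩, ⟨g2, ?_⟩⟩
  · intro z hz hzu hzw T hTP hT hzT huT hwT
    apply h.sep z (hs.sub1 hz) hzu (fun e => hs.v1 (e ▸ hz)) (T ∪ P₂)
      (Set.union_subset (hTP.trans hs.sub1) hs.sub2)
      (cn_union G hT hs.c2 (Or.inl ⟨w, hwT, hs.sep.w2⟩)) _ (Or.inl huT) (Or.inr hs.v2)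
    rintro (h1 | h1)
    · exact hzT h1
    · exact hzw (hs.sep.inter z hz h1)
  · intro z hz hzw hzv T hTP hT hzT hwT hvT
    apply h.sep z (hs.sub2 hz) (fun e => hs.u2 (e ▸ hz)) hzv (T ∪ P₁)
      (Set.union_subset (hTP.trans hs.sub2) hs.sub1)
      (cn_union G hT hs.c1 (Or.inl ⟨w, hwT, hs.sep.w1⟩)) _ (Or.inr hs.u1) (Or.inl hvT)
    rintro (h1 | h1)
    · exact hzT h1
    · exact hzw (hs.sep.inter z h1 hz)

theorem GN.of_clique (hu : u ∈ P) (hv : v ∈ P) (hne : u ≠ v)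
    (h : ∀ a ∈ P, ∀ b ∈ P, a ≠ b → G.Adj a b) : GN G P u v := by
  have hpair : ∀ a ∈ P, ∀ b ∈ P, Cn G {a, b} := by
    intro a ha b hb
    apply cn_of_clique G ⟨a, Or.inl rfl⟩
    have hin : ∀ s ∈ ({a, b} : Set V), s ∈ P := by
      rintro s (hs | hs)
      · rw [hs]; exact ha
      · have hs' : s = b := hs
        rw [hs']; exact hb
    exact fun s hs t ht hst => h s (hin s hs) t (hin t ht) hst
  refine ⟨hne, hu, hv, cn_of_clique G ⟨u, hu⟩ h, ?_⟩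
  intro y hy z hz hzy
  by_cases hyu : y = u
  · refine ⟨{z, v}, ?_, hpair z hz v hv, ?_, Or.inl rfl, Or.inr (Or.inr rfl)⟩
    · rintro a (ha | ha)
      · rw [ha]; exact hz
      · have ha' : a = v := ha
        rw [ha']; exact hv
    · rintro (ha | ha)
      · exact hzy ha.symm
      · have ha' : y = v := ha
        exact hne (hyu.symm.trans ha')
  · refine ⟨{z, u}, ?_, hpair z hz u hu, ?_, Or.inl rfl, Or.inl (Or.inr rfl)⟩
    · rintro a (ha | ha)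
      · rw [ha]; exact hz
      · have ha' : a = u := ha
        rw [ha']; exact hu
    · rintro (ha | ha)
      · exact hzy ha.symm
      · exact hyu ha

theorem clique_mod {V' : Type} {G' : SimpleGraph V'} {P' : Set V'} {f : V' → V}
    (h' : ∀ a ∈ P', ∀ b ∈ P', a ≠ b → G'.Adj a b) (h : ∀ a ∈ P, ∀ b ∈ P, a ≠ b → G.Adj a b)
    (h1 : ∀ z ∈ P', f z ∈ P) (h2 : ∀ z ∈ P, ∃ x ∈ P', f x = z) : Mod G' P' G P f := by
  refine ⟨h1, fun z hz => ?_, fun a ha b hb => ?_⟩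
  · obtain ⟨x, hx, hxz⟩ := h2 z hz
    exact cn_of_clique G' ⟨x, hx, hxz⟩ (fun a ha b hb hab => h' a ha.1 b hb.1 hab)
  · constructor
    · intro hab
      obtain ⟨x, hx, hxa⟩ := h2 a ha
      obtain ⟨y, hy, hyb⟩ := h2 b hb
      refine ⟨hab.ne, x, hx, y, hy, hxa, hyb, h' x hx y hy ?_⟩
      rintro rfl
      exact hab.ne (hxa.symm.trans hyb)
    · rintro ⟨hne, _⟩
      exact h a ha b hb hne

end pieces

section pwo
variable {L : Type} {R : L → L → Prop} [IsPreorder L R]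

theorem path_pwo {𝓛 : Set L} (hL : 𝓛.PartiallyWellOrderedOn R) :
    {N : LN L | PathN N.G N.P N.u N.v ∧ ∀ w ∈ N.P, w ≠ N.u → w ≠ N.v →
      N.lab w ∈ 𝓛}.PartiallyWellOrderedOn (LN.le R) := by
  apply str_pwo (edge_pwo (L := L) (R := R)) hL
  rintro N ⟨hN, hlab⟩
  by_cases hex : ∃ w ∈ N.P, w ≠ N.u ∧ w ≠ N.v
  · right
    obtain ⟨w, hw, hwu, hwv⟩ := hex
    obtain ⟨P₁, P₂, hs, g1, g2⟩ := hN.split hw hwu hwv
    refine ⟨P₁, P₂, w, hs, ⟨g1, fun z hz hzu hzw => ?_⟩, ⟨g2, fun z hz hzw hzv => ?_⟩,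
      hlab w hw hwu hwv⟩
    · exact hlab z (hs.sub1 hz) hzu (fun e => hs.v1 (e ▸ hz))
    · exact hlab z (hs.sub2 hz) (fun e => hs.u2 (e ▸ hz)) hzv
  · left
    push Not at hex
    refine ⟨fun x => ⟨fun hx => ?_, ?_⟩, hN.gn⟩
    · by_cases hxu : x = N.u
      · exact Or.inl hxu
      · exact Or.inr (hex x hx hxu)
    · rintro (e | e)
      · rw [e]; exact hN.gn.uP
      · rw [e]; exact hN.gn.vP

theorem cycle_pwo {𝓛 : Set L} (hL : 𝓛.PartiallyWellOrderedOn R) :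
    {N : LN L | N.G.Adj N.u N.v ∧ PathN (del N.G N.u N.v) N.P N.u N.v ∧
      ∀ w ∈ N.P, w ≠ N.u → w ≠ N.v → N.lab w ∈ 𝓛}.PartiallyWellOrderedOn (LN.le R) := by
  rw [Set.partiallyWellOrderedOn_iff_exists_lt]
  intro a ha
  have hlab : ∀ n, ∀ w ∈ (a n).P, w ≠ (a n).u → w ≠ (a n).v → (a n).lab w ∈ 𝓛 :=
    fun n => (ha n).2.2
  obtain ⟨m, n, hmn, f, f1, f2, f3, f4⟩ := Set.partiallyWellOrderedOn_iff_exists_lt.1
    (path_pwo hL) (fun n => (⟨(a n).n, del (a n).G (a n).u (a n).v, (a n).P, (a n).u, (a n).v,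
      (a n).lab⟩ : LN L)) (fun n => ⟨(ha n).2.1, hlab n⟩)
  exact ⟨m, n, hmn, f, Mod.add_edge₂ f1 f2 f3 (ha n).1 (ha m).1 (ha n).2.1.gn.uP
    (ha n).2.1.gn.vP, f2, f3, f4⟩

theorem clique_pwo {𝓛 : Set L} (hL : 𝓛.PartiallyWellOrderedOn R) :
    {N : LN L | GN N.G N.P N.u N.v ∧ (∀ a ∈ N.P, ∀ b ∈ N.P, a ≠ b → N.G.Adj a b) ∧
      ∀ w ∈ N.P, w ≠ N.u → w ≠ N.v → N.lab w ∈ 𝓛}.PartiallyWellOrderedOn (LN.le R) := by
  classical
  apply mbs (fun N : LN L => N.P.ncard)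
  intro f hf hT
  have hX : {N : LN L | N ∈ Set.range f ∧ ∃ w ∈ N.P, w ≠ N.u ∧
      w ≠ N.v}.PartiallyWellOrderedOn (LN.le R) := by
    rw [Set.partiallyWellOrderedOn_iff_exists_lt]
    intro a ha
    have hi : ∀ n, ∃ i, f i = a n := fun n => (ha n).1
    choose i hi using hi
    have hw : ∀ n, ∃ w ∈ (f (i n)).P, w ≠ (f (i n)).u ∧ w ≠ (f (i n)).v := by
      intro n
      rw [hi n]
      exact (ha n).2
    choose w hw hwu hwv using hw
    have hA : ∀ n, (⟨(f (i n)).n, (f (i n)).G, (f (i n)).P \ {w n}, (f (i n)).u, (f (i n)).v,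
        (f (i n)).lab⟩ : LN L) ∈ {x : LN L | x ∈ {N : LN L | GN N.G N.P N.u N.v ∧
          (∀ a ∈ N.P, ∀ b ∈ N.P, a ≠ b → N.G.Adj a b) ∧
          ∀ w ∈ N.P, w ≠ N.u → w ≠ N.v → N.lab w ∈ 𝓛} ∧
          ∃ i, (fun N : LN L => N.P.ncard) x < (fun N : LN L => N.P.ncard) (f i) ∧
          ∀ y ∈ {N : LN L | GN N.G N.P N.u N.v ∧
          (∀ a ∈ N.P, ∀ b ∈ N.P, a ≠ b → N.G.Adj a b) ∧
          ∀ w ∈ N.P, w ≠ N.u → w ≠ N.v → N.lab w ∈ 𝓛}, LN.le R y x → LN.le R y (f i)} := by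
      intro n
      obtain ⟨hgn, hcl, hlab⟩ := hf (i n)
      have huw : (f (i n)).u ∈ (f (i n)).P \ {w n} := ⟨hgn.uP, fun e => hwu n e.symm⟩
      have hvw : (f (i n)).v ∈ (f (i n)).P \ {w n} := ⟨hgn.vP, fun e => hwv n e.symm⟩
      have hcl' : ∀ a ∈ (f (i n)).P \ {w n}, ∀ b ∈ (f (i n)).P \ {w n}, a ≠ b →
          (f (i n)).G.Adj a b := fun a ha b hb => hcl a ha.1 b hb.1
      refine ⟨⟨GN.of_clique huw hvw hgn.ne hcl', hcl', fun z hz => hlab z hz.1⟩, i n, ?_,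
        fun y _ hy => trans_of (LN.le R) hy ?_⟩
      · apply Set.ncard_lt_ncard _ (Set.toFinite _)
        exact ⟨fun z hz => hz.1, fun hsub => (hsub (hw n)).2 rfl⟩
      · refine ⟨fun z => if z = w n then (f (i n)).u else z, clique_mod hcl hcl' ?_ ?_, ?_, ?_, ?_⟩
        · intro z hz
          by_cases hzw : z = w n
          · simp only [hzw, if_true]
            exact huw
          · simp only [hzw, if_false]
            exact ⟨hz, hzw⟩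
        · intro z hz
          refine ⟨z, hz.1, ?_⟩
          have hzw : z ≠ w n := hz.2
          simp only [hzw, if_false]
        · exact if_neg (fun e => hwu n e.symm)
        · exact if_neg (fun e => hwv n e.symm)
        · intro z hz _ _
          refine ⟨z, hz.1, ?_, refl_of R _⟩
          have hzw : z ≠ w n := hz.2
          exact if_neg hzw
    obtain ⟨m, n, hmn, ⟨g, g1, g2, g3, g4⟩, hr⟩ := good_pair₂ hT hL
      (fun n => (⟨(f (i n)).n, (f (i n)).G, (f (i n)).P \ {w n}, (f (i n)).u, (f (i n)).v,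
        (f (i n)).lab⟩ : LN L)) (fun n => (f (i n)).lab (w n)) hA
      (fun n => (hf (i n)).2.2 (w n) (hw n) (hwu n) (hwv n))
    refine ⟨m, n, hmn, ?_⟩
    rw [← hi m, ← hi n]
    set F : Fin (f (i n)).n → Fin (f (i m)).n := fun z => if z = w n then w m else g z with hF
    have Fw : F (w n) = w m := if_pos rfl
    have Fo : ∀ z, z ≠ w n → F z = g z := fun z hz => if_neg hz
    refine ⟨F, clique_mod (hf (i n)).2.1 (hf (i m)).2.1 ?_ ?_, ?_, ?_, ?_⟩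
    · intro z hz
      by_cases hzw : z = w n
      · rw [hzw, Fw]; exact hw m
      · rw [Fo z hzw]
        exact (g1.maps z ⟨hz, hzw⟩).1
    · intro z hz
      by_cases hzw : z = w m
      · exact ⟨w n, hw n, by rw [Fw, hzw]⟩
      · obtain ⟨x, hx, hxz⟩ := g1.surj (w := z) ⟨hz, hzw⟩
        exact ⟨x, hx.1, by rw [Fo x hx.2, hxz]⟩
    · rw [Fo _ (fun e => hwu n e.symm)]
      exact g2
    · rw [Fo _ (fun e => hwv n e.symm)]
      exact g3
    · intro z hz hzu hzv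
      by_cases hzw : z = w m
      · exact ⟨w n, hw n, by rw [Fw, hzw], by rw [hzw]; exact hr⟩
      · obtain ⟨x, hx, hxz, hxr⟩ := g4 z ⟨hz, hzw⟩ hzu hzv
        exact ⟨x, hx.1, by rw [Fo x hx.2]; exact hxz, hxr⟩
  refine ((edge_pwo (L := L) (R := R)).union hX).mono ?_
  rintro _ ⟨n, rfl⟩
  by_cases hex : ∃ w ∈ (f n).P, w ≠ (f n).u ∧ w ≠ (f n).v
  · exact Or.inr ⟨⟨n, rfl⟩, hex⟩
  · left
    push Not at hex
    refine ⟨fun x => ⟨fun hx => ?_, ?_⟩, (hf n).1⟩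
    · by_cases hxu : x = (f n).u
      · exact Or.inl hxu
      · exact Or.inr (hex x hx hxu)
    · rintro (e | e)
      · rw [e]; exact (hf n).1.uP
      · rw [e]; exact (hf n).1.vP

end pwo

theorem closed_nol (p : ℕ) : Closed (fun G P => NoL p G P) := by
  intro V' V G' G P' P f m h2 u hu v hv huv hL
  obtain ⟨_, a, ha, b, hb, hau, hbv, hab⟩ := (m.adj u hu v hv).1 huv
  exact h2 a ha b hb hab (hL.of_mod m hau hbv)

theorem rgc_dia : (RGC (fun G P => NoL 2 G P)).PartiallyWellOrderedOn RG.le := by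
  apply rooted_pwo _ (closed_nol 2)
  intro 𝓛 h𝓛
  refine ((edge_pwo (L := RG) (R := RG.le)).union ((clique_pwo h𝓛).union (cycle_pwo h𝓛))).mono ?_
  rintro N ⟨hGN, hadj, hL, hlab⟩
  rcases dia_struct N.P.ncard N.G N.P N.u N.v le_rfl hGN hadj hL with h | h | h
  · exact Or.inl ⟨h, hGN⟩
  · exact Or.inr (Or.inl ⟨hGN, h, hlab⟩)
  · exact Or.inr (Or.inr ⟨hadj, h, hlab⟩)

/-- The connected graphs without the diamond as a contraction are well-quasi-ordered. -/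
theorem wqo_diamond (H : FG) : WQO (Cl diamond H) := by
  apply wqo_of_rgc _ _ rgc_dia
  rintro A ⟨hA, hS, _⟩
  refine ⟨hA, ?_⟩
  by_contra hcon
  exact hS (contractsTo_iff.2 (contr_leaves hcon))

end Pool.Agent.H67.WQ
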