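import Pool.Agent.H67.WQ.Comp

set_option autoImplicit false

namespace Pool.Agent.H67.WQ

/-- In a member of the class in which all vertices but `x` form a clique, and `x` has a
nonneighbour, the vertex `x` has few neighbours. -/
theorem InClass.deg_lt {p q : ℕ} {V : Type} [Fintype V] {H : SimpleGraph V}
    (h : InClass p q H) {x y : V} (hxy : x ≠ y) (hn : ¬ H.Adj x y)
    (hcl : ∀ a b, a ≠ x → b ≠ x → a ≠ b → H.Adj a b) : {z | H.Adj x z}.ncard + 2 < q := by
  classical
  -- x has a neighbour
  obtain ⟨t, ht⟩ : ∃ t, H.Adj x t := by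
    obtain ⟨a, ha, b, _, hab⟩ := cut_of_connected H h.conn {x} ⟨x, rfl⟩
      ⟨y, fun e => hxy (Set.mem_singleton_iff.1 e).symm⟩
    have ha' : a = x := ha
    exact ⟨b, ha' ▸ hab⟩
  have hty : t ≠ y := fun e => hn (e ▸ ht)
  let P : V → Prop := fun z => z = x ∨ z = y ∨ H.Adj x z
  let W := {z // P z}
  let t' : W := ⟨t, Or.inr (Or.inr ht)⟩
  let f : V → W := fun z => if hz : P z then ⟨z, hz⟩ else t'
  have hfib : ∀ w : W, Cn H {v | f v = w} := by
    intro w
    by_cases hw : w = t'
    · subst hw
      apply cn_of_center H (c := t)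
      · change f t = t'
        simp only [f]
        rw [dif_pos]
      · intro z hz hzt
        apply hcl _ _ ht.ne.symm _ hzt.symm
        rintro rfl
        change f z = t' at hz
        simp only [f] at hz
        rw [dif_pos (Or.inl rfl)] at hz
        exact hzt (congrArg Subtype.val hz)
    · have : {v | f v = w} = {(w : V)} := by
        ext v
        change f v = w ↔ v = w
        simp only [f]
        by_cases hv : P v
        · rw [dif_pos hv]
          exact ⟨fun e => congrArg Subtype.val e, fun e => Subtype.ext e⟩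
        · rw [dif_neg hv]
          constructor
          · intro e; exact absurd e.symm hw
          · intro e; exact absurd (e ▸ w.2) hv
      rw [this]; exact cn_singleton _ _
  have hpos : ∀ z (hz : P z), f z = ⟨z, hz⟩ := by
    intro z hz
    simp only [f]
    rw [dif_pos hz]
  have hcard := h.noK W (quo H f) f (isModel_quo hfib)
    ⟨⟨x, Or.inl rfl⟩, ⟨y, Or.inr (Or.inl rfl)⟩, fun e => hxy (congrArg Subtype.val e), ?_, ?_⟩
  · have hle : {z | H.Adj x z}.ncard + 2 ≤ Fintype.card W := by
      have h1 : (insert x (insert y {z | H.Adj x z})).ncard = {z | H.Adj x z}.ncard + 2 := by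
        rw [Set.ncard_insert_of_notMem, Set.ncard_insert_of_notMem]
        · exact hn
        · rintro (h' | h')
          · exact hxy h'
          · exact H.loopless.irrefl _ h'
      rw [← h1]
      have h2 : (insert x (insert y {z | H.Adj x z})) = {z | P z} := by
        ext z; rfl
      rw [h2, Set.ncard_eq_toFinset_card', Set.toFinset_card]
      exact le_of_eq (Fintype.card_congr (Equiv.refl _))
    omega
  · rintro ⟨_, a, b, ha, hb, hab⟩
    have ha' : a = x := by
      simp only [f] at ha
      by_cases hPa : P a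
      · rw [dif_pos hPa] at ha
        exact congrArg Subtype.val ha
      · rw [dif_neg hPa] at ha
        exact absurd (congrArg Subtype.val ha) ht.ne.symm
    have hb' : b = y := by
      simp only [f] at hb
      by_cases hPb : P b
      · rw [dif_pos hPb] at hb
        exact congrArg Subtype.val hb
      · rw [dif_neg hPb] at hb
        exact absurd (congrArg Subtype.val hb) hty
    exact hn (ha' ▸ hb' ▸ hab)
  · rintro ⟨a, ha⟩ ⟨b, hb⟩ hab hnab
    have hab' : a ≠ b := fun e => hab (Subtype.ext e)
    have hnadj : ¬ H.Adj a b := fun h' =>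
      hnab ⟨hab, a, b, hpos a ha, hpos b hb, h'⟩
    by_cases hax : a = x
    · left
      refine ⟨Subtype.ext hax, Subtype.ext ?_⟩
      rcases hb with hb | hb | hb
      · exact absurd (hax.trans hb.symm) hab'
      · exact hb
      · exact absurd (hax ▸ hb) hnadj
    · by_cases hbx : b = x
      · right
        refine ⟨Subtype.ext ?_, Subtype.ext hbx⟩
        rcases ha with ha | ha | ha
        · exact absurd ha hax
        · exact ha
        · exact absurd (hbx ▸ ha.symm) hnadj
      · exact absurd (hcl a b hax hbx hab') hnadj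

/-- the set of vertices of `Q` attached to `X` -/
def att {V : Type} (G : SimpleGraph V) (Q X : Set V) : Set V :=
  {t | t ∈ Q ∧ ∃ x ∈ X, G.Adj x t}

/-- If a connected set `X` has many attachments in the clique `Q`, but not the vertex `y`, then
some component of the complement of `Q ∪ X` is attached exactly to `X` and `y`. -/
theorem exists_comp {p q : ℕ} {V : Type} [Fintype V] {G : SimpleGraph V} (h : InClass p q G)
    {Q X : Set V} (hQ : ∀ a ∈ Q, ∀ b ∈ Q, a ≠ b → G.Adj a b) (hX : Cn G X)
    (hXQ : ∀ x ∈ X, x ∉ Q) {y : V} (hy : y ∈ Q) (hyX : y ∉ att G Q X)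
    (hT : q ≤ (att G Q X).ncard + 2) :
    ∃ d, d ∉ Q ∪ X ∧ (∃ x ∈ X, ∃ z ∈ comp G (Q ∪ X) d, G.Adj x z) ∧
      (∃ z ∈ comp G (Q ∪ X) d, G.Adj y z) ∧
      ∀ t ∈ Q, (∃ z ∈ comp G (Q ∪ X) d, G.Adj t z) → t = y := by
  classical
  by_contra hcon
  push Not at hcon
  set S := Q ∪ X with hS
  let β : V → Option ↥Q := fun v => if hv : v ∈ Q then some ⟨v, hv⟩ else none
  let κ : Set V → Option ↥Q := fun D =>
    if hD : ∃ t : ↥Q, (t : V) ≠ y ∧ ∃ z ∈ D, G.Adj t z then some hD.choose
    else if ∃ x ∈ X, ∃ z ∈ D, G.Adj x z then none else some ⟨y, hy⟩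
  have hβQ : ∀ v (hv : v ∈ Q), β v = some ⟨v, hv⟩ := fun v hv => by simp only [β]; rw [dif_pos hv]
  have hβX : ∀ v, v ∉ Q → β v = none := fun v hv => by simp only [β]; rw [dif_neg hv]
  have hβ : ∀ w, Cn G {v | v ∈ S ∧ β v = w} := by
    intro w
    rcases w with _ | ⟨t, ht⟩
    · have : {v | v ∈ S ∧ β v = none} = X := by
        ext v
        constructor
        · rintro ⟨hv | hv, hv'⟩
          · rw [hβQ v hv] at hv'
            exact absurd hv' (by simp)
          · exact hv
        · intro hv
          exact ⟨Or.inr hv, hβX v (hXQ v hv)⟩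
      rw [this]; exact hX
    · have : {v | v ∈ S ∧ β v = some ⟨t, ht⟩} = {t} := by
        ext v
        constructor
        · rintro ⟨_, hv'⟩
          by_cases hv : v ∈ Q
          · rw [hβQ v hv] at hv'
            simpa using hv'
          · rw [hβX v hv] at hv'
            exact absurd hv' (by simp)
        · intro hv
          have hv' : v = t := hv
          subst hv'
          exact ⟨Or.inl ht, hβQ _ ht⟩
      rw [this]; exact cn_singleton _ _
  have hSne : S.Nonempty := ⟨y, Or.inl hy⟩
  have hκ : ∀ x ∉ S, ∃ s ∈ S, β s = κ (comp G S x) ∧ ∃ y ∈ comp G S x, G.Adj s y := by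
    intro x hx
    by_cases h1 : ∃ t : ↥Q, (t : V) ≠ y ∧ ∃ z ∈ comp G S x, G.Adj t z
    · refine ⟨h1.choose, Or.inl h1.choose.2, ?_, h1.choose_spec.2⟩
      rw [hβQ _ h1.choose.2]
      simp only [κ]
      rw [dif_pos h1]
    · by_cases h2 : ∃ x' ∈ X, ∃ z ∈ comp G S x, G.Adj x' z
      · obtain ⟨x', hx', z, hz, hxz⟩ := h2
        refine ⟨x', Or.inr hx', ?_, z, hz, hxz⟩
        rw [hβX _ (hXQ x' hx')]
        simp only [κ]
        rw [dif_neg h1, if_pos ⟨x', hx', z, hz, hxz⟩]
      · obtain ⟨s, hs, z, hz, hsz⟩ := exists_attach h.conn hSne hx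
        have hsQ : s ∈ Q := by
          rcases hs with hs | hs
          · exact hs
          · exact absurd ⟨s, hs, z, hz, hsz⟩ h2
        have hsy : s = y := by
          by_contra hne
          exact h1 ⟨⟨s, hsQ⟩, hne, z, hz, hsz⟩
        subst hsy
        refine ⟨s, hs, ?_, z, hz, hsz⟩
        rw [hβQ _ hsQ]
        simp only [κ]
        rw [dif_neg h1, if_neg h2]
  let f : V → Option ↥Q := fun v => if v ∈ S then β v else κ (comp G S v)
  have hfib : ∀ w, Cn G {v | f v = w} := cn_fiber β κ hβ hκ
  have hmod := isModel_quo (G := G) hfib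
  have hcls := h.of_model hmod
  have hfQ : ∀ v (hv : v ∈ Q), f v = some ⟨v, hv⟩ := by
    intro v hv
    simp only [f]
    rw [if_pos (show v ∈ S from Or.inl hv)]
    exact hβQ v hv
  have hfX : ∀ v, v ∈ X → f v = none := by
    intro v hv
    simp only [f]
    rw [if_pos (show v ∈ S from Or.inr hv)]
    exact hβX v (hXQ v hv)
  have : Fintype ↥Q := Fintype.ofFinite _
  have hdeg := hcls.deg_lt (x := none) (y := some ⟨y, hy⟩) (by simp) ?_ ?_
  · -- count
    have hsub : (fun t : V => if ht : t ∈ Q then some (⟨t, ht⟩ : ↥Q) else none) '' att G Q X ⊆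
        {z | (quo G f).Adj none z} := by
      rintro _ ⟨t, ⟨htQ, x, hx, hxt⟩, rfl⟩
      change (quo G f).Adj none (if ht : t ∈ Q then some (⟨t, ht⟩ : ↥Q) else none)
      rw [dif_pos htQ]
      exact ⟨by simp, x, t, hfX x hx, hfQ t htQ, hxt⟩
    have hc1 := Set.ncard_le_ncard hsub (Set.toFinite _)
    rw [Set.ncard_image_of_injOn] at hc1
    · have := lt_of_le_of_lt (Nat.add_le_add_right hc1 2) hdeg
      omega
    · intro a ha b hb hab
      simp only at hab
      rw [dif_pos ha.1, dif_pos hb.1] at hab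
      simpa using hab
  · rintro ⟨_, a, b, ha, hb, hab⟩
    by_cases haS : a ∈ S
    · have haX : a ∈ X := by
        rcases haS with haQ | haX
        · rw [hfQ a haQ] at ha
          exact absurd ha (by simp)
        · exact haX
      by_cases hbS : b ∈ S
      · rcases hbS with hbQ | hbX
        · rw [hfQ b hbQ] at hb
          have hby : b = y := by simpa using hb
          exact hyX ⟨hy, a, haX, hby ▸ hab⟩
        · rw [hfX b hbX] at hb
          exact absurd hb (by simp)
      · simp only [f] at hb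
        rw [if_neg hbS] at hb
        simp only [κ] at hb
        by_cases h1 : ∃ t : ↥Q, (t : V) ≠ y ∧ ∃ z ∈ comp G S b, G.Adj t z
        · rw [dif_pos h1] at hb
          have := h1.choose_spec.1
          apply this
          have := Option.some_injective _ hb
          exact congrArg Subtype.val this
        · rw [dif_neg h1, if_pos ⟨a, haX, b, mem_comp_self hbS, hab⟩] at hb
          exact absurd hb (by simp)
    · have ha' := ha
      simp only [f] at ha
      rw [if_neg haS] at ha
      simp only [κ] at ha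
      by_cases h1 : ∃ t : ↥Q, (t : V) ≠ y ∧ ∃ z ∈ comp G S a, G.Adj t z
      · rw [dif_pos h1] at ha
        exact absurd ha (by simp)
      · rw [dif_neg h1] at ha
        by_cases h2 : ∃ x ∈ X, ∃ z ∈ comp G S a, G.Adj x z
        · by_cases hbS : b ∈ S
          · rcases hbS with hbQ | hbX
            · rw [hfQ b hbQ] at hb
              have hby : b = y := by simpa using hb
              obtain ⟨x, hx, z, hz, hxz⟩ := h2
              obtain ⟨t, htQ, ⟨z', hz', htz'⟩, hty⟩ := hcon a haS ⟨x, hx, z, hz, hxz⟩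
                ⟨a, mem_comp_self haS, hby ▸ hab.symm⟩
              exact h1 ⟨⟨t, htQ⟩, hty, z', hz', htz'⟩
            · rw [hfX b hbX] at hb
              exact absurd hb (by simp)
          · have : f b = f a := by
              simp only [f]
              rw [if_neg hbS, if_neg haS, comp_eq_of_adj haS hbS hab]
            rw [ha', hb] at this
            exact absurd this (by simp)
        · rw [if_neg h2] at ha
          exact absurd ha (by simp)
  · rintro (_ | ⟨a, ha⟩) (_ | ⟨b, hb⟩) h1 h2 h3
    · exact absurd rfl h1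
    · exact absurd rfl h1
    · exact absurd rfl h2
    · exact ⟨h3, a, b, hfQ a ha, hfQ b hb, hQ a ha b hb (fun e => h3 (by subst e; rfl))⟩

/-- the dichotomy: a connected set outside a clique has few attachments or almost all -/
theorem dichotomy {p q : ℕ} {V : Type} [Fintype V] {G : SimpleGraph V} (h : InClass p q G)
    {Q X : Set V} (hQ : ∀ a ∈ Q, ∀ b ∈ Q, a ≠ b → G.Adj a b) (hX : Cn G X)
    (hXQ : ∀ x ∈ X, x ∉ Q) (hq : 3 ≤ q) :
    (att G Q X).ncard + 3 ≤ q ∨ (Q \ att G Q X).ncard + 1 ≤ p := by
  classical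
  by_cases hT : q ≤ (att G Q X).ncard + 2
  · right
    have hne : (att G Q X).Nonempty := by
      rw [Set.nonempty_iff_ne_empty]
      intro e
      rw [e, Set.ncard_empty] at hT
      omega
    have hS : Cn G (Q ∪ X) := by
      obtain ⟨t, htQ, x, hx, hxt⟩ := hne
      exact cn_union G (cn_of_clique G ⟨t, htQ⟩ hQ) hX (Or.inr ⟨t, htQ, x, hx, hxt.symm⟩)
    have hcomps := ncard_comps h.star hS
    have hle : (Q \ att G Q X).ncard ≤ (Comps G (Q ∪ X)).ncard := by
      have hch : ∀ y ∈ Q \ att G Q X, ∃ D ∈ Comps G (Q ∪ X),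
          (∃ z ∈ D, G.Adj y z) ∧ ∀ t ∈ Q, (∃ z ∈ D, G.Adj t z) → t = y := by
        intro y hy
        obtain ⟨d, hd, _, h2, h3⟩ := exists_comp h hQ hX hXQ hy.1 hy.2 hT
        exact ⟨_, ⟨d, hd, rfl⟩, h2, h3⟩
      choose! D hD using hch
      apply Set.ncard_le_ncard_of_injOn D
      · intro y hy
        exact (hD y hy).1
      · intro y hy y' hy' he
        have h1 := (hD y hy).2.1
        rw [he] at h1
        exact (hD y' hy').2.2 y hy.1 h1
    omega
  · left; omega

/-- all connected sets of vertices with few attachments have few attachments -/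
theorem att_small {p q : ℕ} {V : Type} [Fintype V] {G : SimpleGraph V} (h : InClass p q G)
    {Q : Set V} (hQ : ∀ a ∈ Q, ∀ b ∈ Q, a ≠ b → G.Adj a b) (hq : 3 ≤ q)
    (hN : 2 * q + p ≤ Q.ncard) {X : Set V} (hX : Cn G X) (hXQ : ∀ x ∈ X, x ∉ Q)
    (hsm : ∀ x ∈ X, (att G Q {x}).ncard + 3 ≤ q) : (att G Q X).ncard + 3 ≤ q := by
  classical
  -- a maximal connected subset with few attachments
  let F : Set (Set V) := {Y | Y ⊆ X ∧ Cn G Y ∧ (att G Q Y).ncard + 3 ≤ q}
  have hF : F.Nonempty := by
    obtain ⟨x, hx⟩ := hX.1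
    exact ⟨{x}, Set.singleton_subset_iff.2 hx, cn_singleton G x, hsm x hx⟩
  obtain ⟨Y, hY⟩ := (Set.toFinite F).exists_maximal hF
  obtain ⟨hYX, hYc, hYa⟩ := hY.prop
  by_cases hEq : Y = X
  · rw [← hEq]; exact hYa
  · exfalso
    have hne : (X \ Y).Nonempty := by
      rw [Set.sdiff_nonempty]
      intro hXY
      exact hEq (Set.Subset.antisymm hYX hXY)
    obtain ⟨a, ha, b, hb, hab⟩ := hX.2 Y hYX hYc.1 hne
    have hins : Cn G (insert b Y) := cn_insert hYc ha hab
    have hinsX : insert b Y ⊆ X := Set.insert_subset hb.1 hYX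
    have hatt : att G Q (insert b Y) ⊆ att G Q Y ∪ att G Q {b} := by
      rintro t ⟨htQ, x, hx | hx, hxt⟩
      · exact Or.inr ⟨htQ, x, hx, hxt⟩
      · exact Or.inl ⟨htQ, x, hx, hxt⟩
    have hc1 : (att G Q (insert b Y)).ncard ≤ (att G Q Y).ncard + (att G Q {b}).ncard :=
      (Set.ncard_le_ncard hatt (Set.toFinite _)).trans (Set.ncard_union_le _ _)
    have hc2 := hsm b hb.1
    have hd := dichotomy h hQ hins (fun x hx => hXQ x (hinsX hx)) hq
    rcases hd with hd | hd
    · have hmem : insert b Y ∈ F := ⟨hinsX, hins, hd⟩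
      exact hb.2 (hY.le_of_ge hmem (Set.subset_insert b Y) (Set.mem_insert b Y))
    · have hsum : Q.ncard ≤ (att G Q (insert b Y)).ncard + (Q \ att G Q (insert b Y)).ncard := by
        have hsub : Q ⊆ att G Q (insert b Y) ∪ (Q \ att G Q (insert b Y)) := by
          intro t ht
          by_cases h' : t ∈ att G Q (insert b Y)
          · exact Or.inl h'
          · exact Or.inr ⟨ht, h'⟩
        exact (Set.ncard_le_ncard hsub (Set.toFinite _)).trans (Set.ncard_union_le _ _)
      omega

/-- Large cliques consist of pairwise twins, up to a bounded number of vertices. -/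
theorem clique_twins {p q : ℕ} {V : Type} [Fintype V] {G : SimpleGraph V} (h : InClass p q G)
    {Q : Set V} (hQ : ∀ a ∈ Q, ∀ b ∈ Q, a ≠ b → G.Adj a b) (hq : 4 ≤ q)
    (hN : 2 * q + p ≤ Q.ncard) : ∃ E ⊆ Q, E.ncard ≤ p * q ∧
      ∀ a ∈ Q \ E, ∀ b ∈ Q \ E, ∀ w, w ≠ a → w ≠ b → (G.Adj a w ↔ G.Adj b w) := by
  classical
  let Big : Set V := {x | x ∉ Q ∧ q ≤ (att G Q {x}).ncard + 2}
  have hQne : Q.Nonempty := by
    rw [Set.nonempty_iff_ne_empty]
    intro e
    rw [e, Set.ncard_empty] at hN
    omega
  have hS : Cn G (Q ∪ Big) := by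
    obtain ⟨t0, ht0⟩ := hQne
    apply cn_of_base (cn_of_clique G ⟨t0, ht0⟩ hQ) Set.subset_union_left
    intro x hx
    refine ⟨{x}, Set.singleton_subset_iff.2 hx, cn_singleton G x, rfl, ?_⟩
    rcases hx with hx | hx
    · exact Or.inl ⟨x, hx, rfl⟩
    · right
      have hne : (att G Q {x}).Nonempty := by
        rw [Set.nonempty_iff_ne_empty]
        intro e
        have := hx.2
        rw [e, Set.ncard_empty] at this
        omega
      obtain ⟨t, htQ, z, hz, hzt⟩ := hne
      exact ⟨t, htQ, z, hz, hzt.symm⟩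
  have hcomps := ncard_comps h.star hS
  have hsmall : ∀ x, x ∉ Q ∪ Big → (att G Q {x}).ncard + 3 ≤ q := by
    intro x hx
    have h1 : x ∉ Q := fun h' => hx (Or.inl h')
    have h2 : ¬ (q ≤ (att G Q {x}).ncard + 2) := fun h' => hx (Or.inr ⟨h1, h'⟩)
    omega
  let E : Set V := att G Q (Q ∪ Big)ᶜ
  refine ⟨E, fun t ht => ht.1, ?_, ?_⟩
  · -- counting the touched vertices
    have hsub : E ⊆ ⋃ D ∈ Comps G (Q ∪ Big), att G Q D := by
      rintro t ⟨htQ, x, hx, hxt⟩
      simp only [Set.mem_iUnion]
      exact ⟨comp G (Q ∪ Big) x, ⟨x, hx, rfl⟩, htQ, x, mem_comp_self hx, hxt⟩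
    have hfin : (Comps G (Q ∪ Big)).Finite := Set.toFinite _
    have hc : (⋃ D ∈ Comps G (Q ∪ Big), att G Q D).ncard ≤ (Comps G (Q ∪ Big)).ncard * q := by
      have h1 : (⋃ D ∈ Comps G (Q ∪ Big), att G Q D) =
          ⋃ D ∈ hfin.toFinset, att G Q D := by
        simp
      rw [h1]
      refine (Finset.set_ncard_biUnion_le _ _).trans ?_
      rw [Set.ncard_eq_toFinset_card _ hfin]
      rw [← smul_eq_mul]
      apply Finset.sum_le_card_nsmul
      intro D hD
      rw [Set.Finite.mem_toFinset] at hD
      obtain ⟨x, hx, rfl⟩ := hD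
      have := att_small h hQ (by omega) hN (cn_comp hx)
        (fun z hz hzQ => comp_disj hz (Or.inl hzQ)) (fun z hz => hsmall z (comp_disj hz))
      omega
    calc E.ncard ≤ _ := Set.ncard_le_ncard hsub (Set.toFinite _)
      _ ≤ (Comps G (Q ∪ Big)).ncard * q := hc
      _ ≤ p * q := Nat.mul_le_mul_right q (by omega)
  · -- an untouched vertex has the neighbourhood Q ∪ Big
    have key : ∀ a ∈ Q \ E, ∀ w, w ≠ a → (G.Adj a w ↔ w ∈ Q ∪ Big) := by
      intro a ha w hwa
      constructor
      · intro haw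
        by_contra hw
        exact ha.2 ⟨ha.1, w, hw, haw.symm⟩
      · rintro (hw | hw)
        · exact hQ a ha.1 w hw hwa.symm
        · by_contra hnadj
          have haX : a ∉ att G Q {w} := by
            rintro ⟨_, x, hx, hxa⟩
            have hx' : x = w := hx
            exact hnadj (hx' ▸ hxa).symm
          obtain ⟨d, hd, ⟨x, hx, z0, hz0, _⟩, ⟨z, hz, haz⟩, hd3⟩ := exists_comp h hQ
            (cn_singleton G w) (by rintro x hx; have hx' : x = w := hx; rw [hx']; exact hw.1)
            ha.1 haX hw.2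
          -- z is not in Q ∪ Big, and touches a
          apply ha.2
          refine ⟨ha.1, z, ?_, haz.symm⟩
          rintro (hzQ | hzB)
          · exact comp_disj hz (Or.inl hzQ)
          · have hle : (att G Q {z}).ncard ≤ 1 := by
              have hsub : att G Q {z} ⊆ {a} := by
                rintro t ⟨htQ, z', hz', hzt⟩
                have hz'' : z' = z := hz'
                exact hd3 t htQ ⟨z, hz, (hz'' ▸ hzt).symm⟩
              have := Set.ncard_le_ncard hsub (Set.toFinite _)
              rwa [Set.ncard_singleton] at this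
            have := hzB.2
            omega
    intro a ha b hb w hwa hwb
    rw [key a ha w hwa, key b hb w hwb]

end Pool.Agent.H67.WQ
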