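import Pool.Agent.H67.WQ.Layout

set_option autoImplicit false

namespace Pool.Agent.H67.WQ

/-- numbering of a finite set -/
theorem exists_rank {V : Type} [Fintype V] (S : Set V) :
    ∃ ρ : V → ℕ, (∀ v ∈ S, ρ v < S.ncard) ∧ (∀ u ∈ S, ∀ v ∈ S, ρ u = ρ v → u = v) ∧
      ∀ i < S.ncard, ∃ v ∈ S, ρ v = i := by
  classical
  have hc : S.ncard = S.toFinset.card := Set.ncard_eq_toFinset_card' S
  let e := S.toFinset.equivFin
  refine ⟨fun v => if hv : v ∈ S then (e ⟨v, by simpa using hv⟩ : ℕ) else 0, ?_, ?_, ?_⟩
  · intro v hv
    simp only
    rw [dif_pos hv, hc]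
    exact (e _).2
  · intro u hu v hv huv
    simp only at huv
    rw [dif_pos hu, dif_pos hv] at huv
    exact congrArg Subtype.val (e.injective (Fin.ext huv))
  · intro i hi
    rw [hc] at hi
    let v := e.symm ⟨i, hi⟩
    have hv : (v : V) ∈ S := Set.mem_toFinset.1 v.2
    refine ⟨v, hv, ?_⟩
    simp only
    rw [dif_pos hv]
    have : (⟨(v : V), by simpa using hv⟩ : S.toFinset) = v := rfl
    rw [this]
    simp [v]

/-- The number of types needed -/
def typeBound (p m : ℕ) : ℕ :=
  let l := 2 ^ (m + 1 + p)
  let w := (1 + l + l * (3 * l + 1) + 2 * l) + l + 1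
  w + w * l

theorem exists_layout {p m : ℕ} {V : Type} [Fintype V] {G : SimpleGraph V}
    (h : StarFree p G) (hcb : CliqueBound (tq G) m) :
    ∃ (s : Skel (Fin (typeBound p m))) (n : Fin (typeBound p m) → ℕ)
      (ι : V → Fin (typeBound p m) × ℕ), Layout G s n ι := by
  classical
  set l := 2 ^ (m + 1 + p) with hl
  set H := tq G with hH
  have hclH : StarFree p H := h.of_model isModel_tp
  have hlb : LeafBound H l := leafBound hclH hcb
  have hmul : (multi G).ncard < l := multi_lt h hcb
  have hconn := hclH.conn
  have hdeg := count_deg hconn hlb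
  have hdl := dg_lt hconn hlb
  obtain ⟨C0⟩ := hconn.nonempty
  -- the special classes
  let W : Set (TQ G) := {C | dg H C ≠ 2} ∪ multi G ∪ {C0}
  have hWc : W.ncard ≤ (1 + l + l * (3 * l + 1) + 2 * l) + l + 1 := by
    have h1 := Set.ncard_union_le ({C | dg H C ≠ 2} ∪ multi G) {C0}
    have h2 := Set.ncard_union_le {C | dg H C ≠ 2} (multi G)
    rw [Set.ncard_singleton] at h1
    have h3 : W.ncard = ({C | dg H C ≠ 2} ∪ multi G ∪ {C0}).ncard := rfl
    omega
  have hWne : W.Nonempty := ⟨C0, Or.inr rfl⟩
  have hdg2 : ∀ C, C ∉ W → dg H C = 2 := by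
    intro C hC
    by_contra hne
    exact hC (Or.inl (Or.inl hne))
  have hsingle : ∀ C, C ∉ W → ∀ a b, tp G a = C → tp G b = C → a = b := by
    intro C hC a b ha hb
    by_contra hne
    exact hC (Or.inl (Or.inr ⟨a, b, hne, ha, hb⟩))
  -- the number of components
  have hcompsc : (Comps H W).ncard ≤ W.ncard * l := by
    have hsub : Comps H W ⊆ (fun x => comp H W x) '' (⋃ w ∈ W, {x | H.Adj w x}) := by
      rintro D ⟨x, hx, rfl⟩
      obtain ⟨s, hs, y, hy, hsy⟩ := exists_attach hconn hWne hx
      refine ⟨y, ?_, comp_eq hy⟩
      simp only [Set.mem_iUnion]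
      exact ⟨s, hs, hsy⟩
    have h1 := (Set.ncard_le_ncard hsub (Set.toFinite _)).trans
      (Set.ncard_image_le (Set.toFinite _))
    refine h1.trans ?_
    have hfin : W.Finite := Set.toFinite _
    have h2 : (⋃ w ∈ W, {x | H.Adj w x}) = ⋃ w ∈ hfin.toFinset, {x | H.Adj w x} := by
      simp only [Set.Finite.mem_toFinset]
    rw [h2]
    refine (Finset.set_ncard_biUnion_le _ _).trans ?_
    rw [Set.ncard_eq_toFinset_card _ hfin, ← smul_eq_mul]
    apply Finset.sum_le_card_nsmul
    intro w _
    exact le_of_lt (hdl w)
  -- three neighbours are too many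
  have hthree : ∀ C, C ∉ W → ∀ a b c, H.Adj C a → H.Adj C b → H.Adj C c →
      a = b ∨ a = c ∨ b = c := by
    intro C hC a b c ha hb hc
    by_contra hcon
    push Not at hcon
    have h2 := hdg2 C hC
    unfold dg at h2
    have h3 : 2 < {z | H.Adj C z}.ncard := by
      rw [Set.two_lt_ncard_iff]
      exact ⟨a, b, c, ha, hb, hc, hcon.1, hcon.2.1, hcon.2.2⟩
    omega
  -- path enumerations of the components
  have hpath : ∀ D : ↥(Comps H W), ∃ (k : ℕ) (e : ℕ → TQ G), (∀ i ≤ k, e i ∈ (D : Set (TQ G))) ∧
      (∀ v ∈ (D : Set (TQ G)), ∃ i ≤ k, e i = v) ∧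
      (∀ i ≤ k, ∀ j ≤ k, e i = e j → i = j) ∧
      ∀ i ≤ k, ∀ j ≤ k, H.Adj (e i) (e j) ↔ (j = i + 1 ∨ i = j + 1) := by
    rintro ⟨D, x, hx, rfl⟩
    obtain ⟨s, hs, y, hy, hsy⟩ := exists_attach hconn hWne hx
    have hne : (comp H W x).Nonempty := ⟨y, hy⟩
    have hpos : 0 < (comp H W x).ncard := by
      rw [Set.ncard_pos]; exact hne
    obtain ⟨e, _, h1, h2, h3, h4⟩ := path_enum (H := H) ((comp H W x).ncard - 1) (comp H W x) y
      (by omega) (cn_comp hx) hy
      (fun v hv a _ b _ c _ ha hb hc => hthree v (comp_disj hv) a b c ha hb hc)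
      (fun a ha b hb hya hyb => by
        rcases hthree y (comp_disj hy) a b s hya hyb hsy.symm with h' | h' | h'
        · exact h'
        · exact absurd (h' ▸ hs) (comp_disj ha)
        · exact absurd (h' ▸ hs) (comp_disj hb))
    exact ⟨_, e, h1, h2, h3, h4⟩
  choose k e he1 he2 he3 he4 using hpath
  -- ranks in the classes
  have hrank := fun C : TQ G => exists_rank {v | tp G v = C}
  choose ρ hρ1 hρ2 hρ3 using hrank
  -- index in a path
  have hidx : ∀ (D : ↥(Comps H W)) (C : TQ G), ∃ i, C ∈ (D : Set (TQ G)) → i ≤ k D ∧ e D i = C := by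
    intro D C
    by_cases hC : C ∈ (D : Set (TQ G))
    · obtain ⟨i, hi, hiC⟩ := he2 D C hC
      exact ⟨i, fun _ => ⟨hi, hiC⟩⟩
    · exact ⟨0, fun h' => absurd h' hC⟩
  choose idx hidx using hidx
  -- types
  let T := ↥W ⊕ ↥(Comps H W)
  let en : T → Bool → TQ G := fun t a => match t, a with
    | Sum.inl C, _ => C
    | Sum.inr D, false => e D 0
    | Sum.inr D, true => e D (k D)
  let s : Skel T := (fun t => match t with | Sum.inl _ => false | Sum.inr _ => true,
    fun t a u b => decide (H.Adj (en t a) (en u b)))
  let n : T → ℕ := fun t => match t with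
    | Sum.inl C => {v | tp G v = C}.ncard
    | Sum.inr D => k D + 1
  let cD : ∀ C : TQ G, C ∉ W → ↥(Comps H W) := fun C hC => ⟨comp H W C, C, hC, rfl⟩
  let ι : V → T × ℕ := fun v => if hC : tp G v ∈ W then (Sum.inl ⟨tp G v, hC⟩, ρ (tp G v) v)
    else (Sum.inr (cD (tp G v) hC), idx (cD (tp G v) hC) (tp G v))
  have hι1 : ∀ v (hC : tp G v ∈ W), ι v = (Sum.inl ⟨tp G v, hC⟩, ρ (tp G v) v) := by
    intro v hC; simp only [ι]; rw [dif_pos hC]
  have hι2 : ∀ v (hC : tp G v ∉ W), ι v = (Sum.inr (cD (tp G v) hC),
      idx (cD (tp G v) hC) (tp G v)) := by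
    intro v hC; simp only [ι]; rw [dif_neg hC]
  have hmem : ∀ C (hC : C ∉ W), C ∈ ((cD C hC : ↥(Comps H W)) : Set (TQ G)) := fun C hC =>
    mem_comp_self hC
  have hi : ∀ C (hC : C ∉ W), idx (cD C hC) C ≤ k (cD C hC) ∧
      e (cD C hC) (idx (cD C hC) C) = C := fun C hC => hidx _ _ (hmem C hC)
  have hadjG : ∀ u v, G.Adj u v ↔ (tp G u = tp G v ∧ u ≠ v) ∨
      (tp G u ≠ tp G v ∧ H.Adj (tp G u) (tp G v)) := by
    intro u v
    rw [hH, tq_adj]
    by_cases huv : tp G u = tp G v
    · constructor
      · intro hadj
        exact Or.inl ⟨huv, hadj.ne⟩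
      · rintro (⟨_, hne⟩ | ⟨hne, _⟩)
        · exact adj_of_tp_eq huv hne
        · exact absurd huv hne
    · constructor
      · intro hadj
        exact Or.inr ⟨huv, huv, hadj⟩
      · rintro (⟨h', _⟩ | ⟨_, _, h'⟩)
        · exact absurd h' huv
        · exact h'
  have hlay : Layout G s n ι := by
    refine ⟨?_, ?_, ?_, ?_⟩
    · -- injective
      intro u v huv
      by_cases hu : tp G u ∈ W <;> by_cases hv : tp G v ∈ W
      · rw [hι1 u hu, hι1 v hv] at huv
        have h1 : tp G u = tp G v := by
          have := congrArg Prod.fst huv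
          simpa using this
        have h2 : ρ (tp G u) u = ρ (tp G v) v := congrArg Prod.snd huv
        rw [h1] at h2
        exact hρ2 (tp G v) u h1 v rfl h2
      · rw [hι1 u hu, hι2 v hv] at huv
        have := congrArg Prod.fst huv
        simp at this
      · rw [hι2 u hu, hι1 v hv] at huv
        have := congrArg Prod.fst huv
        simp at this
      · rw [hι2 u hu, hι2 v hv] at huv
        have h1 : cD (tp G u) hu = cD (tp G v) hv := by
          have := congrArg Prod.fst huv
          exact Sum.inr_injective this
        have h2 : idx (cD (tp G u) hu) (tp G u) = idx (cD (tp G v) hv) (tp G v) :=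
          congrArg Prod.snd huv
        have h3 : tp G u = tp G v := by
          rw [← (hi _ hu).2, ← (hi _ hv).2, h2, h1]
        exact hsingle _ hv u v h3 rfl
    · intro v
      by_cases hv : tp G v ∈ W
      · rw [hι1 v hv]
        exact hρ1 (tp G v) v rfl
      · rw [hι2 v hv]
        exact Nat.lt_succ_of_le (hi _ hv).1
    · rintro (⟨C, hC⟩ | D) i hin
      · obtain ⟨v, hv, hvi⟩ := hρ3 C i hin
        have hv' : tp G v = C := hv
        subst hv'
        exact ⟨v, by rw [hι1 v hC, hvi]⟩
      · have hin' : i ≤ k D := Nat.le_of_lt_succ hin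
        obtain ⟨v, hv⟩ := tp_surj (e D i)
        have hDi := he1 D i hin'
        obtain ⟨D', x, hx, hDx⟩ := D
        subst hDx
        have hvW : tp G v ∉ W := by
          rw [hv]; exact comp_disj hDi
        have hcDv : cD (tp G v) hvW = ⟨comp H W x, x, hx, rfl⟩ := by
          apply Subtype.ext
          change comp H W (tp G v) = comp H W x
          rw [hv]
          exact comp_eq hDi
        refine ⟨v, ?_⟩
        rw [hι2 v hvW]
        apply Prod.ext
        · exact congrArg Sum.inr hcDv
        · have h1 := hi _ hvW
          change idx (cD (tp G v) hvW) (tp G v) = i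
          apply he3 (cD (tp G v) hvW) _ h1.1 i (by rw [hcDv]; exact hin')
          rw [h1.2, hcDv, hv]
    · -- adjacency
      intro u v
      rw [hadjG]
      have hend : ∀ (w : V) (hw : tp G w ∉ W) (C : TQ G), C ∈ W → H.Adj C (tp G w) →
          ∃ b, port s n (ι w) b ∧ en (ι w).1 b = tp G w := by
        intro w hw C hC hCw
        have h1 := hi _ hw
        rw [hι2 w hw]
        by_cases hz : idx (cD (tp G w) hw) (tp G w) = 0
        · refine ⟨false, Or.inr (Or.inl ⟨rfl, hz⟩), ?_⟩
          have h2 := h1.2
          rw [hz] at h2
          exact h2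
        · by_cases hlast : idx (cD (tp G w) hw) (tp G w) = k (cD (tp G w) hw)
          · refine ⟨true, Or.inr (Or.inr ⟨rfl, by simp only [n]; rw [hlast]⟩), ?_⟩
            have h2 := h1.2
            rw [hlast] at h2
            exact h2
          · exfalso
            set D := cD (tp G w) hw with hD
            set i := idx D (tp G w) with hii
            have hA1 : H.Adj (tp G w) (e D (i - 1)) := by
              rw [← h1.2]
              exact (he4 D i h1.1 (i - 1) (by omega)).2 (Or.inr (by omega))
            have hA2 : H.Adj (tp G w) (e D (i + 1)) := by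
              rw [← h1.2]
              exact (he4 D i h1.1 (i + 1) (by omega)).2 (Or.inl rfl)
            have hm1 : e D (i - 1) ∉ W := by
              have := he1 D (i - 1) (by omega)
              exact comp_disj this
            have hm2 : e D (i + 1) ∉ W := by
              have := he1 D (i + 1) (by omega)
              exact comp_disj this
            rcases hthree _ hw _ _ _ hA1 hA2 hCw.symm with h' | h' | h'
            · have := he3 D (i - 1) (by omega) (i + 1) (by omega) h'
              omega
            · exact hm1 (h' ▸ hC)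
            · exact hm2 (h' ▸ hC)
      have hport : ∀ (w : V) (hw : tp G w ∉ W) (b : Bool), port s n (ι w) b →
          en (ι w).1 b = tp G w := by
        intro w hw b hb
        have h1 := hi _ hw
        rw [hι2 w hw] at hb ⊢
        rcases hb with hb | ⟨hb, h0⟩ | ⟨hb, h0⟩
        · simp [s] at hb
        · subst hb
          have h2 := h1.2
          simp only at h0
          rw [h0] at h2
          exact h2
        · subst hb
          simp only [n] at h0
          have h2 := h1.2
          have : idx (cD (tp G w) hw) (tp G w) = k (cD (tp G w) hw) := by omega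
          rw [this] at h2
          exact h2
      by_cases hu : tp G u ∈ W <;> by_cases hv : tp G v ∈ W
      · rw [hι1 u hu, hι1 v hv]
        constructor
        · rintro (⟨h1, h2⟩ | ⟨h1, h2⟩)
          · left
            refine ⟨congrArg Sum.inl (Subtype.ext h1), ?_, ?_⟩
            · intro he'
              simp only at he'
              rw [h1] at he'
              exact h2 (hρ2 (tp G v) u h1 v rfl he')
            · intro hk
              simp [s] at hk
          · right
            refine ⟨fun he' => h1 ?_, true, true, Or.inl rfl, Or.inl rfl, ?_⟩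
            · exact congrArg Subtype.val (Sum.inl_injective he')
            · simp only [s, en]
              exact decide_eq_true h2
        · rintro (⟨h1, h2, _⟩ | ⟨h1, a, b, _, _, h2⟩)
          · left
            have h3 : tp G u = tp G v := congrArg Subtype.val (Sum.inl_injective h1)
            refine ⟨h3, ?_⟩
            rintro rfl
            exact h2 rfl
          · right
            refine ⟨fun he' => h1 (congrArg Sum.inl (Subtype.ext he')), ?_⟩
            simp only [s, en] at h2
            exact of_decide_eq_true h2
      · have hne : tp G u ≠ tp G v := fun he' => hv (he' ▸ hu)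
        constructor
        · rintro (⟨h1, _⟩ | ⟨_, h2⟩)
          · exact absurd h1 hne
          · right
            obtain ⟨b, hb, heb⟩ := hend v hv _ hu h2
            refine ⟨?_, true, b, ?_, hb, ?_⟩
            · rw [hι1 u hu, hι2 v hv]; simp
            · rw [hι1 u hu]; exact Or.inl rfl
            · have : en (ι u).1 true = tp G u := by rw [hι1 u hu]
              simp only [s]
              rw [this, heb]
              exact decide_eq_true h2
        · rintro (⟨h1, _, _⟩ | ⟨h1, a, b, _, hb, h2⟩)
          · rw [hι1 u hu, hι2 v hv] at h1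
            simp at h1
          · right
            refine ⟨hne, ?_⟩
            have h3 := hport v hv b hb
            have : en (ι u).1 a = tp G u := by rw [hι1 u hu]
            simp only [s] at h2
            rw [this, h3] at h2
            exact of_decide_eq_true h2
      · have hne : tp G u ≠ tp G v := fun he' => hu (he' ▸ hv)
        constructor
        · rintro (⟨h1, _⟩ | ⟨_, h2⟩)
          · exact absurd h1 hne
          · right
            obtain ⟨b, hb, heb⟩ := hend u hu _ hv h2.symm
            refine ⟨?_, b, true, hb, ?_, ?_⟩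
            · rw [hι2 u hu, hι1 v hv]; simp
            · rw [hι1 v hv]; exact Or.inl rfl
            · have : en (ι v).1 true = tp G v := by rw [hι1 v hv]
              simp only [s]
              rw [this, heb]
              exact decide_eq_true h2
        · rintro (⟨h1, _, _⟩ | ⟨h1, a, b, ha, _, h2⟩)
          · rw [hι2 u hu, hι1 v hv] at h1
            simp at h1
          · right
            refine ⟨hne, ?_⟩
            have h3 := hport u hu a ha
            have : en (ι v).1 b = tp G v := by rw [hι1 v hv]
            simp only [s] at h2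
            rw [this, h3] at h2
            exact of_decide_eq_true h2
      · -- both in paths
        have hiu := hi _ hu
        have hiv := hi _ hv
        by_cases hD : cD (tp G u) hu = cD (tp G v) hv
        · have hty : (ι u).1 = (ι v).1 := by
            rw [hι2 u hu, hι2 v hv]
            exact congrArg Sum.inr hD
          have hkind : s.1 (ι u).1 = true := by rw [hι2 u hu]
          rw [hD] at hiu
          have hHadj : H.Adj (tp G u) (tp G v) ↔
              ((ι u).2 = (ι v).2 + 1 ∨ (ι v).2 = (ι u).2 + 1) := by
            rw [hι2 u hu, hι2 v hv]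
            simp only
            rw [hD]
            have := he4 (cD (tp G v) hv) _ hiu.1 _ hiv.1
            rw [hiu.2, hiv.2] at this
            rw [this]
            tauto
          constructor
          · rintro (⟨h1, h2⟩ | ⟨h1, h2⟩)
            · exact absurd (hsingle _ hv u v h1 rfl) h2
            · left
              have h3 := hHadj.1 h2
              exact ⟨hty, by omega, fun _ => h3⟩
          · rintro (⟨_, h1, h2⟩ | ⟨h1, _⟩)
            · right
              have h3 := h2 hkind
              have h4 := hHadj.2 h3
              exact ⟨h4.ne, h4⟩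
            · exact absurd hty h1
        · have hnadj : ¬ H.Adj (tp G u) (tp G v) := by
            intro hadj
            apply hD
            apply Subtype.ext
            exact comp_eq_of_adj hu hv hadj
          have hne : tp G u ≠ tp G v := by
            intro he'
            apply hD
            apply Subtype.ext
            change comp H W (tp G u) = comp H W (tp G v)
            rw [he']
          constructor
          · rintro (⟨h1, _⟩ | ⟨_, h2⟩)
            · exact absurd h1 hne
            · exact absurd h2 hnadj
          · rintro (⟨h1, _, _⟩ | ⟨h1, a, b, ha, hb, h2⟩)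
            · exfalso
              rw [hι2 u hu, hι2 v hv] at h1
              exact hD (Sum.inr_injective h1)
            · exfalso
              simp only [s] at h2
              have h3 := hport u hu a ha
              have h4 := hport v hv b hb
              rw [h3, h4] at h2
              exact hnadj (of_decide_eq_true h2)
  -- number of types
  have hTc : Fintype.card T ≤ typeBound p m := by
    rw [Fintype.card_sum]
    have e1 : Fintype.card ↥W = W.ncard := by
      rw [Set.ncard_eq_toFinset_card', Set.toFinset_card]
    have e2 : Fintype.card ↥(Comps H W) = (Comps H W).ncard := by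
      rw [Set.ncard_eq_toFinset_card', Set.toFinset_card]
    rw [e1, e2]
    have e3 : W.ncard * l ≤ ((1 + l + l * (3 * l + 1) + 2 * l) + l + 1) * l :=
      Nat.mul_le_mul_right l hWc
    have e4 : typeBound p m = ((1 + l + l * (3 * l + 1) + 2 * l) + l + 1) +
      ((1 + l + l * (3 * l + 1) + 2 * l) + l + 1) * l := rfl
    rw [e4]
    omega
  obtain ⟨j⟩ : Nonempty (T ↪ Fin (typeBound p m)) := by
    apply Function.Embedding.nonempty_of_card_le
    rw [Fintype.card_fin]; exact hTc
  exact hlay.map j j.injective

end Pool.Agent.H67.WQ
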