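import Pool.Agent.H67.WQ.OscFree

set_option autoImplicit false

namespace Pool.Agent.H67.WQ

/-! ### Permutations and isomorphisms -/

theorem exists_perm {m k : ℕ} (hk : k ≤ m) (φ : Fin k → Fin m) (hφ : Function.Injective φ) :
    ∃ σ : Equiv.Perm (Fin m), ∀ i : Fin k, (σ (φ i) : ℕ) = i := by
  classical
  let e : {x // x ∈ Set.range φ} ≃ {x // x ∈ Set.range (Fin.castLE hk)} :=
    (Equiv.ofInjective φ hφ).symm.trans (Equiv.ofInjective _ (Fin.castLE_injective hk))
  refine ⟨e.extendSubtype, fun i => ?_⟩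
  rw [Equiv.extendSubtype_apply_of_mem e (φ i) ⟨i, rfl⟩]
  have : (Equiv.ofInjective φ hφ).symm ⟨φ i, ⟨i, rfl⟩⟩ = i :=
    Equiv.ofInjective_symm_apply hφ i
  simp only [e, Equiv.trans_apply]
  rw [this]
  rfl

theorem star_iso {h : ℕ} (G : SimpleGraph (Fin h)) (c : Fin h)
    (hc : ∀ i j, G.Adj i j ↔ i ≠ j ∧ (i = c ∨ j = c)) : ∃ p, Nonempty (G ≃g (star p).G) := by
  obtain _ | h := h
  · exact c.elim0
  obtain ⟨σ, hσ⟩ := exists_perm (m := h + 1) (k := 1) (by omega) (fun _ => c)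
    (fun _ _ _ => Subsingleton.elim _ _)
  have h0 : (σ c : ℕ) = 0 := hσ 0
  have key : ∀ i, (σ i : ℕ) = 0 ↔ i = c := by
    intro i
    constructor
    · intro hi
      exact σ.injective (Fin.ext (hi.trans h0.symm))
    · rintro rfl; exact h0
  refine ⟨h, ⟨⟨σ, ?_⟩⟩⟩
  intro i j
  change (σ i ≠ σ j ∧ ((σ i : ℕ) = 0 ∨ (σ j : ℕ) = 0)) ↔ G.Adj i j
  rw [hc, key, key, σ.injective.ne_iff]

theorem starPlus_iso {h : ℕ} (G : SimpleGraph (Fin h)) (c d : Fin h) (hcd : c ≠ d)
    (hc : ∀ i j, G.Adj i j ↔ i ≠ j ∧ (i = c ∨ i = d ∨ j = c ∨ j = d)) :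
    ∃ p, Nonempty (G ≃g (starPlus p).G) := by
  have h2 : 2 ≤ h := by
    have h1 := c.2
    have h2 := d.2
    by_contra hlt
    apply hcd
    apply Fin.ext
    omega
  obtain ⟨p, rfl⟩ : ∃ p, h = p + 2 := ⟨h - 2, by omega⟩
  obtain ⟨σ, hσ⟩ := exists_perm (m := p + 2) (k := 2) (by omega) ![c, d] (by
    intro i j hij
    fin_cases i <;> fin_cases j
    · rfl
    · exact absurd hij hcd
    · exact absurd hij.symm hcd
    · rfl)
  have h0 : (σ c : ℕ) = 0 := hσ 0
  have h1 : (σ d : ℕ) = 1 := hσ 1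
  have key : ∀ i, (σ i : ℕ) < 2 ↔ (i = c ∨ i = d) := by
    intro i
    constructor
    · intro hi
      have : (σ i : ℕ) = 0 ∨ (σ i : ℕ) = 1 := by omega
      rcases this with hh | hh
      · left; exact σ.injective (Fin.ext (hh.trans h0.symm))
      · right; exact σ.injective (Fin.ext (hh.trans h1.symm))
    · rintro (rfl | rfl) <;> omega
  refine ⟨p, ⟨⟨σ, ?_⟩⟩⟩
  intro i j
  change (σ i ≠ σ j ∧ ((σ i : ℕ) < 2 ∨ (σ j : ℕ) < 2)) ↔ G.Adj i j
  rw [hc, key, key, σ.injective.ne_iff]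
  tauto

theorem coMatch_iso {h : ℕ} (G : SimpleGraph (Fin h)) (a : ℕ) (φ : Fin (2 * a) → Fin h)
    (hφ : Function.Injective φ)
    (h1 : ∀ s t, s ≠ t → (G.Adj (φ s) (φ t) ↔ ¬ ((s : ℕ) / 2 = (t : ℕ) / 2)))
    (h2 : ∀ i j, i ≠ j → i ∉ Set.range φ → G.Adj i j) : Nonempty (G ≃g (coMatch h a).G) := by
  have hle : 2 * a ≤ h := by
    have := Fintype.card_le_of_injective φ hφ
    simpa using this
  obtain ⟨σ, hσ⟩ := exists_perm hle φ hφ
  have key : ∀ i, (σ i : ℕ) / 2 < a → ∃ s, φ s = i := by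
    intro i hi
    refine ⟨⟨σ i, by omega⟩, ?_⟩
    apply σ.injective
    apply Fin.ext
    rw [hσ]
  refine ⟨⟨σ, ?_⟩⟩
  intro i j
  change (σ i ≠ σ j ∧ ¬ ((σ i : ℕ) / 2 = (σ j : ℕ) / 2 ∧ (σ i : ℕ) / 2 < a)) ↔ G.Adj i j
  rw [σ.injective.ne_iff]
  by_cases hij : i = j
  · subst hij
    simp
  by_cases hi : ∃ s, φ s = i
  · by_cases hj : ∃ t, φ t = j
    · obtain ⟨s, rfl⟩ := hi
      obtain ⟨t, rfl⟩ := hj
      have hst : s ≠ t := fun e => hij (e ▸ rfl)
      rw [h1 s t hst, hσ, hσ]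
      have := s.2
      constructor
      · rintro ⟨_, h⟩ h'
        exact h ⟨h', by omega⟩
      · intro h
        exact ⟨hij, fun h' => h h'.1⟩
    · have hadj : G.Adj i j := (h2 j i (Ne.symm hij) (by rintro ⟨t, ht⟩; exact hj ⟨t, ht⟩)).symm
      refine ⟨fun _ => hadj, fun _ => ⟨hij, ?_⟩⟩
      rintro ⟨h', h''⟩
      exact hj (key j (by omega))
  · have hadj : G.Adj i j := h2 i j hij (by rintro ⟨t, ht⟩; exact hi ⟨t, ht⟩)
    refine ⟨fun _ => hadj, fun _ => ⟨hij, ?_⟩⟩
    rintro ⟨h', h''⟩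
    exact hi (key i h'')

theorem exists_of_not_inj {α β : Type} {f : α → β} (h : ¬ Function.Injective f) :
    ∃ x y, f x = f y ∧ x ≠ y := by
  by_contra hcon
  apply h
  intro x y hxy
  by_contra hne
  exact hcon ⟨x, y, hxy, hne⟩

/-! ### The graphs `K_{2,n}` -/

/-- the complete bipartite graph `K_{2,n}` -/
def k2 (n : ℕ) : SimpleGraph (Fin n ⊕ Bool) where
  Adj x y := x.isLeft ≠ y.isLeft
  symm := ⟨fun _ _ h => Ne.symm h⟩
  loopless := ⟨fun _ h => h rfl⟩

theorem k2_connected {n : ℕ} (hn : 1 ≤ n) : (k2 n).Connected := by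
  have hr : ∀ b, (k2 n).Reachable (Sum.inl ⟨0, hn⟩) (Sum.inr b) := by
    intro b
    have : (k2 n).Adj (Sum.inl ⟨0, hn⟩) (Sum.inr b) := by simp [k2]
    exact this.reachable
  have hall : ∀ x, (k2 n).Reachable (Sum.inl ⟨0, hn⟩) x := by
    rintro (i | b)
    · refine (hr true).trans ?_
      have : (k2 n).Adj (Sum.inr true) (Sum.inl i) := by simp [k2]
      exact this.reachable
    · exact hr b
  have : Nonempty (Fin n ⊕ Bool) := ⟨Sum.inr true⟩
  exact ⟨fun x y => (hall x).symm.trans (hall y)⟩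

/-- `H` has a vertex adjacent to all others -/
def Univ {W : Type} (H : SimpleGraph W) : Prop := ∃ u, ∀ w, w ≠ u → H.Adj u w

/-- stars and stars plus, inside out -/
def SL {W : Type} (H : SimpleGraph W) : Prop :=
  (∃ c, ∀ i j, H.Adj i j ↔ i ≠ j ∧ (i = c ∨ j = c)) ∨
  (∃ c d, c ≠ d ∧ ∀ i j, H.Adj i j ↔ i ≠ j ∧ (i = c ∨ i = d ∨ j = c ∨ j = d))

theorem SL.univ {W : Type} {H : SimpleGraph W} (h : SL H) : Univ H := by
  rcases h with ⟨c, h⟩ | ⟨c, d, _, h⟩
  · exact ⟨c, fun w hw => (h _ _).2 ⟨hw.symm, Or.inl rfl⟩⟩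
  · exact ⟨c, fun w hw => (h _ _).2 ⟨hw.symm, Or.inl rfl⟩⟩

theorem k2_contr {n : ℕ} {W : Type} {H : SimpleGraph W} {f : Fin n ⊕ Bool → W}
    (hf : IsModel (k2 n) H f) (hinj : ¬ Function.Injective f) : SL H := by
  -- vertices other than the two centres
  have hleaf : ∀ w, w ≠ f (Sum.inr true) → w ≠ f (Sum.inr false) →
      ∃ i, f (Sum.inl i) = w := by
    intro w h1 h2
    obtain ⟨x, rfl⟩ := hf.surj w
    rcases x with i | b
    · exact ⟨i, rfl⟩
    · cases b
      · exact absurd rfl h2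
      · exact absurd rfl h1
  have hnon : ∀ w w', w ≠ f (Sum.inr true) → w ≠ f (Sum.inr false) → w' ≠ f (Sum.inr true) →
      w' ≠ f (Sum.inr false) → ¬ H.Adj w w' := by
    intro w w' h1 h2 h3 h4 h
    obtain ⟨_, x, y, hx, hy, hxy⟩ := (hf.2 _ _).1 h
    rcases x with i | b
    · rcases y with j | b
      · exact hxy rfl
      · cases b
        · exact h4 hy.symm
        · exact h3 hy.symm
    · cases b
      · exact h2 hx.symm
      · exact h1 hx.symm
  have hadj : ∀ b w, w ≠ f (Sum.inr true) → w ≠ f (Sum.inr false) →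
      H.Adj (f (Sum.inr b)) w := by
    intro b w h1 h2
    obtain ⟨i, hi⟩ := hleaf w h1 h2
    refine (hf.2 _ _).2 ⟨?_, Sum.inr b, Sum.inl i, rfl, hi, by simp [k2]⟩
    cases b
    · exact h2.symm
    · exact h1.symm
  by_cases hcd : f (Sum.inr true) = f (Sum.inr false)
  · left
    refine ⟨f (Sum.inr true), fun i j => ?_⟩
    constructor
    · intro h
      refine ⟨h.ne, ?_⟩
      by_contra hcon
      push Not at hcon
      exact hnon i j hcon.1 (hcd ▸ hcon.1) hcon.2 (hcd ▸ hcon.2) h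
    · rintro ⟨hne, rfl | rfl⟩
      · exact hadj true j hne.symm (hcd ▸ hne.symm)
      · exact (hadj true i hne (hcd ▸ hne)).symm
  · right
    -- the two centres are adjacent
    have hcc : H.Adj (f (Sum.inr true)) (f (Sum.inr false)) := by
      obtain ⟨x, y, hxy, hne⟩ := exists_of_not_inj hinj
      obtain ⟨a, ha, b, hb, hab⟩ := (hf.1 (f y)).2 {x} (by
        rintro _ rfl; exact hxy) ⟨x, rfl⟩
        ⟨y, rfl, fun e => hne (Set.mem_singleton_iff.1 e).symm⟩
      have ha' : a = x := ha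
      have hab' : f a = f b := by
        rw [ha', hxy]; exact hb.1.symm
      -- one of a, b is a leaf, the other a centre
      have main : ∀ (i : Fin n) (t : Bool), f (Sum.inl i) = f (Sum.inr t) →
          H.Adj (f (Sum.inr true)) (f (Sum.inr false)) := by
        intro i t hit
        cases t
        · exact (hf.2 _ _).2 ⟨hcd, Sum.inr true, Sum.inl i, rfl, hit, by simp [k2]⟩
        · exact (hf.2 _ _).2 ⟨hcd, Sum.inl i, Sum.inr false, hit, rfl, by simp [k2]⟩
      rcases a with i | t <;> rcases b with i' | t'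
      · exact absurd rfl hab
      · exact main i t' hab'
      · exact main i' t hab'.symm
      · exact absurd rfl hab
    refine ⟨f (Sum.inr true), f (Sum.inr false), hcd, fun i j => ?_⟩
    constructor
    · intro h
      refine ⟨h.ne, ?_⟩
      by_contra hcon
      push Not at hcon
      exact hnon i j hcon.1 hcon.2.1 hcon.2.2.1 hcon.2.2.2 h
    · rintro ⟨hne, h⟩
      have main : ∀ i j, i ≠ j → (i = f (Sum.inr true) ∨ i = f (Sum.inr false)) → H.Adj i j := by
        intro i j hne h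
        by_cases hj1 : j = f (Sum.inr true)
        · rcases h with h | h
          · exact absurd (h.trans hj1.symm) hne
          · rw [h, hj1]; exact hcc.symm
        · by_cases hj2 : j = f (Sum.inr false)
          · rcases h with h | h
            · rw [h, hj2]; exact hcc
            · exact absurd (h.trans hj2.symm) hne
          · rcases h with h | h
            · rw [h]; exact hadj true j hj1 hj2
            · rw [h]; exact hadj false j hj1 hj2
      rcases h with h | h | h | h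
      · exact main i j hne (Or.inl h)
      · exact main i j hne (Or.inr h)
      · exact (main j i hne.symm (Or.inl h)).symm
      · exact (main j i hne.symm (Or.inr h)).symm

theorem k2_not_univ {n : ℕ} (hn : 2 ≤ n) : ¬ Univ (k2 n) := by
  rintro ⟨u, hu⟩
  rcases u with i | b
  · obtain ⟨j, hj⟩ : ∃ j : Fin n, j ≠ i := by
      by_cases h : i = ⟨0, by omega⟩
      · exact ⟨⟨1, by omega⟩, by rw [h]; simp⟩
      · exact ⟨⟨0, by omega⟩, fun e => h e.symm⟩
    exact hu (Sum.inl j) (by simpa using hj) rfl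
  · exact hu (Sum.inr (!b)) (by simp) rfl

/-! ### The cocktail party graphs -/

/-- the cocktail party graph -/
def cp (n : ℕ) : SimpleGraph (Fin n × Bool) where
  Adj x y := x.1 ≠ y.1
  symm := ⟨fun _ _ h => Ne.symm h⟩
  loopless := ⟨fun _ h => h rfl⟩

theorem cp_connected {n : ℕ} (hn : 2 ≤ n) : (cp n).Connected := by
  have h01 : ∀ b b', (cp n).Adj (⟨0, by omega⟩, b) (⟨1, by omega⟩, b') := by
    intro b b'
    simp [cp]
  have hall : ∀ x, (cp n).Reachable (⟨0, by omega⟩, true) x := by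
    rintro ⟨i, b⟩
    by_cases hi : i = ⟨0, by omega⟩
    · have h1 : (cp n).Adj (i, b) (⟨1, by omega⟩, b) := by
        rw [hi]; exact h01 _ _
      exact (h01 true b).reachable.trans h1.symm.reachable
    · have h1 : (cp n).Adj (⟨0, by omega⟩, true) (i, b) := fun e => hi e.symm
      exact h1.reachable
  have : Nonempty (Fin n × Bool) := ⟨(⟨0, by omega⟩, true)⟩
  exact ⟨fun x y => (hall x).symm.trans (hall y)⟩

/-- a vertex adjacent to all others exists, and every vertex has at most one nonneighbour -/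
def ML {W : Type} (H : SimpleGraph W) : Prop :=
  Univ H ∧ ∀ u v w, v ≠ u → w ≠ u → ¬ H.Adj u v → ¬ H.Adj u w → v = w

theorem cp_contr {n : ℕ} {W : Type} {H : SimpleGraph W} {f : Fin n × Bool → W}
    (hf : IsModel (cp n) H f) (hinj : ¬ Function.Injective f) : ML H := by
  constructor
  · obtain ⟨x, y, hxy, hne⟩ := exists_of_not_inj hinj
    obtain ⟨a, ha, b, hb, hab⟩ := (hf.1 (f y)).2 {x} (by
      rintro _ rfl; exact hxy) ⟨x, rfl⟩
      ⟨y, rfl, fun e => hne (Set.mem_singleton_iff.1 e).symm⟩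
    have ha' : a = x := ha
    have hfa : f a = f y := by rw [ha', hxy]
    have hfb : f b = f y := hb.1
    refine ⟨f y, fun w hw => ?_⟩
    obtain ⟨z, rfl⟩ := hf.surj w
    by_cases hz : a.1 = z.1
    · exact (hf.2 _ _).2 ⟨hw.symm, b, z, hfb, rfl, fun e => hab (hz.trans e.symm)⟩
    · exact (hf.2 _ _).2 ⟨hw.symm, a, z, hfa, rfl, hz⟩
  · intro u v w hv hw h1 h2
    obtain ⟨x, rfl⟩ := hf.surj u
    obtain ⟨y, rfl⟩ := hf.surj v
    obtain ⟨z, rfl⟩ := hf.surj w
    have e1 : x.1 = y.1 := by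
      by_contra h
      exact h1 ((hf.2 _ _).2 ⟨hv.symm, x, y, rfl, rfl, h⟩)
    have e2 : x.1 = z.1 := by
      by_contra h
      exact h2 ((hf.2 _ _).2 ⟨hw.symm, x, z, rfl, rfl, h⟩)
    have e3 : x.2 ≠ y.2 := fun e => hv (congrArg f (Prod.ext e1 e)).symm
    have e4 : x.2 ≠ z.2 := fun e => hw (congrArg f (Prod.ext e2 e)).symm
    have e5 : y.2 = z.2 := by
      revert e3 e4
      cases x.2 <;> cases y.2 <;> cases z.2 <;> simp
    exact congrArg f (Prod.ext (e1.symm.trans e2) e5)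

theorem cp_not_univ {n : ℕ} : ¬ Univ (cp n) := by
  rintro ⟨u, hu⟩
  exact hu (u.1, !u.2) (by
    intro e
    have := congrArg Prod.snd e
    simp at this) rfl

/-! ### graphs on arbitrary finite types as `FG` -/

/-- the graph on `Fin (card V)` -/
noncomputable def toFG {V : Type} [Fintype V] (G : SimpleGraph V) : FG :=
  ⟨Fintype.card V, G.overFin rfl⟩

theorem toFG_iso {V : Type} [Fintype V] (G : SimpleGraph V) : Nonempty (G ≃g (toFG G).G) :=
  ⟨SimpleGraph.overFinIso _ rfl⟩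

theorem contractsTo_toFG {V : Type} [Fintype V] (G : SimpleGraph V) (H : FG) :
    ContractsTo (toFG G) H ↔ Contr G H.G := by
  rw [contractsTo_iff]
  obtain ⟨e⟩ := toFG_iso G
  exact ⟨fun h => (Contr.of_iso e).trans h, fun h => (Contr.of_iso e.symm).trans h⟩

theorem toFG_connected {V : Type} [Fintype V] {G : SimpleGraph V} (h : G.Connected) :
    (toFG G).G.Connected := by
  obtain ⟨e⟩ := toFG_iso G
  exact (SimpleGraph.Iso.connected_iff e).1 h

theorem contr_univ {V W : Type} {G : SimpleGraph V} {H : SimpleGraph W} (e : G ≃g H)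
    (h : Univ H) : Univ G := by
  obtain ⟨u, hu⟩ := h
  refine ⟨e.symm u, fun w hw => ?_⟩
  rw [← e.map_adj_iff]
  simp only [RelIso.apply_symm_apply]
  apply hu
  intro he
  apply hw
  rw [← he]
  simp

/-- infinitely many members of a connected antichain contract to `H₁` or `H₂` -/
theorem fam {H₁ H₂ : FG} (F : ℕ → FG) (hconn : ∀ n, (F n).G.Connected)
    (hanti : ∀ i j, i < j → ¬ ContractsTo (F j) (F i)) (hw : WQO (Cl H₁ H₂)) (N : ℕ) :
    ∃ n, N ≤ n ∧ (ContractsTo (F n) H₁ ∨ ContractsTo (F n) H₂) := by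
  by_contra hcon
  push Not at hcon
  obtain ⟨i, j, hij, h⟩ := hw (fun i => F (N + i)) (fun i =>
    ⟨hconn _, (hcon (N + i) (by omega)).1, (hcon (N + i) (by omega)).2⟩)
  exact hanti _ _ (by omega) h

theorem pigeon {P Q : ℕ → Prop} (h : ∀ N, ∃ n, N ≤ n ∧ (P n ∨ Q n)) :
    (∀ N, ∃ n, N ≤ n ∧ P n) ∨ (∀ N, ∃ n, N ≤ n ∧ Q n) := by
  by_contra hcon
  push Not at hcon
  obtain ⟨⟨N1, h1⟩, ⟨N2, h2⟩⟩ := hcon
  obtain ⟨n, hn, h' | h'⟩ := h (max N1 N2)
  · exact h1 n (le_trans (le_max_left _ _) hn) h'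
  · exact h2 n (le_trans (le_max_right _ _) hn) h'

theorem not_inj_of_card {V : Type} [Fintype V] {h : ℕ} (f : V → Fin h)
    (hc : h < Fintype.card V) : ¬ Function.Injective f := by
  intro hinj
  have := Fintype.card_le_of_injective f hinj
  simp at this
  omega

end Pool.Agent.H67.WQ
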