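import Pool.Agent.H67.WQ.Str

set_option autoImplicit false

namespace Pool.Agent.H67.WQ

/-- a projection of a part onto a core -/
structure CoreD {V : Type} (G : SimpleGraph V) (P B : Set V) (π : V → V) : Prop where
  sub : B ⊆ P
  maps : ∀ z ∈ P, π z ∈ B
  fix : ∀ b ∈ B, π b = b
  fib : ∀ b ∈ B, Cn G {z | z ∈ P ∧ π z = b}
  edge : ∀ z ∈ P, ∀ z' ∈ P, G.Adj z z' → π z ≠ π z' → π z = z ∧ π z' = z'

/-- `w` separates `z` from `x` and `y` -/
def Dom {V : Type} (G : SimpleGraph V) (P : Set V) (x y w z : V) : Prop :=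
  w ≠ z ∧ ∀ T ⊆ P, Cn G T → w ∉ T → z ∈ T → x ∉ T ∧ y ∉ T

section dom
variable {V : Type} {G : SimpleGraph V} {P : Set V} {x y w w' z : V}

theorem Dom.ne_x (h : Dom G P x y w z) (hz : z ∈ P) : z ≠ x := by
  rintro rfl
  exact (h.2 {z} (Set.singleton_subset_iff.2 hz) (cn_singleton G z) (fun e => h.1 e) rfl).1 rfl

theorem comp_in {z : V} : comp G (Pᶜ ∪ {w}) z ⊆ P ∧ w ∉ comp G (Pᶜ ∪ {w}) z := by
  refine ⟨fun x hx => ?_, fun hw => comp_disj hw (Or.inr rfl)⟩
  by_contra hxP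
  exact comp_disj hx (Or.inl hxP)

theorem notin_of {z : V} (hz : z ∈ P) (hne : z ≠ w) : z ∉ Pᶜ ∪ {w} := by
  rintro (h1 | h1)
  · exact h1 hz
  · exact hne h1

theorem comp_attach (hP : Cn G P) {z : V} (hz : z ∈ P) (hw : w ∈ P) (hne : z ≠ w) :
    Cn G (insert w (comp G (Pᶜ ∪ {w}) z)) := by
  obtain ⟨a, ha, b, hb, hab⟩ := hP.2 (comp G (Pᶜ ∪ {w}) z) comp_in.1
    ⟨z, mem_comp_self (notin_of hz hne)⟩ ⟨w, hw, comp_in.2⟩
  by_cases hbw : b = w
  · exact cn_insert (cn_comp (notin_of hz hne)) ha (hbw ▸ hab)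
  · exact absurd (comp_closed ha (notin_of hb.1 hbw) hab) hb.2

theorem insert_in (hw : w ∈ P) {z : V} : insert w (comp G (Pᶜ ∪ {w}) z) ⊆ P := by
  rintro a (rfl | ha)
  · exact hw
  · exact comp_in.1 ha

theorem dom_antisymm (hP : Cn G P) (hx : x ∈ P) (hw : w ∈ P) (hz : z ∈ P)
    (h : Dom G P x y w z) (h' : Dom G P x y z w) : False := by
  have hxw : x ≠ w := (h'.ne_x hw).symm
  have hxz : x ≠ z := (h.ne_x hz).symm
  have hzC : z ∉ comp G (Pᶜ ∪ {w}) x := fun hzC =>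
    (h.2 _ comp_in.1 (cn_comp (notin_of hx hxw)) comp_in.2 hzC).1
      (mem_comp_self (notin_of hx hxw))
  refine (h'.2 _ (insert_in hw) (comp_attach hP hx hw hxw) ?_ (Or.inl rfl)).1
    (Or.inr (mem_comp_self (notin_of hx hxw)))
  rintro (e | hz')
  · exact h.1 e.symm
  · exact hzC hz'

theorem dom_trans (hP : Cn G P) (hx : x ∈ P) (hw : w ∈ P) (hz : z ∈ P)
    (h : Dom G P x y w z) (h' : Dom G P x y w' w) : Dom G P x y w' z := by
  refine ⟨?_, fun T hTP hT hwT hzT => ?_⟩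
  · rintro rfl
    exact dom_antisymm hP hx hw hz h h'
  · by_cases hwT' : w ∈ T
    · exact h'.2 T hTP hT hwT hwT'
    · exact h.2 T hTP hT hwT' hzT

theorem dom_chain (hP : Cn G P) (hw : w ∈ P) (hw' : w' ∈ P) (hz : z ∈ P)
    (h : Dom G P x y w z) (h' : Dom G P x y w' z) (hne : w ≠ w') :
    Dom G P x y w w' ∨ Dom G P x y w' w := by
  have hzw : z ∉ Pᶜ ∪ {w} := notin_of hz h.1.symm
  by_cases hC : w' ∈ comp G (Pᶜ ∪ {w}) z
  · left
    refine ⟨hne, fun T hTP hT hwT hwT' => ?_⟩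
    have := h.2 (comp G (Pᶜ ∪ {w}) z ∪ T) (Set.union_subset comp_in.1 hTP)
      (cn_union G (cn_comp hzw) hT (Or.inl ⟨w', hC, hwT'⟩))
      (by
        rintro (h1 | h1)
        · exact comp_in.2 h1
        · exact hwT h1) (Or.inl (mem_comp_self hzw))
    exact ⟨fun hh => this.1 (Or.inr hh), fun hh => this.2 (Or.inr hh)⟩
  · right
    refine ⟨hne.symm, fun T hTP hT hwT hwT' => ?_⟩
    have := h'.2 (insert w (comp G (Pᶜ ∪ {w}) z) ∪ T) (Set.union_subset (insert_in hw) hTP)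
      (cn_union G (comp_attach hP hz hw h.1.symm) hT (Or.inl ⟨w, Or.inl rfl, hwT'⟩))
      (by
        rintro ((h1 | h1) | h1)
        · exact hne h1.symm
        · exact hC h1
        · exact hwT h1) (Or.inl (Or.inr (mem_comp_self hzw)))
    exact ⟨fun hh => this.1 (Or.inr hh), fun hh => this.2 (Or.inr hh)⟩

theorem dom_adj {b z' : V} (h : Dom G P x y b z) (hz : z ∈ P) (hadj : G.Adj z z')
    (hne : b ≠ z') : Dom G P x y b z' := by
  refine ⟨hne, fun T hTP hT hbT hzT => ?_⟩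
  have := h.2 (insert z T) (by
    rintro a (rfl | ha)
    · exact hz
    · exact hTP ha) (cn_insert hT hzT hadj.symm) (by
      rintro (e | hb)
      · exact h.1 e
      · exact hbT hb) (Or.inl rfl)
  exact ⟨fun hh => this.1 (Or.inr hh), fun hh => this.2 (Or.inr hh)⟩

theorem dom_top [Finite V] (hP : Cn G P) (hx : x ∈ P) :
    ∀ (k : ℕ) (w : V), {u | u ∈ P ∧ Dom G P x y u w}.ncard ≤ k → w ∈ P → z ∈ P →
    Dom G P x y w z → ∃ b ∈ P, (∀ u ∈ P, ¬ Dom G P x y u b) ∧ Dom G P x y b z := by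
  intro k
  induction k with
  | zero =>
    intro w hk hw hz h
    refine ⟨w, hw, fun u hu hd => ?_, h⟩
    have h0 : {u | u ∈ P ∧ Dom G P x y u w}.ncard = 0 := by omega
    rw [Set.ncard_eq_zero (Set.toFinite _)] at h0
    have : u ∈ {u | u ∈ P ∧ Dom G P x y u w} := ⟨hu, hd⟩
    rw [h0] at this
    exact this
  | succ k ih =>
    intro w hk hw hz h
    by_cases hcon : ∀ u ∈ P, ¬ Dom G P x y u w
    · exact ⟨w, hw, hcon, h⟩
    · push Not at hcon
      obtain ⟨u, hu, hd⟩ := hcon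
      apply ih u _ hu hz (dom_trans hP hx hw hz h hd)
      have hlt : {a | a ∈ P ∧ Dom G P x y a u}.ncard < {a | a ∈ P ∧ Dom G P x y a w}.ncard := by
        apply Set.ncard_lt_ncard _ (Set.toFinite _)
        refine ⟨fun a ha => ⟨ha.1, dom_trans hP hx hu hw hd ha.2⟩, fun hsub => ?_⟩
        exact (hsub (a := u) ⟨hu, hd⟩).2.1 rfl
      omega

/-- the core of a part with respect to an edge -/
theorem core_exists [Finite V] (hP : Cn G P) (hx : x ∈ P) (hy : y ∈ P) (hxy : G.Adj x y) :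
    ∃ (B : Set V) (π : V → V), CoreD G P B π ∧ GN G B x y ∧
      ∀ z ∈ P, π z ≠ z → Dom G P x y (π z) z := by
  classical
  set B : Set V := {z | z ∈ P ∧ ∀ w ∈ P, ¬ Dom G P x y w z} with hB
  set π : V → V := fun z => if h : ∃ b, b ∈ B ∧ Dom G P x y b z then h.choose else z with hπ
  have hfix : ∀ b ∈ B, π b = b := by
    intro b hb
    have : ¬ ∃ c, c ∈ B ∧ Dom G P x y c b := fun ⟨c, hc, hd⟩ => hb.2 c hc.1 hd
    simp only [π]
    rw [dif_neg this]
  have hout : ∀ z ∈ P, z ∉ B → π z ∈ B ∧ Dom G P x y (π z) z := by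
    intro z hz hzB
    have h1 : ∃ w ∈ P, Dom G P x y w z := by
      by_contra hcon
      push Not at hcon
      exact hzB ⟨hz, hcon⟩
    obtain ⟨w, hw, hd⟩ := h1
    obtain ⟨b, hb, hb1, hb2⟩ := dom_top hP hx _ w le_rfl hw hz hd
    have h2 : ∃ b, b ∈ B ∧ Dom G P x y b z := ⟨b, ⟨hb, hb1⟩, hb2⟩
    simp only [π]
    rw [dif_pos h2]
    exact h2.choose_spec
  have hmaps : ∀ z ∈ P, π z ∈ B := by
    intro z hz
    by_cases hzB : z ∈ B
    · rw [hfix z hzB]; exact hzB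
    · exact (hout z hz hzB).1
  have hdom : ∀ z ∈ P, π z ≠ z → Dom G P x y (π z) z := by
    intro z hz hne
    by_cases hzB : z ∈ B
    · exact absurd (hfix z hzB) hne
    · exact (hout z hz hzB).2
  have huniq : ∀ z ∈ P, ∀ b ∈ B, Dom G P x y b z → π z = b := by
    intro z hz b hb hd
    have hzB : z ∉ B := fun hzB => hzB.2 b hb.1 hd
    obtain ⟨h1, h2⟩ := hout z hz hzB
    by_contra hne
    rcases dom_chain hP h1.1 hb.1 hz h2 hd hne with h3 | h3
    · exact hb.2 _ h1.1 h3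
    · exact h1.2 _ hb.1 h3
  have hxB : x ∈ B := ⟨hx, fun w _ hd => (hd.ne_x hx) rfl⟩
  have hyB : y ∈ B := by
    refine ⟨hy, fun w _ hd => ?_⟩
    exact (hd.2 {y} (Set.singleton_subset_iff.2 hy) (cn_singleton G y) (fun e => hd.1 e) rfl).2 rfl
  have hedge1 : ∀ z ∈ P, ∀ z' ∈ P, G.Adj z z' → π z ≠ π z' → π z = z := by
    intro z hz z' hz' hadj hne
    by_contra hzz
    have hd := hdom z hz hzz
    have hb := hmaps z hz
    by_cases hz'b : π z = z'
    · apply hne
      rw [← hz'b, hfix _ hb]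
    · exact hne (huniq z' hz' _ hb (dom_adj hd hz hadj hz'b)).symm
  have hfib : ∀ b ∈ B, Cn G {z | z ∈ P ∧ π z = b} := by
    intro b hb
    have hbs : ({b} : Set V) ⊆ {z | z ∈ P ∧ π z = b} :=
      Set.singleton_subset_iff.2 ⟨hb.1, hfix b hb⟩
    apply cn_of_base (cn_singleton G b) hbs
    rintro z ⟨hz, hzb⟩
    by_cases hzz : z = b
    · refine ⟨{b}, Set.singleton_subset_iff.2 ⟨hb.1, hfix b hb⟩, cn_singleton G b, hzz,
        Or.inl ⟨b, rfl, rfl⟩⟩
    · have hne : π z ≠ z := fun e => hzz (e.symm.trans hzb)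
      have hd := hdom z hz hne
      rw [hzb] at hd
      refine ⟨insert b (comp G (Pᶜ ∪ {b}) z), ?_, comp_attach hP hz hb.1 hzz,
        Or.inr (mem_comp_self (notin_of hz hzz)), Or.inl ⟨b, rfl, Or.inl rfl⟩⟩
      rintro a (rfl | ha)
      · exact ⟨hb.1, hfix a hb⟩
      · refine ⟨comp_in.1 ha, huniq a (comp_in.1 ha) b hb ⟨?_, fun T hTP hT hbT haT => ?_⟩⟩
        · rintro rfl
          exact comp_in.2 ha
        · have := hd.2 (comp G (Pᶜ ∪ {b}) z ∪ T) (Set.union_subset comp_in.1 hTP)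
            (cn_union G (cn_comp (notin_of hz hzz)) hT (Or.inl ⟨a, ha, haT⟩))
            (by
              rintro (h1 | h1)
              · exact comp_in.2 h1
              · exact hbT h1) (Or.inl (mem_comp_self (notin_of hz hzz)))
          exact ⟨fun hh => this.1 (Or.inr hh), fun hh => this.2 (Or.inr hh)⟩
  have hcore : CoreD G P B π := ⟨fun z hz => hz.1, hmaps, hfix, hfib,
    fun z hz z' hz' hadj hne => ⟨hedge1 z hz z' hz' hadj hne,
      hedge1 z' hz' z hz hadj.symm hne.symm⟩⟩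
  have hmod : Mod G P G B π := by
    refine ⟨hmaps, hfib, fun a ha b hb => ?_⟩
    constructor
    · intro hab
      exact ⟨hab.ne, a, ha.1, b, hb.1, hfix a ha, hfix b hb, hab⟩
    · rintro ⟨hne, z, hz, z', hz', rfl, rfl, hzz⟩
      obtain ⟨h1, h2⟩ := hcore.edge z hz z' hz' hzz hne
      rw [h1, h2]; exact hzz
  refine ⟨B, π, hcore, ⟨hxy.ne, hxB, hyB, ?_, ?_⟩, hdom⟩
  · have := hmod.cn_image (Set.Subset.refl P) hP
    have e : π '' P = B := by
      ext b
      constructor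
      · rintro ⟨z, hz, rfl⟩
        exact hmaps z hz
      · intro hb
        exact ⟨b, hb.1, hfix b hb⟩
    rw [← e]; exact this
  · intro y0 hy0 z hz hne
    have h1 := hz.2 y0 hy0.1
    have h2 : ∃ T ⊆ P, Cn G T ∧ y0 ∉ T ∧ z ∈ T ∧ (x ∈ T ∨ y ∈ T) := by
      by_contra hcon
      apply h1
      refine ⟨hne.symm, fun T hTP hT hyT hzT => ?_⟩
      constructor
      · intro hxT
        exact hcon ⟨T, hTP, hT, hyT, hzT, Or.inl hxT⟩
      · intro hxT
        exact hcon ⟨T, hTP, hT, hyT, hzT, Or.inr hxT⟩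
    obtain ⟨T, hTP, hT, hyT, hzT, hxyT⟩ := h2
    refine ⟨π '' T, ?_, hmod.cn_image hTP hT, ?_, ⟨z, hzT, hfix z hz⟩, ?_⟩
    · rintro _ ⟨a, ha, rfl⟩
      exact hmaps a (hTP ha)
    · rintro ⟨a, ha, hay⟩
      have hne' : π a ≠ a := by
        intro e
        apply hyT
        rw [← hay, e]; exact ha
      have hd := hdom a (hTP ha) hne'
      rw [hay] at hd
      have := hd.2 T hTP hT hyT ha
      rcases hxyT with h3 | h3
      · exact this.1 h3
      · exact this.2 h3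
    · rcases hxyT with h3 | h3
      · exact Or.inl ⟨x, h3, hfix x hxB⟩
      · exact Or.inr ⟨y, h3, hfix y hyB⟩

end dom

section core
variable {V' V : Type} {G' : SimpleGraph V'} {G : SimpleGraph V} {P' B' : Set V'} {P B : Set V}
  {π' : V' → V'} {π : V → V} {f : V' → V}

theorem CoreD.mod (h : CoreD G P B π) : Mod G P G B π := by
  refine ⟨h.maps, h.fib, fun a ha b hb => ?_⟩
  constructor
  · intro hab
    exact ⟨hab.ne, a, h.sub ha, b, h.sub hb, h.fix a ha, h.fix b hb, hab⟩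
  · rintro ⟨hne, z, hz, z', hz', rfl, rfl, hzz⟩
    obtain ⟨h1, h2⟩ := h.edge z hz z' hz' hzz hne
    rw [h1, h2]; exact hzz

/-- the hanging part at a vertex of the core can be split off -/
theorem CoreD.sep (h : CoreD G P B π) (hB : Cn G B) {b : V} (hb : b ∈ B) :
    Sep G P {z | z ∈ P ∧ π z = b} {z | z ∈ P ∧ (z = b ∨ π z ≠ b)} b ∧
    Cn G {z | z ∈ P ∧ (z = b ∨ π z ≠ b)} := by
  refine ⟨⟨fun z => ?_, ?_, ⟨h.sub hb, h.fix b hb⟩, ⟨h.sub hb, Or.inl rfl⟩, ?_⟩, ?_⟩
  · constructor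
    · intro hz
      by_cases hzb : π z = b
      · exact Or.inl ⟨hz, hzb⟩
      · exact Or.inr ⟨hz, Or.inr hzb⟩
    · rintro (hz | hz)
      · exact hz.1
      · exact hz.1
  · rintro z ⟨_, h1⟩ ⟨_, h2 | h2⟩
    · exact h2
    · exact absurd h1 h2
  · rintro z ⟨hz, h1⟩ z' ⟨hz', h2 | h2⟩ hadj
    · exact Or.inr h2
    · left
      have := (h.edge z hz z' hz' hadj (by rw [h1]; exact h2.symm)).1
      rw [← this, h1]
  · apply cn_of_base hB
    · intro z hz
      refine ⟨h.sub hz, ?_⟩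
      by_cases hzb : z = b
      · exact Or.inl hzb
      · right
        rw [h.fix z hz]; exact hzb
    · rintro z ⟨hz, h1⟩
      by_cases hzb : π z = b
      · have hzb' : z = b := h1.resolve_right (fun hh => hh hzb)
        exact ⟨{b}, Set.singleton_subset_iff.2 ⟨h.sub hb, Or.inl rfl⟩, cn_singleton G b, hzb',
          Or.inl ⟨b, hb, rfl⟩⟩
      · refine ⟨{a | a ∈ P ∧ π a = π z}, ?_, h.fib _ (h.maps z hz), ⟨hz, rfl⟩,
          Or.inl ⟨π z, h.maps z hz, h.sub (h.maps z hz), h.fix _ (h.maps z hz)⟩⟩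
        rintro a ⟨ha, haz⟩
        refine ⟨ha, Or.inr ?_⟩
        rw [haz]; exact hzb

/-- gluing along cores -/
theorem CoreD.glue [Nonempty V] [Nonempty V'] (h : CoreD G P B π) (h' : CoreD G' P' B' π')
    (m : Mod G' B' G B f)
    (hg : ∀ b ∈ B, ∃ b' ∈ B', f b' = b ∧ ∃ hb : V' → V,
      Mod G' {z | z ∈ P' ∧ π' z = b'} G {z | z ∈ P ∧ π z = b} hb ∧ hb b' = b) :
    ∃ F : V' → V, Mod G' P' G P F ∧ ∀ b' ∈ B', F b' = f b' := by
  classical
  choose! g g1 g2 k k1 k2 using hg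
  set F : V' → V := fun z => if g (f (π' z)) = π' z then k (f (π' z)) z else f (π' z) with hF
  have FA : ∀ z, g (f (π' z)) = π' z → F z = k (f (π' z)) z := fun z hz => by
    simp only [F]; rw [if_pos hz]
  have FB : ∀ z, g (f (π' z)) ≠ π' z → F z = f (π' z) := fun z hz => by
    simp only [F]; rw [if_neg hz]
  have hfB : ∀ z ∈ P', f (π' z) ∈ B := fun z hz => m.maps _ (h'.maps z hz)
  have FC : ∀ b ∈ B', F b = f b := by
    intro b hb
    have hpb := h'.fix b hb
    by_cases hgb : g (f (π' b)) = π' b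
    · rw [FA b hgb, hpb]
      have h1 := k2 (f b) (m.maps b hb)
      rw [hpb] at hgb
      rw [hgb] at h1
      exact h1
    · rw [FB b hgb, hpb]
  have hπF : ∀ z ∈ P', F z ∈ P ∧ π (F z) = f (π' z) := by
    intro z hz
    by_cases hgz : g (f (π' z)) = π' z
    · rw [FA z hgz]
      exact (k1 (f (π' z)) (hfB z hz)).maps z ⟨hz, hgz.symm⟩
    · rw [FB z hgz]
      exact ⟨h.sub (hfB z hz), h.fix _ (hfB z hz)⟩
  have hkF : ∀ b ∈ B, ∀ z, z ∈ P' → π' z = g b → F z = k b z := by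
    intro b hb z _ hzg
    have hfz : f (π' z) = b := by rw [hzg]; exact g2 b hb
    rw [FA z (by rw [hfz, hzg]), hfz]
  refine ⟨F, ⟨fun z hz => (hπF z hz).1, fun w hw => ?_, fun a ha c hc => ?_⟩, FC⟩
  · -- fibres
    have hbB := h.maps w hw
    by_cases hwb : π w = w
    · rw [hwb] at hbB
      have hbase := m.fib w hbB
      apply cn_of_base hbase
      · rintro b ⟨hb, hbw⟩
        exact ⟨h'.sub hb, by rw [FC b hb, hbw]⟩
      · rintro z ⟨hz, hzw⟩
        have h1 := (hπF z hz).2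
        rw [hzw, hwb] at h1
        by_cases hgz : g (f (π' z)) = π' z
        · have hgz' : π' z = g w := by rw [← hgz, ← h1]
          refine ⟨{a | a ∈ {a | a ∈ P' ∧ π' a = g w} ∧ k w a = w}, ?_,
            (k1 w hbB).fib w ⟨hw, hwb⟩, ⟨⟨hz, hgz'⟩, ?_⟩, Or.inl ⟨g w, ⟨g1 w hbB, g2 w hbB⟩,
            ⟨h'.sub (g1 w hbB), h'.fix _ (g1 w hbB)⟩, k2 w hbB⟩⟩
          · rintro a ⟨⟨ha, haw⟩, hka⟩
            exact ⟨ha, by rw [hkF w hbB a ha haw, hka]⟩
          · rw [← hkF w hbB z hz hgz', hzw]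
        · refine ⟨{a | a ∈ P' ∧ π' a = π' z}, ?_, h'.fib _ (h'.maps z hz), ⟨hz, rfl⟩,
            Or.inl ⟨π' z, ⟨h'.maps z hz, h1.symm⟩, h'.sub (h'.maps z hz),
              h'.fix _ (h'.maps z hz)⟩⟩
          rintro a ⟨ha, haz⟩
          refine ⟨ha, ?_⟩
          rw [FB a (by rw [haz]; exact hgz), haz, ← h1]
    · have e : {z | z ∈ P' ∧ F z = w} =
          {z | z ∈ {z | z ∈ P' ∧ π' z = g (π w)} ∧ k (π w) z = w} := by
        ext z
        constructor
        · rintro ⟨hz, hzw⟩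
          have h1 := (hπF z hz).2
          rw [hzw] at h1
          by_cases hgz : g (f (π' z)) = π' z
          · refine ⟨⟨hz, by rw [h1, hgz]⟩, ?_⟩
            rw [h1, ← FA z hgz, hzw]
          · exfalso
            apply hwb
            rw [← hzw, FB z hgz]
            exact h.fix _ (hfB z hz)
        · rintro ⟨⟨hz, hzg⟩, hkz⟩
          exact ⟨hz, by rw [hkF (π w) hbB z hz hzg, hkz]⟩
      rw [e]
      exact (k1 (π w) hbB).fib w ⟨hw, rfl⟩
  · constructor
    · intro hac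
      by_cases hπ : π a = π c
      · have hb := h.maps a ha
        obtain ⟨hne, s, hs, t, ht, hsa, htc, hst⟩ :=
          ((k1 (π a) hb).adj a ⟨ha, rfl⟩ c ⟨hc, hπ.symm⟩).1 hac
        refine ⟨hne, s, hs.1, t, ht.1, ?_, ?_, hst⟩
        · rw [hkF (π a) hb s hs.1 hs.2, hsa]
        · rw [hkF (π a) hb t ht.1 ht.2, htc]
      · obtain ⟨h1, h2⟩ := h.edge a ha c hc hac hπ
        have haB : a ∈ B := by rw [← h1]; exact h.maps a ha
        have hcB : c ∈ B := by rw [← h2]; exact h.maps c hc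
        obtain ⟨hne, s, hs, t, ht, hsa, htc, hst⟩ := (m.adj a haB c hcB).1 hac
        exact ⟨hne, s, h'.sub hs, t, h'.sub ht, by rw [FC s hs, hsa], by rw [FC t ht, htc], hst⟩
    · rintro ⟨hne, s, hs, t, ht, rfl, rfl, hst⟩
      by_cases hπ : π' s = π' t
      · by_cases hgs : g (f (π' s)) = π' s
        · have hb := hfB s hs
          have hgt : g (f (π' t)) = π' t := by rw [← hπ]; exact hgs
          have e1 := FA s hgs
          have e2 := FA t hgt
          rw [← hπ] at e2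
          refine ((k1 (f (π' s)) hb).adj (F s) ?_ (F t) ?_).2 ⟨hne, s, ⟨hs, hgs.symm⟩, t,
            ⟨ht, hπ.symm.trans hgs.symm⟩, e1.symm, e2.symm, hst⟩
          · exact hπF s hs
          · have := hπF t ht
            rw [← hπ] at this
            exact this
        · exfalso
          apply hne
          rw [FB s hgs, FB t (by rw [← hπ]; exact hgs), hπ]
      · obtain ⟨h1, h2⟩ := h'.edge s hs t ht hst hπ
        have hsB : s ∈ B' := by rw [← h1]; exact h'.maps s hs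
        have htB : t ∈ B' := by rw [← h2]; exact h'.maps t ht
        rw [FC s hsB, FC t htB] at hne
        rw [FC s hsB, FC t htB]
        exact (m.adj _ (m.maps s hsB) _ (m.maps t htB)).2 ⟨hne, s, hsB, t, htB, rfl, rfl, hst⟩

end core

end Pool.Agent.H67.WQ
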