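import Pool.Agent.H67.WQ.Twin

set_option autoImplicit false

namespace Pool.Agent.H67.WQ

/-- kinds and port adjacencies -/
abbrev Skel (T : Type) : Type := (T → Bool) × (T → Bool → T → Bool → Bool)

/-- `x` carries the port `a` -/
def port {T : Type} (s : Skel T) (n : T → ℕ) (x : T × ℕ) (a : Bool) : Prop :=
  s.1 x.1 = false ∨ (a = false ∧ x.2 = 0) ∨ (a = true ∧ x.2 + 1 = n x.1)

/-- adjacency in a layout -/
def SAdj {T : Type} (s : Skel T) (n : T → ℕ) (x y : T × ℕ) : Prop :=
  (x.1 = y.1 ∧ x.2 ≠ y.2 ∧ (s.1 x.1 = true → (x.2 = y.2 + 1 ∨ y.2 = x.2 + 1))) ∨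
  (x.1 ≠ y.1 ∧ ∃ a b, port s n x a ∧ port s n y b ∧ s.2 x.1 a y.1 b = true)

/-- a layout of a graph: every type `t` is a clique or a path with `n t` vertices, and different
types are joined through ports -/
structure Layout {V T : Type} (G : SimpleGraph V) (s : Skel T) (n : T → ℕ) (ι : V → T × ℕ) :
    Prop where
  inj : Function.Injective ι
  lt : ∀ v, (ι v).2 < n (ι v).1
  surj : ∀ t i, i < n t → ∃ v, ι v = (t, i)
  adj : ∀ u v, G.Adj u v ↔ SAdj s n (ι u) (ι v)

/-- Enlarging a layout gives a graph that contracts to the original one. -/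
theorem Layout.contr {V V' T : Type} {G : SimpleGraph V} {G' : SimpleGraph V'} {s : Skel T}
    {n n' : T → ℕ} {ι : V → T × ℕ} {ι' : V' → T × ℕ} (h : Layout G s n ι)
    (h' : Layout G' s n' ι') (hle : ∀ t, n t ≤ n' t) (h0 : ∀ t, n t = 0 → n' t = 0) :
    Contr G' G := by
  classical
  have hpos : ∀ v' : V', 0 < n (ι' v').1 := by
    intro v'
    have := h'.lt v'
    have := h0 (ι' v').1
    omega
  have hex : ∀ v' : V', ∃ v, ι v = ((ι' v').1, min (ι' v').2 (n (ι' v').1 - 1)) := by
    intro v'
    have := hpos v'
    exact h.surj _ _ (by omega)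
  choose f hf using hex
  -- vertices of G' with given coordinates are mapped to vertices with known coordinates
  have hfeq : ∀ (v' : V') (v : V), f v' = v ↔
      ((ι v).1 = (ι' v').1 ∧ (ι v).2 = min (ι' v').2 (n (ι' v').1 - 1)) := by
    intro v' v
    constructor
    · rintro rfl
      rw [hf]
      exact ⟨rfl, rfl⟩
    · rintro ⟨h1, h2⟩
      apply h.inj
      rw [hf]
      have : ι v = ((ι' v').1, min (ι' v').2 (n (ι' v').1 - 1)) := Prod.ext h1 h2
      exact this.symm
  refine ⟨f, ?_, ?_⟩
  · -- fibres
    intro w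
    have hw := h.lt w
    have hwt : n (ι w).1 ≤ n' (ι w).1 := hle _
    -- the initial vertex of the fibre
    by_cases hj : (ι w).2 + 1 < n (ι w).1
    · obtain ⟨v', hv'⟩ := h'.surj (ι w).1 (ι w).2 (by omega)
      have : {v | f v = w} = {v'} := by
        ext v
        change f v = w ↔ v = v'
        rw [hfeq]
        constructor
        · rintro ⟨h1, h2⟩
          apply h'.inj
          rw [hv']
          apply Prod.ext
          · exact h1.symm
          · rw [← h1] at h2
            simp only
            omega
        · rintro rfl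
          rw [hv']
          refine ⟨rfl, ?_⟩
          simp only
          omega
      rw [this]; exact cn_singleton _ _
    · -- the last vertex of its type
      have key : ∀ m, (ι w).2 ≤ m → m < n' (ι w).1 →
          Cn G' {v | (ι' v).1 = (ι w).1 ∧ (ι w).2 ≤ (ι' v).2 ∧ (ι' v).2 ≤ m} := by
        intro m hm
        induction m, hm using Nat.le_induction with
        | base =>
          intro hlt
          obtain ⟨v', hv'⟩ := h'.surj (ι w).1 (ι w).2 hlt
          have : {v | (ι' v).1 = (ι w).1 ∧ (ι w).2 ≤ (ι' v).2 ∧ (ι' v).2 ≤ (ι w).2} = {v'} := by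
            ext v
            constructor
            · rintro ⟨h1, h2, h3⟩
              apply h'.inj
              rw [hv']
              exact Prod.ext h1 (le_antisymm h3 h2)
            · intro hvv
              have hvv' : v = v' := hvv
              rw [hvv']
              change (ι' v').1 = (ι w).1 ∧ (ι w).2 ≤ (ι' v').2 ∧ (ι' v').2 ≤ (ι w).2
              rw [hv']
              exact ⟨rfl, le_rfl, le_rfl⟩
          rw [this]; exact cn_singleton _ _
        | succ m hm ih =>
          intro hlt
          obtain ⟨v', hv'⟩ := h'.surj (ι w).1 (m + 1) hlt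
          obtain ⟨u', hu'⟩ := h'.surj (ι w).1 m (by omega)
          have hset : {v | (ι' v).1 = (ι w).1 ∧ (ι w).2 ≤ (ι' v).2 ∧ (ι' v).2 ≤ m + 1} =
              insert v' {v | (ι' v).1 = (ι w).1 ∧ (ι w).2 ≤ (ι' v).2 ∧ (ι' v).2 ≤ m} := by
            ext v
            constructor
            · rintro ⟨h1, h2, h3⟩
              by_cases h4 : (ι' v).2 = m + 1
              · left
                apply h'.inj
                rw [hv']
                exact Prod.ext h1 h4
              · right
                exact ⟨h1, h2, by omega⟩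
            · rintro (hvv | ⟨h1, h2, h3⟩)
              · change (ι' v).1 = (ι w).1 ∧ (ι w).2 ≤ (ι' v).2 ∧ (ι' v).2 ≤ m + 1
                rw [hvv, hv']
                exact ⟨rfl, by simp only; omega, le_rfl⟩
              · exact ⟨h1, h2, by omega⟩
          rw [hset]
          apply cn_insert (ih (by omega)) (x := u')
          · change (ι' u').1 = (ι w).1 ∧ (ι w).2 ≤ (ι' u').2 ∧ (ι' u').2 ≤ m
            rw [hu']
            exact ⟨rfl, hm, le_rfl⟩
          · rw [h'.adj, hv', hu']
            left
            refine ⟨rfl, ?_, fun _ => Or.inr rfl⟩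
            simp only
            omega
      have hset : {v | f v = w} = {v | (ι' v).1 = (ι w).1 ∧ (ι w).2 ≤ (ι' v).2 ∧
          (ι' v).2 ≤ n' (ι w).1 - 1} := by
        ext v
        change f v = w ↔ _
        rw [hfeq]
        have hvlt := h'.lt v
        constructor
        · rintro ⟨h1, h2⟩
          rw [← h1] at h2 hvlt
          exact ⟨h1.symm, by omega, by omega⟩
        · rintro ⟨h1, h2, h3⟩
          rw [h1]
          exact ⟨rfl, by omega⟩
      rw [hset]
      exact key _ (by omega) (by omega)
  · intro a b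
    constructor
    · intro hab
      refine ⟨hab.ne, ?_⟩
      have ha := h.lt a
      have hb := h.lt b
      have hla := hle (ι a).1
      have hlb := hle (ι b).1
      rw [h.adj] at hab
      rcases hab with ⟨h1, h2, h3⟩ | ⟨h1, α, β, hα, hβ, hA⟩
      · obtain ⟨x, hx⟩ := h'.surj (ι a).1 (ι a).2 (by omega)
        obtain ⟨y, hy⟩ := h'.surj (ι b).1 (ι b).2 (by omega)
        refine ⟨x, y, ?_, ?_, ?_⟩
        · rw [hfeq, hx]
          exact ⟨rfl, by simp only; omega⟩
        · rw [hfeq, hy]
          exact ⟨rfl, by simp only; omega⟩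
        · rw [h'.adj, hx, hy]
          exact Or.inl ⟨h1, h2, h3⟩
      · -- lift a port
        have lift : ∀ (a : V) (α : Bool), port s n (ι a) α →
            ∃ x, f x = a ∧ (ι' x).1 = (ι a).1 ∧ port s n' (ι' x) α := by
          intro a α hα
          have ha := h.lt a
          have hla := hle (ι a).1
          rcases hα with hk | ⟨hα, h0'⟩ | ⟨hα, h0'⟩
          · obtain ⟨x, hx⟩ := h'.surj (ι a).1 (ι a).2 (by omega)
            refine ⟨x, ?_, by rw [hx], Or.inl (by rw [hx]; exact hk)⟩
            rw [hfeq, hx]
            exact ⟨rfl, by simp only; omega⟩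
          · obtain ⟨x, hx⟩ := h'.surj (ι a).1 0 (by omega)
            refine ⟨x, ?_, by rw [hx], Or.inr (Or.inl ⟨hα, by rw [hx]⟩)⟩
            rw [hfeq, hx]
            exact ⟨rfl, by simp only; omega⟩
          · obtain ⟨x, hx⟩ := h'.surj (ι a).1 (n' (ι a).1 - 1) (by omega)
            refine ⟨x, ?_, by rw [hx], Or.inr (Or.inr ⟨hα, by rw [hx]; simp only; omega⟩)⟩
            rw [hfeq, hx]
            exact ⟨rfl, by simp only; omega⟩
        obtain ⟨x, hx1, hx2, hx3⟩ := lift a α hα
        obtain ⟨y, hy1, hy2, hy3⟩ := lift b β hβ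
        refine ⟨x, y, hx1, hy1, ?_⟩
        rw [h'.adj]
        right
        refine ⟨by rw [hx2, hy2]; exact h1, α, β, hx3, hy3, by rw [hx2, hy2]; exact hA⟩
    · rintro ⟨hne, x, y, hx, hy, hxy⟩
      rw [h.adj]
      rw [h'.adj] at hxy
      have hx' := (hfeq x a).1 hx
      have hy' := (hfeq y b).1 hy
      have hxl := h'.lt x
      have hyl := h'.lt y
      have hxp := hpos x
      have hyp := hpos y
      rcases hxy with ⟨h1, h2, h3⟩ | ⟨h1, α, β, hα, hβ, hA⟩
      · left
        have hty : (ι a).1 = (ι b).1 := by rw [hx'.1, hy'.1, h1]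
        have hne2 : (ι a).2 ≠ (ι b).2 := fun e => hne (h.inj (Prod.ext hty e))
        refine ⟨hty, hne2, fun hk => ?_⟩
        rw [hx'.1] at hk
        have h4 := h3 hk
        rw [hx'.2, hy'.2, h1] at hne2 ⊢
        omega
      · right
        have down : ∀ (x : V') (a : V) (α : Bool), f x = a → port s n' (ι' x) α →
            port s n (ι a) α := by
          intro x a α hx hα
          have hx' := (hfeq x a).1 hx
          have hxp := hpos x
          have hla := hle (ι' x).1
          unfold port
          rw [hx'.1, hx'.2]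
          rcases hα with hk | ⟨hα, h0'⟩ | ⟨hα, h0'⟩
          · exact Or.inl hk
          · exact Or.inr (Or.inl ⟨hα, by omega⟩)
          · exact Or.inr (Or.inr ⟨hα, by omega⟩)
        refine ⟨by rw [hx'.1, hy'.1]; exact h1, α, β, down x a α hx hα, down y b β hy hβ, ?_⟩
        rw [hx'.1, hy'.1]
        exact hA

/-- transport of a layout along an injection of the types -/
theorem Layout.map {V T T' : Type} {G : SimpleGraph V} {s : Skel T} {n : T → ℕ}
    {ι : V → T × ℕ} (h : Layout G s n ι) (j : T → T') (hj : Function.Injective j) :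
    ∃ (s' : Skel T') (n' : T' → ℕ) (ι' : V → T' × ℕ), Layout G s' n' ι' := by
  classical
  let g : T' → Option T := fun t' => if ht : ∃ t, j t = t' then some ht.choose else none
  have hg : ∀ t, g (j t) = some t := by
    intro t
    have ht : ∃ t0, j t0 = j t := ⟨t, rfl⟩
    simp only [g]
    rw [dif_pos ht]
    exact congrArg some (hj ht.choose_spec)
  have hg' : ∀ t' t, g t' = some t → j t = t' := by
    intro t' t hgt
    simp only [g] at hgt
    by_cases ht : ∃ t0, j t0 = t'
    · rw [dif_pos ht] at hgt
      rw [← Option.some_injective _ hgt]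
      exact ht.choose_spec
    · rw [dif_neg ht] at hgt
      exact absurd hgt (by simp)
  let s' : Skel T' := (fun t' => (g t').elim false s.1,
    fun t' a u' b => (g t').elim false (fun t => (g u').elim false (fun u => s.2 t a u b)))
  let n' : T' → ℕ := fun t' => (g t').elim 0 n
  let ι' : V → T' × ℕ := fun v => (j (ι v).1, (ι v).2)
  have hs1 : ∀ t, s'.1 (j t) = s.1 t := by
    intro t; simp only [s', hg]; rfl
  have hs2 : ∀ t a u b, s'.2 (j t) a (j u) b = s.2 t a u b := by
    intro t a u b; simp only [s', hg]; rfl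
  have hn : ∀ t, n' (j t) = n t := by
    intro t; simp only [n', hg]; rfl
  refine ⟨s', n', ι', ⟨?_, ?_, ?_, ?_⟩⟩
  · intro u v huv
    apply h.inj
    have e1 : j (ι u).1 = j (ι v).1 := congrArg Prod.fst huv
    have e2 : (ι' u).2 = (ι' v).2 := by rw [huv]
    exact Prod.ext (hj e1) e2
  · intro v
    change (ι v).2 < n' (j (ι v).1)
    rw [hn]; exact h.lt v
  · intro t' i hi
    cases hgt : g t' with
    | none =>
      simp only [n', hgt] at hi
      exact absurd hi (Nat.not_lt_zero i)
    | some t =>
      have hjt := hg' t' t hgt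
      subst hjt
      rw [hn] at hi
      obtain ⟨v, hv⟩ := h.surj t i hi
      exact ⟨v, by simp only [ι']; rw [hv]⟩
  · intro u v
    rw [h.adj]
    unfold SAdj port
    simp only [ι', hs1, hs2, hn, hj.eq_iff, hj.ne_iff]

end Pool.Agent.H67.WQ
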