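import Pool.Agent.H67.WQ.Mod

set_option autoImplicit false

namespace Pool.Agent.H67.WQ

/-- four pairwise disjoint connected sets, pairwise joined by an edge or by the virtual edge
between `u` and `v` -/
def Quad {V : Type} (G : SimpleGraph V) (P : Set V) (u v : V) : Prop :=
  ∃ B : Fin 4 → Set V, (∀ i, Cn G (B i)) ∧ (∀ i, B i ⊆ P) ∧
    (∀ i j x, x ∈ B i → x ∈ B j → i = j) ∧
    ∀ i j, i ≠ j → (∃ x ∈ B i, ∃ y ∈ B j, G.Adj x y) ∨ (u ∈ B i ∧ v ∈ B j) ∨ (v ∈ B i ∧ u ∈ B j)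

theorem Quad.symm {V : Type} {G : SimpleGraph V} {P : Set V} {u v : V} (h : Quad G P u v) :
    Quad G P v u := by
  obtain ⟨B, h1, h2, h3, h4⟩ := h
  refine ⟨B, h1, h2, h3, fun i j hij => ?_⟩
  rcases h4 i j hij with h | h | h
  · exact Or.inl h
  · exact Or.inr (Or.inr h)
  · exact Or.inr (Or.inl h)

/-- no vertex separates another vertex from both terminals -/
def Tight {V : Type} (G : SimpleGraph V) (P : Set V) (u v : V) : Prop :=
  ∀ y ∈ P, ∀ z ∈ P, z ≠ y → ∃ T ⊆ P, Cn G T ∧ y ∉ T ∧ z ∈ T ∧ (u ∈ T ∨ v ∈ T)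

/-- no vertex separates the terminals -/
def NonSep {V : Type} (G : SimpleGraph V) (P : Set V) (u v : V) : Prop :=
  ∀ w ∈ P, w ≠ u → w ≠ v → ∃ T ⊆ P, Cn G T ∧ w ∉ T ∧ u ∈ T ∧ v ∈ T

structure MH {V : Type} (G : SimpleGraph V) (P U W D : Set V) (u v : V) : Prop where
  tight : Tight G P u v
  nonsep : NonSep G P u v
  uU : u ∈ U
  vW : v ∈ W
  cU : Cn G U
  cW : Cn G W
  cD : Cn G D
  cover : ∀ x, x ∈ P ↔ x ∈ U ∨ x ∈ W ∨ x ∈ D
  dUW : ∀ x ∈ U, x ∉ W
  dUD : ∀ x ∈ U, x ∉ D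
  dWD : ∀ x ∈ W, x ∉ D
  nadj : ∀ x ∈ U, ∀ y ∈ W, ¬ G.Adj x y

section m2
variable {V : Type} {G : SimpleGraph V} {P U W D : Set V} {u v : V}

theorem MH.symm (h : MH G P U W D u v) : MH G P W U D v u where
  tight := fun y hy z hz hne => by
    obtain ⟨T, h1, h2, h3, h4, h5⟩ := h.tight y hy z hz hne
    exact ⟨T, h1, h2, h3, h4, h5.symm⟩
  nonsep := fun w hw h1 h2 => by
    obtain ⟨T, h3, h4, h5, h6, h7⟩ := h.nonsep w hw h2 h1
    exact ⟨T, h3, h4, h5, h7, h6⟩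
  uU := h.vW
  vW := h.uU
  cU := h.cW
  cW := h.cU
  cD := h.cD
  cover := fun x => by rw [h.cover]; tauto
  dUW := fun x hx hx' => h.dUW x hx' hx
  dUD := h.dWD
  dWD := h.dUD
  nadj := fun x hx y hy hxy => h.nadj y hy x hx hxy.symm

theorem MH.quad_of (h : MH G P U W D u v) {T₁ T₂ : Set V} (s1 : T₁ ⊆ D) (s2 : T₂ ⊆ D)
    (c1 : Cn G T₁) (c2 : Cn G T₂) (hd : ∀ x ∈ T₁, x ∉ T₂)
    (a12 : ∃ x ∈ T₁, ∃ y ∈ T₂, G.Adj x y) (aU1 : ∃ x ∈ U, ∃ y ∈ T₁, G.Adj x y)
    (aW1 : ∃ x ∈ W, ∃ y ∈ T₁, G.Adj x y) (aU2 : ∃ x ∈ U, ∃ y ∈ T₂, G.Adj x y)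
    (aW2 : ∃ x ∈ W, ∃ y ∈ T₂, G.Adj x y) : Quad G P u v := by
  have fl : ∀ {A B : Set V}, (∃ x ∈ A, ∃ y ∈ B, G.Adj x y) → ∃ x ∈ B, ∃ y ∈ A, G.Adj x y := by
    rintro A B ⟨x, hx, y, hy, hxy⟩
    exact ⟨y, hy, x, hx, hxy.symm⟩
  refine ⟨![U, W, T₁, T₂], ?_, ?_, ?_, ?_⟩
  · intro i
    fin_cases i
    · exact h.cU
    · exact h.cW
    · exact c1
    · exact c2
  · intro i x hx
    rw [h.cover]
    fin_cases i
    · exact Or.inl hx
    · exact Or.inr (Or.inl hx)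
    · exact Or.inr (Or.inr (s1 hx))
    · exact Or.inr (Or.inr (s2 hx))
  · intro i j x hi hj
    fin_cases i <;> fin_cases j
    · rfl
    · exact absurd hj (h.dUW x hi)
    · exact absurd (s1 hj) (h.dUD x hi)
    · exact absurd (s2 hj) (h.dUD x hi)
    · exact absurd hi (h.dUW x hj)
    · rfl
    · exact absurd (s1 hj) (h.dWD x hi)
    · exact absurd (s2 hj) (h.dWD x hi)
    · exact absurd (s1 hi) (h.dUD x hj)
    · exact absurd (s1 hi) (h.dWD x hj)
    · rfl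
    · exact absurd hj (hd x hi)
    · exact absurd (s2 hi) (h.dUD x hj)
    · exact absurd (s2 hi) (h.dWD x hj)
    · exact absurd hi (hd x hj)
    · rfl
  · intro i j hij
    fin_cases i <;> fin_cases j
    · exact absurd rfl hij
    · exact Or.inr (Or.inl ⟨h.uU, h.vW⟩)
    · exact Or.inl aU1
    · exact Or.inl aU2
    · exact Or.inr (Or.inr ⟨h.vW, h.uU⟩)
    · exact absurd rfl hij
    · exact Or.inl aW1
    · exact Or.inl aW2
    · exact Or.inl (fl aU1)
    · exact Or.inl (fl aW1)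
    · exact absurd rfl hij
    · exact Or.inl a12
    · exact Or.inl (fl aU2)
    · exact Or.inl (fl aW2)
    · exact Or.inl (fl a12)
    · exact absurd rfl hij

/-- components of `D` without `y` -/
theorem comp_sub {y z : V} : comp G (Dᶜ ∪ {y}) z ⊆ D ∧ y ∉ comp G (Dᶜ ∪ {y}) z := by
  constructor
  · intro x hx
    by_contra hxD
    exact comp_disj hx (Or.inl hxD)
  · intro hy
    exact comp_disj hy (Or.inr rfl)

theorem comp_adj_y (hD : Cn G D) {y z : V} (hy : y ∈ D) (hz : z ∈ D) (hne : z ≠ y) :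
    ∃ x ∈ comp G (Dᶜ ∪ {y}) z, G.Adj x y := by
  have hzS : z ∉ Dᶜ ∪ {y} := by
    rintro (h | h)
    · exact h hz
    · exact hne h
  obtain ⟨a, ha, b, hb, hab⟩ := hD.2 (comp G (Dᶜ ∪ {y}) z) (comp_sub (y := y)).1
    ⟨z, mem_comp_self hzS⟩ ⟨y, hy, (comp_sub (D := D)).2⟩
  by_cases hby : b = y
  · exact ⟨a, ha, hby ▸ hab⟩
  · exfalso
    apply hb.2
    apply comp_closed ha _ hab
    rintro (h | h)
    · exact h hb.1
    · exact hby h

theorem m2_step [Fintype V] (h : MH G P U W D u v)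
    (IH : ∀ (u v : V) (U W D' : Set V), D'.ncard < D.ncard → MH G P U W D' u v → Quad G P u v)
    {y : V} (hy : y ∈ D) (hyU : ∃ x ∈ U, G.Adj x y) (hyW : ∀ x ∈ W, ¬ G.Adj x y) :
    Quad G P u v := by
  have hyP : y ∈ P := (h.cover y).2 (Or.inr (Or.inr hy))
  have hyu : y ≠ u := fun e => h.dUD _ h.uU (e ▸ hy)
  have hyv : y ≠ v := fun e => h.dWD _ h.vW (e ▸ hy)
  set S : Set V := Dᶜ ∪ {y} with hS
  have hSn : ∀ z ∈ D, z ≠ y → z ∉ S := by
    rintro z hz hne (h | h)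
    · exact h hz
    · exact hne h
  -- a component attached to both sides
  obtain ⟨b, hbD, hby, hbU, hbW⟩ : ∃ b ∈ D, b ≠ y ∧ (∃ x ∈ U, ∃ t ∈ comp G S b, G.Adj x t) ∧
      ∃ x ∈ W, ∃ t ∈ comp G S b, G.Adj x t := by
    obtain ⟨T, hTP, hT, hyT, huT, hvT⟩ := h.nonsep y hyP hyu hyv
    obtain ⟨a, ha, b, hb, hab⟩ := hT.2 {z | z ∈ T ∧ (z ∈ U ∨ (z ∈ D ∧
      ¬ ∃ x ∈ W, ∃ t ∈ comp G S z, G.Adj x t))} (fun z hz => hz.1) ⟨u, huT, Or.inl h.uU⟩
      ⟨v, hvT, fun hh => by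
        rcases hh.2 with h1 | h1
        · exact h.dUW _ h1 h.vW
        · exact h.dWD _ h.vW h1.1⟩
    obtain ⟨haT, ha⟩ := ha
    obtain ⟨hbT, hbn⟩ := hb
    have hbU : b ∉ U := fun hh => hbn ⟨hbT, Or.inl hh⟩
    have hby : b ≠ y := fun e => hyT (e ▸ hbT)
    have hay : a ≠ y := fun e => hyT (e ▸ haT)
    have hb2 : b ∈ D → ∃ x ∈ W, ∃ t ∈ comp G S b, G.Adj x t := by
      intro hbD
      by_contra hh
      exact hbn ⟨hbT, Or.inr ⟨hbD, hh⟩⟩
    rcases ha with ha | ⟨haD, haW⟩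
    · have hbW : b ∉ W := fun hh => h.nadj a ha b hh hab
      have hbD : b ∈ D := by
        rcases (h.cover b).1 (hTP hbT) with h1 | h1 | h1
        · exact absurd h1 hbU
        · exact absurd h1 hbW
        · exact h1
      exact ⟨b, hbD, hby, ⟨a, ha, b, mem_comp_self (hSn b hbD hby), hab⟩, hb2 hbD⟩
    · exfalso
      have haS := hSn a haD hay
      rcases (h.cover b).1 (hTP hbT) with h1 | h1 | h1
      · exact hbU h1
      · exact haW ⟨b, h1, a, mem_comp_self haS, hab.symm⟩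
      · have := comp_eq_of_adj haS (hSn b h1 hby) hab
        apply haW
        rw [this]
        exact hb2 h1
  set F := comp G S b with hF
  have hbS := hSn b hbD hby
  have hFD : F ⊆ D := (comp_sub (y := y)).1
  have hyF : y ∉ F := (comp_sub (D := D)).2
  have hFc : Cn G F := cn_comp hbS
  obtain ⟨t, ht, hty⟩ := comp_adj_y h.cD hy hbD hby
  by_cases hall : ∀ z ∈ D, z ≠ y → z ∈ F
  · -- everything else is connected
    have hFeq : F.ncard < D.ncard := Set.ncard_lt_ncard ⟨hFD, fun hh => hyF (hh hy)⟩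
      (Set.toFinite _)
    obtain ⟨x, hx, hxy⟩ := hyU
    refine IH u v (insert y U) W F hFeq ⟨h.tight, h.nonsep, Or.inr h.uU, h.vW,
      cn_insert h.cU hx hxy, h.cW, hFc, ?_, ?_, ?_, ?_, ?_⟩
    · intro z
      rw [h.cover]
      constructor
      · rintro (h1 | h1 | h1)
        · exact Or.inl (Or.inr h1)
        · exact Or.inr (Or.inl h1)
        · by_cases hzy : z = y
          · exact Or.inl (Or.inl hzy)
          · exact Or.inr (Or.inr (hall z h1 hzy))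
      · rintro ((h1 | h1) | h1 | h1)
        · rw [h1]; exact Or.inr (Or.inr hy)
        · exact Or.inl h1
        · exact Or.inr (Or.inl h1)
        · exact Or.inr (Or.inr (hFD h1))
    · rintro z (rfl | hz) hzW
      · exact h.dWD _ hzW hy
      · exact h.dUW _ hz hzW
    · rintro z (rfl | hz) hzF
      · exact hyF hzF
      · exact h.dUD _ hz (hFD hzF)
    · intro z hz hzF
      exact h.dWD _ hz (hFD hzF)
    · rintro z (rfl | hz) w hw hzw
      · exact hyW w hw hzw.symm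
      · exact h.nadj z hz w hw hzw
  · push Not at hall
    obtain ⟨z, hzD, hzy, hzF⟩ := hall
    have hzS := hSn z hzD hzy
    set F2 := comp G S z with hF2
    have hF2D : F2 ⊆ D := (comp_sub (y := y)).1
    have hyF2 : y ∉ F2 := (comp_sub (D := D)).2
    have hF2c : Cn G F2 := cn_comp hzS
    have hFF2 : ∀ x ∈ F, x ∉ F2 := by
      intro x hx hx2
      apply hzF
      rw [hF, ← comp_eq hx, comp_eq hx2]
      exact mem_comp_self hzS
    obtain ⟨t2, ht2, ht2y⟩ := comp_adj_y h.cD hy hzD hzy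
    -- the rest is connected
    have hrest : Cn G (D \ F2) := by
      have hsub : ({y} : Set V) ⊆ D \ F2 := Set.singleton_subset_iff.2 ⟨hy, hyF2⟩
      apply cn_of_base (cn_singleton G y) hsub
      rintro x ⟨hxD, hxF2⟩
      by_cases hxy : x = y
      · exact ⟨{x}, Set.singleton_subset_iff.2 ⟨hxD, hxF2⟩, cn_singleton G x, rfl,
          Or.inl ⟨y, rfl, hxy.symm⟩⟩
      · have hxS := hSn x hxD hxy
        obtain ⟨s, hs, hsy⟩ := comp_adj_y h.cD hy hxD hxy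
        refine ⟨comp G S x, ?_, cn_comp hxS, mem_comp_self hxS, Or.inr ⟨y, rfl, s, hs, hsy.symm⟩⟩
        intro w hw
        refine ⟨(comp_sub (y := y)).1 hw, fun hwF2 => hxF2 ?_⟩
        rw [hF2, ← comp_eq hwF2, comp_eq hw]
        exact mem_comp_self hxS
    have hlt : (D \ F2).ncard < D.ncard := by
      have hss : D \ F2 ⊂ D := ⟨Set.sdiff_subset, fun hh => (hh hzD).2 (mem_comp_self hzS)⟩
      exact Set.ncard_lt_ncard hss (Set.toFinite _)
    have hcov : ∀ x, x ∈ P ↔ x ∈ U ∨ x ∈ W ∨ x ∈ F2 ∨ x ∈ D \ F2 := by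
      intro x
      rw [h.cover]
      constructor
      · rintro (h1 | h1 | h1)
        · exact Or.inl h1
        · exact Or.inr (Or.inl h1)
        · by_cases hx : x ∈ F2
          · exact Or.inr (Or.inr (Or.inl hx))
          · exact Or.inr (Or.inr (Or.inr ⟨h1, hx⟩))
      · rintro (h1 | h1 | h1 | h1)
        · exact Or.inl h1
        · exact Or.inr (Or.inl h1)
        · exact Or.inr (Or.inr (hF2D h1))
        · exact Or.inr (Or.inr h1.1)
    have hatt : (∃ x ∈ U, ∃ t ∈ F2, G.Adj x t) ∨ (∃ x ∈ W, ∃ t ∈ F2, G.Adj x t) := by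
      have hzP : z ∈ P := (h.cover z).2 (Or.inr (Or.inr hzD))
      obtain ⟨T, hTP, hT, hyT, hzT, huv⟩ := h.tight y hyP z hzP hzy
      have hex : ∃ o ∈ T, o ∉ F2 := by
        rcases huv with h1 | h1
        · exact ⟨u, h1, fun hh => h.dUD u h.uU (hF2D hh)⟩
        · exact ⟨v, h1, fun hh => h.dWD v h.vW (hF2D hh)⟩
      obtain ⟨o, hoT, hoF⟩ := hex
      obtain ⟨a, ha, c, hc, hac⟩ := hT.2 (T ∩ F2) Set.inter_subset_left
        ⟨z, hzT, mem_comp_self hzS⟩ ⟨o, hoT, fun hh => hoF hh.2⟩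
      have hcF : c ∉ F2 := fun hh => hc.2 ⟨hc.1, hh⟩
      have hcy : c ≠ y := fun e => hyT (e ▸ hc.1)
      rcases (h.cover c).1 (hTP hc.1) with h1 | h1 | h1
      · exact Or.inl ⟨c, h1, a, ha.2, hac.symm⟩
      · exact Or.inr ⟨c, h1, a, ha.2, hac.symm⟩
      · exact absurd (comp_closed ha.2 (hSn c h1 hcy) hac) hcF
    by_cases h2U : ∃ x ∈ U, ∃ t ∈ F2, G.Adj x t
    · by_cases h2W : ∃ x ∈ W, ∃ t ∈ F2, G.Adj x t
      · -- the four sets
        refine h.quad_of (T₁ := insert y F) (T₂ := F2) ?_ hF2D (cn_insert hFc ht hty) hF2c ?_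
          ⟨y, Or.inl rfl, t2, ht2, ht2y.symm⟩ ?_ ?_ h2U h2W
        · exact Set.insert_subset hy hFD
        · rintro x (rfl | hx)
          · exact hyF2
          · exact hFF2 x hx
        · obtain ⟨x, hx, s, hs, hxs⟩ := hbU
          exact ⟨x, hx, s, Or.inr hs, hxs⟩
        · obtain ⟨x, hx, s, hs, hxs⟩ := hbW
          exact ⟨x, hx, s, Or.inr hs, hxs⟩
      · push Not at h2W
        obtain ⟨x, hx, s, hs, hxs⟩ := h2U
        refine IH u v (U ∪ F2) W (D \ F2) hlt ⟨h.tight, h.nonsep, Or.inl h.uU, h.vW,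
          cn_union G h.cU hF2c (Or.inr ⟨x, hx, s, hs, hxs⟩), h.cW, hrest, ?_, ?_, ?_, ?_, ?_⟩
        · intro z
          rw [hcov]
          constructor
          · rintro (h1 | h1 | h1 | h1)
            · exact Or.inl (Or.inl h1)
            · exact Or.inr (Or.inl h1)
            · exact Or.inl (Or.inr h1)
            · exact Or.inr (Or.inr h1)
          · rintro ((h1 | h1) | h1 | h1)
            · exact Or.inl h1
            · exact Or.inr (Or.inr (Or.inl h1))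
            · exact Or.inr (Or.inl h1)
            · exact Or.inr (Or.inr (Or.inr h1))
        · rintro z (hz | hz) hzW
          · exact h.dUW _ hz hzW
          · exact h.dWD _ hzW (hF2D hz)
        · rintro z (hz | hz) hzF
          · exact h.dUD _ hz hzF.1
          · exact hzF.2 hz
        · intro z hz hzF
          exact h.dWD _ hz hzF.1
        · rintro z (hz | hz) w hw hzw
          · exact h.nadj z hz w hw hzw
          · exact h2W w hw z hz hzw.symm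
    · have h2W := hatt.resolve_left h2U
      push Not at h2U
      obtain ⟨x, hx, s, hs, hxs⟩ := h2W
      refine IH u v U (W ∪ F2) (D \ F2) hlt ⟨h.tight, h.nonsep, h.uU, Or.inl h.vW, h.cU,
        cn_union G h.cW hF2c (Or.inr ⟨x, hx, s, hs, hxs⟩), hrest, ?_, ?_, ?_, ?_, ?_⟩
      · intro z
        rw [hcov]
        constructor
        · rintro (h1 | h1 | h1 | h1)
          · exact Or.inl h1
          · exact Or.inr (Or.inl (Or.inl h1))
          · exact Or.inr (Or.inl (Or.inr h1))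
          · exact Or.inr (Or.inr h1)
        · rintro (h1 | (h1 | h1) | h1)
          · exact Or.inl h1
          · exact Or.inr (Or.inl h1)
          · exact Or.inr (Or.inr (Or.inl h1))
          · exact Or.inr (Or.inr (Or.inr h1))
      · rintro z hz (hzW | hzW)
        · exact h.dUW _ hz hzW
        · exact h.dUD _ hz (hF2D hzW)
      · intro z hz hzF
        exact h.dUD _ hz hzF.1
      · rintro z (hz | hz) hzF
        · exact h.dWD _ hz hzF.1
        · exact hzF.2 hz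
      · rintro z hz w (hw | hw) hzw
        · exact h.nadj z hz w hw hzw
        · exact h2U z hz w hw hzw

theorem m2 [Fintype V] : ∀ (n : ℕ) (u v : V) (U W D : Set V), D.ncard = n →
    MH G P U W D u v → Quad G P u v := by
  intro n
  induction n using Nat.strong_induction_on with
  | _ n ih =>
  intro u v U W D hn h
  have IH : ∀ (u v : V) (U W D' : Set V), D'.ncard < D.ncard → MH G P U W D' u v →
      Quad G P u v := fun u v U W D' hlt h' => ih D'.ncard (by omega) u v U W D' rfl h'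
  by_cases hA : ∃ y ∈ D, (∃ x ∈ U, G.Adj x y) ∧ ∀ x ∈ W, ¬ G.Adj x y
  · obtain ⟨y, hy, hyU, hyW⟩ := hA
    exact m2_step h IH hy hyU hyW
  by_cases hB : ∃ y ∈ D, (∃ x ∈ W, G.Adj x y) ∧ ∀ x ∈ U, ¬ G.Adj x y
  · obtain ⟨y, hy, hyW, hyU⟩ := hB
    exact (m2_step h.symm IH hy hyW hyU).symm
  push Not at hA hB
  -- neighbours of U in D
  have key : ∀ T : Set V, T ⊆ P → Cn G T → u ∈ T → v ∈ T → ∃ a ∈ T, a ∈ D ∧
      ∃ x ∈ U, G.Adj x a := by
    intro T hTP hT huT hvT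
    obtain ⟨x, hx, a, ha, hxa⟩ := hT.2 (T ∩ U) Set.inter_subset_left ⟨u, huT, h.uU⟩
      ⟨v, hvT, fun hh => h.dUW v hh.2 h.vW⟩
    have haU : a ∉ U := fun hh => ha.2 ⟨ha.1, hh⟩
    refine ⟨a, ha.1, ?_, x, hx.2, hxa⟩
    rcases (h.cover a).1 (hTP ha.1) with h1 | h1 | h1
    · exact absurd h1 haU
    · exact absurd hxa (h.nadj x hx.2 a h1)
    · exact h1
  obtain ⟨d, hd⟩ := h.cD.1
  have hsep : ∀ a ∈ D, ∃ T ⊆ P, Cn G T ∧ a ∉ T ∧ u ∈ T ∧ v ∈ T := fun a ha =>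
    h.nonsep a ((h.cover a).2 (Or.inr (Or.inr ha))) (fun e => h.dUD _ h.uU (e ▸ ha))
      (fun e => h.dWD _ h.vW (e ▸ ha))
  obtain ⟨T, hTP, hT, _, huT, hvT⟩ := hsep d hd
  obtain ⟨a, _, haD, xa, hxa, hxaa⟩ := key T hTP hT huT hvT
  obtain ⟨T, hTP, hT, haT, huT, hvT⟩ := hsep a haD
  obtain ⟨b, hbT, hbD, xb, hxb, hxbb⟩ := key T hTP hT huT hvT
  have hba : b ≠ a := fun e => haT (e ▸ hbT)
  have hbS : b ∉ Dᶜ ∪ {a} := by
    rintro (h1 | h1)
    · exact h1 hbD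
    · exact hba h1
  obtain ⟨t, ht, hta⟩ := comp_adj_y h.cD haD hbD hba
  obtain ⟨ya, hya, hyaa⟩ := hA a haD ⟨xa, hxa, hxaa⟩
  obtain ⟨yb, hyb, hybb⟩ := hA b hbD ⟨xb, hxb, hxbb⟩
  exact h.quad_of (T₁ := {a}) (T₂ := comp G (Dᶜ ∪ {a}) b) (Set.singleton_subset_iff.2 haD)
    (comp_sub (y := a)).1 (cn_singleton G a) (cn_comp hbS)
    (by rintro x rfl; exact (comp_sub (D := D)).2) ⟨a, rfl, t, ht, hta.symm⟩
    ⟨xa, hxa, a, rfl, hxaa⟩ ⟨ya, hya, a, rfl, hyaa⟩ ⟨xb, hxb, b, mem_comp_self hbS, hxbb⟩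
    ⟨yb, hyb, b, mem_comp_self hbS, hybb⟩

end m2

end Pool.Agent.H67.WQ
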