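import Pool.Agent.H67.WQ.Comp

set_option autoImplicit false

namespace Pool.Agent.H67.WQ

/-! ### Contractions between parts of graphs -/

/-- `f` restricted to `P'` is a contraction of the graph `G'` on `P'` onto the graph `G` on `P` -/
structure Mod {V' V : Type} (G' : SimpleGraph V') (P' : Set V') (G : SimpleGraph V) (P : Set V)
    (f : V' → V) : Prop where
  maps : ∀ x ∈ P', f x ∈ P
  fib : ∀ w ∈ P, Cn G' {x | x ∈ P' ∧ f x = w}
  adj : ∀ a ∈ P, ∀ b ∈ P, (G.Adj a b ↔ a ≠ b ∧ ∃ x ∈ P', ∃ y ∈ P', f x = a ∧ f y = b ∧ G'.Adj x y)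

theorem Cn.mono_graph {V : Type} {G G' : SimpleGraph V} {S : Set V} (h : Cn G S)
    (hG : ∀ x ∈ S, ∀ y ∈ S, G.Adj x y → G'.Adj x y) : Cn G' S := by
  refine ⟨h.1, fun A hA hA1 hA2 => ?_⟩
  obtain ⟨a, ha, b, hb, hab⟩ := h.2 A hA hA1 hA2
  exact ⟨a, ha, b, hb, hG a (hA ha) b hb.1 hab⟩

section mod
variable {V'' V' V : Type} {G'' : SimpleGraph V''} {G' : SimpleGraph V'} {G : SimpleGraph V}
  {P'' : Set V''} {P' : Set V'} {P : Set V} {f : V' → V}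

theorem Mod.surj (h : Mod G' P' G P f) {w : V} (hw : w ∈ P) : ∃ x ∈ P', f x = w := by
  obtain ⟨x, hx⟩ := (h.fib w hw).1
  exact ⟨x, hx.1, hx.2⟩

theorem Mod.congr {g : V' → V} (h : Mod G' P' G P f) (hg : ∀ x ∈ P', g x = f x) :
    Mod G' P' G P g := by
  refine ⟨fun x hx => ?_, fun w hw => ?_, fun a ha b hb => ?_⟩
  · rw [hg x hx]; exact h.maps x hx
  · have : {x | x ∈ P' ∧ g x = w} = {x | x ∈ P' ∧ f x = w} := by
      ext x
      constructor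
      · rintro ⟨hx, hxw⟩
        exact ⟨hx, by rw [← hg x hx]; exact hxw⟩
      · rintro ⟨hx, hxw⟩
        exact ⟨hx, by rw [hg x hx]; exact hxw⟩
    rw [this]; exact h.fib w hw
  · rw [h.adj a ha b hb]
    constructor
    · rintro ⟨hne, x, hx, y, hy, hxa, hyb, hxy⟩
      exact ⟨hne, x, hx, y, hy, by rw [hg x hx]; exact hxa, by rw [hg y hy]; exact hyb, hxy⟩
    · rintro ⟨hne, x, hx, y, hy, hxa, hyb, hxy⟩
      exact ⟨hne, x, hx, y, hy, by rw [← hg x hx]; exact hxa, by rw [← hg y hy]; exact hyb, hxy⟩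

theorem Mod.cn_preimage (h : Mod G' P' G P f) {T : Set V} (hTP : T ⊆ P) (hT : Cn G T) :
    Cn G' {x | x ∈ P' ∧ f x ∈ T} := by
  constructor
  · obtain ⟨w, hw⟩ := hT.1
    obtain ⟨x, hx, rfl⟩ := h.surj (hTP hw)
    exact ⟨x, hx, hw⟩
  · intro A hA hA1 hA2
    by_cases hs : ∃ w ∈ T, (∃ x ∈ A, f x = w) ∧ (∃ y, y ∈ P' ∧ y ∉ A ∧ f y = w)
    · obtain ⟨w, hw, ⟨x, hx, hxw⟩, ⟨y, hyP, hy, hyw⟩⟩ := hs
      obtain ⟨a, ha, b, hb, hab⟩ := (h.fib w (hTP hw)).2 (A ∩ {x | x ∈ P' ∧ f x = w})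
        Set.inter_subset_right ⟨x, hx, (hA hx).1, hxw⟩ ⟨y, ⟨hyP, hyw⟩, fun hh => hy hh.1⟩
      refine ⟨a, ha.1, b, ⟨⟨hb.1.1, ?_⟩, fun hbA => hb.2 ⟨hbA, hb.1⟩⟩, hab⟩
      rw [hb.1.2]; exact hw
    · push Not at hs
      obtain ⟨a0, ha0⟩ := hA1
      obtain ⟨b0, hb0, hb0'⟩ := hA2
      obtain ⟨a, ha, b, hb, hab⟩ := hT.2 {w | w ∈ T ∧ ∃ x ∈ A, f x = w} (fun w hw => hw.1)
        ⟨f a0, (hA ha0).2, a0, ha0, rfl⟩
        ⟨f b0, hb0.2, fun hh => hs (f b0) hh.1 hh.2 b0 hb0.1 hb0' rfl⟩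
      obtain ⟨_, x, hxP, y, hyP, hx, hy, hxy⟩ := (h.adj a (hTP ha.1) b (hTP hb.1)).1 hab
      refine ⟨x, ?_, y, ⟨⟨hyP, ?_⟩, ?_⟩, hxy⟩
      · by_contra hxA
        exact hs a ha.1 ha.2 x hxP hxA hx
      · rw [hy]; exact hb.1
      · intro hyA
        exact hb.2 ⟨hb.1, y, hyA, hy⟩

theorem Mod.comp {g : V'' → V'} (hg : Mod G'' P'' G' P' g) (hf : Mod G' P' G P f) :
    Mod G'' P'' G P (f ∘ g) := by
  refine ⟨fun x hx => hf.maps _ (hg.maps x hx), fun w hw => ?_, fun a ha b hb => ?_⟩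
  · have := hg.cn_preimage (T := {x | x ∈ P' ∧ f x = w}) (fun x hx => hx.1) (hf.fib w hw)
    have e : {x | x ∈ P'' ∧ g x ∈ {x | x ∈ P' ∧ f x = w}} = {x | x ∈ P'' ∧ (f ∘ g) x = w} := by
      ext x
      constructor
      · rintro ⟨hx, _, hxw⟩
        exact ⟨hx, hxw⟩
      · rintro ⟨hx, hxw⟩
        exact ⟨hx, hg.maps x hx, hxw⟩
    rw [← e]; exact this
  · rw [hf.adj a ha b hb]
    constructor
    · rintro ⟨hne, x, hx, y, hy, hxa, hyb, hxy⟩
      obtain ⟨_, x', hx', y', hy', hxx, hyy, hxy'⟩ := (hg.adj x hx y hy).1 hxy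
      refine ⟨hne, x', hx', y', hy', ?_, ?_, hxy'⟩
      · change f (g x') = a
        rw [hxx]; exact hxa
      · change f (g y') = b
        rw [hyy]; exact hyb
    · rintro ⟨hne, x, hx, y, hy, hxa, hyb, hxy⟩
      have hxa' : f (g x) = a := hxa
      have hyb' : f (g y) = b := hyb
      refine ⟨hne, g x, hg.maps x hx, g y, hg.maps y hy, hxa', hyb', ?_⟩
      rw [hg.adj _ (hg.maps x hx) _ (hg.maps y hy)]
      refine ⟨?_, x, hx, y, hy, rfl, rfl, hxy⟩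
      intro e
      apply hne
      rw [← hxa', ← hyb', e]

theorem Mod.refl (G : SimpleGraph V) (P : Set V) : Mod G P G P id := by
  refine ⟨fun x hx => hx, fun w hw => ?_, fun a ha b hb => ?_⟩
  · have : {x | x ∈ P ∧ id x = w} = {w} := by
      ext x
      constructor
      · rintro ⟨_, hx⟩; exact hx
      · intro hx
        have hx' : x = w := hx
        rw [hx']; exact ⟨hw, rfl⟩
    rw [this]; exact cn_singleton G w
  · constructor
    · intro h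
      exact ⟨h.ne, a, ha, b, hb, rfl, rfl, h⟩
    · rintro ⟨_, x, _, y, _, rfl, rfl, h⟩
      exact h

/-- the image of a connected set is connected -/
theorem Mod.cn_image (h : Mod G' P' G P f) {T : Set V'} (hTP : T ⊆ P') (hT : Cn G' T) :
    Cn G (f '' T) := by
  refine ⟨hT.1.image f, fun A hA hA1 hA2 => ?_⟩
  obtain ⟨a0, ha0⟩ := hA1
  obtain ⟨b0, ⟨y0, hy0, rfl⟩, hb0'⟩ := hA2
  obtain ⟨x0, hx0, rfl⟩ := hA ha0
  obtain ⟨x, hx, y, hy, hxy⟩ := hT.2 {z | z ∈ T ∧ f z ∈ A} (fun z hz => hz.1) ⟨x0, hx0, ha0⟩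
    ⟨y0, hy0, fun hh => hb0' hh.2⟩
  have hyA : f y ∉ A := fun hh => hy.2 ⟨hy.1, hh⟩
  refine ⟨f x, hx.2, f y, ⟨⟨y, hy.1, rfl⟩, hyA⟩, ?_⟩
  rw [h.adj _ (h.maps x (hTP hx.1)) _ (h.maps y (hTP hy.1))]
  exact ⟨fun e => hyA (e ▸ hx.2), x, hTP hx.1, y, hTP hy.1, rfl, rfl, hxy⟩

/-- constant maps of connected sets -/
theorem Mod.const (H : SimpleGraph V) {w : V} (hP : Cn G' P') (hf : ∀ x ∈ P', f x = w) :
    Mod G' P' H {w} f := by
  refine ⟨fun x hx => hf x hx, fun v hv => ?_, fun a ha b hb => ?_⟩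
  · have hv' : v = w := hv
    have : {x | x ∈ P' ∧ f x = v} = P' := by
      ext x
      constructor
      · rintro ⟨hx, _⟩; exact hx
      · intro hx
        exact ⟨hx, by rw [hv']; exact hf x hx⟩
    rw [this]; exact hP
  · have ha' : a = w := ha
    have hb' : b = w := hb
    rw [ha', hb']
    constructor
    · intro h; exact absurd h (H.loopless.irrefl _)
    · rintro ⟨h, _⟩; exact absurd rfl h

/-- The gluing lemma. -/
theorem Mod.glue {ι : Type} {Q' : ι → Set V'} {Q : ι → Set V} {H' : ι → SimpleGraph V'}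
    {H : ι → SimpleGraph V} (h : ∀ i, Mod (H' i) (Q' i) (H i) (Q i) f)
    (hP' : ∀ x, x ∈ P' ↔ ∃ i, x ∈ Q' i) (hP : ∀ x, x ∈ P ↔ ∃ i, x ∈ Q i)
    (e1 : ∀ i, ∀ x ∈ Q' i, ∀ y ∈ Q' i, (H' i).Adj x y → G'.Adj x y)
    (e2 : ∀ x ∈ P', ∀ y ∈ P', G'.Adj x y → ∃ i, x ∈ Q' i ∧ y ∈ Q' i ∧ (H' i).Adj x y)
    (e3 : ∀ i, ∀ x ∈ Q i, ∀ y ∈ Q i, (H i).Adj x y → G.Adj x y)
    (e4 : ∀ x ∈ P, ∀ y ∈ P, G.Adj x y → ∃ i, x ∈ Q i ∧ y ∈ Q i ∧ (H i).Adj x y)
    (c : V → ι) (hc : ∀ i, ∀ w ∈ Q i, w ∈ Q (c w) ∧ ∃ x ∈ Q' i, x ∈ Q' (c w) ∧ f x = w) :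
    Mod G' P' G P f := by
  refine ⟨fun x hx => ?_, fun w hw => ?_, fun a ha b hb => ?_⟩
  · obtain ⟨i, hi⟩ := (hP' x).1 hx
    exact (hP _).2 ⟨i, (h i).maps x hi⟩
  · obtain ⟨i0, hi0⟩ := (hP w).1 hw
    have hwc := (hc i0 w hi0).1
    have hfibG : ∀ i, w ∈ Q i → Cn G' {x | x ∈ Q' i ∧ f x = w} := fun i hi =>
      ((h i).fib w hi).mono_graph fun x hx y hy => e1 i x hx.1 y hy.1
    apply cn_of_base (hfibG _ hwc)
    · rintro x ⟨hx, hxw⟩
      exact ⟨(hP' x).2 ⟨_, hx⟩, hxw⟩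
    · rintro x ⟨hx, hxw⟩
      obtain ⟨i, hi⟩ := (hP' x).1 hx
      have hwi : w ∈ Q i := by
        rw [← hxw]; exact (h i).maps x hi
      obtain ⟨_, z, hz, hzc, hzw⟩ := hc i w hwi
      refine ⟨{x | x ∈ Q' i ∧ f x = w}, ?_, hfibG i hwi, ⟨hi, hxw⟩,
        Or.inl ⟨z, ⟨hzc, hzw⟩, hz, hzw⟩⟩
      rintro y ⟨hy, hyw⟩
      exact ⟨(hP' y).2 ⟨i, hy⟩, hyw⟩
  · constructor
    · intro hab
      obtain ⟨i, hai, hbi, hab'⟩ := e4 a ha b hb hab
      obtain ⟨hne, x, hx, y, hy, hxa, hyb, hxy⟩ := ((h i).adj a hai b hbi).1 hab'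
      exact ⟨hne, x, (hP' x).2 ⟨i, hx⟩, y, (hP' y).2 ⟨i, hy⟩, hxa, hyb, e1 i x hx y hy hxy⟩
    · rintro ⟨hne, x, hx, y, hy, hxa, hyb, hxy⟩
      obtain ⟨i, hxi, hyi, hxy'⟩ := e2 x hx y hy hxy
      have h1 := (h i).maps x hxi
      have h2 := (h i).maps y hyi
      rw [hxa] at h1
      rw [hyb] at h2
      exact e3 i a h1 b h2 (((h i).adj a h1 b h2).2 ⟨hne, x, hxi, y, hyi, hxa, hyb, hxy'⟩)

end mod

/-! ### Separations of order one -/

/-- `P` is the union of `P₁` and `P₂`, which share only `w`, without cross edges -/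
structure Sep {V : Type} (G : SimpleGraph V) (P P₁ P₂ : Set V) (w : V) : Prop where
  union : ∀ x, x ∈ P ↔ x ∈ P₁ ∨ x ∈ P₂
  inter : ∀ x, x ∈ P₁ → x ∈ P₂ → x = w
  w1 : w ∈ P₁
  w2 : w ∈ P₂
  edge : ∀ x ∈ P₁, ∀ y ∈ P₂, G.Adj x y → x = w ∨ y = w

section sep
variable {V' V : Type} {G' : SimpleGraph V'} {G : SimpleGraph V} {P' P₁' P₂' : Set V'}
  {P P₁ P₂ : Set V} {w' : V'} {w : V}

theorem Sep.symm (h : Sep G P P₁ P₂ w) : Sep G P P₂ P₁ w :=
  ⟨fun x => (h.union x).trans or_comm, fun x h1 h2 => h.inter x h2 h1, h.w2, h.w1,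
    fun x hx y hy hxy => (h.edge y hy x hx hxy.symm).symm⟩

/-- an edge of a separation lies in one of the two sides -/
theorem Sep.edge_cases (h : Sep G P P₁ P₂ w) {x y : V} (hx : x ∈ P) (hy : y ∈ P)
    (hxy : G.Adj x y) : (x ∈ P₁ ∧ y ∈ P₁) ∨ (x ∈ P₂ ∧ y ∈ P₂) := by
  rcases (h.union x).1 hx with hx | hx <;> rcases (h.union y).1 hy with hy | hy
  · exact Or.inl ⟨hx, hy⟩
  · rcases h.edge x hx y hy hxy with e | e
    · exact Or.inr ⟨by rw [e]; exact h.w2, hy⟩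
    · exact Or.inl ⟨hx, by rw [e]; exact h.w1⟩
  · rcases h.edge y hy x hx hxy.symm with e | e
    · exact Or.inr ⟨hx, by rw [e]; exact h.w2⟩
    · exact Or.inl ⟨by rw [e]; exact h.w1, hy⟩
  · exact Or.inr ⟨hx, hy⟩

open Classical in
theorem Sep.glue (h : Sep G P P₁ P₂ w) (h' : Sep G' P' P₁' P₂' w') {f₁ f₂ : V' → V}
    (m1 : Mod G' P₁' G P₁ f₁) (m2 : Mod G' P₂' G P₂ f₂) (hw1 : f₁ w' = w) (hw2 : f₂ w' = w) :
    Mod G' P' G P (fun x => if x ∈ P₁' then f₁ x else f₂ x) := by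
  classical
  set F : V' → V := fun x => if x ∈ P₁' then f₁ x else f₂ x with hF
  have F1 : ∀ x ∈ P₁', F x = f₁ x := fun x hx => by simp only [F]; rw [if_pos hx]
  have F2 : ∀ x ∈ P₂', F x = f₂ x := fun x hx => by
    by_cases hx1 : x ∈ P₁'
    · rw [F1 x hx1, h'.inter x hx1 hx, hw1, hw2]
    · simp only [F]; rw [if_neg hx1]
  apply Mod.glue (ι := Bool) (Q' := fun b => if b then P₁' else P₂')
    (Q := fun b => if b then P₁ else P₂) (H' := fun _ => G') (H := fun _ => G)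
    (c := fun v => if v ∈ P₁ then true else false)
  · intro b
    cases b
    · exact m2.congr F2
    · exact m1.congr F1
  · intro x
    rw [h'.union]
    constructor
    · rintro (hx | hx)
      · exact ⟨true, hx⟩
      · exact ⟨false, hx⟩
    · rintro ⟨b, hb⟩
      cases b
      · exact Or.inr hb
      · exact Or.inl hb
  · intro x
    rw [h.union]
    constructor
    · rintro (hx | hx)
      · exact ⟨true, hx⟩
      · exact ⟨false, hx⟩
    · rintro ⟨b, hb⟩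
      cases b
      · exact Or.inr hb
      · exact Or.inl hb
  · intro _ x _ y _ hxy; exact hxy
  · intro x hx y hy hxy
    rcases h'.edge_cases hx hy hxy with ⟨h1, h2⟩ | ⟨h1, h2⟩
    · exact ⟨true, h1, h2, hxy⟩
    · exact ⟨false, h1, h2, hxy⟩
  · intro _ x _ y _ hxy; exact hxy
  · intro x hx y hy hxy
    rcases h.edge_cases hx hy hxy with ⟨h1, h2⟩ | ⟨h1, h2⟩
    · exact ⟨true, h1, h2, hxy⟩
    · exact ⟨false, h1, h2, hxy⟩
  · intro b v hv
    by_cases hv1 : v ∈ P₁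
    · simp only [hv1, if_true]
      refine ⟨trivial, ?_⟩
      cases b
      · have hvw : v = w := h.inter v hv1 hv
        exact ⟨w', h'.w2, h'.w1, by rw [F1 _ h'.w1, hw1, hvw]⟩
      · obtain ⟨x, hx, hxv⟩ := m1.surj hv1
        exact ⟨x, hx, hx, by rw [F1 x hx, hxv]⟩
    · simp only [hv1, if_false]
      cases b
      · refine ⟨hv, ?_⟩
        obtain ⟨x, hx, hxv⟩ := m2.surj hv
        exact ⟨x, hx, hx, by rw [F2 x hx, hxv]⟩
      · exact absurd hv hv1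

open Classical in
/-- contracting one side of a separation -/
theorem Sep.retract (h : Sep G P P₁ P₂ w) (h2 : Cn G P₂) :
    Mod G P G P₁ (fun x => if x ∈ P₁ then x else w) := by
  classical
  have h' : Sep G P₁ P₁ {w} w := by
    refine ⟨fun x => ⟨fun hx => Or.inl hx, ?_⟩, fun x _ hx => hx, h.w1, rfl,
      fun x _ y hy _ => Or.inr hy⟩
    rintro (hx | hx)
    · exact hx
    · have hx' : x = w := hx
      rw [hx']; exact h.w1
  have := h'.glue h (Mod.refl G P₁) (Mod.const (f := fun _ => w) G h2 (fun _ _ => rfl)) rfl rfl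
  exact this

end sep

/-! ### Rooted parts -/

/-- a part of a graph with a root -/
structure RG where
  n : ℕ
  G : SimpleGraph (Fin n)
  P : Set (Fin n)
  x : Fin n

/-- rooted contraction -/
def RG.le (A A' : RG) : Prop := ∃ f : Fin A'.n → Fin A.n, Mod A'.G A'.P A.G A.P f ∧ f A'.x = A.x

instance : IsPreorder RG RG.le where
  refl A := ⟨id, Mod.refl _ _, rfl⟩
  trans A B C := by
    rintro ⟨f, hf, hfx⟩ ⟨g, hg, hgx⟩
    refine ⟨f ∘ g, hg.comp hf, ?_⟩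
    change f (g C.x) = A.x
    rw [hgx, hfx]

/-- a part of a graph with two terminals and labels -/
structure LN (L : Type) where
  n : ℕ
  G : SimpleGraph (Fin n)
  P : Set (Fin n)
  u : Fin n
  v : Fin n
  lab : Fin n → L

/-- labelled contraction of networks -/
def LN.le {L : Type} (R : L → L → Prop) (N N' : LN L) : Prop :=
  ∃ f : Fin N'.n → Fin N.n, Mod N'.G N'.P N.G N.P f ∧ f N'.u = N.u ∧ f N'.v = N.v ∧
    ∀ w ∈ N.P, w ≠ N.u → w ≠ N.v → ∃ x ∈ N'.P, f x = w ∧ R (N.lab w) (N'.lab x)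

instance {L : Type} {R : L → L → Prop} [hR : IsPreorder L R] : IsPreorder (LN L) (LN.le R) where
  refl A := ⟨id, Mod.refl _ _, rfl, rfl, fun w hw _ _ => ⟨w, hw, rfl, refl_of R _⟩⟩
  trans A B C := by
    rintro ⟨f, hf, hfu, hfv, hfl⟩ ⟨g, hg, hgu, hgv, hgl⟩
    refine ⟨f ∘ g, hg.comp hf, ?_, ?_, ?_⟩
    · change f (g C.u) = A.u
      rw [hgu, hfu]
    · change f (g C.v) = A.v
      rw [hgv, hfv]
    · intro w hw hwu hwv
      obtain ⟨x, hx, hxw, hxl⟩ := hfl w hw hwu hwv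
      obtain ⟨y, hy, hyx, hyl⟩ := hgl x hx (by rintro rfl; exact hwu (hxw.symm.trans hfu))
        (by rintro rfl; exact hwv (hxw.symm.trans hfv))
      refine ⟨y, hy, ?_, trans_of R hxl hyl⟩
      change f (g y) = w
      rw [hyx, hxw]

/-! ### The minimal bad sequence argument -/

open Set.PartiallyWellOrderedOn in
theorem nash_williams {α : Type} (r : α → α → Prop) (rk : α → ℕ) (S : Set α) (f : ℕ → α)
    (hf : IsBadSeq r S f) (hmin : ∀ n, IsMinBadSeq r rk S n f) :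
    {x | x ∈ S ∧ ∃ i, rk x < rk (f i) ∧ ∀ y ∈ S, r y x → r y (f i)}.PartiallyWellOrderedOn r := by
  classical
  rw [iff_forall_not_isBadSeq]
  rintro g ⟨hgT, hgb⟩
  choose hgS i hi using hgT
  obtain ⟨k0, hk0⟩ : ∃ k0, ∀ k, i k0 ≤ i k := by
    have hex : ∃ m, ∃ k, i k = m := ⟨_, 0, rfl⟩
    obtain ⟨k0, hk0⟩ := Nat.find_spec hex
    exact ⟨k0, fun k => by rw [hk0]; exact Nat.find_min' hex ⟨k, rfl⟩⟩
  let h : ℕ → α := fun n => if n < i k0 then f n else g (k0 + (n - i k0))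
  have h1 : ∀ n, n < i k0 → h n = f n := fun n hn => by simp only [h]; rw [if_pos hn]
  have h2 : ∀ n, i k0 ≤ n → h n = g (k0 + (n - i k0)) := fun n hn => by
    simp only [h]; rw [if_neg (by omega)]
  apply hmin (i k0) h (fun m hm => (h1 m hm).symm)
  · rw [h2 _ le_rfl, Nat.sub_self, Nat.add_zero]
    exact (hi k0).1
  · refine ⟨fun n => ?_, fun m n hmn => ?_⟩
    · by_cases hn : n < i k0
      · rw [h1 n hn]; exact hf.1 n
      · rw [h2 n (by omega)]; exact hgS _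
    · by_cases hn : n < i k0
      · rw [h1 n hn, h1 m (by omega)]
        exact hf.2 m n hmn
      · rw [h2 n (by omega)]
        by_cases hm : m < i k0
        · rw [h1 m hm]
          intro hr
          have := (hi _).2 (f m) (hf.1 m) hr
          have h3 := hk0 (k0 + (n - i k0))
          exact hf.2 m _ (by omega) this
        · rw [h2 m (by omega)]
          exact hgb _ _ (by omega)

theorem good_pair₂ {α β : Type} {ra : α → α → Prop} {rb : β → β → Prop} [IsPreorder α ra]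
    [IsPreorder β rb] {A : Set α} {B : Set β} (hA : A.PartiallyWellOrderedOn ra)
    (hB : B.PartiallyWellOrderedOn rb) (a : ℕ → α) (b : ℕ → β) (ha : ∀ n, a n ∈ A)
    (hb : ∀ n, b n ∈ B) : ∃ i j, i < j ∧ ra (a i) (a j) ∧ rb (b i) (b j) := by
  obtain ⟨g, hg⟩ := hA.exists_monotone_subseq ha
  obtain ⟨i, j, hij, h⟩ := Set.partiallyWellOrderedOn_iff_exists_lt.1 hB (fun n => b (g n))
    (fun n => hb _)
  exact ⟨g i, g j, g.lt_iff_lt.2 hij, hg i j (le_of_lt hij), h⟩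

theorem good_pair₃ {α β γ : Type} {ra : α → α → Prop} {rb : β → β → Prop} {rc : γ → γ → Prop}
    [IsPreorder α ra] [IsPreorder β rb] [IsPreorder γ rc] {A : Set α} {B : Set β} {C : Set γ}
    (hA : A.PartiallyWellOrderedOn ra) (hB : B.PartiallyWellOrderedOn rb)
    (hC : C.PartiallyWellOrderedOn rc) (a : ℕ → α) (b : ℕ → β) (c : ℕ → γ) (ha : ∀ n, a n ∈ A)
    (hb : ∀ n, b n ∈ B) (hc : ∀ n, c n ∈ C) :
    ∃ i j, i < j ∧ ra (a i) (a j) ∧ rb (b i) (b j) ∧ rc (c i) (c j) := by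
  obtain ⟨g, hg⟩ := hA.exists_monotone_subseq ha
  obtain ⟨i, j, hij, h⟩ := good_pair₂ hB hC (fun n => b (g n)) (fun n => c (g n))
    (fun n => hb _) (fun n => hc _)
  exact ⟨g i, g j, g.lt_iff_lt.2 hij, hg i j (le_of_lt hij), h⟩

end Pool.Agent.H67.WQ
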