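import Pool.Agent.H67.WQ.Fam

set_option autoImplicit false

namespace Pool.Agent.H67.WQ

/-- The pairs `(S, M)` that survive all antichains: `S` is a star `K_{1,p}` or a graph `K_{1,1,p}`
with `p ≥ 3`, and `M` is a complete graph on `m` vertices minus `a` disjoint edges, where
`2a + 1 ≤ m` and either `a ≤ 1`, or `a = 2` and `p = 3`. -/
def GoodPair (S M : FG) : Prop :=
  ∃ p a m : ℕ, 3 ≤ p ∧ 2 * a + 1 ≤ m ∧ (a ≤ 1 ∨ (a = 2 ∧ p = 3)) ∧
    (Nonempty (S.G ≃g (star p).G) ∨ Nonempty (S.G ≃g (starPlus p).G)) ∧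
    Nonempty (M.G ≃g (coMatch m a).G)

theorem Contr.to_iso {V W : Type} {G : SimpleGraph V} {H : SimpleGraph W} (e : H ≃g G) :
    Contr G H := Contr.of_iso e.symm

/-- `K_{1,1,q}` contracts to `K_{1,1,p}` for `p ≤ q` -/
theorem contr_starPlus {p q : ℕ} (h : p ≤ q) :
    Contr (V := Fin (q + 2)) (W := Fin (p + 2)) (starPlus q).G (starPlus p).G := by
  refine ⟨fun i => if hi : (i : ℕ) < p + 2 then ⟨i, hi⟩ else ⟨0, by omega⟩, ?_, ?_⟩
  · intro w
    by_cases hw : (w : ℕ) = 0
    · apply cn_of_center _ (c := (⟨0, by omega⟩ : Fin (q + 2)))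
      · change (if hi : (0 : ℕ) < p + 2 then (⟨0, hi⟩ : Fin (p + 2)) else ⟨0, by omega⟩) = w
        rw [dif_pos (by omega)]
        exact Fin.ext hw.symm
      · intro x _ hx
        refine ⟨Ne.symm hx, Or.inl ?_⟩
        change (0 : ℕ) < 2
        omega
    · have : {v : Fin (q + 2) | (if hi : (v : ℕ) < p + 2 then (⟨v, hi⟩ : Fin (p + 2))
          else ⟨0, by omega⟩) = w} = {⟨w, by omega⟩} := by
        ext v
        simp only [Set.mem_ofPred_eq, Set.mem_singleton_iff]
        constructor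
        · intro hv
          by_cases hi : (v : ℕ) < p + 2
          · rw [dif_pos hi] at hv
            apply Fin.ext
            have := congrArg Fin.val hv
            exact this
          · rw [dif_neg hi] at hv
            exact absurd (congrArg Fin.val hv).symm hw
        · intro hv
          have hv' : (v : ℕ) = w := congrArg Fin.val hv
          rw [dif_pos (by omega)]
          exact Fin.ext hv'
      rw [this]
      exact cn_singleton _ _
  · intro a b
    constructor
    · rintro ⟨hne, hab⟩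
      refine ⟨hne, ⟨a, by omega⟩, ⟨b, by omega⟩, ?_, ?_, ?_, ?_⟩
      · simp
      · simp
      · intro e
        apply hne
        apply Fin.ext
        have := congrArg Fin.val e
        exact this
      · exact hab
    · rintro ⟨hne, x, y, hx, hy, hxy, hlt⟩
      refine ⟨hne, ?_⟩
      have hx' : (if hi : (x : ℕ) < p + 2 then (⟨x, hi⟩ : Fin (p + 2)) else ⟨0, by omega⟩) = a :=
        hx
      have hy' : (if hi : (y : ℕ) < p + 2 then (⟨y, hi⟩ : Fin (p + 2)) else ⟨0, by omega⟩) = b :=
        hy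
      rcases hlt with hlt | hlt
      · left
        rw [dif_pos (by omega)] at hx'
        rw [← hx']; exact hlt
      · right
        rw [dif_pos (by omega)] at hy'
        rw [← hy']; exact hlt

/-- `K_{1,1,p}` contracts to `K_{1,p}` -/
theorem contr_starPlus_star (p : ℕ) :
    Contr (V := Fin (p + 2)) (W := Fin (p + 1)) (starPlus p).G (star p).G := by
  refine ⟨fun i => ⟨(i : ℕ) - 1, by omega⟩, ?_, ?_⟩
  · intro w
    by_cases hw : (w : ℕ) = 0
    · apply cn_of_center _ (c := (⟨0, by omega⟩ : Fin (p + 2)))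
      · exact Fin.ext hw.symm
      · intro x _ hx
        refine ⟨Ne.symm hx, Or.inl ?_⟩
        change (0 : ℕ) < 2
        omega
    · have : {v : Fin (p + 2) | (⟨(v : ℕ) - 1, by omega⟩ : Fin (p + 1)) = w} =
          {⟨w + 1, by omega⟩} := by
        ext v
        simp only [Set.mem_ofPred_eq, Set.mem_singleton_iff]
        constructor
        · intro hv
          have := congrArg Fin.val hv
          simp only at this
          apply Fin.ext
          simp only
          omega
        · intro hv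
          have := congrArg Fin.val hv
          simp only at this
          apply Fin.ext
          simp only
          omega
      rw [this]
      exact cn_singleton _ _
  · intro a b
    constructor
    · rintro ⟨hne, hab⟩
      have hne' : (a : ℕ) ≠ b := fun e => hne (Fin.ext e)
      rcases hab with h0 | h0
      · refine ⟨hne, ⟨0, by omega⟩, ⟨b + 1, by omega⟩, ?_, ?_, ?_, ?_⟩
        · exact Fin.ext (by simp only; omega)
        · exact Fin.ext (by simp only; omega)
        · intro e
          have := congrArg Fin.val e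
          simp only at this
          omega
        · left; change (0 : ℕ) < 2; omega
      · refine ⟨hne, ⟨a + 1, by omega⟩, ⟨0, by omega⟩, ?_, ?_, ?_, ?_⟩
        · exact Fin.ext (by simp only; omega)
        · exact Fin.ext (by simp only; omega)
        · intro e
          have := congrArg Fin.val e
          simp only at this
          omega
        · right; change (0 : ℕ) < 2; omega
    · rintro ⟨hne, x, y, hx, hy, hxy, hlt⟩
      refine ⟨hne, ?_⟩
      rw [← hx, ← hy]
      simp only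
      omega

theorem diamond_star {p : ℕ} (hp : p ≤ 2) : ContractsTo diamond (star p) :=
  contractsTo_iff.2 ((contr_starPlus hp).trans (contr_starPlus_star p))

theorem diamond_starPlus {p : ℕ} (hp : p ≤ 2) : ContractsTo diamond (starPlus p) :=
  contractsTo_iff.2 (contr_starPlus hp)

theorem contractsTo_of_iso_right {G H K : FG} (h : ContractsTo G H) (e : K.G ≃g H.G) :
    ContractsTo G K :=
  contractsTo_iff.2 ((contractsTo_iff.1 h).trans (Contr.to_iso e))

theorem SL.iso {H : FG} (h : SL H.G) :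
    ∃ p, Nonempty (H.G ≃g (star p).G) ∨ Nonempty (H.G ≃g (starPlus p).G) := by
  rcases h with ⟨c, hc⟩ | ⟨c, d, hcd, hc⟩
  · obtain ⟨p, hp⟩ := star_iso H.G c hc
    exact ⟨p, Or.inl hp⟩
  · obtain ⟨p, hp⟩ := starPlus_iso H.G c d hcd hc
    exact ⟨p, Or.inr hp⟩

theorem ML.of_iso {V W : Type} {G : SimpleGraph V} {H : SimpleGraph W} (e : G ≃g H)
    (h : ML G) : ML H := by
  obtain ⟨h1, h2⟩ := h
  refine ⟨contr_univ e.symm h1, fun u v w hv hw huv huw => ?_⟩
  have := h2 (e.symm u) (e.symm v) (e.symm w) (fun h => hv (e.symm.injective h))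
    (fun h => hw (e.symm.injective h)) (fun h => huv (e.symm.map_adj_iff.1 h))
    (fun h => huw (e.symm.map_adj_iff.1 h))
  exact e.symm.injective this

theorem star_not_ML {p : ℕ} (h : ML (star p).G) : p ≤ 2 := by
  by_contra hp
  push Not at hp
  have := h.2 ⟨1, by change 1 < p + 1; omega⟩ ⟨2, by change 2 < p + 1; omega⟩ ⟨3, by change 3 < p + 1; omega⟩
    (by simp) (by simp) (by rintro ⟨_, h⟩; simp at h) (by rintro ⟨_, h⟩; simp at h)
  have := congrArg Fin.val this
  simp at this

theorem starPlus_not_ML {p : ℕ} (h : ML (starPlus p).G) : p ≤ 2 := by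
  by_contra hp
  push Not at hp
  have := h.2 ⟨2, by change 2 < p + 2; omega⟩ ⟨3, by change 3 < p + 2; omega⟩
    ⟨4, by change 4 < p + 2; omega⟩
    (by simp) (by simp) (by rintro ⟨_, h⟩; simp at h) (by rintro ⟨_, h⟩; simp at h)
  have := congrArg Fin.val this
  simp at this

/-- an `SL` graph is a contraction of the diamond or has at least three leaves -/
theorem SL.cases {H : FG} (h : SL H.G) : ContractsTo diamond H ∨ ∃ p, 3 ≤ p ∧
    (Nonempty (H.G ≃g (star p).G) ∨ Nonempty (H.G ≃g (starPlus p).G)) := by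
  obtain ⟨p, hp⟩ := h.iso
  by_cases h3 : 3 ≤ p
  · exact Or.inr ⟨p, h3, hp⟩
  · left
    rcases hp with ⟨⟨e⟩⟩ | ⟨⟨e⟩⟩
    · exact contractsTo_of_iso_right (diamond_star (p := p) (by omega)) e
    · exact contractsTo_of_iso_right (diamond_starPlus (p := p) (by omega)) e

theorem SL_ML {H : FG} (h : SL H.G) (h' : ML H.G) : ContractsTo diamond H := by
  obtain ⟨p, hp⟩ := h.iso
  rcases hp with ⟨⟨e⟩⟩ | ⟨⟨e⟩⟩
  · exact contractsTo_of_iso_right (diamond_star (star_not_ML (h'.of_iso e))) e
  · exact contractsTo_of_iso_right (diamond_starPlus (starPlus_not_ML (h'.of_iso e))) e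

/-- the octahedron as an induced subgraph -/
def Oct {W : Type} (H : SimpleGraph W) : Prop := ∃ x y : Fin 3 → W,
  (∀ i, x i ≠ y i ∧ ¬ H.Adj (x i) (y i)) ∧
  ∀ i j, i ≠ j → H.Adj (x i) (x j) ∧ H.Adj (x i) (y j) ∧ H.Adj (y i) (y j)

/-- the four-cycle as an induced subgraph -/
def C4 {W : Type} (H : SimpleGraph W) : Prop := ∃ x y x' y' : W, x ≠ y ∧ x' ≠ y' ∧
  ¬ H.Adj x y ∧ ¬ H.Adj x' y' ∧ H.Adj x x' ∧ H.Adj x y' ∧ H.Adj y x' ∧ H.Adj y y'

/-- the possible shapes of an `ML` graph -/
theorem ML.cases {H : FG} (h : ML H.G) :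
    (∃ m a, 2 * a + 1 ≤ m ∧ a ≤ 1 ∧ Nonempty (H.G ≃g (coMatch m a).G)) ∨
    (∃ m, 5 ≤ m ∧ Nonempty (H.G ≃g (coMatch m 2).G) ∧ C4 H.G) ∨ (Oct H.G ∧ C4 H.G) := by
  classical
  obtain ⟨n, G⟩ := H
  obtain ⟨⟨u, hu⟩, h2⟩ := h
  change ∀ u v w : Fin n, v ≠ u → w ≠ u → ¬ G.Adj u v → ¬ G.Adj u w → v = w at h2
  change ∀ w : Fin n, w ≠ u → G.Adj u w at hu
  change (∃ m a, 2 * a + 1 ≤ m ∧ a ≤ 1 ∧ Nonempty (G ≃g (coMatch m a).G)) ∨
    (∃ m, 5 ≤ m ∧ Nonempty (G ≃g (coMatch m 2).G) ∧ C4 G) ∨ (Oct G ∧ C4 G)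
  have hcard : ∀ (k : ℕ) (φ : Fin k → Fin n), Function.Injective φ → u ∉ Set.range φ →
      k + 1 ≤ n := by
    intro k φ hφ hu'
    have : Function.Injective (Fin.cons u φ : Fin (k + 1) → Fin n) :=
      Fin.cons_injective_iff.2 ⟨hu', hφ⟩
    simpa using Fintype.card_le_of_injective _ this
  by_cases h0 : ∀ i j, i ≠ j → G.Adj i j
  · left
    refine ⟨n, 0, ?_, by omega, coMatch_iso G 0 (fun i => i.elim0) (fun i => i.elim0)
      (fun i => i.elim0) (fun i j hij _ => h0 i j hij)⟩
    have := u.2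
    change (u : ℕ) < n at this
    omega
  push Not at h0
  obtain ⟨c, d, hcd, hncd⟩ := h0
  -- neighbours of c and d
  have hc : ∀ j, j ≠ c → j ≠ d → G.Adj c j := by
    intro j h1 h3
    by_contra h4
    exact h3 (h2 c j d h1 hcd.symm h4 hncd)
  have hd : ∀ j, j ≠ c → j ≠ d → G.Adj d j := by
    intro j h1 h3
    by_contra h4
    exact h1 (h2 d j c h3 hcd h4 (fun h => hncd h.symm))
  have huc : u ≠ c := by
    rintro rfl
    exact hncd (hu d hcd.symm)
  have hud : u ≠ d := by
    rintro rfl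
    exact hncd (hu c hcd).symm
  by_cases h0 : ∀ i j, i ≠ j → i ≠ c → i ≠ d → j ≠ c → j ≠ d → G.Adj i j
  · left
    have hφ : Function.Injective (![c, d] : Fin 2 → Fin n) := by
      intro i j hij
      fin_cases i <;> fin_cases j
      · rfl
      · exact absurd hij hcd
      · exact absurd hij.symm hcd
      · rfl
    refine ⟨n, 1, ?_, le_rfl, coMatch_iso G 1 ![c, d] hφ ?_ ?_⟩
    · refine hcard 2 ![c, d] hφ ?_
      rintro ⟨i, hi⟩
      fin_cases i
      · exact huc hi.symm
      · exact hud hi.symm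
    · intro s t hst
      fin_cases s <;> fin_cases t
      · exact absurd rfl hst
      · simpa using hncd
      · simpa using fun h : G.Adj d c => hncd h.symm
      · exact absurd rfl hst
    · intro i j hij hi
      have hic : i ≠ c := fun e => hi ⟨0, e.symm⟩
      have hid : i ≠ d := fun e => hi ⟨1, e.symm⟩
      by_cases hjc : j = c
      · rw [hjc]; exact (hc i hic hid).symm
      by_cases hjd : j = d
      · rw [hjd]; exact (hd i hic hid).symm
      exact h0 i j hij hic hid hjc hjd
  push Not at h0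
  obtain ⟨e, f, hef, hec, hed, hfc, hfd, hnef⟩ := h0
  have he : ∀ j, j ≠ e → j ≠ f → G.Adj e j := by
    intro j h1 h3
    by_contra h4
    exact h3 (h2 e j f h1 hef.symm h4 hnef)
  have hf : ∀ j, j ≠ e → j ≠ f → G.Adj f j := by
    intro j h1 h3
    by_contra h4
    exact h1 (h2 f j e h3 hef h4 (fun h => hnef h.symm))
  have hue : u ≠ e := by
    rintro rfl
    exact hnef (hu f hef.symm)
  have huf : u ≠ f := by
    rintro rfl
    exact hnef (hu e hef).symm
  have hC4 : C4 G := ⟨c, d, e, f, hcd, hef, hncd, hnef, hc e hec hed, hc f hfc hfd,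
    hd e hec hed, hd f hfc hfd⟩
  right
  by_cases h0 : ∀ i j, i ≠ j → i ≠ c → i ≠ d → i ≠ e → i ≠ f → j ≠ c → j ≠ d → j ≠ e → j ≠ f →
      G.Adj i j
  · left
    have hφ : Function.Injective (![c, d, e, f] : Fin 4 → Fin n) := by
      intro i j hij
      fin_cases i <;> fin_cases j <;> simp at hij ⊢
      · exact hcd hij
      · exact hec hij.symm
      · exact hfc hij.symm
      · exact hcd hij.symm
      · exact hed hij.symm
      · exact hfd hij.symm
      · exact hec hij
      · exact hed hij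
      · exact hef hij
      · exact hfc hij
      · exact hfd hij
      · exact hef hij.symm
    refine ⟨n, ?_, coMatch_iso G 2 ![c, d, e, f] hφ ?_ ?_, hC4⟩
    · refine hcard 4 ![c, d, e, f] hφ ?_
      rintro ⟨i, hi⟩
      fin_cases i
      · exact huc hi.symm
      · exact hud hi.symm
      · exact hue hi.symm
      · exact huf hi.symm
    · intro s t hst
      fin_cases s <;> fin_cases t <;> simp at hst ⊢
      · exact hncd
      · exact hc e hec hed
      · exact hc f hfc hfd
      · exact fun h => hncd h.symm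
      · exact hd e hec hed
      · exact hd f hfc hfd
      · exact (hc e hec hed).symm
      · exact (hd e hec hed).symm
      · exact hnef
      · exact (hc f hfc hfd).symm
      · exact (hd f hfc hfd).symm
      · exact fun h => hnef h.symm
    · intro i j hij hi
      have hic : i ≠ c := fun e' => hi ⟨0, e'.symm⟩
      have hid : i ≠ d := fun e' => hi ⟨1, e'.symm⟩
      have hie : i ≠ e := fun e' => hi ⟨2, e'.symm⟩
      have hif : i ≠ f := fun e' => hi ⟨3, e'.symm⟩
      by_cases hjc : j = c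
      · rw [hjc]; exact (hc i hic hid).symm
      by_cases hjd : j = d
      · rw [hjd]; exact (hd i hic hid).symm
      by_cases hje : j = e
      · rw [hje]; exact (he i hie hif).symm
      by_cases hjf : j = f
      · rw [hjf]; exact (hf i hie hif).symm
      exact h0 i j hij hic hid hie hif hjc hjd hje hjf
  · right
    push Not at h0
    obtain ⟨i, j, hij, hic, hid, hie, hif, hjc, hjd, hje, hjf, hnij⟩ := h0
    refine ⟨⟨![c, e, i], ![d, f, j], ?_, ?_⟩, hC4⟩
    · intro s
      fin_cases s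
      · exact ⟨hcd, hncd⟩
      · exact ⟨hef, hnef⟩
      · exact ⟨hij, hnij⟩
    · intro s t hst
      fin_cases s <;> fin_cases t <;> simp at hst ⊢
      · exact ⟨hc e hec hed, hc f hfc hfd, hd f hfc hfd⟩
      · exact ⟨hc i hic hid, hc j hjc hjd, hd j hjc hjd⟩
      · exact ⟨(hc e hec hed).symm, (hd e hec hed).symm, (hd f hfc hfd).symm⟩
      · exact ⟨he i hie hif, he j hje hjf, hf j hje hjf⟩
      · exact ⟨(hc i hic hid).symm, (hd i hic hid).symm, (hd j hjc hjd).symm⟩
      · exact ⟨(he i hie hif).symm, (hf i hie hif).symm, (hf j hje hjf).symm⟩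

theorem C4.of_iso {V W : Type} {G : SimpleGraph V} {H : SimpleGraph W} (e : G ≃g H)
    (h : C4 G) : C4 H := by
  obtain ⟨x, y, x', y', h1, h2, h3, h4, h5, h6, h7, h8⟩ := h
  exact ⟨e x, e y, e x', e y', e.injective.ne h1, e.injective.ne h2,
    fun h => h3 (e.map_adj_iff.1 h), fun h => h4 (e.map_adj_iff.1 h), e.map_adj_iff.2 h5,
    e.map_adj_iff.2 h6, e.map_adj_iff.2 h7, e.map_adj_iff.2 h8⟩

/-- independent sets of `k` vertices -/
def Ind (k : ℕ) {W : Type} (H : SimpleGraph W) : Prop :=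
  ∃ x : Fin k → W, ∀ i j, i ≠ j → x i ≠ x j ∧ ¬ H.Adj (x i) (x j)

theorem ind_of_SL {H : FG} {p k : ℕ} (hk : k ≤ p)
    (h : Nonempty (H.G ≃g (star p).G) ∨ Nonempty (H.G ≃g (starPlus p).G)) : Ind k H.G := by
  rcases h with ⟨⟨e⟩⟩ | ⟨⟨e⟩⟩
  · refine ⟨fun i => e.symm ⟨i + 1, by change (i : ℕ) + 1 < p + 1; omega⟩, fun i j hij => ?_⟩
    have hij' : (i : ℕ) ≠ j := fun h => hij (Fin.ext h)
    refine ⟨fun h => ?_, fun h => ?_⟩
    · have := congrArg Fin.val (e.symm.injective h)
      simp only at this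
      omega
    · have := e.symm.map_adj_iff.1 h
      rcases this.2 with h0 | h0 <;> simp only at h0 <;> omega
  · refine ⟨fun i => e.symm ⟨i + 2, by change (i : ℕ) + 2 < p + 2; omega⟩, fun i j hij => ?_⟩
    have hij' : (i : ℕ) ≠ j := fun h => hij (Fin.ext h)
    refine ⟨fun h => ?_, fun h => ?_⟩
    · have := congrArg Fin.val (e.symm.injective h)
      simp only at this
      omega
    · have := e.symm.map_adj_iff.1 h
      rcases this.2 with h0 | h0 <;> simp only at h0 <;> omega

/-- the four antichains -/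
theorem four_antichains {H₁ H₂ : FG} (hw : WQO (Cl H₁ H₂)) :
    (SL H₁.G ∨ SL H₂.G) ∧ (ML H₁.G ∨ ML H₂.G) ∧
    ((¬ Ind 3 H₁.G ∧ ¬ Oct H₁.G) ∨ (¬ Ind 3 H₂.G ∧ ¬ Oct H₂.G)) ∧
    ((¬ Ind 4 H₁.G ∧ ¬ C4 H₁.G) ∨ (¬ Ind 4 H₂.G ∧ ¬ C4 H₂.G)) := by
  refine ⟨?_, ?_, ?_, ?_⟩
  · -- K_{2,n}
    have hconn : ∀ n, (toFG (k2 (n + 2))).G.Connected := fun n =>
      toFG_connected (k2_connected (by omega))
    have hanti : ∀ i j, i < j → ¬ ContractsTo (toFG (k2 (j + 2))) (toFG (k2 (i + 2))) := by
      intro i j hij h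
      rw [contractsTo_toFG] at h
      obtain ⟨f, hf⟩ := h
      have hSL := k2_contr hf (not_inj_of_card f (by
        change Fintype.card (Fin (i + 2) ⊕ Bool) < Fintype.card (Fin (j + 2) ⊕ Bool)
        simp
        omega))
      obtain ⟨e⟩ := toFG_iso (k2 (i + 2))
      exact k2_not_univ (by omega) (contr_univ e hSL.univ)
    have key : ∀ H : FG, (∀ N, ∃ n, N ≤ n ∧ ContractsTo (toFG (k2 (n + 2))) H) → SL H.G := by
      intro H hH
      obtain ⟨n, hn, h⟩ := hH H.n
      rw [contractsTo_toFG] at h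
      obtain ⟨f, hf⟩ := h
      exact k2_contr hf (not_inj_of_card f (by simp; omega))
    rcases pigeon (fun N => fam (fun n => toFG (k2 (n + 2))) hconn hanti hw N) with h | h
    · exact Or.inl (key _ h)
    · exact Or.inr (key _ h)
  · have hconn : ∀ n, (toFG (cp (n + 2))).G.Connected := fun n =>
      toFG_connected (cp_connected (by omega))
    have hanti : ∀ i j, i < j → ¬ ContractsTo (toFG (cp (j + 2))) (toFG (cp (i + 2))) := by
      intro i j hij h
      rw [contractsTo_toFG] at h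
      obtain ⟨f, hf⟩ := h
      have hML := cp_contr hf (not_inj_of_card f (by
        change Fintype.card (Fin (i + 2) × Bool) < Fintype.card (Fin (j + 2) × Bool)
        simp
        omega))
      obtain ⟨e⟩ := toFG_iso (cp (i + 2))
      exact cp_not_univ (contr_univ e hML.1)
    have key : ∀ H : FG, (∀ N, ∃ n, N ≤ n ∧ ContractsTo (toFG (cp (n + 2))) H) → ML H.G := by
      intro H hH
      obtain ⟨n, hn, h⟩ := hH H.n
      rw [contractsTo_toFG] at h
      obtain ⟨f, hf⟩ := h
      exact cp_contr hf (not_inj_of_card f (by simp; omega))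
    rcases pigeon (fun N => fam (fun n => toFG (cp (n + 2))) hconn hanti hw N) with h | h
    · exact Or.inl (key _ h)
    · exact Or.inr (key _ h)
  · have hconn : ∀ n, (toFG (osc true (n + 7))).G.Connected := fun n =>
      toFG_connected (osc_connected true (by omega))
    have hanti : ∀ i j, i < j → ¬ ContractsTo (toFG (osc true (j + 7)))
        (toFG (osc true (i + 7))) := by
      intro i j hij h
      rw [contractsTo_toFG] at h
      obtain ⟨e⟩ := toFG_iso (osc true (i + 7))
      obtain ⟨f, hf⟩ := h.trans (Contr.to_iso e)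
      have := osc_true_anti (by omega) hf
      omega
    have key : ∀ (H : FG) n, ContractsTo (toFG (osc true (n + 7))) H →
        ¬ Ind 3 H.G ∧ ¬ Oct H.G := by
      intro H n h
      rw [contractsTo_toFG] at h
      obtain ⟨f, hf⟩ := h
      exact ⟨fun ⟨x, hx⟩ => osc_true_alpha hf x hx, fun ⟨x, y, h1, h2⟩ => osc_true_oct hf x y h1 h2⟩
    obtain ⟨n, _, h | h⟩ := fam (fun n => toFG (osc true (n + 7))) hconn hanti hw 0
    · exact Or.inl (key _ n h)
    · exact Or.inr (key _ n h)
  · have hconn : ∀ n, (toFG (osc false (n + 7))).G.Connected := fun n =>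
      toFG_connected (osc_connected false (by omega))
    have hanti : ∀ i j, i < j → ¬ ContractsTo (toFG (osc false (j + 7)))
        (toFG (osc false (i + 7))) := by
      intro i j hij h
      rw [contractsTo_toFG] at h
      obtain ⟨e⟩ := toFG_iso (osc false (i + 7))
      obtain ⟨f, hf⟩ := h.trans (Contr.to_iso e)
      have := osc_false_anti (by omega) hf
      omega
    have key : ∀ (H : FG) n, ContractsTo (toFG (osc false (n + 7))) H →
        ¬ Ind 4 H.G ∧ ¬ C4 H.G := by
      intro H n h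
      rw [contractsTo_toFG] at h
      obtain ⟨f, hf⟩ := h
      exact ⟨fun ⟨x, hx⟩ => osc_alpha hf x hx, fun ⟨x, y, x', y', h1, h2, h3, h4, h5, h6, h7, h8⟩ =>
        osc_false_C4 hf h1 h2 h3 h4 h5 h6 h7 h8⟩
    obtain ⟨n, _, h | h⟩ := fam (fun n => toFG (osc false (n + 7))) hconn hanti hw 0
    · exact Or.inl (key _ n h)
    · exact Or.inr (key _ n h)

theorem goodPair_of {H₁ H₂ : FG} (hS : SL H₁.G) (hM : ML H₂.G)
    (h3 : (¬ Ind 3 H₁.G ∧ ¬ Oct H₁.G) ∨ (¬ Ind 3 H₂.G ∧ ¬ Oct H₂.G))
    (h4 : (¬ Ind 4 H₁.G ∧ ¬ C4 H₁.G) ∨ (¬ Ind 4 H₂.G ∧ ¬ C4 H₂.G)) :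
    ContractsTo diamond H₁ ∨ GoodPair H₁ H₂ := by
  rcases hS.cases with h | ⟨p, hp, hiso⟩
  · exact Or.inl h
  · right
    have i3 : Ind 3 H₁.G := ind_of_SL hp hiso
    rcases hM.cases with ⟨m, a, hm, ha, hi⟩ | ⟨m, hm, hi, hC⟩ | ⟨hO, _⟩
    · exact ⟨p, a, m, hp, hm, Or.inl ha, hiso, hi⟩
    · have hp3 : p = 3 := by
        by_contra hne
        have i4 : Ind 4 H₁.G := ind_of_SL (by omega) hiso
        rcases h4 with h4 | h4
        · exact h4.1 i4
        · exact h4.2 hC
      exact ⟨p, 2, m, hp, hm, Or.inr ⟨rfl, hp3⟩, hiso, hi⟩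
    · rcases h3 with h3 | h3
      · exact absurd i3 h3.1
      · exact absurd hO h3.2

/-- The necessary condition. -/
theorem necessity (H₁ H₂ : FG) (hw : WQO (Cl H₁ H₂)) :
    ContractsTo diamond H₁ ∨ ContractsTo diamond H₂ ∨ GoodPair H₁ H₂ ∨ GoodPair H₂ H₁ := by
  obtain ⟨hS, hM, h3, h4⟩ := four_antichains hw
  rcases hS with hS | hS <;> rcases hM with hM | hM
  · exact Or.inl (SL_ML hS hM)
  · rcases goodPair_of hS hM h3 h4 with h | h
    · exact Or.inl h
    · exact Or.inr (Or.inr (Or.inl h))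
  · rcases goodPair_of hS hM h3.symm h4.symm with h | h
    · exact Or.inr (Or.inl h)
    · exact Or.inr (Or.inr (Or.inr h))
  · exact Or.inr (Or.inl (SL_ML hS hM))

end Pool.Agent.H67.WQ
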