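import Pool.Agent.H67.WQ.M2

set_option autoImplicit false

namespace Pool.Agent.H67.WQ

/-- a connected part with two terminals in which no vertex separates another vertex from both
terminals -/
structure GN {V : Type} (G : SimpleGraph V) (P : Set V) (u v : V) : Prop where
  ne : u ≠ v
  uP : u ∈ P
  vP : v ∈ P
  conn : Cn G P
  tight : Tight G P u v

/-- the part is divided into connected sets containing `u`, containing `v`, and `t` pairwise
nonadjacent ones adjacent to these two -/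
def Leaves {V : Type} (G : SimpleGraph V) (P : Set V) (u v : V) (t : ℕ) : Prop :=
  ∃ g : V → ℕ, g u = 0 ∧ g v = 1 ∧ (∀ x ∈ P, g x < t + 2) ∧
    (∀ i < t + 2, Cn G {x | x ∈ P ∧ g x = i}) ∧
    (∀ x ∈ P, ∀ y ∈ P, 2 ≤ g x → 2 ≤ g y → G.Adj x y → g x = g y) ∧
    ∀ i, 2 ≤ i → i < t + 2 → (∃ x ∈ P, ∃ y ∈ P, g x = 0 ∧ g y = i ∧ G.Adj x y) ∧
      ∃ x ∈ P, ∃ y ∈ P, g x = 1 ∧ g y = i ∧ G.Adj x y

structure Cls (t : ℕ) {V : Type} (G : SimpleGraph V) (P : Set V) (u v : V) : Prop where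
  gn : GN G P u v
  nq : ¬ Quad G P u v
  nl : ¬ Leaves G P u v t

/-- the graph without the edge between `u` and `v` -/
def del {V : Type} (G : SimpleGraph V) (u v : V) : SimpleGraph V where
  Adj x y := G.Adj x y ∧ ¬ ((x = u ∧ y = v) ∨ (x = v ∧ y = u))
  symm := ⟨by
    rintro x y ⟨h, h'⟩
    refine ⟨h.symm, fun h'' => h' ?_⟩
    rcases h'' with ⟨h1, h2⟩ | ⟨h1, h2⟩
    · exact Or.inr ⟨h2, h1⟩
    · exact Or.inl ⟨h2, h1⟩⟩
  loopless := ⟨fun _ h => G.loopless.irrefl _ h.1⟩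

section basics
variable {V' V : Type} {G' : SimpleGraph V'} {G : SimpleGraph V} {P' : Set V'} {P P₁ P₂ : Set V}
  {u' v' : V'} {u v w : V} {f : V' → V}

theorem GN.symm (h : GN G P u v) : GN G P v u :=
  ⟨h.ne.symm, h.vP, h.uP, h.conn, fun y hy z hz hne => by
    obtain ⟨T, h1, h2, h3, h4, h5⟩ := h.tight y hy z hz hne
    exact ⟨T, h1, h2, h3, h4, h5.symm⟩⟩

theorem Quad.of_mod (m : Mod G' P' G P f) (hu : f u' = u) (hv : f v' = v) (hu' : u' ∈ P')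
    (hv' : v' ∈ P') (h : Quad G P u v) : Quad G' P' u' v' := by
  obtain ⟨B, h1, h2, h3, h4⟩ := h
  refine ⟨fun i => {x | x ∈ P' ∧ f x ∈ B i}, fun i => m.cn_preimage (h2 i) (h1 i),
    fun i x hx => hx.1, fun i j x hi hj => h3 i j (f x) hi.2 hj.2, fun i j hij => ?_⟩
  rcases h4 i j hij with ⟨x, hx, y, hy, hxy⟩ | ⟨ha, hb⟩ | ⟨ha, hb⟩
  · left
    obtain ⟨_, a, ha, b, hb, hax, hby, hab⟩ := (m.adj x (h2 i hx) y (h2 j hy)).1 hxy
    exact ⟨a, ⟨ha, by rw [hax]; exact hx⟩, b, ⟨hb, by rw [hby]; exact hy⟩, hab⟩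
  · right; left
    exact ⟨⟨hu', by rw [hu]; exact ha⟩, hv', by rw [hv]; exact hb⟩
  · right; right
    exact ⟨⟨hv', by rw [hv]; exact ha⟩, hu', by rw [hu]; exact hb⟩

theorem Quad.mono {H : SimpleGraph V} (h : Quad H P₁ u v) (hP : P₁ ⊆ P)
    (hG : ∀ x y, H.Adj x y → G.Adj x y) : Quad G P u v := by
  obtain ⟨B, h1, h2, h3, h4⟩ := h
  refine ⟨B, fun i => (h1 i).mono_graph fun x _ y _ => hG x y, fun i => (h2 i).trans hP, h3,
    fun i j hij => ?_⟩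
  rcases h4 i j hij with ⟨x, hx, y, hy, hxy⟩ | h | h
  · exact Or.inl ⟨x, hx, y, hy, hG x y hxy⟩
  · exact Or.inr (Or.inl h)
  · exact Or.inr (Or.inr h)

theorem Leaves.of_mod {t : ℕ} (m : Mod G' P' G P f) (hu : f u' = u) (hv : f v' = v)
    (h : Leaves G P u v t) : Leaves G' P' u' v' t := by
  obtain ⟨g, h1, h2, h3, h4, h5, h6⟩ := h
  have lift : ∀ x ∈ P, ∀ y ∈ P, G.Adj x y → ∃ x' ∈ P', ∃ y' ∈ P', f x' = x ∧ f y' = y ∧
      G'.Adj x' y' := by
    intro x hx y hy hxy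
    obtain ⟨_, a, ha, b, hb, hax, hby, hab⟩ := (m.adj x hx y hy).1 hxy
    exact ⟨a, ha, b, hb, hax, hby, hab⟩
  refine ⟨fun x => g (f x), by simp only [hu, h1], by simp only [hv, h2],
    fun x hx => h3 _ (m.maps x hx), fun i hi => ?_, fun x hx y hy hgx hgy hxy => ?_,
    fun i hi1 hi2 => ?_⟩
  · have := m.cn_preimage (T := {x | x ∈ P ∧ g x = i}) (fun x hx => hx.1) (h4 i hi)
    have e : {x | x ∈ P' ∧ f x ∈ {x | x ∈ P ∧ g x = i}} = {x | x ∈ P' ∧ g (f x) = i} := by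
      ext x
      constructor
      · rintro ⟨hx, _, hxw⟩
        exact ⟨hx, hxw⟩
      · rintro ⟨hx, hxw⟩
        exact ⟨hx, m.maps x hx, hxw⟩
    rw [← e]; exact this
  · by_cases hne : f x = f y
    · simp only [hne]
    · apply h5 _ (m.maps x hx) _ (m.maps y hy) hgx hgy
      rw [m.adj _ (m.maps x hx) _ (m.maps y hy)]
      exact ⟨hne, x, hx, y, hy, rfl, rfl, hxy⟩
  · obtain ⟨⟨x, hx, y, hy, hgx, hgy, hxy⟩, ⟨x₁, hx₁, y₁, hy₁, hgx₁, hgy₁, hxy₁⟩⟩ := h6 i hi1 hi2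
    obtain ⟨a, ha, b, hb, hax, hby, hab⟩ := lift x hx y hy hxy
    obtain ⟨a₁, ha₁, b₁, hb₁, hax₁, hby₁, hab₁⟩ := lift x₁ hx₁ y₁ hy₁ hxy₁
    exact ⟨⟨a, ha, b, hb, by simpa only [hax] using hgx, by simpa only [hby] using hgy, hab⟩,
      ⟨a₁, ha₁, b₁, hb₁, by simpa only [hax₁] using hgx₁, by simpa only [hby₁] using hgy₁, hab₁⟩⟩

/-! ### Series decomposition -/

theorem GN.split_sep (h : GN G P u v) (hw : w ∈ P) (hwu : w ≠ u) (hwv : w ≠ v)
    (hsep : ¬ ∃ T ⊆ P, Cn G T ∧ w ∉ T ∧ u ∈ T ∧ v ∈ T) :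
    Sep G P (insert w (comp G (Pᶜ ∪ {w}) u)) (insert w (comp G (Pᶜ ∪ {w}) v)) w ∧
    v ∉ insert w (comp G (Pᶜ ∪ {w}) u) ∧ Cn G (insert w (comp G (Pᶜ ∪ {w}) u)) := by
  have hu : u ∉ Pᶜ ∪ {w} := by
    rintro (h1 | h1)
    · exact h1 h.uP
    · exact hwu h1.symm
  have hv : v ∉ Pᶜ ∪ {w} := by
    rintro (h1 | h1)
    · exact h1 h.vP
    · exact hwv h1.symm
  have hsub : ∀ z, comp G (Pᶜ ∪ {w}) z ⊆ P := fun z x hx => by
    by_contra hxP
    exact comp_disj hx (Or.inl hxP)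
  have hnw : ∀ z, w ∉ comp G (Pᶜ ∪ {w}) z := fun z hz => comp_disj hz (Or.inr rfl)
  have huv : v ∉ comp G (Pᶜ ∪ {w}) u := fun hh =>
    hsep ⟨_, hsub u, cn_comp hu, hnw u, mem_comp_self hu, hh⟩
  have hdisj : ∀ x ∈ comp G (Pᶜ ∪ {w}) u, x ∉ comp G (Pᶜ ∪ {w}) v := by
    intro x hx hx'
    apply huv
    rw [← comp_eq hx, comp_eq hx']
    exact mem_comp_self hv
  refine ⟨⟨?_, ?_, Or.inl rfl, Or.inl rfl, ?_⟩, ?_, ?_⟩
  · intro z
    constructor
    · intro hz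
      by_cases hzw : z = w
      · exact Or.inl (Or.inl hzw)
      · obtain ⟨T, hTP, hT, hwT, hzT, huT | hvT⟩ := h.tight w hw z hz hzw
        · left; right
          exact comp_subset_of hT (by
            rintro x hx (h1 | h1)
            · exact h1 (hTP hx)
            · exact hwT (h1 ▸ hx)) huT hzT
        · right; right
          exact comp_subset_of hT (by
            rintro x hx (h1 | h1)
            · exact h1 (hTP hx)
            · exact hwT (h1 ▸ hx)) hvT hzT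
    · rintro ((rfl | hz) | (rfl | hz))
      · exact hw
      · exact hsub u hz
      · exact hw
      · exact hsub v hz
  · rintro x (hx | hx) (hx' | hx')
    · exact hx
    · exact hx
    · exact hx'
    · exact absurd hx' (hdisj x hx)
  · rintro x (hx | hx) y (hy | hy) hxy
    · exact Or.inl hx
    · exact Or.inl hx
    · exact Or.inr hy
    · exfalso
      exact hdisj y (comp_closed hx (comp_disj hy) hxy) hy
  · rintro (h1 | h1)
    · exact hwv h1.symm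
    · exact huv h1
  · obtain ⟨a, ha, b, hb, hab⟩ := h.conn.2 (comp G (Pᶜ ∪ {w}) u) (hsub u)
      ⟨u, mem_comp_self hu⟩ ⟨w, hw, hnw u⟩
    by_cases hbw : b = w
    · exact cn_insert (cn_comp hu) ha (hbw ▸ hab)
    · exfalso
      apply hb.2
      apply comp_closed ha _ hab
      rintro (h1 | h1)
      · exact h1 hb.1
      · exact hbw h1

theorem GN.split_side (h : GN G P u v) (hw : w ∈ P) (hwu : w ≠ u) (hwv : w ≠ v)
    (hsep : ¬ ∃ T ⊆ P, Cn G T ∧ w ∉ T ∧ u ∈ T ∧ v ∈ T)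
    (hS : Sep G P P₁ P₂ w) (hP1 : P₁ = insert w (comp G (Pᶜ ∪ {w}) u)) (h2 : Cn G P₂)
    (hv1 : v ∉ P₁) (h1 : Cn G P₁) : GN G P₁ u w := by
  classical
  have hu : u ∉ Pᶜ ∪ {w} := by
    rintro (h1 | h1)
    · exact h1 h.uP
    · exact hwu h1.symm
  have hnw : ∀ z, w ∉ comp G (Pᶜ ∪ {w}) z := fun z hz => comp_disj hz (Or.inr rfl)
  have hu1 : u ∈ P₁ := by rw [hP1]; exact Or.inr (mem_comp_self hu)
  refine ⟨hwu.symm, hu1, hS.w1, h1, ?_⟩
  intro y hy z hz hzy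
  by_cases hyw : y = w
  · subst hyw
    rw [hP1] at hz
    have hz' : z ∈ comp G (Pᶜ ∪ {y}) u := by
      rcases hz with hz | hz
      · exact absurd hz hzy
      · exact hz
    exact ⟨comp G (Pᶜ ∪ {y}) u, by rw [hP1]; exact Set.subset_insert _ _, cn_comp hu,
      hnw u, hz', Or.inl (mem_comp_self hu)⟩
  · obtain ⟨T, hTP, hT, hyT, hzT, huv⟩ := h.tight y ((hS.union y).2 (Or.inl hy)) z
      ((hS.union z).2 (Or.inl hz)) hzy
    have m := hS.retract h2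
    set ρ : V → V := fun x => if x ∈ P₁ then x else w with hρ
    have ρ1 : ∀ x ∈ P₁, ρ x = x := fun x hx => by simp only [ρ]; rw [if_pos hx]
    have ρ2 : ∀ x, x ∉ P₁ → ρ x = w := fun x hx => by simp only [ρ]; rw [if_neg hx]
    refine ⟨ρ '' T, ?_, m.cn_image hTP hT, ?_, ⟨z, hzT, ρ1 z hz⟩, ?_⟩
    · rintro _ ⟨x, hx, rfl⟩
      exact m.maps x (hTP hx)
    · rintro ⟨x, hx, hxy⟩
      by_cases hx1 : x ∈ P₁
      · rw [ρ1 x hx1] at hxy
        exact hyT (hxy ▸ hx)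
      · rw [ρ2 x hx1] at hxy
        exact hyw hxy.symm
    · rcases huv with h3 | h3
      · exact Or.inl ⟨u, h3, ρ1 u hu1⟩
      · exact Or.inr ⟨v, h3, ρ2 v hv1⟩

/-- a separating vertex splits a network into two -/
theorem Cls.split {t : ℕ} (h : Cls t G P u v) (hns : ¬ NonSep G P u v) :
    ∃ (w : V) (P₁ P₂ : Set V), Sep G P P₁ P₂ w ∧ w ≠ u ∧ w ≠ v ∧ u ∈ P₁ ∧ v ∈ P₂ ∧ v ∉ P₁ ∧
      u ∉ P₂ ∧ Cls t G P₁ u w ∧ Cls t G P₂ w v := by
  classical
  unfold NonSep at hns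
  push Not at hns
  obtain ⟨w, hw, hwu, hwv, hsep'⟩ := hns
  have hsep : ¬ ∃ T ⊆ P, Cn G T ∧ w ∉ T ∧ u ∈ T ∧ v ∈ T := by
    rintro ⟨T, h1, h2, h3, h4, h5⟩
    exact hsep' T h1 h2 h3 h4 h5
  have hsep2 : ¬ ∃ T ⊆ P, Cn G T ∧ w ∉ T ∧ v ∈ T ∧ u ∈ T := by
    rintro ⟨T, h1, h2, h3, h4, h5⟩
    exact hsep' T h1 h2 h3 h5 h4
  obtain ⟨s1, hv1, c1⟩ := h.gn.split_sep hw hwu hwv hsep
  obtain ⟨s2, hu2, c2⟩ := h.gn.symm.split_sep hw hwv hwu hsep2
  have g1 := h.gn.split_side hw hwu hwv hsep s1 rfl c2 hv1 c1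
  have g2 := (h.gn.symm.split_side hw hwv hwu hsep2 s1.symm rfl c1 hu2 c2).symm
  refine ⟨w, _, _, s1, hwu, hwv, g1.uP, g2.vP, hv1, hu2, ⟨g1, fun hq => h.nq ?_,
    fun hl => h.nl ?_⟩, ⟨g2, fun hq => h.nq ?_, fun hl => h.nl ?_⟩⟩
  · exact hq.of_mod (s1.retract c2) (if_pos g1.uP)
      (if_neg hv1) h.gn.uP h.gn.vP
  · exact hl.of_mod (s1.retract c2) (if_pos g1.uP)
      (if_neg hv1)
  · exact hq.of_mod (s1.symm.retract c1) (if_neg hu2)
      (if_pos g2.vP) h.gn.uP h.gn.vP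
  · exact hl.of_mod (s1.symm.retract c1) (if_neg hu2)
      (if_pos g2.vP)

/-- there is no network without leaves -/
theorem GN.leaves_zero (h : GN G P u v) : Leaves G P u v 0 := by
  classical
  refine ⟨fun x => if x = u then 0 else 1, by simp, by simp [h.ne.symm], ?_, ?_, ?_, ?_⟩
  · intro x _
    simp only
    split <;> omega
  · intro i hi
    have hi' : i = 0 ∨ i = 1 := by omega
    rcases hi' with rfl | rfl
    · have : {x | x ∈ P ∧ (if x = u then 0 else 1) = 0} = {u} := by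
        ext x
        constructor
        · rintro ⟨_, hx⟩
          by_contra hxu
          have hxu' : x ≠ u := hxu
          rw [if_neg hxu'] at hx
          exact absurd hx (by omega)
        · intro hx
          have hx' : x = u := hx
          rw [hx']
          exact ⟨h.uP, if_pos rfl⟩
      rw [this]; exact cn_singleton G u
    · have hmem : ∀ x, x ∈ {x | x ∈ P ∧ (if x = u then 0 else 1) = 1} ↔ x ∈ P ∧ x ≠ u := by
        intro x
        constructor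
        · rintro ⟨hx, hx1⟩
          refine ⟨hx, ?_⟩
          rintro rfl
          rw [if_pos rfl] at hx1
          exact absurd hx1 (by omega)
        · rintro ⟨hx, hx1⟩
          exact ⟨hx, if_neg hx1⟩
      have hsub : ({v} : Set V) ⊆ {x | x ∈ P ∧ (if x = u then 0 else 1) = 1} :=
        Set.singleton_subset_iff.2 ((hmem v).2 ⟨h.vP, h.ne.symm⟩)
      apply cn_of_base (cn_singleton G v) hsub
      intro x hx
      rw [hmem] at hx
      obtain ⟨T, hTP, hT, huT, hxT, huv⟩ := h.tight u h.uP x hx.1 hx.2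
      have hvT : v ∈ T := huv.resolve_left huT
      refine ⟨T, ?_, hT, hxT, Or.inl ⟨v, rfl, hvT⟩⟩
      intro y hy
      rw [hmem]
      exact ⟨hTP hy, fun e => huT (e ▸ hy)⟩
  · intro x _ y _ hx
    simp only at hx
    split at hx <;> omega
  · intro i hi1 hi2
    omega

/-! ### Deleting the edge between the terminals -/

theorem del_le {x y : V} (h : (del G u v).Adj x y) : G.Adj x y := h.1

theorem del_of {x y : V} (h : G.Adj x y) (hn : (x ≠ u ∧ x ≠ v) ∨ (y ≠ u ∧ y ≠ v) ∨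
    (x = u ∧ y ≠ v) ∨ (x = v ∧ y ≠ u) ∨ (y = u ∧ x ≠ v) ∨ (y = v ∧ x ≠ u)) :
    (del G u v).Adj x y := by
  refine ⟨h, ?_⟩
  have := h.ne
  rintro (⟨h1, h2⟩ | ⟨h1, h2⟩)
  · rcases hn with h3 | h3 | h3 | h3 | h3 | h3
    · exact h3.1 h1
    · exact h3.2 h2
    · exact h3.2 h2
    · exact this (h3.1.trans h2.symm)
    · exact this (h1.trans h3.1.symm)
    · exact h3.2 h1
  · rcases hn with h3 | h3 | h3 | h3 | h3 | h3
    · exact h3.2 h1
    · exact h3.1 h2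
    · exact this (h3.1.trans h2.symm)
    · exact h3.2 h2
    · exact h3.2 h1
    · exact this (h1.trans h3.1.symm)

theorem del_cn {S : Set V} (h : Cn G S) (hS : u ∉ S ∨ v ∉ S) : Cn (del G u v) S := by
  apply h.mono_graph
  intro x hx y hy hxy
  refine ⟨hxy, ?_⟩
  rintro (⟨h1, h2⟩ | ⟨h1, h2⟩)
  · rcases hS with hS | hS
    · exact hS (h1 ▸ hx)
    · exact hS (h2 ▸ hy)
  · rcases hS with hS | hS
    · exact hS (h2 ▸ hy)
    · exact hS (h1 ▸ hx)

theorem Mod.add_edge (m : Mod (del G' u' v') P' G P f) (h : G.Adj (f u') (f v')) :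
    Mod G' P' G P f := by
  refine ⟨m.maps, fun w hw => (m.fib w hw).mono_graph fun x _ y _ => del_le,
    fun a ha b hb => ?_⟩
  constructor
  · intro hab
    obtain ⟨hne, x, hx, y, hy, hxa, hyb, hxy⟩ := (m.adj a ha b hb).1 hab
    exact ⟨hne, x, hx, y, hy, hxa, hyb, del_le hxy⟩
  · rintro ⟨hne, x, hx, y, hy, hxa, hyb, hxy⟩
    by_cases hd : (del G' u' v').Adj x y
    · exact (m.adj a ha b hb).2 ⟨hne, x, hx, y, hy, hxa, hyb, hd⟩
    · have : (x = u' ∧ y = v') ∨ (x = v' ∧ y = u') := by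
        by_contra hcon
        exact hd ⟨hxy, hcon⟩
      rcases this with ⟨rfl, rfl⟩ | ⟨rfl, rfl⟩
      · rw [← hxa, ← hyb]; exact h
      · rw [← hxa, ← hyb]; exact h.symm

theorem Mod.add_edge₂ (m : Mod (del G' u' v') P' (del G u v) P f) (hu : f u' = u)
    (hv : f v' = v) (h' : G'.Adj u' v') (h : G.Adj u v) (hu' : u' ∈ P') (hv' : v' ∈ P') :
    Mod G' P' G P f := by
  refine ⟨m.maps, fun w hw => (m.fib w hw).mono_graph fun x _ y _ => del_le,
    fun a ha b hb => ?_⟩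
  constructor
  · intro hab
    by_cases hd : (del G u v).Adj a b
    · obtain ⟨hne, x, hx, y, hy, hxa, hyb, hxy⟩ := (m.adj a ha b hb).1 hd
      exact ⟨hne, x, hx, y, hy, hxa, hyb, del_le hxy⟩
    · have : (a = u ∧ b = v) ∨ (a = v ∧ b = u) := by
        by_contra hcon
        exact hd ⟨hab, hcon⟩
      rcases this with ⟨rfl, rfl⟩ | ⟨rfl, rfl⟩
      · exact ⟨hab.ne, u', hu', v', hv', hu, hv, h'⟩
      · exact ⟨hab.ne, v', hv', u', hu', hv, hu, h'.symm⟩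
  · rintro ⟨hne, x, hx, y, hy, hxa, hyb, hxy⟩
    by_cases hd : (del G' u' v').Adj x y
    · exact del_le ((m.adj a ha b hb).2 ⟨hne, x, hx, y, hy, hxa, hyb, hd⟩)
    · have : (x = u' ∧ y = v') ∨ (x = v' ∧ y = u') := by
        by_contra hcon
        exact hd ⟨hxy, hcon⟩
      rcases this with ⟨rfl, rfl⟩ | ⟨rfl, rfl⟩
      · rw [← hxa, ← hyb, hu, hv]; exact h
      · rw [← hxa, ← hyb, hu, hv]; exact h.symm

theorem Leaves.of_del {t : ℕ} (h : Leaves (del G u v) P u v t) : Leaves G P u v t := by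
  obtain ⟨g, h1, h2, h3, h4, h5, h6⟩ := h
  refine ⟨g, h1, h2, h3, fun i hi => (h4 i hi).mono_graph fun x _ y _ => del_le,
    fun x hx y hy hgx hgy hxy => ?_, fun i hi1 hi2 => ?_⟩
  · apply h5 x hx y hy hgx hgy
    refine ⟨hxy, ?_⟩
    rintro (⟨h7, _⟩ | ⟨h7, _⟩)
    · rw [h7, h1] at hgx; omega
    · rw [h7, h2] at hgx; omega
  · obtain ⟨⟨x, hx, y, hy, hgx, hgy, hxy⟩, ⟨x₁, hx₁, y₁, hy₁, hgx₁, hgy₁, hxy₁⟩⟩ := h6 i hi1 hi2
    exact ⟨⟨x, hx, y, hy, hgx, hgy, del_le hxy⟩, ⟨x₁, hx₁, y₁, hy₁, hgx₁, hgy₁, del_le hxy₁⟩⟩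

/-! ### Parallel decompositions -/

structure Par {V : Type} (G : SimpleGraph V) (P P₁ P₂ : Set V) (u v : V) : Prop where
  union : ∀ x, x ∈ P ↔ x ∈ P₁ ∨ x ∈ P₂
  inter : ∀ x, x ∈ P₁ → x ∈ P₂ → x = u ∨ x = v
  u1 : u ∈ P₁
  v1 : v ∈ P₁
  u2 : u ∈ P₂
  v2 : v ∈ P₂
  edge : ∀ x ∈ P₁, ∀ y ∈ P₂, G.Adj x y → x = u ∨ x = v ∨ y = u ∨ y = v

theorem Par.edge_cases (h : Par G P P₁ P₂ u v) {x y : V} (hx : x ∈ P) (hy : y ∈ P)
    (hxy : G.Adj x y) : (x ∈ P₁ ∧ y ∈ P₁ ∧ (del G u v).Adj x y) ∨ (x ∈ P₂ ∧ y ∈ P₂) := by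
  have h11 : x ∈ P₁ → y ∈ P₁ → (x ∈ P₁ ∧ y ∈ P₁ ∧ (del G u v).Adj x y) ∨ (x ∈ P₂ ∧ y ∈ P₂) := by
    intro hx1 hy1
    by_cases hd : (x = u ∧ y = v) ∨ (x = v ∧ y = u)
    · right
      rcases hd with ⟨rfl, rfl⟩ | ⟨rfl, rfl⟩
      · exact ⟨h.u2, h.v2⟩
      · exact ⟨h.v2, h.u2⟩
    · exact Or.inl ⟨hx1, hy1, hxy, hd⟩
  rcases (h.union x).1 hx with hx1 | hx2 <;> rcases (h.union y).1 hy with hy1 | hy2
  · exact h11 hx1 hy1
  · rcases h.edge x hx1 y hy2 hxy with e | e | e | e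
    · exact Or.inr ⟨e ▸ h.u2, hy2⟩
    · exact Or.inr ⟨e ▸ h.v2, hy2⟩
    · exact h11 hx1 (e ▸ h.u1)
    · exact h11 hx1 (e ▸ h.v1)
  · rcases h.edge y hy1 x hx2 hxy.symm with e | e | e | e
    · exact Or.inr ⟨hx2, e ▸ h.u2⟩
    · exact Or.inr ⟨hx2, e ▸ h.v2⟩
    · exact h11 (e ▸ h.u1) hy1
    · exact h11 (e ▸ h.v1) hy1
  · exact Or.inr ⟨hx2, hy2⟩

open Classical in
theorem Par.glue {P₁' P₂' : Set V'} (h : Par G P P₁ P₂ u v) (h' : Par G' P' P₁' P₂' u' v')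
    {f₁ f₂ : V' → V} (m1 : Mod (del G' u' v') P₁' (del G u v) P₁ f₁) (m2 : Mod G' P₂' G P₂ f₂)
    (hu1 : f₁ u' = u) (hv1 : f₁ v' = v) (hu2 : f₂ u' = u) (hv2 : f₂ v' = v) :
    Mod G' P' G P (fun x => if x ∈ P₁' then f₁ x else f₂ x) := by
  classical
  set F : V' → V := fun x => if x ∈ P₁' then f₁ x else f₂ x with hF
  have F1 : ∀ x ∈ P₁', F x = f₁ x := fun x hx => by simp only [F]; rw [if_pos hx]
  have F2 : ∀ x ∈ P₂', F x = f₂ x := fun x hx => by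
    by_cases hx1 : x ∈ P₁'
    · rw [F1 x hx1]
      rcases h'.inter x hx1 hx with e | e
      · rw [e, hu1, hu2]
      · rw [e, hv1, hv2]
    · simp only [F]; rw [if_neg hx1]
  apply Mod.glue (ι := Bool) (Q' := fun b => if b then P₁' else P₂')
    (Q := fun b => if b then P₁ else P₂) (H' := fun b => if b then del G' u' v' else G')
    (H := fun b => if b then del G u v else G) (c := fun v => if v ∈ P₁ then true else false)
  · intro b
    cases b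
    · exact m2.congr F2
    · exact m1.congr F1
  · intro x
    rw [h'.union]
    constructor
    · rintro (hx | hx)
      · exact ⟨true, hx⟩
      · exact ⟨false, hx⟩
    · rintro ⟨b, hb⟩
      cases b
      · exact Or.inr hb
      · exact Or.inl hb
  · intro x
    rw [h.union]
    constructor
    · rintro (hx | hx)
      · exact ⟨true, hx⟩
      · exact ⟨false, hx⟩
    · rintro ⟨b, hb⟩
      cases b
      · exact Or.inr hb
      · exact Or.inl hb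
  · intro b x _ y _ hxy
    cases b
    · exact hxy
    · exact del_le hxy
  · intro x hx y hy hxy
    rcases h'.edge_cases hx hy hxy with ⟨h1, h2, h3⟩ | ⟨h1, h2⟩
    · exact ⟨true, h1, h2, h3⟩
    · exact ⟨false, h1, h2, hxy⟩
  · intro b x _ y _ hxy
    cases b
    · exact hxy
    · exact del_le hxy
  · intro x hx y hy hxy
    rcases h.edge_cases hx hy hxy with ⟨h1, h2, h3⟩ | ⟨h1, h2⟩
    · exact ⟨true, h1, h2, h3⟩
    · exact ⟨false, h1, h2, hxy⟩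
  · intro b z hz
    by_cases hz1 : z ∈ P₁
    · simp only [hz1, if_true]
      refine ⟨trivial, ?_⟩
      cases b
      · rcases h.inter z hz1 hz with e | e
        · exact ⟨u', h'.u2, h'.u1, by rw [F1 _ h'.u1, hu1, e]⟩
        · exact ⟨v', h'.v2, h'.v1, by rw [F1 _ h'.v1, hv1, e]⟩
      · obtain ⟨x, hx, hxv⟩ := m1.surj hz1
        exact ⟨x, hx, hx, by rw [F1 x hx, hxv]⟩
    · simp only [hz1, if_false]
      cases b
      · refine ⟨hz, ?_⟩
        obtain ⟨x, hx, hxv⟩ := m2.surj hz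
        exact ⟨x, hx, hx, by rw [F2 x hx, hxv]⟩
      · exact absurd hz hz1

end basics

end Pool.Agent.H67.WQ
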