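import Pool.Agent.H67.WQ.Defs
import Pool.Agent.H67.WQ.Core

set_option autoImplicit false

namespace Pool.Agent.H67.WQ

/-- vertices of the oscillation graphs: points, left thresholds, right thresholds -/
abbrev OV (n : ℕ) : Type := Fin (n + 1) ⊕ (Fin (n + 2) ⊕ Fin (n + 2))

/-- adjacency of the oscillation graphs -/
def oscAdj (c : Bool) (n : ℕ) : OV n → OV n → Prop
  | Sum.inl _, Sum.inl _ => True
  | Sum.inl k, Sum.inr (Sum.inl s) => (s : ℕ) + 1 ≤ cx k
  | Sum.inl k, Sum.inr (Sum.inr t) => (t : ℕ) + 1 ≤ cy k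
  | Sum.inr (Sum.inl s), Sum.inl k => (s : ℕ) + 1 ≤ cx k
  | Sum.inr (Sum.inr t), Sum.inl k => (t : ℕ) + 1 ≤ cy k
  | Sum.inr (Sum.inl _), Sum.inr (Sum.inl _) => True
  | Sum.inr (Sum.inr _), Sum.inr (Sum.inr _) => True
  | Sum.inr (Sum.inl _), Sum.inr (Sum.inr _) => c = true
  | Sum.inr (Sum.inr _), Sum.inr (Sum.inl _) => c = true

theorem oscAdj_symm (c : Bool) (n : ℕ) {x y : OV n} (h : oscAdj c n x y) : oscAdj c n y x := by
  rcases x with k | s | t <;> rcases y with k' | s' | t' <;> exact h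

/-- the oscillation graph; `c` says whether left and right thresholds are adjacent -/
def osc (c : Bool) (n : ℕ) : SimpleGraph (OV n) where
  Adj x y := x ≠ y ∧ oscAdj c n x y
  symm := ⟨fun _ _ h => ⟨h.1.symm, oscAdj_symm c n h.2⟩⟩
  loopless := ⟨fun _ h => h.1 rfl⟩

theorem osc_pp (c : Bool) (n : ℕ) (k k' : Fin (n + 1)) :
    (osc c n).Adj (Sum.inl k) (Sum.inl k') ↔ k ≠ k' := by
  simp [osc, oscAdj]

theorem osc_pL (c : Bool) (n : ℕ) (k : Fin (n + 1)) (s : Fin (n + 2)) :
    (osc c n).Adj (Sum.inl k) (Sum.inr (Sum.inl s)) ↔ (s : ℕ) + 1 ≤ cx k := by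
  simp [osc, oscAdj]

theorem osc_pR (c : Bool) (n : ℕ) (k : Fin (n + 1)) (s : Fin (n + 2)) :
    (osc c n).Adj (Sum.inl k) (Sum.inr (Sum.inr s)) ↔ (s : ℕ) + 1 ≤ cy k := by
  simp [osc, oscAdj]

theorem osc_LL (c : Bool) (n : ℕ) (s s' : Fin (n + 2)) :
    (osc c n).Adj (Sum.inr (Sum.inl s)) (Sum.inr (Sum.inl s')) ↔ s ≠ s' := by
  simp [osc, oscAdj]

theorem osc_RR (c : Bool) (n : ℕ) (s s' : Fin (n + 2)) :
    (osc c n).Adj (Sum.inr (Sum.inr s)) (Sum.inr (Sum.inr s')) ↔ s ≠ s' := by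
  simp [osc, oscAdj]

theorem osc_LR (c : Bool) (n : ℕ) (s s' : Fin (n + 2)) :
    (osc c n).Adj (Sum.inr (Sum.inl s)) (Sum.inr (Sum.inr s')) ↔ c = true := by
  simp [osc, oscAdj]

theorem osc_connected (c : Bool) {n : ℕ} (hn : 7 ≤ n) : (osc c n).Connected := by
  have p3 : (3 : ℕ) < n + 1 := by omega
  have q0 : (0 : ℕ) < n + 2 := by omega
  have hp : ∀ k : Fin (n + 1), (osc c n).Reachable (Sum.inl ⟨3, p3⟩) (Sum.inl k) := by
    intro k
    by_cases h : (⟨3, p3⟩ : Fin (n + 1)) = k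
    · rw [h]
    · exact ((osc_pp c n _ _).2 h).reachable
  have hL0 : (osc c n).Reachable (Sum.inl ⟨3, p3⟩) (Sum.inr (Sum.inl ⟨0, q0⟩)) :=
    ((osc_pL c n _ _).2 (by simp [cx])).reachable
  have hR0 : (osc c n).Reachable (Sum.inl ⟨3, p3⟩) (Sum.inr (Sum.inr ⟨0, q0⟩)) :=
    ((osc_pR c n _ _).2 (by simp [cy])).reachable
  have hL : ∀ s : Fin (n + 2), (osc c n).Reachable (Sum.inl ⟨3, p3⟩) (Sum.inr (Sum.inl s)) := by
    intro s
    by_cases h : (⟨0, q0⟩ : Fin (n + 2)) = s
    · rw [← h]; exact hL0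
    · exact hL0.trans ((osc_LL c n _ _).2 h).reachable
  have hR : ∀ s : Fin (n + 2), (osc c n).Reachable (Sum.inl ⟨3, p3⟩) (Sum.inr (Sum.inr s)) := by
    intro s
    by_cases h : (⟨0, q0⟩ : Fin (n + 2)) = s
    · rw [← h]; exact hR0
    · exact hR0.trans ((osc_RR c n _ _).2 h).reachable
  have hall : ∀ x : OV n, (osc c n).Reachable (Sum.inl ⟨3, p3⟩) x := by
    rintro (k | s | t)
    · exact hp k
    · exact hL s
    · exact hR t
  have : Nonempty (OV n) := ⟨Sum.inl ⟨3, p3⟩⟩
  exact ⟨fun x y => (hall x).symm.trans (hall y)⟩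

section model

variable {n : ℕ} {W : Type} {c : Bool} {H : SimpleGraph W} {f : OV n → W}

/-- the fibre of `w` contains a point -/
def hasA (f : OV n → W) (w : W) : Prop := ∃ k, f (Sum.inl k) = w
/-- the fibre of `w` contains a left threshold -/
def hasL (f : OV n → W) (w : W) : Prop := ∃ k, f (Sum.inr (Sum.inl k)) = w
/-- the fibre of `w` contains a right threshold -/
def hasR (f : OV n → W) (w : W) : Prop := ∃ k, f (Sum.inr (Sum.inr k)) = w
/-- the fibre of `w` contains a threshold -/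
def hasB (f : OV n → W) (w : W) : Prop := ∃ k, f (Sum.inr k) = w

theorem has_some (hf : IsModel (osc c n) H f) (w : W) : hasA f w ∨ hasL f w ∨ hasR f w := by
  obtain ⟨x, rfl⟩ := hf.surj w
  rcases x with k | s | t
  · exact Or.inl ⟨k, rfl⟩
  · exact Or.inr (Or.inl ⟨s, rfl⟩)
  · exact Or.inr (Or.inr ⟨t, rfl⟩)

theorem hasB_iff (w : W) : hasB f w ↔ hasL f w ∨ hasR f w := by
  constructor
  · rintro ⟨s | t, h⟩
    · exact Or.inl ⟨s, h⟩
    · exact Or.inr ⟨t, h⟩
  · rintro (⟨s, h⟩ | ⟨t, h⟩)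
    · exact ⟨_, h⟩
    · exact ⟨_, h⟩

theorem adj_AA (hf : IsModel (osc c n) H f) {w w' : W} (h : hasA f w) (h' : hasA f w')
    (hne : w ≠ w') : H.Adj w w' := by
  obtain ⟨k, rfl⟩ := h
  obtain ⟨k', rfl⟩ := h'
  exact (hf.2 _ _).2 ⟨hne, _, _, rfl, rfl, (osc_pp c n k k').2 (fun e => hne (e ▸ rfl))⟩

theorem adj_LL (hf : IsModel (osc c n) H f) {w w' : W} (h : hasL f w) (h' : hasL f w')
    (hne : w ≠ w') : H.Adj w w' := by
  obtain ⟨k, rfl⟩ := h
  obtain ⟨k', rfl⟩ := h'
  exact (hf.2 _ _).2 ⟨hne, _, _, rfl, rfl, (osc_LL c n k k').2 (fun e => hne (e ▸ rfl))⟩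

theorem adj_RR (hf : IsModel (osc c n) H f) {w w' : W} (h : hasR f w) (h' : hasR f w')
    (hne : w ≠ w') : H.Adj w w' := by
  obtain ⟨k, rfl⟩ := h
  obtain ⟨k', rfl⟩ := h'
  exact (hf.2 _ _).2 ⟨hne, _, _, rfl, rfl, (osc_RR c n k k').2 (fun e => hne (e ▸ rfl))⟩

theorem adj_BB (hf : IsModel (osc true n) H f) {w w' : W} (h : hasB f w) (h' : hasB f w')
    (hne : w ≠ w') : H.Adj w w' := by
  rw [hasB_iff] at h h'
  rcases h with h | h <;> rcases h' with h' | h'
  · exact adj_LL hf h h' hne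
  · obtain ⟨k, rfl⟩ := h
    obtain ⟨k', rfl⟩ := h'
    exact (hf.2 _ _).2 ⟨hne, _, _, rfl, rfl, (osc_LR true n k k').2 rfl⟩
  · obtain ⟨k, rfl⟩ := h
    obtain ⟨k', rfl⟩ := h'
    exact (hf.2 _ _).2 ⟨hne, _, _, rfl, rfl, ((osc_LR true n k' k).2 rfl).symm⟩
  · exact adj_RR hf h h' hne

/-- in the graph `osc false`, a fibre without points has thresholds of one kind only -/
theorem not_LR (hf : IsModel (osc false n) H f) {w : W} (hA : ¬ hasA f w) (hL : hasL f w)
    (hR : hasR f w) : False := by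
  obtain ⟨s, hs⟩ := hL
  obtain ⟨t, ht⟩ := hR
  obtain ⟨a, ha, b, hb, hab⟩ := (hf.1 w).2 {x | f x = w ∧ ∃ s, x = Sum.inr (Sum.inl s)}
    (fun x hx => hx.1) ⟨_, hs, s, rfl⟩ ⟨_, ht, fun h => by
      obtain ⟨_, s', hs'⟩ := h
      simp at hs'⟩
  obtain ⟨haw, s', rfl⟩ := ha
  rcases b with k | s'' | t''
  · exact hA ⟨k, hb.1⟩
  · exact hb.2 ⟨hb.1, s'', rfl⟩
  · rw [osc_LR] at hab
    exact Bool.noConfusion hab

theorem nadj_LR (hf : IsModel (osc false n) H f) {w w' : W} (hA : ¬ hasA f w)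
    (hA' : ¬ hasA f w') (hR : ¬ hasR f w) (hL : ¬ hasL f w') : ¬ H.Adj w w' := by
  intro h
  obtain ⟨_, x, y, hx, hy, hxy⟩ := (hf.2 _ _).1 h
  rcases x with k | s | t
  · exact hA ⟨k, hx⟩
  · rcases y with k | s' | t'
    · exact hA' ⟨k, hy⟩
    · exact hL ⟨s', hy⟩
    · rw [osc_LR] at hxy
      exact Bool.noConfusion hxy
  · exact hR ⟨t, hx⟩

theorem exists_argmax (f : OV n → W) {w : W} (h : hasA f w) (φ : ℕ → ℕ) :
    ∃ k : Fin (n + 1), f (Sum.inl k) = w ∧ ∀ k' : Fin (n + 1), f (Sum.inl k') = w → φ k' ≤ φ k := by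
  classical
  obtain ⟨k0, hk0⟩ := h
  obtain ⟨k, hk, hmax⟩ := Finset.exists_max_image
    (Finset.univ.filter fun k : Fin (n + 1) => f (Sum.inl k) = w) (fun k => φ k)
    ⟨k0, by simp [hk0]⟩
  refine ⟨k, by simpa using hk, fun k' hk' => hmax k' (by simp [hk'])⟩

/-- the groups of points given by the fibres of some vertices -/
noncomputable def mkGroups (f : OV n → W) {ι : Type} (j : ι → W) (hj : Function.Injective j)
    (hA : ∀ i, hasA f (j i)) : Groups ι where
  a i := (exists_argmax f (hA i) cx).choose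
  b i := (exists_argmax f (hA i) cy).choose
  hab i := (exists_argmax f (hA i) cx).choose_spec.2 _ (exists_argmax f (hA i) cy).choose_spec.1
  hba i := (exists_argmax f (hA i) cy).choose_spec.2 _ (exists_argmax f (hA i) cx).choose_spec.1
  ha i i' hne e := by
    apply hne
    apply hj
    rw [← (exists_argmax f (hA i) cx).choose_spec.1, ← (exists_argmax f (hA i') cx).choose_spec.1]
    rw [Fin.ext e]
  hb i i' hne e := by
    apply hne
    apply hj
    rw [← (exists_argmax f (hA i) cy).choose_spec.1, ← (exists_argmax f (hA i') cy).choose_spec.1]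
    rw [Fin.ext e]

theorem mkGroups_a (f : OV n → W) {ι : Type} (j : ι → W) (hj : Function.Injective j)
    (hA : ∀ i, hasA f (j i)) (i : ι) : ∃ k : Fin (n + 1), (k : ℕ) = (mkGroups f j hj hA).a i ∧
      f (Sum.inl k) = j i ∧ ∀ k' : Fin (n + 1), f (Sum.inl k') = j i → cx k' ≤ cx k :=
  ⟨_, rfl, (exists_argmax f (hA i) cx).choose_spec.1, (exists_argmax f (hA i) cx).choose_spec.2⟩

theorem mkGroups_b (f : OV n → W) {ι : Type} (j : ι → W) (hj : Function.Injective j)
    (hA : ∀ i, hasA f (j i)) (i : ι) : ∃ k : Fin (n + 1), (k : ℕ) = (mkGroups f j hj hA).b i ∧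
      f (Sum.inl k) = j i ∧ ∀ k' : Fin (n + 1), f (Sum.inl k') = j i → cy k' ≤ cy k :=
  ⟨_, rfl, (exists_argmax f (hA i) cy).choose_spec.1, (exists_argmax f (hA i) cy).choose_spec.2⟩

/-- A vertex whose fibre consists of thresholds separates the joins of two groups. -/
theorem NL_of_sep (hf : IsModel (osc c n) H f) {ι : Type} (j : ι → W) (hj : Function.Injective j)
    (hA : ∀ i, hasA f (j i)) {b : W} (hb : ¬ hasA f b) {i i' : ι} (hB : ¬ hasB f (j i'))
    (hadj : H.Adj b (j i')) (hnadj : ¬ H.Adj b (j i)) (hne : b ≠ j i) :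
    (mkGroups f j hj hA).NL i i' := by
  obtain ⟨_, x, y, hx, hy, hxy⟩ := (hf.2 _ _).1 hadj
  obtain ⟨ka, hka, hka1, hka2⟩ := mkGroups_a f j hj hA i
  obtain ⟨kb, hkb, hkb1, hkb2⟩ := mkGroups_b f j hj hA i
  obtain ⟨ka', hka', hka1', hka2'⟩ := mkGroups_a f j hj hA i'
  obtain ⟨kb', hkb', hkb1', hkb2'⟩ := mkGroups_b f j hj hA i'
  unfold Groups.NL
  rw [← hka, ← hkb, ← hka', ← hkb']
  rcases y with k | t
  swap
  · exact absurd ⟨t, hy⟩ hB
  rcases x with k' | s | t
  · exact absurd ⟨k', hx⟩ hb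
  · left
    have h1 := (osc_pL c n k s).1 hxy.symm
    have h2 := hka2' k hy
    have h3 : ¬ (s : ℕ) + 1 ≤ cx ka := by
      intro h
      apply hnadj
      exact (hf.2 _ _).2 ⟨hne, _, _, hx, hka1, ((osc_pL c n ka s).2 h).symm⟩
    omega
  · right
    have h1 := (osc_pR c n k t).1 hxy.symm
    have h2 := hkb2' k hy
    have h3 : ¬ (t : ℕ) + 1 ≤ cy kb := by
      intro h
      apply hnadj
      exact (hf.2 _ _).2 ⟨hne, _, _, hx, hkb1, ((osc_pR c n kb t).2 h).symm⟩
    omega

end model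

section anti

variable {c : Bool} {m n : ℕ} {f : OV n → OV m}

/-- the last left threshold -/
def topL (m : ℕ) : OV m := Sum.inr (Sum.inl ⟨m + 1, by omega⟩)
/-- the last right threshold -/
def topR (m : ℕ) : OV m := Sum.inr (Sum.inr ⟨m + 1, by omega⟩)
/-- the point 0 -/
def bot (m : ℕ) : OV m := Sum.inl ⟨0, by omega⟩

theorem topL_pt (c : Bool) (k : Fin (m + 1)) : ¬ (osc c m).Adj (Sum.inl k) (topL m) := by
  unfold topL
  rw [osc_pL]
  have := cx_le k
  have := k.2
  simp only
  omega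

theorem topR_pt (c : Bool) (k : Fin (m + 1)) : ¬ (osc c m).Adj (Sum.inl k) (topR m) := by
  unfold topR
  rw [osc_pR]
  have := cy_le k
  have := k.2
  simp only
  omega

theorem bot_th (c : Bool) (t : Fin (m + 2) ⊕ Fin (m + 2)) :
    ¬ (osc c m).Adj (bot m) (Sum.inr t) := by
  unfold bot
  rcases t with t | t
  · rw [osc_pL]; simp [cx]
  · rw [osc_pR]; simp [cy]

/-- the alignment in the aligned case gives the order information -/
theorem le_of_aligned (hm : 7 ≤ m) (hf : IsModel (osc c n) (osc c m) f)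
    (h1 : ∀ k, hasA f (Sum.inl k) ∧ ¬ hasB f (Sum.inl k)) (h2 : ∀ b, ¬ hasA f (Sum.inr b)) :
    n ≤ m := by
  have hj : Function.Injective (Sum.inl : Fin (m + 1) → OV m) := Sum.inl_injective
  set g := mkGroups f (Sum.inl : Fin (m + 1) → OV m) hj (fun i => (h1 i).1) with hg
  have sep : ∀ (i i' : Fin (m + 1)) (b : Fin (m + 2) ⊕ Fin (m + 2)),
      (osc c m).Adj (Sum.inl i') (Sum.inr b) → ¬ (osc c m).Adj (Sum.inl i) (Sum.inr b) →
      g.NL i i' := by
    intro i i' b hadj hnadj
    exact NL_of_sep hf _ hj _ (h2 b) (h1 i').2 hadj.symm (fun h => hnadj h.symm) (by simp)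
  have hE : ∀ i j : Fin (m + 1), EE i j → g.U i j ∨ g.U j i := by
    intro i j hij
    obtain ⟨hx, hy⟩ := hij
    apply g.U_of_NL
    · have hlt : cx i < m + 2 := by
        have := cx_le i
        have := i.2
        omega
      exact sep i j (Sum.inl ⟨cx i, hlt⟩) ((osc_pL c m _ _).2 hx)
        (fun h => by have := (osc_pL c m _ _).1 h; simp only at this; omega)
    · have hlt : cy j < m + 2 := by
        have := cy_le j
        have := j.2
        omega
      exact sep j i (Sum.inr ⟨cy j, hlt⟩) ((osc_pR c m _ _).2 hy)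
        (fun h => by have := (osc_pR c m _ _).1 h; simp only at this; omega)
  have hO : ∀ i j : Fin (m + 1), (i : ℕ) = 0 → (j : ℕ) = 4 → g.NL i j := by
    intro i j hi hj4
    refine sep i j (Sum.inl ⟨0, by omega⟩) ((osc_pL c m _ _).2 ?_) (fun h => ?_)
    · rw [hj4]; simp [cx]
    · have := (osc_pL c m _ _).1 h
      rw [hi] at this
      simp [cx] at this
  -- the top point
  obtain ⟨v, hv⟩ : ∃ v : Fin (m + 1), f (Sum.inl ⟨n, by omega⟩) = Sum.inl v := by
    rcases hfv : f (Sum.inl ⟨n, by omega⟩) with v | b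
    · exact ⟨v, rfl⟩
    · exact absurd ⟨_, hfv⟩ (h2 b)
  refine Groups.main hm g hE hO n v ?_ ?_
  · obtain ⟨k, hk, _, hk2⟩ := mkGroups_a f _ hj (fun i => (h1 i).1) v
    rw [hg, ← hk]
    exact hk2 ⟨n, by omega⟩ hv
  · obtain ⟨k, hk, _, hk2⟩ := mkGroups_b f _ hj (fun i => (h1 i).1) v
    rw [hg, ← hk]
    exact hk2 ⟨n, by omega⟩ hv

theorem osc_true_anti (hm : 7 ≤ m) (hf : IsModel (osc true n) (osc true m) f) : n ≤ m := by
  have hsome : ∀ w, hasA f w ∨ hasB f w := by
    intro w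
    rw [hasB_iff]
    exact has_some hf w
  have hex : ∀ w, ¬ (hasA f w ∧ hasB f w) := by
    rintro w ⟨hA, hB⟩
    have huniv : ∀ w', w ≠ w' → (osc true m).Adj w w' := by
      intro w' hne
      rcases hsome w' with h | h
      · exact adj_AA hf hA h hne
      · exact adj_BB hf hB h hne
    rcases w with k | b
    · exact topL_pt true k (huniv _ (by simp [topL]))
    · exact bot_th true b (huniv _ (by simp [bot])).symm
  by_cases hbot : hasA f (bot m)
  · -- aligned case
    have hth : ∀ b, ¬ hasA f (Sum.inr b) := by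
      intro b hb
      exact bot_th true b (adj_AA hf hbot hb (by simp [bot]))
    have htop : hasB f (topL m) := by
      rcases hsome (topL m) with h | h
      · exact absurd h (hth _)
      · exact h
    have hpt : ∀ k, ¬ hasB f (Sum.inl k) := by
      intro k hk
      exact topL_pt true k (adj_BB hf hk htop (by simp [topL]))
    refine le_of_aligned hm hf (fun k => ⟨?_, hpt k⟩) hth
    rcases hsome (Sum.inl k) with h | h
    · exact h
    · exact absurd h (hpt k)
  · -- the exchanged case is impossible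
    exfalso
    have hbotB : hasB f (bot m) := by
      rcases hsome (bot m) with h | h
      · exact absurd h hbot
      · exact h
    have hth : ∀ b, ¬ hasB f (Sum.inr b) := by
      intro b hb
      exact bot_th true b (adj_BB hf hbotB hb (by simp [bot]))
    have hthA : ∀ b, hasA f (Sum.inr b) := by
      intro b
      rcases hsome (Sum.inr b) with h | h
      · exact h
      · exact absurd h (hth _)
    have hpt : ∀ k, ¬ hasA f (Sum.inl k) := by
      intro k hk
      exact topL_pt true k (adj_AA hf hk (hthA _) (by simp [topL]))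
    have hj : Function.Injective (Sum.inr : Fin (m + 2) ⊕ Fin (m + 2) → OV m) :=
      Sum.inr_injective
    set g := mkGroups f (Sum.inr : Fin (m + 2) ⊕ Fin (m + 2) → OV m) hj hthA with hg
    have sep : ∀ (b b' : Fin (m + 2) ⊕ Fin (m + 2)) (k : Fin (m + 1)),
        (osc true m).Adj (Sum.inl k) (Sum.inr b') → ¬ (osc true m).Adj (Sum.inl k) (Sum.inr b) →
        g.NL b b' := by
      intro b b' k hadj hnadj
      exact NL_of_sep hf _ hj _ (hpt k) (hth b') hadj hnadj (by simp)
    refine g.no4 (Sum.inl ⟨1, by omega⟩) (fun t => Sum.inr ⟨t, by omega⟩) ?_ ?_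
    · intro s t hst
      simp only [Sum.inr.injEq, Fin.mk.injEq] at hst
      exact Fin.ext hst
    · intro t
      apply g.U_of_NL
      · refine sep _ _ ⟨3, by omega⟩ ((osc_pR true m _ _).2 ?_) (fun h => ?_)
        · have := t.2
          simp [cy]
        · have := (osc_pL true m _ _).1 h
          simp [cx] at this
      · refine sep _ _ ⟨2, by omega⟩ ((osc_pL true m _ _).2 ?_) (fun h => ?_)
        · simp [cx]
        · have := (osc_pR true m _ _).1 h
          simp [cy] at this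

theorem osc_false_anti (hm : 7 ≤ m) (hf : IsModel (osc false n) (osc false m) f) : n ≤ m := by
  -- every vertex has one of three classes
  have p3 : (3 : ℕ) < m + 1 := by omega
  have q0 : (0 : ℕ) < m + 2 := by omega
  have hcl := fun w => has_some hf w
  have nLR : ∀ w, ¬ hasA f w → hasL f w → ¬ hasR f w := fun w h1 h2 h3 => not_LR hf h1 h2 h3
  -- basic nonadjacencies
  have e1 : ∀ k, ¬ (osc false m).Adj (Sum.inl k) (topL m) := topL_pt false
  have e2 : ∀ k, ¬ (osc false m).Adj (Sum.inl k) (topR m) := topR_pt false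
  have e3 : ∀ s t, ¬ (osc false m).Adj (Sum.inr (Sum.inl s)) (Sum.inr (Sum.inr t)) := by
    intro s t h
    rw [osc_LR] at h
    exact Bool.noConfusion h
  have e3' : ¬ (osc false m).Adj (topL m) (topR m) := e3 _ _
  -- adjacent special pairs
  have a1 : (osc false m).Adj (Sum.inr (Sum.inl ⟨0, q0⟩)) (topL m) := by
    unfold topL
    rw [osc_LL]
    simp
  have a2 : (osc false m).Adj (Sum.inr (Sum.inr ⟨0, q0⟩)) (topR m) := by
    unfold topR
    rw [osc_RR]
    simp
  have a3 : (osc false m).Adj (Sum.inl ⟨3, p3⟩) (Sum.inr (Sum.inl ⟨0, q0⟩)) := by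
    rw [osc_pL]; simp [cx]
  have a4 : (osc false m).Adj (Sum.inl ⟨3, p3⟩) (Sum.inr (Sum.inr ⟨0, q0⟩)) := by
    rw [osc_pR]; simp [cy]
  have n12 : topL m ≠ topR m := by simp [topL, topR]
  have np1 : ∀ k : Fin (m + 1), (Sum.inl k : OV m) ≠ topL m := by simp [topL]
  have np2 : ∀ k : Fin (m + 1), (Sum.inl k : OV m) ≠ topR m := by simp [topR]
  -- all points are in class A
  have hA3 : hasA f (Sum.inl ⟨3, p3⟩) := by
    by_contra hnA
    -- 3 is in class L or R
    rcases hcl (Sum.inl ⟨3, p3⟩) with h | h | h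
    · exact hnA h
    · -- class L
      have hL1 : ¬ hasL f (topL m) := fun h' => e1 _ (adj_LL hf h h' (np1 _))
      have hL2 : ¬ hasL f (topR m) := fun h' => e2 _ (adj_LL hf h h' (np2 _))
      by_cases hA1 : hasA f (topL m)
      · -- topL in class A, so topR in class R
        have hA2 : ¬ hasA f (topR m) := fun h' => e3' (adj_AA hf hA1 h' n12)
        -- R'_0
        have hb : hasA f (Sum.inr (Sum.inr ⟨0, q0⟩)) := by
          by_contra hb
          rcases hcl (Sum.inr (Sum.inr ⟨0, q0⟩)) with h' | h' | h'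
          · exact hb h'
          · exact nadj_LR hf hb hA2 (nLR _ hb h') hL2 a2
          · have : ¬ hasL f (Sum.inr (Sum.inr ⟨0, q0⟩)) := fun hl => nLR _ hb hl h'
            exact nadj_LR hf hnA hb (nLR _ hnA h) this a4
        exact e3 _ _ (adj_AA hf hA1 hb (by simp [topL]))
      · have hR1 : hasR f (topL m) := by
          rcases hcl (topL m) with h' | h' | h'
          · exact absurd h' hA1
          · exact absurd h' hL1
          · exact h'
        have hA2 : hasA f (topR m) := by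
          rcases hcl (topR m) with h' | h' | h'
          · exact h'
          · exact absurd h' hL2
          · exact absurd (adj_RR hf hR1 h' n12) e3'
        have hb : hasA f (Sum.inr (Sum.inl ⟨0, q0⟩)) := by
          by_contra hb
          rcases hcl (Sum.inr (Sum.inl ⟨0, q0⟩)) with h' | h' | h'
          · exact hb h'
          · exact nadj_LR hf hb hA1 (nLR _ hb h') hL1 a1
          · have : ¬ hasL f (Sum.inr (Sum.inl ⟨0, q0⟩)) := fun hl => nLR _ hb hl h'
            exact nadj_LR hf hnA hb (nLR _ hnA h) this a3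
        exact e3 _ _ (adj_AA hf hb hA2 (by simp [topR]))
    · -- class R
      have hR1 : ¬ hasR f (topL m) := fun h' => e1 _ (adj_RR hf h h' (np1 _))
      have hR2 : ¬ hasR f (topR m) := fun h' => e2 _ (adj_RR hf h h' (np2 _))
      have hL3 : ¬ hasL f (Sum.inl ⟨3, p3⟩) := fun hl => nLR _ hnA hl h
      by_cases hA1 : hasA f (topL m)
      · have hA2 : ¬ hasA f (topR m) := fun h' => e3' (adj_AA hf hA1 h' n12)
        have hb : hasA f (Sum.inr (Sum.inr ⟨0, q0⟩)) := by
          by_contra hb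
          rcases hcl (Sum.inr (Sum.inr ⟨0, q0⟩)) with h' | h' | h'
          · exact hb h'
          · exact nadj_LR hf hb hnA (nLR _ hb h') hL3 a4.symm
          · have : ¬ hasL f (Sum.inr (Sum.inr ⟨0, q0⟩)) := fun hl => nLR _ hb hl h'
            exact nadj_LR hf hA2 hb hR2 this a2.symm
        exact e3 _ _ (adj_AA hf hA1 hb (by simp [topL]))
      · have hL1 : hasL f (topL m) := by
          rcases hcl (topL m) with h' | h' | h'
          · exact absurd h' hA1
          · exact h'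
          · exact absurd h' hR1
        have hA2 : hasA f (topR m) := by
          rcases hcl (topR m) with h' | h' | h'
          · exact h'
          · exact absurd (adj_LL hf hL1 h' n12) e3'
          · exact absurd h' hR2
        have hb : hasA f (Sum.inr (Sum.inl ⟨0, q0⟩)) := by
          by_contra hb
          rcases hcl (Sum.inr (Sum.inl ⟨0, q0⟩)) with h' | h' | h'
          · exact hb h'
          · exact nadj_LR hf hb hnA (nLR _ hb h') hL3 a3.symm
          · have : ¬ hasL f (Sum.inr (Sum.inl ⟨0, q0⟩)) := fun hl => nLR _ hb hl h'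
            exact nadj_LR hf hA1 hb hR1 this a1.symm
        exact e3 _ _ (adj_AA hf hb hA2 (by simp [topR]))
  have hnA1 : ¬ hasA f (topL m) := fun h => e1 _ (adj_AA hf hA3 h (np1 _))
  have hnA2 : ¬ hasA f (topR m) := fun h => e2 _ (adj_AA hf hA3 h (np2 _))
  -- the tops have the classes L, R in some order
  have htops : (hasL f (topL m) ∧ hasR f (topR m)) ∨ (hasR f (topL m) ∧ hasL f (topR m)) := by
    rcases hcl (topL m) with h | h | h
    · exact absurd h hnA1
    · rcases hcl (topR m) with h' | h' | h'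
      · exact absurd h' hnA2
      · exact absurd (adj_LL hf h h' n12) e3'
      · exact Or.inl ⟨h, h'⟩
    · rcases hcl (topR m) with h' | h' | h'
      · exact absurd h' hnA2
      · exact Or.inr ⟨h, h'⟩
      · exact absurd (adj_RR hf h h' n12) e3'
  have hB : ∀ k, ¬ hasB f (Sum.inl k) := by
    intro k hk
    rw [hasB_iff] at hk
    rcases htops with ⟨h1, h2⟩ | ⟨h1, h2⟩ <;> rcases hk with hk | hk
    · exact e1 _ (adj_LL hf hk h1 (np1 _))
    · exact e2 _ (adj_RR hf hk h2 (np2 _))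
    · exact e2 _ (adj_LL hf hk h2 (np2 _))
    · exact e1 _ (adj_RR hf hk h1 (np1 _))
  have hA : ∀ k, hasA f (Sum.inl k) := by
    intro k
    rcases hcl (Sum.inl k) with h | h | h
    · exact h
    · exact absurd ((hasB_iff _).2 (Or.inl h)) (hB k)
    · exact absurd ((hasB_iff _).2 (Or.inr h)) (hB k)
  refine le_of_aligned hm hf (fun k => ⟨hA k, hB k⟩) (fun b hb => ?_)
  exact bot_th false b (adj_AA hf (hA ⟨0, by omega⟩) hb (by simp [bot]))

end anti

end Pool.Agent.H67.WQ
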