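import Pool.Agent.H67.WQ.Osc

set_option autoImplicit false

namespace Pool.Agent.H67.WQ

section free

variable {n : ℕ} {W : Type} {c : Bool} {H : SimpleGraph W} {f : OV n → W}

/-- no three pairwise nonadjacent vertices in a contraction of `osc true` -/
theorem osc_true_alpha (hf : IsModel (osc true n) H f) (x : Fin 3 → W)
    (hx : ∀ i j, i ≠ j → x i ≠ x j ∧ ¬ H.Adj (x i) (x j)) : False := by
  have hsome : ∀ w, hasA f w ∨ hasB f w := by
    intro w
    rw [hasB_iff]
    exact has_some hf w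
  have hA : ∀ i j, i ≠ j → ¬ (hasA f (x i) ∧ hasA f (x j)) := fun i j hij h =>
    (hx i j hij).2 (adj_AA hf h.1 h.2 (hx i j hij).1)
  have hB : ∀ i j, i ≠ j → ¬ (hasB f (x i) ∧ hasB f (x j)) := fun i j hij h =>
    (hx i j hij).2 (adj_BB hf h.1 h.2 (hx i j hij).1)
  have a01 := hA 0 1 (by decide)
  have a02 := hA 0 2 (by decide)
  have a12 := hA 1 2 (by decide)
  have b01 := hB 0 1 (by decide)
  have b02 := hB 0 2 (by decide)
  have b12 := hB 1 2 (by decide)
  have s0 := hsome (x 0)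
  have s1 := hsome (x 1)
  have s2 := hsome (x 2)
  tauto

/-- no octahedron as an induced subgraph of a contraction of `osc true` -/
theorem osc_true_oct (hf : IsModel (osc true n) H f) (x y : Fin 3 → W)
    (hxy : ∀ i, x i ≠ y i ∧ ¬ H.Adj (x i) (y i))
    (hc : ∀ i j, i ≠ j → H.Adj (x i) (x j) ∧ H.Adj (x i) (y j) ∧ H.Adj (y i) (y j)) : False := by
  classical
  have hsome : ∀ w, hasA f w ∨ hasB f w := by
    intro w
    rw [hasB_iff]
    exact has_some hf w
  let p : Fin 3 → W := fun i => if hasA f (x i) then x i else y i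
  let q : Fin 3 → W := fun i => if hasA f (x i) then y i else x i
  have hp : ∀ i, hasA f (p i) ∧ ¬ hasB f (p i) ∧ ¬ hasA f (q i) ∧ ¬ H.Adj (q i) (p i) ∧
      q i ≠ p i := by
    intro i
    have h1 : ¬ (hasA f (x i) ∧ hasA f (y i)) := fun h => (hxy i).2 (adj_AA hf h.1 h.2 (hxy i).1)
    have h2 : ¬ (hasB f (x i) ∧ hasB f (y i)) := fun h => (hxy i).2 (adj_BB hf h.1 h.2 (hxy i).1)
    have s1 := hsome (x i)
    have s2 := hsome (y i)
    by_cases h : hasA f (x i)
    · simp only [p, q, if_pos h]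
      exact ⟨h, by tauto, by tauto, fun h' => (hxy i).2 h'.symm, (hxy i).1.symm⟩
    · simp only [p, q, if_neg h]
      exact ⟨by tauto, by tauto, h, (hxy i).2, (hxy i).1⟩
  have hpq : ∀ i j, i ≠ j → H.Adj (q i) (p j) ∧ H.Adj (p i) (p j) := by
    intro i j hij
    obtain ⟨c1, c2, c3⟩ := hc i j hij
    obtain ⟨d1, d2, d3⟩ := hc j i hij.symm
    by_cases h : hasA f (x i) <;> by_cases h' : hasA f (x j)
    · simp only [p, q, if_pos h, if_pos h']
      exact ⟨d2.symm, c1⟩
    · simp only [p, q, if_pos h, if_neg h']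
      exact ⟨c3, c2⟩
    · simp only [p, q, if_neg h, if_pos h']
      exact ⟨c1, d2.symm⟩
    · simp only [p, q, if_neg h, if_neg h']
      exact ⟨c2, c3⟩
  have hj : Function.Injective p := by
    intro i j hij
    by_contra hne
    exact (hpq i j hne).2.ne hij
  set g := mkGroups f p hj (fun i => (hp i).1) with hg
  have hNL : ∀ i j, i ≠ j → g.NL i j := by
    intro i j hij
    exact NL_of_sep hf p hj _ (hp i).2.2.1 (hp j).2.1 (hpq i j hij).1 (hp i).2.2.2.1
      (hp i).2.2.2.2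
  have hU : ∀ i j, i ≠ j → g.U i j ∨ g.U j i := fun i j hij =>
    g.U_of_NL (hNL i j hij) (hNL j i hij.symm)
  rcases hU 0 1 (by decide) with h1 | h1 <;> rcases hU 1 2 (by decide) with h2 | h2 <;>
    rcases hU 0 2 (by decide) with h3 | h3
  · exact g.no3 h1 h2
  · exact g.no3 h1 h2
  · exact g.no3 h3 h2
  · exact g.no3 h3 h1
  · exact g.no3 h1 h3
  · exact g.no3 h2 h3
  · exact g.no3 h2 h1
  · exact g.no3 h2 h1

/-- no four pairwise nonadjacent vertices in a contraction of `osc c` -/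
theorem osc_alpha (hf : IsModel (osc c n) H f) (x : Fin 4 → W)
    (hx : ∀ i j, i ≠ j → x i ≠ x j ∧ ¬ H.Adj (x i) (x j)) : False := by
  have hA : ∀ i j, i ≠ j → ¬ (hasA f (x i) ∧ hasA f (x j)) := fun i j hij h =>
    (hx i j hij).2 (adj_AA hf h.1 h.2 (hx i j hij).1)
  have hL : ∀ i j, i ≠ j → ¬ (hasL f (x i) ∧ hasL f (x j)) := fun i j hij h =>
    (hx i j hij).2 (adj_LL hf h.1 h.2 (hx i j hij).1)
  have hR : ∀ i j, i ≠ j → ¬ (hasR f (x i) ∧ hasR f (x j)) := fun i j hij h =>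
    (hx i j hij).2 (adj_RR hf h.1 h.2 (hx i j hij).1)
  have a01 := hA 0 1 (by decide)
  have a02 := hA 0 2 (by decide)
  have a03 := hA 0 3 (by decide)
  have a12 := hA 1 2 (by decide)
  have a13 := hA 1 3 (by decide)
  have a23 := hA 2 3 (by decide)
  have b01 := hL 0 1 (by decide)
  have b02 := hL 0 2 (by decide)
  have b03 := hL 0 3 (by decide)
  have b12 := hL 1 2 (by decide)
  have b13 := hL 1 3 (by decide)
  have b23 := hL 2 3 (by decide)
  have c01 := hR 0 1 (by decide)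
  have c02 := hR 0 2 (by decide)
  have c03 := hR 0 3 (by decide)
  have c12 := hR 1 2 (by decide)
  have c13 := hR 1 3 (by decide)
  have c23 := hR 2 3 (by decide)
  have s0 := has_some hf (x 0)
  have s1 := has_some hf (x 1)
  have s2 := has_some hf (x 2)
  have s3 := has_some hf (x 3)
  rcases s0 with s0 | s0 | s0 <;> rcases s1 with s1 | s1 | s1 <;>
    rcases s2 with s2 | s2 | s2 <;> rcases s3 with s3 | s3 | s3 <;> simp_all

theorem edge_L (hf : IsModel (osc false n) H f) {q p : W} (hA : ¬ hasA f q) (hR : ¬ hasR f q)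
    (hL : ¬ hasL f p) (h : H.Adj q p) :
    ∃ (s : Fin (n + 2)) (k : Fin (n + 1)), f (Sum.inr (Sum.inl s)) = q ∧ f (Sum.inl k) = p ∧
      (s : ℕ) + 1 ≤ cx k := by
  obtain ⟨_, x, y, hx, hy, hxy⟩ := (hf.2 _ _).1 h
  rcases x with k | s | t
  · exact absurd ⟨k, hx⟩ hA
  · rcases y with k' | s' | t'
    · exact ⟨s, k', hx, hy, (osc_pL false n _ _).1 hxy.symm⟩
    · exact absurd ⟨s', hy⟩ hL
    · rw [osc_LR] at hxy
      exact Bool.noConfusion hxy
  · exact absurd ⟨t, hx⟩ hR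

theorem edge_R (hf : IsModel (osc false n) H f) {q p : W} (hA : ¬ hasA f q) (hL : ¬ hasL f q)
    (hR : ¬ hasR f p) (h : H.Adj q p) :
    ∃ (s : Fin (n + 2)) (k : Fin (n + 1)), f (Sum.inr (Sum.inr s)) = q ∧ f (Sum.inl k) = p ∧
      (s : ℕ) + 1 ≤ cy k := by
  obtain ⟨_, x, y, hx, hy, hxy⟩ := (hf.2 _ _).1 h
  rcases x with k | s | t
  · exact absurd ⟨k, hx⟩ hA
  · exact absurd ⟨s, hx⟩ hL
  · rcases y with k' | s' | t'
    · exact ⟨t, k', hx, hy, (osc_pR false n _ _).1 hxy.symm⟩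
    · have := hxy.symm
      rw [osc_LR] at this
      exact Bool.noConfusion this
    · exact absurd ⟨t', hy⟩ hR

/-- two nonadjacent pairs `(p, q)`, `(p', q')`, where `p, p'` contain points and `q, q'` do not,
are not completely joined to each other -/
theorem no_C4_aux (hf : IsModel (osc false n) H f) {p q p' q' : W} (hp : hasA f p)
    (hq : ¬ hasA f q) (hp' : hasA f p') (hq' : ¬ hasA f q') (hpq : p ≠ q) (hpq' : p' ≠ q')
    (h1 : ¬ H.Adj q p) (h2 : ¬ H.Adj q' p') (h3 : H.Adj q q') (h4 : H.Adj q p')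
    (h5 : H.Adj q' p) : False := by
  have nLR : ∀ w, ¬ hasA f w → hasL f w → ¬ hasR f w := fun w h1 h2 h3 => not_LR hf h1 h2 h3
  rcases has_some hf q with h | h | h
  · exact hq h
  · have hR := nLR q hq h
    have hqL' : hasL f q' := by
      rcases has_some hf q' with h' | h' | h'
      · exact absurd h' hq'
      · exact h'
      · have : ¬ hasL f q' := fun hl => nLR q' hq' hl h'
        exact absurd h3 (nadj_LR hf hq hq' hR this)
    have hR' := nLR q' hq' hqL'
    have n1 : ¬ hasL f p := fun hl => h1 (adj_LL hf h hl hpq.symm)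
    have n2 : ¬ hasL f p' := fun hl => h2 (adj_LL hf hqL' hl hpq'.symm)
    obtain ⟨s, k, hs, hk, hsk⟩ := edge_L hf hq hR n2 h4
    obtain ⟨s', k', hs', hk', hsk'⟩ := edge_L hf hq' hR' n1 h5
    have m1 : ¬ (s : ℕ) + 1 ≤ cx k' := fun hh =>
      h1 ((hf.2 _ _).2 ⟨hpq.symm, _, _, hs, hk', ((osc_pL false n _ _).2 hh).symm⟩)
    have m2 : ¬ (s' : ℕ) + 1 ≤ cx k := fun hh =>
      h2 ((hf.2 _ _).2 ⟨hpq'.symm, _, _, hs', hk, ((osc_pL false n _ _).2 hh).symm⟩)
    omega
  · have hL : ¬ hasL f q := fun hl => nLR q hq hl h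
    have hqR' : hasR f q' := by
      rcases has_some hf q' with h' | h' | h'
      · exact absurd h' hq'
      · exact absurd h3.symm (nadj_LR hf hq' hq (nLR q' hq' h') hL)
      · exact h'
    have hL' : ¬ hasL f q' := fun hl => nLR q' hq' hl hqR'
    have n1 : ¬ hasR f p := fun hl => h1 (adj_RR hf h hl hpq.symm)
    have n2 : ¬ hasR f p' := fun hl => h2 (adj_RR hf hqR' hl hpq'.symm)
    obtain ⟨s, k, hs, hk, hsk⟩ := edge_R hf hq hL n2 h4
    obtain ⟨s', k', hs', hk', hsk'⟩ := edge_R hf hq' hL' n1 h5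
    have m1 : ¬ (s : ℕ) + 1 ≤ cy k' := fun hh =>
      h1 ((hf.2 _ _).2 ⟨hpq.symm, _, _, hs, hk', ((osc_pR false n _ _).2 hh).symm⟩)
    have m2 : ¬ (s' : ℕ) + 1 ≤ cy k := fun hh =>
      h2 ((hf.2 _ _).2 ⟨hpq'.symm, _, _, hs', hk, ((osc_pR false n _ _).2 hh).symm⟩)
    omega

/-- no induced four-cycle in a contraction of `osc false` -/
theorem osc_false_C4 (hf : IsModel (osc false n) H f) {x y x' y' : W} (hxy : x ≠ y)
    (hxy' : x' ≠ y') (h1 : ¬ H.Adj x y) (h2 : ¬ H.Adj x' y') (h3 : H.Adj x x')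
    (h4 : H.Adj x y') (h5 : H.Adj y x') (h6 : H.Adj y y') : False := by
  have nLR : ∀ w, ¬ hasA f w → hasL f w → ¬ hasR f w := fun w h1 h2 h3 => not_LR hf h1 h2 h3
  -- in each pair exactly one contains a point
  have key : ∀ {x y x' y' : W}, x ≠ y → x' ≠ y' → ¬ H.Adj x y → ¬ H.Adj x' y' → H.Adj x x' →
      H.Adj x y' → H.Adj y x' → H.Adj y y' → hasA f x ∨ hasA f y := by
    intro x y x' y' hxy hxy' h1 h2 h3 h4 h5 h6
    by_contra hcon
    push Not at hcon
    obtain ⟨nx, ny⟩ := hcon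
    have hLR : (hasL f x ∧ hasR f y) ∨ (hasR f x ∧ hasL f y) := by
      rcases has_some hf x with h | h | h
      · exact absurd h nx
      · rcases has_some hf y with h' | h' | h'
        · exact absurd h' ny
        · exact absurd (adj_LL hf h h' hxy) h1
        · exact Or.inl ⟨h, h'⟩
      · rcases has_some hf y with h' | h' | h'
        · exact absurd h' ny
        · exact Or.inr ⟨h, h'⟩
        · exact absurd (adj_RR hf h h' hxy) h1
    have hA : ∀ z, H.Adj x z → H.Adj y z → hasA f z := by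
      intro z hxz hyz
      by_contra nz
      rcases hLR with ⟨hL, hR⟩ | ⟨hR, hL⟩
      · have nR : ¬ hasR f x := nLR x nx hL
        have nL : ¬ hasL f y := fun hl => nLR y ny hl hR
        rcases has_some hf z with h | h | h
        · exact nz h
        · exact nadj_LR hf nz ny (nLR z nz h) nL hyz.symm
        · exact nadj_LR hf nx nz nR (fun hl => nLR z nz hl h) hxz
      · have nR : ¬ hasR f y := nLR y ny hL
        have nL : ¬ hasL f x := fun hl => nLR x nx hl hR
        rcases has_some hf z with h | h | h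
        · exact nz h
        · exact nadj_LR hf nz nx (nLR z nz h) nL hxz.symm
        · exact nadj_LR hf ny nz nR (fun hl => nLR z nz hl h) hyz
    exact h2 (adj_AA hf (hA x' h3 h5) (hA y' h4 h6) hxy')
  have k1 := key hxy hxy' h1 h2 h3 h4 h5 h6
  have k2 := key hxy' hxy h2 h1 h3.symm h5.symm h4.symm h6.symm
  have n1 : ¬ (hasA f x ∧ hasA f y) := fun h => h1 (adj_AA hf h.1 h.2 hxy)
  have n2 : ¬ (hasA f x' ∧ hasA f y') := fun h => h2 (adj_AA hf h.1 h.2 hxy')
  rcases k1 with k1 | k1 <;> rcases k2 with k2 | k2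
  · exact no_C4_aux hf k1 (fun h => n1 ⟨k1, h⟩) k2 (fun h => n2 ⟨k2, h⟩) hxy hxy'
      (fun h => h1 h.symm) (fun h => h2 h.symm) h6 h5 h4.symm
  · exact no_C4_aux hf k1 (fun h => n1 ⟨k1, h⟩) k2 (fun h => n2 ⟨h, k2⟩) hxy hxy'.symm
      (fun h => h1 h.symm) h2 h5 h6 h3.symm
  · exact no_C4_aux hf k1 (fun h => n1 ⟨h, k1⟩) k2 (fun h => n2 ⟨k2, h⟩) hxy.symm hxy'
      h1 (fun h => h2 h.symm) h4 h3 h6.symm
  · exact no_C4_aux hf k1 (fun h => n1 ⟨h, k1⟩) k2 (fun h => n2 ⟨h, k2⟩) hxy.symm hxy'.symm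
      h1 h2 h3 h4 h5.symm

end free

end Pool.Agent.H67.WQ
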