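import Pool.Agent.H67.WQ.Net

set_option autoImplicit false

namespace Pool.Agent.H67.WQ

section prime
variable {V : Type} {G : SimpleGraph V} {P P₁ P₂ S : Set V} {u v : V}

theorem GN.of_del (h : GN (del G u v) P u v) : GN G P u v :=
  ⟨h.ne, h.uP, h.vP, h.conn.mono_graph fun _ _ _ _ => del_le, fun y hy z hz hne => by
    obtain ⟨T, h1, h2, h3, h4, h5⟩ := h.tight y hy z hz hne
    exact ⟨T, h1, h2.mono_graph fun _ _ _ _ => del_le, h3, h4, h5⟩⟩

theorem GN.attach_v (h : GN G P u v) (hS : ∀ x, x ∉ S ↔ x ∈ P ∧ x ≠ u ∧ x ≠ v) {z : V}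
    (hz : z ∉ S) : ∃ a ∈ comp G S z, G.Adj a v := by
  obtain ⟨hzP, hzu, hzv⟩ := (hS z).1 hz
  obtain ⟨T, hTP, hT, huT, hzT, huv⟩ := h.tight u h.uP z hzP hzu
  have hvT := huv.resolve_left huT
  have hvS : v ∈ S := by
    by_contra hh
    exact ((hS v).1 hh).2.2 rfl
  obtain ⟨a, ha, b, hb, hab⟩ := hT.2 (T ∩ comp G S z) Set.inter_subset_left
    ⟨z, hzT, mem_comp_self hz⟩ ⟨v, hvT, fun hh => comp_disj hh.2 hvS⟩
  by_cases hbv : b = v
  · exact ⟨a, ha.2, hbv ▸ hab⟩
  · exfalso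
    apply hb.2
    refine ⟨hb.1, comp_closed ha.2 ?_ hab⟩
    rw [hS]
    exact ⟨hTP hb.1, fun e => huT (e ▸ hb.1), hbv⟩

theorem GN.attach_u (h : GN G P u v) (hS : ∀ x, x ∉ S ↔ x ∈ P ∧ x ≠ u ∧ x ≠ v) {z : V}
    (hz : z ∉ S) : ∃ a ∈ comp G S z, G.Adj a u :=
  h.symm.attach_v (fun x => by rw [hS]; tauto) hz

theorem GN.localT (h : GN G P u v) (hS : ∀ x, x ∉ S ↔ x ∈ P ∧ x ≠ u ∧ x ≠ v) {z y : V}
    (hz : z ∉ S) (hy : y ∈ P) (hne : z ≠ y) : ∃ T, T ⊆ comp G S z ∪ {u, v} ∧
      Cn (del G u v) T ∧ y ∉ T ∧ z ∈ T ∧ (u ∈ T ∨ v ∈ T) := by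
  have huS : u ∈ S := by
    by_contra hh
    exact ((hS u).1 hh).2.1 rfl
  have hvS : v ∈ S := by
    by_contra hh
    exact ((hS v).1 hh).2.2 rfl
  obtain ⟨a, ha, hau⟩ := h.attach_u hS hz
  obtain ⟨b, hb, hbv⟩ := h.attach_v hS hz
  have huc : u ∉ comp G S z := fun hh => comp_disj hh huS
  have hvc : v ∉ comp G S z := fun hh => comp_disj hh hvS
  by_cases hyu : y = u
  · refine ⟨insert v (comp G S z), ?_, ?_, ?_, Or.inr (mem_comp_self hz), Or.inr (Or.inl rfl)⟩
    · rintro x (rfl | hx)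
      · exact Or.inr (Or.inr rfl)
      · exact Or.inl hx
    · apply del_cn (cn_insert (cn_comp hz) hb hbv)
      left
      rintro (h1 | h1)
      · exact h.ne h1
      · exact huc h1
    · rw [hyu]
      rintro (h1 | h1)
      · exact h.ne h1
      · exact huc h1
  by_cases hyv : y = v
  · refine ⟨insert u (comp G S z), ?_, ?_, ?_, Or.inr (mem_comp_self hz), Or.inl (Or.inl rfl)⟩
    · rintro x (rfl | hx)
      · exact Or.inr (Or.inl rfl)
      · exact Or.inl hx
    · apply del_cn (cn_insert (cn_comp hz) ha hau)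
      right
      rintro (h1 | h1)
      · exact h.ne h1.symm
      · exact hvc h1
    · rw [hyv]
      rintro (h1 | h1)
      · exact h.ne h1.symm
      · exact hvc h1
  have hzy : z ∉ S ∪ {y} := by
    rintro (h1 | h1)
    · exact hz h1
    · exact hne h1
  have hsub := comp_mono (G := G) (S := S) (S' := S ∪ {y}) Set.subset_union_left z
  obtain ⟨T, hTP, hT, hyT, hzT, huv⟩ := h.tight y hy z ((hS z).1 hz).1 hne
  have hex : ∃ o ∈ T, o ∉ comp G (S ∪ {y}) z := by
    rcases huv with h1 | h1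
    · exact ⟨u, h1, fun hh => huc (hsub hh)⟩
    · exact ⟨v, h1, fun hh => hvc (hsub hh)⟩
  obtain ⟨o, ho, ho'⟩ := hex
  obtain ⟨s, hs, t, ht, hst⟩ := hT.2 (T ∩ comp G (S ∪ {y}) z) Set.inter_subset_left
    ⟨z, hzT, mem_comp_self hzy⟩ ⟨o, ho, fun hh => ho' hh.2⟩
  have hty : t ≠ y := fun e => hyT (e ▸ ht.1)
  have htS : t ∈ S := by
    by_contra hh
    apply ht.2
    refine ⟨ht.1, comp_closed hs.2 ?_ hst⟩
    rintro (h1 | h1)
    · exact hh h1
    · exact hty h1
  have htuv : t = u ∨ t = v := by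
    by_contra hcon
    push Not at hcon
    exact (hS t).2 ⟨hTP ht.1, hcon.1, hcon.2⟩ htS
  refine ⟨insert t (comp G (S ∪ {y}) z), ?_, ?_, ?_, Or.inr (mem_comp_self hzy), ?_⟩
  · rintro x (hx | hx)
    · right
      rcases htuv with e | e
      · exact Or.inl (hx.trans e)
      · exact Or.inr (hx.trans e)
    · exact Or.inl (hsub hx)
  · apply del_cn (cn_insert (cn_comp hzy) hs.2 hst)
    rcases htuv with e | e
    · right
      rintro (h1 | h1)
      · exact h.ne (h1.trans e).symm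
      · exact hvc (hsub h1)
    · left
      rintro (h1 | h1)
      · exact h.ne (h1.trans e)
      · exact huc (hsub h1)
  · rintro (h1 | h1)
    · exact hty h1.symm
    · exact comp_disj h1 (Or.inr rfl)
  · rcases htuv with e | e
    · left; left; exact e.symm
    · right; left; exact e.symm

/-- a part consisting of components and the terminals -/
theorem GN.closed_part (h : GN G P u v) (hS : ∀ x, x ∉ S ↔ x ∈ P ∧ x ≠ u ∧ x ≠ v)
    {Q : Set V} (hQP : Q ⊆ P) (hu : u ∈ Q) (hv : v ∈ Q)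
    (hQ : ∀ z ∈ Q, z ∉ S → comp G S z ⊆ Q) {z₀ : V} (hz₀ : z₀ ∈ Q) (hz₀S : z₀ ∉ S) :
    GN (del G u v) Q u v := by
  have huS : u ∈ S := by
    by_contra hh
    exact ((hS u).1 hh).2.1 rfl
  have hvS : v ∈ S := by
    by_contra hh
    exact ((hS v).1 hh).2.2 rfl
  refine ⟨h.ne, hu, hv, ?_, ?_⟩
  · obtain ⟨a, ha, hau⟩ := h.attach_u hS hz₀S
    obtain ⟨b, hb, hbv⟩ := h.attach_v hS hz₀S
    have hc0 : Cn (del G u v) (comp G S z₀) := del_cn (cn_comp hz₀S)
      (Or.inl fun hh => comp_disj hh huS)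
    have hdau : (del G u v).Adj a u := del_of hau (Or.inl ⟨fun e => comp_disj ha (e ▸ huS),
      fun e => comp_disj ha (e ▸ hvS)⟩)
    have hdbv : (del G u v).Adj b v := del_of hbv (Or.inl ⟨fun e => comp_disj hb (e ▸ huS),
      fun e => comp_disj hb (e ▸ hvS)⟩)
    have hbase : Cn (del G u v) (insert v (insert u (comp G S z₀))) :=
      cn_insert (cn_insert hc0 ha hdau) (Or.inr hb) hdbv
    apply cn_of_base hbase
    · rintro x (rfl | rfl | hx)
      · exact hv
      · exact hu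
      · exact hQ z₀ hz₀ hz₀S hx
    · intro x hx
      by_cases hxu : x = u
      · exact ⟨{x}, Set.singleton_subset_iff.2 hx, cn_singleton _ x, rfl,
          Or.inl ⟨x, Or.inr (Or.inl hxu), rfl⟩⟩
      by_cases hxv : x = v
      · exact ⟨{x}, Set.singleton_subset_iff.2 hx, cn_singleton _ x, rfl,
          Or.inl ⟨x, Or.inl hxv, rfl⟩⟩
      have hxS : x ∉ S := (hS x).2 ⟨hQP hx, hxu, hxv⟩
      obtain ⟨c, hc, hcu⟩ := h.attach_u hS hxS
      have hdcu : (del G u v).Adj c u := del_of hcu (Or.inl ⟨fun e => comp_disj hc (e ▸ huS),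
        fun e => comp_disj hc (e ▸ hvS)⟩)
      exact ⟨comp G S x, hQ x hx hxS, del_cn (cn_comp hxS) (Or.inl fun hh => comp_disj hh huS),
        mem_comp_self hxS, Or.inr ⟨u, Or.inr (Or.inl rfl), c, hc, hdcu.symm⟩⟩
  · intro y hy z hz hne
    by_cases hzu : z = u
    · exact ⟨{u}, Set.singleton_subset_iff.2 hu, cn_singleton _ u, fun e => hne (by
        have e' : y = u := e
        rw [hzu, e']), hzu, Or.inl rfl⟩
    by_cases hzv : z = v
    · exact ⟨{v}, Set.singleton_subset_iff.2 hv, cn_singleton _ v, fun e => hne (by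
        have e' : y = v := e
        rw [hzv, e']), hzv, Or.inr rfl⟩
    have hzS : z ∉ S := (hS z).2 ⟨hQP hz, hzu, hzv⟩
    obtain ⟨T, h1, h2, h3, h4, h5⟩ := h.localT hS hzS (hQP hy) hne
    refine ⟨T, ?_, h2, h3, h4, h5⟩
    intro x hx
    rcases h1 hx with h6 | h6 | h6
    · exact hQ z hz hzS h6
    · rw [h6]; exact hu
    · rw [h6]; exact hv

theorem GN.leaves_one (h : GN G P u v) (hS : ∀ x, x ∉ S ↔ x ∈ P ∧ x ≠ u ∧ x ≠ v)
    {Q : Set V} (hQP : Q ⊆ P) (hu : u ∈ Q) (hv : v ∈ Q)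
    (hQ : ∀ z ∈ Q, z ∉ S → comp G S z ⊆ Q) {z₀ : V} (hz₀ : z₀ ∈ Q) (hz₀S : z₀ ∉ S) :
    Leaves (del G u v) Q u v 1 := by
  classical
  have huS : u ∈ S := by
    by_contra hh
    exact ((hS u).1 hh).2.1 rfl
  have hvS : v ∈ S := by
    by_contra hh
    exact ((hS v).1 hh).2.2 rfl
  have huc : ∀ z, u ∉ comp G S z := fun z hh => comp_disj hh huS
  have hvc : ∀ z, v ∉ comp G S z := fun z hh => comp_disj hh hvS
  let g : V → ℕ := fun x => if x = v then 1 else if x ∈ comp G S z₀ then 2 else 0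
  have gv : g v = 1 := by simp [g]
  have gu : g u = 0 := by simp [g, h.ne, huc]
  have gD : ∀ x ∈ comp G S z₀, g x = 2 := by
    intro x hx
    have : x ≠ v := fun e => hvc z₀ (e ▸ hx)
    simp [g, this, hx]
  have g0 : ∀ x, x ≠ v → x ∉ comp G S z₀ → g x = 0 := by
    intro x h1 h2
    simp [g, h1, h2]
  have glt : ∀ x, g x < 3 := by
    intro x
    simp only [g]
    split
    · omega
    · split <;> omega
  have g2 : ∀ x, g x = 2 → x ∈ comp G S z₀ := by
    intro x hx
    by_contra hh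
    by_cases hxv : x = v
    · rw [hxv, gv] at hx; omega
    · rw [g0 x hxv hh] at hx; omega
  have hdc : ∀ z, z ∉ S → Cn (del G u v) (comp G S z) := fun z hz => del_cn (cn_comp hz)
    (Or.inl (huc z))
  have hdu : ∀ z, z ∉ S → ∃ a ∈ comp G S z, (del G u v).Adj a u := by
    intro z hz
    obtain ⟨a, ha, hau⟩ := h.attach_u hS hz
    exact ⟨a, ha, del_of hau (Or.inl ⟨fun e => huc z (e ▸ ha), fun e => hvc z (e ▸ ha)⟩)⟩
  have hdv : ∀ z, z ∉ S → ∃ a ∈ comp G S z, (del G u v).Adj a v := by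
    intro z hz
    obtain ⟨a, ha, hau⟩ := h.attach_v hS hz
    exact ⟨a, ha, del_of hau (Or.inl ⟨fun e => huc z (e ▸ ha), fun e => hvc z (e ▸ ha)⟩)⟩
  refine ⟨g, gu, gv, fun x _ => glt x, ?_, ?_, ?_⟩
  · intro i hi
    have hi' : i = 0 ∨ i = 1 ∨ i = 2 := by omega
    rcases hi' with rfl | rfl | rfl
    · have hsub : ({u} : Set V) ⊆ {x | x ∈ Q ∧ g x = 0} :=
        Set.singleton_subset_iff.2 ⟨hu, gu⟩
      apply cn_of_base (cn_singleton _ u) hsub
      rintro x ⟨hx, hx0⟩
      by_cases hxu : x = u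
      · exact ⟨{x}, Set.singleton_subset_iff.2 ⟨hx, hx0⟩, cn_singleton _ x, rfl,
          Or.inl ⟨x, hxu, rfl⟩⟩
      have hxv : x ≠ v := by
        rintro rfl
        rw [gv] at hx0; omega
      have hxS : x ∉ S := (hS x).2 ⟨hQP hx, hxu, hxv⟩
      have hxD : x ∉ comp G S z₀ := fun hh => by
        rw [gD x hh] at hx0; omega
      obtain ⟨a, ha, hau⟩ := hdu x hxS
      refine ⟨comp G S x, ?_, hdc x hxS, mem_comp_self hxS, Or.inr ⟨u, rfl, a, ha, hau.symm⟩⟩
      intro y hy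
      refine ⟨hQ x hx hxS hy, g0 y (fun e => hvc x (e ▸ hy)) (fun hh => hxD ?_)⟩
      rw [← comp_eq hh, comp_eq hy]
      exact mem_comp_self hxS
    · have : {x | x ∈ Q ∧ g x = 1} = {v} := by
        ext x
        constructor
        · rintro ⟨_, hx⟩
          by_contra hxv
          have hxv' : x ≠ v := hxv
          by_cases hxD : x ∈ comp G S z₀
          · rw [gD x hxD] at hx; omega
          · rw [g0 x hxv' hxD] at hx; omega
        · intro hx
          have hx' : x = v := hx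
          rw [hx']; exact ⟨hv, gv⟩
      rw [this]; exact cn_singleton _ v
    · have : {x | x ∈ Q ∧ g x = 2} = comp G S z₀ := by
        ext x
        constructor
        · rintro ⟨_, hx⟩
          exact g2 x hx
        · intro hx
          exact ⟨hQ z₀ hz₀ hz₀S hx, gD x hx⟩
      rw [this]; exact hdc z₀ hz₀S
  · intro x _ y _ hx hy _
    have := glt x
    have := glt y
    omega
  · intro i hi1 hi2
    have : i = 2 := by omega
    subst this
    obtain ⟨a, ha, hau⟩ := hdu z₀ hz₀S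
    obtain ⟨b, hb, hbv⟩ := hdv z₀ hz₀S
    exact ⟨⟨u, hu, a, hQ z₀ hz₀ hz₀S ha, gu, gD a ha, hau.symm⟩,
      ⟨v, hv, b, hQ z₀ hz₀ hz₀S hb, gv, gD b hb, hbv.symm⟩⟩

theorem Leaves.add {s t : ℕ} (hP : Par G P P₁ P₂ u v) (h₁ : Leaves (del G u v) P₁ u v s)
    (h₂ : Leaves G P₂ u v t) : Leaves G P u v (s + t) := by
  classical
  obtain ⟨g₁, a1, a2, a3, a4, a5, a6⟩ := h₁
  obtain ⟨g₂, b1, b2, b3, b4, b5, b6⟩ := h₂
  let φ : ℕ → ℕ := fun i => if i < 2 then i else i + s
  have φ1 : ∀ i, i < 2 → φ i = i := fun i hi => by simp only [φ]; rw [if_pos hi]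
  have φ2 : ∀ i, 2 ≤ i → φ i = i + s := fun i hi => by simp only [φ]; rw [if_neg (by omega)]
  have φ3 : ∀ i, φ i < 2 ↔ i < 2 := by
    intro i
    by_cases hi : i < 2
    · rw [φ1 i hi]
    · rw [φ2 i (by omega)]; omega
  let g : V → ℕ := fun x => if x ∈ P₁ then g₁ x else φ (g₂ x)
  have hg1 : ∀ x ∈ P₁, g x = g₁ x := fun x hx => by simp only [g]; rw [if_pos hx]
  have hg2 : ∀ x ∈ P₂, g x = φ (g₂ x) := fun x hx => by
    by_cases hx1 : x ∈ P₁
    · rw [hg1 x hx1]
      rcases hP.inter x hx1 hx with rfl | rfl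
      · rw [a1, b1]; rfl
      · rw [a2, b2]; rfl
    · simp only [g]; rw [if_neg hx1]
  have hle : ∀ x y, (del G u v).Adj x y → G.Adj x y := fun x y => del_le
  refine ⟨g, by rw [hg1 u hP.u1, a1], by rw [hg1 v hP.v1, a2], ?_, ?_, ?_, ?_⟩
  · intro x hx
    rcases (hP.union x).1 hx with h | h
    · rw [hg1 x h]
      have := a3 x h
      omega
    · rw [hg2 x h]
      have := b3 x h
      by_cases hi : g₂ x < 2
      · rw [φ1 _ hi]; omega
      · rw [φ2 _ (by omega)]; omega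
  · intro i hi
    by_cases hi2 : i < 2
    · -- the two central classes
      have hmid : ∃ z, z ∈ P₁ ∧ z ∈ P₂ ∧ g₁ z = i ∧ g₂ z = i := by
        have : i = 0 ∨ i = 1 := by omega
        rcases this with rfl | rfl
        · exact ⟨u, hP.u1, hP.u2, a1, b1⟩
        · exact ⟨v, hP.v1, hP.v2, a2, b2⟩
      obtain ⟨z, hz1, hz2, hgz1, hgz2⟩ := hmid
      have e : {x | x ∈ P ∧ g x = i} = {x | x ∈ P₁ ∧ g₁ x = i} ∪ {x | x ∈ P₂ ∧ g₂ x = i} := by
        ext x
        constructor
        · rintro ⟨hx, hgx⟩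
          rcases (hP.union x).1 hx with h | h
          · left
            exact ⟨h, by rw [← hg1 x h]; exact hgx⟩
          · right
            refine ⟨h, ?_⟩
            rw [hg2 x h] at hgx
            have h3 : g₂ x < 2 := (φ3 _).1 (by omega)
            rw [φ1 _ h3] at hgx
            exact hgx
        · rintro (⟨hx, hgx⟩ | ⟨hx, hgx⟩)
          · exact ⟨(hP.union x).2 (Or.inl hx), by rw [hg1 x hx]; exact hgx⟩
          · exact ⟨(hP.union x).2 (Or.inr hx), by rw [hg2 x hx, hgx, φ1 i hi2]⟩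
      rw [e]
      exact cn_union G ((a4 i (by omega)).mono_graph fun x _ y _ => hle x y) (b4 i (by omega))
        (Or.inl ⟨z, ⟨hz1, hgz1⟩, hz2, hgz2⟩)
    · by_cases his : i < s + 2
      · have e : {x | x ∈ P ∧ g x = i} = {x | x ∈ P₁ ∧ g₁ x = i} := by
          ext x
          constructor
          · rintro ⟨hx, hgx⟩
            by_cases h : x ∈ P₁
            · exact ⟨h, by rw [← hg1 x h]; exact hgx⟩
            · exfalso
              have h' : x ∈ P₂ := ((hP.union x).1 hx).resolve_left h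
              rw [hg2 x h'] at hgx
              by_cases h3 : g₂ x < 2
              · rw [φ1 _ h3] at hgx; omega
              · rw [φ2 _ (by omega)] at hgx; omega
          · rintro ⟨hx, hgx⟩
            exact ⟨(hP.union x).2 (Or.inl hx), by rw [hg1 x hx]; exact hgx⟩
        rw [e]
        exact (a4 i his).mono_graph fun x _ y _ => hle x y
      · have e : {x | x ∈ P ∧ g x = i} = {x | x ∈ P₂ ∧ g₂ x = i - s} := by
          ext x
          constructor
          · rintro ⟨hx, hgx⟩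
            by_cases h : x ∈ P₁
            · exfalso
              have := a3 x h
              rw [hg1 x h] at hgx
              omega
            · have h' : x ∈ P₂ := ((hP.union x).1 hx).resolve_left h
              rw [hg2 x h'] at hgx
              refine ⟨h', ?_⟩
              by_cases h3 : g₂ x < 2
              · rw [φ1 _ h3] at hgx; omega
              · rw [φ2 _ (by omega)] at hgx; omega
          · rintro ⟨hx, hgx⟩
            refine ⟨(hP.union x).2 (Or.inr hx), ?_⟩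
            rw [hg2 x hx, hgx, φ2 _ (by omega)]
            omega
        rw [e]
        exact b4 _ (by omega)
  · intro x hx y hy hgx hgy hxy
    have hxu : x ≠ u := by rintro rfl; rw [hg1 _ hP.u1, a1] at hgx; omega
    have hxv : x ≠ v := by rintro rfl; rw [hg1 _ hP.v1, a2] at hgx; omega
    have hyu : y ≠ u := by rintro rfl; rw [hg1 _ hP.u1, a1] at hgy; omega
    have hyv : y ≠ v := by rintro rfl; rw [hg1 _ hP.v1, a2] at hgy; omega
    rcases hP.edge_cases hx hy hxy with ⟨h1, h2, h3⟩ | ⟨h1, h2⟩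
    · rw [hg1 x h1] at hgx ⊢
      rw [hg1 y h2] at hgy ⊢
      exact a5 x h1 y h2 hgx hgy h3
    · rw [hg2 x h1] at hgx ⊢
      rw [hg2 y h2] at hgy ⊢
      have h3 : ¬ g₂ x < 2 := fun hh => by
        have := (φ3 _).2 hh
        omega
      have h4 : ¬ g₂ y < 2 := fun hh => by
        have := (φ3 _).2 hh
        omega
      rw [b5 x h1 y h2 (by omega) (by omega) hxy]
  · intro i hi1 hi2
    by_cases his : i < s + 2
    · obtain ⟨⟨x, hx, y, hy, hgx, hgy, hxy⟩, ⟨x₁, hx₁, y₁, hy₁, hgx₁, hgy₁, hxy₁⟩⟩ := a6 i hi1 his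
      exact ⟨⟨x, (hP.union x).2 (Or.inl hx), y, (hP.union y).2 (Or.inl hy),
        by rw [hg1 x hx]; exact hgx, by rw [hg1 y hy]; exact hgy, hle _ _ hxy⟩,
        ⟨x₁, (hP.union _).2 (Or.inl hx₁), y₁, (hP.union _).2 (Or.inl hy₁),
        by rw [hg1 _ hx₁]; exact hgx₁, by rw [hg1 _ hy₁]; exact hgy₁, hle _ _ hxy₁⟩⟩
    · obtain ⟨⟨x, hx, y, hy, hgx, hgy, hxy⟩, ⟨x₁, hx₁, y₁, hy₁, hgx₁, hgy₁, hxy₁⟩⟩ :=
        b6 (i - s) (by omega) (by omega)
      have e : φ (i - s) = i := by rw [φ2 _ (by omega)]; omega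
      exact ⟨⟨x, (hP.union x).2 (Or.inr hx), y, (hP.union y).2 (Or.inr hy),
        by rw [hg2 x hx, hgx]; rfl, by rw [hg2 y hy, hgy, e], hxy⟩,
        ⟨x₁, (hP.union _).2 (Or.inr hx₁), y₁, (hP.union _).2 (Or.inr hy₁),
        by rw [hg2 _ hx₁, hgx₁]; rfl, by rw [hg2 _ hy₁, hgy₁, e], hxy₁⟩⟩

/-- the shape of a network without separating vertex -/
theorem Cls.prime_cases [Fintype V] {t : ℕ} (h : Cls (t + 1) G P u v) (hns : NonSep G P u v) :
    (∀ x, x ∈ P ↔ x = u ∨ x = v) ∨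
    (∃ P₁ P₂, Par G P P₁ P₂ u v ∧ Cls t (del G u v) P₁ u v ∧ Cls t G P₂ u v) ∨
    (G.Adj u v ∧ Cls (t + 1) (del G u v) P u v ∧ ¬ NonSep (del G u v) P u v) := by
  classical
  have hgn := h.gn
  by_cases hint : ∀ x ∈ P, x = u ∨ x = v
  · left
    intro x
    refine ⟨hint x, ?_⟩
    rintro (rfl | rfl)
    · exact hgn.uP
    · exact hgn.vP
  right
  push Not at hint
  obtain ⟨z₀, hz₀P, hz₀u, hz₀v⟩ := hint
  set S : Set V := Pᶜ ∪ {u, v} with hSdef
  have hS : ∀ x, x ∉ S ↔ x ∈ P ∧ x ≠ u ∧ x ≠ v := by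
    intro x
    simp only [hSdef, Set.mem_union, Set.mem_compl_iff, Set.mem_insert_iff,
      Set.mem_singleton_iff, not_or, not_not]
  have hz₀S : z₀ ∉ S := (hS z₀).2 ⟨hz₀P, hz₀u, hz₀v⟩
  have huS : u ∈ S := by
    by_contra hh
    exact ((hS u).1 hh).2.1 rfl
  have hvS : v ∈ S := by
    by_contra hh
    exact ((hS v).1 hh).2.2 rfl
  have hcP : ∀ z, comp G S z ⊆ P := fun z x hx => ((hS x).1 (comp_disj hx)).1
  set D := comp G S z₀ with hD
  have huD : u ∉ D := fun hh => comp_disj hh huS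
  have hvD : v ∉ D := fun hh => comp_disj hh hvS
  by_cases hall : ∃ z₁, z₁ ∉ S ∧ z₁ ∉ D
  · left
    obtain ⟨z₁, hz₁S, hz₁D⟩ := hall
    set P₁ : Set V := D ∪ {u, v} with hP₁
    set P₂ : Set V := P \ D with hP₂
    have hPar : Par G P P₁ P₂ u v := by
      refine ⟨?_, ?_, Or.inr (Or.inl rfl), Or.inr (Or.inr rfl), ⟨hgn.uP, huD⟩, ⟨hgn.vP, hvD⟩, ?_⟩
      · intro x
        constructor
        · intro hx
          by_cases hxD : x ∈ D
          · exact Or.inl (Or.inl hxD)
          · exact Or.inr ⟨hx, hxD⟩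
        · rintro ((hx | rfl | rfl) | hx)
          · exact hcP _ hx
          · exact hgn.uP
          · exact hgn.vP
          · exact hx.1
      · rintro x (hx | hx) hx2
        · exact absurd hx hx2.2
        · exact hx
      · rintro x (hx | hx) y hy hxy
        · right; right
          by_contra hcon
          push Not at hcon
          exact hy.2 (comp_closed hx ((hS y).2 ⟨hy.1, hcon.1, hcon.2⟩) hxy)
        · rcases hx with hx | hx
          · exact Or.inl hx
          · exact Or.inr (Or.inl hx)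
    have c1P : P₁ ⊆ P := fun x hx => (hPar.union x).2 (Or.inl hx)
    have c2P : P₂ ⊆ P := fun x hx => hx.1
    have cl1 : ∀ z ∈ P₁, z ∉ S → comp G S z ⊆ P₁ := by
      rintro z (hz | hz | hz) hzS
      · intro x hx
        left
        rw [hD, ← comp_eq hz]
        exact hx
      · exact absurd huS (hz ▸ hzS)
      · have hz' : z = v := hz
        exact absurd hvS (hz' ▸ hzS)
    have cl2 : ∀ z ∈ P₂, z ∉ S → comp G S z ⊆ P₂ := by
      rintro z ⟨hz, hzD⟩ hzS x hx
      refine ⟨hcP _ hx, fun hxD => hzD ?_⟩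
      rw [hD, ← comp_eq hxD, comp_eq hx]
      exact mem_comp_self hzS
    have hz₀1 : z₀ ∈ P₁ := Or.inl (mem_comp_self hz₀S)
    have hz₁2 : z₁ ∈ P₂ := ⟨((hS z₁).1 hz₁S).1, hz₁D⟩
    have g1 := hgn.closed_part hS c1P hPar.u1 hPar.v1 cl1 hz₀1 hz₀S
    have g2 := (hgn.closed_part hS c2P hPar.u2 hPar.v2 cl2 hz₁2 hz₁S).of_del
    have l1 := hgn.leaves_one hS c1P hPar.u1 hPar.v1 cl1 hz₀1 hz₀S
    have l2 := (hgn.leaves_one hS c2P hPar.u2 hPar.v2 cl2 hz₁2 hz₁S).of_del
    refine ⟨P₁, P₂, hPar, ⟨g1, fun hq => h.nq (hq.mono c1P fun x y => del_le), fun hl => h.nl ?_⟩,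
      ⟨g2, fun hq => h.nq (hq.mono c2P fun x y => id), fun hl => h.nl ?_⟩⟩
    · exact Leaves.add hPar hl l2
    · have := Leaves.add hPar l1 hl
      rwa [Nat.add_comm] at this
  · right
    push Not at hall
    have clP : ∀ z ∈ P, z ∉ S → comp G S z ⊆ P := fun z _ _ => hcP z
    have g1 := hgn.closed_part hS (Q := P) (fun _ h => h) hgn.uP hgn.vP clP hz₀P hz₀S
    have hsepd : ¬ NonSep (del G u v) P u v := by
      intro hns'
      apply h.nq
      have hq : Quad (del G u v) P u v := by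
        apply m2 D.ncard u v {u} {v} D rfl
        refine ⟨g1.tight, hns', rfl, rfl, cn_singleton _ u, cn_singleton _ v,
          del_cn (cn_comp hz₀S) (Or.inl huD), ?_, ?_, ?_, ?_, ?_⟩
        · intro x
          constructor
          · intro hx
            by_cases hxu : x = u
            · exact Or.inl hxu
            by_cases hxv : x = v
            · exact Or.inr (Or.inl hxv)
            exact Or.inr (Or.inr (hall x ((hS x).2 ⟨hx, hxu, hxv⟩)))
          · rintro (hx | hx | hx)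
            · have hx' : x = u := hx
              rw [hx']; exact hgn.uP
            · have hx' : x = v := hx
              rw [hx']; exact hgn.vP
            · exact hcP _ hx
        · intro x hx hx'
          have h1 : x = u := hx
          have h2 : x = v := hx'
          exact hgn.ne (h1.symm.trans h2)
        · intro x hx hxD
          have h1 : x = u := hx
          exact huD (h1 ▸ hxD)
        · intro x hx hxD
          have h1 : x = v := hx
          exact hvD (h1 ▸ hxD)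
        · intro x hx y hy hxy
          have h1 : x = u := hx
          have h2 : y = v := hy
          exact hxy.2 (Or.inl ⟨h1, h2⟩)
      exact hq.mono (fun _ h => h) fun x y => del_le
    refine ⟨?_, ⟨g1, fun hq => h.nq (hq.mono (fun _ h => h) fun x y => del_le),
      fun hl => h.nl hl.of_del⟩, hsepd⟩
    by_contra hnadj
    apply hsepd
    intro w hw hwu hwv
    obtain ⟨T, h1, h2, h3, h4, h5⟩ := hns w hw hwu hwv
    refine ⟨T, h1, h2.mono_graph ?_, h3, h4, h5⟩
    intro x _ y _ hxy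
    refine ⟨hxy, ?_⟩
    rintro (⟨rfl, rfl⟩ | ⟨rfl, rfl⟩)
    · exact hnadj hxy
    · exact hnadj hxy.symm

end prime

end Pool.Agent.H67.WQ
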