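import Pool.Agent.H67.WQ.Hang

set_option autoImplicit false

namespace Pool.Agent.H67.WQ

/-- each side of a separation of a connected part is connected -/
theorem Sep.cn_side {V : Type} {G : SimpleGraph V} {P P₁ P₂ : Set V} {w : V}
    (h : Sep G P P₁ P₂ w) (hP : Cn G P) : Cn G P₁ := by
  refine ⟨⟨w, h.w1⟩, fun A hA hA1 hA2 => ?_⟩
  obtain ⟨a0, ha0⟩ := hA1
  obtain ⟨b0, hb0, hb0'⟩ := hA2
  by_cases hwA : w ∈ A
  · obtain ⟨a, ha, b, hb, hab⟩ := hP.2 (A ∪ P₂) (by
      rintro x (hx | hx)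
      · exact (h.union x).2 (Or.inl (hA hx))
      · exact (h.union x).2 (Or.inr hx)) ⟨w, Or.inl hwA⟩
      ⟨b0, (h.union b0).2 (Or.inl hb0), by
        rintro (hx | hx)
        · exact hb0' hx
        · exact hb0' (by rw [h.inter b0 hb0 hx]; exact hwA)⟩
    have hb1 : b ∈ P₁ := by
      rcases (h.union b).1 hb.1 with h1 | h1
      · exact h1
      · exact absurd (Or.inr h1) hb.2
    have hbA : b ∉ A := fun hh => hb.2 (Or.inl hh)
    rcases ha with ha | ha
    · exact ⟨a, ha, b, ⟨hb1, hbA⟩, hab⟩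
    · rcases h.edge b hb1 a ha hab.symm with e | e
      · exact absurd (e ▸ hwA) hbA
      · exact ⟨a, e ▸ hwA, b, ⟨hb1, hbA⟩, hab⟩
  · obtain ⟨a, ha, b, hb, hab⟩ := hP.2 A (fun x hx => (h.union x).2 (Or.inl (hA hx)))
      ⟨a0, ha0⟩ ⟨b0, (h.union b0).2 (Or.inl hb0), hb0'⟩
    refine ⟨a, ha, b, ⟨?_, hb.2⟩, hab⟩
    rcases (h.union b).1 hb.1 with h1 | h1
    · exact h1
    · rcases h.edge a (hA ha) b h1 hab with e | e
      · exact absurd (e ▸ ha) hwA
      · rw [e]; exact h.w1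

/-- a property of parts of graphs which is inherited by contractions -/
def Closed (Φ : ∀ {V : Type}, SimpleGraph V → Set V → Prop) : Prop :=
  ∀ {V' V : Type} {G' : SimpleGraph V'} {G : SimpleGraph V} {P' : Set V'} {P : Set V}
    {f : V' → V}, Mod G' P' G P f → Φ G' P' → Φ G P

/-- the rooted connected parts with a property -/
def RGC (Φ : ∀ {V : Type}, SimpleGraph V → Set V → Prop) : Set RG :=
  {A | A.x ∈ A.P ∧ Cn A.G A.P ∧ Φ A.G A.P}

/-- the labelled cores with a property -/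
def Cores (Φ : ∀ {V : Type}, SimpleGraph V → Set V → Prop) {L : Type} (𝓛 : Set L) : Set (LN L) :=
  {N | GN N.G N.P N.u N.v ∧ N.G.Adj N.u N.v ∧ Φ N.G N.P ∧
    ∀ w ∈ N.P, w ≠ N.u → w ≠ N.v → N.lab w ∈ 𝓛}

theorem single_pwo : {A : RG | ∀ z, z ∈ A.P ↔ z = A.x}.PartiallyWellOrderedOn RG.le := by
  rw [Set.partiallyWellOrderedOn_iff_exists_lt]
  intro a ha
  refine ⟨0, 1, by omega, fun _ => (a 0).x, ?_, rfl⟩
  have h0 : (a 0).P = {(a 0).x} := by
    ext z
    exact ha 0 z
  have h1 : (a 1).P = {(a 1).x} := by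
    ext z
    exact ha 1 z
  rw [h0, h1]
  exact Mod.const _ (cn_singleton _ _) (fun _ _ => rfl)

theorem rooted_pwo (Φ : ∀ {V : Type}, SimpleGraph V → Set V → Prop) (hΦ : Closed @Φ)
    (hcore : ∀ 𝓛 : Set RG, 𝓛.PartiallyWellOrderedOn RG.le →
      (Cores @Φ 𝓛).PartiallyWellOrderedOn (LN.le RG.le)) :
    (RGC @Φ).PartiallyWellOrderedOn RG.le := by
  classical
  apply mbs (fun A : RG => A.P.ncard)
  intro f hf hT
  set 𝒯 : Set RG := {x | x ∈ RGC @Φ ∧ ∃ i, (fun A : RG => A.P.ncard) x <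
    (fun A : RG => A.P.ncard) (f i) ∧ ∀ y ∈ RGC @Φ, RG.le y x → RG.le y (f i)} with hTdef
  have hmemT : ∀ (i : ℕ) (Q : Set (Fin (f i).n)) (q : Fin (f i).n) (g : Fin (f i).n → Fin (f i).n),
      q ∈ Q → Cn (f i).G Q → Mod (f i).G (f i).P (f i).G Q g → g (f i).x = q →
      Q.ncard < (f i).P.ncard → (⟨(f i).n, (f i).G, Q, q⟩ : RG) ∈ 𝒯 := by
    intro i Q q g hq hQ hg hgx hlt
    refine ⟨⟨hq, hQ, hΦ hg (hf i).2.2⟩, i, hlt, fun y _ hy => ?_⟩
    exact trans_of RG.le hy ⟨g, hg, hgx⟩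
  -- second type
  have h2 : {A : RG | A ∈ Set.range f ∧ ∃ P₁ P₂, Sep A.G A.P P₁ P₂ A.x ∧
      P₁.ncard < A.P.ncard ∧ P₂.ncard < A.P.ncard}.PartiallyWellOrderedOn RG.le := by
    rw [Set.partiallyWellOrderedOn_iff_exists_lt]
    intro a ha
    have hi : ∀ n, ∃ i, f i = a n := fun n => (ha n).1
    choose i hi using hi
    have hs : ∀ n, ∃ P₁ P₂, Sep (f (i n)).G (f (i n)).P P₁ P₂ (f (i n)).x ∧
        P₁.ncard < (f (i n)).P.ncard ∧ P₂.ncard < (f (i n)).P.ncard := by
      intro n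
      rw [hi n]
      exact (ha n).2
    choose P₁ P₂ hs hc1 hc2 using hs
    have cP : ∀ n, Cn (f (i n)).G (f (i n)).P := fun n => (hf (i n)).2.1
    obtain ⟨m, n, hmn, r1, r2⟩ := good_pair₂ hT hT
      (fun n => (⟨(f (i n)).n, (f (i n)).G, P₁ n, (f (i n)).x⟩ : RG))
      (fun n => (⟨(f (i n)).n, (f (i n)).G, P₂ n, (f (i n)).x⟩ : RG))
      (fun n => hmemT (i n) (P₁ n) (f (i n)).x _ (hs n).w1 ((hs n).cn_side (cP n))
        ((hs n).retract ((hs n).symm.cn_side (cP n))) (if_pos (hs n).w1) (hc1 n))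
      (fun n => hmemT (i n) (P₂ n) (f (i n)).x _ (hs n).w2 ((hs n).symm.cn_side (cP n))
        ((hs n).symm.retract ((hs n).cn_side (cP n))) (if_pos (hs n).w2) (hc2 n))
    refine ⟨m, n, hmn, ?_⟩
    obtain ⟨f₁, m1, hx1⟩ := r1
    obtain ⟨f₂, m2, hx2⟩ := r2
    rw [← hi m, ← hi n]
    refine ⟨_, (hs m).glue (hs n) m1 m2 hx1 hx2, ?_⟩
    rw [if_pos (hs n).w1]
    exact hx1
  -- third type
  have h3 : {A : RG | A ∈ Set.range f ∧ Cn A.G (A.P \ {A.x})}.PartiallyWellOrderedOn RG.le := by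
    rw [Set.partiallyWellOrderedOn_iff_exists_lt]
    intro a ha
    have hi : ∀ n, ∃ i, f i = a n := fun n => (ha n).1
    choose i hi using hi
    have hs : ∀ n, ∃ (B : Set (Fin (f (i n)).n)) (π : Fin (f (i n)).n → Fin (f (i n)).n)
        (y : Fin (f (i n)).n), CoreD (f (i n)).G (f (i n)).P B π ∧
        GN (f (i n)).G B (f (i n)).x y ∧ (f (i n)).G.Adj (f (i n)).x y ∧
        ∀ z ∈ (f (i n)).P, π z = (f (i n)).x → z = (f (i n)).x := by
      intro n
      obtain ⟨hx, hP, _⟩ := hf (i n)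
      have hPx : Cn (f (i n)).G ((f (i n)).P \ {(f (i n)).x}) := by
        rw [hi n]; exact (ha n).2
      set G := (f (i n)).G
      set P := (f (i n)).P
      set x := (f (i n)).x
      obtain ⟨s, hs, y, hy, hsy⟩ := hP.2 {x} (Set.singleton_subset_iff.2 hx) ⟨x, rfl⟩ hPx.1
      have hsx : s = x := hs
      rw [hsx] at hsy
      obtain ⟨B, π, h1, h2, h3⟩ := core_exists hP hx hy.1 hsy
      refine ⟨B, π, y, h1, h2, hsy, fun z hz hzx => ?_⟩
      by_contra hne
      have hd := h3 z hz (by rw [hzx]; exact fun e => hne e.symm)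
      rw [hzx] at hd
      exact (hd.2 (P \ {x}) Set.diff_subset hPx (fun hh => hh.2 rfl) ⟨hz, hne⟩).2 hy
    choose B π y hC hGN hadj hxx using hs
    -- the labels
    set N : ℕ → LN RG := fun n => ⟨(f (i n)).n, (f (i n)).G, B n, (f (i n)).x, y n, fun b =>
      ⟨(f (i n)).n, (f (i n)).G, {z | z ∈ (f (i n)).P ∧ π n z = b}, b⟩⟩ with hN
    have hlab : ∀ n, ∀ b ∈ B n, b ≠ (f (i n)).x →
        (⟨(f (i n)).n, (f (i n)).G, {z | z ∈ (f (i n)).P ∧ π n z = b}, b⟩ : RG) ∈ 𝒯 := by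
      intro n b hb hbx
      obtain ⟨s1, s2⟩ := (hC n).sep (hGN n).conn hb
      have hxn : (f (i n)).x ∉ {z | z ∈ (f (i n)).P ∧ π n z = b} := by
        rintro ⟨_, h2⟩
        rw [(hC n).fix _ (hGN n).uP] at h2
        exact hbx h2.symm
      apply hmemT (i n) _ b _ s1.w1 ((hC n).fib b hb) (s1.retract s2) (if_neg hxn)
      apply Set.ncard_lt_ncard _ (Set.toFinite _)
      exact ⟨fun z hz => hz.1, fun hsub => hxn (hsub (hf (i n)).1)⟩
    have hNmem : ∀ n, N n ∈ Cores @Φ 𝒯 := fun n =>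
      ⟨hGN n, hadj n, hΦ (hC n).mod (hf (i n)).2.2, fun w hw hwu _ => hlab n w hw hwu⟩
    obtain ⟨m, n, hmn, r1, r2⟩ := good_pair₂ (hcore 𝒯 hT) hT N (fun n => (N n).lab (y n)) hNmem
      (fun n => hlab n (y n) (hGN n).vP (hGN n).ne.symm)
    refine ⟨m, n, hmn, ?_⟩
    rw [← hi m, ← hi n]
    obtain ⟨g, g1, gx, gy, gl⟩ := r1
    obtain ⟨k, k1, k2⟩ := r2
    have : Nonempty (Fin (f (i m)).n) := ⟨(f (i m)).x⟩
    have : Nonempty (Fin (f (i n)).n) := ⟨(f (i n)).x⟩
    obtain ⟨F, hF1, hF2⟩ := (hC m).glue (hC n) g1 (by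
      intro b hb
      by_cases hbx : b = (f (i m)).x
      · refine ⟨(f (i n)).x, (hGN n).uP, gx.trans hbx.symm, fun _ => b, ?_, rfl⟩
        have e1 : {z | z ∈ (f (i m)).P ∧ π m z = b} = {b} := by
          ext z
          constructor
          · rintro ⟨hz, hzb⟩
            have h4 : z = (f (i m)).x := hxx m z hz (hzb.trans hbx)
            exact h4.trans hbx.symm
          · intro hz
            have hz' : z = b := hz
            rw [hz']
            exact ⟨(hC m).sub hb, (hC m).fix b hb⟩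
        rw [e1]
        exact Mod.const _ ((hC n).fib _ (hGN n).uP) (fun _ _ => rfl)
      · by_cases hby : b = y m
        · refine ⟨y n, (hGN n).vP, gy.trans hby.symm, k, ?_, k2.trans hby.symm⟩
          rw [hby]
          exact k1
        · obtain ⟨b', hb', hgb, k', hk1, hk2⟩ := gl b hb hbx hby
          exact ⟨b', hb', hgb, k', hk1, hk2⟩)
    exact ⟨F, hF1, (hF2 _ (hGN n).uP).trans gx⟩
  refine ((single_pwo.union h2).union h3).mono ?_
  rintro _ ⟨i, rfl⟩
  obtain ⟨hx, hP, _⟩ := hf i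
  by_cases hne : ((f i).P \ {(f i).x}).Nonempty
  · by_cases hcn : Cn (f i).G ((f i).P \ {(f i).x})
    · exact Or.inr ⟨⟨i, rfl⟩, hcn⟩
    · left; right
      obtain ⟨z, hz, hzx⟩ := hne
      have hzx' : z ≠ (f i).x := hzx
      have hcc := comp_attach (G := (f i).G) hP hz hx hzx'
      set C := comp (f i).G ((f i).Pᶜ ∪ {(f i).x}) z with hCdef
      have hCP : C ⊆ (f i).P := comp_in.1
      have hxC : (f i).x ∉ C := comp_in.2
      have hzC : z ∈ C := mem_comp_self (notin_of hz hzx')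
      have hex : ∃ z' ∈ (f i).P, z' ≠ (f i).x ∧ z' ∉ C := by
        by_contra hcon
        push Not at hcon
        apply hcn
        have e : (f i).P \ {(f i).x} = C := by
          ext a
          constructor
          · rintro ⟨ha, hax⟩
            exact hcon a ha hax
          · intro ha
            exact ⟨hCP ha, fun e => hxC (e ▸ ha)⟩
        rw [e]
        exact cn_comp (notin_of hz hzx')
      obtain ⟨z', hz', hz'x, hz'C⟩ := hex
      refine ⟨⟨i, rfl⟩, insert (f i).x C, (f i).P \ C, ⟨fun a => ?_, ?_, Or.inl rfl, ⟨hx, hxC⟩, ?_⟩,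
        ?_, ?_⟩
      · constructor
        · intro ha
          by_cases haC : a ∈ C
          · exact Or.inl (Or.inr haC)
          · exact Or.inr ⟨ha, haC⟩
        · rintro ((rfl | ha) | ha)
          · exact hx
          · exact hCP ha
          · exact ha.1
      · rintro a (ha | ha) ha'
        · exact ha
        · exact absurd ha ha'.2
      · rintro a (ha | ha) b hb hab
        · exact Or.inl ha
        · right
          by_contra hbx
          exact hb.2 (comp_closed ha (notin_of hb.1 hbx) hab)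
      · apply Set.ncard_lt_ncard _ (Set.toFinite _)
        refine ⟨?_, fun hsub => ?_⟩
        · rintro a (rfl | ha)
          · exact hx
          · exact hCP ha
        · rcases hsub hz' with h4 | h4
          · exact hz'x h4
          · exact hz'C h4
      · apply Set.ncard_lt_ncard _ (Set.toFinite _)
        exact ⟨Set.diff_subset, fun hsub => (hsub hz).2 hzC⟩
  · left; left
    intro z
    constructor
    · intro hz
      by_contra hzx
      exact hne ⟨z, hz, hzx⟩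
    · rintro rfl
      exact hx

end Pool.Agent.H67.WQ
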