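import Pool.Agent.H67.WQ.Rooted

set_option autoImplicit false

namespace Pool.Agent.H67.WQ

/-- no four pairwise adjacent disjoint connected sets -/
def NoK4 {V : Type} (G : SimpleGraph V) (P : Set V) : Prop :=
  ¬ ∃ B : Fin 4 → Set V, (∀ i, Cn G (B i)) ∧ (∀ i, B i ⊆ P) ∧
    (∀ i j x, x ∈ B i → x ∈ B j → i = j) ∧ ∀ i j, i ≠ j → ∃ x ∈ B i, ∃ y ∈ B j, G.Adj x y

/-- no contraction onto `K_{1,1,p}` -/
def NoL (p : ℕ) {V : Type} (G : SimpleGraph V) (P : Set V) : Prop :=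
  ∀ u ∈ P, ∀ v ∈ P, G.Adj u v → ¬ Leaves G P u v p

theorem closed_sp (p : ℕ) : Closed (fun G P => NoK4 G P ∧ NoL p G P) := by
  rintro V' V G' G P' P f m ⟨h1, h2⟩
  refine ⟨?_, ?_⟩
  · rintro ⟨B, hB1, hB2, hB3, hB4⟩
    apply h1
    refine ⟨fun i => {x | x ∈ P' ∧ f x ∈ B i}, fun i => m.cn_preimage (hB2 i) (hB1 i),
      fun i x hx => hx.1, fun i j x hi hj => hB3 i j (f x) hi.2 hj.2, fun i j hij => ?_⟩
    obtain ⟨x, hx, y, hy, hxy⟩ := hB4 i j hij
    obtain ⟨_, a, ha, b, hb, hax, hby, hab⟩ := (m.adj x (hB2 i hx) y (hB2 j hy)).1 hxy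
    exact ⟨a, ⟨ha, by rw [hax]; exact hx⟩, b, ⟨hb, by rw [hby]; exact hy⟩, hab⟩
  · intro u hu v hv huv hL
    obtain ⟨_, a, ha, b, hb, hau, hbv, hab⟩ := (m.adj u hu v hv).1 huv
    exact h2 a ha b hb hab (hL.of_mod m hau hbv)

theorem rgc_sp (p : ℕ) : (RGC (fun G P => NoK4 G P ∧ NoL p G P)).PartiallyWellOrderedOn
    RG.le := by
  apply rooted_pwo _ (closed_sp p)
  intro 𝓛 h𝓛
  refine (net_pwo h𝓛 p).mono ?_
  rintro N ⟨hGN, hadj, ⟨hK, hL⟩, hlab⟩
  refine ⟨⟨hGN, ?_, hL _ hGN.uP _ hGN.vP hadj⟩, hlab⟩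
  rintro ⟨B, h1, h2, h3, h4⟩
  apply hK
  refine ⟨B, h1, h2, h3, fun i j hij => ?_⟩
  rcases h4 i j hij with h | ⟨ha, hb⟩ | ⟨ha, hb⟩
  · exact h
  · exact ⟨_, ha, _, hb, hadj⟩
  · exact ⟨_, ha, _, hb, hadj.symm⟩

/-- contractions of rooted whole graphs -/
theorem wqo_of_rgc (S : Set FG) (Φ : ∀ {V : Type}, SimpleGraph V → Set V → Prop)
    (h : (RGC @Φ).PartiallyWellOrderedOn RG.le)
    (hS : ∀ A ∈ S, A.G.Connected ∧ Φ A.G Set.univ) : WQO S := by
  intro s hs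
  have hne : ∀ i, Nonempty (Fin (s i).n) := fun i => (hS _ (hs i)).1.nonempty
  choose x hx using fun i => (nonempty_subtype (p := fun _ : Fin (s i).n => True)).1
    ⟨⟨(hne i).some, trivial⟩⟩
  obtain ⟨i, j, hij, f, hf, _⟩ := Set.partiallyWellOrderedOn_iff_exists_lt.1 h
    (fun i => (⟨(s i).n, (s i).G, Set.univ, x i⟩ : RG)) (fun i =>
      ⟨trivial, (connected_iff_cn _).1 (hS _ (hs i)).1, (hS _ (hs i)).2⟩)
  refine ⟨i, j, hij, contractsTo_iff.2 ⟨f, fun w => ?_, fun a b => ?_⟩⟩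
  · have := hf.fib w trivial
    have e : {x | x ∈ (Set.univ : Set (Fin (s j).n)) ∧ f x = w} = {v | f v = w} := by
      ext v
      constructor
      · rintro ⟨_, h⟩
        exact h
      · intro h
        exact ⟨trivial, h⟩
    rw [← e]
    exact this
  · have := hf.adj a trivial b trivial
    change (s i).G.Adj a b ↔ _ at this
    rw [this]
    constructor
    · rintro ⟨hne, x, _, y, _, hx, hy, hxy⟩
      exact ⟨hne, x, y, hx, hy, hxy⟩
    · rintro ⟨hne, x, y, hx, hy, hxy⟩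
      exact ⟨hne, x, trivial, y, trivial, hx, hy, hxy⟩

theorem contr_K4 {V : Type} {G : SimpleGraph V} (hG : G.Connected) (h : ¬ NoK4 G Set.univ) :
    Contr G (coMatch 4 0).G := by
  classical
  unfold NoK4 at h
  push Not at h
  obtain ⟨B, h1, _, h3, h4⟩ := h
  set S : Set V := {x | ∃ i, x ∈ B i} with hS
  have hSne : S.Nonempty := by
    obtain ⟨x, hx⟩ := (h1 0).1
    exact ⟨x, 0, hx⟩
  set β : V → Fin 4 := fun x => if h : ∃ i, x ∈ B i then h.choose else 0 with hβdef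
  have hβ : ∀ i x, x ∈ B i → β x = i := by
    intro i x hx
    have h : ∃ i, x ∈ B i := ⟨i, hx⟩
    simp only [β]
    rw [dif_pos h]
    exact h3 _ _ x h.choose_spec hx
  set κ : Set V → Fin 4 := fun C => if h : ∃ i, ∃ s ∈ B i, ∃ y ∈ C, G.Adj s y then h.choose else 0
    with hκdef
  have hfib : ∀ i, {v | v ∈ S ∧ β v = i} = B i := by
    intro i
    ext v
    constructor
    · rintro ⟨⟨j, hj⟩, hv⟩
      rw [hβ j v hj] at hv
      rw [← hv]; exact hj
    · intro hv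
      exact ⟨⟨i, hv⟩, hβ i v hv⟩
  have hcn : ∀ w, Cn G {v | (if v ∈ S then β v else κ (comp G S v)) = w} := by
    apply cn_fiber
    · intro w
      rw [hfib w]
      exact h1 w
    · intro x hx
      obtain ⟨s, ⟨i, hi⟩, y, hy, hsy⟩ := exists_attach hG hSne hx
      have h : ∃ i, ∃ s ∈ B i, ∃ y ∈ comp G S x, G.Adj s y := ⟨i, s, hi, y, hy, hsy⟩
      obtain ⟨s', hs', y', hy', hsy'⟩ := h.choose_spec
      refine ⟨s', ⟨_, hs'⟩, ?_, y', hy', hsy'⟩
      rw [hβ _ s' hs']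
      simp only [κ]
      rw [dif_pos h]
  refine ⟨_, hcn, fun a b => ?_⟩
  constructor
  · rintro ⟨hne, _⟩
    refine ⟨hne, ?_⟩
    obtain ⟨x, hx, y, hy, hxy⟩ := h4 a b hne
    refine ⟨x, y, ?_, ?_, hxy⟩
    · rw [if_pos ⟨a, hx⟩]; exact hβ a x hx
    · rw [if_pos ⟨b, hy⟩]; exact hβ b y hy
  · rintro ⟨hne, _⟩
    exact ⟨hne, fun hh => absurd hh.2 (by omega)⟩

theorem contr_leaves {p : ℕ} {V : Type} {G : SimpleGraph V} (h : ¬ NoL p G Set.univ) :
    Contr G (starPlus p).G := by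
  classical
  unfold NoL at h
  push Not at h
  obtain ⟨u, _, v, _, huv, g, h1, h2, h3, h4, h5, h6⟩ := h
  set f : V → Fin (p + 2) := fun x => ⟨g x, h3 x trivial⟩ with hf
  have hfg : ∀ (x : V) (w : Fin (p + 2)), f x = w ↔ g x = (w : ℕ) := by
    intro x w
    constructor
    · intro h
      rw [← h]
    · intro h
      exact Fin.ext h
  have hcn : ∀ w : Fin (p + 2), Cn G {v | f v = w} := by
    intro w
    have := h4 (w : ℕ) w.2
    have e : {x | x ∈ (Set.univ : Set V) ∧ g x = (w : ℕ)} = {v | f v = w} := by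
      ext v
      constructor
      · rintro ⟨_, h⟩
        exact (hfg v w).2 h
      · intro h
        exact ⟨trivial, (hfg v w).1 h⟩
    rw [← e]
    exact this
  refine ⟨f, fun w => hcn w, fun a b => ?_⟩
  · have key : ∀ a b : Fin (p + 2), a ≠ b → (a : ℕ) < 2 →
        ∃ x y, f x = a ∧ f y = b ∧ G.Adj x y := by
      intro a b hne ha
      have hne' : (a : ℕ) ≠ b := fun e => hne (Fin.ext e)
      by_cases hb : (b : ℕ) < 2
      · by_cases ha0 : (a : ℕ) = 0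
        · exact ⟨u, v, (hfg _ _).2 (by omega), (hfg _ _).2 (by omega), huv⟩
        · exact ⟨v, u, (hfg _ _).2 (by omega), (hfg _ _).2 (by omega), huv.symm⟩
      · obtain ⟨⟨x, _, y, _, hx, hy, hxy⟩, ⟨x', _, y', _, hx', hy', hxy'⟩⟩ :=
          h6 b (by omega) b.2
        by_cases ha0 : (a : ℕ) = 0
        · exact ⟨x, y, (hfg _ _).2 (by omega), (hfg _ _).2 hy, hxy⟩
        · exact ⟨x', y', (hfg _ _).2 (by omega), (hfg _ _).2 hy', hxy'⟩
    constructor
    · rintro ⟨hne, ha | hb⟩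
      · exact ⟨hne, key a b hne ha⟩
      · obtain ⟨x, y, hx, hy, hxy⟩ := key b a hne.symm hb
        exact ⟨hne, y, x, hy, hx, hxy.symm⟩
    · rintro ⟨hne, x, y, hx, hy, hxy⟩
      refine ⟨hne, ?_⟩
      by_contra hcon
      push Not at hcon
      have hgx := (hfg _ _).1 hx
      have hgy := (hfg _ _).1 hy
      apply hne
      apply Fin.ext
      rw [← hgx, ← hgy]
      exact h5 x trivial y trivial (by omega) (by omega) hxy

/-- The connected graphs with neither `K_{1,1,p}` nor `K_4` as a contraction are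
well-quasi-ordered. -/
theorem wqo_starPlus_K4 (p : ℕ) : WQO (Cl (starPlus p) (coMatch 4 0)) := by
  apply wqo_of_rgc _ _ (rgc_sp p)
  rintro A ⟨hA, hS, hK⟩
  refine ⟨hA, ?_, ?_⟩
  · by_contra hcon
    exact hK (contractsTo_iff.2 (contr_K4 hA hcon))
  · by_contra hcon
    exact hS (contractsTo_iff.2 (contr_leaves hcon))

end Pool.Agent.H67.WQ
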