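import Pool.Agent.H67.WQ.Prime

set_option autoImplicit false

namespace Pool.Agent.H67.WQ

open Set.PartiallyWellOrderedOn in
/-- the minimal bad sequence principle -/
theorem mbs {α : Type} {r : α → α → Prop} (rk : α → ℕ) {S : Set α}
    (h : ∀ f : ℕ → α, (∀ n, f n ∈ S) →
      {x | x ∈ S ∧ ∃ i, rk x < rk (f i) ∧ ∀ y ∈ S, r y x → r y (f i)}.PartiallyWellOrderedOn r →
      (Set.range f).PartiallyWellOrderedOn r) : S.PartiallyWellOrderedOn r := by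
  rw [iff_not_exists_isMinBadSeq rk]
  rintro ⟨f, hf, hmin⟩
  have h1 := h f hf.1 (nash_williams r rk S f hf hmin)
  obtain ⟨m, n, hmn, hr⟩ := Set.partiallyWellOrderedOn_iff_exists_lt.1 h1 f
    (fun n => Set.mem_range_self n)
  exact hf.2 m n hmn hr

theorem LN.le_def {L : Type} {R : L → L → Prop} {N N' : LN L} {f : Fin N'.n → Fin N.n}
    (h1 : Mod N'.G N'.P N.G N.P f) (h2 : f N'.u = N.u) (h3 : f N'.v = N.v)
    (h4 : ∀ w ∈ N.P, w ≠ N.u → w ≠ N.v → ∃ x ∈ N'.P, f x = w ∧ R (N.lab w) (N'.lab x)) :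
    LN.le R N N' := ⟨f, h1, h2, h3, h4⟩

/-- the first side of a series decomposition -/
def LN.fst {L : Type} (N : LN L) (P₁ : Set (Fin N.n)) (w : Fin N.n) : LN L :=
  ⟨N.n, N.G, P₁, N.u, w, N.lab⟩

/-- the second side of a series decomposition -/
def LN.snd {L : Type} (N : LN L) (P₂ : Set (Fin N.n)) (w : Fin N.n) : LN L :=
  ⟨N.n, N.G, P₂, w, N.v, N.lab⟩

/-- a series decomposition -/
structure Split {V : Type} (G : SimpleGraph V) (P : Set V) (u v : V) (P₁ P₂ : Set V)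
    (w : V) : Prop where
  sep : Sep G P P₁ P₂ w
  wu : w ≠ u
  wv : w ≠ v
  u1 : u ∈ P₁
  v2 : v ∈ P₂
  v1 : v ∉ P₁
  u2 : u ∉ P₂
  c1 : Cn G P₁
  c2 : Cn G P₂

theorem Cls.exists_split {V : Type} {G : SimpleGraph V} {P : Set V} {u v : V} {t : ℕ}
    (h : Cls t G P u v) (hns : ¬ NonSep G P u v) : ∃ (w : V) (P₁ P₂ : Set V),
    Split G P u v P₁ P₂ w ∧ Cls t G P₁ u w ∧ Cls t G P₂ w v := by
  obtain ⟨w, P₁, P₂, h1, h2, h3, h4, h5, h6, h7, h8, h9⟩ := h.split hns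
  exact ⟨w, P₁, P₂, ⟨h1, h2, h3, h4, h5, h6, h7, h8.gn.conn, h9.gn.conn⟩, h8, h9⟩

section split
variable {V : Type} {G : SimpleGraph V} {P P₁ P₂ : Set V} {u v w : V}

theorem Split.sub1 (h : Split G P u v P₁ P₂ w) : P₁ ⊆ P := fun x hx => (h.sep.union x).2 (Or.inl hx)

theorem Split.sub2 (h : Split G P u v P₁ P₂ w) : P₂ ⊆ P := fun x hx => (h.sep.union x).2 (Or.inr hx)

theorem Split.card1 [Finite V] (h : Split G P u v P₁ P₂ w) : P₁.ncard < P.ncard := by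
  apply Set.ncard_lt_ncard _ (Set.toFinite P)
  refine ⟨h.sub1, fun hh => h.v1 (hh (h.sub2 h.v2))⟩

theorem Split.card2 [Finite V] (h : Split G P u v P₁ P₂ w) : P₂.ncard < P.ncard := by
  apply Set.ncard_lt_ncard _ (Set.toFinite P)
  refine ⟨h.sub2, fun hh => h.u2 (hh (h.sub1 h.u1))⟩

open Classical in
theorem Split.ret1 (h : Split G P u v P₁ P₂ w) : ∃ ρ : V → V, Mod G P G P₁ ρ ∧ ρ u = u ∧
    ρ v = w ∧ ∀ x ∈ P₁, ρ x = x :=
  ⟨fun x => if x ∈ P₁ then x else w, h.sep.retract h.c2, if_pos h.u1, if_neg h.v1,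
    fun x hx => if_pos hx⟩

open Classical in
theorem Split.ret2 (h : Split G P u v P₁ P₂ w) : ∃ ρ : V → V, Mod G P G P₂ ρ ∧ ρ u = w ∧
    ρ v = v ∧ ∀ x ∈ P₂, ρ x = x :=
  ⟨fun x => if x ∈ P₂ then x else w, h.sep.symm.retract h.c1, if_neg h.u2, if_pos h.v2,
    fun x hx => if_pos hx⟩

end split

section str
variable {L : Type} {R : L → L → Prop}

/-- gluing of two labelled series decompositions -/
theorem Split.glue {V' V : Type} {G' : SimpleGraph V'} {G : SimpleGraph V} {P' P₁' P₂' : Set V'}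
    {P P₁ P₂ : Set V} {u' v' w' : V'} {u v w : V} {lab' : V' → L} {lab : V → L}
    (h : Split G P u v P₁ P₂ w) (h' : Split G' P' u' v' P₁' P₂' w') {f₁ f₂ : V' → V}
    (m1 : Mod G' P₁' G P₁ f₁) (m2 : Mod G' P₂' G P₂ f₂) (hu1 : f₁ u' = u) (hw1 : f₁ w' = w)
    (hw2 : f₂ w' = w) (hv2 : f₂ v' = v)
    (l1 : ∀ z ∈ P₁, z ≠ u → z ≠ w → ∃ x ∈ P₁', f₁ x = z ∧ R (lab z) (lab' x))
    (l2 : ∀ z ∈ P₂, z ≠ w → z ≠ v → ∃ x ∈ P₂', f₂ x = z ∧ R (lab z) (lab' x))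
    (lw : R (lab w) (lab' w')) : ∃ F : V' → V, Mod G' P' G P F ∧ F u' = u ∧ F v' = v ∧
    ∀ z ∈ P, z ≠ u → z ≠ v → ∃ x ∈ P', F x = z ∧ R (lab z) (lab' x) := by
  classical
  have m := h.sep.glue h'.sep m1 m2 hw1 hw2
  set F : V' → V := fun x => if x ∈ P₁' then f₁ x else f₂ x with hF
  have F1 : ∀ x ∈ P₁', F x = f₁ x := fun x hx => by simp only [F]; rw [if_pos hx]
  have F2 : ∀ x, x ∉ P₁' → F x = f₂ x := fun x hx => by simp only [F]; rw [if_neg hx]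
  refine ⟨F, m, by rw [F1 _ h'.u1, hu1], by rw [F2 _ h'.v1, hv2], fun z hz hzu hzv => ?_⟩
  by_cases hzw : z = w
  · exact ⟨w', h'.sub1 h'.sep.w1, by rw [F1 _ h'.sep.w1, hw1, hzw], by rw [hzw]; exact lw⟩
  · rcases (h.sep.union z).1 hz with hz | hz
    · obtain ⟨x, hx, hxz, hr⟩ := l1 z hz hzu hzw
      exact ⟨x, h'.sub1 hx, by rw [F1 x hx, hxz], hr⟩
    · obtain ⟨x, hx, hxz, hr⟩ := l2 z hz hzw hzv
      refine ⟨x, h'.sub2 hx, ?_, hr⟩
      rw [F2 x, hxz]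
      intro hx1
      apply hzw
      rw [← hxz, h'.sep.inter x hx1 hx, hw2]

variable [IsPreorder L R]

theorem str_pwo {𝒬 𝒮 : Set (LN L)} {𝓛 : Set L} (hQ : 𝒬.PartiallyWellOrderedOn (LN.le R))
    (hL : 𝓛.PartiallyWellOrderedOn R)
    (h : ∀ N ∈ 𝒮, N ∈ 𝒬 ∨ ∃ P₁ P₂ w, Split N.G N.P N.u N.v P₁ P₂ w ∧ N.fst P₁ w ∈ 𝒮 ∧
      N.snd P₂ w ∈ 𝒮 ∧ N.lab w ∈ 𝓛) : 𝒮.PartiallyWellOrderedOn (LN.le R) := by
  classical
  apply mbs (fun N : LN L => N.P.ncard)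
  intro f hf hT
  set 𝒯 := {x | x ∈ 𝒮 ∧ ∃ i, (fun N : LN L => N.P.ncard) x < (fun N : LN L => N.P.ncard) (f i) ∧
    ∀ y ∈ 𝒮, LN.le R y x → LN.le R y (f i)} with hTdef
  have hX : {N | N ∈ Set.range f ∧ ∃ P₁ P₂ w, Split N.G N.P N.u N.v P₁ P₂ w ∧
      N.fst P₁ w ∈ 𝒮 ∧ N.snd P₂ w ∈ 𝒮 ∧ N.lab w ∈ 𝓛}.PartiallyWellOrderedOn (LN.le R) := by
    rw [Set.partiallyWellOrderedOn_iff_exists_lt]
    intro a ha
    have hi : ∀ n, ∃ i, f i = a n := fun n => (ha n).1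
    have hs : ∀ n, ∃ P₁ P₂ w, Split (a n).G (a n).P (a n).u (a n).v P₁ P₂ w ∧
        (a n).fst P₁ w ∈ 𝒮 ∧ (a n).snd P₂ w ∈ 𝒮 ∧ (a n).lab w ∈ 𝓛 := fun n => (ha n).2
    choose i hi using hi
    choose P₁ P₂ w hs h1 h2 hl using hs
    have hA : ∀ n, (a n).fst (P₁ n) (w n) ∈ 𝒯 := by
      intro n
      refine ⟨h1 n, i n, ?_, fun y _ hy => ?_⟩
      · change (P₁ n).ncard < (f (i n)).P.ncard
        rw [hi n]
        exact (hs n).card1
      · rw [hi n]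
        refine trans_of (LN.le R) hy ?_
        obtain ⟨ρ, h1, h2, h3, h4⟩ := (hs n).ret1
        exact ⟨ρ, h1, h2, h3, fun z hz _ _ => ⟨z, (hs n).sub1 hz, h4 z hz, refl_of R _⟩⟩
    have hB : ∀ n, (a n).snd (P₂ n) (w n) ∈ 𝒯 := by
      intro n
      refine ⟨h2 n, i n, ?_, fun y _ hy => ?_⟩
      · change (P₂ n).ncard < (f (i n)).P.ncard
        rw [hi n]
        exact (hs n).card2
      · rw [hi n]
        refine trans_of (LN.le R) hy ?_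
        obtain ⟨ρ, h1, h2, h3, h4⟩ := (hs n).ret2
        exact ⟨ρ, h1, h2, h3, fun z hz _ _ => ⟨z, (hs n).sub2 hz, h4 z hz, refl_of R _⟩⟩
    obtain ⟨m, n, hmn, r1, r2, r3⟩ := good_pair₃ hT hT hL (fun n => (a n).fst (P₁ n) (w n))
      (fun n => (a n).snd (P₂ n) (w n)) (fun n => (a n).lab (w n)) hA hB hl
    refine ⟨m, n, hmn, ?_⟩
    obtain ⟨f₁, m1, hu1, hv1, hl1⟩ := r1
    obtain ⟨f₂, m2, hu2, hv2, hl2⟩ := r2
    obtain ⟨F, hF⟩ := (hs m).glue (hs n) m1 m2 hu1 hv1 hu2 hv2 hl1 hl2 r3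
    exact ⟨F, hF⟩
  refine (hQ.union hX).mono ?_
  rintro _ ⟨n, rfl⟩
  rcases h (f n) (hf n) with h1 | h1
  · exact Or.inl h1
  · exact Or.inr ⟨⟨n, rfl⟩, h1⟩

/-! ### Networks of bounded type -/

/-- networks of the class with interior labels from `𝓛` -/
def NetC (t : ℕ) (𝓛 : Set L) : Set (LN L) :=
  {N | Cls t N.G N.P N.u N.v ∧ ∀ w ∈ N.P, w ≠ N.u → w ≠ N.v → N.lab w ∈ 𝓛}

theorem NetC.exists_split {t : ℕ} {𝓛 : Set L} {N : LN L} (h : N ∈ NetC t 𝓛)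
    (hns : ¬ NonSep N.G N.P N.u N.v) : ∃ P₁ P₂ w, Split N.G N.P N.u N.v P₁ P₂ w ∧
    N.fst P₁ w ∈ NetC t 𝓛 ∧ N.snd P₂ w ∈ NetC t 𝓛 ∧ N.lab w ∈ 𝓛 := by
  obtain ⟨w, P₁, P₂, hs, h1, h2⟩ := h.1.exists_split hns
  have hw : w ∈ N.P := hs.sub1 hs.sep.w1
  refine ⟨P₁, P₂, w, hs, ⟨h1, fun z hz hzu hzw => ?_⟩, ⟨h2, fun z hz hzw hzv => ?_⟩,
    h.2 w hw hs.wu hs.wv⟩
  · exact h.2 z (hs.sub1 hz) hzu (fun e => hs.v1 (e ▸ hz))
  · exact h.2 z (hs.sub2 hz) (fun e => hs.u2 (e ▸ hz)) hzv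

theorem cn_pair {V : Type} {G : SimpleGraph V} {P : Set V} {u v : V} (hP : Cn G P)
    (h : ∀ x, x ∈ P ↔ x = u ∨ x = v) (hne : u ≠ v) : G.Adj u v := by
  obtain ⟨a, ha, b, hb, hab⟩ := hP.2 {u} (by
    intro x hx
    exact (h x).2 (Or.inl hx)) ⟨u, rfl⟩ ⟨v, (h v).2 (Or.inr rfl), fun e => hne e.symm⟩
  have ha' : a = u := ha
  have hb' : b = v := by
    rcases (h b).1 hb.1 with e | e
    · exact absurd e hb.2
    · exact e
  rw [← ha', ← hb']; exact hab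

omit [IsPreorder L R] in
theorem edge_pwo : {N : LN L | (∀ x, x ∈ N.P ↔ x = N.u ∨ x = N.v) ∧
    GN N.G N.P N.u N.v}.PartiallyWellOrderedOn (LN.le R) := by
  classical
  rw [Set.partiallyWellOrderedOn_iff_exists_lt]
  intro a ha
  refine ⟨0, 1, by omega, ?_⟩
  obtain ⟨h0, g0⟩ := ha 0
  obtain ⟨h1, g1⟩ := ha 1
  have e0 := cn_pair g0.conn h0 g0.ne
  have e1 := cn_pair g1.conn h1 g1.ne
  set F : Fin (a 1).n → Fin (a 0).n := fun x => if x = (a 1).u then (a 0).u else (a 0).v with hF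
  have Fu : F (a 1).u = (a 0).u := if_pos rfl
  have Fv : F (a 1).v = (a 0).v := if_neg g1.ne.symm
  refine ⟨F, ⟨fun x hx => ?_, fun z hz => ?_, fun x hx y hy => ?_⟩, Fu, Fv, fun z hz hzu hzv => ?_⟩
  · rcases (h1 x).1 hx with rfl | rfl
    · rw [Fu]; exact g0.uP
    · rw [Fv]; exact g0.vP
  · rcases (h0 z).1 hz with rfl | rfl
    · have : {x | x ∈ (a 1).P ∧ F x = (a 0).u} = {(a 1).u} := by
        ext x
        constructor
        · rintro ⟨hx, hxF⟩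
          rcases (h1 x).1 hx with rfl | rfl
          · rfl
          · rw [Fv] at hxF
            exact absurd hxF.symm g0.ne
        · intro hx
          have hx' : x = (a 1).u := hx
          rw [hx']; exact ⟨g1.uP, Fu⟩
      rw [this]; exact cn_singleton _ _
    · have : {x | x ∈ (a 1).P ∧ F x = (a 0).v} = {(a 1).v} := by
        ext x
        constructor
        · rintro ⟨hx, hxF⟩
          rcases (h1 x).1 hx with rfl | rfl
          · rw [Fu] at hxF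
            exact absurd hxF g0.ne
          · rfl
        · intro hx
          have hx' : x = (a 1).v := hx
          rw [hx']; exact ⟨g1.vP, Fv⟩
      rw [this]; exact cn_singleton _ _
  · constructor
    · intro hxy
      refine ⟨hxy.ne, ?_⟩
      rcases (h0 x).1 hx with rfl | rfl <;> rcases (h0 y).1 hy with rfl | rfl
      · exact absurd hxy ((a 0).G.loopless.irrefl _)
      · exact ⟨_, g1.uP, _, g1.vP, Fu, Fv, e1⟩
      · exact ⟨_, g1.vP, _, g1.uP, Fv, Fu, e1.symm⟩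
      · exact absurd hxy ((a 0).G.loopless.irrefl _)
    · rintro ⟨hne, _⟩
      rcases (h0 x).1 hx with rfl | rfl <;> rcases (h0 y).1 hy with rfl | rfl
      · exact absurd rfl hne
      · exact e0
      · exact e0.symm
      · exact absurd rfl hne
  · rcases (h0 z).1 hz with e | e
    · exact absurd e hzu
    · exact absurd e hzv

omit [IsPreorder L R] in
theorem Par.lglue {V' V : Type} {G' : SimpleGraph V'} {G : SimpleGraph V} {P' P₁' P₂' : Set V'}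
    {P P₁ P₂ : Set V} {u' v' : V'} {u v : V} {lab' : V' → L} {lab : V → L}
    (h : Par G P P₁ P₂ u v) (h' : Par G' P' P₁' P₂' u' v') {f₁ f₂ : V' → V}
    (m1 : Mod (del G' u' v') P₁' (del G u v) P₁ f₁) (m2 : Mod G' P₂' G P₂ f₂)
    (hu1 : f₁ u' = u) (hv1 : f₁ v' = v) (hu2 : f₂ u' = u) (hv2 : f₂ v' = v)
    (l1 : ∀ z ∈ P₁, z ≠ u → z ≠ v → ∃ x ∈ P₁', f₁ x = z ∧ R (lab z) (lab' x))
    (l2 : ∀ z ∈ P₂, z ≠ u → z ≠ v → ∃ x ∈ P₂', f₂ x = z ∧ R (lab z) (lab' x)) :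
    ∃ F : V' → V, Mod G' P' G P F ∧ F u' = u ∧ F v' = v ∧
    ∀ z ∈ P, z ≠ u → z ≠ v → ∃ x ∈ P', F x = z ∧ R (lab z) (lab' x) := by
  classical
  have m := h.glue h' m1 m2 hu1 hv1 hu2 hv2
  set F : V' → V := fun x => if x ∈ P₁' then f₁ x else f₂ x with hF
  have F1 : ∀ x ∈ P₁', F x = f₁ x := fun x hx => by simp only [F]; rw [if_pos hx]
  have F2 : ∀ x, x ∉ P₁' → F x = f₂ x := fun x hx => by simp only [F]; rw [if_neg hx]
  refine ⟨F, m, by rw [F1 _ h'.u1, hu1], by rw [F1 _ h'.v1, hv1], fun z hz hzu hzv => ?_⟩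
  rcases (h.union z).1 hz with hz | hz
  · obtain ⟨x, hx, hxz, hr⟩ := l1 z hz hzu hzv
    exact ⟨x, (h'.union x).2 (Or.inl hx), by rw [F1 x hx, hxz], hr⟩
  · obtain ⟨x, hx, hxz, hr⟩ := l2 z hz hzu hzv
    refine ⟨x, (h'.union x).2 (Or.inr hx), ?_, hr⟩
    rw [F2 x, hxz]
    intro hx1
    rcases h'.inter x hx1 hx with e | e
    · apply hzu
      rw [← hxz, e, hu2]
    · apply hzv
      rw [← hxz, e, hv2]

theorem par_pwo {t : ℕ} {𝓛 : Set L} (ih : (NetC t 𝓛).PartiallyWellOrderedOn (LN.le R)) :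
    {N : LN L | N ∈ NetC (t + 1) 𝓛 ∧ ∃ P₁ P₂, Par N.G N.P P₁ P₂ N.u N.v ∧
      Cls t (del N.G N.u N.v) P₁ N.u N.v ∧ Cls t N.G P₂ N.u N.v}.PartiallyWellOrderedOn
      (LN.le R) := by
  classical
  rw [Set.partiallyWellOrderedOn_iff_exists_lt]
  intro a ha
  have hlab : ∀ n, ∀ w ∈ (a n).P, w ≠ (a n).u → w ≠ (a n).v → (a n).lab w ∈ 𝓛 :=
    fun n => (ha n).1.2
  have hs : ∀ n, ∃ P₁ P₂, Par (a n).G (a n).P P₁ P₂ (a n).u (a n).v ∧
      Cls t (del (a n).G (a n).u (a n).v) P₁ (a n).u (a n).v ∧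
      Cls t (a n).G P₂ (a n).u (a n).v := fun n => (ha n).2
  choose P₁ P₂ hp h1 h2 using hs
  obtain ⟨m, n, hmn, r1, r2⟩ := good_pair₂ ih ih
    (fun n => (⟨(a n).n, del (a n).G (a n).u (a n).v, P₁ n, (a n).u, (a n).v, (a n).lab⟩ : LN L))
    (fun n => (⟨(a n).n, (a n).G, P₂ n, (a n).u, (a n).v, (a n).lab⟩ : LN L))
    (fun n => ⟨h1 n, fun w hw => hlab n w (((hp n).union w).2 (Or.inl hw))⟩)
    (fun n => ⟨h2 n, fun w hw => hlab n w (((hp n).union w).2 (Or.inr hw))⟩)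
  refine ⟨m, n, hmn, ?_⟩
  obtain ⟨f₁, m1, hu1, hv1, hl1⟩ := r1
  obtain ⟨f₂, m2, hu2, hv2, hl2⟩ := r2
  obtain ⟨F, hF⟩ := (hp m).lglue (hp n) m1 m2 hu1 hv1 hu2 hv2 hl1 hl2
  exact ⟨F, hF⟩

/-- networks consisting of the edge between the terminals and a series network -/
def Tri (t : ℕ) (𝓛 : Set L) : Set (LN L) :=
  {N | N ∈ NetC (t + 1) 𝓛 ∧ N.G.Adj N.u N.v ∧ Cls (t + 1) (del N.G N.u N.v) N.P N.u N.v ∧
    ¬ NonSep (del N.G N.u N.v) N.P N.u N.v}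

theorem tri_pwo {t : ℕ} {𝓛 : Set L} (hL : 𝓛.PartiallyWellOrderedOn R)
    (ih : (NetC t 𝓛).PartiallyWellOrderedOn (LN.le R)) :
    (Tri t 𝓛).PartiallyWellOrderedOn (LN.le R) := by
  classical
  apply mbs (fun N : LN L => N.P.ncard)
  intro f hf hT
  set 𝒮' : Set (LN L) := {M | M ∈ NetC (t + 1) 𝓛 ∧ ∃ i, M.P.ncard < (f i).P.ncard ∧
    ∀ Y : LN L, Y.G.Adj Y.u Y.v → LN.le R Y M → LN.le R Y (f i)} with hS'
  have hS : 𝒮'.PartiallyWellOrderedOn (LN.le R) := by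
    apply str_pwo ((edge_pwo (L := L) (R := R)).union ((par_pwo ih).union hT)) hL
    rintro N ⟨hN, i, hi, hY⟩
    by_cases hns : NonSep N.G N.P N.u N.v
    · left
      rcases hN.1.prime_cases hns with h1 | h1 | h1
      · exact Or.inl ⟨h1, hN.1.gn⟩
      · exact Or.inr (Or.inl ⟨hN, h1⟩)
      · exact Or.inr (Or.inr ⟨⟨hN, h1⟩, i, hi, fun Y hYT => hY Y hYT.2.1⟩)
    · right
      obtain ⟨P₁, P₂, w, hs, h1, h2, h3⟩ := NetC.exists_split hN hns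
      refine ⟨P₁, P₂, w, hs, ⟨h1, i, lt_trans hs.card1 hi, fun Y hYadj hYle => hY Y hYadj ?_⟩,
        ⟨h2, i, lt_trans hs.card2 hi, fun Y hYadj hYle => hY Y hYadj ?_⟩, h3⟩
      · refine trans_of (LN.le R) hYle ?_
        obtain ⟨ρ, h1, h2, h3, h4⟩ := hs.ret1
        exact ⟨ρ, h1, h2, h3, fun z hz _ _ => ⟨z, hs.sub1 hz, h4 z hz, refl_of R _⟩⟩
      · refine trans_of (LN.le R) hYle ?_
        obtain ⟨ρ, h1, h2, h3, h4⟩ := hs.ret2
        exact ⟨ρ, h1, h2, h3, fun z hz _ _ => ⟨z, hs.sub2 hz, h4 z hz, refl_of R _⟩⟩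
  -- the pieces of the elements of the sequence
  have hs : ∀ n, ∃ P₁ P₂ w, Split (del (f n).G (f n).u (f n).v) (f n).P (f n).u (f n).v P₁ P₂ w ∧
      (⟨(f n).n, del (f n).G (f n).u (f n).v, P₁, (f n).u, w, (f n).lab⟩ : LN L) ∈ 𝒮' ∧
      (⟨(f n).n, del (f n).G (f n).u (f n).v, P₂, w, (f n).v, (f n).lab⟩ : LN L) ∈ 𝒮' ∧
      (f n).lab w ∈ 𝓛 := by
    intro n
    obtain ⟨hN, hadj, hcls, hns⟩ := hf n
    set N' : LN L := ⟨(f n).n, del (f n).G (f n).u (f n).v, (f n).P, (f n).u, (f n).v,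
      (f n).lab⟩ with hN'
    have hNC : N' ∈ NetC (t + 1) 𝓛 := ⟨hcls, hN.2⟩
    obtain ⟨P₁, P₂, w, hs, h1, h2, h3⟩ := NetC.exists_split hNC hns
    refine ⟨P₁, P₂, w, hs, ⟨h1, n, hs.card1, fun Y hY hYle => ?_⟩,
      ⟨h2, n, hs.card2, fun Y hY hYle => ?_⟩, h3⟩
    · obtain ⟨g, g1, g2, g3, g4⟩ := hYle
      obtain ⟨ρ, r1, r2, r3, r4⟩ := hs.ret1
      have gu : (g ∘ ρ) (f n).u = Y.u := by
        change g (ρ (f n).u) = Y.u
        have : ρ (f n).u = (f n).u := r2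
        rw [this]; exact g2
      have gv : (g ∘ ρ) (f n).v = Y.v := by
        change g (ρ (f n).v) = Y.v
        have : ρ (f n).v = w := r3
        rw [this]; exact g3
      refine ⟨g ∘ ρ, Mod.add_edge (r1.comp g1) ?_, gu, gv, fun z hz hzu hzv => ?_⟩
      · rw [gu, gv]; exact hY
      · obtain ⟨x, hx, hxz, hr⟩ := g4 z hz hzu hzv
        refine ⟨x, hs.sub1 hx, ?_, hr⟩
        change g (ρ x) = z
        rw [r4 x hx]; exact hxz
    · obtain ⟨g, g1, g2, g3, g4⟩ := hYle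
      obtain ⟨ρ, r1, r2, r3, r4⟩ := hs.ret2
      have gu : (g ∘ ρ) (f n).u = Y.u := by
        change g (ρ (f n).u) = Y.u
        have : ρ (f n).u = w := r2
        rw [this]; exact g2
      have gv : (g ∘ ρ) (f n).v = Y.v := by
        change g (ρ (f n).v) = Y.v
        have : ρ (f n).v = (f n).v := r3
        rw [this]; exact g3
      refine ⟨g ∘ ρ, Mod.add_edge (r1.comp g1) ?_, gu, gv, fun z hz hzu hzv => ?_⟩
      · rw [gu, gv]; exact hY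
      · obtain ⟨x, hx, hxz, hr⟩ := g4 z hz hzu hzv
        refine ⟨x, hs.sub2 hx, ?_, hr⟩
        change g (ρ x) = z
        rw [r4 x hx]; exact hxz
  choose P₁ P₂ w hs h1 h2 hl using hs
  rw [Set.partiallyWellOrderedOn_iff_exists_lt]
  intro a ha
  choose i hi using ha
  obtain ⟨m, n, hmn, r1, r2, r3⟩ := good_pair₃ hS hS hL
    (fun n => (⟨(f (i n)).n, del (f (i n)).G (f (i n)).u (f (i n)).v, P₁ (i n), (f (i n)).u,
      w (i n), (f (i n)).lab⟩ : LN L))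
    (fun n => (⟨(f (i n)).n, del (f (i n)).G (f (i n)).u (f (i n)).v, P₂ (i n), w (i n),
      (f (i n)).v, (f (i n)).lab⟩ : LN L))
    (fun n => (f (i n)).lab (w (i n))) (fun n => h1 _) (fun n => h2 _) (fun n => hl _)
  refine ⟨m, n, hmn, ?_⟩
  rw [← hi m, ← hi n]
  obtain ⟨f₁, m1, hu1, hv1, hl1⟩ := r1
  obtain ⟨f₂, m2, hu2, hv2, hl2⟩ := r2
  obtain ⟨F, hF1, hF2, hF3, hF4⟩ := (hs (i m)).glue (hs (i n)) m1 m2 hu1 hv1 hu2 hv2 hl1 hl2 r3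
  exact ⟨F, Mod.add_edge₂ hF1 hF2 hF3 (hf (i n)).2.1 (hf (i m)).2.1 (hf (i n)).1.1.gn.uP
    (hf (i n)).1.1.gn.vP, hF2, hF3, hF4⟩

/-- Networks of bounded type with labels from a well-quasi-ordered set are well-quasi-ordered. -/
theorem net_pwo {𝓛 : Set L} (hL : 𝓛.PartiallyWellOrderedOn R) (t : ℕ) :
    (NetC t 𝓛).PartiallyWellOrderedOn (LN.le R) := by
  induction t with
  | zero =>
    rw [Set.partiallyWellOrderedOn_iff_exists_lt]
    intro a ha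
    exact absurd (ha 0).1.gn.leaves_zero (ha 0).1.nl
  | succ t ih =>
    apply str_pwo ((edge_pwo (L := L) (R := R)).union ((par_pwo ih).union (tri_pwo hL ih))) hL
    intro N hN
    by_cases hns : NonSep N.G N.P N.u N.v
    · left
      rcases hN.1.prime_cases hns with h1 | h1 | h1
      · exact Or.inl ⟨h1, hN.1.gn⟩
      · exact Or.inr (Or.inl ⟨hN, h1⟩)
      · exact Or.inr (Or.inr ⟨hN, h1⟩)
    · right
      exact NetC.exists_split hN hns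

end str

end Pool.Agent.H67.WQ
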