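import Pool.Agent.H67.WQ.Nec

set_option autoImplicit false

namespace Pool.Agent.H67.WQ

/-- vertices of the strip: `(i, t)` with position `i ≤ k + 1` and type `t ≤ 2`; the type `2` occurs
only at the two ends -/
abbrev SV (k : ℕ) : Type :=
  {x : Fin (k + 2) × Fin 3 // (x.2 : ℕ) = 2 → (x.1 : ℕ) = 0 ∨ (x.1 : ℕ) = k + 1}

/-- position -/
def pos {k : ℕ} (x : SV k) : ℕ := x.1.1

/-- type -/
def ty {k : ℕ} (x : SV k) : ℕ := x.1.2

theorem sv_ext {k : ℕ} {x y : SV k} (h1 : pos x = pos y) (h2 : ty x = ty y) : x = y := by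
  apply Subtype.ext
  apply Prod.ext
  · exact Fin.ext h1
  · exact Fin.ext h2

theorem pos_le {k : ℕ} (x : SV k) : pos x ≤ k + 1 := by
  have := x.1.1.2
  unfold pos
  omega

theorem ty_lt {k : ℕ} (x : SV k) : ty x < 3 := x.1.2.2

theorem ty_lt_two {k : ℕ} (x : SV k) (h1 : 1 ≤ pos x) (h2 : pos x ≤ k) : ty x < 2 := by
  have h3 := ty_lt x
  have h4 := x.2
  have h5 : ty x = 2 → pos x = 0 ∨ pos x = k + 1 := h4
  omega

/-- constructor -/
def sv (k i t : ℕ) (h : i < k + 2 ∧ t < 3 ∧ (t = 2 → i = 0 ∨ i = k + 1)) : SV k :=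
  ⟨(⟨i, h.1⟩, ⟨t, h.2.1⟩), h.2.2⟩

@[simp] theorem pos_sv {k i t : ℕ} (h : i < k + 2 ∧ t < 3 ∧ (t = 2 → i = 0 ∨ i = k + 1)) :
    pos (sv k i t h) = i := rfl

@[simp] theorem ty_sv {k i t : ℕ} (h : i < k + 2 ∧ t < 3 ∧ (t = 2 → i = 0 ∨ i = k + 1)) :
    ty (sv k i t h) = t := rfl

/-- The strip: `k` levels of two nonadjacent vertices, consecutive levels completely joined,
a vertex attached to both vertices of the first level, one attached to both vertices of the last
level, and a pendant vertex attached to each of the four vertices of the first and last level. -/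
def strip (k : ℕ) : SimpleGraph (SV k) where
  Adj x y := (pos x + 1 = pos y ∨ pos y + 1 = pos x) ∧
    (ty x = 2 ∨ ty y = 2 ∨ ty x = ty y ∨ (1 ≤ pos x ∧ 1 ≤ pos y ∧ pos x ≤ k ∧ pos y ≤ k))
  symm := ⟨by
    rintro x y ⟨h1, h2⟩
    refine ⟨h1.symm, ?_⟩
    rcases h2 with h2 | h2 | h2 | h2
    · exact Or.inr (Or.inl h2)
    · exact Or.inl h2
    · exact Or.inr (Or.inr (Or.inl h2.symm))
    · exact Or.inr (Or.inr (Or.inr ⟨h2.2.1, h2.1, h2.2.2.2, h2.2.2.1⟩))⟩
  loopless := ⟨by
    rintro x ⟨h, _⟩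
    omega⟩

theorem strip_adj {k : ℕ} {x y : SV k} : (strip k).Adj x y ↔
    (pos x + 1 = pos y ∨ pos y + 1 = pos x) ∧
    (ty x = 2 ∨ ty y = 2 ∨ ty x = ty y ∨ (1 ≤ pos x ∧ 1 ≤ pos y ∧ pos x ≤ k ∧ pos y ≤ k)) :=
  Iff.rfl

/-- core vertices -/
def Core {k : ℕ} (x : SV k) : Prop := ty x = 2 ∨ (1 ≤ pos x ∧ pos x ≤ k)

theorem core_adj {k : ℕ} {x y : SV k} (hx : Core x) (hy : Core y)
    (h : pos x + 1 = pos y ∨ pos y + 1 = pos x) : (strip k).Adj x y := by
  rw [strip_adj]
  refine ⟨h, ?_⟩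
  rcases hx with hx | hx
  · exact Or.inl hx
  rcases hy with hy | hy
  · exact Or.inr (Or.inl hy)
  exact Or.inr (Or.inr (Or.inr ⟨hx.1, hy.1, hx.2, hy.2⟩))

/-- a core vertex at each position -/
theorem exists_core {k : ℕ} (i : ℕ) (hi : i ≤ k + 1) : ∃ x : SV k, pos x = i ∧ Core x := by
  by_cases h : 1 ≤ i ∧ i ≤ k
  · exact ⟨sv k i 0 ⟨by omega, by omega, by omega⟩, rfl, Or.inr h⟩
  · exact ⟨sv k i 2 ⟨by omega, by omega, by omega⟩, rfl, Or.inl rfl⟩

theorem strip_connected {k : ℕ} (hk : 1 ≤ k) : (strip k).Connected := by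
  have h0 : Core (sv k 0 2 ⟨by omega, by omega, by omega⟩) := Or.inl rfl
  have key : ∀ (i : ℕ) (x : SV k), pos x = i → Core x →
      (strip k).Reachable (sv k 0 2 ⟨by omega, by omega, by omega⟩) x := by
    intro i
    induction i with
    | zero =>
      intro x hx hc
      have : x = sv k 0 2 ⟨by omega, by omega, by omega⟩ := by
        apply sv_ext hx
        rcases hc with hc | hc
        · exact hc
        · omega
      rw [this]
    | succ i ih =>
      intro x hx hc
      obtain ⟨y, hy, hyc⟩ := exists_core (k := k) i (by have := pos_le x; omega)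
      have hadj : (strip k).Adj y x := core_adj hyc hc (by omega)
      exact (ih y hy hyc).trans hadj.reachable
  have hall : ∀ x, (strip k).Reachable (sv k 0 2 ⟨by omega, by omega, by omega⟩) x := by
    intro x
    by_cases hc : Core x
    · exact key _ x rfl hc
    · have h1 := pos_le x
      have h2 := ty_lt x
      have h3 : ¬ (ty x = 2 ∨ (1 ≤ pos x ∧ pos x ≤ k)) := hc
      by_cases hx : pos x = 0
      · have hadj : (strip k).Adj (sv k 1 (ty x) ⟨by omega, by omega, by omega⟩) x := by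
          rw [strip_adj]
          refine ⟨Or.inr ?_, Or.inr (Or.inr (Or.inl rfl))⟩
          rw [hx, pos_sv]
        exact (key 1 _ rfl (Or.inr ⟨by simp, by simpa using hk⟩)).trans hadj.reachable
      · have hadj : (strip k).Adj (sv k k (ty x) ⟨by omega, by omega, by omega⟩) x := by
          rw [strip_adj]
          refine ⟨Or.inl ?_, Or.inr (Or.inr (Or.inl rfl))⟩
          rw [pos_sv]
          omega
        exact (key k _ rfl (Or.inr ⟨by simpa using hk, by simp⟩)).trans hadj.reachable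
  have : Nonempty (SV k) := ⟨sv k 0 2 ⟨by omega, by omega, by omega⟩⟩
  exact ⟨fun x y => (hall x).symm.trans (hall y)⟩

/-- the reflection -/
def srefl {k : ℕ} (x : SV k) : SV k :=
  sv k (k + 1 - pos x) (ty x) ⟨by omega, ty_lt x, by
    have h4 : ty x = 2 → pos x = 0 ∨ pos x = k + 1 := x.2
    omega⟩

@[simp] theorem pos_srefl {k : ℕ} (x : SV k) : pos (srefl x) = k + 1 - pos x := rfl

@[simp] theorem ty_srefl {k : ℕ} (x : SV k) : ty (srefl x) = ty x := rfl

theorem srefl_srefl {k : ℕ} (x : SV k) : srefl (srefl x) = x := by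
  have := pos_le x
  apply sv_ext
  · simp only [pos_srefl]; omega
  · simp

/-- the reflection as an automorphism -/
def srefl_iso (k : ℕ) : strip k ≃g strip k where
  toFun := srefl
  invFun := srefl
  left_inv := srefl_srefl
  right_inv := srefl_srefl
  map_rel_iff' := by
    intro x y
    change (strip k).Adj (srefl x) (srefl y) ↔ (strip k).Adj x y
    have h1 := pos_le x
    have h2 := pos_le y
    rw [strip_adj, strip_adj]
    simp only [pos_srefl, ty_srefl]
    omega

section model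

variable {k : ℕ} {W : Type} {H : SimpleGraph W} {f : SV k → W}

/-- the fibre meets the position `j` -/
def Mt (f : SV k → W) (j : ℕ) (w : W) : Prop := ∃ x, f x = w ∧ pos x = j

/-- the fibre lies to the left of the position `j` -/
def Lf (f : SV k → W) (j : ℕ) (w : W) : Prop := ∀ x, f x = w → pos x < j

/-- the fibre lies to the right of the position `j` -/
def Rt (f : SV k → W) (j : ℕ) (w : W) : Prop := ∀ x, f x = w → j < pos x

theorem tri (hf : IsModel (strip k) H f) (j : ℕ) (w : W) (h : ¬ Mt f j w) :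
    Lf f j w ∨ Rt f j w := by
  by_contra hcon
  push Not at hcon
  obtain ⟨h1, h2⟩ := hcon
  simp only [Lf, Rt, not_forall, not_lt] at h1 h2
  obtain ⟨x, hx, hxj⟩ := h1
  obtain ⟨y, hy, hyj⟩ := h2
  have hne : ∀ z, f z = w → pos z ≠ j := fun z hz e => h ⟨z, hz, e⟩
  obtain ⟨a, ha, b, hb, hab⟩ := (hf.1 w).2 {z | f z = w ∧ pos z < j} (fun z hz => hz.1)
    ⟨y, hy, lt_of_le_of_ne hyj (hne y hy)⟩ ⟨x, hx, fun hh => absurd hh.2 (by omega)⟩
  have h3 : pos a < j := ha.2
  have h4 : ¬ pos b < j := fun h5 => hb.2 ⟨hb.1, h5⟩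
  have h5 := hne b hb.1
  have h6 := (strip_adj.1 hab).1
  omega

theorem lf_rt (hf : IsModel (strip k) H f) {j j' : ℕ} {w : W} (h : Rt f j w) (h' : Lf f j' w) :
    j + 1 < j' := by
  obtain ⟨x, hx⟩ := hf.surj w
  have h1 := h x hx
  have h2 := h' x hx
  omega

theorem lf_adj (hf : IsModel (strip k) H f) {j : ℕ} {w w' : W} (h : H.Adj w w')
    (h1 : Lf f j w) (h2 : ¬ Mt f j w') : Lf f j w' := by
  rcases tri hf j w' h2 with h3 | h3
  · exact h3
  · exfalso
    obtain ⟨_, x, y, hx, hy, hxy⟩ := (hf.2 _ _).1 h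
    have h4 := h1 x hx
    have h5 := h3 y hy
    have h6 := (strip_adj.1 hxy).1
    omega

theorem rt_adj (hf : IsModel (strip k) H f) {j : ℕ} {w w' : W} (h : H.Adj w w')
    (h1 : Rt f j w) (h2 : ¬ Mt f j w') : Rt f j w' := by
  rcases tri hf j w' h2 with h3 | h3
  · exfalso
    obtain ⟨_, x, y, hx, hy, hxy⟩ := (hf.2 _ _).1 h
    have h4 := h1 x hx
    have h5 := h3 y hy
    have h6 := (strip_adj.1 hxy).1
    omega
  · exact h3

theorem mt_two {j : ℕ} (hj : 1 ≤ j ∧ j ≤ k) {p q r : W} (hp : Mt f j p) (hq : Mt f j q)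
    (hr : Mt f j r) : p = q ∨ p = r ∨ q = r := by
  obtain ⟨x, rfl, hx⟩ := hp
  obtain ⟨y, rfl, hy⟩ := hq
  obtain ⟨z, rfl, hz⟩ := hr
  have h1 := ty_lt_two x (by omega) (by omega)
  have h2 := ty_lt_two y (by omega) (by omega)
  have h3 := ty_lt_two z (by omega) (by omega)
  by_cases e1 : ty x = ty y
  · left; rw [sv_ext (hx.trans hy.symm) e1]
  by_cases e2 : ty x = ty z
  · right; left; rw [sv_ext (hx.trans hz.symm) e2]
  right; right
  rw [sv_ext (x := y) (y := z) (hy.trans hz.symm) (by omega)]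

theorem mt_four {j : ℕ} (hj : 1 ≤ j ∧ j < k) (g : Fin 5 → W) (hg : Function.Injective g)
    (h : ∀ i, Mt f j (g i) ∨ Mt f (j + 1) (g i)) : False := by
  have h' : ∀ i, ∃ x : SV k, f x = g i ∧ (pos x = j ∨ pos x = j + 1) := by
    intro i
    rcases h i with ⟨x, hx, hx'⟩ | ⟨x, hx, hx'⟩
    · exact ⟨x, hx, Or.inl hx'⟩
    · exact ⟨x, hx, Or.inr hx'⟩
  choose x hx hx' using h'
  have hlt : ∀ i, (pos (x i) - j) * 2 + ty (x i) < 4 := by
    intro i
    have h1 := ty_lt_two (x i) (by rcases hx' i with h | h <;> omega)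
      (by rcases hx' i with h | h <;> omega)
    rcases hx' i with h | h <;> omega
  obtain ⟨a, b, hab, heq⟩ := Fintype.exists_ne_map_eq_of_card_lt
    (fun i : Fin 5 => (⟨(pos (x i) - j) * 2 + ty (x i), hlt i⟩ : Fin 4)) (by simp)
  have heq' : (pos (x a) - j) * 2 + ty (x a) = (pos (x b) - j) * 2 + ty (x b) :=
    congrArg Fin.val heq
  have h1 := ty_lt_two (x a) (by rcases hx' a with h | h <;> omega)
      (by rcases hx' a with h | h <;> omega)
  have h2 := ty_lt_two (x b) (by rcases hx' b with h | h <;> omega)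
      (by rcases hx' b with h | h <;> omega)
  have h3 : pos (x a) = pos (x b) := by
    rcases hx' a with h | h <;> rcases hx' b with h' | h' <;> omega
  have h4 : ty (x a) = ty (x b) := by
    rw [h3] at heq'; omega
  apply hab
  apply hg
  rw [← hx a, ← hx b, sv_ext h3 h4]

/-- There is no model in which every level has all other branch sets on one side. -/
theorem switch_pred (hf : IsModel (strip k) H f) (hk : 1 ≤ k) (C : W → Prop)
    (hA : ∀ j, 1 ≤ j → j ≤ k → (∀ w, C w → ¬ Mt f j w → Rt f j w) ∨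
      (∀ w, C w → ¬ Mt f j w → Lf f j w))
    (h1 : ∃ w, C w ∧ ¬ Mt f 1 w ∧ Rt f 1 w) (h2 : ∃ w, C w ∧ ¬ Mt f k w ∧ Lf f k w)
    (g : Fin 5 → W) (hg : Function.Injective g) (hgC : ∀ i, C (g i)) : False := by
  have key : ∀ j, 1 ≤ j → j ≤ k → ∀ w, C w → ¬ Mt f j w → Rt f j w := by
    intro j hj
    induction j, hj using Nat.le_induction with
    | base =>
      intro _
      rcases hA 1 le_rfl hk with h | h
      · exact h
      · obtain ⟨w, hC, hw, hw'⟩ := h1
        have := lf_rt hf hw' (h w hC hw)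
        omega
    | succ j hj ih =>
      intro hjk
      rcases hA (j + 1) (by omega) hjk with h | h
      · exact h
      · exfalso
        apply mt_four (f := f) (j := j) ⟨hj, by omega⟩ g hg
        intro i
        by_contra hcon
        push Not at hcon
        have := lf_rt hf (ih (by omega) _ (hgC i) hcon.1) (h _ (hgC i) hcon.2)
        omega
  obtain ⟨w, hC, hw, hw'⟩ := h2
  have := lf_rt hf (key k hk le_rfl w hC hw) hw'
  omega

theorem switch (hf : IsModel (strip k) H f) (hk : 1 ≤ k)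
    (hA : ∀ j, 1 ≤ j → j ≤ k → (∀ w, ¬ Mt f j w → Rt f j w) ∨ (∀ w, ¬ Mt f j w → Lf f j w))
    (h1 : ∃ w, ¬ Mt f 1 w ∧ Rt f 1 w) (h2 : ∃ w, ¬ Mt f k w ∧ Lf f k w)
    (g : Fin 5 → W) (hg : Function.Injective g) : False := by
  refine switch_pred hf hk (fun _ => True) (fun j h3 h4 => ?_) ?_ ?_ g hg (fun _ => trivial)
  · rcases hA j h3 h4 with h | h
    · exact Or.inl fun w _ => h w
    · exact Or.inr fun w _ => h w
  · obtain ⟨w, hw⟩ := h1
    exact ⟨w, trivial, hw⟩
  · obtain ⟨w, hw⟩ := h2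
    exact ⟨w, trivial, hw⟩

/-- Strips have no contraction that is dense in the following sense. -/
theorem strip_no_M (hf : IsModel (strip k) H f) (hk : 1 ≤ k)
    (hH : ∀ p q z z' : W, z ≠ p → z ≠ q → z' ≠ p → z' ≠ q → z ≠ z' →
      H.Adj z z' ∨ ∃ c, c ≠ p ∧ c ≠ q ∧ H.Adj z c ∧ H.Adj c z')
    (g : Fin 5 → W) (hg : Function.Injective g) : False := by
  classical
  -- the two classes at a level
  have hpq : ∀ j, 1 ≤ j → j ≤ k → ∃ p q, ∀ w, Mt f j w ↔ (w = p ∨ w = q) := by
    intro j h1 h2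
    refine ⟨f (sv k j 0 ⟨by omega, by omega, by omega⟩), f (sv k j 1 ⟨by omega, by omega, by omega⟩),
      fun w => ⟨?_, ?_⟩⟩
    · rintro ⟨x, rfl, hx⟩
      have h3 := ty_lt_two x (by omega) (by omega)
      by_cases h4 : ty x = 0
      · left
        rw [sv_ext (x := x) (y := sv k j 0 ⟨by omega, by omega, by omega⟩) hx h4]
      · right
        rw [sv_ext (x := x) (y := sv k j 1 ⟨by omega, by omega, by omega⟩) hx
          (by simp only [ty_sv]; omega)]
    · rintro (rfl | rfl)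
      · exact ⟨_, rfl, rfl⟩
      · exact ⟨_, rfl, rfl⟩
  have hex : ∀ p q r : W, ∃ w, w ≠ p ∧ w ≠ q ∧ w ≠ r := by
    intro p q r
    by_contra hcon
    push Not at hcon
    have : Set.range g ⊆ {p, q, r} := by
      rintro _ ⟨i, rfl⟩
      by_cases h1 : g i = p
      · simp [h1]
      by_cases h2 : g i = q
      · simp [h2]
      simp [hcon _ h1 h2]
    have h5 : (Set.range g).ncard = 5 := by
      rw [Set.ncard_range_of_injective hg]
      simp
    have h6 := Set.ncard_le_ncard this (by simp)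
    have h7 : ({p, q, r} : Set W).ncard ≤ 3 := by
      have := Set.ncard_insert_le p ({q, r} : Set W)
      have := Set.ncard_insert_le q ({r} : Set W)
      have := Set.ncard_singleton r
      omega
    omega
  have hA : ∀ j, 1 ≤ j → j ≤ k → (∀ w, ¬ Mt f j w → Rt f j w) ∨
      (∀ w, ¬ Mt f j w → Lf f j w) := by
    intro j h1 h2
    obtain ⟨p, q, hpq⟩ := hpq j h1 h2
    by_cases h : ∀ w, ¬ Mt f j w → Rt f j w
    · exact Or.inl h
    · right
      push Not at h
      obtain ⟨z, hz, hz'⟩ := h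
      have hzL : Lf f j z := (tri hf j z hz).resolve_right hz'
      intro w hw
      by_cases hzw : z = w
      · rw [← hzw]; exact hzL
      rw [hpq] at hz hw
      push Not at hz hw
      rcases hH p q z w hz.1 hz.2 hw.1 hw.2 hzw with h | ⟨c, hc1, hc2, h3, h4⟩
      · exact lf_adj hf h hzL (by rw [hpq]; push Not; exact hw)
      · exact lf_adj hf h4 (lf_adj hf h3 hzL (by rw [hpq]; push Not; exact ⟨hc1, hc2⟩))
          (by rw [hpq]; push Not; exact hw)
  -- an unmet neighbour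
  have hnb : ∀ j, 1 ≤ j → j ≤ k → ∀ z, ¬ Mt f j z → ∃ c, ¬ Mt f j c ∧ H.Adj z c := by
    intro j h1 h2 z hz
    obtain ⟨p, q, hpq⟩ := hpq j h1 h2
    rw [hpq] at hz
    push Not at hz
    obtain ⟨w, hw1, hw2, hw3⟩ := hex p q z
    rcases hH p q z w hz.1 hz.2 hw1 hw2 (Ne.symm hw3) with h | ⟨c, hc1, hc2, h3, h4⟩
    · exact ⟨w, by rw [hpq]; push Not; exact ⟨hw1, hw2⟩, h⟩
    · exact ⟨c, by rw [hpq]; push Not; exact ⟨hc1, hc2⟩, h3⟩
  have hun : ∀ j, 1 ≤ j → j ≤ k → ∃ z, ¬ Mt f j z := by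
    intro j h1 h2
    obtain ⟨p, q, hpq⟩ := hpq j h1 h2
    obtain ⟨w, hw1, hw2, hw3⟩ := hex p q p
    exact ⟨w, by rw [hpq]; push Not; exact ⟨hw1, hw2⟩⟩
  refine switch hf hk hA ?_ ?_ g hg
  · obtain ⟨z, hz⟩ := hun 1 le_rfl hk
    refine ⟨z, hz, ?_⟩
    rcases tri hf 1 z hz with h | h
    · exfalso
      obtain ⟨c, hc, hzc⟩ := hnb 1 le_rfl hk z hz
      have hcL := lf_adj hf hzc h hc
      obtain ⟨_, x, y, hx, hy, hxy⟩ := (hf.2 _ _).1 hzc
      have h4 := h x hx
      have h5 := hcL y hy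
      have h6 := (strip_adj.1 hxy).1
      omega
    · exact h
  · obtain ⟨z, hz⟩ := hun k hk le_rfl
    refine ⟨z, hz, ?_⟩
    rcases tri hf k z hz with h | h
    · exact h
    · exfalso
      obtain ⟨c, hc, hzc⟩ := hnb k hk le_rfl z hz
      have hcL := rt_adj hf hzc h hc
      obtain ⟨_, x, y, hx, hy, hxy⟩ := (hf.2 _ _).1 hzc
      have h4 := h x hx
      have h5 := hcL y hy
      have h6 := (strip_adj.1 hxy).1
      have h7 := pos_le x
      have h8 := pos_le y
      omega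

end model

end Pool.Agent.H67.WQ
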