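import Pool.Agent.H67.WQ.Strip

set_option autoImplicit false

namespace Pool.Agent.H67.WQ

section star

variable {k : ℕ} {W : Type} {H : SimpleGraph W} {f : SV k → W}

theorem IsModel.refl_comp (hf : IsModel (strip k) H f) :
    IsModel (strip k) H (fun x => f (srefl x)) :=
  (isModel_of_iso (srefl_iso k)).comp hf

theorem mt_refl {j : ℕ} (hj : j ≤ k + 1) (w : W) :
    Mt (fun x => f (srefl x)) j w ↔ Mt f (k + 1 - j) w := by
  constructor
  · rintro ⟨x, hx, hx'⟩
    refine ⟨srefl x, hx, ?_⟩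
    rw [pos_srefl]
    have := pos_le x
    omega
  · rintro ⟨x, hx, hx'⟩
    refine ⟨srefl x, by simpa only [srefl_srefl] using hx, ?_⟩
    rw [pos_srefl]
    have := pos_le x
    omega

theorem lf_refl {j : ℕ} (hj : j ≤ k + 1) (w : W) :
    Lf (fun x => f (srefl x)) j w ↔ Rt f (k + 1 - j) w := by
  constructor
  · intro h x hx
    have := h (srefl x) (by simpa only [srefl_srefl] using hx)
    rw [pos_srefl] at this
    have := pos_le x
    omega
  · intro h x hx
    have := h (srefl x) hx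
    rw [pos_srefl] at this
    have := pos_le x
    omega

theorem rt_refl {j : ℕ} (hj : j ≤ k + 1) (w : W) :
    Rt (fun x => f (srefl x)) j w ↔ Lf f (k + 1 - j) w := by
  constructor
  · intro h x hx
    have := h (srefl x) (by simpa only [srefl_srefl] using hx)
    rw [pos_srefl] at this
    have := pos_le x
    omega
  · intro h x hx
    have := h (srefl x) hx
    rw [pos_srefl] at this
    have := pos_le x
    omega

/-- a graph `K_{1,1,p}` with `p ≥ 3` -/
structure SP (H : SimpleGraph W) (c d : W) (l : Fin 3 → W) : Prop where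
  ne : c ≠ d
  inj : Function.Injective l
  lc : ∀ i, l i ≠ c
  ld : ∀ i, l i ≠ d
  ac : ∀ w, w ≠ c → H.Adj c w
  ad : ∀ w, w ≠ d → H.Adj d w
  ind : ∀ w w', w ≠ c → w ≠ d → w' ≠ c → w' ≠ d → ¬ H.Adj w w'

theorem nonsplit_side (hf : IsModel (strip k) H f) {c d : W} {l : Fin 3 → W} (hS : SP H c d l)
    {j : ℕ} (hns : ¬ (Mt f j c ∧ Mt f j d)) :
    (∀ w, ¬ Mt f j w → Rt f j w) ∨ (∀ w, ¬ Mt f j w → Lf f j w) := by
  have main : ∀ e, (∀ w, w ≠ e → H.Adj e w) → ¬ Mt f j e →
      (∀ w, ¬ Mt f j w → Rt f j w) ∨ (∀ w, ¬ Mt f j w → Lf f j w) := by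
    intro e he hm
    rcases tri hf j e hm with h | h
    · right
      intro w hw
      by_cases hwe : w = e
      · rw [hwe]; exact h
      · exact lf_adj hf (he w hwe) h hw
    · left
      intro w hw
      by_cases hwe : w = e
      · rw [hwe]; exact h
      · exact rt_adj hf (he w hwe) h hw
  by_cases hc : Mt f j c
  · exact main d hS.ad (fun hd => hns ⟨hc, hd⟩)
  · exact main c hS.ac hc

theorem left_leaf (hf : IsModel (strip k) H f) {c d : W} {l : Fin 3 → W} (hS : SP H c d l)
    {j0 : ℕ} (hj : 1 ≤ j0 ∧ j0 ≤ k) (hc : Mt f j0 c) (hd : Mt f j0 d)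
    (hns : ∀ j, 1 ≤ j → j < j0 → ¬ (Mt f j c ∧ Mt f j d)) {x y : W} (hxc : x ≠ c) (hxd : x ≠ d)
    (hyc : y ≠ c) (hyd : y ≠ d) (hxy : x ≠ y) (hx : Lf f j0 x) (hy : Lf f j0 y) : False := by
  by_cases h1 : j0 = 1
  · -- both leaves contain the end vertex
    have key : ∀ x, x ≠ c → x ≠ d → Lf f j0 x →
        f (sv k 0 2 ⟨by omega, by omega, by omega⟩) = x := by
      intro x hxc hxd hx
      obtain ⟨_, v', v, hv', hv, hvv⟩ := (hf.2 _ _).1 (hS.ac x hxc)
      obtain ⟨_, u', u, hu', hu, huu⟩ := (hf.2 _ _).1 (hS.ad x hxd)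
      have hv0 := hx v hv
      have hu0 := hx u hu
      have huv : u = v := by
        by_contra hne
        obtain ⟨a, ha, b, hb, hab⟩ := (hf.1 x).2 {u} (by rintro _ rfl; exact hu) ⟨u, rfl⟩
          ⟨v, hv, fun e => hne (Set.mem_singleton_iff.1 e).symm⟩
        have ha' : a = u := ha
        have h2 := hx b hb.1
        have h3 := (strip_adj.1 hab).1
        rw [ha'] at h3
        omega
      subst huv
      have h4 := (strip_adj.1 hvv)
      have h5 := (strip_adj.1 huu)
      have h6 : ty u = 2 := by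
        by_contra hne
        have h7 := ty_lt u
        have h8 := ty_lt_two v' (by omega) (by omega)
        have h9 := ty_lt_two u' (by omega) (by omega)
        have : v' = u' := sv_ext (by omega) (by omega)
        apply hS.ne
        rw [← hv', ← hu', this]
      rw [← hv]
      congr 1
      apply sv_ext
      · simp only [pos_sv]; omega
      · simp only [ty_sv]; omega
    exact hxy ((key x hxc hxd hx).symm.trans (key y hyc hyd hy))
  · -- the level before
    have hR : ∀ w, ¬ Mt f (j0 - 1) w → Rt f (j0 - 1) w := by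
      have hn := hns (j0 - 1) (by omega) (by omega)
      rcases nonsplit_side hf hS hn with h | h
      · exact h
      · exfalso
        by_cases hc' : Mt f (j0 - 1) c
        · have hd' : ¬ Mt f (j0 - 1) d := fun hd' => hn ⟨hc', hd'⟩
          obtain ⟨z, hz, hz'⟩ := hd
          have := h d hd' z hz
          omega
        · obtain ⟨z, hz, hz'⟩ := hc
          have := h c hc' z hz
          omega
    have hmt : ∀ x, Lf f j0 x → Mt f (j0 - 1) x := by
      intro x hx
      by_contra hcon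
      have := lf_rt hf (hR x hcon) hx
      omega
    have hmx := hmt x hx
    have hmy := hmt y hy
    obtain ⟨v, hv, hvc⟩ := exists_core (k := k) (j0 - 2) (by omega)
    have hfv : f v = x ∨ f v = y := by
      by_cases hm : Mt f (j0 - 1) (f v)
      · rcases mt_two (by omega) hmx hmy hm with h | h | h
        · exact absurd h hxy
        · exact Or.inl h.symm
        · exact Or.inr h.symm
      · have := hR _ hm v rfl
        omega
    obtain ⟨a, ha, ha'⟩ := hmx
    obtain ⟨b, hb, hb'⟩ := hmy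
    have hva : (strip k).Adj v a := core_adj hvc (Or.inr ⟨by omega, by omega⟩) (by omega)
    have hvb : (strip k).Adj v b := core_adj hvc (Or.inr ⟨by omega, by omega⟩) (by omega)
    rcases hfv with h | h
    · exact hS.ind x y hxc hxd hyc hyd ((hf.2 _ _).2 ⟨hxy, v, b, h, hb, hvb⟩)
    · exact hS.ind y x hyc hyd hxc hxd ((hf.2 _ _).2 ⟨hxy.symm, v, a, h, ha, hva⟩)

theorem right_leaf (hf : IsModel (strip k) H f) {c d : W} {l : Fin 3 → W} (hS : SP H c d l)
    {j0 : ℕ} (hj : 1 ≤ j0 ∧ j0 ≤ k) (hc : Mt f j0 c) (hd : Mt f j0 d)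
    (hns : ∀ j, j0 < j → j ≤ k → ¬ (Mt f j c ∧ Mt f j d)) {x y : W} (hxc : x ≠ c) (hxd : x ≠ d)
    (hyc : y ≠ c) (hyd : y ≠ d) (hxy : x ≠ y) (hx : Rt f j0 x) (hy : Rt f j0 y) : False := by
  have e : k + 1 - (k + 1 - j0) = j0 := by omega
  refine left_leaf (f := fun x => f (srefl x)) (j0 := k + 1 - j0) hf.refl_comp hS
    ⟨by omega, by omega⟩ ?_ ?_ ?_ hxc hxd hyc hyd hxy ?_ ?_
  · rw [mt_refl (by omega), e]; exact hc
  · rw [mt_refl (by omega), e]; exact hd
  · intro j h1 h2
    rw [mt_refl (by omega), mt_refl (by omega)]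
    exact hns _ (by omega) (by omega)
  · rw [lf_refl (by omega), e]; exact hx
  · rw [lf_refl (by omega), e]; exact hy

/-- centre at the first level -/
theorem first_level (hf : IsModel (strip k) H f) (hk : 1 ≤ k) {c d : W} {l : Fin 3 → W}
    (hS : SP H c d l) (hns : ¬ (Mt f 1 c ∧ Mt f 1 d)) : ∃ w, ¬ Mt f 1 w ∧ Rt f 1 w := by
  have main : ∀ e, (∀ w, w ≠ e → H.Adj e w) → (∀ i, l i ≠ e) → ¬ Mt f 1 e →
      ∃ w, ¬ Mt f 1 w ∧ Rt f 1 w := by
    intro e he hle hm
    refine ⟨e, hm, ?_⟩
    rcases tri hf 1 e hm with h | h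
    · exfalso
      have hmt : ∀ i, Mt f 1 (l i) := by
        intro i
        obtain ⟨_, x, y, hx, hy, hxy⟩ := (hf.2 _ _).1 (he (l i) (hle i))
        have h4 := h x hx
        have h6 := (strip_adj.1 hxy).1
        exact ⟨y, hy, by omega⟩
      rcases mt_two ⟨le_rfl, hk⟩ (hmt 0) (hmt 1) (hmt 2) with h' | h' | h'
      · have := hS.inj h'
        simp at this
      · have := hS.inj h'
        simp at this
      · have := hS.inj h'
        simp at this
    · exact h
  by_cases hc : Mt f 1 c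
  · exact main d hS.ad hS.ld (fun hd => hns ⟨hc, hd⟩)
  · exact main c hS.ac hS.lc hc

theorem strip_no_SP (hf : IsModel (strip k) H f) (hk : 1 ≤ k) {c d : W} {l : Fin 3 → W}
    (hS : SP H c d l) : False := by
  classical
  by_cases hsp : ∃ j, 1 ≤ j ∧ j ≤ k ∧ Mt f j c ∧ Mt f j d
  · -- smallest and largest split level
    obtain ⟨j0, ⟨hj0, hj0k, hj0c, hj0d⟩, hmin⟩ : ∃ j, (1 ≤ j ∧ j ≤ k ∧ Mt f j c ∧ Mt f j d) ∧
        ∀ j', 1 ≤ j' → j' < j → ¬ (Mt f j' c ∧ Mt f j' d) := by
      refine ⟨Nat.find hsp, Nat.find_spec hsp, fun j' h1 h2 h3 => ?_⟩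
      have h4 := (Nat.find_spec hsp).2.1
      exact Nat.find_min hsp h2 ⟨h1, by omega, h3.1, h3.2⟩
    obtain ⟨j1, ⟨hj1, hj1k, hj1c, hj1d⟩, hmax⟩ : ∃ j, (1 ≤ j ∧ j ≤ k ∧ Mt f j c ∧ Mt f j d) ∧
        ∀ j', j < j' → j' ≤ k → ¬ (Mt f j' c ∧ Mt f j' d) := by
      have hsp' : ∃ m, 1 ≤ k + 1 - m ∧ k + 1 - m ≤ k ∧ Mt f (k + 1 - m) c ∧
          Mt f (k + 1 - m) d := by
        obtain ⟨j, h1, h2, h3, h4⟩ := hsp
        refine ⟨k + 1 - j, ?_⟩
        have e : k + 1 - (k + 1 - j) = j := by omega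
        rw [e]
        exact ⟨h1, h2, h3, h4⟩
      refine ⟨k + 1 - Nat.find hsp', Nat.find_spec hsp', fun j' h1 h2 h3 => ?_⟩
      have h5 := (Nat.find_spec hsp').1
      have h6 := (Nat.find_spec hsp').2.1
      have e : k + 1 - (k + 1 - j') = j' := by omega
      exact Nat.find_min hsp' (m := k + 1 - j') (by omega) (by
        rw [e]; exact ⟨by omega, h2, h3.1, h3.2⟩)
    have hleaf : ∀ i, Lf f j0 (l i) ∨ Rt f j1 (l i) := by
      intro i
      have h0 : ¬ Mt f j0 (l i) := by
        intro h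
        rcases mt_two ⟨hj0, hj0k⟩ hj0c hj0d h with h | h | h
        · exact hS.ne h
        · exact hS.lc i h.symm
        · exact hS.ld i h.symm
      have h1 : ¬ Mt f j1 (l i) := by
        intro h
        rcases mt_two ⟨hj1, hj1k⟩ hj1c hj1d h with h | h | h
        · exact hS.ne h
        · exact hS.lc i h.symm
        · exact hS.ld i h.symm
      rcases tri hf j0 _ h0 with h2 | h2
      · exact Or.inl h2
      rcases tri hf j1 _ h1 with h3 | h3
      · exfalso
        obtain ⟨v, hv⟩ := hf.surj (l i)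
        have h4 := h2 v hv
        have h5 := h3 v hv
        have hcen : ∀ e, Mt f j0 e → Mt f j1 e → Mt f (pos v) e := by
          intro e he0 he1
          by_contra hcon
          obtain ⟨a, ha, ha'⟩ := he0
          obtain ⟨b, hb, hb'⟩ := he1
          rcases tri hf (pos v) e hcon with h6 | h6
          · have := h6 b hb
            omega
          · have := h6 a ha
            omega
        have hmc := hcen c hj0c hj1c
        have hmd := hcen d hj0d hj1d
        rcases mt_two (j := pos v) ⟨by omega, by omega⟩ hmc hmd ⟨v, hv, rfl⟩ with h | h | h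
        · exact hS.ne h
        · exact hS.lc i h.symm
        · exact hS.ld i h.symm
      · exact Or.inr h3
    have hLL : ∀ i i', i ≠ i' → Lf f j0 (l i) → Lf f j0 (l i') → False := fun i i' hii h h' =>
      left_leaf hf hS ⟨hj0, hj0k⟩ hj0c hj0d hmin (hS.lc i) (hS.ld i) (hS.lc i') (hS.ld i')
        (fun e => hii (hS.inj e)) h h'
    have hRR : ∀ i i', i ≠ i' → Rt f j1 (l i) → Rt f j1 (l i') → False := fun i i' hii h h' =>
      right_leaf hf hS ⟨hj1, hj1k⟩ hj1c hj1d hmax (hS.lc i) (hS.ld i) (hS.lc i') (hS.ld i')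
        (fun e => hii (hS.inj e)) h h'
    rcases hleaf 0 with h0 | h0 <;> rcases hleaf 1 with h1 | h1 <;> rcases hleaf 2 with h2 | h2
    · exact hLL 0 1 (by decide) h0 h1
    · exact hLL 0 1 (by decide) h0 h1
    · exact hLL 0 2 (by decide) h0 h2
    · exact hRR 1 2 (by decide) h1 h2
    · exact hLL 1 2 (by decide) h1 h2
    · exact hRR 0 2 (by decide) h0 h2
    · exact hRR 0 1 (by decide) h0 h1
    · exact hRR 0 1 (by decide) h0 h1
  · push Not at hsp
    have hns : ∀ j, 1 ≤ j → j ≤ k → ¬ (Mt f j c ∧ Mt f j d) := fun j h1 h2 h3 =>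
      hsp j h1 h2 h3.1 h3.2
    refine switch hf hk (fun j h1 h2 => nonsplit_side hf hS (hns j h1 h2))
      (first_level hf hk hS (hns 1 le_rfl hk)) ?_ (Fin.cons c (Fin.cons d l)) ?_
    · have := first_level (f := fun x => f (srefl x)) hf.refl_comp hk hS (by
        rw [mt_refl (by omega), mt_refl (by omega)]
        exact hns _ (by omega) (by omega))
      obtain ⟨w, hw, hw'⟩ := this
      rw [mt_refl (by omega)] at hw
      rw [rt_refl (by omega)] at hw'
      have e : k + 1 - 1 = k := by omega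
      rw [e] at hw hw'
      exact ⟨w, hw, hw'⟩
    · refine Fin.cons_injective_iff.2 ⟨?_, Fin.cons_injective_iff.2 ⟨?_, hS.inj⟩⟩
      · rintro ⟨i, hi⟩
        refine Fin.cases (motive := fun i => (Fin.cons d l : Fin 4 → W) i = c → False) ?_ ?_ i hi
        · intro h
          rw [Fin.cons_zero] at h
          exact hS.ne h.symm
        · intro j h
          rw [Fin.cons_succ] at h
          exact hS.lc j h
      · rintro ⟨i, hi⟩
        exact hS.ld i hi

end star

end Pool.Agent.H67.WQ
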