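import Pool.Agent.H67.WQ.Strip2

set_option autoImplicit false

namespace Pool.Agent.H67.WQ

section anti

variable {k k' : ℕ} {f : SV k → SV k'}

/-- the level `j` is mapped onto the level `i`, orientation preserving -/
structure PP (f : SV k → SV k') (j i : ℕ) : Prop where
  j1 : 1 ≤ j
  jk : j ≤ k
  i1 : 1 ≤ i
  ik : i ≤ k'
  mt : ∀ w, Mt f j w ↔ pos w = i
  rt : ∀ w, Core w → Rt f j w → i < pos w
  lf : ∀ w, Core w → Lf f j w → pos w < i

theorem PP.val {j i : ℕ} (h : PP f j i) {y : SV k} (hy : pos y = j) : pos (f y) = i :=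
  (h.mt _).1 ⟨y, rfl, hy⟩

theorem PP.core_of {j i : ℕ} (h : PP f j i) (hf : IsModel (strip k) (strip k') f)
    {y : SV k} (hy1 : 1 ≤ pos y) (hy2 : pos y ≤ k) (hy : pos y + 1 = j ∨ j + 1 = pos y) :
    Core (f y) ∧ (pos (f y) = i + 1 ∨ pos (f y) + 1 = i) := by
  have h1 := h.i1
  have h2 := h.ik
  have hu0 : ∃ u : SV k', pos u = i ∧ ty u = 0 :=
    ⟨sv k' i 0 ⟨by omega, by omega, by omega⟩, rfl, rfl⟩
  have hu1 : ∃ u : SV k', pos u = i ∧ ty u = 1 :=
    ⟨sv k' i 1 ⟨by omega, by omega, by omega⟩, rfl, rfl⟩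
  obtain ⟨u0, hp0, ht0⟩ := hu0
  obtain ⟨u1, hp1, ht1⟩ := hu1
  obtain ⟨x0, hx0, hxj0⟩ := (h.mt u0).2 hp0
  obtain ⟨x1, hx1, hxj1⟩ := (h.mt u1).2 hp1
  have hj1 := h.j1
  have hjk := h.jk
  have ha0 : (strip k).Adj y x0 := core_adj (Or.inr ⟨hy1, hy2⟩)
    (Or.inr ⟨by omega, by omega⟩) (by omega)
  have ha1 : (strip k).Adj y x1 := core_adj (Or.inr ⟨hy1, hy2⟩)
    (Or.inr ⟨by omega, by omega⟩) (by omega)
  have hne : u0 ≠ u1 := by
    rintro rfl
    omega
  have hw0 : f y ≠ u0 := by
    intro e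
    have := (strip_adj.1 ((hf.2 u0 u1).2 ⟨hne, y, x1, e, hx1, ha1⟩)).1
    omega
  have hw1 : f y ≠ u1 := by
    intro e
    have := (strip_adj.1 ((hf.2 u1 u0).2 ⟨hne.symm, y, x0, e, hx0, ha0⟩)).1
    omega
  have hb0 := strip_adj.1 ((hf.2 (f y) u0).2 ⟨hw0, y, x0, rfl, hx0, ha0⟩)
  have hb1 := strip_adj.1 ((hf.2 (f y) u1).2 ⟨hw1, y, x1, rfl, hx1, ha1⟩)
  constructor
  · by_contra hc
    have hc' : ¬ (ty (f y) = 2 ∨ (1 ≤ pos (f y) ∧ pos (f y) ≤ k')) := hc
    omega
  · omega

theorem PP.step {j i : ℕ} (h : PP f j i) (hf : IsModel (strip k) (strip k') f)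
    (hik : i < k') : PP f (j + 1) (i + 1) := by
  have h1 := h.i1
  have h2 := h.ik
  have hj1 := h.j1
  have hjk := h.jk
  have hcoreR : ∀ w : SV k', Core w → i < pos w → Rt f j w := by
    intro w hw hiw
    rcases tri hf j w (by rw [h.mt]; omega) with h3 | h3
    · have := h.lf w hw h3
      omega
    · exact h3
  have hjk' : j < k := by
    by_contra hcon
    obtain ⟨w1, hw1, hc1⟩ := exists_core (k := k') (i + 1) (by omega)
    obtain ⟨w2, hw2, hc2⟩ := exists_core (k := k') (i + 2) (by omega)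
    have hadj : (strip k').Adj w1 w2 := core_adj hc1 hc2 (by omega)
    obtain ⟨_, x, y, hx, hy, hxy⟩ := (hf.2 _ _).1 hadj
    have h3 := hcoreR w1 hc1 (by omega) x hx
    have h4 := hcoreR w2 hc2 (by omega) y hy
    have h5 := (strip_adj.1 hxy).1
    have h6 := pos_le x
    have h7 := pos_le y
    omega
  have ha : ∀ y : SV k, pos y = j + 1 → pos (f y) = i + 1 := by
    intro y hy
    obtain ⟨hc, hp⟩ := h.core_of hf (y := y) (by omega) (by omega) (by omega)
    rcases tri hf j (f y) (by rw [h.mt]; omega) with h3 | h3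
    · have := h3 y rfl
      omega
    · have := h.rt _ hc h3
      omega
  have hb : ∀ w : SV k', pos w = i + 1 → Mt f (j + 1) w := by
    intro w hw
    by_contra hcon
    have hcw : Core w := Or.inr ⟨by omega, by omega⟩
    have hR := hcoreR w hcw (by omega)
    have hR' : Rt f (j + 1) w := by
      rcases tri hf (j + 1) w hcon with h3 | h3
      · have := lf_rt hf hR h3
        omega
      · exact h3
    obtain ⟨u, hu, hcu⟩ := exists_core (k := k') i (by omega)
    have hadj : (strip k').Adj w u := core_adj hcw hcu (by omega)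
    obtain ⟨_, x, y, hx, hy, hxy⟩ := (hf.2 _ _).1 hadj
    have h3 := hR' x hx
    have h5 := (strip_adj.1 hxy).1
    have h6 : ¬ Mt f (j + 1) u := by
      rintro ⟨z, hz, hz'⟩
      have := ha z hz'
      rw [hz] at this
      omega
    have h7 : pos y ≠ j + 1 := fun e => h6 ⟨y, hy, e⟩
    obtain ⟨z, hz, hz'⟩ := (h.mt u).2 hu
    rcases tri hf (j + 1) u h6 with h8 | h8
    · have := h8 y hy
      omega
    · have := h8 z hz
      omega
  have hmt : ∀ w, Mt f (j + 1) w ↔ pos w = i + 1 := by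
    intro w
    constructor
    · rintro ⟨y, rfl, hy⟩
      exact ha y hy
    · exact hb w
  refine ⟨by omega, by omega, by omega, by omega, hmt, ?_, ?_⟩
  · intro w hw hR
    have h3 : i < pos w := h.rt w hw (fun x hx => by have := hR x hx; omega)
    have h4 : pos w ≠ i + 1 := by
      intro e
      obtain ⟨y, hy, hy'⟩ := (hmt w).2 e
      have := hR y hy
      omega
    omega
  · intro w hw hL
    by_contra hcon
    have hR := hcoreR w hw (by omega)
    have := lf_rt hf hR hL
    omega

/-- conjugation by the reflections -/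
def rr (f : SV k → SV k') : SV k → SV k' := fun x => srefl (f (srefl x))

theorem rr_model (hf : IsModel (strip k) (strip k') f) : IsModel (strip k) (strip k') (rr f) :=
  ((isModel_of_iso (srefl_iso k)).comp hf).comp (isModel_of_iso (srefl_iso k'))

theorem srefl_eq {x y : SV k} : srefl x = y ↔ x = srefl y := by
  constructor
  · rintro rfl; rw [srefl_srefl]
  · rintro rfl; rw [srefl_srefl]

theorem core_srefl {x : SV k} : Core (srefl x) ↔ Core x := by
  have := pos_le x
  unfold Core
  rw [ty_srefl, pos_srefl]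
  omega

theorem rr_eq {x : SV k} {w : SV k'} : rr f x = w ↔ f (srefl x) = srefl w := srefl_eq

theorem mt_rr {j : ℕ} (hj : j ≤ k + 1) (w : SV k') :
    Mt (rr f) j w ↔ Mt f (k + 1 - j) (srefl w) := by
  rw [← mt_refl hj]
  constructor
  · rintro ⟨x, hx, h⟩
    exact ⟨x, rr_eq.1 hx, h⟩
  · rintro ⟨x, hx, h⟩
    exact ⟨x, rr_eq.2 hx, h⟩

theorem lf_rr {j : ℕ} (hj : j ≤ k + 1) (w : SV k') :
    Lf (rr f) j w ↔ Rt f (k + 1 - j) (srefl w) := by
  rw [← lf_refl hj]
  constructor
  · intro h x hx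
    exact h x (rr_eq.2 hx)
  · intro h x hx
    exact h x (rr_eq.1 hx)

theorem rt_rr {j : ℕ} (hj : j ≤ k + 1) (w : SV k') :
    Rt (rr f) j w ↔ Lf f (k + 1 - j) (srefl w) := by
  rw [← rt_refl hj]
  constructor
  · intro h x hx
    exact h x (rr_eq.2 hx)
  · intro h x hx
    exact h x (rr_eq.1 hx)

theorem PP.rr {j i j' i' : ℕ} (h : PP f j i) (hj : j + j' = k + 1) (hi : i + i' = k' + 1) :
    PP (rr f) j' i' := by
  have h1 := h.i1
  have h2 := h.ik
  have hj1 := h.j1
  have hjk := h.jk
  have e : k + 1 - j' = j := by omega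
  refine ⟨by omega, by omega, by omega, by omega, ?_, ?_, ?_⟩
  · intro w
    have := pos_le w
    rw [mt_rr (by omega), e, h.mt, pos_srefl]
    omega
  · intro w hw hR
    rw [rt_rr (by omega), e] at hR
    have := h.lf _ (core_srefl.2 hw) hR
    rw [pos_srefl] at this
    have := pos_le w
    omega
  · intro w hw hR
    rw [lf_rr (by omega), e] at hR
    have := h.rt _ (core_srefl.2 hw) hR
    rw [pos_srefl] at this
    have := pos_le w
    omega

theorem PP.right {j i : ℕ} (h : PP f j i) (hf : IsModel (strip k) (strip k') f) (m : ℕ)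
    (hm : i + m ≤ k') : PP f (j + m) (i + m) := by
  induction m with
  | zero => exact h
  | succ m ih => exact (ih (by omega)).step hf (by omega)

theorem rr_rr : rr (rr f) = f := by
  funext x
  unfold rr
  rw [srefl_srefl, srefl_srefl]

theorem PP.all {j i : ℕ} (h : PP f j i) (hf : IsModel (strip k) (strip k') f) :
    ∃ c, c + k' ≤ k ∧ ∀ i', 1 ≤ i' → i' ≤ k' → PP f (i' + c) i' := by
  have h1 := h.i1
  have h2 := h.ik
  have hj1 := h.j1
  have hjk := h.jk
  have ha := (h.rr (j' := k + 1 - j) (i' := k' + 1 - i) (by omega) (by omega)).right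
    (rr_model hf) (i - 1) (by omega)
  have h3 := ha.jk
  have hb := ha.rr (j' := 1 + (j - i)) (i' := 1) (by omega) (by omega)
  rw [rr_rr] at hb
  have hc := hb.right hf (k' - 1) (by omega)
  have h4 := hc.jk
  refine ⟨j - i, by omega, fun i' h5 h6 => ?_⟩
  have := hb.right hf (i' - 1) (by omega)
  have e1 : 1 + (j - i) + (i' - 1) = i' + (j - i) := by omega
  have e2 : 1 + (i' - 1) = i' := by omega
  rw [e1, e2] at this
  exact this

theorem terminal (hf : IsModel (strip k) (strip k') f) (hk' : 2 ≤ k') {c : ℕ} (hc : c + k' ≤ k)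
    (h : ∀ i, 1 ≤ i → i ≤ k' → PP f (i + c) i) : c + k' = k := by
  by_contra hne
  have hP := h k' (by omega) le_rfl
  have hP' := h (k' - 1) (by omega) (by omega)
  have hb : ∀ y : SV k, pos y = k' + c + 1 → pos (f y) = k' + 1 ∧ ty (f y) = 2 := by
    intro y hy
    obtain ⟨hcy, hp⟩ := hP.core_of hf (y := y) (by omega) (by omega) (by omega)
    have hp' : pos (f y) = k' + 1 := by
      rcases tri hf (k' + c) (f y) (by rw [hP.mt]; omega) with h3 | h3
      · have := h3 y rfl
        omega
      · have := hP.rt _ hcy h3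
        omega
    refine ⟨hp', ?_⟩
    have hcy' : ty (f y) = 2 ∨ (1 ≤ pos (f y) ∧ pos (f y) ≤ k') := hcy
    omega
  -- the pendant vertex
  obtain ⟨p, hp, hpt⟩ : ∃ p : SV k', pos p = k' + 1 ∧ ty p = 0 :=
    ⟨sv k' (k' + 1) 0 ⟨by omega, by omega, by omega⟩, rfl, rfl⟩
  obtain ⟨u, hu, hut⟩ : ∃ u : SV k', pos u = k' ∧ ty u = 0 :=
    ⟨sv k' k' 0 ⟨by omega, by omega, by omega⟩, rfl, rfl⟩
  have hadj : (strip k').Adj p u := by
    rw [strip_adj]; omega
  obtain ⟨_, x, y, hx, hy, hxy⟩ := (hf.2 _ _).1 hadj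
  have huM : Mt f (k' + c) u := (hP.mt u).2 hu
  have hu1 : ¬ Mt f (k' + c + 1) u := by
    rintro ⟨z, hz, hz'⟩
    have := (hb z hz').1
    rw [hz] at this
    omega
  have hu2 : ¬ Mt f (k' - 1 + c) u := by
    rw [hP'.mt]; omega
  obtain ⟨z, hz, hz'⟩ := huM
  have hyp : pos y = k' + c := by
    have h3 : pos y < k' + c + 1 := by
      rcases tri hf _ u hu1 with h4 | h4
      · exact h4 y hy
      · have := h4 z hz
        omega
    have h5 : k' - 1 + c < pos y := by
      rcases tri hf _ u hu2 with h4 | h4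
      · have := h4 z hz
        omega
      · exact h4 y hy
    omega
  have h6 := (strip_adj.1 hxy).1
  rcases h6 with h6 | h6
  · have := hP'.val (y := x) (by omega)
    rw [hx] at this
    omega
  · have := (hb x (by omega)).2
    rw [hx] at this
    omega

theorem exists_PP (hf : IsModel (strip k) (strip k') f) (hk : 1 ≤ k) (hk' : 2 ≤ k') :
    ∃ j i, PP f j i ∨ PP (fun x => srefl (f x)) j i := by
  classical
  -- neighbours of core vertices
  have hpair : ∀ j, 1 ≤ j → j ≤ k → ∃ w w' : SV k', Core w ∧ Core w' ∧ ¬ Mt f j w ∧ ¬ Mt f j w' ∧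
      (strip k').Adj w w' := by
    intro j hj1 hj2
    obtain ⟨a, ha, hac⟩ := exists_core (k := k') 0 (by omega)
    obtain ⟨b, hb, hbc⟩ := exists_core (k := k') 3 (by omega)
    let u : ℕ → ℕ → SV k' := fun i t =>
      if h : i < k' + 2 ∧ t < 3 ∧ (t = 2 → i = 0 ∨ i = k' + 1) then sv k' i t h else a
    have hu : ∀ i t, 1 ≤ i → i ≤ k' → t < 2 → pos (u i t) = i ∧ ty (u i t) = t := by
      intro i t h1 h2 h3
      simp only [u]
      rw [dif_pos ⟨by omega, by omega, by omega⟩]
      exact ⟨rfl, rfl⟩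
    have h10 := hu 1 0 (by omega) (by omega) (by omega)
    have h11 := hu 1 1 (by omega) (by omega) (by omega)
    have h20 := hu 2 0 (by omega) (by omega) (by omega)
    have h21 := hu 2 1 (by omega) (by omega) (by omega)
    have c10 : Core (u 1 0) := Or.inr ⟨by omega, by omega⟩
    have c11 : Core (u 1 1) := Or.inr ⟨by omega, by omega⟩
    have c20 : Core (u 2 0) := Or.inr ⟨by omega, by omega⟩
    have c21 : Core (u 2 1) := Or.inr ⟨by omega, by omega⟩
    by_contra hcon
    push Not at hcon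
    have e1 : Mt f j a ∨ Mt f j (u 1 0) := by
      by_contra hc
      push Not at hc
      exact hcon a (u 1 0) hac c10 hc.1 hc.2 (core_adj hac c10 (by omega))
    have e2 : Mt f j (u 1 1) ∨ Mt f j (u 2 0) := by
      by_contra hc
      push Not at hc
      exact hcon _ _ c11 c20 hc.1 hc.2 (core_adj c11 c20 (by omega))
    have e3 : Mt f j (u 2 1) ∨ Mt f j b := by
      by_contra hc
      push Not at hc
      exact hcon _ _ c21 hbc hc.1 hc.2 (core_adj c21 hbc (by omega))
    have key : ∀ {p q r : SV k'}, Mt f j p → Mt f j q → Mt f j r → (pos p ≠ pos q ∨ ty p ≠ ty q) →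
        (pos p ≠ pos r ∨ ty p ≠ ty r) → (pos q ≠ pos r ∨ ty q ≠ ty r) → False := by
      intro p q r hp hq hr h1 h2 h3
      rcases mt_two ⟨hj1, hj2⟩ hp hq hr with h | h | h
      · rw [h] at h1; omega
      · rw [h] at h2; omega
      · rw [h] at h3; omega
    rcases e1 with e1 | e1 <;> rcases e2 with e2 | e2 <;> rcases e3 with e3 | e3 <;>
      exact key e1 e2 e3 (by omega) (by omega) (by omega)
  -- a level with both sides
  obtain ⟨j, hj1, hjk, w1, hw1, hw1m, hw1L, w2, hw2, hw2m, hw2R⟩ :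
      ∃ j, 1 ≤ j ∧ j ≤ k ∧ ∃ w1 : SV k', Core w1 ∧ ¬ Mt f j w1 ∧ Lf f j w1 ∧
        ∃ w2 : SV k', Core w2 ∧ ¬ Mt f j w2 ∧ Rt f j w2 := by
    by_contra hcon
    push Not at hcon
    obtain ⟨g, hg, hgC⟩ : ∃ g : Fin 5 → SV k', Function.Injective g ∧ ∀ i, Core (g i) := by
      let g : Fin 5 → SV k' := ![sv k' 1 0 ⟨by omega, by omega, by omega⟩,
        sv k' 1 1 ⟨by omega, by omega, by omega⟩, sv k' 2 0 ⟨by omega, by omega, by omega⟩,
        sv k' 2 1 ⟨by omega, by omega, by omega⟩, sv k' 0 2 ⟨by omega, by omega, by omega⟩]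
      refine ⟨g, ?_, ?_⟩
      · intro a b hab
        have h1 := congrArg pos hab
        have h2 := congrArg ty hab
        fin_cases a <;> fin_cases b <;> simp [g] at h1 h2 ⊢
      · intro i
        fin_cases i
        · exact Or.inr ⟨by simp [g], by simp [g]; omega⟩
        · exact Or.inr ⟨by simp [g], by simp [g]; omega⟩
        · exact Or.inr ⟨by simp [g], by simp [g]; omega⟩
        · exact Or.inr ⟨by simp [g], by simp [g]; omega⟩
        · exact Or.inl rfl
    refine switch_pred hf hk Core (fun j h1 h2 => ?_) ?_ ?_ g hg hgC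
    · by_cases h : ∀ w, Core w → ¬ Mt f j w → Rt f j w
      · exact Or.inl h
      · right
        push Not at h
        obtain ⟨z, hzc, hz, hz'⟩ := h
        have hzL : Lf f j z := (tri hf j z hz).resolve_right hz'
        intro w hwc hw
        exact (tri hf j w hw).resolve_right (hcon j h1 h2 z hzc hz hzL w hwc hw)
    · obtain ⟨w, w', hw, hw', hm, hm', hadj⟩ := hpair 1 le_rfl hk
      rcases tri hf 1 w hm with h | h
      · rcases tri hf 1 w' hm' with h' | h'
        · exfalso
          obtain ⟨_, x, y, hx, hy, hxy⟩ := (hf.2 _ _).1 hadj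
          have h4 := h x hx
          have h5 := h' y hy
          have h6 := (strip_adj.1 hxy).1
          omega
        · exact ⟨w', hw', hm', h'⟩
      · exact ⟨w, hw, hm, h⟩
    · obtain ⟨w, w', hw, hw', hm, hm', hadj⟩ := hpair k hk le_rfl
      rcases tri hf k w hm with h | h
      · exact ⟨w, hw, hm, h⟩
      · rcases tri hf k w' hm' with h' | h'
        · exact ⟨w', hw', hm', h'⟩
        · exfalso
          obtain ⟨_, x, y, hx, hy, hxy⟩ := (hf.2 _ _).1 hadj
          have h4 := h x hx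
          have h5 := h' y hy
          have h6 := (strip_adj.1 hxy).1
          have h7 := pos_le x
          have h8 := pos_le y
          omega
  have hadjL : ∀ w w' : SV k', Core w → Core w' → ¬ Mt f j w → ¬ Mt f j w' →
      (pos w + 1 = pos w' ∨ pos w' + 1 = pos w) → (Lf f j w ↔ Lf f j w') := by
    intro w w' hc hc' hm hm' hp
    have hadj : (strip k').Adj w w' := core_adj hc hc' hp
    exact ⟨fun h => lf_adj hf hadj h hm', fun h => lf_adj hf hadj.symm h hm⟩
  have hnotL : ¬ Lf f j w2 := by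
    intro h
    have := lf_rt hf hw2R h
    omega
  -- a level of the target is met
  obtain ⟨i, hi1, hik, hi⟩ : ∃ i, 1 ≤ i ∧ i ≤ k' ∧ ∀ w : SV k', pos w = i → Mt f j w := by
    by_contra hcon
    push Not at hcon
    have : Nonempty (SV k') := ⟨w1⟩
    choose! z hz hzm using hcon
    have hzc : ∀ i, 1 ≤ i → i ≤ k' → Core (z i) := by
      intro i h1 h2
      exact Or.inr ⟨by rw [hz i h1 h2]; exact h1, by rw [hz i h1 h2]; exact h2⟩
    have hz1 : ∀ i, 1 ≤ i → i ≤ k' → (Lf f j (z i) ↔ Lf f j (z 1)) := by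
      intro i h1
      induction i, h1 using Nat.le_induction with
      | base => intro _; exact Iff.rfl
      | succ i h1 ih =>
        intro h2
        rw [← ih (by omega)]
        exact hadjL _ _ (hzc _ (by omega) h2) (hzc _ h1 (by omega)) (hzm _ (by omega) h2)
          (hzm _ h1 (by omega)) (by
            rw [hz _ (by omega) h2, hz _ h1 (by omega)]; omega)
    have hall : ∀ w : SV k', Core w → ¬ Mt f j w → (Lf f j w ↔ Lf f j (z 1)) := by
      intro w hw hm
      have hp := pos_le w
      by_cases h1 : pos w < k'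
      · rw [← hz1 (pos w + 1) (by omega) (by omega)]
        exact hadjL _ _ hw (hzc _ (by omega) (by omega)) hm (hzm _ (by omega) (by omega)) (by
          rw [hz _ (by omega) (by omega)]; omega)
      · rw [← hz1 (pos w - 1) (by omega) (by omega)]
        exact hadjL _ _ hw (hzc _ (by omega) (by omega)) hm (hzm _ (by omega) (by omega)) (by
          rw [hz _ (by omega) (by omega)]; omega)
    exact hnotL ((hall w2 hw2 hw2m).2 ((hall w1 hw1 hw1m).1 hw1L))
  have hmt : ∀ w : SV k', Mt f j w ↔ pos w = i := by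
    intro w
    refine ⟨fun hw => ?_, hi w⟩
    have h0 := hi (sv k' i 0 ⟨by omega, by omega, by omega⟩) rfl
    have h1 := hi (sv k' i 1 ⟨by omega, by omega, by omega⟩) rfl
    rcases mt_two ⟨hj1, hjk⟩ h0 h1 hw with h | h | h
    · have := congrArg ty h
      simp at this
    · rw [← h]; rfl
    · rw [← h]; rfl
  obtain ⟨a, ha, hac⟩ := exists_core (k := k') 0 (by omega)
  obtain ⟨b, hb, hbc⟩ := exists_core (k := k') (k' + 1) (by omega)
  have hcore_eq : ∀ w w' : SV k', Core w → Core w' → pos w = pos w' →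
      (pos w = 0 ∨ pos w = k' + 1) → w = w' := by
    intro w w' hw hw' hp hp'
    apply sv_ext hp
    have h1 : ty w = 2 ∨ (1 ≤ pos w ∧ pos w ≤ k') := hw
    have h2 : ty w' = 2 ∨ (1 ≤ pos w' ∧ pos w' ≤ k') := hw'
    omega
  have hR : ∀ m, ∀ w : SV k', Core w → i < pos w → pos w + m = k' + 1 →
      (Lf f j w ↔ Lf f j b) := by
    intro m
    induction m with
    | zero =>
      intro w hw _ hp
      rw [hcore_eq w b hw hbc (by omega) (by omega)]
    | succ m ih =>
      intro w hw h1 hp
      obtain ⟨w', hw', hc'⟩ := exists_core (k := k') (pos w + 1) (by omega)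
      rw [← ih w' hc' (by omega) (by omega)]
      exact hadjL _ _ hw hc' (by rw [hmt]; omega) (by rw [hmt]; omega) (by omega)
  have hL : ∀ m, ∀ w : SV k', Core w → pos w < i → pos w = m →
      (Lf f j w ↔ Lf f j a) := by
    intro m
    induction m with
    | zero =>
      intro w hw _ hp
      rw [hcore_eq w a hw hac (by omega) (by omega)]
    | succ m ih =>
      intro w hw h1 hp
      obtain ⟨w', hw', hc'⟩ := exists_core (k := k') m (by omega)
      rw [← ih w' hc' (by omega) (by omega)]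
      exact hadjL _ _ hw hc' (by rw [hmt]; omega) (by rw [hmt]; omega) (by omega)
  have hside : ∀ w : SV k', Core w → ¬ Mt f j w →
      (i < pos w ∧ (Lf f j w ↔ Lf f j b)) ∨ (pos w < i ∧ (Lf f j w ↔ Lf f j a)) := by
    intro w hw hm
    have h1 := pos_le w
    rw [hmt] at hm
    by_cases h : i < pos w
    · exact Or.inl ⟨h, hR (k' + 1 - pos w) w hw h (by omega)⟩
    · exact Or.inr ⟨by omega, hL _ w hw (by omega) rfl⟩
  have hnm : ∀ w, Rt f j w → ¬ Mt f j w := by
    rintro w h ⟨x, hx, hx'⟩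
    have := h x hx
    omega
  have hnm' : ∀ w, Lf f j w → ¬ Mt f j w := by
    rintro w h ⟨x, hx, hx'⟩
    have := h x hx
    omega
  have hnLR : ∀ w, Rt f j w → ¬ Lf f j w := by
    intro w h h'
    have := lf_rt hf h h'
    omega
  by_cases hLa : Lf f j a
  · by_cases hLb : Lf f j b
    · exfalso
      rcases hside w2 hw2 hw2m with ⟨_, h⟩ | ⟨_, h⟩
      · exact hnotL (h.2 hLb)
      · exact hnotL (h.2 hLa)
    · refine ⟨j, i, Or.inl ⟨hj1, hjk, hi1, hik, hmt, ?_, ?_⟩⟩
      · intro w hw hw'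
        rcases hside w hw (hnm w hw') with ⟨h1, h⟩ | ⟨h1, h⟩
        · exact h1
        · exact absurd (h.2 hLa) (hnLR w hw')
      · intro w hw hw'
        rcases hside w hw (hnm' w hw') with ⟨h1, h⟩ | ⟨h1, h⟩
        · exact absurd (h.1 hw') hLb
        · exact h1
  · by_cases hLb : Lf f j b
    · refine ⟨j, k' + 1 - i, Or.inr ⟨hj1, hjk, by omega, by omega, ?_, ?_, ?_⟩⟩
      · intro w
        have e : Mt (fun x => srefl (f x)) j w ↔ Mt f j (srefl w) := by
          constructor
          · rintro ⟨x, hx, h⟩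
            exact ⟨x, srefl_eq.1 hx, h⟩
          · rintro ⟨x, hx, h⟩
            exact ⟨x, srefl_eq.2 hx, h⟩
        rw [e, hmt, pos_srefl]
        have := pos_le w
        omega
      · intro w hw hw'
        have hR' : Rt f j (srefl w) := fun x hx => hw' x (srefl_eq.2 hx)
        have h3 := pos_le w
        rcases hside _ (core_srefl.2 hw) (hnm _ hR') with ⟨h1, h⟩ | ⟨h1, h⟩
        · exact absurd (h.2 hLb) (hnLR _ hR')
        · rw [pos_srefl] at h1
          omega
      · intro w hw hw'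
        have hL' : Lf f j (srefl w) := fun x hx => hw' x (srefl_eq.2 hx)
        have h3 := pos_le w
        rcases hside _ (core_srefl.2 hw) (hnm' _ hL') with ⟨h1, h⟩ | ⟨h1, h⟩
        · rw [pos_srefl] at h1
          omega
        · exact absurd (h.1 hL') hLa
    · exfalso
      rcases hside w1 hw1 hw1m with ⟨_, h⟩ | ⟨_, h⟩
      · exact hLb (h.1 hw1L)
      · exact hLa (h.1 hw1L)

theorem anti_of_PP {j i : ℕ} (h : PP f j i) (hf : IsModel (strip k) (strip k') f)
    (hk' : 2 ≤ k') : k = k' := by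
  obtain ⟨c, hc, hall⟩ := h.all hf
  have h1 := terminal hf hk' hc hall
  have h2 := terminal (f := rr f) (rr_model hf) hk' (c := 0) (by omega) (fun i h1 h2 =>
    (hall (k' + 1 - i) (by omega) (by omega)).rr (by omega) (by omega))
  omega

/-- Strips form an antichain. -/
theorem strip_anti (hf : IsModel (strip k) (strip k') f) (hk : 1 ≤ k) (hk' : 2 ≤ k') :
    k = k' := by
  obtain ⟨j, i, h | h⟩ := exists_PP hf hk hk'
  · exact anti_of_PP h hf hk'
  · exact anti_of_PP h (hf.comp (isModel_of_iso (srefl_iso k'))) hk'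

end anti

end Pool.Agent.H67.WQ
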