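import Pool.Agent.H67.WQ.Exist

set_option autoImplicit false

namespace Pool.Agent.H67.WQ

/-- `K_{1,q}` contracts to `K_{1,p}` for `p ≤ q` -/
theorem contr_star_mono {p q : ℕ} (h : p ≤ q) :
    Contr (V := Fin (q + 1)) (W := Fin (p + 1)) (star q).G (star p).G := by
  let f : Fin (q + 1) → Fin (p + 1) := fun i =>
    if hi : (i : ℕ) < p + 1 then ⟨i, hi⟩ else ⟨0, by omega⟩
  have hf1 : ∀ i : Fin (q + 1), (i : ℕ) < p + 1 → (f i : ℕ) = i := by
    intro i hi
    simp only [f]
    rw [dif_pos hi]
  have hf2 : ∀ i : Fin (q + 1), ¬ (i : ℕ) < p + 1 → (f i : ℕ) = 0 := by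
    intro i hi
    simp only [f]
    rw [dif_neg hi]
  refine ⟨f, ?_, ?_⟩
  · intro w
    by_cases hw : (w : ℕ) = 0
    · apply cn_of_center _ (c := (⟨0, by omega⟩ : Fin (q + 1)))
      · apply Fin.ext
        rw [hf1 _ (by simp only; omega)]
        exact hw.symm
      · intro x _ hx
        exact ⟨Ne.symm hx, Or.inl rfl⟩
    · have : {v : Fin (q + 1) | f v = w} = {⟨w, by omega⟩} := by
        ext v
        change f v = w ↔ v = ⟨w, by omega⟩
        constructor
        · intro hv
          have hv' := congrArg Fin.val hv
          apply Fin.ext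
          simp only
          by_cases hi : (v : ℕ) < p + 1
          · rw [hf1 v hi] at hv'
            exact hv'
          · rw [hf2 v hi] at hv'
            omega
        · intro hv
          subst hv
          apply Fin.ext
          rw [hf1 _ (by simp only; omega)]
      rw [this]
      exact cn_singleton _ _
  · intro a b
    constructor
    · rintro ⟨hne, hab⟩
      have hne' : (a : ℕ) ≠ b := fun e => hne (Fin.ext e)
      refine ⟨hne, ⟨a, by omega⟩, ⟨b, by omega⟩, ?_, ?_, ?_, ?_⟩
      · exact Fin.ext (hf1 _ (by simp only; omega))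
      · exact Fin.ext (hf1 _ (by simp only; omega))
      · intro e
        have := congrArg Fin.val e
        exact hne' this
      · exact hab
    · rintro ⟨hne, x, y, hx, hy, hxy, hlt⟩
      refine ⟨hne, ?_⟩
      rcases hlt with hlt | hlt
      · left
        rw [← hx, hf1 x (by omega)]
        exact hlt
      · right
        rw [← hy, hf1 y (by omega)]
        exact hlt

/-- `K_m` minus an edge contracts to `K_q` minus an edge for `3 ≤ q ≤ m` -/
theorem contr_coMatch_one {q m : ℕ} (h : q ≤ m) (hq : 3 ≤ q) :
    Contr (V := Fin m) (W := Fin q) (coMatch m 1).G (coMatch q 1).G := by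
  let f : Fin m → Fin q := fun i => if hi : (i : ℕ) < q then ⟨i, hi⟩ else ⟨2, by omega⟩
  have hf1 : ∀ i : Fin m, (i : ℕ) < q → (f i : ℕ) = i := by
    intro i hi
    simp only [f]
    rw [dif_pos hi]
  have hf2 : ∀ i : Fin m, ¬ (i : ℕ) < q → (f i : ℕ) = 2 := by
    intro i hi
    simp only [f]
    rw [dif_neg hi]
  refine ⟨f, ?_, ?_⟩
  · intro w
    by_cases hw : (w : ℕ) = 2
    · apply cn_of_center _ (c := (⟨2, by omega⟩ : Fin m))
      · apply Fin.ext
        rw [hf1 _ (by simp only; omega)]
        exact hw.symm
      · intro x _ hx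
        refine ⟨Ne.symm hx, ?_⟩
        rintro ⟨_, h2⟩
        simp only at h2
        omega
    · have : {v : Fin m | f v = w} = {⟨w, by omega⟩} := by
        ext v
        change f v = w ↔ v = ⟨w, by omega⟩
        constructor
        · intro hv
          have hv' := congrArg Fin.val hv
          apply Fin.ext
          simp only
          by_cases hi : (v : ℕ) < q
          · rw [hf1 v hi] at hv'
            exact hv'
          · rw [hf2 v hi] at hv'
            omega
        · intro hv
          subst hv
          apply Fin.ext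
          rw [hf1 _ (by simp only; omega)]
      rw [this]
      exact cn_singleton _ _
  · intro a b
    constructor
    · rintro ⟨hne, hab⟩
      have hne' : (a : ℕ) ≠ b := fun e => hne (Fin.ext e)
      refine ⟨hne, ⟨a, by omega⟩, ⟨b, by omega⟩, ?_, ?_, ?_, ?_⟩
      · exact Fin.ext (hf1 _ (by simp only; omega))
      · exact Fin.ext (hf1 _ (by simp only; omega))
      · intro e
        have := congrArg Fin.val e
        exact hne' this
      · exact hab
    · rintro ⟨hne, x, y, hx, hy, hxy, hlt⟩
      refine ⟨hne, ?_⟩
      have hne' : (a : ℕ) ≠ b := fun e => hne (Fin.ext e)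
      rintro ⟨h1, h2⟩
      by_cases hxq : (x : ℕ) < q
      · by_cases hyq : (y : ℕ) < q
        · have e1 := hf1 x hxq
          have e2 := hf1 y hyq
          rw [hx] at e1
          rw [hy] at e2
          rw [e1, e2] at h1
          rw [e1] at h2
          exact hlt ⟨h1, h2⟩
        · have e2 := hf2 y hyq
          rw [hy] at e2
          omega
      · have e1 := hf2 x hxq
        rw [hx] at e1
        omega

/-- `K_{m+4}` minus an edge contracts to `K_m` for `m ≥ 1` -/
theorem contr_coMatch_zero {m : ℕ} (hm : 1 ≤ m) :
    Contr (V := Fin (m + 4)) (W := Fin m) (coMatch (m + 4) 1).G (coMatch m 0).G := by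
  let f : Fin (m + 4) → Fin m := fun i => ⟨(i : ℕ) - 4, by omega⟩
  refine ⟨f, ?_, ?_⟩
  · intro w
    by_cases hw : (w : ℕ) = 0
    · apply cn_of_center _ (c := (⟨2, by omega⟩ : Fin (m + 4)))
      · exact Fin.ext hw.symm
      · intro x _ hx
        refine ⟨Ne.symm hx, ?_⟩
        rintro ⟨_, h2⟩
        simp only at h2
        omega
    · have : {v : Fin (m + 4) | f v = w} = {⟨w + 4, by omega⟩} := by
        ext v
        change f v = w ↔ v = ⟨w + 4, by omega⟩
        constructor
        · intro hv
          have hv' : (v : ℕ) - 4 = w := congrArg Fin.val hv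
          apply Fin.ext
          simp only
          omega
        · intro hv
          subst hv
          apply Fin.ext
          simp only [f]
          omega
      rw [this]
      exact cn_singleton _ _
  · intro a b
    constructor
    · rintro ⟨hne, hab⟩
      have hne' : (a : ℕ) ≠ b := fun e => hne (Fin.ext e)
      refine ⟨hne, ⟨a + 4, by omega⟩, ⟨b + 4, by omega⟩, ?_, ?_, ?_, ?_⟩
      · apply Fin.ext
        simp only [f]
        omega
      · apply Fin.ext
        simp only [f]
        omega
      · intro e
        have := congrArg Fin.val e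
        simp only at this
        omega
      · rintro ⟨_, h2⟩
        simp only at h2
        omega
    · rintro ⟨hne, _⟩
      refine ⟨hne, ?_⟩
      rintro ⟨_, h2⟩
      omega

theorem inClass_of {p q : ℕ} (hq : 3 ≤ q) {G : FG} (hc : G.G.Connected)
    (h1 : ¬ ContractsTo G (star p)) (h2 : ¬ ContractsTo G (coMatch q 1)) :
    InClass p q G.G := by
  refine ⟨hc, ?_, ?_⟩
  · intro W _ H f hf hstar
    by_contra hcard
    push Not at hcard
    apply h1
    rw [contractsTo_iff]
    have hf' : Contr G.G H := ⟨f, hf⟩
    obtain ⟨e⟩ := toFG_iso H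
    obtain ⟨c, hcc⟩ := hstar
    obtain ⟨P, ⟨e'⟩⟩ := star_iso (toFG H).G (e c) (fun i j => by
      have := hcc (e.symm i) (e.symm j)
      rw [e.symm.map_adj_iff] at this
      have key : ∀ i, e.symm i = c ↔ i = e c := by
        intro i
        constructor
        · intro hi; rw [← hi]; simp
        · intro hi; rw [hi]; simp
      rw [this, e.symm.injective.ne_iff, key, key])
    have hP : P + 1 = Fintype.card W := by
      have h3 := Fintype.card_congr e'.toEquiv
      have h4 : Fintype.card (Fin (toFG H).n) = Fintype.card W := by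
        rw [Fintype.card_fin]; rfl
      have h5 : Fintype.card (Fin (star P).n) = P + 1 := by
        rw [Fintype.card_fin]; rfl
      omega
    exact ((hf'.trans (Contr.of_iso e)).trans (Contr.of_iso e')).trans
      (contr_star_mono (by omega))
  · intro W _ H f hf hK
    by_contra hcard
    push Not at hcard
    apply h2
    rw [contractsTo_iff]
    have hf' : Contr G.G H := ⟨f, hf⟩
    obtain ⟨e⟩ := toFG_iso H
    obtain ⟨x, y, hxy, hn, hall⟩ := hK
    obtain ⟨e'⟩ := coMatch_iso (toFG H).G 1 ![e x, e y] (by
      intro i j hij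
      have hexy : e x ≠ e y := e.injective.ne hxy
      fin_cases i <;> fin_cases j
      · rfl
      · exact absurd hij hexy
      · exact absurd hij.symm hexy
      · rfl) (by
      intro s t hst
      have hn' : ¬ (toFG H).G.Adj (e x) (e y) := fun h => hn (e.map_adj_iff.1 h)
      fin_cases s <;> fin_cases t
      · exact absurd rfl hst
      · simpa using hn'
      · simpa using fun h : (toFG H).G.Adj (e y) (e x) => hn' h.symm
      · exact absurd rfl hst) (by
      intro i j hij hi
      by_contra hadj
      have hadj' : ¬ H.Adj (e.symm i) (e.symm j) := fun h => hadj (e.symm.map_adj_iff.1 h)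
      rcases hall _ _ (e.symm.injective.ne hij) hadj' with ⟨h3, _⟩ | ⟨h3, _⟩
      · exact hi ⟨0, by
          rw [← h3]; simp⟩
      · exact hi ⟨1, by
          rw [← h3]; simp⟩)
    exact ((hf'.trans (Contr.of_iso e)).trans (Contr.of_iso e')).trans
      (contr_coMatch_one hcard hq)

theorem WQO.mono {S T : Set FG} (h : S ⊆ T) (hT : WQO T) : WQO S :=
  fun s hs => hT s (fun i => h (hs i))

/-- graphs with layouts of bounded size are well-quasi-ordered -/
theorem wqo_layout (k : ℕ) (s : ℕ → FG) (hlay : ∀ i, ∃ (σ : Skel (Fin k)) (n : Fin k → ℕ)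
    (ι : Fin (s i).n → Fin k × ℕ), Layout (s i).G σ n ι) :
    ∃ i j, i < j ∧ ContractsTo (s j) (s i) := by
  choose σ n ι hι using hlay
  -- pigeonhole on the skeleton and the set of empty types
  let col : ℕ → Skel (Fin k) × (Fin k → Bool) := fun i =>
    (σ i, fun t => decide (n i t = 0))
  obtain ⟨c, hc⟩ := Finite.exists_infinite_fiber col
  have hinf : {i | col i = c}.Infinite := Set.infinite_coe_iff.1 hc
  let φ : ℕ → ℕ := Nat.nth (fun i => col i = c)
  have hφm : StrictMono φ := Nat.nth_strictMono hinf
  have hφc : ∀ k, col (φ k) = c := fun k => Nat.nth_mem_of_infinite hinf k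
  obtain ⟨i, j, hij, hle⟩ := (wellQuasiOrdered_le (α := Fin k → ℕ))
    (fun i => n (φ i))
  refine ⟨φ i, φ j, hφm hij, ?_⟩
  rw [contractsTo_iff]
  have hcol : col (φ i) = col (φ j) := (hφc i).trans (hφc j).symm
  have hσ : σ (φ i) = σ (φ j) := congrArg Prod.fst hcol
  have h0 : ∀ t, n (φ i) t = 0 → n (φ j) t = 0 := by
    intro t ht
    have := congrFun (congrArg Prod.snd hcol) t
    simp only [col, ht, decide_true] at this
    exact of_decide_eq_true this.symm
  have hj' := hι (φ j)
  rw [← hσ] at hj'
  exact (hι (φ i)).contr hj' hle h0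

/-- The main sufficiency theorem. -/
theorem wqo_star_K (p q : ℕ) (hq : 4 ≤ q) : WQO (Cl (star p) (coMatch q 1)) := by
  intro s hs
  apply wqo_layout (typeBound p (2 * q + p + p * q + 1)) s
  intro i
  have h := inClass_of (by omega) (hs i).1 (hs i).2.1 (hs i).2.2
  exact exists_layout h.star (tq_cliqueBound h hq)

end Pool.Agent.H67.WQ
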