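import Pool.Agent.H67.WQ.Bound

set_option autoImplicit false

namespace Pool.Agent.H67.WQ

/-- the closed neighbourhood -/
def clN {V : Type} (G : SimpleGraph V) (a : V) : Set V := {w | w = a ∨ G.Adj a w}

/-- the relation of being equal or true twins -/
def twS {V : Type} (G : SimpleGraph V) : Setoid V where
  r a b := clN G a = clN G b
  iseqv := ⟨fun _ => rfl, fun h => h.symm, fun h h' => h.trans h'⟩

/-- the set of twin classes -/
def TQ {V : Type} (G : SimpleGraph V) : Type := Quotient (twS G)

/-- the projection to the twin classes -/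
def tp {V : Type} (G : SimpleGraph V) (v : V) : TQ G := Quotient.mk (twS G) v

/-- the graph of twin classes -/
def tq {V : Type} (G : SimpleGraph V) : SimpleGraph (TQ G) := quo G (tp G)

section twin
variable {V : Type} {G : SimpleGraph V}

theorem tp_eq {a b : V} : tp G a = tp G b ↔ clN G a = clN G b :=
  ⟨fun h => Quotient.exact h, fun h => Quotient.sound h⟩

theorem tp_surj (C : TQ G) : ∃ v, tp G v = C := Quotient.exists_rep C

theorem adj_of_tp_eq {a b : V} (h : tp G a = tp G b) (hne : a ≠ b) : G.Adj a b := by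
  rw [tp_eq] at h
  have : b ∈ clN G a := by rw [h]; exact Or.inl rfl
  rcases this with h' | h'
  · exact absurd h'.symm hne
  · exact h'

theorem isModel_tp : IsModel G (tq G) (tp G) := by
  apply isModel_quo
  intro w
  obtain ⟨v, hv⟩ := tp_surj w
  apply cn_of_clique G ⟨v, hv⟩
  intro x hx y hy hxy
  have hx' : tp G x = w := hx
  have hy' : tp G y = w := hy
  exact adj_of_tp_eq (hx'.trans hy'.symm) hxy

theorem tq_adj {x y : V} : (tq G).Adj (tp G x) (tp G y) ↔ tp G x ≠ tp G y ∧ G.Adj x y := by
  constructor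
  · rintro ⟨hne, x', y', hx, hy, hxy⟩
    refine ⟨hne, ?_⟩
    have h1 : y' ∈ clN G x := by
      rw [← tp_eq.1 hx]; exact Or.inr hxy
    rcases h1 with h1 | h1
    · exact absurd (hy ▸ h1 ▸ rfl) hne
    · have h2 : x ∈ clN G y := by
        rw [← tp_eq.1 hy]; exact Or.inr h1.symm
      rcases h2 with h2 | h2
      · exact absurd (h2 ▸ rfl) hne
      · exact h2.symm
  · rintro ⟨hne, hxy⟩
    exact ⟨hne, x, y, rfl, rfl, hxy⟩

noncomputable instance [Fintype V] : Fintype (TQ G) := by
  classical
  exact Fintype.ofSurjective (tp G) tp_surj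

theorem tq_cliqueBound {p q : ℕ} [Fintype V] (h : InClass p q G) (hq : 4 ≤ q) :
    CliqueBound (tq G) (2 * q + p + p * q + 1) := by
  classical
  intro K hK
  by_contra hcon
  push Not at hcon
  -- representatives
  choose r hr using (tp_surj : ∀ C : TQ G, ∃ v, tp G v = C)
  have hrinj : Function.Injective r := by
    intro a b hab
    rw [← hr a, ← hr b, hab]
  have hcard : (r '' K).ncard = K.ncard := Set.ncard_image_of_injective K hrinj
  have hQ : ∀ a ∈ r '' K, ∀ b ∈ r '' K, a ≠ b → G.Adj a b := by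
    rintro _ ⟨a, ha, rfl⟩ _ ⟨b, hb, rfl⟩ hab
    have hne : a ≠ b := fun e => hab (e ▸ rfl)
    have := hK a ha b hb hne
    rw [← hr a, ← hr b, tq_adj] at this
    exact this.2
  obtain ⟨E, hE, hEc, htw⟩ := clique_twins h hQ hq (by rw [hcard]; omega)
  have hdiff : 1 < (r '' K \ E).ncard := by
    have := Set.ncard_diff_add_ncard_of_subset hE
    omega
  rw [Set.one_lt_ncard] at hdiff
  obtain ⟨a, ha, b, hb, hab⟩ := hdiff
  have hadj := hQ a ha.1 b hb.1 hab
  have heq : tp G a = tp G b := by
    rw [tp_eq]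
    ext w
    by_cases hwa : w = a
    · subst hwa
      exact ⟨fun _ => Or.inr hadj.symm, fun _ => Or.inl rfl⟩
    · by_cases hwb : w = b
      · subst hwb
        exact ⟨fun _ => Or.inl rfl, fun _ => Or.inr hadj⟩
      · have := htw a ha b hb w hwa hwb
        constructor
        · rintro (h' | h')
          · exact absurd h' hwa
          · exact Or.inr (this.1 h')
        · rintro (h' | h')
          · exact absurd h' hwb
          · exact Or.inr (this.2 h')
  obtain ⟨⟨a', _, rfl⟩, _⟩ := ha
  obtain ⟨⟨b', _, rfl⟩, _⟩ := hb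
  rw [hr, hr] at heq
  exact hab (heq ▸ rfl)

/-- the classes with more than one element -/
def multi (G : SimpleGraph V) : Set (TQ G) := {C | ∃ a b, a ≠ b ∧ tp G a = C ∧ tp G b = C}

theorem multi_lt {p m : ℕ} [Fintype V] (h : StarFree p G) (hm : CliqueBound (tq G) m) :
    (multi G).ncard < 2 ^ (m + 1 + p) := by
  classical
  by_contra hcon
  push Not at hcon
  rcases ramsey_set (tq G) (m + 1) p (multi G) hcon with ⟨K, hK, hKc, hKcl⟩ | ⟨I, hI, hIc, hIi⟩
  · have := hm K hKcl
    omega
  · have hch : ∀ C : TQ G, ∃ ab : V × V, C ∈ I → ab.1 ≠ ab.2 ∧ tp G ab.1 = C ∧ tp G ab.2 = C := by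
      intro C
      by_cases hC : C ∈ I
      · obtain ⟨a, b, hab, ha, hb⟩ := hI hC
        exact ⟨(a, b), fun _ => ⟨hab, ha, hb⟩⟩
      · obtain ⟨v, _⟩ := tp_surj C
        exact ⟨(v, v), fun h => absurd h hC⟩
    choose s hs using hch
    let J : Set V := (fun C => (s C).1) '' I
    have hJinj : Set.InjOn (fun C => (s C).1) I := by
      intro C hC D hD hCD
      rw [← (hs C hC).2.1, ← (hs D hD).2.1]
      simp only at hCD
      rw [hCD]
    have hJc : J.ncard = I.ncard := Set.ncard_image_of_injOn hJinj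
    have hJi : ∀ a ∈ J, ∀ b ∈ J, a ≠ b → ¬ G.Adj a b := by
      rintro _ ⟨C, hC, rfl⟩ _ ⟨D, hD, rfl⟩ hne hadj
      have hCD : C ≠ D := fun e => hne (e ▸ rfl)
      apply hIi C hC D hD hCD
      rw [← (hs C hC).2.1, ← (hs D hD).2.1, tq_adj]
      refine ⟨?_, hadj⟩
      rw [(hs C hC).2.1, (hs D hD).2.1]
      exact hCD
    -- the second representative is outside J
    have h2 : ∀ C ∈ I, (s C).2 ∉ J := by
      rintro C hC ⟨D, hD, hDC⟩
      simp only at hDC
      have : C = D := by
        rw [← (hs C hC).2.2, ← hDC, (hs D hD).2.1]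
      subst this
      exact (hs C hC).1 hDC
    have hJconn : Cn G Jᶜ := by
      obtain ⟨v0⟩ := h.conn.nonempty
      have hne : (Jᶜ).Nonempty := by
        by_cases hv : v0 ∈ J
        · obtain ⟨C, hC, _⟩ := hv
          exact ⟨_, h2 C hC⟩
        · exact ⟨v0, hv⟩
      refine ⟨hne, fun A hA hA1 hA2 => ?_⟩
      -- extend A by the points of J whose second representative is in A
      let A' : Set V := A ∪ {v | ∃ C ∈ I, v = (s C).1 ∧ (s C).2 ∈ A}
      obtain ⟨a0, ha0⟩ := hA1
      obtain ⟨b0, hb0, hb0'⟩ := hA2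
      obtain ⟨a, ha, b, hb, hab⟩ := cut_of_connected G h.conn A' ⟨a0, Or.inl ha0⟩ ⟨b0, by
        rintro (h' | ⟨C, hC, hbC, _⟩)
        · exact hb0' h'
        · exact hb0 ⟨C, hC, hbC.symm⟩⟩
      have hbA : b ∉ A := fun h' => hb (Or.inl h')
      -- replace elements of J by their twins
      have htwin : ∀ C ∈ I, ∀ w, w ≠ (s C).2 → G.Adj (s C).1 w → G.Adj (s C).2 w := by
        intro C hC w hw hadj
        have heq : clN G (s C).1 = clN G (s C).2 := by
          rw [← tp_eq, (hs C hC).2.1, (hs C hC).2.2]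
        have : w ∈ clN G (s C).2 := by
          rw [← heq]; exact Or.inr hadj
        rcases this with h' | h'
        · exact absurd h' hw
        · exact h'
      by_cases hbJ : b ∈ J
      · obtain ⟨D, hD, hDb⟩ := hbJ
        simp only at hDb
        have hbD : (s D).2 ∉ A := fun h' => hb (Or.inr ⟨D, hD, hDb.symm, h'⟩)
        rcases ha with ha | ⟨C, hC, haC, hCA⟩
        · refine ⟨a, ha, (s D).2, ⟨h2 D hD, hbD⟩, ?_⟩
          apply (htwin D hD a _ _).symm
          · intro e
            exact hbD (e ▸ ha)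
          · rw [hDb]; exact hab.symm
        · exfalso
          exact hJi a ⟨C, hC, haC.symm⟩ b ⟨D, hD, hDb⟩ hab.ne hab
      · rcases ha with ha | ⟨C, hC, haC, hCA⟩
        · exact ⟨a, ha, b, ⟨hbJ, hbA⟩, hab⟩
        · refine ⟨(s C).2, hCA, b, ⟨hbJ, hbA⟩, htwin C hC b ?_ (haC ▸ hab)⟩
          intro e
          exact hbA (e ▸ hCA)
    have := ncard_indep h hJi hJconn
    omega

end twin

/-! ### Paths -/

/-- A connected set in which every vertex has at most two neighbours, with a vertex `x` having
at most one, is enumerated as a path starting at `x`. -/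
theorem path_enum {V : Type} [Fintype V] {H : SimpleGraph V} : ∀ (k : ℕ) (K : Set V) (x : V),
    K.ncard = k + 1 → Cn H K → x ∈ K →
    (∀ v ∈ K, ∀ a ∈ K, ∀ b ∈ K, ∀ c ∈ K, H.Adj v a → H.Adj v b → H.Adj v c →
      a = b ∨ a = c ∨ b = c) →
    (∀ a ∈ K, ∀ b ∈ K, H.Adj x a → H.Adj x b → a = b) →
    ∃ e : ℕ → V, e 0 = x ∧ (∀ i ≤ k, e i ∈ K) ∧ (∀ v ∈ K, ∃ i ≤ k, e i = v) ∧
      (∀ i ≤ k, ∀ j ≤ k, e i = e j → i = j) ∧
      ∀ i ≤ k, ∀ j ≤ k, H.Adj (e i) (e j) ↔ (j = i + 1 ∨ i = j + 1) := by
  classical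
  intro k
  induction k with
  | zero =>
    intro K x hK _ hx _ _
    rw [Set.ncard_eq_one] at hK
    obtain ⟨y, rfl⟩ := hK
    have hxy : x = y := hx
    subst hxy
    refine ⟨fun _ => x, rfl, fun _ _ => rfl, fun v hv => ⟨0, le_rfl, ?_⟩, ?_, ?_⟩
    · exact (Set.mem_singleton_iff.1 hv).symm
    · intro i hi j hj _
      omega
    · intro i hi j hj
      constructor
      · intro h
        exact absurd h (H.loopless.irrefl _)
      · intro h
        omega
  | succ k ih =>
    intro K x hK hc hx h3 h2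
    -- the neighbour of x
    have hne : (K \ {x}).Nonempty := by
      rw [← Set.ncard_pos, Set.ncard_diff_singleton_of_mem hx]
      omega
    obtain ⟨a, ha, y, hy, hay⟩ := hc.2 {x} (Set.singleton_subset_iff.2 hx) ⟨x, rfl⟩ hne
    have hax : a = x := ha
    subst hax
    have hc' : Cn H (K \ {a}) := by
      refine ⟨hne, fun A hA hA1 hA2 => ?_⟩
      by_cases hyA : y ∈ A
      · obtain ⟨b, hb, c, hc1, hbc⟩ := hc.2 (insert a A) (Set.insert_subset hx
          (fun v hv => (hA hv).1)) ⟨a, Or.inl rfl⟩ (by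
            obtain ⟨c, hc1, hc2⟩ := hA2
            exact ⟨c, hc1.1, fun h => by
              rcases h with h | h
              · exact hc1.2 h
              · exact hc2 h⟩)
        have hcA : c ∉ A := fun h => hc1.2 (Or.inr h)
        have hca : c ≠ a := fun h => hc1.2 (Or.inl h)
        rcases hb with rfl | hb
        · exact absurd (h2 c hc1.1 y hy.1 hbc hay ▸ hyA) hcA
        · exact ⟨b, hb, c, ⟨⟨hc1.1, hca⟩, hcA⟩, hbc⟩
      · obtain ⟨b, hb, c, hc1, hbc⟩ := hc.2 A (fun v hv => (hA hv).1) hA1 (by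
            obtain ⟨c, hc1, hc2⟩ := hA2
            exact ⟨c, hc1.1, hc2⟩)
        have hca : c ≠ a := by
          rintro rfl
          have := h2 b (hA hb).1 y hy.1 hbc.symm hay
          exact hyA (this ▸ hb)
        exact ⟨b, hb, c, ⟨⟨hc1.1, hca⟩, hc1.2⟩, hbc⟩
    have hcard : (K \ {a}).ncard = k + 1 := by
      rw [Set.ncard_diff_singleton_of_mem hx]
      omega
    obtain ⟨e, he0, heK, hesurj, heinj, head⟩ := ih (K \ {a}) y hcard hc' hy
      (fun v hv b hb c hc d hd h1 h2' h3' => h3 v hv.1 b hb.1 c hc.1 d hd.1 h1 h2' h3')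
      (fun b hb c hc h1 h1' => by
        rcases h3 y hy.1 b hb.1 c hc.1 a hx h1 h1' hay.symm with h | h | h
        · exact h
        · exact absurd h hb.2
        · exact absurd h hc.2)
    refine ⟨fun i => if i = 0 then a else e (i - 1), by simp, ?_, ?_, ?_, ?_⟩
    · intro i hi
      by_cases h0 : i = 0
      · simp only [h0, if_true]; exact hx
      · simp only [h0, if_false]
        exact (heK (i - 1) (by omega)).1
    · intro v hv
      by_cases hva : v = a
      · exact ⟨0, by omega, by simp [hva]⟩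
      · obtain ⟨i, hi, hiv⟩ := hesurj v ⟨hv, hva⟩
        exact ⟨i + 1, by omega, by simpa using hiv⟩
    · intro i hi j hj hij
      simp only at hij
      by_cases hi0 : i = 0 <;> by_cases hj0 : j = 0
      · omega
      · rw [if_pos hi0, if_neg hj0] at hij
        exact absurd hij.symm (heK (j - 1) (by omega)).2
      · rw [if_neg hi0, if_pos hj0] at hij
        exact absurd hij (heK (i - 1) (by omega)).2
      · rw [if_neg hi0, if_neg hj0] at hij
        have := heinj _ (by omega) _ (by omega) hij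
        omega
    · -- adjacency
      have hadj0 : ∀ j ≤ k, H.Adj a (e j) ↔ j = 0 := by
        intro j hj
        constructor
        · intro h
          have h5 := h2 (e j) (heK j hj).1 y hy.1 h hay
          rw [← he0] at h5
          exact heinj j hj 0 (by omega) h5
        · rintro rfl
          rw [he0]; exact hay
      intro i hi j hj
      simp only
      by_cases hi0 : i = 0 <;> by_cases hj0 : j = 0
      · rw [if_pos hi0, if_pos hj0]
        constructor
        · intro h; exact absurd h (H.loopless.irrefl _)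
        · intro h; omega
      · rw [if_pos hi0, if_neg hj0, hadj0 _ (by omega)]
        omega
      · rw [if_neg hi0, if_pos hj0, H.adj_comm, hadj0 _ (by omega)]
        omega
      · rw [if_neg hi0, if_neg hj0, head _ (by omega) _ (by omega)]
        omega

end Pool.Agent.H67.WQ
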