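import Pool.Agent.H67.WQ.Suff

set_option autoImplicit false

namespace Pool.Agent.H67.WQ

/-- connected graphs without `K_{1,3}` and `K_K` minus two disjoint edges as contractions -/
structure InTwo (K : ℕ) {V : Type} (G : SimpleGraph V) : Prop where
  star : StarFree 3 G
  noM : ∀ (W : Type) [Fintype W] (H : SimpleGraph W) (f : V → W), IsModel G H f →
    (∃ z : Fin 4 → W, Function.Injective z ∧ ¬ H.Adj (z 0) (z 1) ∧ ¬ H.Adj (z 2) (z 3) ∧
      ∀ i j, i ≠ j → ¬ H.Adj i j → (i = z 0 ∧ j = z 1) ∨ (i = z 1 ∧ j = z 0) ∨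
        (i = z 2 ∧ j = z 3) ∨ (i = z 3 ∧ j = z 2)) → Fintype.card W < K

section basic
variable {V : Type} [Fintype V] {G : SimpleGraph V}

theorem exists_enum {S : Set V} {s : ℕ} (h : S.ncard = s) :
    ∃ e : Fin s → V, Function.Injective e ∧ ∀ i, e i ∈ S := by
  classical
  have hc : S.toFinset.card = s := by rw [← Set.ncard_eq_toFinset_card', h]
  refine ⟨fun i => (S.toFinset.equivFinOfCardEq hc).symm i, ?_, ?_⟩
  · intro i j hij
    exact (S.toFinset.equivFinOfCardEq hc).symm.injective (Subtype.ext hij)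
  · intro i
    exact Set.mem_toFinset.1 ((S.toFinset.equivFinOfCardEq hc).symm i).2

theorem three (h : StarFree 3 G) {S : Set V} (hS : Cn G S) (P : Fin 3 → Set V)
    (hdisj : ∀ i j, i ≠ j → ∀ v, v ∈ P i → v ∈ P j → False) :
    ∃ i, ∀ x ∉ S, ∃ s ∈ S, s ∉ P i ∧ ∃ y ∈ comp G S x, G.Adj s y := by
  by_contra hcon
  push Not at hcon
  choose x hx hxP using hcon
  have hinj : Function.Injective (fun i => comp G S (x i)) := by
    intro i j hij
    by_contra hne
    obtain ⟨s, hs, y, hy, hsy⟩ := exists_attach h.conn hS.1 (hx i)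
    have h1 : s ∈ P i := by
      by_contra hsP
      exact hxP i s hs hsP y hy hsy
    have h2 : s ∈ P j := by
      by_contra hsP
      simp only at hij
      exact hxP j s hs hsP y (hij ▸ hy) hsy
    exact hdisj i j hne s h1 h2
  have h1 := ncard_comps h hS
  have h2 : (Set.range (fun i => comp G S (x i))).ncard = 3 := by
    rw [Set.ncard_range_of_injective hinj]; simp
  have h3 : Set.range (fun i => comp G S (x i)) ⊆ Comps G S := by
    rintro _ ⟨i, rfl⟩
    exact ⟨x i, hx i, rfl⟩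
  have h4 := Set.ncard_le_ncard h3 (Set.toFinite _)
  omega

/-- There are no nine pairwise nonadjacent vertices attached to a connected set. -/
theorem no_indep9 (h : StarFree 3 G) {Q : Set V} (hQ : Cn G Q) (x : Fin 3 × Fin 3 → V)
    (hinj : Function.Injective x) (hxQ : ∀ i, x i ∉ Q) (hatt : ∀ i, ∃ q ∈ Q, G.Adj (x i) q)
    (hind : ∀ i j, i ≠ j → ¬ G.Adj (x i) (x j)) : False := by
  set S := Q ∪ Set.range x with hSdef
  have hS : Cn G S := by
    apply cn_of_base hQ Set.subset_union_left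
    rintro v (hv | ⟨i, rfl⟩)
    · exact ⟨{v}, Set.singleton_subset_iff.2 (Or.inl hv), cn_singleton G v, rfl,
        Or.inl ⟨v, hv, rfl⟩⟩
    · obtain ⟨q, hq, hadj⟩ := hatt i
      exact ⟨{x i}, Set.singleton_subset_iff.2 (Or.inr ⟨i, rfl⟩), cn_singleton G _, rfl,
        Or.inr ⟨q, hq, x i, rfl, hadj.symm⟩⟩
  obtain ⟨i, hi⟩ := three h hS (fun i => Set.range fun j => x (i, j)) (by
    rintro i j hij v ⟨a, rfl⟩ ⟨b, hb⟩
    have := hinj hb
    exact hij (congrArg Prod.fst this).symm)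
  set I := Set.range fun j => x (i, j) with hI
  have hQI : Q ⊆ Iᶜ := by
    rintro q hq ⟨j, rfl⟩
    exact hxQ _ hq
  have hc : Cn G Iᶜ := by
    apply cn_of_base hQ hQI
    intro v hv
    by_cases hvQ : v ∈ Q
    · exact ⟨{v}, Set.singleton_subset_iff.2 hv, cn_singleton G v, rfl, Or.inl ⟨v, hvQ, rfl⟩⟩
    by_cases hvx : ∃ a, x a = v
    · obtain ⟨a, rfl⟩ := hvx
      obtain ⟨q, hq, hadj⟩ := hatt a
      exact ⟨{x a}, Set.singleton_subset_iff.2 hv, cn_singleton G _, rfl,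
        Or.inr ⟨q, hq, x a, rfl, hadj.symm⟩⟩
    have hvS : v ∉ S := by
      rintro (hv' | hv')
      · exact hvQ hv'
      · exact hvx hv'
    obtain ⟨s, hs, hsI, y, hy, hsy⟩ := hi v hvS
    have hcI : comp G S v ⊆ Iᶜ := by
      rintro w hw ⟨j, rfl⟩
      exact comp_disj hw (Or.inr ⟨_, rfl⟩)
    rcases hs with hs | ⟨a, rfl⟩
    · exact ⟨comp G S v, hcI, cn_comp hvS, mem_comp_self hvS, Or.inr ⟨s, hs, y, hy, hsy⟩⟩
    · obtain ⟨q, hq, hadj⟩ := hatt a
      refine ⟨insert (x a) (comp G S v), Set.insert_subset hsI hcI,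
        cn_insert (cn_comp hvS) hy hsy.symm, Or.inr (mem_comp_self hvS),
        Or.inr ⟨q, hq, x a, Or.inl rfl, hadj.symm⟩⟩
  have h1 := ncard_indep h (I := I) (by
    rintro _ ⟨a, rfl⟩ _ ⟨b, rfl⟩ hab
    exact hind _ _ (fun e => hab (congrArg x e))) hc
  have h2 : I.ncard = 3 := by
    rw [hI, Set.ncard_range_of_injective]
    · simp
    · intro a b hab
      have := hinj hab
      exact congrArg Prod.snd this
  omega

/-- Absorbing the components: if four vertices forming a four-cycle and sufficiently many other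
sets are given, some component is attached to the four vertices only. -/
theorem absorb {K : ℕ} (h : InTwo K G) (z : Fin 4 → V) (hz : Function.Injective z)
    (h01 : ¬ G.Adj (z 0) (z 1)) (h23 : ¬ G.Adj (z 2) (z 3))
    (h02 : G.Adj (z 0) (z 2)) (h03 : G.Adj (z 0) (z 3)) (h12 : G.Adj (z 1) (z 2))
    (h13 : G.Adj (z 1) (z 3)) {ι : Type} [Fintype ι] (hι : K ≤ Fintype.card ι + 4)
    (A : ι → Set V) (hA : ∀ i, Cn G (A i)) (hdisj : ∀ i j v, v ∈ A i → v ∈ A j → i = j)
    (hzA : ∀ i j, z j ∉ A i) (hAA : ∀ i j, i ≠ j → ∃ x ∈ A i, ∃ y ∈ A j, G.Adj x y)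
    (hAz : ∀ i j, ∃ x ∈ A i, G.Adj x (z j)) :
    ∃ x, x ∉ (Set.range z ∪ ⋃ i, A i) ∧ ∀ s ∈ (Set.range z ∪ ⋃ i, A i),
      (∃ y ∈ comp G (Set.range z ∪ ⋃ i, A i) x, G.Adj s y) → s ∈ Set.range z := by
  classical
  set S := Set.range z ∪ ⋃ i, A i with hS
  by_contra hcon
  push Not at hcon
  let β : V → Fin 4 ⊕ ι := fun v => if hv : ∃ i, v ∈ A i then Sum.inr hv.choose
    else if hv' : ∃ j, z j = v then Sum.inl hv'.choose else Sum.inl 0
  have hβA : ∀ i v, v ∈ A i → β v = Sum.inr i := by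
    intro i v hv
    have hex : ∃ i, v ∈ A i := ⟨i, hv⟩
    simp only [β]
    rw [dif_pos hex]
    exact congrArg Sum.inr (hdisj _ _ v hex.choose_spec hv)
  have hβz : ∀ j, β (z j) = Sum.inl j := by
    intro j
    have hex : ¬ ∃ i, z j ∈ A i := by
      rintro ⟨i, hi⟩
      exact hzA i j hi
    have hex' : ∃ j', z j' = z j := ⟨j, rfl⟩
    simp only [β]
    rw [dif_neg hex, dif_pos hex']
    exact congrArg Sum.inl (hz hex'.choose_spec)
  have hβS : ∀ v ∈ S, ∀ w, β v = w → (∃ j, w = Sum.inl j ∧ v = z j) ∨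
      ∃ i, w = Sum.inr i ∧ v ∈ A i := by
    rintro v (⟨j, rfl⟩ | hv) w hw
    · left
      rw [hβz] at hw
      exact ⟨j, hw.symm, rfl⟩
    · right
      rw [Set.mem_iUnion] at hv
      obtain ⟨i, hi⟩ := hv
      rw [hβA i v hi] at hw
      exact ⟨i, hw.symm, hi⟩
  have hfib : ∀ w, Cn G {v | v ∈ S ∧ β v = w} := by
    rintro (j | i)
    · have : {v | v ∈ S ∧ β v = Sum.inl j} = {z j} := by
        ext v
        constructor
        · rintro ⟨hv, hvw⟩
          rcases hβS v hv _ hvw with ⟨j', h1, h2⟩ | ⟨i, h1, _⟩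
          · rw [Sum.inl_injective h1]; exact h2
          · exact absurd h1 (by simp)
        · intro hv
          have hv' : v = z j := hv
          rw [hv']
          exact ⟨Or.inl ⟨j, rfl⟩, hβz j⟩
      rw [this]; exact cn_singleton _ _
    · have : {v | v ∈ S ∧ β v = Sum.inr i} = A i := by
        ext v
        constructor
        · rintro ⟨hv, hvw⟩
          rcases hβS v hv _ hvw with ⟨j', h1, h2⟩ | ⟨i', h1, h2⟩
          · exact absurd h1 (by simp)
          · rw [Sum.inr_injective h1]; exact h2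
        · intro hv
          exact ⟨Or.inr (Set.mem_iUnion.2 ⟨i, hv⟩), hβA i v hv⟩
      rw [this]; exact hA i
  let κ : Set V → Fin 4 ⊕ ι := fun D =>
    if hD : ∃ i : ι, ∃ s ∈ A i, ∃ y ∈ D, G.Adj s y then Sum.inr hD.choose else Sum.inl 0
  have hκ : ∀ x ∉ S, ∃ i : ι, κ (comp G S x) = Sum.inr i ∧ ∃ s ∈ A i, ∃ y ∈ comp G S x,
      G.Adj s y := by
    intro x hx
    obtain ⟨s, hs, ⟨y, hy, hsy⟩, hsz⟩ := hcon x hx
    have hD : ∃ i : ι, ∃ s ∈ A i, ∃ y ∈ comp G S x, G.Adj s y := by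
      rcases hs with hs | hs
      · exact absurd hs hsz
      · rw [Set.mem_iUnion] at hs
        obtain ⟨i, hi⟩ := hs
        exact ⟨i, s, hi, y, hy, hsy⟩
    refine ⟨hD.choose, ?_, hD.choose_spec⟩
    simp only [κ]
    rw [dif_pos hD]
  let f : V → Fin 4 ⊕ ι := fun v => if v ∈ S then β v else κ (comp G S v)
  have hf : ∀ w, Cn G {v | f v = w} := by
    apply cn_fiber β κ hfib
    intro x hx
    obtain ⟨i, hi, s, hs, hy⟩ := hκ x hx
    exact ⟨s, Or.inr (Set.mem_iUnion.2 ⟨i, hs⟩), by rw [hi, hβA i s hs], hy⟩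
  have hfz : ∀ v j, f v = Sum.inl j → v = z j := by
    intro v j hv
    simp only [f] at hv
    by_cases hvS : v ∈ S
    · rw [if_pos hvS] at hv
      rcases hβS v hvS _ hv with ⟨j', h1, h2⟩ | ⟨i, h1, _⟩
      · rw [Sum.inl_injective h1]; exact h2
      · exact absurd h1 (by simp)
    · rw [if_neg hvS] at hv
      obtain ⟨i, hi, _⟩ := hκ v hvS
      rw [hi] at hv
      exact absurd hv (by simp)
  have hfz' : ∀ j, f (z j) = Sum.inl j := by
    intro j
    have hj : z j ∈ S := Or.inl ⟨j, rfl⟩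
    simp only [f]
    rw [if_pos hj, hβz]
  have hfA : ∀ i v, v ∈ A i → f v = Sum.inr i := by
    intro i v hv
    have hvS : v ∈ S := Or.inr (Set.mem_iUnion.2 ⟨i, hv⟩)
    simp only [f]
    rw [if_pos hvS, hβA i v hv]
  have hcard := h.noM (Fin 4 ⊕ ι) (quo G f) f (isModel_quo hf) ⟨Sum.inl, Sum.inl_injective,
    ?_, ?_, ?_⟩
  · rw [Fintype.card_sum, Fintype.card_fin] at hcard
    omega
  · rintro ⟨_, x, y, hx, hy, hxy⟩
    rw [hfz x _ hx, hfz y _ hy] at hxy
    exact h01 hxy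
  · rintro ⟨_, x, y, hx, hy, hxy⟩
    rw [hfz x _ hx, hfz y _ hy] at hxy
    exact h23 hxy
  · intro i j hij hn
    have hzz : ∀ a b : Fin 4, G.Adj (z a) (z b) → (quo G f).Adj (Sum.inl a) (Sum.inl b) := by
      intro a b hab
      refine ⟨?_, z a, z b, hfz' a, hfz' b, hab⟩
      intro e
      have := Sum.inl_injective e
      subst this
      exact hab.ne rfl
    rcases i with a | a <;> rcases j with b | b
    · have hab : a ≠ b := fun e => hij (congrArg Sum.inl e)
      have key : ¬ G.Adj (z a) (z b) := fun h' => hn (hzz a b h')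
      fin_cases a <;> fin_cases b
      · exact absurd rfl hab
      · exact Or.inl ⟨rfl, rfl⟩
      · exact absurd h02 key
      · exact absurd h03 key
      · exact Or.inr (Or.inl ⟨rfl, rfl⟩)
      · exact absurd rfl hab
      · exact absurd h12 key
      · exact absurd h13 key
      · exact absurd h02.symm key
      · exact absurd h12.symm key
      · exact absurd rfl hab
      · exact Or.inr (Or.inr (Or.inl ⟨rfl, rfl⟩))
      · exact absurd h03.symm key
      · exact absurd h13.symm key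
      · exact Or.inr (Or.inr (Or.inr ⟨rfl, rfl⟩))
      · exact absurd rfl hab
    · exfalso
      obtain ⟨x, hx, hxz⟩ := hAz b a
      exact hn ⟨by simp, z a, x, hfz' a, hfA b x hx, hxz.symm⟩
    · exfalso
      obtain ⟨x, hx, hxz⟩ := hAz a b
      exact hn ⟨by simp, x, z b, hfA a x hx, hfz' b, hxz⟩
    · exfalso
      have hab : a ≠ b := fun e => hij (congrArg Sum.inr e)
      obtain ⟨x, hx, y, hy, hxy⟩ := hAA a b hab
      exact hn ⟨hij, x, y, hfA a x hx, hfA b y hy, hxy⟩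

/-- private elements -/
theorem exists_private (X : Set V) (T : V → Set V) (R n : ℕ) (hR : ∀ x ∈ X, (T x).ncard ≤ R)
    (U : Set V) (hU : ∀ u ∈ U, ∃ x ∈ X, u ∈ T x) (hn : R * n < U.ncard) :
    ∃ F ⊆ X, n < F.ncard ∧ ∃ u : V → V, ∀ x ∈ F, u x ∈ U ∧ u x ∈ T x ∧
      ∀ x' ∈ F, x' ≠ x → u x ∉ T x' := by
  classical
  -- a minimal cover
  have hex : ∃ k, ∃ F ⊆ X, F.ncard = k ∧ ∀ u ∈ U, ∃ x ∈ F, u ∈ T x :=
    ⟨X.ncard, X, Set.Subset.rfl, rfl, hU⟩
  obtain ⟨F, hF, hFc, hFU⟩ := Nat.find_spec hex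
  have hmin : ∀ F' ⊆ X, F'.ncard < F.ncard → ∃ u ∈ U, ∀ x ∈ F', u ∉ T x := by
    intro F' hF' hlt
    rw [hFc] at hlt
    by_contra hcon
    push Not at hcon
    exact Nat.find_min hex hlt ⟨F', hF', rfl, hcon⟩
  refine ⟨F, hF, ?_, ?_⟩
  · by_contra hle
    push Not at hle
    have hfin : F.Finite := Set.toFinite _
    have h1 : U ⊆ ⋃ x ∈ hfin.toFinset, T x := by
      intro u hu
      obtain ⟨x, hx, hux⟩ := hFU u hu
      simp only [Set.mem_iUnion]
      exact ⟨x, hfin.mem_toFinset.2 hx, hux⟩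
    have h2 := Set.ncard_le_ncard h1 (Set.toFinite _)
    have h3 := Finset.set_ncard_biUnion_le hfin.toFinset T
    have h4 : ∑ x ∈ hfin.toFinset, (T x).ncard ≤ hfin.toFinset.card • R := by
      apply Finset.sum_le_card_nsmul
      intro x hx
      exact hR x (hF (hfin.mem_toFinset.1 hx))
    rw [← Set.ncard_eq_toFinset_card _ hfin, smul_eq_mul] at h4
    have h5 : F.ncard * R ≤ n * R := Nat.mul_le_mul_right R hle
    have h6 : n * R = R * n := Nat.mul_comm _ _
    omega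
  · have : ∀ x, ∃ u, x ∈ F → u ∈ U ∧ u ∈ T x ∧ ∀ x' ∈ F, x' ≠ x → u ∉ T x' := by
      intro x
      by_cases hx : x ∈ F
      · have hlt : (F \ {x}).ncard < F.ncard := Set.ncard_sdiff_singleton_lt_of_mem hx
        obtain ⟨u, hu, hun⟩ := hmin (F \ {x}) (fun y hy => hF hy.1) hlt
        refine ⟨u, fun _ => ⟨hu, ?_, fun x' hx' hne => hun x' ⟨hx', hne⟩⟩⟩
        obtain ⟨y, hy, huy⟩ := hFU u hu
        by_cases hyx : y = x
        · rw [← hyx]; exact huy
        · exact absurd huy (hun y ⟨hy, hyx⟩)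
      · exact ⟨x, fun h' => absurd h' hx⟩
    choose u hu using this
    exact ⟨u, fun x hx => hu x hx⟩

end basic

end Pool.Agent.H67.WQ
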