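import Pool.Agent.H67.WQ.Two

set_option autoImplicit false

namespace Pool.Agent.H67.WQ

/-- the neighbours in `Q` -/
def TT {V : Type} (G : SimpleGraph V) (Q : Set V) (x : V) : Set V := {q | q ∈ Q ∧ G.Adj x q}

/-- the nonneighbours in `Q` -/
def MM {V : Type} (G : SimpleGraph V) (Q : Set V) (x : V) : Set V := {q | q ∈ Q ∧ ¬ G.Adj x q}

section big
variable {V : Type} [Fintype V] {G : SimpleGraph V}

theorem cn_union_range {Q : Set V} (hQ : Cn G Q) {s : ℕ} (x : Fin s → V)
    (hatt : ∀ i, ∃ q ∈ Q, G.Adj (x i) q) : Cn G (Q ∪ Set.range x) := by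
  apply cn_of_base hQ Set.subset_union_left
  rintro v (hv | ⟨i, rfl⟩)
  · exact ⟨{v}, Set.singleton_subset_iff.2 (Or.inl hv), cn_singleton G v, rfl,
      Or.inl ⟨v, hv, rfl⟩⟩
  · obtain ⟨q, hq, hadj⟩ := hatt i
    exact ⟨{x i}, Set.singleton_subset_iff.2 (Or.inr ⟨i, rfl⟩), cn_singleton G _, rfl,
      Or.inr ⟨q, hq, x i, rfl, hadj.symm⟩⟩

/-- the pairs of indices -/
def ia {s : ℕ} (hs : 6 ≤ s) (i : Fin 3) : Fin s := ⟨2 * i, by omega⟩
def ib {s : ℕ} (hs : 6 ≤ s) (i : Fin 3) : Fin s := ⟨2 * i + 1, by omega⟩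

theorem ia_ne {s : ℕ} (hs : 6 ≤ s) (i j : Fin 3) : ia hs i ≠ ib hs j := by
  intro e
  have := congrArg Fin.val e
  simp only [ia, ib] at this
  omega

theorem ia_inj {s : ℕ} (hs : 6 ≤ s) {i j : Fin 3} (e : ia hs i = ia hs j) : i = j := by
  have := congrArg Fin.val e
  simp only [ia] at this
  apply Fin.ext
  omega

theorem ib_inj {s : ℕ} (hs : 6 ≤ s) {i j : Fin 3} (e : ib hs i = ib hs j) : i = j := by
  have := congrArg Fin.val e
  simp only [ib] at this
  apply Fin.ext
  omega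

theorem card_ne_two {s : ℕ} {a b : Fin s} (hab : a ≠ b) :
    Fintype.card {l : Fin s // l ≠ a ∧ l ≠ b} + 2 = s := by
  have h1 : Fintype.card {l : Fin s // l ≠ a ∧ l ≠ b} =
      ((Finset.univ : Finset (Fin s)) \ {a, b}).card := by
    rw [Fintype.card_subtype]
    congr 1
    ext l
    simp
  rw [h1, Finset.card_sdiff_of_subset (Finset.subset_univ _), Finset.card_pair hab]
  have h2 : ({a, b} : Finset (Fin s)).card ≤ (Finset.univ : Finset (Fin s)).card :=
    Finset.card_le_card (Finset.subset_univ _)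
  rw [Finset.card_pair hab] at h2
  simp only [Finset.card_univ, Fintype.card_fin] at h2 ⊢
  omega

theorem exists_ne_two {s : ℕ} (hs : 4 ≤ s) (a b : Fin s) : ∃ l m : Fin s, l ≠ a ∧ l ≠ b ∧
    m ≠ a ∧ m ≠ b ∧ l ≠ m := by
  have h1 : ∃ l : Fin s, l ∉ ({a, b} : Finset (Fin s)) := by
    by_contra hcon
    push Not at hcon
    have h2 := Finset.card_le_card (fun l _ => hcon l : (Finset.univ : Finset (Fin s)) ⊆ {a, b})
    have h3 : ({a, b} : Finset (Fin s)).card ≤ 2 := Finset.card_le_two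
    simp at h2
    omega
  obtain ⟨l, hl⟩ := h1
  have h1 : ∃ m : Fin s, m ∉ ({a, b, l} : Finset (Fin s)) := by
    by_contra hcon
    push Not at hcon
    have h2 := Finset.card_le_card (fun l _ => hcon l :
      (Finset.univ : Finset (Fin s)) ⊆ {a, b, l})
    have h3 : ({a, b, l} : Finset (Fin s)).card ≤ 3 := Finset.card_le_three
    simp at h2
    omega
  obtain ⟨m, hm⟩ := h1
  simp only [Finset.mem_insert, Finset.mem_singleton, not_or] at hl hm
  exact ⟨l, m, hl.1, hl.2, hm.1, hm.2.1, fun e => hm.2.2 e.symm⟩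

/-- the last step of the two arguments below -/
theorem pair_absurd {Q : Set V} {s : ℕ} (x : Fin s → V) (z : Fin 4 → V) (S0 : Set V)
    (hS0 : S0 ⊆ Q ∪ Set.range x) (hxS0 : ∀ l, x l ∈ S0) {y : V} (hy : y ∉ S0)
    (hyz : ∀ v ∈ S0, (∃ w ∈ comp G S0 y, G.Adj v w) → v ∈ Set.range z)
    (hyQ : ∀ w ∈ comp G S0 y, w ∉ Q)
    (hi : ∀ x' ∉ Q ∪ Set.range x, ∃ v ∈ Q ∪ Set.range x, v ∉ Set.range z ∧
      ∃ w ∈ comp G (Q ∪ Set.range x) x', G.Adj v w) : False := by
  have hyS : y ∉ Q ∪ Set.range x := by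
    rintro (h | ⟨l, hl⟩)
    · exact hyQ y (mem_comp_self hy) h
    · exact hy (hl ▸ hxS0 l)
  obtain ⟨v, hv, hvz, w, hw, hvw⟩ := hi y hyS
  have hw' := comp_mono hS0 y hw
  by_cases hvS0 : v ∈ S0
  · exact hvz (hyz v hvS0 ⟨w, hw', hvw⟩)
  · have hvc : v ∈ comp G S0 y := comp_closed hw' hvS0 hvw.symm
    rcases hv with hv | ⟨l, hl⟩
    · exact hyQ v hvc hv
    · exact hvS0 (hl ▸ hxS0 l)

theorem no_matching {K s : ℕ} (h : InTwo K G) {Q : Set V}
    (hQ : ∀ a ∈ Q, ∀ b ∈ Q, a ≠ b → G.Adj a b) (hs : 6 ≤ s) (hsK : K ≤ s + 2)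
    (x q : Fin s → V) (hxQ : ∀ i, x i ∉ Q) (hq : ∀ i, q i ∈ Q)
    (hxx : ∀ i j, i ≠ j → G.Adj (x i) (x j)) (hxq : ∀ i, G.Adj (x i) (q i))
    (hxq' : ∀ i j, i ≠ j → ¬ G.Adj (x i) (q j)) : False := by
  classical
  have hqinj : ∀ i j, q i = q j → i = j := by
    intro i j hij
    by_contra hne
    exact hxq' i j hne (hij ▸ hxq i)
  have hxinj : ∀ i j, x i = x j → i = j := by
    intro i j hij
    by_contra hne
    exact (hxx i j hne).ne hij
  have hxqne : ∀ i j, x i ≠ q j := fun i j e => hxQ i (e ▸ hq j)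
  have hQc : Cn G Q := cn_of_clique G ⟨_, hq ⟨0, by omega⟩⟩ hQ
  have hS : Cn G (Q ∪ Set.range x) := cn_union_range hQc x fun i => ⟨q i, hq i, hxq i⟩
  let z : Fin 3 → Fin 4 → V := fun i =>
    ![x (ia hs i), q (ib hs i), x (ib hs i), q (ia hs i)]
  have hz : ∀ i v, v ∈ Set.range (z i) → v = x (ia hs i) ∨ v = q (ib hs i) ∨ v = x (ib hs i) ∨
      v = q (ia hs i) := by
    rintro i _ ⟨j, rfl⟩
    fin_cases j <;> simp [z]
  obtain ⟨i, hi⟩ := three h.star hS (fun i => Set.range (z i)) (by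
    intro i j hij v hvi hvj
    rcases hz i v hvi with h1 | h1 | h1 | h1 <;> rcases hz j v hvj with h2 | h2 | h2 | h2
    · exact hij (ia_inj hs (hxinj _ _ (h1.symm.trans h2)))
    · exact hxqne _ _ (h1.symm.trans h2)
    · exact ia_ne hs _ _ (hxinj _ _ (h1.symm.trans h2))
    · exact hxqne _ _ (h1.symm.trans h2)
    · exact hxqne _ _ (h2.symm.trans h1)
    · exact hij (ib_inj hs (hqinj _ _ (h1.symm.trans h2)))
    · exact hxqne _ _ (h2.symm.trans h1)
    · exact ia_ne hs _ _ (hqinj _ _ (h2.symm.trans h1))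
    · exact ia_ne hs _ _ (hxinj _ _ (h2.symm.trans h1))
    · exact hxqne _ _ (h1.symm.trans h2)
    · exact hij (ib_inj hs (hxinj _ _ (h1.symm.trans h2)))
    · exact hxqne _ _ (h1.symm.trans h2)
    · exact hxqne _ _ (h2.symm.trans h1)
    · exact ia_ne hs _ _ (hqinj _ _ (h1.symm.trans h2))
    · exact hxqne _ _ (h2.symm.trans h1)
    · exact hij (ia_inj hs (hqinj _ _ (h1.symm.trans h2))))
  set a := ia hs i with ha
  set b := ib hs i with hb
  have hab : a ≠ b := ia_ne hs i i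
  let ι := {l : Fin s // l ≠ a ∧ l ≠ b}
  let A : ι → Set V := fun l => {x l, q l}
  have hAmem : ∀ (l : ι) v, v ∈ A l → v = x l ∨ v = q l := fun l v hv => hv
  obtain ⟨y, hy, hyz⟩ := absorb h (z i) (by
      intro j k hjk
      fin_cases j <;> fin_cases k <;> simp [z] at hjk ⊢
      · exact hxqne _ _ hjk
      · exact hab (hxinj _ _ hjk)
      · exact hxqne _ _ hjk
      · exact hxqne _ _ hjk.symm
      · exact hxqne _ _ hjk.symm
      · exact hab (hqinj _ _ hjk.symm)
      · exact hab (hxinj _ _ hjk.symm)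
      · exact hxqne _ _ hjk
      · exact hxqne _ _ hjk
      · exact hxqne _ _ hjk.symm
      · exact hab (hqinj _ _ hjk)
      · exact hxqne _ _ hjk.symm)
    (hxq' a b hab) (hxq' b a hab.symm) (hxx a b hab) (hxq a) (hxq b).symm
    (hQ _ (hq b) _ (hq a) (fun e => hab (hqinj _ _ e).symm)) (ι := ι)
    (by have := card_ne_two hab; change K ≤ Fintype.card {l : Fin s // l ≠ a ∧ l ≠ b} + 4; omega)
    A (fun l => by
      have := cn_insert (cn_singleton G (q l)) (x := q l) (y := x l) rfl (hxq l).symm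
      exact this)
    (by
      intro l m v hl hm
      apply Subtype.ext
      rcases hAmem l v hl with h1 | h1 <;> rcases hAmem m v hm with h2 | h2
      · exact hxinj _ _ (h1.symm.trans h2)
      · exact absurd (h1.symm.trans h2) (hxqne _ _)
      · exact absurd (h2.symm.trans h1) (hxqne _ _)
      · exact hqinj _ _ (h1.symm.trans h2))
    (by
      rintro ⟨l, hla, hlb⟩ j hj
      rcases hz i _ ⟨j, rfl⟩ with h1 | h1 | h1 | h1 <;> rcases hAmem _ _ hj with h2 | h2
      · exact hla (hxinj _ _ (h2.symm.trans h1))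
      · exact hxqne _ _ (h1.symm.trans h2)
      · exact hxqne _ _ (h2.symm.trans h1)
      · exact hlb (hqinj _ _ (h2.symm.trans h1))
      · exact hlb (hxinj _ _ (h2.symm.trans h1))
      · exact hxqne _ _ (h1.symm.trans h2)
      · exact hxqne _ _ (h2.symm.trans h1)
      · exact hla (hqinj _ _ (h2.symm.trans h1)))
    (by
      intro l m hlm
      refine ⟨q l, Or.inr rfl, q m, Or.inr rfl, hQ _ (hq _) _ (hq _) (fun e => hlm ?_)⟩
      exact Subtype.ext (hqinj _ _ e))
    (by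
      rintro ⟨l, hla, hlb⟩ j
      have e1 : ∀ m, m ≠ l → G.Adj (x l) (x m) := fun m hm => hxx _ _ hm.symm
      have e2 : ∀ m, m ≠ l → G.Adj (q l) (q m) := fun m hm =>
        hQ _ (hq _) _ (hq _) (fun e => hm (hqinj _ _ e).symm)
      fin_cases j
      · exact ⟨x l, Or.inl rfl, e1 _ hla.symm⟩
      · exact ⟨q l, Or.inr rfl, e2 _ hlb.symm⟩
      · exact ⟨x l, Or.inl rfl, e1 _ hlb.symm⟩
      · exact ⟨q l, Or.inr rfl, e2 _ hla.symm⟩)
  set S0 := Set.range (z i) ∪ ⋃ l, A l with hS0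
  have hxS0 : ∀ l, x l ∈ S0 := by
    intro l
    by_cases hla : l = a
    · exact Or.inl ⟨0, by rw [hla]; rfl⟩
    by_cases hlb : l = b
    · exact Or.inl ⟨2, by rw [hlb]; rfl⟩
    exact Or.inr (Set.mem_iUnion.2 ⟨⟨l, hla, hlb⟩, Or.inl rfl⟩)
  have hqS0 : ∀ l, q l ∈ S0 := by
    intro l
    by_cases hla : l = a
    · exact Or.inl ⟨3, by rw [hla]; rfl⟩
    by_cases hlb : l = b
    · exact Or.inl ⟨1, by rw [hlb]; rfl⟩
    exact Or.inr (Set.mem_iUnion.2 ⟨⟨l, hla, hlb⟩, Or.inr rfl⟩)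
  apply pair_absurd x (z i) S0 ?_ hxS0 hy hyz ?_ hi
  · rintro v (hv | hv)
    · rcases hz i v hv with rfl | rfl | rfl | rfl
      · exact Or.inr ⟨_, rfl⟩
      · exact Or.inl (hq _)
      · exact Or.inr ⟨_, rfl⟩
      · exact Or.inl (hq _)
    · rw [Set.mem_iUnion] at hv
      obtain ⟨l, hl⟩ := hv
      rcases hAmem l v hl with rfl | rfl
      · exact Or.inr ⟨_, rfl⟩
      · exact Or.inl (hq _)
  · intro w hw hwQ
    obtain ⟨l, _, hla, hlb, _⟩ := exists_ne_two (s := s) (by omega) a b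
    have hne : q l ≠ w := fun e => comp_disj hw (e ▸ hqS0 l)
    have := hyz (q l) (hqS0 l) ⟨w, hw, hQ _ (hq l) _ hwQ hne⟩
    rcases hz i _ this with h1 | h1 | h1 | h1
    · exact hxqne _ _ h1.symm
    · exact hlb (hqinj _ _ h1)
    · exact hxqne _ _ h1.symm
    · exact hla (hqinj _ _ h1)

theorem no_comatching {K s : ℕ} (h : InTwo K G) {Q : Set V}
    (hQ : ∀ a ∈ Q, ∀ b ∈ Q, a ≠ b → G.Adj a b) (hs : 6 ≤ s) (hsK : K ≤ s + 2)
    (x q : Fin s → V) (hxQ : ∀ i, x i ∉ Q) (hq : ∀ i, q i ∈ Q)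
    (hxx : ∀ i j, i ≠ j → G.Adj (x i) (x j)) (hxq : ∀ i, ¬ G.Adj (x i) (q i))
    (hxq' : ∀ i j, i ≠ j → G.Adj (x i) (q j)) : False := by
  classical
  have hqinj : ∀ i j, q i = q j → i = j := by
    intro i j hij
    by_contra hne
    exact hxq i (hij ▸ hxq' i j hne)
  have hxinj : ∀ i j, x i = x j → i = j := by
    intro i j hij
    by_contra hne
    exact (hxx i j hne).ne hij
  have hxqne : ∀ i j, x i ≠ q j := fun i j e => hxQ i (e ▸ hq j)
  have hQc : Cn G Q := cn_of_clique G ⟨_, hq ⟨0, by omega⟩⟩ hQ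
  have hS : Cn G (Q ∪ Set.range x) := cn_union_range hQc x fun i => by
    obtain ⟨l, _, hl, _⟩ := exists_ne_two (s := s) (by omega) i i
    exact ⟨q l, hq l, hxq' _ _ hl.symm⟩
  let z : Fin 3 → Fin 4 → V := fun i =>
    ![x (ia hs i), q (ia hs i), x (ib hs i), q (ib hs i)]
  have hz : ∀ i v, v ∈ Set.range (z i) → v = x (ia hs i) ∨ v = q (ia hs i) ∨ v = x (ib hs i) ∨
      v = q (ib hs i) := by
    rintro i _ ⟨j, rfl⟩
    fin_cases j <;> simp [z]
  obtain ⟨i, hi⟩ := three h.star hS (fun i => Set.range (z i)) (by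
    intro i j hij v hvi hvj
    rcases hz i v hvi with h1 | h1 | h1 | h1 <;> rcases hz j v hvj with h2 | h2 | h2 | h2
    · exact hij (ia_inj hs (hxinj _ _ (h1.symm.trans h2)))
    · exact hxqne _ _ (h1.symm.trans h2)
    · exact ia_ne hs _ _ (hxinj _ _ (h1.symm.trans h2))
    · exact hxqne _ _ (h1.symm.trans h2)
    · exact hxqne _ _ (h2.symm.trans h1)
    · exact hij (ia_inj hs (hqinj _ _ (h1.symm.trans h2)))
    · exact hxqne _ _ (h2.symm.trans h1)
    · exact ia_ne hs _ _ (hqinj _ _ (h1.symm.trans h2))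
    · exact ia_ne hs _ _ (hxinj _ _ (h2.symm.trans h1))
    · exact hxqne _ _ (h1.symm.trans h2)
    · exact hij (ib_inj hs (hxinj _ _ (h1.symm.trans h2)))
    · exact hxqne _ _ (h1.symm.trans h2)
    · exact hxqne _ _ (h2.symm.trans h1)
    · exact ia_ne hs _ _ (hqinj _ _ (h2.symm.trans h1))
    · exact hxqne _ _ (h2.symm.trans h1)
    · exact hij (ib_inj hs (hqinj _ _ (h1.symm.trans h2))))
  set a := ia hs i with ha
  set b := ib hs i with hb
  have hab : a ≠ b := ia_ne hs i i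
  let ι := {l : Fin s // l ≠ a ∧ l ≠ b}
  let A : ι → Set V := fun l => {x l}
  have hAmem : ∀ (l : ι) v, v ∈ A l → v = x l := fun l v hv => hv
  obtain ⟨y, hy, hyz⟩ := absorb h (z i) (by
      intro j k hjk
      fin_cases j <;> fin_cases k <;> simp [z] at hjk ⊢
      · exact hxqne _ _ hjk
      · exact hab (hxinj _ _ hjk)
      · exact hxqne _ _ hjk
      · exact hxqne _ _ hjk.symm
      · exact hxqne _ _ hjk.symm
      · exact hab (hqinj _ _ hjk)
      · exact hab (hxinj _ _ hjk.symm)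
      · exact hxqne _ _ hjk
      · exact hxqne _ _ hjk
      · exact hxqne _ _ hjk.symm
      · exact hab (hqinj _ _ hjk.symm)
      · exact hxqne _ _ hjk.symm)
    (hxq a) (hxq b) (hxx a b hab) (hxq' a b hab) (hxq' b a hab.symm).symm
    (hQ _ (hq a) _ (hq b) (fun e => hab (hqinj _ _ e))) (ι := ι)
    (by have := card_ne_two hab; change K ≤ Fintype.card {l : Fin s // l ≠ a ∧ l ≠ b} + 4; omega)
    A (fun l => cn_singleton G _)
    (by
      intro l m v hl hm
      apply Subtype.ext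
      exact hxinj _ _ ((hAmem l v hl).symm.trans (hAmem m v hm)))
    (by
      rintro ⟨l, hla, hlb⟩ j hj
      have h2 := hAmem _ _ hj
      rcases hz i _ ⟨j, rfl⟩ with h1 | h1 | h1 | h1
      · exact hla (hxinj _ _ (h2.symm.trans h1))
      · exact hxqne _ _ (h2.symm.trans h1)
      · exact hlb (hxinj _ _ (h2.symm.trans h1))
      · exact hxqne _ _ (h2.symm.trans h1))
    (by
      intro l m hlm
      refine ⟨x l, rfl, x m, rfl, hxx _ _ (fun e => hlm (Subtype.ext e))⟩)
    (by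
      rintro ⟨l, hla, hlb⟩ j
      fin_cases j
      · exact ⟨x l, rfl, hxx _ _ hla⟩
      · exact ⟨x l, rfl, hxq' _ _ hla⟩
      · exact ⟨x l, rfl, hxx _ _ hlb⟩
      · exact ⟨x l, rfl, hxq' _ _ hlb⟩)
  set S0 := Set.range (z i) ∪ ⋃ l, A l with hS0
  have hxS0 : ∀ l, x l ∈ S0 := by
    intro l
    by_cases hla : l = a
    · exact Or.inl ⟨0, by rw [hla]; rfl⟩
    by_cases hlb : l = b
    · exact Or.inl ⟨2, by rw [hlb]; rfl⟩
    exact Or.inr (Set.mem_iUnion.2 ⟨⟨l, hla, hlb⟩, rfl⟩)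
  apply pair_absurd x (z i) S0 ?_ hxS0 hy hyz ?_ hi
  · rintro v (hv | hv)
    · rcases hz i v hv with rfl | rfl | rfl | rfl
      · exact Or.inr ⟨_, rfl⟩
      · exact Or.inl (hq _)
      · exact Or.inr ⟨_, rfl⟩
      · exact Or.inl (hq _)
    · rw [Set.mem_iUnion] at hv
      obtain ⟨l, hl⟩ := hv
      rw [hAmem l v hl]
      exact Or.inr ⟨_, rfl⟩
  · intro w hw hwQ
    obtain ⟨l, m, hla, hlb, hma, hmb, hlm⟩ := exists_ne_two (s := s) (by omega) a b
    have hxm : x m ∉ Set.range (z i) := by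
      intro h'
      rcases hz i _ h' with h1 | h1 | h1 | h1
      · exact hma (hxinj _ _ h1)
      · exact hxqne _ _ h1
      · exact hmb (hxinj _ _ h1)
      · exact hxqne _ _ h1
    have hql : q l ∉ S0 := by
      rintro (h' | h')
      · rcases hz i _ h' with h1 | h1 | h1 | h1
        · exact hxqne _ _ h1.symm
        · exact hla (hqinj _ _ h1)
        · exact hxqne _ _ h1.symm
        · exact hlb (hqinj _ _ h1)
      · rw [Set.mem_iUnion] at h'
        obtain ⟨k, hk⟩ := h'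
        exact hxqne _ _ (hAmem k _ hk).symm
    have hqc : q l ∈ comp G S0 y := by
      by_cases hne : w = q l
      · rw [← hne]; exact hw
      · exact comp_closed hw hql (hQ _ hwQ _ (hq l) hne)
    exact hxm (hyz (x m) (hxS0 m) ⟨q l, hqc, hxq' _ _ hlm.symm⟩)

/-- no nine independent attached vertices, in terms of sets -/
theorem no_indep9_set (h : StarFree 3 G) {Q : Set V} (hQ : Cn G Q) {I : Set V}
    (hI : I.ncard = 9) (hIQ : ∀ x ∈ I, x ∉ Q) (hatt : ∀ x ∈ I, ∃ q ∈ Q, G.Adj x q)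
    (hind : ∀ a ∈ I, ∀ b ∈ I, a ≠ b → ¬ G.Adj a b) : False := by
  obtain ⟨e, he, heI⟩ := exists_enum hI
  let x : Fin 3 × Fin 3 → V := fun p => e (finProdFinEquiv p)
  have hx : Function.Injective x := he.comp finProdFinEquiv.injective
  exact no_indep9 h hQ x hx (fun i => hIQ _ (heI _)) (fun i => hatt _ (heI _))
    (fun i j hij => hind _ (heI _) _ (heI _) (fun e => hij (hx e)))

theorem ncard_compl_le (Q : Set V) (x : V) : (TT G Q x).ncard + (MM G Q x).ncard = Q.ncard := by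
  have h1 : TT G Q x ∪ MM G Q x = Q := by
    ext q
    constructor
    · rintro (h | h)
      · exact h.1
      · exact h.1
    · intro h
      by_cases ha : G.Adj x q
      · exact Or.inl ⟨h, ha⟩
      · exact Or.inr ⟨h, ha⟩
  rw [← Set.ncard_union_eq, h1]
  rw [Set.disjoint_left]
  intro q h h'
  exact h'.2 h.2

/-- the middle vertices -/
def Mid {V : Type} (G : SimpleGraph V) (Q Q' : Set V) (R : ℕ) : Set V :=
  {x | x ∉ Q ∧ R ≤ (TT G Q x).ncard ∧ R ≤ (Q' ∩ MM G Q x).ncard}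

/-- the number of vertices of a clique that is large enough -/
def bigN (K R : ℕ) : ℕ :=
  let N := 2 ^ (K + 6 + 9)
  let R' := R + R * N
  R * N + R' * N + 2 ^ R + R' + 1

theorem middle {K R : ℕ} (h : InTwo K G) {Q : Set V}
    (hQ : ∀ a ∈ Q, ∀ b ∈ Q, a ≠ b → G.Adj a b)
    (htw : ∀ a ∈ Q, ∀ b ∈ Q, clN G a = clN G b → a = b) (hbig : bigN K R ≤ Q.ncard) :
    ∃ Q' ⊆ Q, (∀ x ∉ Q, (TT G Q x).ncard < R → ∀ q ∈ TT G Q x, q ∉ Q') ∧
      R ≤ (Mid G Q Q' R).ncard := by
  classical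
  set N := 2 ^ (K + 6 + 9) with hN
  set R' := R + R * N with hR'
  have hbig' : R * N + R' * N + 2 ^ R + R' + 1 ≤ Q.ncard := hbig
  have h2R : 0 < 2 ^ R := by positivity
  have hQne : Q.Nonempty := by
    rw [← Set.ncard_pos]; omega
  have hQc : Cn G Q := cn_of_clique G hQne hQ
  -- touched vertices
  let X : Set V := {x | x ∉ Q ∧ (TT G Q x).ncard < R}
  let U : Set V := {q | ∃ x ∈ X, q ∈ TT G Q x}
  have hU : U.ncard ≤ R * N := by
    by_contra hcon
    push Not at hcon
    obtain ⟨F, hF, hFc, u, hu⟩ := exists_private X (TT G Q) R N (fun x hx => le_of_lt hx.2) U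
      (fun q hq => hq) hcon
    rcases ramsey_set G (K + 6) 9 F (le_of_lt hFc) with ⟨L, hL, hLc, hLcl⟩ | ⟨I, hI, hIc, hIi⟩
    · obtain ⟨e, he, heL⟩ := exists_enum hLc
      apply no_matching h hQ (s := K + 6) (by omega) (by omega) e (fun i => u (e i))
      · intro i; exact (hF (hL (heL i))).1
      · intro i; exact (hu _ (hL (heL i))).2.1.1
      · intro i j hij
        exact hLcl _ (heL i) _ (heL j) (fun e' => hij (he e'))
      · intro i; exact (hu _ (hL (heL i))).2.1.2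
      · intro i j hij hadj
        exact (hu _ (hL (heL j))).2.2 (e i) (hL (heL i)) (fun e' => hij (he e'))
          ⟨(hu _ (hL (heL j))).2.1.1, hadj⟩
    · apply no_indep9_set h.star hQc hIc (fun x hx => (hF (hI hx)).1) _ hIi
      intro x hx
      exact ⟨u x, (hu x (hI hx)).2.1.1, (hu x (hI hx)).2.1.2⟩
  let X' : Set V := {x | x ∉ Q ∧ (MM G Q x).ncard < R'}
  let U' : Set V := {q | ∃ x ∈ X', q ∈ MM G Q x}
  have hU' : U'.ncard ≤ R' * N := by
    by_contra hcon
    push Not at hcon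
    obtain ⟨F, hF, hFc, u, hu⟩ := exists_private X' (MM G Q) R' N (fun x hx => le_of_lt hx.2) U'
      (fun q hq => hq) hcon
    rcases ramsey_set G (K + 6) 9 F (le_of_lt hFc) with ⟨L, hL, hLc, hLcl⟩ | ⟨I, hI, hIc, hIi⟩
    · obtain ⟨e, he, heL⟩ := exists_enum hLc
      apply no_comatching h hQ (s := K + 6) (by omega) (by omega) e (fun i => u (e i))
      · intro i; exact (hF (hL (heL i))).1
      · intro i; exact (hu _ (hL (heL i))).2.1.1
      · intro i j hij
        exact hLcl _ (heL i) _ (heL j) (fun e' => hij (he e'))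
      · intro i; exact (hu _ (hL (heL i))).2.1.2
      · intro i j hij
        by_contra hadj
        exact (hu _ (hL (heL j))).2.2 (e i) (hL (heL i)) (fun e' => hij (he e'))
          ⟨(hu _ (hL (heL j))).2.1.1, hadj⟩
    · apply no_indep9_set h.star hQc hIc (fun x hx => (hF (hI hx)).1) _ hIi
      intro x hx
      have h1 := ncard_compl_le (G := G) Q x
      have h2 := (hF (hI hx)).2
      have h3 : 0 < (TT G Q x).ncard := by omega
      rw [Set.ncard_pos] at h3
      obtain ⟨q, hq⟩ := h3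
      exact ⟨q, hq.1, hq.2⟩
  refine ⟨Q \ U, Set.sdiff_subset, ?_, ?_⟩
  · rintro x hx hxR q hq ⟨_, hqU⟩
    exact hqU ⟨x, ⟨hx, hxR⟩, hq⟩
  · by_contra hcon
    push Not at hcon
    set M := Mid G Q (Q \ U) R with hM
    -- vertices that are neither touched nor missed
    let Q2 : Set V := (Q \ U) \ U'
    have hQ2 : Q2.ncard + R * N + R' * N ≥ Q.ncard := by
      have h1 := Set.le_ncard_sdiff U Q
      have h2 := Set.le_ncard_sdiff U' (Q \ U)
      change Q.ncard - U.ncard ≤ (Q \ U).ncard at h1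
      change (Q \ U).ncard - U'.ncard ≤ Q2.ncard at h2
      omega
    have hmid : ∀ x, x ∉ Q → (∃ q ∈ Q2, G.Adj x q) → (∃ q ∈ Q2, ¬ G.Adj x q) → x ∈ M := by
      rintro x hx ⟨q, hq, hxq⟩ ⟨q', hq', hxq'⟩
      refine ⟨hx, ?_, ?_⟩
      · by_contra hlt
        push Not at hlt
        exact hq.1.2 ⟨x, ⟨hx, hlt⟩, hq.1.1, hxq⟩
      · have h1 : R' ≤ (MM G Q x).ncard := by
          by_contra hlt
          push Not at hlt
          exact hq'.2 ⟨x, ⟨hx, hlt⟩, hq'.1.1, hxq'⟩
        have h2 : (Q \ U) ∩ MM G Q x = MM G Q x \ U := by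
          ext v
          constructor
          · rintro ⟨h3, h4⟩
            exact ⟨h4, h3.2⟩
          · rintro ⟨h3, h4⟩
            exact ⟨⟨h3.1, h4⟩, h3⟩
        have h3 := Set.le_ncard_sdiff U (MM G Q x)
        rw [h2]
        omega
    let φ : V → Finset V := fun q => M.toFinset.filter (fun x => G.Adj x q)
    have hinj : Set.InjOn φ (Q2.toFinset : Set V) := by
      intro a ha b hb hab
      have ha' : a ∈ Q2 := by simpa using ha
      have hb' : b ∈ Q2 := by simpa using hb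
      have key : ∀ x ∈ M, (G.Adj x a ↔ G.Adj x b) := by
        intro x hx
        have h1 : x ∈ φ a ↔ x ∈ φ b := by rw [hab]
        simp only [φ, Finset.mem_filter, Set.mem_toFinset] at h1
        constructor
        · intro h2; exact (h1.1 ⟨hx, h2⟩).2
        · intro h2; exact (h1.2 ⟨hx, h2⟩).2
      apply htw a ha'.1.1 b hb'.1.1
      by_contra hne
      have hab' : a ≠ b := by
        rintro rfl
        exact hne rfl
      apply hne
      have hadj := hQ a ha'.1.1 b hb'.1.1 hab'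
      have key2 : ∀ w, w ≠ a → w ≠ b → (G.Adj a w ↔ G.Adj b w) := by
        intro w hwa hwb
        by_cases hwQ : w ∈ Q
        · exact ⟨fun _ => hQ b hb'.1.1 w hwQ hwb.symm, fun _ => hQ a ha'.1.1 w hwQ hwa.symm⟩
        · by_cases h1 : G.Adj w a <;> by_cases h2 : G.Adj w b
          · exact ⟨fun _ => h2.symm, fun _ => h1.symm⟩
          · exact absurd ((key w (hmid w hwQ ⟨a, ha', h1⟩ ⟨b, hb', h2⟩)).1 h1) h2
          · exact absurd ((key w (hmid w hwQ ⟨b, hb', h2⟩ ⟨a, ha', h1⟩)).2 h2) h1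
          · exact ⟨fun h3 => absurd h3.symm h1, fun h3 => absurd h3.symm h2⟩
      ext w
      by_cases hwa : w = a
      · subst hwa
        exact ⟨fun _ => Or.inr hadj.symm, fun _ => Or.inl rfl⟩
      · by_cases hwb : w = b
        · subst hwb
          exact ⟨fun _ => Or.inl rfl, fun _ => Or.inr hadj⟩
        · have := key2 w hwa hwb
          constructor
          · rintro (h' | h')
            · exact absurd h' hwa
            · exact Or.inr (this.1 h')
          · rintro (h' | h')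
            · exact absurd h' hwb
            · exact Or.inr (this.2 h')
    have h1 := Finset.card_le_card_of_injOn (s := Q2.toFinset) (t := M.toFinset.powerset) φ
      (by
        intro q _
        simp only [Finset.coe_powerset, Set.mem_preimage, Set.mem_powerset_iff,
          Finset.coe_subset]
        exact Finset.filter_subset _ _) hinj
    rw [Finset.card_powerset, ← Set.ncard_eq_toFinset_card', ← Set.ncard_eq_toFinset_card'] at h1
    have h2 : 2 ^ M.ncard ≤ 2 ^ R := Nat.pow_le_pow_right (by omega) (le_of_lt hcon)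
    omega

end big

end Pool.Agent.H67.WQ
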