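import Pool.Agent.H67.WQ.Two2

set_option autoImplicit false

namespace Pool.Agent.H67.WQ

/-- the outer neighbours of a set -/
def NB {V : Type} (G : SimpleGraph V) (E : Set V) : Set V := {v | v ∉ E ∧ ∃ e ∈ E, G.Adj e v}

/-- a member of the class with a clique and many middle vertices -/
structure Setup (K R : ℕ) {V : Type} [Fintype V] (G : SimpleGraph V) (Q Q' : Set V) : Prop where
  h : InTwo K G
  hQ : ∀ a ∈ Q, ∀ b ∈ Q, a ≠ b → G.Adj a b
  hQ' : Q' ⊆ Q
  small : ∀ x ∉ Q, (TT G Q x).ncard < R → ∀ q ∈ TT G Q x, q ∉ Q'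
  mid : R ≤ (Mid G Q Q' R).ncard
  hR : 8 * K + 16 ≤ R

section setup
variable {V : Type} [Fintype V] {G : SimpleGraph V} {K R : ℕ} {Q Q' : Set V}

theorem Setup.smallcut_aux (hs : Setup K R G Q Q') : ∀ (m : ℕ) (E : Set V),
    Fintype.card V - E.ncard = m → Cn G E → (∀ x ∈ E, x ∉ Q) → (NB G E).ncard ≤ 4 → False := by
  intro m
  induction m using Nat.strong_induction_on with
  | _ m ih =>
  intro E hm hE hEQ hN
  have hR := hs.hR
  have hR4 : 4 < R := by omega
  -- enlarging E is impossible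
  have hmax : ∀ E', E ⊆ E' → (∃ v ∈ E', v ∉ E) → Cn G E' → (∀ x ∈ E', x ∉ Q) →
      (NB G E').ncard ≤ 4 → False := by
    intro E' h1 h2 h3 h4 h5
    obtain ⟨v, hv, hv'⟩ := h2
    have h6 : E.ncard < E'.ncard := Set.ncard_lt_ncard ⟨h1, fun h => hv' (h hv)⟩ (Set.toFinite _)
    have h7 : E'.ncard ≤ Fintype.card V := by
      have := Set.ncard_le_ncard (Set.subset_univ E') (Set.toFinite _)
      rw [Set.ncard_univ, Nat.card_eq_fintype_card] at this
      exact this
    exact ih (Fintype.card V - E'.ncard) (by omega) E' rfl h3 h4 h5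
  -- the vertex x
  obtain ⟨x, hxM, hxN⟩ : ∃ x ∈ Mid G Q Q' R, x ∉ NB G E := by
    by_contra hcon
    push Not at hcon
    have h1 := Set.ncard_le_ncard (fun x hx => hcon x hx : Mid G Q Q' R ⊆ NB G E)
      (Set.toFinite _)
    have h2 := hs.mid
    omega
  obtain ⟨hxQ, hxT, hxT'⟩ := hxM
  have hxE : x ∉ E := by
    intro hxE
    have h0 : TT G Q x ⊆ NB G E := fun q hq => ⟨fun hqE => hEQ q hqE hq.1, x, hxE, hq.2⟩
    have h1 := Set.ncard_le_ncard h0 (Set.toFinite _)
    omega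
  obtain ⟨y, ⟨hyQ', hyQ, hxy⟩, hyN⟩ : ∃ y ∈ Q' ∩ MM G Q x, y ∉ NB G E := by
    by_contra hcon
    push Not at hcon
    have h1 := Set.ncard_le_ncard (fun x hx => hcon x hx : Q' ∩ MM G Q x ⊆ NB G E)
      (Set.toFinite _)
    omega
  have hyE : y ∉ E := fun h => hEQ y h hyQ
  obtain ⟨q0, hq0Q, hxq0⟩ : (TT G Q x).Nonempty := by
    rw [← Set.ncard_pos]; omega
  have hq0y : q0 ≠ y := fun e => hxy (e ▸ hxq0)
  have hq0E : q0 ∉ E := fun h => hEQ q0 h hq0Q
  have hxyne : x ≠ y := fun e => hxQ (e ▸ hyQ)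
  set S1 : Set V := E ∪ {x, y} with hS1
  have hmemS1 : ∀ v, v ∈ S1 ↔ v ∈ E ∨ v = x ∨ v = y := fun v => Iff.rfl
  have hq0S : q0 ∉ S1 := by
    rw [hmemS1]
    rintro (h | h | h)
    · exact hq0E h
    · exact hxq0.ne h.symm
    · exact hq0y h
  set B := comp G S1 q0 with hB
  have hBc : Cn G B := cn_comp hq0S
  have hQB : ∀ q ∈ Q, q ≠ y → q ∈ B := by
    intro q hq hqy
    by_cases hqq : q = q0
    · rw [hqq]; exact mem_comp_self hq0S
    · apply comp_closed (mem_comp_self hq0S) _ (hs.hQ q0 hq0Q q hq (Ne.symm hqq))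
      rw [hmemS1]
      rintro (h | h | h)
      · exact hEQ q h hq
      · exact hxQ (h ▸ hq)
      · exact hqy h
  have hyn : ∀ v, v ∉ B → v ∉ S1 → ¬ G.Adj v y := by
    intro v hvB hvS hvy
    have hvQ : v ∉ Q := fun h => hvB (hQB v h hvy.ne)
    have h1 : TT G Q v ⊆ {y} := by
      rintro q ⟨hq, hvq⟩
      by_contra hqy
      exact hvB (comp_closed (hQB q hq hqy) hvS hvq.symm)
    have h2 := Set.ncard_le_ncard h1 (Set.toFinite _)
    rw [Set.ncard_singleton] at h2
    exact hs.small v hvQ (by omega) y ⟨hyQ, hvy⟩ hyQ'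
  have hNB : NB G E ⊆ B := by
    intro v hv
    by_contra hvB
    have hvx : v ≠ x := fun e => hxN (e ▸ hv)
    have hvy : v ≠ y := fun e => hyN (e ▸ hv)
    have hvS : v ∉ S1 := by
      rw [hmemS1]
      rintro (h | h | h)
      · exact hv.1 h
      · exact hvx h
      · exact hvy h
    obtain ⟨hvE, e, he, hev⟩ := hv
    have hDB : ∀ w ∈ comp G S1 v, w ∉ B := by
      intro w hw hwB
      apply hvB
      rw [hB, ← comp_eq hwB, comp_eq hw]
      exact mem_comp_self hvS
    refine hmax (E ∪ comp G S1 v) Set.subset_union_left ⟨v, Or.inr (mem_comp_self hvS), hvE⟩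
      (cn_union G hE (cn_comp hvS) (Or.inr ⟨e, he, v, mem_comp_self hvS, hev⟩)) ?_ ?_
    · rintro w (hw | hw)
      · exact hEQ w hw
      · intro hwQ
        have hwS := comp_disj hw
        exact hDB w hw (hQB w hwQ (fun e => hwS (by rw [hmemS1]; exact Or.inr (Or.inr e))))
    · have h1 : NB G (E ∪ comp G S1 v) ⊆ insert x (NB G E \ {v}) := by
        rintro w ⟨hwn, d, hd, hdw⟩
        have hwE : w ∉ E := fun h => hwn (Or.inl h)
        have hwD : w ∉ comp G S1 v := fun h => hwn (Or.inr h)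
        rcases hd with hd | hd
        · right
          refine ⟨⟨hwE, d, hd, hdw⟩, ?_⟩
          rintro rfl
          exact hwD (mem_comp_self hvS)
        · have hwS : w ∈ S1 := by
            by_contra hwS
            exact hwD (comp_closed hd hwS hdw)
          rw [hmemS1] at hwS
          rcases hwS with h | h | h
          · exact absurd h hwE
          · exact Or.inl h
          · exfalso
            exact hyn d (hDB d hd) (comp_disj hd) (h ▸ hdw)
      have h2 := Set.ncard_le_ncard h1 (Set.toFinite _)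
      have h3 := Set.ncard_insert_le x (NB G E \ {v})
      have h4 : (NB G E \ {v}).ncard < (NB G E).ncard :=
        Set.ncard_sdiff_singleton_lt_of_mem ⟨hvE, e, he, hev⟩
      omega
  -- three components
  obtain ⟨e, he⟩ := hE.1
  have heB : e ∉ B := fun h => comp_disj h (Or.inl he)
  have hxB : x ∉ B := fun h => comp_disj h (Or.inr (Or.inl rfl))
  have hyB : y ∉ B := fun h => comp_disj h (Or.inr (Or.inr rfl))
  have hce : ∀ w ∈ comp G B e, w ∈ E := by
    rintro w ⟨T, hT, hTB, heT, hwT⟩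
    by_contra hwE
    obtain ⟨a, ha, b, hb, hab⟩ := hT.2 (T ∩ E) Set.inter_subset_left ⟨e, heT, he⟩
      ⟨w, hwT, fun h => hwE h.2⟩
    exact hTB b hb.1 (hNB ⟨fun h => hb.2 ⟨hb.1, h⟩, a, ha.2, hab⟩)
  have hcy : ∀ w ∈ comp G B y, w = y := by
    rintro w ⟨T, hT, hTB, hyT, hwT⟩
    by_contra hwy
    obtain ⟨a, ha, b, hb, hab⟩ := hT.2 {y} (Set.singleton_subset_iff.2 hyT) ⟨y, rfl⟩
      ⟨w, hwT, hwy⟩
    have hay : a = y := ha
    subst hay
    have hbB := hTB b hb.1
    have hbS : b ∉ S1 := by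
      rw [hmemS1]
      rintro (h | h | h)
      · exact hyN ⟨hyE, b, h, hab.symm⟩
      · exact hxy (h ▸ hab.symm)
      · exact hb.2 h
    exact hyn b hbB hbS hab.symm
  have hcomps := ncard_comps hs.h.star hBc
  have hsub : ({comp G B e, comp G B x, comp G B y} : Set (Set V)) ⊆ Comps G B := by
    rintro D (h | h | h)
    · exact ⟨e, heB, h⟩
    · exact ⟨x, hxB, h⟩
    · exact ⟨y, hyB, h⟩
  have h1 := Set.ncard_le_ncard hsub (Set.toFinite _)
  have h2 : ({comp G B e, comp G B x, comp G B y} : Set (Set V)).ncard = 3 := by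
    rw [Set.ncard_eq_three]
    refine ⟨_, _, _, ?_, ?_, ?_, rfl⟩
    · intro h
      have : x ∈ comp G B e := by rw [h]; exact mem_comp_self hxB
      exact hxE (hce x this)
    · intro h
      have : y ∈ comp G B e := by rw [h]; exact mem_comp_self hyB
      exact hyE (hce y this)
    · intro h
      have : x ∈ comp G B y := by rw [← h]; exact mem_comp_self hxB
      exact hxyne (hcy x this)
  omega

theorem Setup.smallcut (hs : Setup K R G Q Q') {E : Set V} (hE : Cn G E)
    (hEQ : ∀ x ∈ E, x ∉ Q) : 4 < (NB G E).ncard := by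
  by_contra h
  exact hs.smallcut_aux _ E rfl hE hEQ (by omega)

omit [Fintype V] in
theorem NB_comp {S : Set V} (x : V) : NB G (comp G S x) ⊆ S := by
  rintro v ⟨hv, e, he, hev⟩
  by_contra hvS
  exact hv (comp_closed he hvS hev)

theorem Setup.mid_nonempty (hs : Setup K R G Q Q') : ∃ x y q, x ∉ Q ∧ y ∈ Q ∧ q ∈ Q ∧
    ¬ G.Adj x y ∧ G.Adj x q := by
  have hR := hs.hR
  obtain ⟨x, hx⟩ : (Mid G Q Q' R).Nonempty := by
    rw [← Set.ncard_pos]
    have := hs.mid
    omega
  obtain ⟨y, hy⟩ : (Q' ∩ MM G Q x).Nonempty := by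
    rw [← Set.ncard_pos]
    have := hx.2.2
    omega
  obtain ⟨q, hq⟩ : (TT G Q x).Nonempty := by
    rw [← Set.ncard_pos]
    have := hx.2.1
    omega
  exact ⟨x, y, q, hx.1, hy.2.1, hq.1, hy.2.2, hq.2⟩

theorem Setup.alpha (hs : Setup K R G Q Q') {a b c : V} (hab : a ≠ b) (hac : a ≠ c)
    (hbc : b ≠ c) (h1 : ¬ G.Adj a b) (h2 : ¬ G.Adj a c) (h3 : ¬ G.Adj b c) : False := by
  set I : Set V := {a, b, c} with hI
  have hIc : I.ncard = 3 := by
    rw [Set.ncard_eq_three]
    exact ⟨a, b, c, hab, hac, hbc, rfl⟩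
  have hII : ∀ x ∈ I, ∀ y ∈ I, x ≠ y → ¬ G.Adj x y := by
    rintro x (rfl | rfl | rfl) y (rfl | rfl | rfl) hxy
    · exact absurd rfl hxy
    · exact h1
    · exact h2
    · exact fun h => h1 h.symm
    · exact absurd rfl hxy
    · exact h3
    · exact fun h => h2 h.symm
    · exact fun h => h3 h.symm
    · exact absurd rfl hxy
  obtain ⟨x, y, q, hx, hy, hq, hxy, hxq⟩ := hs.mid_nonempty
  have hyq : y ≠ q := fun e => hxy (e ▸ hxq)
  obtain ⟨q0, hq0, hq0I⟩ : ∃ q0 ∈ Q, q0 ∉ I := by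
    by_cases hyI : y ∈ I
    · exact ⟨q, hq, fun hqI => hII y hyI q hqI hyq (hs.hQ y hy q hq hyq)⟩
    · exact ⟨y, hy, hyI⟩
  have hQI : ∀ q ∈ Q, q ∉ I → q ∈ comp G I q0 := by
    intro q hq hqI
    by_cases hqq : q = q0
    · rw [hqq]; exact mem_comp_self hq0I
    · exact comp_closed (mem_comp_self hq0I) hqI (hs.hQ q0 hq0 q hq (Ne.symm hqq))
  have hall : Iᶜ = comp G I q0 := by
    ext v
    constructor
    · intro hv
      by_contra hvB
      have hN : (NB G (comp G I v)).ncard ≤ 3 := by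
        rw [← hIc]
        exact Set.ncard_le_ncard (NB_comp v) (Set.toFinite _)
      have := hs.smallcut (cn_comp hv) (by
        intro w hw hwQ
        apply hvB
        have hwB := hQI w hwQ (comp_disj hw)
        rw [← comp_eq hwB, comp_eq hw]
        exact mem_comp_self hv)
      omega
    · exact fun hv => comp_disj hv
  have := ncard_indep hs.h.star hII (by rw [hall]; exact cn_comp hq0I)
  omega

theorem Setup.route (hs : Setup K R G Q Q') (v : V) (U : Set V) (hvU : v ∈ U)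
    (hU : U.ncard < R) : ∃ A : Set V, Cn G A ∧ (∀ w ∈ A, w ∉ U) ∧ (∃ q ∈ A, q ∈ Q) ∧
      (∃ w ∈ A, G.Adj w v) ∧ A.ncard ≤ 2 := by
  by_contra hcon
  push Not at hcon
  have ha : ∀ q ∈ Q, q ∉ U → ¬ G.Adj q v := by
    intro q hq hqU hqv
    have := hcon {q} (cn_singleton G q) (by rintro w rfl; exact hqU) ⟨q, rfl, hq⟩ ⟨q, rfl, hqv⟩
    rw [Set.ncard_singleton] at this
    omega
  have hb : ∀ w ∉ U, ∀ q ∈ TT G Q w, q ∉ U → ¬ G.Adj w v := by
    intro w hwU q hq hqU hwv
    have := hcon {w, q} (cn_insert (cn_singleton G q) rfl hq.2.symm) (by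
      rintro u (rfl | rfl)
      · exact hwU
      · exact hqU) ⟨q, Or.inr rfl, hq.1⟩ ⟨w, Or.inl rfl, hwv⟩
    rw [Set.ncard_pair hq.2.ne] at this
    omega
  obtain ⟨x, hxM, hxU⟩ : ∃ x ∈ Mid G Q Q' R, x ∉ U := by
    by_contra hcon
    push Not at hcon
    have h1 := Set.ncard_le_ncard (fun x hx => hcon x hx : Mid G Q Q' R ⊆ U)
      (Set.toFinite _)
    have h2 := hs.mid
    omega
  obtain ⟨hxQ, hxT, hxT'⟩ := hxM
  obtain ⟨q, hq, hqU⟩ : ∃ q ∈ TT G Q x, q ∉ U := by
    by_contra hcon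
    push Not at hcon
    have h1 := Set.ncard_le_ncard (fun x hx => hcon x hx : TT G Q x ⊆ U)
      (Set.toFinite _)
    omega
  obtain ⟨y, ⟨_, hyQ, hxy⟩, hyU⟩ : ∃ y ∈ Q' ∩ MM G Q x, y ∉ U := by
    by_contra hcon
    push Not at hcon
    have h1 := Set.ncard_le_ncard (fun x hx => hcon x hx : Q' ∩ MM G Q x ⊆ U)
      (Set.toFinite _)
    omega
  exact hs.alpha (a := v) (b := x) (c := y) (fun e => hxU (e ▸ hvU)) (fun e => hyU (e ▸ hvU))
    (fun e => hxQ (e ▸ hyQ)) (fun h => hb x hxU q hq hqU h.symm) (fun h => ha y hyQ hyU h.symm) hxy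

theorem Setup.routes (hs : Setup K R G Q Q') (z : Fin 4 → V) : ∀ k, 8 * k + 8 ≤ R →
    ∃ A : Fin k → Set V, (∀ i, Cn G (A i)) ∧ (∀ i j v, v ∈ A i → v ∈ A j → i = j) ∧
      (∀ i j, z j ∉ A i) ∧ (∀ i, ∃ q ∈ A i, q ∈ Q) ∧ (∀ i j, ∃ x ∈ A i, G.Adj x (z j)) ∧
      (⋃ i, A i).ncard ≤ 8 * k := by
  intro k
  induction k with
  | zero =>
    intro _
    refine ⟨fun i => i.elim0, fun i => i.elim0, fun i => i.elim0, fun i => i.elim0,
      fun i => i.elim0, fun i => i.elim0, ?_⟩
    simp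
  | succ k ih =>
    intro hk
    obtain ⟨A, hA, hAd, hAz, hAQ, hAa, hAc⟩ := ih (by omega)
    set U : Set V := Set.range z ∪ ⋃ i, A i with hU
    have hUc : U.ncard ≤ 4 + 8 * k := by
      rw [hU]
      have h1 := Set.ncard_union_le (Set.range z) (⋃ i, A i)
      have h2 : (Set.range z).ncard ≤ 4 := by
        rw [← Set.image_univ]
        refine (Set.ncard_image_le (Set.toFinite _)).trans ?_
        rw [Set.ncard_univ]
        simp
      omega
    have hr := fun j => hs.route (z j) U (Or.inl ⟨j, rfl⟩) (by omega)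
    choose A' hA' hA'U hA'Q hA'z hA'c using hr
    let N : Set V := ⋃ j, A' j
    have hNU : ∀ w ∈ N, w ∉ U := by
      intro w hw
      rw [Set.mem_iUnion] at hw
      obtain ⟨j, hj⟩ := hw
      exact hA'U j w hj
    have hN : Cn G N := by
      apply cn_of_base (hA' 0) (Set.subset_iUnion A' 0)
      intro v hv
      obtain ⟨j, hj⟩ := Set.mem_iUnion.1 hv
      refine ⟨A' j, Set.subset_iUnion A' j, hA' j, hj, ?_⟩
      obtain ⟨q, hq, hqQ⟩ := hA'Q 0
      obtain ⟨q', hq', hqQ'⟩ := hA'Q j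
      by_cases hqq : q = q'
      · left; exact ⟨q, hq, by rw [hqq]; exact hq'⟩
      · right; exact ⟨q, hq, q', hq', hs.hQ q hqQ q' hqQ' hqq⟩
    have hNc : N.ncard ≤ 8 := by
      have h1 : N ⊆ (A' 0 ∪ A' 1) ∪ (A' 2 ∪ A' 3) := by
        intro v hv
        obtain ⟨j, hj⟩ := Set.mem_iUnion.1 hv
        fin_cases j
        · exact Or.inl (Or.inl hj)
        · exact Or.inl (Or.inr hj)
        · exact Or.inr (Or.inl hj)
        · exact Or.inr (Or.inr hj)
      have h2 := Set.ncard_le_ncard h1 (Set.toFinite _)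
      have h3 := Set.ncard_union_le (A' 0 ∪ A' 1) (A' 2 ∪ A' 3)
      have h4 := Set.ncard_union_le (A' 0) (A' 1)
      have h5 := Set.ncard_union_le (A' 2) (A' 3)
      have h6 := hA'c 0
      have h7 := hA'c 1
      have h8 := hA'c 2
      have h9 := hA'c 3
      omega
    have hNA : ∀ i v, v ∈ A i → v ∉ N := fun i v hv hN =>
      hNU v hN (Or.inr (Set.mem_iUnion.2 ⟨i, hv⟩))
    refine ⟨Fin.cons N A, ?_, ?_, ?_, ?_, ?_, ?_⟩
    · intro i
      refine Fin.cases ?_ (fun i => ?_) i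
      · exact hN
      · exact hA i
    · intro i j v
      refine Fin.cases ?_ (fun i => ?_) i <;> refine Fin.cases ?_ (fun j => ?_) j
      · intro _ _; rfl
      · intro h1 h2
        exact absurd h1 (hNA j v h2)
      · intro h1 h2
        exact absurd h2 (hNA i v h1)
      · intro h1 h2
        exact congrArg Fin.succ (hAd i j v h1 h2)
    · intro i j
      refine Fin.cases ?_ (fun i => ?_) i
      · exact fun h => hNU _ h (Or.inl ⟨j, rfl⟩)
      · exact hAz i j
    · intro i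
      refine Fin.cases ?_ (fun i => ?_) i
      · obtain ⟨q, hq, hqQ⟩ := hA'Q 0
        exact ⟨q, Set.mem_iUnion.2 ⟨0, hq⟩, hqQ⟩
      · exact hAQ i
    · intro i j
      refine Fin.cases ?_ (fun i => ?_) i
      · obtain ⟨w, hw, hwz⟩ := hA'z j
        exact ⟨w, Set.mem_iUnion.2 ⟨j, hw⟩, hwz⟩
      · exact hAa i j
    · have h1 : (⋃ i, (Fin.cons N A : Fin (k + 1) → Set V) i) ⊆ N ∪ ⋃ i, A i := by
        intro v hv
        obtain ⟨i, hi⟩ := Set.mem_iUnion.1 hv
        revert hi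
        refine Fin.cases ?_ (fun i => ?_) i
        · intro h; exact Or.inl h
        · intro h; exact Or.inr (Set.mem_iUnion.2 ⟨i, h⟩)
      have h2 := Set.ncard_le_ncard h1 (Set.toFinite _)
      have h3 := Set.ncard_union_le N (⋃ i, A i)
      omega

theorem Setup.c4free (hs : Setup K R G Q Q') {a b c d : V} (hab : a ≠ b) (hcd : c ≠ d)
    (h1 : ¬ G.Adj a b) (h2 : ¬ G.Adj c d) (h3 : G.Adj a c) (h4 : G.Adj a d) (h5 : G.Adj b c)
    (h6 : G.Adj b d) : False := by
  have hR := hs.hR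
  let z : Fin 4 → V := ![a, b, c, d]
  obtain ⟨A, hA, hAd, hAz, hAQ, hAa, _⟩ := hs.routes z (K + 1) (by omega)
  obtain ⟨y, hy, hyz⟩ := absorb hs.h z (by
      intro j k hjk
      fin_cases j <;> fin_cases k <;> simp [z] at hjk ⊢
      · exact hab hjk
      · exact h3.ne hjk
      · exact h4.ne hjk
      · exact hab hjk.symm
      · exact h5.ne hjk
      · exact h6.ne hjk
      · exact h3.ne hjk.symm
      · exact h5.ne hjk.symm
      · exact hcd hjk
      · exact h4.ne hjk.symm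
      · exact h6.ne hjk.symm
      · exact hcd hjk.symm) h1 h2 h3 h4 h5 h6 (ι := Fin (K + 1))
    (by rw [Fintype.card_fin]; omega) A hA hAd hAz (by
      intro i j hij
      obtain ⟨q, hq, hqQ⟩ := hAQ i
      obtain ⟨q', hq', hqQ'⟩ := hAQ j
      refine ⟨q, hq, q', hq', hs.hQ q hqQ q' hqQ' ?_⟩
      rintro rfl
      exact hij (hAd i j q hq hq')) hAa
  set S0 := Set.range z ∪ ⋃ i, A i with hS0
  have hQ0 : ∀ w ∈ comp G S0 y, w ∉ Q := by
    intro w hw hwQ
    obtain ⟨q, hq, hqQ⟩ := hAQ 0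
    have hqS : q ∈ S0 := Or.inr (Set.mem_iUnion.2 ⟨0, hq⟩)
    have hne : q ≠ w := fun e => comp_disj hw (e ▸ hqS)
    obtain ⟨j, hj⟩ := hyz q hqS ⟨w, hw, hs.hQ q hqQ w hwQ hne⟩
    exact hAz 0 j (hj ▸ hq)
  have h7 := hs.smallcut (cn_comp hy) hQ0
  have h8 : NB G (comp G S0 y) ⊆ Set.range z := by
    rintro v ⟨hv, e, he, hev⟩
    have hvS : v ∈ S0 := by
      by_contra hvS
      exact hv (comp_closed he hvS hev)
    exact hyz v hvS ⟨e, he, hev.symm⟩
  have h9 := Set.ncard_le_ncard h8 (Set.toFinite _)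
  have h10 : (Set.range z).ncard ≤ 4 := by
    rw [← Set.image_univ]
    refine (Set.ncard_image_le (Set.toFinite _)).trans ?_
    rw [Set.ncard_univ]
    simp
  omega

end setup

/-! ### The complement -/

/-- distinct and nonadjacent -/
def NA {V : Type} (G : SimpleGraph V) (a b : V) : Prop := a ≠ b ∧ ¬ G.Adj a b

theorem NA.symm {V : Type} {G : SimpleGraph V} {a b : V} (h : NA G a b) : NA G b a :=
  ⟨h.1.symm, fun h' => h.2 h'.symm⟩

theorem NA.or {V : Type} {G : SimpleGraph V} {a b : V} (h : ¬ NA G a b) (hne : a ≠ b) :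
    G.Adj a b := by
  by_contra h'
  exact h ⟨hne, h'⟩

/-- no three independent vertices, no induced four-cycle -/
structure Thin {V : Type} (G : SimpleGraph V) : Prop where
  tri : ∀ a b c, NA G a b → NA G a c → NA G b c → False
  c4 : ∀ a b c d, NA G a b → NA G c d → G.Adj a c → G.Adj a d → G.Adj b c → G.Adj b d → False

/-- patterns of a vertex on a five-cycle -/
def vb (p : Fin 5 → Bool) : Bool :=
  !(p 0 && p 1) && !(p 1 && p 2) && !(p 2 && p 3) && !(p 3 && p 4) && !(p 4 && p 0) &&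
  (!p 0 || p 2 || p 3) && (!p 1 || p 3 || p 4) && (!p 2 || p 4 || p 0) && (!p 3 || p 0 || p 1) &&
  (!p 4 || p 1 || p 2)

theorem vb_cases (p : Fin 5 → Bool) (h : vb p = true) :
    p = ![false, false, false, false, false] ∨ p = ![true, false, true, false, false] ∨
    p = ![false, true, false, true, false] ∨ p = ![false, false, true, false, true] ∨
    p = ![true, false, false, true, false] ∨ p = ![false, true, false, false, true] := by
  have e : p = ![p 0, p 1, p 2, p 3, p 4] := by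
    funext i
    fin_cases i <;> rfl
  rw [e] at h ⊢
  generalize p 0 = a at *
  generalize p 1 = b at *
  generalize p 2 = c at *
  generalize p 3 = d at *
  generalize p 4 = f at *
  clear e
  revert h
  revert a b c d f
  decide

theorem pattern_fact (p r : Fin 5 → Bool) (hp : vb p = true) (hr : vb r = true)
    (h1 : ∀ j, ¬ (p j = true ∧ r j = true))
    (h2 : ∀ j, p j = true ∨ p (j + 1) = true ∨ r j = true ∨ r (j + 1) = true) :
    ∃ j k, r j = true ∧ p k = true ∧ r k = false ∧ p j = false ∧ j ≠ k ∧ k ≠ j + 1 ∧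
      j ≠ k + 1 := by
  rcases vb_cases p hp with rfl | rfl | rfl | rfl | rfl | rfl <;>
    rcases vb_cases r hr with rfl | rfl | rfl | rfl | rfl | rfl <;>
    first
    | (exfalso; revert h1; decide)
    | (exfalso; revert h2; decide)
    | decide

theorem vb_of (p : Fin 5 → Bool) (h1 : ∀ j, ¬ (p j = true ∧ p (j + 1) = true))
    (h2 : ∀ j, p j = true → p (j + 2) = true ∨ p (j + 3) = true) : vb p = true := by
  have a0 : ¬ (p 0 = true ∧ p 1 = true) := h1 0
  have a1 : ¬ (p 1 = true ∧ p 2 = true) := h1 1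
  have a2 : ¬ (p 2 = true ∧ p 3 = true) := h1 2
  have a3 : ¬ (p 3 = true ∧ p 4 = true) := h1 3
  have a4 : ¬ (p 4 = true ∧ p 0 = true) := h1 4
  have b0 : p 0 = true → p 2 = true ∨ p 3 = true := h2 0
  have b1 : p 1 = true → p 3 = true ∨ p 4 = true := h2 1
  have b2 : p 2 = true → p 4 = true ∨ p 0 = true := h2 2
  have b3 : p 3 = true → p 0 = true ∨ p 1 = true := h2 3
  have b4 : p 4 = true → p 1 = true ∨ p 2 = true := h2 4
  clear h1 h2
  unfold vb
  generalize p 0 = a at *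
  generalize p 1 = b at *
  generalize p 2 = c at *
  generalize p 3 = d at *
  generalize p 4 = f at *
  cases a <;> cases b <;> cases c <;> cases d <;> cases f <;> simp_all

theorem fin5 : ∀ i j : Fin 5, i ≠ j → (j ≠ i + 1) → (i ≠ j + 1) → j = i + 2 ∨ i = j + 2 := by
  decide

/-- with an induced five-cycle there are at most six twin classes in a clique -/
theorem no_c5 {V : Type} [Fintype V] {G : SimpleGraph V} (hT : Thin G) (v : Fin 5 → V)
    (h1 : ∀ i, NA G (v i) (v (i + 1))) (h2 : ∀ i, G.Adj (v i) (v (i + 2))) {Q : Set V}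
    (hQ : ∀ a ∈ Q, ∀ b ∈ Q, a ≠ b → G.Adj a b)
    (htw : ∀ a ∈ Q, ∀ b ∈ Q, clN G a = clN G b → a = b) : Q.ncard ≤ 32 := by
  classical
  let b : V → Fin 5 → Bool := fun w i => decide (NA G w (v i))
  have hb : ∀ w i, b w i = true ↔ NA G w (v i) := fun w i => by simp [b]
  have hb' : ∀ w i, b w i = false ↔ ¬ NA G w (v i) := fun w i => by simp [b]
  have hne : ∀ i j, i ≠ j → v i ≠ v j := by
    intro i j hij
    by_cases h3 : j = i + 1
    · rw [h3]; exact (h1 i).1
    by_cases h4 : i = j + 1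
    · rw [h4]; exact (h1 j).1.symm
    rcases fin5 i j hij h3 h4 with h | h
    · rw [h]; exact (h2 i).ne
    · rw [h]; exact (h2 j).ne.symm
  have hadj : ∀ i j, i ≠ j → j ≠ i + 1 → i ≠ j + 1 → G.Adj (v i) (v j) := by
    intro i j hij h3 h4
    rcases fin5 i j hij h3 h4 with h | h
    · rw [h]; exact h2 i
    · rw [h]; exact (h2 j).symm
  have hadj' : ∀ i j, i ≠ j → j ≠ i + 1 → i ≠ j + 1 → ¬ NA G (v i) (v j) := by
    intro i j hij h3 h4 h5
    exact h5.2 (hadj i j hij h3 h4)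
  -- induced 2K2 in the complement
  have h2k : ∀ a c i j, NA G a (v i) → NA G c (v j) → a ≠ c → ¬ NA G a c → ¬ NA G a (v j) →
      ¬ NA G c (v i) → i ≠ j → j ≠ i + 1 → i ≠ j + 1 → False := by
    intro a c i j h3 h4 hac h5 h6 h7 h8 h9 h10
    have e1 : a ≠ v j := by
      rintro rfl
      exact h5 h4.symm
    have e2 : c ≠ v i := by
      rintro rfl
      exact h5 h3
    exact hT.c4 a (v i) c (v j) h3 h4 (NA.or h5 hac) (NA.or h6 e1)
      (NA.or (fun h => h7 h.symm) e2.symm) (hadj i j h8 h9 h10)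
  have d1 : ∀ j : Fin 5, j + 2 ≠ j ∧ j ≠ j + 2 + 1 ∧ j + 2 ≠ j + 1 ∧ j + 3 ≠ j ∧ j ≠ j + 3 + 1 ∧
      j + 3 ≠ j + 1 ∧ j + 2 + 1 = j + 3 := by decide
  have hvalid : ∀ w, vb (b w) = true := by
    intro w
    apply vb_of
    · rintro j ⟨h3, h4⟩
      rw [hb] at h3 h4
      exact hT.tri w (v j) (v (j + 1)) h3 h4 (h1 j)
    · intro j h3
      rw [hb] at h3
      by_contra hcon
      push Not at hcon
      obtain ⟨h4, h5⟩ := hcon
      rw [Ne, hb] at h4 h5
      have e1 : w ≠ v (j + 2) := by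
        rintro rfl
        exact hadj' (j + 2) j (d1 j).1 (d1 j).2.1 (d1 j).2.2.1 h3
      have e2 : w ≠ v (j + 3) := by
        rintro rfl
        exact hadj' (j + 3) j (d1 j).2.2.2.1 (d1 j).2.2.2.2.1 (d1 j).2.2.2.2.2.1 h3
      have h6 : NA G (v (j + 2)) (v (j + 3)) := by
        have := h1 (j + 2)
        have e : j + 2 + 1 = j + 3 := (d1 j).2.2.2.2.2.2
        rw [e] at this
        exact this
      exact hT.c4 w (v j) (v (j + 2)) (v (j + 3)) h3 h6 (NA.or h4 e1) (NA.or h5 e2)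
        (hadj j (j + 2) (d1 j).1.symm (d1 j).2.2.1 (d1 j).2.1)
        (hadj j (j + 3) (d1 j).2.2.2.1.symm (d1 j).2.2.2.2.2.1 (d1 j).2.2.2.2.1)
  have key : ∀ w w', b w = b w' → ∀ u, u ≠ w → u ≠ w' → NA G u w → NA G u w' := by
    intro w w' hww u huw huw' h3
    by_contra h4
    obtain ⟨j, k, hj, hk, hk', hj', hjk, hkj1, hjk1⟩ := pattern_fact (b w) (b u) (hvalid w)
      (hvalid u) (by
        rintro j ⟨h5, h6⟩
        rw [hb] at h5 h6
        exact hT.tri u w (v j) h3 h6 h5) (by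
        intro j
        by_contra hcon
        push Not at hcon
        obtain ⟨h5, h6, h7, h8⟩ := hcon
        rw [Ne, hb] at h5 h6 h7 h8
        have e1 : u ≠ v j := by rintro rfl; exact h5 h3.symm
        have e2 : u ≠ v (j + 1) := by rintro rfl; exact h6 h3.symm
        have e3 : w ≠ v j := by rintro rfl; exact h7 h3
        have e4 : w ≠ v (j + 1) := by rintro rfl; exact h8 h3
        exact hT.c4 u w (v j) (v (j + 1)) h3 (h1 j) (NA.or h7 e1) (NA.or h8 e2) (NA.or h5 e3)
          (NA.or h6 e4))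
    rw [hww] at hk hj'
    rw [hb] at hj hk
    rw [hb'] at hk' hj'
    exact h2k u w' j k hj hk huw' h4 hk' hj' hjk hkj1 hjk1
  have hinj : Set.InjOn b Q := by
    intro a ha c hc hac
    apply htw a ha c hc
    by_contra hcl
    have hne' : a ≠ c := by
      rintro rfl
      exact hcl rfl
    apply hcl
    have hadjac := hQ a ha c hc hne'
    ext w
    by_cases hwa : w = a
    · subst hwa
      exact ⟨fun _ => Or.inr hadjac.symm, fun _ => Or.inl rfl⟩
    · by_cases hwc : w = c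
      · subst hwc
        exact ⟨fun _ => Or.inl rfl, fun _ => Or.inr hadjac⟩
      · have k1 := key a c hac w hwa hwc
        have k2 := key c a hac.symm w hwc hwa
        constructor
        · rintro (h' | h')
          · exact absurd h' hwa
          · right
            by_contra h3
            exact (k2 ⟨hwc, fun h => h3 h.symm⟩).2 h'.symm
        · rintro (h' | h')
          · exact absurd h' hwc
          · right
            by_contra h3
            exact (k1 ⟨hwa, fun h => h3 h.symm⟩).2 h'.symm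
  have h3 := Set.ncard_le_ncard_of_injOn (t := Set.univ) b (fun _ _ => Set.mem_univ _) hinj
    (Set.toFinite _)
  have h4 : (Set.univ : Set (Fin 5 → Bool)).ncard = 32 := by
    rw [Set.ncard_univ]
    simp
  omega

/-- thin graphs without induced five-cycles are co-bipartite -/
theorem cobip {V : Type} {G : SimpleGraph V} (hT : Thin G) {a b : V} (hab : NA G a b)
    (h5 : ¬ ∃ v : Fin 5 → V, (∀ i, NA G (v i) (v (i + 1))) ∧ ∀ i, G.Adj (v i) (v (i + 2))) :
    ∃ P : Set V, b ∉ P ∧ a ∈ P ∧ (∀ x ∈ P, ∀ y ∈ P, x ≠ y → G.Adj x y) ∧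
      ∀ x ∉ P, ∀ y ∉ P, x ≠ y → G.Adj x y := by
  refine ⟨{w | ∀ α, NA G b α → ¬ NA G α w}, ?_, ?_, ?_, ?_⟩
  · intro h
    exact h a hab.symm hab
  · intro α h1 h2
    exact hT.tri b α a h1 hab.symm h2
  · intro x hx y hy hxy
    by_contra hn
    have hn' : NA G x y := ⟨hxy, hn⟩
    have h1 : ¬ NA G b x := fun h => hy x h hn'
    have h2 : ¬ NA G b y := fun h => hx y h hn'.symm
    have h3 : ¬ NA G a x := hx a hab.symm
    have h4 : ¬ NA G a y := hy a hab.symm
    have e1 : a ≠ x := by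
      rintro rfl
      exact h1 hab.symm
    have e2 : a ≠ y := by
      rintro rfl
      exact h2 hab.symm
    have e3 : b ≠ x := by
      rintro rfl
      exact hx a hab.symm hab
    have e4 : b ≠ y := by
      rintro rfl
      exact hy a hab.symm hab
    exact hT.c4 a b x y hab hn' (NA.or h3 e1) (NA.or h4 e2) (NA.or h1 e3) (NA.or h2 e4)
  · intro x hx y hy hxy
    by_contra hn
    have hn' : NA G x y := ⟨hxy, hn⟩
    have hx' : ¬ ∀ α, NA G b α → ¬ NA G α x := hx
    have hy' : ¬ ∀ α, NA G b α → ¬ NA G α y := hy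
    push Not at hx' hy'
    obtain ⟨α, h1, h2⟩ := hx'
    obtain ⟨β, h3, h4⟩ := hy'
    have k1 : ¬ NA G b x := fun h => hT.tri b α x h1 h h2
    have k2 : ¬ NA G b y := fun h => hT.tri b β y h3 h h4
    have k3 : ¬ NA G α β := fun h => hT.tri b α β h1 h3 h
    have k4 : ¬ NA G α y := fun h => hT.tri α x y h2 h hn'
    have k5 : ¬ NA G β x := fun h => hT.tri β x y h h4 hn'
    have e1 : α ≠ β := by
      rintro rfl
      exact k4 h4
    have e2 : b ≠ x := by
      rintro rfl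
      exact k2 hn'
    have e3 : b ≠ y := by
      rintro rfl
      exact k1 hn'.symm
    have e4 : α ≠ y := by
      rintro rfl
      exact k2 h1
    have e5 : β ≠ x := by
      rintro rfl
      exact k1 h3
    apply h5
    refine ⟨![b, α, x, y, β], ?_, ?_⟩
    · intro i
      fin_cases i
      · exact h1
      · exact h2
      · exact hn'
      · exact h4.symm
      · exact h3.symm
    · intro i
      fin_cases i
      · exact NA.or k1 e2
      · exact NA.or k4 e4
      · exact NA.or (fun h => k5 h.symm) e5.symm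
      · exact NA.or (fun h => k2 h.symm) e3.symm
      · exact NA.or (fun h => k3 h.symm) e1.symm

/-- The structure of members of the class with a large clique of pairwise distinguished
vertices. -/
theorem InTwo.structure {V : Type} [Fintype V] {G : SimpleGraph V} {K : ℕ} (h : InTwo K G)
    {Q : Set V} (hQ : ∀ a ∈ Q, ∀ b ∈ Q, a ≠ b → G.Adj a b)
    (htw : ∀ a ∈ Q, ∀ b ∈ Q, clN G a = clN G b → a = b)
    (hbig : bigN K (8 * K + 16) + 33 ≤ Q.ncard) :
    Thin G ∧ ∃ (P : Set V) (a b : V), b ∉ P ∧ a ∈ P ∧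
      (∀ x ∈ P, ∀ y ∈ P, x ≠ y → G.Adj x y) ∧ ∀ x ∉ P, ∀ y ∉ P, x ≠ y → G.Adj x y := by
  obtain ⟨Q', hQ', hsm, hmid⟩ := middle (R := 8 * K + 16) h hQ htw (by omega)
  have hs : Setup K (8 * K + 16) G Q Q' := ⟨h, hQ, hQ', hsm, hmid, le_rfl⟩
  have hT : Thin G := ⟨fun a b c h1 h2 h3 => hs.alpha h1.1 h2.1 h3.1 h1.2 h2.2 h3.2,
    fun a b c d h1 h2 h3 h4 h5 h6 => hs.c4free h1.1 h2.1 h1.2 h2.2 h3 h4 h5 h6⟩
  refine ⟨hT, ?_⟩
  obtain ⟨x, y, q, hx, hy, hq, hxy, hxq⟩ := hs.mid_nonempty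
  have hne : x ≠ y := fun e => hx (e ▸ hy)
  obtain ⟨P, h1⟩ := cobip hT (a := x) (b := y) ⟨hne, hxy⟩ (by
    rintro ⟨v, h1, h2⟩
    have := no_c5 hT v h1 h2 hQ htw
    omega)
  exact ⟨P, x, y, h1⟩

end Pool.Agent.H67.WQ
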